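import Pool.Agent.P.MP_dd077d_co.Iface3

/-! A wall advances or stops; the main theorem for triangulations. -/

namespace Pool.Agent.P.MP_dd077d_co

open Classical

namespace Adv

theorem bud_mono {T : DT0} {a : ℤ} {W : Wall T a} {β β' : ℝ} (h : W.Bud β) (hβ : β ≤ β') :
    W.Bud β' := fun G hG => (h G hG).trans hβ

theorem join (hw : S_wb) {T : DT0} {a : ℤ} (W : Wall T a) (G : Finset (Finset ℂ))
    (hG : ∀ s ∈ G, W.stripT s) : ∃ H : Finset (Finset ℂ),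
    (∀ s ∈ H, T.IsT s ∧ ∃ x ∈ s, x ∈ W.L) ∧ W.U.A + ∑ s ∈ G, cost s ≤ ∑ s ∈ H, cost s := by
  obtain ⟨F, hF, hA⟩ := W.bud
  obtain ⟨-, -, w3, w4, -⟩ := hw T a W
  have hd : Disjoint F G := Finset.disjoint_left.2 fun s hs hs' => by
    obtain ⟨x, hx, hx'⟩ := (hF s hs).2
    exact (hG s hs').2.2 x hx hx'
  refine ⟨F ∪ G, fun s hs => ?_, ?_⟩
  · rcases Finset.mem_union.1 hs with h | h
    · obtain ⟨h1, x, hx, hx'⟩ := hF s h
      exact ⟨h1, x, hx, w4 hx'⟩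
    · obtain ⟨h1, ⟨i, hi⟩, -⟩ := hG s h
      exact ⟨h1, _, hi, (w3 i).1⟩
  · rw [Finset.sum_union hd]
    exact add_le_add hA le_rfl

theorem ch0 (h : S_ch) (d : ℤ) (C : Chain d) (hd : d = 0) (hl : C.Low) (hA : C.A ≤ s3) (j : ℤ) :
    C.w j ≤ 7 / 5 := by
  subst hd
  exact h.2.1 C hl hA j

theorem ch1 (h : S_ch) (d : ℤ) (C : Chain d) (hd : d = 1) (hl : C.Low) (hA : C.A ≤ 0) :
    ∃ j, 3.62 ≤ C.dx j ∧ C.w j ≤ 0.15 ∧ C.w (j + 1) ≤ 0.15 := by
  subst hd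
  exact h.2.2 C hl hA

end Adv

open Adv

theorem adv (h1 : S_nm) (h2 : S_orb) (h3 : S_sb) (h4 : S_sa) (h5 : S_alt) (h6 : S_low)
    (h7 : S_row) (h8 : S_new) (h9 : S_step) (h10 : S_ch) (h11 : S_pv) (hw : S_wb) (hrb : S_rb) :
    S_adv := by
  intro T a W N hN
  have hinv : W.U.Inv := (W.inv a le_rfl).1
  have s1 := s3_lb
  by_cases hb : W.Bud (s3 - W.U.A)
  swap
  · unfold Wall.Bud at hb
    push Not at hb
    obtain ⟨G, hG, hlt⟩ := hb
    obtain ⟨H, hH, hs⟩ := join hw W G hG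
    exact Or.inr (Or.inl ⟨H, hH, by linarith⟩)
  have hyp : W.Hyp := by
    by_cases c : W.U.A ≤ s3 - 1 / 2
    · exact Or.inr ⟨c, hb⟩
    · exact Or.inl (bud_mono hb (by linarith [not_le.1 c]))
  obtain ⟨hno, hmo⟩ := h1 T a W hyp
  obtain ⟨st⟩ := h2 T a W N hN hno hmo
  obtain ⟨-, -, -, -, -, b6, -, -, ⟨G, hG, hGD⟩, hbD, hD0, -⟩ := h3 T a W st hno
  obtain ⟨C, hC, hD⟩ := h4 T a W st hno
  have hDle : st.D ≤ s3 - W.U.A := hGD ▸ hb G hG
  by_cases hsm : st.D ≤ 1 / 2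
  · have halt : st.Alt := h5 T a W st st.D hno hbD hsm (by
      by_cases c : W.U.A ≤ s3 - 0.3
      · exact Or.inr c
      · exact Or.inl (by linarith [not_le.1 c]))
    obtain ⟨R, -, -, r3, r4, r5, r6, r7, r8, r9⟩ := h7 T a W st C hno hC hD halt.1
    exact Or.inl (h8 T a W st R hno r3 (h9 W.U R hinv r4 r5 r6 r7 (by linarith) (by linarith)
      (Or.inl ⟨r9 halt (bud_mono hbD hsm), by linarith⟩)) r8)
  have hbig := not_le.1 hsm
  have hlow : C.Low := h6 T a W st C hno hC (by linarith) hb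
  have hCA : -0.2 ≤ C.A := by linarith [(h10.1 _ C).1, hlow.1]
  rcases (by omega : st.d ≤ -1 ∨ st.d = 0 ∨ st.d = 1 ∨ 2 ≤ st.d) with c | c | c | c
  · exact absurd (h11 _ C c hlow) (by linarith)
  · have e : (st.d : ℝ) = 0 := by exact_mod_cast c
    obtain ⟨R, -, r2, r3, r4, r5, r6, r7, r8, -⟩ := h7 T a W st C hno hC hD c
    have hw7 := ch0 h10 _ C c hlow (by rw [e] at hD; linarith)
    have hP : R.P ≤ 7 / 5 := by
      rcases (hrb R).1.2.2 with k | ⟨i, k⟩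
      · rw [k]; norm_num
      · rw [← k, r2]; exact hw7 i
    exact Or.inl (h8 T a W st R hno r3 (h9 W.U R hinv r4 r5 r6 r7 (by linarith) (by linarith)
      (Or.inr ⟨by linarith, hP⟩)) r8)
  · have e : (st.d : ℝ) = 1 := by exact_mod_cast c
    rw [e] at hD
    obtain ⟨j, j1, j2, j3⟩ := ch1 h10 _ C c hlow (by linarith)
    obtain ⟨k, k1, k2⟩ := b6 j
    have ht : T.Tri (W.v (st.I k)) (st.c j) (st.c (j + 1)) := by
      rcases st.step k with h | h
      · omega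
      · rw [← k1]; exact h.2
    obtain ⟨t, htt⟩ := T.rev (T.rot ht)
    obtain ⟨H, hH, hs⟩ := join hw W G hG
    obtain ⟨-, -, -, -, w5, w6, -⟩ := hw T a W
    have htL : t ∉ W.L := fun h => by
      rcases w5 t h with h | ⟨i, rfl⟩
      · exact (st.cmem j).2 (w6 {st.c (j + 1), st.c j, t} ⟨_, _, _, htt, rfl⟩
          ⟨t, by simp, h⟩ _ (by simp))
      · exact absurd (hmo i _ _ (T.rot (T.rot htt)) (st.cmem _).2 (st.cmem _).2)
          (not_lt.2 (st.mono j).le)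
    have d1 : ∀ i, W.dep (st.c i) = C.w i := fun i => by
      rw [hC i]; simp [Wall.dep]
    refine Or.inr (Or.inr ⟨H, st.c j, st.c (j + 1), t, hH, by linarith, htt, (st.cmem _).2,
      (st.cmem _).2, htL, ?_, ?_, ?_, ?_, ?_⟩)
    · rw [hC j, hC (j + 1)]
      unfold Chain.dx at j1
      push_cast
      linarith
    · rw [d1]; exact (hlow.2.1 j).1
    · rw [d1]; exact j2
    · rw [d1]; exact (hlow.2.1 (j + 1)).1
    · rw [d1]; exact j3
  · have e : (2 : ℝ) ≤ st.d := by exact_mod_cast c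
    exfalso
    nlinarith

theorem mainT (hn : S_neg) (h0 : S_w0) (ha : S_adv) (hs : S_stops) (hf : S_fin) : S_main := by
  intro T hnear hbud
  obtain ⟨n1, -, n3⟩ := hn T
  obtain ⟨N, hN0, hN⟩ := n3 hnear
  have hN' := n1 N hN
  have key : ∀ (n : ℕ) (a b : ℤ), Nonempty (Wall T a) → Nonempty (Wall T.neg b) →
      a + b = n + 2 → T.pts ⊆ Lam := by
    intro n
    induction n with
    | zero =>
      rintro a b ⟨W⟩ ⟨W'⟩ hab
      exact hf T a b W W' N hN hnear hbud (by simpa using hab)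
    | succ n ih =>
      rintro a b ⟨W⟩ ⟨W'⟩ hab
      push_cast at hab
      rcases ha T a W N hN with h | h
      · exact ih _ _ h ⟨W'⟩ (by omega)
      rcases ha T.neg b W' N hN' with h' | h'
      · exact ih _ _ ⟨W⟩ h' (by omega)
      exact (hs T a b W W' hbud (by omega) h h').elim
  have hc : N + 10 ≤ (((⌈N⌉₊ : ℤ) + 10 : ℤ) : ℝ) := by
    push_cast
    linarith [Nat.le_ceil N]
  exact key (2 * ⌈N⌉₊ + 18) _ _ (h0 T N _ hN0 hN hc) (h0 T.neg N _ hN0 hN' hc) (by push_cast; ring)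

end Pool.Agent.P.MP_dd077d_co
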