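import Pool.Agent.P.MP_dd077d_co.Iface1

/-!
Three elementary lemmas: high apex, far neighbours, fans.
-/

namespace Pool.Agent.P.MP_dd077d_co

namespace Hgf

theorem core (p q x y h : ℝ) (hp : 0 ≤ p) (hx : 0 ≤ x) (hh : 0 ≤ h) (hq : h ≤ q)
    (hC : 0 < y * p - x * q) (ht : 4 ≤ p ^ 2 + q ^ 2) (hd : 4 ≤ x ^ 2 + y ^ 2)
    (hb : (p ^ 2 + q ^ 2) * (x ^ 2 + y ^ 2) * ((p + x) ^ 2 + (q + y) ^ 2) <
      16 * (y * p - x * q) ^ 2) : 8 ≤ (p + x) ^ 2 + (q + y) ^ 2 ∧ h < 1 := by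
  have hq0 : 0 ≤ q := hh.trans hq
  have hxq : 0 ≤ x * q := mul_nonneg hx hq0
  have hy : 0 ≤ y := by
    by_contra hy
    have : y * p ≤ 0 := mul_nonpos_of_nonpos_of_nonneg (not_le.1 hy).le hp
    linarith
  have hD : 0 ≤ p * x + q * y := by positivity
  refine ⟨by nlinarith, ?_⟩
  by_contra h1
  have hq1 : 1 ≤ q := (not_lt.1 h1).trans hq
  have h2 : 0 ≤ x * q * (y * p - x * q) := mul_nonneg hxq hC.le
  have h3 : (x ^ 2 + y ^ 2) * q ^ 2 ≤ (p * x + q * y) ^ 2 := by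
    nlinarith [sq_nonneg (p * x), sq_nonneg (x * q)]
  have h4 : x ^ 2 + y ^ 2 ≤ (p * x + q * y) ^ 2 := by
    have : 1 ≤ q ^ 2 := by nlinarith
    nlinarith
  have h5 : 2 ≤ p * x + q * y := by
    by_contra h5
    nlinarith
  have h6 : (y * p - x * q) ^ 2 ≤ (p ^ 2 + q ^ 2 - 1) * (x ^ 2 + y ^ 2) := by nlinarith
  have h7 : p ^ 2 + q ^ 2 + 8 ≤ (p + x) ^ 2 + (q + y) ^ 2 := by nlinarith
  generalize (p + x) ^ 2 + (q + y) ^ 2 = B at *
  generalize (y * p - x * q) ^ 2 = C at *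
  generalize p ^ 2 + q ^ 2 = t at *
  generalize x ^ 2 + y ^ 2 = d at *
  have h8 : t * d * (t + 8) ≤ t * d * B := mul_le_mul_of_nonneg_left h7 (by positivity)
  nlinarith [mul_nonneg (show 0 ≤ d by linarith) (sq_nonneg (t - 4))]

theorem gcore (xp ap xm am vx vy ox oy : ℝ) (h3 : 0 ≤ ap)
    (hxp : 0 < xp) (hxm : 0 < xm) (h4 : 0 ≤ am)
    (h5 : am < vy) (h6 : ap < vy) (ha : 0 < vx * am + vy * xm) (hb : 0 < xp * vy - ap * vx)
    (ev : vx ^ 2 + vy ^ 2 = 2 * (vx * ox + vy * oy))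
    (ep : xp ^ 2 + ap ^ 2 = 2 * (xp * ox + ap * oy))
    (em : 2 * (-xm * ox + am * oy) ≤ xm ^ 2 + am ^ 2)
    (tc : 0 < -xm * xp + am * ap)
    (tv : 0 < (-xm - vx) * (xp - vx) + (am - vy) * (ap - vy)) : False := by
  have hK : 0 ≤ xp * am + xm * ap := by positivity
  have hvy : 0 < vy := by linarith
  have h7 : 0 < (vx * am + vy * xm + (xp * vy - ap * vx) - (xp * am + xm * ap)) * vy := by
    have e : (vx * am + vy * xm + (xp * vy - ap * vx) - (xp * am + xm * ap)) * vy =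
        (vx * am + vy * xm) * (vy - ap) + (xp * vy - ap * vx) * (vy - am) := by ring
    rw [e]
    exact add_pos (mul_pos ha (by linarith)) (mul_pos hb (by linarith))
  have h8 := (mul_pos_iff_of_pos_right hvy).1 h7
  have h9 : -((xp * am + xm * ap) * ((-xm - vx) * (xp - vx) + (am - vy) * (ap - vy))) =
      (xp * vy - ap * vx) * (xm ^ 2 + am ^ 2 - 2 * (-xm * ox + am * oy)) +
      (vx * am + vy * xm + (xp * vy - ap * vx) - (xp * am + xm * ap)) * (-xm * xp + am * ap) := by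
    linear_combination (vx * am + vy * xm) * ep - (xp * am + xm * ap) * ev
  have h10 := mul_nonneg hK tv.le
  have h11 := mul_nonneg hb.le (sub_nonneg.2 em)
  have h12 := mul_pos h8 tc
  linarith

theorem fcore (cx cy yp ym Tp Tm s θ m : ℝ) (hcx : 0 ≤ cx) (hc : 4 ≤ cx ^ 2 + cy ^ 2)
    (hp : 4 ≤ (2 + yp) ^ 2 + Tp ^ 2) (hm : 4 ≤ (2 + ym) ^ 2 + Tm ^ 2)
    (h7 : (cx + (2 + ym)) ^ 2 + (cy - Tm) ^ 2 ≤ 7) (hcy : 0 ≤ cy) (hs1 : s ≤ 1)
    (hym : -s ≤ ym) (hT : Tp + Tm ≤ θ) (hm0 : 0 ≤ m) (hm4 : m ≤ 4)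
    (hsm : s ^ 2 + θ ^ 2 ≤ m ^ 2) :
    16 - 4 * m ≤ (cx - (2 + yp)) ^ 2 + (cy - Tp) ^ 2 + ((cx + (2 + ym)) ^ 2 + (cy - Tm) ^ 2) := by
  have h1 : cx ≤ 2 := by
    by_contra h1
    nlinarith [sq_nonneg (cy - Tm)]
  have h2 : 4 ≤ (2 + yp) ^ 2 + Tp ^ 2 - 2 * cx * yp := by
    rcases le_total yp 0 with h | h
    · nlinarith
    · nlinarith [sq_nonneg Tp, sq_nonneg yp]
  have h3 : (cx * s + cy * θ) ^ 2 ≤ (cx ^ 2 + cy ^ 2) * m ^ 2 := by
    have := mul_le_mul_of_nonneg_left hsm (show 0 ≤ cx ^ 2 + cy ^ 2 by linarith)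
    nlinarith [sq_nonneg (cx * θ - cy * s)]
  have h4 : cx * s + cy * θ ≤ cx ^ 2 + cy ^ 2 - 4 + 2 * m := by
    generalize cx * s + cy * θ = W at *
    generalize cx ^ 2 + cy ^ 2 = R at *
    have h5 : R * m ^ 2 ≤ (R - 4 + 2 * m) ^ 2 := by
      have := mul_nonneg (sub_nonneg.2 hc) (mul_nonneg hm0 (sub_nonneg.2 hm4))
      nlinarith [sq_nonneg (R - 4)]
    exact le_trans (le_abs_self _) (abs_le_of_sq_le_sq' (h3.trans h5) (by linarith) |> abs_le.2)
  have h5 := mul_le_mul_of_nonneg_left hT hcy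
  have h6 := mul_le_mul_of_nonneg_left hym hcx
  nlinarith

end Hgf

theorem lemH (hd : S_data) : S_lemH := by
  intro T v c c' h hT hh h1 h2 h3
  obtain ⟨d1, d2, d3, -, -, -, -, -, d4⟩ := hd T v c c' hT
  have hC := T.ccw hT
  simp only [nsq_sub, cross] at *
  rcases le_or_gt v.re c.re with hp | hp
  · have hp2 : 0 ≤ c'.re - v.re := by
      by_contra hp2
      have a1 : 0 ≤ (c.re - v.re) * (v.im - c'.im) := mul_nonneg (by linarith) (by linarith)
      have a2 : 0 ≤ (v.im - c.im) * (v.re - c'.re) := mul_nonneg (by linarith) (by linarith)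
      nlinarith
    have := Hgf.core (c'.re - v.re) (v.im - c'.im) (c.re - c'.re) (c'.im - c.im) h hp2
      (by linarith) hh (by linarith) (by linarith) (by linarith) (by linarith) (by linarith)
    exact ⟨Or.inl (by linarith [this.1]), this.2⟩
  · have := Hgf.core (v.re - c.re) (v.im - c.im) (c.re - c'.re) (c.im - c'.im) h (by linarith)
      (by linarith) hh (by linarith) (by linarith) (by linarith) (by linarith) (by linarith)
    exact ⟨Or.inr (by linarith [this.1]), this.2⟩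

theorem gab : S_gab := by
  intro T c cm cp v hT hm h1 h2 h3 h4 h5 h6 h7
  obtain ⟨o, e1, e2, -, e3⟩ := T.circ hT
  obtain ⟨mv, mc, mp⟩ := T.mem hT
  have e4 := e3 cm hm
  have hC := T.ccw hT
  have s1 := T.sep cm hm c mc (by rintro rfl; exact lt_irrefl _ h1)
  have s2 := T.sep cp mp c mc (by rintro rfl; exact lt_irrefl _ h2)
  have s3 := T.sep cm hm v mv (by rintro rfl; exact lt_irrefl _ h5)
  have s4 := T.sep cp mp v mv (by rintro rfl; exact lt_irrefl _ h6)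
  by_contra hcon
  clear e3
  simp only [nsq_sub, cross, not_le] at *
  exact Hgf.gcore (cp.re - c.re) (cp.im - c.im) (c.re - cm.re) (cm.im - c.im) (v.re - c.re)
    (v.im - c.im) (o.re - c.re) (o.im - c.im) (by linarith) (by linarith) (by linarith)
    (by linarith) (by linarith) (by linarith) (by linarith) (by linarith) (by linarith)
    (by linarith) (by linarith) (by linarith) (by linarith)

theorem fan : S_fan := by
  intro v vm vp c s θ m h1 h2 h3 h4 h5 h6 _ h8 h9 h10 _ h12 h13 h14 h15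
  simp only [nsq_sub] at *
  rcases le_total v.re c.re with hc | hc
  · have := Hgf.fcore (c.re - v.re) (v.im - c.im) (vp.re - v.re - 2) (v.re - vm.re - 2)
      (v.im - vp.im) (v.im - vm.im) s θ m (by linarith) (by linarith) (by linarith) (by linarith)
      (by linarith) (by linarith) h8 (by linarith) h12 h13 h14 h15
    linarith
  · have := Hgf.fcore (v.re - c.re) (v.im - c.im) (v.re - vm.re - 2) (vp.re - v.re - 2)
      (v.im - vm.im) (v.im - vp.im) s θ m (by linarith) (by linarith) (by linarith) (by linarith)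
      (by linarith) (by linarith) h8 (by linarith) (by linarith) h13 h14 h15
    linarith

end Pool.Agent.P.MP_dd077d_co
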