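import Pool.Agent.P.MP_dd077d_co.Iface1

/-!
Single triangles: basic data, cost in terms of one side, Heron type bounds.
-/

namespace Pool.Agent.P.MP_dd077d_co

namespace Tri

theorem circum {p1 p2 q1 q2 m1 m2 : ℝ} (hp : p1 ^ 2 + p2 ^ 2 = 2 * (m1 * p1 + m2 * p2))
    (hq : q1 ^ 2 + q2 ^ 2 = 2 * (m1 * q1 + m2 * q2)) :
    (p1 ^ 2 + p2 ^ 2) * (q1 ^ 2 + q2 ^ 2) * ((p1 - q1) ^ 2 + (p2 - q2) ^ 2) =
      4 * (p1 * q2 - p2 * q1) ^ 2 * (m1 ^ 2 + m2 ^ 2) := by
  have h : 4 * (p1 * q2 - p2 * q1) ^ 2 * (m1 ^ 2 + m2 ^ 2) =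
      (2 * (m1 * p1 + m2 * p2)) ^ 2 * (q1 ^ 2 + q2 ^ 2) -
        2 * (2 * (m1 * p1 + m2 * p2)) * (2 * (m1 * q1 + m2 * q2)) * (p1 * q1 + p2 * q2) +
        (2 * (m1 * q1 + m2 * q2)) ^ 2 * (p1 ^ 2 + p2 ^ 2) := by ring
  rw [h, ← hp, ← hq]
  ring

theorem lt16 {x y o : ℂ} (hx : nsq (x - o) < 4) (hy : nsq (y - o) < 4) : nsq (x - y) < 16 := by
  rw [nsq_sub] at *
  nlinarith [sq_nonneg (x.re - o.re + (y.re - o.re)), sq_nonneg (x.im - o.im + (y.im - o.im))]

theorem conc {a b c lo hi x : ℝ} (ha : 0 ≤ a) (h1 : 0 ≤ -a * lo ^ 2 + b * lo + c)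
    (h2 : 0 ≤ -a * hi ^ 2 + b * hi + c) (hl : lo ≤ x) (hh : x ≤ hi) (hlt : lo < hi) :
    0 ≤ -a * x ^ 2 + b * x + c := by
  have e : (hi - lo) * (-a * x ^ 2 + b * x + c) =
      (hi - x) * (-a * lo ^ 2 + b * lo + c) + (x - lo) * (-a * hi ^ 2 + b * hi + c) +
        (hi - lo) * (a * ((x - lo) * (hi - x))) := by ring
  have h3 : 0 ≤ (hi - lo) * (-a * x ^ 2 + b * x + c) := by
    rw [e]
    have := sub_nonneg.mpr hl
    have := sub_nonneg.mpr hh
    have := sub_nonneg.mpr hlt.le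
    positivity
  exact nonneg_of_mul_nonneg_right h3 (sub_pos.mpr hlt)

/-- the separately concave function -/
def F (α β γ c u v w : ℝ) : ℝ :=
  4 * u * v - (u + v - w) ^ 2 - 16 * (c + α * u + β * v + γ * w) ^ 2

theorem box {α β γ c u v w a a' b b' d d' : ℝ} (hu : a ≤ u) (hu' : u ≤ a') (ha : a < a')
    (hv : b ≤ v) (hv' : v ≤ b') (hb : b < b') (hw : d ≤ w) (hw' : w ≤ d') (hd : d < d')
    (h1 : 0 ≤ F α β γ c a b d) (h2 : 0 ≤ F α β γ c a b d') (h3 : 0 ≤ F α β γ c a b' d)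
    (h4 : 0 ≤ F α β γ c a b' d') (h5 : 0 ≤ F α β γ c a' b d) (h6 : 0 ≤ F α β γ c a' b d')
    (h7 : 0 ≤ F α β γ c a' b' d) (h8 : 0 ≤ F α β γ c a' b' d') : 0 ≤ F α β γ c u v w := by
  have eu : ∀ u v w, F α β γ c u v w = -(1 + 16 * α ^ 2) * u ^ 2 +
      (2 * v + 2 * w - 32 * α * (c + β * v + γ * w)) * u +
      (-(v - w) ^ 2 - 16 * (c + β * v + γ * w) ^ 2) := fun u v w => by unfold F; ring
  have ev : ∀ u v w, F α β γ c u v w = -(1 + 16 * β ^ 2) * v ^ 2 +
      (2 * u + 2 * w - 32 * β * (c + α * u + γ * w)) * v +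
      (-(u - w) ^ 2 - 16 * (c + α * u + γ * w) ^ 2) := fun u v w => by unfold F; ring
  have ew : ∀ u v w, F α β γ c u v w = -(1 + 16 * γ ^ 2) * w ^ 2 +
      (2 * u + 2 * v - 32 * γ * (c + α * u + β * v)) * w +
      (-(u - v) ^ 2 - 16 * (c + α * u + β * v) ^ 2) := fun u v w => by unfold F; ring
  have sw : ∀ u v, 0 ≤ F α β γ c u v d → 0 ≤ F α β γ c u v d' → 0 ≤ F α β γ c u v w := by
    intro u v k k'
    rw [ew] at k k' ⊢
    exact conc (by positivity) k k' hw hw' hd
  have sv : ∀ u, 0 ≤ F α β γ c u b w → 0 ≤ F α β γ c u b' w → 0 ≤ F α β γ c u v w := by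
    intro u k k'
    rw [ev] at k k' ⊢
    exact conc (by positivity) k k' hv hv' hb
  have k := sv a (sw _ _ h1 h2) (sw _ _ h3 h4)
  have k' := sv a' (sw _ _ h5 h6) (sw _ _ h7 h8)
  rw [eu] at k k' ⊢
  exact conc (by positivity) k k' hu hu' ha

theorem fin {α β γ c u v w C : ℝ} (hC : 0 < C) (h : 4 * C ^ 2 = 4 * u * v - (u + v - w) ^ 2)
    (hF : 0 ≤ F α β γ c u v w) : c + α * u + β * v + γ * w ≤ C / 2 := by
  refine abs_le_of_sq_le_sq' (b := C / 2) ?_ (by linarith) |>.2
  unfold F at hF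
  nlinarith

theorem keyK {u v w C : ℝ} (hu : 4 ≤ u) (hv : 4 ≤ v) (hw : 4 ≤ w)
    (h : 4 * C ^ 2 = 4 * u * v - (u + v - w) ^ 2) (hc : u * v * w < 16 * C ^ 2) :
    w * (16 - w) ≤ 4 * C ^ 2 := by
  by_contra hlt
  have h1 : w * (u * v) < w * (64 - 4 * w) := by nlinarith
  have h2 : u * v < 64 - 4 * w := lt_of_mul_lt_mul_left h1 (by linarith)
  have h3 : u < 16 - w := by nlinarith
  have h4 : v < 16 - w := by nlinarith
  have e : 4 * C ^ 2 - w * (16 - w) = -(u - v) ^ 2 + 2 * w * (u + v - 8) := by rw [h]; ring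
  rcases le_total u v with h' | h'
  · nlinarith [mul_nonneg (sub_nonneg.mpr h') (by linarith : 0 ≤ u + v - 8 - (v - u)),
      mul_nonneg (by linarith : 0 ≤ u + v - 8) (by linarith : 0 ≤ 2 * w - (v - u))]
  · nlinarith [mul_nonneg (sub_nonneg.mpr h') (by linarith : 0 ≤ u + v - 8 - (u - v)),
      mul_nonneg (by linarith : 0 ≤ u + v - 8) (by linarith : 0 ≤ 2 * w - (u - v))]

theorem le_half {C t : ℝ} (hC : 0 < C) (h : 4 * t ^ 2 ≤ C ^ 2) : t ≤ C / 2 := by
  refine abs_le_of_sq_le_sq' (b := C / 2) ?_ (by linarith) |>.2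
  linarith

end Tri

open Tri in
theorem data : S_data := by
  intro T x y z h
  obtain ⟨hx, hy, hz⟩ := T.mem h
  obtain ⟨n1, n2, n3⟩ := ne_of_cross (T.ccw h)
  obtain ⟨o, e1, e2, e3, -⟩ := T.circ h
  refine ⟨T.sep x hx y hy n1, T.sep x hx z hz n3, T.sep y hy z hz n2, lt16 e3 (e1 ▸ e3),
    lt16 e3 (e2 ▸ e3), lt16 (e1 ▸ e3) (e2 ▸ e3), ?_, ?_, ?_⟩
  · simp only [nsq_sub, cross, dot]; ring
  · simp only [nsq_sub, dot]; ring
  · have hc := T.ccw h
    rw [← e2] at e1 e3
    simp only [nsq_sub] at e1 e2 e3 ⊢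
    have k := circum (p1 := x.re - z.re) (p2 := x.im - z.im) (q1 := y.re - z.re)
      (q2 := y.im - z.im) (m1 := o.re - z.re) (m2 := o.im - z.im) (by linarith) (by linarith)
    have e4 : (x.re - z.re) * (y.im - z.im) - (x.im - z.im) * (y.re - z.re) = cross x y z := by
      unfold cross; ring
    have e5 : (x.re - z.re - (y.re - z.re)) ^ 2 + (x.im - z.im - (y.im - z.im)) ^ 2 =
        (x.re - y.re) ^ 2 + (x.im - y.im) ^ 2 := by ring
    rw [e4, e5] at k
    rw [k]
    have e6 : (o.re - z.re) ^ 2 + (o.im - z.im) ^ 2 < 4 := by linarith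
    have : 0 < cross x y z ^ 2 := by positivity
    nlinarith

open Tri in
theorem side : S_side := by
  intro T x y z h
  obtain ⟨hw, hu, hv, hw', hu', hv', e1, e2, e3⟩ := data T x y z h
  rw [T.cost_tri h]
  have hC := T.ccw h
  generalize nsq (x - y) = w at *
  generalize nsq (x - z) = u at *
  generalize nsq (y - z) = v at *
  generalize cross x y z = C at *
  generalize dot z x y = d at *
  have hH : 4 * C ^ 2 = 4 * u * v - (u + v - w) ^ 2 := by rw [e1, e2]; ring
  have hK := keyK hu hv hw hH e3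
  have huv : 16 ≤ u * v := by nlinarith
  have huv2 : 0 ≤ (u - 4) * (v - 4) := mul_nonneg (by linarith) (by linarith)
  have s1 := s3_lb
  have s2 := s3_ub
  have s4 := s3_sq
  refine ⟨?_, fun a => ?_, fun a b => ?_, fun a b => ?_, fun a => ?_⟩
  · have : s3 ≤ C / 2 := by
      refine le_half hC ?_
      rcases le_total w 12 with h' | h'
      · nlinarith [mul_nonneg (sub_nonneg.mpr hw) (sub_nonneg.mpr h')]
      · nlinarith [mul_le_mul huv h' (by norm_num) (by linarith)]
    linarith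
  · have : s3 + (w - 4) / 12 ≤ C / 2 := by
      refine le_half hC ?_
      nlinarith [mul_nonneg (sub_nonneg.mpr hw) (sub_nonneg.mpr a),
        mul_nonneg (sub_nonneg.mpr hw) (sub_nonneg.mpr s2.le)]
    linarith
  · have : 1.98426 ≤ C / 2 := by
      refine le_half hC ?_
      nlinarith [mul_nonneg (sub_nonneg.mpr a) (sub_nonneg.mpr b)]
    linarith
  · have : 2.23506 ≤ C / 2 := by
      refine le_half hC ?_
      rcases le_total d 8 with h' | h'
      · nlinarith [mul_nonneg b (sub_nonneg.mpr h')]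
      · have h1 : 144 ≤ u * v := by
          nlinarith [mul_nonneg (sub_nonneg.mpr hu'.le) (sub_nonneg.mpr hv'.le)]
        nlinarith [mul_le_mul h1 a (by norm_num) (by linarith)]
    linarith
  · by_contra hlt
    have h1 : C < 4.1242 := by linarith
    have h2 : C ^ 2 < 17.0091 := by nlinarith
    have h3 : (C ^ 2 + d ^ 2) * 13.1 < 16 * C ^ 2 := by
      have : u * v * 13.1 ≤ u * v * w := mul_le_mul_of_nonneg_left a (by linarith)
      nlinarith
    have h4 : d ^ 2 < 1.941 ^ 2 := by nlinarith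
    have h5 := (abs_lt_of_sq_lt_sq' h4 (by norm_num)).1
    nlinarith

open Tri in
theorem heron : S_heron := by
  intro u v w C hC h hu hv hw
  have s1 := s3_lb
  have s2 := s3_ub
  have s4 := s3_sq
  refine ⟨fun a b c => ?_, fun a b c => ?_, fun a b c => ?_⟩
  · have := fin hC h (box (α := 0) (β := 0) (γ := 0) (c := s3) hu a
      (by norm_num) hv b (by norm_num) hw c (by norm_num) (by unfold F; nlinarith)
      (by unfold F; nlinarith) (by unfold F; nlinarith) (by unfold F; nlinarith)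
      (by unfold F; nlinarith) (by unfold F; nlinarith) (by unfold F; nlinarith)
      (by unfold F; nlinarith))
    linarith
  · rcases le_total w 7 with h' | h'
    · have := fin hC h (box (α := 1 / 12) (β := 1 / 12) (γ := 1 / 12) (c := s3 - 1) hu a
        (by norm_num) hv b (by norm_num) hw h' (by norm_num) (by unfold F; nlinarith)
        (by unfold F; nlinarith) (by unfold F; nlinarith) (by unfold F; nlinarith)
        (by unfold F; nlinarith) (by unfold F; nlinarith) (by unfold F; nlinarith)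
        (by unfold F; nlinarith))
      have := min_le_left ((w - 4) / 12) (1 / 4)
      linarith
    · have := fin hC h (box (α := 1 / 12) (β := 1 / 12) (γ := 0) (c := s3 - 5 / 12) hu a
        (by norm_num) hv b (by norm_num) h' c (by norm_num) (by unfold F; nlinarith)
        (by unfold F; nlinarith) (by unfold F; nlinarith) (by unfold F; nlinarith)
        (by unfold F; nlinarith) (by unfold F; nlinarith) (by unfold F; nlinarith)
        (by unfold F; nlinarith))
      have := min_le_right ((w - 4) / 12) (1 / 4)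
      linarith
  · have := fin hC h (box (α := 1 / 15) (β := 1 / 15) (γ := 0) (c := s3 - 8 / 15) hu a
      (by norm_num) hv b (by norm_num) hw c (by norm_num) (by unfold F; nlinarith)
      (by unfold F; nlinarith) (by unfold F; nlinarith) (by unfold F; nlinarith)
      (by unfold F; nlinarith) (by unfold F; nlinarith) (by unfold F; nlinarith)
      (by unfold F; nlinarith))
    linarith

end Pool.Agent.P.MP_dd077d_co
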