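import Pool.Agent.P.MP_dd077d_co.Iface3
import Pool.Agent.P.MP_dd077d_co.Tri
import Pool.Agent.P.MP_dd077d_co.Hgf

/-! A cheap strip alternates. -/

set_option linter.dupNamespace false

namespace Pool.Agent.P.MP_dd077d_co

namespace Alt

/-- a staircase without two consecutive rising steps that has slope one half at both ends -/
lemma comb (I : ℤ → ℤ) (d : ℤ) (M : ℕ) (hstep : ∀ k, I (k + 1) = I k + 1 ∨ I (k + 1) = I k)
    (hno : ∀ k, ¬ (I (k + 1) = I k + 1 ∧ I (k + 1 + 1) = I (k + 1) + 1))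
    (hl : ∀ k : ℤ, k ≤ -(M : ℤ) → I k = k / 2) (hr : ∀ k : ℤ, (M : ℤ) ≤ k → I k = (k + d) / 2)
    (hd : 0 ≤ d) : d = 0 ∧ ∀ k, I k = k / 2 := by
  set e : ℤ → ℤ := fun k => 2 * I (k + 1) - (k + 1) + (if I (k + 1) = I k + 1 then 0 else 1)
    with he
  have anti : Antitone e := by
    refine antitone_int_of_succ_le fun k => ?_
    have h1 := hstep k
    have h2 := hstep (k + 1)
    have h3 := hno k
    simp only [he]
    split_ifs <;> omega
  have el : ∀ k : ℤ, k + 1 ≤ -(M : ℤ) → e k = 0 := fun k hk => by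
    have h1 := hl k (by omega)
    have h2 := hl (k + 1) hk
    simp only [he]
    split_ifs <;> omega
  have er : ∀ k : ℤ, (M : ℤ) ≤ k → e k = d := fun k hk => by
    have h1 := hr k hk
    have h2 := hr (k + 1) (by omega)
    simp only [he]
    split_ifs <;> omega
  have key : ∀ k, d ≤ e k ∧ e k ≤ 0 := fun k => by
    have h1 := abs_le.1 (le_refl |k|)
    have h2 := anti (show k ≤ (M : ℤ) + |k| by omega)
    have h3 := anti (show -(M : ℤ) - 1 - |k| ≤ k by omega)
    rw [er _ (by omega)] at h2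
    rw [el (-(M : ℤ) - 1 - |k|) (by omega)] at h3
    exact ⟨h2, h3⟩
  have hd0 : d = 0 := by have := key 0; omega
  refine ⟨hd0, fun k => ?_⟩
  have h1 := key (k - 1)
  simp only [he, sub_add_cancel] at h1
  split_ifs at h1 <;> omega

variable {T : DT0} {a : ℤ} {W : Wall T a}

lemma v_re (W : Wall T a) (i : ℤ) : (W.v (i + 1)).re - (W.v i).re = 2 + W.U.y i := by
  simp only [Wall.v, pt, Wall.U, Row.y]
  push_cast
  ring

lemma v_im (W : Wall T a) (i : ℤ) : (W.v i).im = s3 * a - W.U.w i := rfl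

end Alt

open Alt in
theorem alt (hi : S_inv) (hrb : S_rb) (hm : S_met) (hs : S_sb) (ha : S_at) : S_alt := by
  intro T a W st β hW hB hβ hcase
  have hB2 : W.Bud (1 / 2) := fun G hG => (hB G hG).trans hβ
  obtain ⟨h7, hd, -⟩ := ha T a W st hW hB2
  obtain ⟨s1, s2, -, -, -, -, -, -, -, -, -, s12⟩ := hs T a W st hW
  have bud := s12 _ hB
  have hinv : W.U.Inv := (W.inv a le_rfl).1
  obtain ⟨-, -, -, -, -, i6, i7, -, i9, -⟩ := hi W.U hinv
  obtain ⟨-, ⟨r2, -, -⟩, -, -, -, -, -, r8, -⟩ := hrb W.U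
  have edge : ∀ k, (nsq (W.v (st.I k) - st.c (k - st.I k)) - 4) / 6 ≤
      cost (st.tri (k - 1)) + cost (st.tri k) := fun k => by
    obtain ⟨x, h1, h2⟩ := s2 k
    have h3 := (side T _ _ _ (s1 k)).2.1 (h7 k)
    have h4 := (side T _ _ _ h1).2.1 (by rw [nsq_comm]; exact h7 k)
    rw [← h2, nsq_comm] at h4
    have h5 : st.tri k = {W.v (st.I k), st.c (k - st.I k), st.nx k} := rfl
    rw [← h5] at h3
    linarith
  refine comb st.I st.d st.M (fun k => (st.step k).imp And.left And.left) ?_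
    (fun k hk => (st.left k hk).1) (fun k hk => (st.right k hk).1) hd
  rintro k ⟨e1, e2⟩
  have t1 : T.Tri (W.v (st.I k + 1)) (W.v (st.I k)) (st.c (k - st.I k)) := by
    rcases st.step k with h | h
    · exact h.2
    · exfalso; have := h.1; omega
  have t2 : T.Tri (W.v (st.I k + 1 + 1)) (W.v (st.I k + 1)) (st.c (k - st.I k)) := by
    rcases st.step (k + 1) with h | h
    · have h2 := h.2
      rwa [e1, show k + 1 - (st.I k + 1) = k - st.I k by ring] at h2
    · exfalso; have := h.1; omega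
  have d1 := data T _ _ _ t1
  have d2 := data T _ _ _ t2
  have g0 := h7 k
  have g2 := h7 (k + 1 + 1)
  have p0 := edge k
  have p2 := edge (k + 1 + 1)
  rw [e2, e1, show k + 1 + 1 - (st.I k + 1 + 1) = k - st.I k by ring] at g2 p2
  have him := ((hm T a W).1 _ (st.cmem (k - st.I k)).1 (st.cmem _).2).1 (st.I k + 1)
  have hsum := bud {k - 1, k, k + 1 + 1 - 1, k + 1 + 1}
  rw [Finset.sum_insert (by simp only [Finset.mem_insert, Finset.mem_singleton]; omega),
    Finset.sum_insert (by simp only [Finset.mem_insert, Finset.mem_singleton]; omega),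
    Finset.sum_pair (by omega)] at hsum
  have hth : ((W.v (st.I k + 1)).im - (W.v (st.I k + 1 + 1)).im) +
      ((W.v (st.I k + 1)).im - (W.v (st.I k)).im) ≤ W.U.Y + 2 * W.U.nu := by
    have a1 := r8 (st.I k) (st.I k + 1 + 1) (by omega)
    have a2 := r2 (st.I k + 1)
    have a3 := le_max_left (W.U.w (st.I k)) 0
    have a4 := le_max_left (W.U.w (st.I k + 1 + 1)) 0
    simp only [v_im]
    linarith
  have x1 := v_re W (st.I k)
  have x2 := v_re W (st.I k + 1)
  have F : ∀ s θ m : ℝ, 0 ≤ s → s ≤ 1 → (∀ i, 2 - s ≤ 2 + W.U.y i) → 0 ≤ θ →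
      W.U.Y + 2 * W.U.nu ≤ θ → 0 ≤ m → m ≤ 4 → s ^ 2 + θ ^ 2 ≤ m ^ 2 → (8 - 4 * m) / 6 ≤ β := by
    intro s θ m b1 b2 b3 b4 b5 b6 b7 b8
    have := fan (W.v (st.I k + 1)) (W.v (st.I k)) (W.v (st.I k + 1 + 1)) (st.c (k - st.I k)) s θ m
      (by rw [nsq_comm]; exact d1.2.1) d2.1 (by rw [nsq_comm]; exact d1.1)
      (by rw [nsq_comm]; exact g2) (by rw [nsq_comm]; exact g0) him.le b1 b2
      (by rw [x2]; exact b3 _) (by rw [x1]; exact b3 _) b4 (hth.trans b5) b6 b7 b8
    rw [nsq_comm (st.c _), nsq_comm (st.c _)] at this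
    linarith
  rcases hcase with h | h
  · have := F 0.38 1.49 1.54 (by norm_num) (by norm_num) (fun i => by have := (i7 i).1; linarith)
      (by norm_num) i6 (by norm_num) (by norm_num) (by norm_num)
    linarith
  · obtain ⟨j1, j2⟩ := i9 h
    have := F 0.18 0.9 0.92 (by norm_num) (by norm_num) (fun i => by have := j2 i; linarith)
      (by norm_num) j1 (by norm_num) (by norm_num) (by norm_num)
    linarith

end Pool.Agent.P.MP_dd077d_co
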