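import Pool.Agent.P.MP_dd077d_co.Iface1

/-!
Angle deviation against cost.
-/

namespace Pool.Agent.P.MP_dd077d_co

open Real

namespace Ang

theorem chord {f : ℝ → ℝ} {s : Set ℝ} (hf : ConcaveOn ℝ s f) {a b x : ℝ} (ha : a ∈ s) (hb : b ∈ s)
    (hax : a ≤ x) (hxb : x ≤ b) (hab : a < b) : (b - x) * f a + (x - a) * f b ≤ (b - a) * f x := by
  have h0 : 0 < b - a := sub_pos.mpr hab
  have h := hf.2 ha hb (div_nonneg (sub_nonneg.mpr hxb) h0.le)
    (div_nonneg (sub_nonneg.mpr hax) h0.le) (by field_simp; ring)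
  simp only [smul_eq_mul] at h
  have e : (b - x) / (b - a) * a + (x - a) / (b - a) * b = x := by field_simp; ring
  rw [e] at h
  have h2 := mul_le_mul_of_nonneg_left h h0.le
  have e2 : (b - a) * ((b - x) / (b - a) * f a + (x - a) / (b - a) * f b) =
      (b - x) * f a + (x - a) * f b := by field_simp
  rwa [e2] at h2

theorem nsq_eq (p : ℂ) : nsq p = ‖p‖ ^ 2 := by
  rw [Complex.sq_norm, Complex.normSq_apply, nsq]; ring

theorem cross_eq (p q : ℂ) : cross 0 p q = ‖p‖ * ‖q‖ * sin (q.arg - p.arg) := by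
  have a := Complex.norm_mul_cos_arg p
  have b := Complex.norm_mul_sin_arg p
  have c := Complex.norm_mul_cos_arg q
  have d := Complex.norm_mul_sin_arg q
  simp only [cross, Complex.zero_re, Complex.zero_im, sub_zero, sin_sub]
  linear_combination (-q.im) * a - (‖p‖ * cos p.arg) * d + q.re * b + (‖p‖ * sin p.arg) * c

theorem dot_eq (p q : ℂ) : dot 0 p q = ‖p‖ * ‖q‖ * cos (q.arg - p.arg) := by
  have a := Complex.norm_mul_cos_arg p
  have b := Complex.norm_mul_sin_arg p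
  have c := Complex.norm_mul_cos_arg q
  have d := Complex.norm_mul_sin_arg q
  simp only [dot, Complex.zero_re, Complex.zero_im, sub_zero, cos_sub]
  linear_combination (-q.re) * a - (‖p‖ * cos p.arg) * c - q.im * b - (‖p‖ * sin p.arg) * d

theorem nsq_sub_eq (p q : ℂ) : nsq (p - q) = nsq p + nsq q - 2 * dot 0 p q := by
  simp only [nsq, dot, Complex.zero_re, Complex.zero_im, sub_zero, Complex.sub_re, Complex.sub_im]
  ring

theorem heron_eq (p q : ℂ) :
    4 * cross 0 p q ^ 2 = 4 * nsq p * nsq q - (nsq p + nsq q - nsq (p - q)) ^ 2 := by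
  simp only [nsq, cross, Complex.zero_re, Complex.zero_im, sub_zero, Complex.sub_re,
    Complex.sub_im]
  ring

theorem two_le {p : ℂ} (h : 4 ≤ nsq p) : 2 ≤ ‖p‖ := by
  rw [nsq_eq] at h
  nlinarith [norm_nonneg p]

theorem sin3 : sin (π / 3) = s3 / 2 := sin_pi_div_three

theorem sin23 : sin (2 * π / 3) = s3 / 2 := by
  rw [← sin3, ← sin_pi_sub]
  congr 1
  ring

theorem cos72 : 0.7511 ≤ cos 0.72 := by
  have h1 : 0.9838 ≤ cos 0.18 := by
    have := one_sub_sq_div_two_le_cos (x := 0.18)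
    norm_num at this ⊢
    linarith
  have h2 : 0.9357248 ≤ cos 0.36 := by
    rw [show (0.36 : ℝ) = 2 * 0.18 by norm_num, cos_two_mul]
    nlinarith
  rw [show (0.72 : ℝ) = 2 * 0.36 by norm_num, cos_two_mul]
  nlinarith

theorem up {δ : ℝ} (h1 : π / 3 ≤ δ) (h2 : δ ≤ π / 2) : 0.51 * (δ - π / 3) ≤ 2 * sin δ - s3 := by
  have hp := pi_pos
  have h := chord strictConcaveOn_sin_Icc.concaveOn (a := π / 3) (b := π / 2)
    ⟨by linarith, by linarith⟩ ⟨by linarith, by linarith⟩ h1 h2 (by linarith)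
  rw [sin3, sin_pi_div_two] at h
  have h3 := pi_lt_d4
  have h4 := s3_ub
  have h5 : (δ - π / 3) * (2 - s3) ≤ π / 6 * (2 * sin δ - s3) := by linarith
  have h6 : π / 6 * (0.51 * (δ - π / 3)) ≤ (δ - π / 3) * (2 - s3) := by
    have : π / 6 * 0.51 ≤ 2 - s3 := by linarith
    nlinarith
  exact le_of_mul_le_mul_left (h6.trans h5) (by linarith)

theorem down {δ : ℝ} (h1 : π / 2 ≤ δ) (h2 : δ ≤ 2 * π / 3) :
    0.51 * (2 * π / 3 - δ) ≤ 2 * sin δ - s3 := by
  have hp := pi_pos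
  have h := up (δ := π - δ) (by linarith) (by linarith)
  rw [sin_pi_sub] at h
  linarith

theorem low {δ : ℝ} (h0 : 0 ≤ δ) (h1 : δ ≤ π / 3) (h2 : cos δ ≤ 0.7505) :
    0.767 * (π / 3 - δ) ≤ cos δ - 1 / 2 := by
  have hp := pi_gt_d2
  have h3 := pi_lt_d4
  have hc := cos72
  have h4 : 0.72 ≤ δ := by
    by_contra hlt
    have := cos_le_cos_of_nonneg_of_le_pi h0 (by linarith : (0.72 : ℝ) ≤ π) (not_le.mp hlt).le
    linarith
  have h := chord strictConcaveOn_cos_Icc.concaveOn (a := 0.72) (b := π / 3)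
    ⟨by linarith, by linarith⟩ ⟨by linarith, by linarith⟩ h4 h1 (by linarith)
  rw [cos_pi_div_three] at h
  have h5 : (π / 3 - δ) * 0.2511 ≤ (π / 3 - 0.72) * (cos δ - 1 / 2) := by nlinarith
  have h6 : (π / 3 - 0.72) * (0.767 * (π / 3 - δ)) ≤ (π / 3 - δ) * 0.2511 := by nlinarith
  exact le_of_mul_le_mul_left (h6.trans h5) (by linarith)

theorem alg1 {a b c : ℝ} (ha : 2 ≤ a) (hb : 2 ≤ b) (h : 2 * (a * b * c) ≤ a ^ 2 + b ^ 2 - 4) :
    c - 1 / 2 ≤ (a ^ 2 + b ^ 2 - 8) / 16 := by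
  have h0 : 0 < a * b := by positivity
  have h1 : 0 ≤ (a - 2) * (b - 2) := mul_nonneg (by linarith) (by linarith)
  have h2 : 0 ≤ (a - 2) * (b - 2) * (a - 2 + (b - 2)) := mul_nonneg h1 (by linarith)
  have h3 : a * b * (c - 1 / 2) ≤ a * b * ((a - 2 + (b - 2)) / 4) := by nlinarith
  have h4 := le_of_mul_le_mul_left h3 h0
  nlinarith [sq_nonneg (a - 2), sq_nonneg (b - 2)]

theorem alg2 {a b c : ℝ} (ha : 2 ≤ a) (hb : 2 ≤ b) (ha' : a ^ 2 ≤ 8) (hb' : b ^ 2 ≤ 8)
    (h : 2 * (a * b * c) ≤ a ^ 2 + b ^ 2 - 4) : c ≤ 0.7505 := by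
  have h0 : 0 < a * b := by positivity
  have a1 : a ≤ 2.8285 := by nlinarith
  have b1 : b ≤ 2.8285 := by nlinarith
  have h3 : a * b * c ≤ a * b * 0.7505 := by
    nlinarith [mul_nonneg (sub_nonneg.mpr ha) (sub_nonneg.mpr a1),
      mul_nonneg (sub_nonneg.mpr hb) (sub_nonneg.mpr b1),
      mul_nonneg (sub_nonneg.mpr ha) (sub_nonneg.mpr hb),
      mul_nonneg (sub_nonneg.mpr a1) (sub_nonneg.mpr b1),
      mul_nonneg (sub_nonneg.mpr ha) (sub_nonneg.mpr b1),
      mul_nonneg (sub_nonneg.mpr hb) (sub_nonneg.mpr a1)]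
  exact le_of_mul_le_mul_left h3 h0

theorem alg3 {a b c : ℝ} (ha : 2 ≤ a) (hb : 2 ≤ b) (ha' : a ^ 2 ≤ 7) (hb' : b ^ 2 ≤ 7)
    (h : 2 * (a * b * c) ≤ a ^ 2 + b ^ 2 - 8) : c ≤ 1 / 2 := by
  have h0 : 0 < a * b := by positivity
  have h3 : a * b * c ≤ a * b * (1 / 2) := by
    rcases le_total a b with h' | h' <;> nlinarith
  exact le_of_mul_le_mul_left h3 h0

end Ang

open Ang in
theorem ang (hh : S_heron) : S_ang := by
  intro p q hp hq hc up' uq' upq hcost
  have ap0 := Complex.arg_nonneg_iff.mpr hp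
  have aq0 := Complex.arg_nonneg_iff.mpr hq
  have ap1 := Complex.arg_le_pi p
  have aq1 := Complex.arg_le_pi q
  have hα := two_le up'
  have hβ := two_le uq'
  have hw := nsq_sub_eq p q
  have hH := hh (nsq p) (nsq q) (nsq (p - q)) _ hc (heron_eq p q) up' uq' upq
  have hcr := cross_eq p q
  have hdt := dot_eq p q
  have hu := nsq_eq p
  have hv := nsq_eq q
  set δ := q.arg - p.arg with hδ
  have hab : 4 ≤ ‖p‖ * ‖q‖ := by nlinarith
  have hs : 0 < sin δ := by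
    rw [hcr] at hc
    exact (mul_pos_iff_of_pos_left (by linarith)).mp hc
  have hδ0 : 0 < δ := by
    by_contra hle
    have := sin_nonpos_of_nonpos_of_neg_pi_le (not_lt.mp hle) (by linarith)
    linarith
  have hδ1 : δ ≤ π := by linarith
  have hcs : 2 * sin δ ≤ cross 0 p q / 2 := by rw [hcr]; nlinarith
  have hpi := pi_gt_d2
  refine ⟨fun h => ?_, fun h1 h2 h3 => ?_, fun h1 h2 h3 => ?_, fun h => ?_⟩
  · rcases le_total δ (π / 3) with h' | h'
    · linarith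
    have h1 : 0 ≤ cos δ := by
      have : 0 ≤ ‖p‖ * ‖q‖ * cos δ := by linarith
      exact nonneg_of_mul_nonneg_right this (by linarith)
    have h2 : δ ≤ π / 2 := by
      by_contra hlt
      have := cos_neg_of_pi_div_two_lt_of_lt (not_le.mp hlt) (by linarith)
      linarith
    linarith [up h' h2]
  · rcases le_total (π / 3) δ with h' | h'
    · linarith
    have e : 2 * (‖p‖ * ‖q‖ * cos δ) ≤ ‖p‖ ^ 2 + ‖q‖ ^ 2 - 4 := by linarith
    have a1 := alg1 hα hβ e
    have a2 := low hδ0.le h' (alg2 hα hβ (by linarith) (by linarith) e)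
    have a3 := hH.2.2 h1 h2 h3
    linarith
  · have a1 := alg3 (c := cos δ) hα hβ (by linarith) (by linarith) (by linarith)
    by_contra hlt
    have := cos_lt_cos_of_nonneg_of_le_pi hδ0.le (by linarith : π / 3 ≤ π) (not_le.mp hlt)
    rw [cos_pi_div_three] at this
    linarith
  · rcases le_total (2 * π / 3) δ with h' | h'
    · linarith
    have h2 : π / 2 ≤ δ := by
      by_contra hlt
      have := cos_pos_of_mem_Ioo ⟨(by linarith : -(π / 2) < δ), not_le.mp hlt⟩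
      have : 0 < ‖p‖ * ‖q‖ * cos δ := mul_pos (by linarith) this
      linarith
    linarith [down h2 h']

open Ang in
theorem peak (hh : S_heron) : S_peak := by
  intro p0 p1 p2 p3 l i0 i1 i2 i3 c0 c1 c2 n0 n1 n2 n3 m0 m1 m2 hl l0 l3
  have key : ∀ p q : ℂ, 0 ≤ p.im → 0 ≤ q.im → 0 < cross 0 p q → (4 ≤ nsq p ∧ nsq p ≤ 8) →
      (4 ≤ nsq q ∧ nsq q ≤ 8) → (4 ≤ nsq (p - q) ∧ nsq (p - q) ≤ 8) →
      0.81 * (π / 3 - (q.arg - p.arg)) ≤ cross 0 p q / 2 - s3 := by
    intro p q hp hq hc a b c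
    have h := (hh _ _ _ _ hc (heron_eq p q) a.1 b.1 c.1).1 (by linarith [a.2]) (by linarith [b.2])
      (by linarith [c.2])
    exact (ang hh p q hp hq hc a.1 b.1 c.1 h).2.1 a.2 b.2 c.2
  have k0 := key p0 p1 i0 i1 c0 n0 n1 m0
  have k1 := key p1 p2 i1 i2 c1 n1 n2 m1
  have k2 := key p2 p3 i2 i3 c2 n2 n3 m2
  have a0 := Complex.arg_nonneg_iff.mpr i0
  have a3 := sub_nonneg.mpr (Complex.arg_le_pi p3)
  rw [nsq_eq] at l0 l3
  have l0' : ‖p0‖ ≤ l := by nlinarith [norm_nonneg p0]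
  have l3' : ‖p3‖ ≤ l := by nlinarith [norm_nonneg p3]
  have b0 : p0.im ≤ l * p0.arg := by
    rw [← Complex.norm_mul_sin_arg p0]
    exact (mul_le_mul_of_nonneg_left (sin_le a0) (norm_nonneg _)).trans
      (mul_le_mul_of_nonneg_right l0' a0)
  have b3 : p3.im ≤ l * (π - p3.arg) := by
    rw [← Complex.norm_mul_sin_arg p3, ← sin_pi_sub]
    exact (mul_le_mul_of_nonneg_left (sin_le a3) (norm_nonneg _)).trans
      (mul_le_mul_of_nonneg_right l3' a3)
  have k : 0.81 * (p0.arg + (π - p3.arg)) ≤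
      (cross 0 p0 p1 / 2 - s3) + (cross 0 p1 p2 / 2 - s3) + (cross 0 p2 p3 / 2 - s3) := by linarith
  have := mul_le_mul_of_nonneg_left k hl
  linarith

end Pool.Agent.P.MP_dd077d_co
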