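import Pool.Agent.P.MP_dd077d_co.Defs

/-!
Total area of the Delaunay triangles inside a large lattice parallelogram.
-/

namespace Pool.Agent.P.MP_dd077d_co

noncomputable section

namespace Area

/-- row coordinate -/
def tt (z : ℂ) : ℝ := z.im / s3

/-- position in the row -/
def ss (z : ℂ) : ℝ := (z.re - z.im / s3) / 2

/-- the antisymmetric edge weight -/
def om (x y : ℂ) : ℝ := (ss x + ss y) * (tt y - tt x)

lemma tt_site (r j : ℤ) : tt (site r j) = r := by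
  unfold tt; rw [site_im]; have := s3_pos; field_simp

lemma ss_site (r j : ℤ) : ss (site r j) = j := by
  unfold ss; rw [site_im, site_re]; have := s3_pos; field_simp; ring

lemma inBox_iff (N : ℝ) (z : ℂ) : inBox N z ↔ |tt z| ≤ N ∧ |ss z| ≤ N := Iff.rfl

lemma inBox_site (N : ℝ) (r j : ℤ) : inBox N (site r j) ↔ |(r : ℝ)| ≤ N ∧ |(j : ℝ)| ≤ N := by
  rw [inBox_iff, tt_site, ss_site]

lemma inBox_site_nat (n : ℕ) (r j : ℤ) :
    inBox (n : ℝ) (site r j) ↔ (-(n : ℤ) ≤ r ∧ r ≤ n) ∧ (-(n : ℤ) ≤ j ∧ j ≤ n) := by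
  rw [inBox_site, abs_le, abs_le]
  constructor
  · rintro ⟨⟨h1, h2⟩, h3, h4⟩
    exact ⟨⟨by exact_mod_cast h1, by exact_mod_cast h2⟩, by exact_mod_cast h3, by exact_mod_cast h4⟩
  · rintro ⟨⟨h1, h2⟩, h3, h4⟩
    exact ⟨⟨by exact_mod_cast h1, by exact_mod_cast h2⟩, by exact_mod_cast h3, by exact_mod_cast h4⟩

lemma inBox_mono {N M : ℝ} (h : N ≤ M) {z : ℂ} (hz : inBox N z) : inBox M z :=
  ⟨hz.1.trans h, hz.2.trans h⟩

lemma om_anti (x y : ℂ) : om x y + om y x = 0 := by unfold om; ring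

lemma om_site (r j r' j' : ℤ) :
    om (site r j) (site r' j') = ((j : ℝ) + j') * ((r' : ℝ) - r) := by
  unfold om; rw [ss_site, ss_site, tt_site, tt_site]

lemma cross_eq (x y z : ℂ) : cross x y z = 2 * s3 * (om x y + om y z + om z x) := by
  unfold cross om ss tt
  have := s3_pos
  field_simp
  ring

lemma nsq_site (r j r' j' : ℤ) : nsq (site r j - site r' j') =
    (2 * (j : ℝ) + r - (2 * j' + r')) ^ 2 + 3 * ((r : ℝ) - r') ^ 2 := by
  rw [nsq_sub]; simp only [site_re, site_im]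
  have h := s3_sq
  have : (s3 * (r : ℝ) - s3 * r') ^ 2 = s3 ^ 2 * ((r : ℝ) - r') ^ 2 := by ring
  rw [this, h]

lemma cross_site (r j r' j' r'' j'' : ℤ) : cross (site r j) (site r' j') (site r'' j'') =
    2 * s3 * (((j' : ℝ) - j) * (r'' - r) - ((r' : ℝ) - r) * (j'' - j)) := by
  unfold cross; simp only [site_re, site_im]; ring

variable (T : DT0) {N : ℝ}

lemma site_mem (hF : FarLat T.pts N) {r j : ℤ} (h : N < |(j : ℝ)|) : site r j ∈ T.pts := by
  refine (hF _ ?_).2 ⟨r, j, rfl⟩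
  rw [inBox_site]
  intro hh
  exact absurd hh.2 (not_le.2 h)

/-- downward lattice triangle far out -/
lemma tri_down (hF : FarLat T.pts N) {r j : ℤ} (h1 : N < |(j : ℝ)|)
    (h2 : N < |((j - 1 : ℤ) : ℝ)|) :
    T.Tri (site r j) (site (r + 1) j) (site (r + 1) (j - 1)) := by
  refine T.equi _ (site_mem T hF h1) _ (site_mem T hF h1) _ (site_mem T hF h2) ?_ ?_ ?_ ?_
  · rw [nsq_site]; push_cast; ring
  · rw [nsq_site]; push_cast; ring
  · rw [nsq_site]; push_cast; ring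
  · rw [cross_site]; push_cast; have := s3_pos; nlinarith

/-- upward lattice triangle far out -/
lemma tri_up (hF : FarLat T.pts N) {r j : ℤ} (h1 : N < |(j : ℝ)|)
    (h2 : N < |((j + 1 : ℤ) : ℝ)|) :
    T.Tri (site (r + 1) j) (site r j) (site r (j + 1)) := by
  refine T.equi _ (site_mem T hF h1) _ (site_mem T hF h1) _ (site_mem T hF h2) ?_ ?_ ?_ ?_
  · rw [nsq_site]; push_cast; ring
  · rw [nsq_site]; push_cast; ring
  · rw [nsq_site]; push_cast; ring
  · rw [cross_site]; push_cast; have := s3_pos; nlinarith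

lemma mem_B {M : ℝ} (h : (T.boxT M).Finite) (t : ℂ × ℂ × ℂ) :
    t ∈ h.toFinset ↔ T.Tri t.1 t.2.1 t.2.2 ∧ inBox M t.1 ∧ inBox M t.2.1 ∧ inBox M t.2.2 := by
  rw [Set.Finite.mem_toFinset]; rfl

lemma sum_rot {M : ℝ} (h : (T.boxT M).Finite) (f : ℂ → ℂ → ℝ) :
    ∑ t ∈ h.toFinset, f t.2.1 t.2.2 = ∑ t ∈ h.toFinset, f t.1 t.2.1 := by
  refine Finset.sum_nbij' (fun t => (t.2.1, t.2.2, t.1)) (fun t => (t.2.2, t.1, t.2.1)) ?_ ?_ ?_ ?_ ?_
  · intro t ht
    rw [mem_B] at ht ⊢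
    exact ⟨T.rot ht.1, ht.2.2.1, ht.2.2.2, ht.2.1⟩
  · intro t ht
    rw [mem_B] at ht ⊢
    exact ⟨T.rot (T.rot ht.1), ht.2.2.2, ht.2.1, ht.2.2.1⟩
  · intro t _; rfl
  · intro t _; rfl
  · intro t _; rfl

lemma sum_rot' {M : ℝ} (h : (T.boxT M).Finite) (f : ℂ → ℂ → ℝ) :
    ∑ t ∈ h.toFinset, f t.2.2 t.1 = ∑ t ∈ h.toFinset, f t.1 t.2.1 := by
  refine Finset.sum_nbij' (fun t => (t.2.2, t.1, t.2.1)) (fun t => (t.2.1, t.2.2, t.1)) ?_ ?_ ?_ ?_ ?_
  · intro t ht
    rw [mem_B] at ht ⊢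
    exact ⟨T.rot (T.rot ht.1), ht.2.2.2, ht.2.1, ht.2.2.1⟩
  · intro t ht
    rw [mem_B] at ht ⊢
    exact ⟨T.rot ht.1, ht.2.2.1, ht.2.2.2, ht.2.1⟩
  · intro t _; rfl
  · intro t _; rfl
  · intro t _; rfl

lemma sum_cross {M : ℝ} (h : (T.boxT M).Finite) :
    ∑ t ∈ h.toFinset, cross t.1 t.2.1 t.2.2 = 6 * s3 * ∑ t ∈ h.toFinset, om t.1 t.2.1 := by
  have e : ∀ t ∈ h.toFinset, cross t.1 t.2.1 t.2.2 =
      2 * s3 * (om t.1 t.2.1 + om t.2.1 t.2.2 + om t.2.2 t.1) := fun t _ => cross_eq _ _ _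
  rw [Finset.sum_congr rfl e, ← Finset.mul_sum, Finset.sum_add_distrib, Finset.sum_add_distrib,
    sum_rot T h om, sum_rot' T h om]
  ring

open Classical in
/-- interior edges cancel -/
lemma sum_inner {M : ℝ} (h : (T.boxT M).Finite) :
    ∑ t ∈ h.toFinset.filter (fun t => ∃ w, T.Tri t.2.1 t.1 w ∧ inBox M w), om t.1 t.2.1 = 0 := by
  refine Finset.sum_involution
    (fun t ht => (t.2.1, t.1, Classical.choose (Finset.mem_filter.1 ht).2)) ?_ ?_ ?_ ?_
  · intro t _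
    exact om_anti _ _
  · intro t ht _ he
    have h1 := ((mem_B T h t).1 (Finset.mem_filter.1 ht).1).1
    have h2 := (ne_of_cross (T.ccw h1)).1
    exact h2 (congrArg Prod.fst he).symm
  · intro t ht
    have h1 := (mem_B T h t).1 (Finset.mem_filter.1 ht).1
    have h2 := Classical.choose_spec (Finset.mem_filter.1 ht).2
    refine Finset.mem_filter.2 ⟨(mem_B T h _).2 ⟨h2.1, h1.2.2.1, h1.2.1, h2.2⟩, ?_⟩
    exact ⟨t.2.2, h1.1, h1.2.2.2⟩
  · intro t ht
    have h1 := (mem_B T h t).1 (Finset.mem_filter.1 ht).1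
    refine Prod.ext rfl (Prod.ext rfl ?_)
    refine T.uniq ?_ h1.1
    exact (Classical.choose_spec (p := fun w => T.Tri t.1 t.2.1 w ∧ inBox M w) _).1

/-- triangles along the right side -/
def rt (n : ℕ) (r : ℤ) : ℂ × ℂ × ℂ := (site r n, site (r + 1) n, site (r + 1) (n - 1))

/-- triangles along the left side -/
def lt (n : ℕ) (r : ℤ) : ℂ × ℂ × ℂ := (site (r + 1) (-n), site r (-n), site r (-n + 1))

lemma big1 {n : ℕ} (hN : 0 ≤ N) (hn : N + 20 ≤ n) {j : ℤ} (hj : (n : ℤ) - 1 ≤ j) : N < |(j : ℝ)| := by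
  have : ((n : ℤ) - 1 : ℝ) ≤ j := by exact_mod_cast hj
  push_cast at this
  exact lt_of_lt_of_le (by linarith) (le_abs_self _)

lemma big2 {n : ℕ} (hN : 0 ≤ N) (hn : N + 20 ≤ n) {j : ℤ} (hj : j ≤ -(n : ℤ) + 1) : N < |(j : ℝ)| := by
  have : (j : ℝ) ≤ (-(n : ℤ) + 1 : ℝ) := by exact_mod_cast hj
  push_cast at this
  exact lt_of_lt_of_le (by linarith) (neg_le_abs _)

open Classical in
/-- boundary edges -/
lemma sum_outer (hf : S_far) {n : ℕ} (hN : 0 ≤ N) (hF : FarLat T.pts N) (hn : N + 20 ≤ n)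
    (h : (T.boxT n).Finite) :
    ∑ t ∈ h.toFinset.filter (fun t => ¬ ∃ w, T.Tri t.2.1 t.1 w ∧ inBox n w), om t.1 t.2.1
      = 8 * (n : ℝ) ^ 2 := by
  have hn1 : (20 : ℤ) ≤ n := by
    have : (20 : ℝ) ≤ n := by linarith
    exact_mod_cast this
  have hR : ∀ r : ℤ, T.Tri (site r n) (site (r + 1) n) (site (r + 1) (n - 1)) := fun r =>
    tri_down T hF (big1 hN hn (by omega)) (big1 hN hn (by omega))
  have hL : ∀ r : ℤ, T.Tri (site (r + 1) (-n)) (site r (-n)) (site r (-n + 1)) := fun r =>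
    tri_up T hF (big2 hN hn (by omega)) (big2 hN hn (by omega))
  have hR' : ∀ r : ℤ, T.Tri (site (r + 1) n) (site r n) (site r (n + 1)) := fun r =>
    tri_up T hF (big1 hN hn (by omega)) (big1 hN hn (by omega))
  have hL' : ∀ r : ℤ, T.Tri (site r (-n)) (site (r + 1) (-n)) (site (r + 1) (-n - 1)) := fun r =>
    tri_down T hF (big2 hN hn (by omega)) (big2 hN hn (by omega))
  set I : Finset ℤ := Finset.Ico (-(n : ℤ)) n with hI
  have hsub : I.image (rt n) ∪ I.image (lt n) ⊆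
      h.toFinset.filter (fun t => ¬ ∃ w, T.Tri t.2.1 t.1 w ∧ inBox n w) := by
    intro t ht
    rcases Finset.mem_union.1 ht with ht | ht
    · obtain ⟨r, hr, rfl⟩ := Finset.mem_image.1 ht
      rw [hI, Finset.mem_Ico] at hr
      refine Finset.mem_filter.2 ⟨(mem_B T h _).2 ⟨hR r, ?_, ?_, ?_⟩, ?_⟩
      · exact (inBox_site_nat n _ _).2 (by omega)
      · exact (inBox_site_nat n _ _).2 (by omega)
      · exact (inBox_site_nat n _ _).2 (by omega)
      · rintro ⟨w, hw1, hw2⟩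
        have := T.uniq hw1 (hR' r)
        rw [this, inBox_site_nat] at hw2
        omega
    · obtain ⟨r, hr, rfl⟩ := Finset.mem_image.1 ht
      rw [hI, Finset.mem_Ico] at hr
      refine Finset.mem_filter.2 ⟨(mem_B T h _).2 ⟨hL r, ?_, ?_, ?_⟩, ?_⟩
      · exact (inBox_site_nat n _ _).2 (by omega)
      · exact (inBox_site_nat n _ _).2 (by omega)
      · exact (inBox_site_nat n _ _).2 (by omega)
      · rintro ⟨w, hw1, hw2⟩
        have := T.uniq hw1 (hL' r)
        rw [this, inBox_site_nat] at hw2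
        omega
  have hzero : ∀ t ∈ h.toFinset.filter (fun t => ¬ ∃ w, T.Tri t.2.1 t.1 w ∧ inBox n w),
      t ∉ I.image (rt n) ∪ I.image (lt n) → om t.1 t.2.1 = 0 := by
    rintro ⟨x, y, z⟩ ht hnot
    obtain ⟨ht1, ht2⟩ := Finset.mem_filter.1 ht
    obtain ⟨h1, hx, hy, hz⟩ := (mem_B T h _).1 ht1
    dsimp only at h1 hx hy hz ht2 ⊢
    obtain ⟨w, hw⟩ := T.rev h1
    have hwn : ¬ inBox n w := fun hh => ht2 ⟨w, hw, hh⟩
    have hwN : ¬ inBox N w := fun hh => hwn (inBox_mono (by linarith) hh)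
    have hw5 : ¬ inBox (N + 5) w := fun hh => hwn (inBox_mono (by linarith) hh)
    obtain ⟨r, j, rfl⟩ := (hF w hwN).1 (T.mem hw).2.2
    rw [inBox_site_nat] at hwn
    rcases hf T N hF r j hw5 y x (T.rot (T.rot hw)) with
      ⟨rfl, rfl⟩ | ⟨rfl, rfl⟩ | ⟨rfl, rfl⟩ | ⟨rfl, rfl⟩ | ⟨rfl, rfl⟩ | ⟨rfl, rfl⟩
    · rw [inBox_site_nat] at hx hy; omega
    · rw [om_site]; ring
    · exfalso
      rw [inBox_site_nat] at hx hy
      have hj : j - 1 = n := by omega
      rw [hj] at h1 hnot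
      have hz' := T.uniq h1 (hR r)
      apply hnot
      refine Finset.mem_union_left _ (Finset.mem_image.2 ⟨r, ?_, ?_⟩)
      · rw [hI, Finset.mem_Ico]; omega
      · rw [hz']; rfl
    · rw [inBox_site_nat] at hx hy; omega
    · rw [om_site]; ring
    · exfalso
      rw [inBox_site_nat] at hx hy
      have hj : j + 1 = -n := by omega
      rw [hj] at h1 hnot
      have hL1 := hL (r - 1)
      rw [sub_add_cancel] at hL1
      have hz' := T.uniq h1 hL1
      apply hnot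
      refine Finset.mem_union_right _ (Finset.mem_image.2 ⟨r - 1, ?_, ?_⟩)
      · rw [hI, Finset.mem_Ico]; omega
      · rw [hz']; unfold lt; rw [sub_add_cancel]
  rw [← Finset.sum_subset hsub hzero]
  have hdisj : Disjoint (I.image (rt n)) (I.image (lt n)) := by
    rw [Finset.disjoint_left]
    intro t h1 h2
    obtain ⟨r, _, rfl⟩ := Finset.mem_image.1 h1
    obtain ⟨r', _, he⟩ := Finset.mem_image.1 h2
    have := (site_inj (congrArg Prod.fst he)).2
    omega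
  have hcard : (I.card : ℝ) = 2 * n := by
    rw [hI, Int.card_Ico]
    have : ((n : ℤ) - -(n : ℤ)).toNat = 2 * n := by omega
    rw [this]; push_cast; ring
  rw [Finset.sum_union hdisj, Finset.sum_image, Finset.sum_image]
  · have e1 : ∀ r ∈ I, om (rt n r).1 (rt n r).2.1 = 2 * n := by
      intro r _
      show om (site r n) (site (r + 1) n) = 2 * n
      rw [om_site]; push_cast; ring
    have e2 : ∀ r ∈ I, om (lt n r).1 (lt n r).2.1 = 2 * n := by
      intro r _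
      show om (site (r + 1) (-n)) (site r (-n)) = 2 * n
      rw [om_site]; push_cast; ring
    rw [Finset.sum_congr rfl e1, Finset.sum_congr rfl e2, Finset.sum_const, nsmul_eq_mul, hcard]
    ring
  · intro r _ r' _ he
    have := (site_inj (congrArg Prod.fst he)).1
    omega
  · intro r _ r' _ he
    exact (site_inj (congrArg Prod.fst he)).1

end Area

open Classical in
theorem area_of (hf : S_far) : S_area := by
  intro T N n hN hF hn h
  rw [Area.sum_cross T h,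
    ← Finset.sum_filter_add_sum_filter_not h.toFinset
      (fun t => ∃ w, T.Tri t.2.1 t.1 w ∧ inBox n w),
    Area.sum_inner T h, Area.sum_outer T hf hN hF hn h]
  ring

end

end Pool.Agent.P.MP_dd077d_co
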