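import Pool.Agent.P.MP_dd077d_co.Iface3
import Pool.Agent.P.MP_dd077d_co.Tri
import Pool.Agent.P.MP_dd077d_co.Ang

/-! Angles in a cheap strip. -/

set_option linter.dupNamespace false

namespace Pool.Agent.P.MP_dd077d_co

namespace At

variable {T : DT0} {a : ℤ} {W : Wall T a} (st : Strip W)

/-- the mixed edge number `k` -/
noncomputable def e (k : ℤ) : ℂ := W.v (st.I k) - st.c (k - st.I k)

/-- the potential -/
noncomputable def ps (k : ℤ) : ℝ := (e st k).arg + Real.pi / 3 * (2 * (st.I k : ℝ) - k)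

lemma tele (f : ℤ → ℝ) (k0 : ℤ) (n : ℕ) :
    ∑ k ∈ Finset.Ico k0 (k0 + n), (f (k + 1) - f k) = f (k0 + n) - f k0 := by
  induction n with
  | zero => simp
  | succ n ih =>
    have : Finset.Ico k0 (k0 + (n + 1 : ℕ)) = insert (k0 + n) (Finset.Ico k0 (k0 + n)) := by
      ext x
      simp only [Finset.mem_Ico, Finset.mem_insert]
      omega
    rw [this, Finset.sum_insert (by simp), ih, Nat.cast_succ, add_assoc]
    ring

lemma ends (k : ℤ) : ∃ (k0 : ℤ) (n : ℕ), k0 ≤ k ∧ k < k0 + n ∧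
    ps st (k0 + n) - ps st k0 = Real.pi / 3 * st.d := by
  obtain ⟨n, hn⟩ := W.far
  obtain ⟨m, hm⟩ : ∃ m : ℤ, (st.M : ℤ) + n + |st.d| + |k| < m := ⟨_, lt_add_one _⟩
  have h1 := abs_le.1 (le_refl |st.d|)
  have h2 := abs_le.1 (le_refl |k|)
  have hv : ∀ i : ℤ, (n : ℤ) ≤ |i| → W.v i - site (a - 1) i = ⟨1, s3⟩ := fun i hi => by
    obtain ⟨e1, e2⟩ := hn a i le_rfl (Or.inr hi)
    apply Complex.ext <;> simp [Wall.v, pt, e1, e2]
    ring
  obtain ⟨N, hN⟩ := Int.eq_ofNat_of_zero_le (show 0 ≤ 4 * m - st.d by omega)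
  refine ⟨-(2 * m), N, by omega, by omega, ?_⟩
  have l1 : st.I (-(2 * m)) = -m := by rw [(st.left _ (by omega)).1]; omega
  have l2 : st.I (2 * m - st.d) = m := by rw [(st.right _ (by omega)).1]; omega
  have l3 : e st (-(2 * m)) = ⟨1, s3⟩ := by
    rw [e, l1, show -(2 * m) - -m = -m by ring, (st.left _ (by omega)).2]
    exact hv _ (le_abs.2 (Or.inr (by omega)))
  have l4 : e st (2 * m - st.d) = ⟨1, s3⟩ := by
    rw [e, l2, (st.right _ (by omega)).2, show 2 * m - st.d - m + st.d = m by ring]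
    exact hv _ (le_abs.2 (Or.inl (by omega)))
  rw [show -(2 * m) + (N : ℤ) = 2 * m - st.d by omega, ps, ps, l1, l2, l3, l4]
  push_cast
  ring

end At

open At in
theorem atT (hp : S_pair) (hi : S_inv) (hm : S_met) (hs : S_sb) : S_at := by
  intro T a W st hW hB
  obtain ⟨s1, s2, -, -, -, s6, -, -, -, -, -, s12⟩ := hs T a W st hW
  have bud := s12 _ hB
  have h7 : ∀ k, nsq (e st k) ≤ 7 := fun k => by
    by_contra h
    obtain ⟨x, h1, h2⟩ := s2 k
    have h3 := (hp T _ _ _ _ (s1 k) h1).1 (not_le.1 h).le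
    have h4 := bud {k - 1, k}
    rw [Finset.sum_pair (by omega), h2, Strip.tri] at h4
    linarith
  have him : ∀ k, 0 ≤ (e st k).im := fun k => by
    have := ((hm T a W).1 _ (st.cmem (k - st.I k)).1 (st.cmem _).2).1 (st.I k)
    rw [e, Complex.sub_im]
    linarith
  have h4 : ∀ k, 4 ≤ nsq (e st k) := fun k => (data T _ _ _ (s1 k)).1
  have hc : ∀ k, cost (st.tri k) =
      cross (W.v (st.I k)) (st.c (k - st.I k)) (st.nx k) / 2 - s3 := fun k => T.cost_tri (s1 k)
  have c0 : ∀ k, 0 ≤ cost (st.tri k) := fun k => (side T _ _ _ (s1 k)).1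
  have chain : ∀ k, st.I (k + 1) = st.I k → 0 ≤ 0.51 * (ps st (k + 1) - ps st k) + cost (st.tri k) ∧
      (dot (W.v (st.I k)) (st.c (k - st.I k)) (st.nx k) ≤ 0 →
        0.53 ≤ 0.51 * (ps st (k + 1) - ps st k) + cost (st.tri k)) := fun k h => by
    have e1 : e st (k + 1) = W.v (st.I k) - st.nx k := by
      rw [e, h, Strip.nx, if_pos h, show k + 1 - st.I k = k - st.I k + 1 by ring]
    have e2 : cross 0 (e st k) (e st (k + 1)) =
        cross (W.v (st.I k)) (st.c (k - st.I k)) (st.nx k) := by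
      rw [e1, e]; simp only [cross, Complex.sub_re, Complex.sub_im, Complex.zero_re, Complex.zero_im]
      ring
    have e3 : dot 0 (e st k) (e st (k + 1)) =
        dot (W.v (st.I k)) (st.c (k - st.I k)) (st.nx k) := by
      rw [e1, e]; simp only [dot, Complex.sub_re, Complex.sub_im, Complex.zero_re, Complex.zero_im]
      ring
    have e4 : ps st (k + 1) - ps st k = (e st (k + 1)).arg - (e st k).arg - Real.pi / 3 := by
      rw [ps, ps, h]; push_cast; ring
    have e5 : 4 ≤ nsq (e st k - e st (k + 1)) := by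
      rw [e1, e, sub_sub_sub_cancel_left, nsq_comm]
      exact (data T _ _ _ (s1 k)).2.2.1
    obtain ⟨-, a2, a3, a4⟩ := ang heron (e st k) (e st (k + 1)) (him k) (him _) (e2 ▸ T.ccw (s1 k)) (h4 k)
      (h4 _) e5 (by rw [e2, ← hc]; exact c0 k)
    rw [e2, ← hc] at a2 a4
    rw [e3] at a4
    rw [e4]
    refine ⟨?_, a4⟩
    rcases le_total (nsq (e st k - e st (k + 1))) 8 with h8 | h8
    · linarith [a2 (by linarith [h7 k]) (by linarith [h7 (k + 1)]) h8, c0 k]
    · linarith [a3 (h7 k) (h7 _) h8, c0 k]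
  have all : ∀ k, 0 ≤ 0.51 * (ps st (k + 1) - ps st k) + cost (st.tri k) := fun k => by
    rcases st.step k with ⟨h, -⟩ | ⟨h, -⟩
    swap
    · exact (chain k h).1
    have e0 : st.nx k = W.v (st.I k + 1) := by rw [Strip.nx, if_neg (by omega)]
    have e1 : e st (k + 1) = st.nx k - st.c (k - st.I k) := by
      rw [e, h, e0, show k + 1 - (st.I k + 1) = k - st.I k by ring]
    have e2 : cross 0 (e st (k + 1)) (e st k) =
        cross (W.v (st.I k)) (st.c (k - st.I k)) (st.nx k) := by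
      rw [e1, e]; simp only [cross, Complex.sub_re, Complex.sub_im, Complex.zero_re, Complex.zero_im]
      ring
    have e4 : ps st (k + 1) - ps st k = (e st (k + 1)).arg - (e st k).arg + Real.pi / 3 := by
      rw [ps, ps, h]; push_cast; ring
    have e5 : 4 ≤ nsq (e st (k + 1) - e st k) := by
      rw [e1, e, sub_sub_sub_cancel_right, nsq_comm]
      exact (data T _ _ _ (s1 k)).2.1
    have e6 : nsq (e st (k + 1) - e st k) ≤ 8 := by
      rw [e1, e, sub_sub_sub_cancel_right, e0]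
      refine le_of_eq_of_le ?_ ((hi _ (W.inv a le_rfl).1).2.2.2.2.2.2.1 (st.I k)).2
      simp only [nsq_sub, Wall.v, pt, Row.y, Row.T]
      push_cast
      ring
    have a1 := (ang heron (e st (k + 1)) (e st k) (him _) (him k) (e2 ▸ T.ccw (s1 k)) (h4 _)
      (h4 k) e5 (by rw [e2, ← hc]; exact c0 k)).1 e6
    rw [e2, ← hc] at a1
    rw [e4]
    linarith
  have top : ∀ k, 0.51 * (ps st (k + 1) - ps st k) + cost (st.tri k) ≤
      0.51 * (Real.pi / 3 * st.d) + 1 / 2 := fun k => by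
    obtain ⟨k0, n, h1, h2, h3⟩ := ends st k
    refine (Finset.single_le_sum (fun j _ => all j) (Finset.mem_Ico.2 ⟨h1, h2⟩)).trans ?_
    rw [Finset.sum_add_distrib, ← Finset.mul_sum, tele, h3]
    linarith [bud (Finset.Ico k0 (k0 + n))]
  refine ⟨h7, ?_, fun hd j => ?_⟩
  · by_contra h
    have h1 : (st.d : ℝ) ≤ -1 := by exact_mod_cast (show st.d ≤ -1 by omega)
    nlinarith [(all 0).trans (top 0), Real.pi_gt_three]
  · by_contra h
    obtain ⟨k, rfl, hk⟩ := s6 j
    have e0 : st.nx k = st.c (k - st.I k + 1) := by rw [Strip.nx, if_pos hk]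
    have h1 := top k
    rw [hd] at h1
    have h2 := bud {k}
    rw [Finset.sum_singleton] at h2
    rcases le_total 0 (dot (W.v (st.I k)) (st.c (k - st.I k)) (st.nx k)) with h3 | h3
    · have h5 := (side T _ _ _ (T.rot (s1 k))).2.2.2.1 (e0 ▸ (not_le.1 h).le) h3
      rw [T.cost_tri (T.rot (s1 k)), cross_rot, ← hc] at h5
      linarith
    · have := (chain k hk).2 h3
      norm_num at h1
      linarith

end Pool.Agent.P.MP_dd077d_co
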