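import Pool.Agent.P.MP_dd077d_co.Iface1

/-!
The total cost of any finite family of triangles is at most `2 * s3`.
-/

namespace Pool.Agent.P.MP_dd077d_co

noncomputable section

namespace BudgetA

lemma bdd {A : Set ℂ} (hA : A.Finite) : ∃ N : ℝ, 0 ≤ N ∧ ∀ z ∈ A, inBox N z := by
  obtain ⟨a, ha⟩ := (hA.image fun z : ℂ => |z.im / s3|).bddAbove
  obtain ⟨b, hb⟩ := (hA.image fun z : ℂ => |(z.re - z.im / s3) / 2|).bddAbove
  refine ⟨max (max a b) 0, le_max_right _ _, fun z hz => ⟨?_, ?_⟩⟩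
  · exact (ha ⟨z, hz, rfl⟩).trans ((le_max_left _ _).trans (le_max_left _ _))
  · exact (hb ⟨z, hz, rfl⟩).trans ((le_max_right _ _).trans (le_max_left _ _))

lemma farLat {P : Set ℂ} (hP : Near P) : ∃ N : ℝ, 0 ≤ N ∧ FarLat P N := by
  obtain ⟨N, h0, hN⟩ := bdd (hP.1.union hP.2.1)
  refine ⟨N, h0, fun z hz => ⟨fun h => ?_, fun h => ?_⟩⟩
  · by_contra h'; exact hz (hN z (Or.inl ⟨h, h'⟩))
  · by_contra h'; exact hz (hN z (Or.inr ⟨h, h'⟩))

/-- the vertex set of a triple -/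
def vs (t : ℂ × ℂ × ℂ) : Finset ℂ := {t.1, t.2.1, t.2.2}

lemma vs_rot (x y z : ℂ) : vs (y, z, x) = vs (x, y, z) := by
  ext a; simp only [vs, Finset.mem_insert, Finset.mem_singleton]; tauto

end BudgetA

open BudgetA in
theorem budget_of (ha : S_area) (hc : S_count) (hs : S_side) : S_budget := by
  intro T hP F hF
  obtain ⟨N, h0, hN⟩ := farLat hP
  obtain ⟨M, -, hM⟩ := bdd (Finset.finite_toSet (F.biUnion id))
  obtain ⟨n, hn⟩ := exists_nat_ge (max (N + 20) M)
  have hn1 : N + 20 ≤ n := (le_max_left _ _).trans hn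
  have hn2 : M ≤ n := (le_max_right _ _).trans hn
  obtain ⟨hfin, hcard⟩ := hc T N n h0 hN hP hn1
  have harea := ha T N n h0 hN hn1 hfin
  set B := hfin.toFinset with hB
  have hmem : ∀ t, t ∈ B ↔ t ∈ T.boxT n := fun t => hfin.mem_toFinset
  rw [Set.ncard_eq_toFinset_card _ hfin, ← hB] at hcard
  have hcost : ∀ t ∈ B, cost (vs t) = cross t.1 t.2.1 t.2.2 / 2 - s3 := fun t ht =>
    T.cost_tri ((hmem t).1 ht).1
  have hnn : ∀ t ∈ B, 0 ≤ cost (vs t) := fun t ht => (hs T _ _ _ ((hmem t).1 ht).1).1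
  have h1 : ∑ t ∈ B, cost (vs t) ≤ 6 * s3 := by
    rw [Finset.sum_congr rfl hcost, Finset.sum_sub_distrib, ← Finset.sum_div, harea,
      Finset.sum_const, nsmul_eq_mul]
    have : (24 : ℝ) * (n : ℝ) ^ 2 ≤ B.card + 6 := by exact_mod_cast hcard
    nlinarith [s3_pos]
  have h2 : ∀ s ∈ F, 3 * cost s ≤ ∑ t ∈ B with vs t = s, cost (vs t) := by
    intro s hsF
    obtain ⟨x, y, z, h, rfl⟩ := hF s hsF
    have hb : ∀ a ∈ ({x, y, z} : Finset ℂ), inBox n a := by
      intro a ha'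
      have := hM a (Finset.mem_coe.2 (Finset.mem_biUnion.2 ⟨_, hsF, ha'⟩))
      exact ⟨this.1.trans hn2, this.2.trans hn2⟩
    have bx := hb x (by simp)
    have by' := hb y (by simp)
    have bz := hb z (by simp)
    obtain ⟨n1, n2, n3⟩ := ne_of_cross (T.ccw h)
    have hsub : ({(x, y, z), (y, z, x), (z, x, y)} : Finset (ℂ × ℂ × ℂ)) ⊆
        B.filter fun t => vs t = {x, y, z} := by
      intro t ht
      simp only [Finset.mem_insert, Finset.mem_singleton] at ht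
      rw [Finset.mem_filter, hmem]
      rcases ht with rfl | rfl | rfl
      · exact ⟨⟨h, bx, by', bz⟩, rfl⟩
      · exact ⟨⟨T.rot h, by', bz, bx⟩, vs_rot x y z⟩
      · exact ⟨⟨T.rot (T.rot h), bz, bx, by'⟩, (vs_rot y z x).trans (vs_rot x y z)⟩
    refine le_trans (le_of_eq ?_) (Finset.sum_le_sum_of_subset_of_nonneg hsub
      fun t ht _ => hnn t (Finset.mem_filter.1 ht).1)
    rw [Finset.sum_insert (by simp [n1, n3]), Finset.sum_insert (by simp [n2]),
      Finset.sum_singleton, vs_rot y z x, vs_rot x y z]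
    change 3 * cost {x, y, z} = cost {x, y, z} + (cost {x, y, z} + cost {x, y, z})
    ring
  have h3 : ∑ s ∈ F, ∑ t ∈ B with vs t = s, cost (vs t) ≤ ∑ t ∈ B, cost (vs t) := by
    rw [Finset.sum_fiberwise_eq_sum_filter]
    exact Finset.sum_le_sum_of_subset_of_nonneg (Finset.filter_subset _ _) fun t ht _ => hnn t ht
  have h4 := Finset.sum_le_sum h2
  rw [← Finset.mul_sum] at h4
  linarith

end

end Pool.Agent.P.MP_dd077d_co
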