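import Pool.Agent.P.MP_dd077d_co.Iface2

/-!
Chains: the area against the negative part, deep chains, one missing point.
-/

set_option linter.dupNamespace false

namespace Pool.Agent.P.MP_dd077d_co

namespace Ch

variable {d : ℤ}

lemma summable_of_far (C : Chain d) (f : ℤ → ℝ)
    (hf : ∀ i, C.w i = 0 → C.w (i + 1) = 0 → f i = 0) : Summable f := by
  obtain ⟨n, h1, h2⟩ := C.fin
  refine summable_of_ne_finset_zero (s := Finset.Icc (-(n : ℤ) - 1) n) ?_
  intro i hi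
  rw [Finset.mem_Icc, not_and_or, not_le, not_le] at hi
  rcases hi with hi | hi
  · exact hf i (h1 i (by omega)).2 (h1 (i + 1) (by omega)).2
  · exact hf i (h2 i (by omega)).2 (h2 (i + 1) (by omega)).2

/-- the corrected step term -/
noncomputable def D (C : Chain d) (c : ℝ) (i : ℤ) : ℝ :=
  C.dx i * ((C.w i + C.w (i + 1)) / 2) + c * (max (-C.w i) 0 + max (-C.w (i + 1)) 0)

lemma D_nonneg (C : Chain d) {c : ℝ} (i : ℤ) (hc : C.dx i ≤ 2 * c) : 0 ≤ D C c i := by
  have h0 : 0 < C.dx i := (C.pos i).1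
  have h1 : -C.w i ≤ max (-C.w i) 0 := le_max_left _ _
  have h2 : -C.w (i + 1) ≤ max (-C.w (i + 1)) 0 := le_max_left _ _
  have h3 : 0 ≤ max (-C.w i) 0 := le_max_right _ _
  have h4 : 0 ≤ max (-C.w (i + 1)) 0 := le_max_right _ _
  unfold D
  nlinarith [mul_nonneg h0.le (show 0 ≤ C.w i + max (-C.w i) 0 by linarith),
    mul_nonneg h0.le (show 0 ≤ C.w (i + 1) + max (-C.w (i + 1)) 0 by linarith),
    mul_nonneg (show 0 ≤ 2 * c - C.dx i by linarith) (add_nonneg h3 h4)]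

lemma sum_D_le (C : Chain d) {c : ℝ} (hc : ∀ i, C.dx i ≤ 2 * c) (F : Finset ℤ) :
    ∑ i ∈ F, D C c i ≤ C.A + 2 * c * C.N := by
  have s1 : Summable fun i => C.dx i * ((C.w i + C.w (i + 1)) / 2) :=
    summable_of_far C _ (fun i h1 h2 => by simp [h1, h2])
  have s2 : Summable fun i => max (-C.w i) 0 :=
    summable_of_far C _ (fun i h1 _ => by simp [h1])
  have s3' : Summable fun i => max (-C.w (i + 1)) 0 :=
    summable_of_far C _ (fun i _ h2 => by simp [h2])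
  have e3 : ∑' i, max (-C.w (i + 1)) 0 = C.N :=
    (Equiv.addRight (1 : ℤ)).tsum_eq (fun i => max (-C.w i) 0)
  have sD : Summable (D C c) := s1.add ((s2.add s3').mul_left c)
  have eD : ∑' i, D C c i = C.A + 2 * c * C.N := by
    unfold D
    rw [s1.tsum_add ((s2.add s3').mul_left c), tsum_mul_left, s2.tsum_add s3', e3]
    unfold Chain.A Chain.N
    ring
  rw [← eD]
  exact sD.sum_le_tsum F (fun i _ => D_nonneg C i (hc i))

lemma dx_le (C : Chain d) (i : ℤ) : C.dx i ≤ 2 * 2 := by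
  have := (C.pos i).2
  unfold Chain.dx
  linarith

lemma part1 (C : Chain d) : -4 * C.N ≤ C.A ∧
    ∀ j, C.dx j * ((C.w j + C.w (j + 1)) / 2) - 4 * C.N ≤ C.A := by
  refine ⟨?_, fun j => ?_⟩
  · have := sum_D_le C (dx_le C) ∅
    rw [Finset.sum_empty] at this
    linarith
  · have := sum_D_le C (dx_le C) {j}
    rw [Finset.sum_singleton] at this
    unfold D at this
    have h3 : 0 ≤ max (-C.w j) 0 := le_max_right _ _
    have h4 : 0 ≤ max (-C.w (j + 1)) 0 := le_max_right _ _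
    linarith

lemma le_of_sq {a b : ℝ} (hb : 0 ≤ b) (h : a ^ 2 ≤ b ^ 2) : a ≤ b :=
  le_trans (le_abs_self a) (abs_le_of_sq_le_sq h hb)

lemma loc1 {P u v x1 x2 : ℝ} (hP : 1.4 ≤ P) (hP' : P ≤ 1.8) (hu : -0.03 ≤ u) (huv : u ≤ v)
    (hv : v ≤ P) (h1 : 0 < x1) (h1' : x1 < 4) (h2 : 0 < x2) (h2' : x2 < 4)
    (hs2 : 4 ≤ x2 ^ 2 + (P - v) ^ 2) (hs : 8 ≤ (x1 + x2) ^ 2 + (v - u) ^ 2) :
    1.9333 ≤ x1 * ((P + u) / 2) + x2 * ((P + v) / 2) + 2 * max (-u) 0 + 2 * max (-v) 0 := by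
  have a1 : -u ≤ max (-u) 0 := le_max_left _ _
  have a2 : -v ≤ max (-v) 0 := le_max_left _ _
  have a3 : 0 ≤ max (-u) 0 := le_max_right _ _
  have a4 : 0 ≤ max (-v) 0 := le_max_right _ _
  have b1 : x1 * (P / 2) ≤ x1 * ((P + u) / 2) + 2 * max (-u) 0 := by
    nlinarith [mul_nonneg h1.le (show 0 ≤ u + max (-u) 0 by linarith),
      mul_nonneg (show 0 ≤ 4 - x1 by linarith) a3]
  have b2 : x2 * (P / 2) ≤ x2 * ((P + v) / 2) + 2 * max (-v) 0 := by
    nlinarith [mul_nonneg h2.le (show 0 ≤ v + max (-v) 0 by linarith),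
      mul_nonneg (show 0 ≤ 4 - x2 by linarith) a4]
  have b3 : (x1 + x2) * 0.7 ≤ x1 * (P / 2) + x2 * (P / 2) := by
    nlinarith [mul_nonneg (add_pos h1 h2).le (show 0 ≤ P - 1.4 by linarith)]
  rcases le_total (v - u) 0.6 with hd | hd
  · have c1 : 2.764 ≤ x1 + x2 := by
      refine le_of_sq (add_pos h1 h2).le ?_
      nlinarith [mul_nonneg (show 0 ≤ 0.6 - (v - u) by linarith)
        (show 0 ≤ 0.6 + (v - u) by linarith)]
    linarith
  · have c1 : 2.156 ≤ x1 + x2 := by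
      refine le_of_sq (add_pos h1 h2).le ?_
      nlinarith [mul_nonneg (show 0 ≤ 1.83 - (v - u) by linarith)
        (show 0 ≤ 1.83 + (v - u) by linarith)]
    have c2 : 1.577 ≤ x2 := by
      refine le_of_sq h2.le ?_
      nlinarith [mul_nonneg (show 0 ≤ 1.23 - (P - v) by linarith)
        (show 0 ≤ 1.23 + (P - v) by linarith)]
    have c3 : 1.577 * 0.57 ≤ x2 * v :=
      mul_le_mul c2 (by linarith) (by norm_num) h2.le
    nlinarith

lemma exists_max (C : Chain d) {j0 : ℤ} (h : 0 < C.w j0) : ∃ j, ∀ i, C.w i ≤ C.w j := by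
  obtain ⟨n, h1, h2⟩ := C.fin
  have hj0 : j0 ∈ Finset.Icc (-(n : ℤ)) n := by
    rw [Finset.mem_Icc]
    constructor
    · by_contra hh
      have := (h1 j0 (by omega)).2
      linarith
    · by_contra hh
      have := (h2 j0 (by omega)).2
      linarith
  obtain ⟨j, _, hj⟩ := Finset.exists_max_image (Finset.Icc (-(n : ℤ)) n) C.w ⟨j0, hj0⟩
  refine ⟨j, fun i => ?_⟩
  by_cases hi : i ∈ Finset.Icc (-(n : ℤ)) n
  · exact hj i hi
  · have h0 := hj j0 hj0
    rw [Finset.mem_Icc, not_and_or, not_le, not_le] at hi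
    rcases hi with hi | hi
    · rw [(h1 i (by omega)).2]; linarith
    · rw [(h2 i (by omega)).2]; linarith

lemma part2 (C : Chain d) (hL : C.Low) (hA : C.A ≤ s3) (j0 : ℤ) : C.w j0 ≤ 7 / 5 := by
  by_contra hh
  rw [not_le] at hh
  obtain ⟨j, hj⟩ := exists_max C (j0 := j0) (by linarith)
  obtain ⟨hN, hw, hG, -⟩ := hL
  have hP : 1.4 ≤ C.w j := by
    have := hj j0
    norm_num at hh ⊢
    linarith
  have hs := hG j (hj _) (hj _)
  have hD := sum_D_le C (dx_le C) {j - 1, j}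
  rw [Finset.sum_pair (by omega)] at hD
  unfold D at hD
  rw [sub_add_cancel] at hD
  have p1 := C.pos (j - 1)
  have p2 := C.pos j
  have q1 := C.sep (j - 1)
  have q2 := C.sep j
  change 0 < C.dx (j - 1) ∧ C.dx (j - 1) < 4 at p1
  change 0 < C.dx j ∧ C.dx j < 4 at p2
  change 4 ≤ C.dx (j - 1) ^ 2 + _ at q1
  change 4 ≤ C.dx j ^ 2 + _ at q2
  rw [sub_add_cancel] at q1
  have a3 : 0 ≤ max (-C.w j) 0 := le_max_right _ _
  have hs3 := s3_ub
  rcases le_total (C.w (j - 1)) (C.w (j + 1)) with h | h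
  · have := loc1 hP (hw j).2 (hw (j - 1)).1 h (hj _) p1.1 p1.2 p2.1 p2.2 (by nlinarith) hs
    nlinarith
  · have := loc1 hP (hw j).2 (hw (j + 1)).1 h (hj _) p2.1 p2.2 p1.1 p1.2 q1 (by nlinarith)
    nlinarith

lemma gA {x : ℝ} (h0 : 0 ≤ x) (h1 : x ≤ 0.38) : 0.445 * x ≤ g x := by
  have h : s3 + 0.445 * x ≤ Rp x := by
    unfold Rp
    refine Real.le_sqrt_of_sq_le ?_
    have := s3_sq
    have := s3_ub
    nlinarith [mul_nonneg h0 (show 0 ≤ 1.73206 - s3 by linarith),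
      mul_nonneg h0 (show 0 ≤ 0.38 - x by linarith)]
  unfold g
  linarith

lemma gB {x : ℝ} (h0 : 0.38 ≤ x) (h1 : x ≤ 1) : 0.1089 + 0.158 * x ≤ g x := by
  have h : 1.84096 + 0.158 * x ≤ Rp x := by
    unfold Rp
    refine Real.le_sqrt_of_sq_le ?_
    nlinarith [mul_nonneg (show 0 ≤ x - 0.38 by linarith) (show 0 ≤ 1 - x by linarith)]
  have := s3_ub
  unfold g
  linarith

lemma gsum (hg : S_g) {a b : ℝ} (ha : 0 ≤ a) (ha' : a ≤ 1) (hb : 0 ≤ b) (hb' : b ≤ 1)
    (hab : 0.38 ≤ a + b) : 0.1089 + 0.158 * (a + b) ≤ g a + g b := by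
  have hq := hg.2.2.2.2.2.2.2.2.2.2.2.2.2
  rcases le_total a 0.38 with h | h
  · rcases le_total b 0.38 with h' | h'
    · have := gA ha h
      have := gA hb h'
      linarith
    · have := gB h' hb'
      have := hq a ha ha'
      linarith
  · have := gB h ha'
    have := hq b hb hb'
    linarith

lemma exists_last (C : Chain 1) : ∃ j, C.φ j ≤ 1 ∧ 1 < C.φ (j + 1) := by
  obtain ⟨n, h1, h2⟩ := C.fin
  obtain ⟨j, hj, hmax⟩ := Int.exists_greatest_of_bdd (P := fun i => C.φ i ≤ 1)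
    ⟨n, fun i hi => by
      by_contra hh
      have := (h2 i (by omega)).1
      push_cast at this
      linarith⟩
    ⟨-n, by rw [(h1 _ le_rfl).1]; norm_num⟩
  refine ⟨j, hj, ?_⟩
  by_contra hh
  have := hmax (j + 1) (not_lt.1 hh)
  omega

lemma part3 (hg : S_g) (C : Chain 1) (hL : C.Low) (hA : C.A ≤ 0) :
    ∃ j, 3.62 ≤ C.dx j ∧ C.w j ≤ 0.15 ∧ C.w (j + 1) ≤ 0.15 := by
  obtain ⟨hN, hw, -, hl⟩ := hL
  by_cases hex : ∃ j, 3.62 ≤ C.dx j
  · obtain ⟨j, hj⟩ := hex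
    have h := (part1 C).2 j
    have h1 := (hw j).1
    have h2 := (hw (j + 1)).1
    have h3 : C.w j + C.w (j + 1) ≤ 0.12 := by
      by_contra hh
      rw [not_le] at hh
      nlinarith [mul_nonneg (show 0 ≤ C.dx j - 3.62 by linarith)
        (show 0 ≤ C.w j + C.w (j + 1) by linarith)]
    exact ⟨j, hj, by linarith, by linarith⟩
  exfalso
  push Not at hex
  obtain ⟨j, hj1, hj2⟩ := exists_last C
  have hD := sum_D_le C (c := 1.81) (fun i => by have := hex i; linarith) {j}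
  rw [Finset.sum_singleton] at hD
  unfold D at hD
  have a3 : 0 ≤ max (-C.w j) 0 := le_max_right _ _
  have a4 : 0 ≤ max (-C.w (j + 1)) 0 := le_max_right _ _
  have hdx := hex j
  have e : C.dx j = 4 - C.φ j - (2 - C.φ (j + 1)) := by unfold Chain.dx; ring
  have w1 : g (max (C.φ j) 0) - 0.03 ≤ C.w j := by
    rcases le_total (C.φ j) 0 with h | h
    · rw [max_eq_right h, hg.1]
      have := (hw j).1
      linarith
    · have k : |C.φ j - 2 * ((0 : ℤ) : ℝ)| = C.φ j := by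
        rw [Int.cast_zero, mul_zero, sub_zero, abs_of_nonneg h]
      have := hl j 0 (by rw [k]; exact hj1)
      rwa [k, ← max_eq_left h] at this
  have w2 : g (max (2 - C.φ (j + 1)) 0) - 0.03 ≤ C.w (j + 1) := by
    rcases le_total (2 - C.φ (j + 1)) 0 with h | h
    · rw [max_eq_right h, hg.1]
      have := (hw (j + 1)).1
      linarith
    · have k : |C.φ (j + 1) - 2 * ((1 : ℤ) : ℝ)| = 2 - C.φ (j + 1) := by
        rw [Int.cast_one, mul_one, abs_sub_comm, abs_of_nonneg h]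
      have := hl (j + 1) 1 (by rw [k]; linarith)
      rwa [k, ← max_eq_left h] at this
  have m1 : C.φ j ≤ max (C.φ j) 0 := le_max_left _ _
  have m2 : 2 - C.φ (j + 1) ≤ max (2 - C.φ (j + 1)) 0 := le_max_left _ _
  have m3 : max (C.φ j) 0 ≤ 1 := max_le hj1 zero_le_one
  have m4 : max (2 - C.φ (j + 1)) 0 ≤ 1 := max_le (by linarith) zero_le_one
  have hs := gsum hg (le_max_right _ _) m3 (le_max_right _ _) m4 (by linarith)
  generalize max (C.φ j) 0 = a at *
  generalize max (2 - C.φ (j + 1)) 0 = b at *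
  have k1 : 4 - (a + b) ≤ C.dx j := by linarith
  have k2 : 0.0489 + 0.158 * (a + b) ≤ C.w j + C.w (j + 1) := by linarith
  have k3 : (4 - (a + b)) * (0.0489 + 0.158 * (a + b)) ≤ C.dx j * (C.w j + C.w (j + 1)) :=
    mul_le_mul k1 k2 (by linarith) (by linarith)
  nlinarith [mul_nonneg (show 0 ≤ a + b - 0.38 by linarith) (show 0 ≤ 2 - (a + b) by linarith)]

end Ch

theorem ch (hg : S_g) : S_ch :=
  ⟨fun _ C => Ch.part1 C, fun C hL hA j => Ch.part2 C hL hA j, fun C hL hA => Ch.part3 hg C hL hA⟩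

end Pool.Agent.P.MP_dd077d_co
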