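import Pool.Agent.P.MP_dd077d_co.Defs

/-!
The number of triangles in a large parallelogram.
-/

namespace Pool.Agent.P.MP_dd077d_co

noncomputable section

namespace Count

/-- lexicographic order, height first -/
def lo (a b : ℂ) : Prop := a.im < b.im ∨ (a.im = b.im ∧ a.re < b.re)

lemma lo_total {a b : ℂ} (h : a ≠ b) : lo a b ∨ lo b a := by
  unfold lo
  rcases lt_trichotomy a.im b.im with h1 | h1 | h1
  · exact Or.inl (Or.inl h1)
  · rcases lt_trichotomy a.re b.re with h2 | h2 | h2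
    · exact Or.inl (Or.inr ⟨h1, h2⟩)
    · exact absurd (Complex.ext h2 h1) h
    · exact Or.inr (Or.inr ⟨h1.symm, h2⟩)
  · exact Or.inr (Or.inl h1)

lemma lo_asymm {a b : ℂ} (h : lo a b) : ¬ lo b a := by
  unfold lo at *
  rintro (h' | ⟨h', h''⟩) <;> rcases h with h | ⟨h, h0⟩ <;> linarith

lemma lo_trans {a b c : ℂ} (h : lo a b) (h' : lo b c) : lo a c := by
  unfold lo at *
  rcases h with h | ⟨h, h0⟩ <;> rcases h' with h' | ⟨h', h1⟩
  · exact Or.inl (by linarith)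
  · exact Or.inl (by linarith)
  · exact Or.inl (by linarith)
  · exact Or.inr ⟨by linarith, by linarith⟩

lemma half_trans {a1 a2 b1 b2 c1 c2 : ℝ} (ha : 0 < a2 ∨ (0 = a2 ∧ 0 < a1))
    (hb : 0 < b2 ∨ (0 = b2 ∧ 0 < b1)) (hc : 0 < c2 ∨ (0 = c2 ∧ 0 < c1))
    (h1 : 0 < a1 * b2 - a2 * b1) (h2 : 0 < b1 * c2 - b2 * c1) : 0 < a1 * c2 - a2 * c1 := by
  have ha2 : 0 ≤ a2 := by rcases ha with h | h <;> [exact h.le; exact h.1.le]
  have hc2 : 0 ≤ c2 := by rcases hc with h | h <;> [exact h.le; exact h.1.le]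
  rcases hb with hb | ⟨hb, hb1⟩
  · have hc' : 0 < c2 := by
      rcases hc with h | ⟨h, h'⟩
      · exact h
      · subst h; nlinarith [mul_pos hb h']
    have key : (a1 * c2 - a2 * c1) * b2 =
        (a1 * b2 - a2 * b1) * c2 + (b1 * c2 - b2 * c1) * a2 := by ring
    have : 0 < (a1 * c2 - a2 * c1) * b2 := by
      rw [key]
      have := mul_pos h1 hc'
      have := mul_nonneg h2.le ha2
      linarith
    exact (pos_iff_pos_of_mul_pos this).2 hb
  · subst hb
    nlinarith [mul_nonneg ha2 hb1.le]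

lemma up_trans {v a b c : ℂ} (ha : lo v a) (hb : lo v b) (hc : lo v c)
    (h1 : 0 < cross v a b) (h2 : 0 < cross v b c) : 0 < cross v a c := by
  unfold cross at *
  unfold lo at *
  refine half_trans (b1 := b.re - v.re) (b2 := b.im - v.im) ?_ ?_ ?_ h1 h2
  · rcases ha with h | ⟨h, h'⟩
    · exact Or.inl (by linarith)
    · exact Or.inr ⟨by linarith, by linarith⟩
  · rcases hb with h | ⟨h, h'⟩
    · exact Or.inl (by linarith)
    · exact Or.inr ⟨by linarith, by linarith⟩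
  · rcases hc with h | ⟨h, h'⟩
    · exact Or.inl (by linarith)
    · exact Or.inr ⟨by linarith, by linarith⟩

lemma down_trans {v a b c : ℂ} (ha : lo a v) (hb : lo b v) (hc : lo c v)
    (h1 : 0 < cross v a b) (h2 : 0 < cross v b c) : 0 < cross v a c := by
  unfold cross at *
  unfold lo at *
  have := half_trans (a1 := v.re - a.re) (a2 := v.im - a.im) (b1 := v.re - b.re)
    (b2 := v.im - b.im) (c1 := v.re - c.re) (c2 := v.im - c.im) ?_ ?_ ?_ (by linarith) (by linarith)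
  · linarith
  · rcases ha with h | ⟨h, h'⟩
    · exact Or.inl (by linarith)
    · exact Or.inr ⟨by linarith, by linarith⟩
  · rcases hb with h | ⟨h, h'⟩
    · exact Or.inl (by linarith)
    · exact Or.inr ⟨by linarith, by linarith⟩
  · rcases hc with h | ⟨h, h'⟩
    · exact Or.inl (by linarith)
    · exact Or.inr ⟨by linarith, by linarith⟩

lemma no_cycle (v : ℂ) (S : Set ℂ) (hS : S.Finite) (hne : S.Nonempty)
    (htr : ∀ a ∈ S, ∀ b ∈ S, ∀ c ∈ S, 0 < cross v a b → 0 < cross v b c → 0 < cross v a c)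
    (hs : ∀ y ∈ S, ∃ z ∈ S, 0 < cross v y z) : False := by
  have : Finite S := hS
  let r : S → S → Prop := fun a b => 0 < cross v b a
  have : IsTrans S r := ⟨fun a b c h1 h2 => htr _ c.2 _ b.2 _ a.2 h2 h1⟩
  have : Std.Irrefl r := ⟨fun a h => by
    have : cross v a a = 0 := by unfold cross; ring
    simp only [r] at h
    linarith⟩
  have wf : WellFounded r := Finite.wellFounded_of_trans_of_irrefl r
  obtain ⟨y0, hy0⟩ := hne
  obtain ⟨m, -, hm⟩ := wf.has_min Set.univ ⟨⟨y0, hy0⟩, trivial⟩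
  obtain ⟨z, hz, h⟩ := hs m m.2
  exact hm ⟨z, hz⟩ trivial h

lemma short (T : DT0) {x y z : ℂ} (h : T.Tri x y z) : nsq (x - y) < 16 ∧ nsq (x - z) < 16 := by
  obtain ⟨o, h1, h2, h3, -⟩ := T.circ h
  simp only [nsq_sub] at *
  constructor
  · nlinarith [sq_nonneg (x.re + y.re - 2 * o.re), sq_nonneg (x.im + y.im - 2 * o.im)]
  · nlinarith [sq_nonneg (x.re + z.re - 2 * o.re), sq_nonneg (x.im + z.im - 2 * o.im)]

lemma box_near {M : ℝ} {x y : ℂ} (hx : inBox M x) (h : nsq (x - y) < 16) : inBox (M + 4) y := by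
  rw [nsq_sub] at h
  have h1 : |x.re - y.re| < 4 := abs_lt_of_sq_lt_sq (by nlinarith [sq_nonneg (x.im - y.im)])
    (by norm_num)
  have h2 : |x.im - y.im| < 4 := abs_lt_of_sq_lt_sq (by nlinarith [sq_nonneg (x.re - y.re)])
    (by norm_num)
  have h3 : |x.im / s3 - y.im / s3| < 4 := by
    rw [← sub_div, abs_div, abs_of_pos s3_pos, div_lt_iff₀ s3_pos]
    have := s3_lb
    linarith
  obtain ⟨a, b⟩ := hx
  rw [abs_lt] at h1 h3
  rw [abs_le] at a b
  constructor <;> rw [abs_le] <;> constructor <;> linarith [a.1, a.2, b.1, b.2]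

lemma box_mono {M M' : ℝ} {x : ℂ} (hx : inBox M x) (h : M ≤ M') : inBox M' x :=
  ⟨hx.1.trans h, hx.2.trans h⟩

lemma box_site {M : ℝ} {r j : ℤ} : inBox M (site r j) ↔ |(r : ℝ)| ≤ M ∧ |(j : ℝ)| ≤ M := by
  have h : s3 * (r : ℝ) / s3 = r := by field_simp [s3_pos.ne']
  unfold inBox
  rw [site_im, site_re, h]
  have : (2 * (j : ℝ) + r - r) / 2 = j := by ring
  rw [this]

lemma fin_box {P : Set ℂ} (hP : (P \ Lam).Finite) (M : ℝ) : {z | z ∈ P ∧ inBox M z}.Finite := by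
  obtain ⟨m, hm⟩ := exists_nat_ge M
  have h1 : ((fun p : ℤ × ℤ => site p.1 p.2) ''
      (Set.Icc (-(m : ℤ)) m ×ˢ Set.Icc (-(m : ℤ)) m)).Finite :=
    ((Set.finite_Icc _ _).prod (Set.finite_Icc _ _)).image _
  refine (hP.union h1).subset ?_
  rintro z ⟨hz, hb⟩
  by_cases hl : z ∈ Lam
  · right
    obtain ⟨r, j, rfl⟩ := hl
    rw [box_site, abs_le, abs_le] at hb
    refine ⟨(r, j), ⟨⟨?_, ?_⟩, ?_, ?_⟩, rfl⟩
    · have : (-(m : ℝ)) ≤ r := by linarith [hb.1.1]
      exact_mod_cast this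
    · have : (r : ℝ) ≤ m := by linarith [hb.1.2]
      exact_mod_cast this
    · have : (-(m : ℝ)) ≤ j := by linarith [hb.2.1]
      exact_mod_cast this
    · have : (j : ℝ) ≤ m := by linarith [hb.2.2]
      exact_mod_cast this
  · exact Or.inl ⟨hz, hl⟩

lemma trans_exists (T : DT0) (hP : (T.pts \ Lam).Finite) {v : ℂ} (hv : v ∈ T.pts)
    (P Q : ℂ → Prop) (hPQ : ∀ y, y ≠ v → P y ∨ Q y)
    (tP : ∀ a b c, P a → P b → P c → 0 < cross v a b → 0 < cross v b c → 0 < cross v a c)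
    (tQ : ∀ a b c, Q a → Q b → Q c → 0 < cross v a b → 0 < cross v b c → 0 < cross v a c) :
    ∃ y z, T.Tri v y z ∧ P y ∧ Q z := by
  by_contra hcon
  let Nb : Set ℂ := {y | ∃ z, T.Tri v y z}
  have hfin : Nb.Finite := by
    refine (fin_box hP (|v.im / s3| + |(v.re - v.im / s3) / 2| + 4)).subset ?_
    rintro y ⟨z, h⟩
    refine ⟨(T.mem h).2.1, box_near ⟨?_, ?_⟩ (short T h).1⟩
    · linarith [abs_nonneg ((v.re - v.im / s3) / 2)]
    · linarith [abs_nonneg (v.im / s3)]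
  have hsucc : ∀ y z, T.Tri v y z → z ∈ Nb := fun y z h => T.rev (T.rot (T.rot h))
  by_cases hex : ∃ y ∈ Nb, P y
  · refine no_cycle v {y | y ∈ Nb ∧ P y} (hfin.subset fun y hy => hy.1) hex
      (fun a ha b hb c hc => tP a b c ha.2 hb.2 hc.2) ?_
    rintro y ⟨⟨z, h⟩, hy⟩
    refine ⟨z, ⟨hsucc y z h, ?_⟩, T.ccw h⟩
    rcases hPQ z (ne_of_cross (T.ccw h)).2.2.symm with h' | h'
    · exact h'
    · exact absurd ⟨y, z, h, hy, h'⟩ hcon
  · have hQ : ∀ y ∈ Nb, Q y := by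
      rintro y ⟨z, h⟩
      rcases hPQ y (ne_of_cross (T.ccw h)).1.symm with h' | h'
      · exact absurd ⟨y, ⟨z, h⟩, h'⟩ hex
      · exact h'
    obtain ⟨y0, z0, h0⟩ := T.vert v hv
    refine no_cycle v Nb hfin ⟨y0, z0, h0⟩
      (fun a ha b hb c hc => tQ a b c (hQ a ha) (hQ b hb) (hQ c hc)) ?_
    rintro y ⟨z, h⟩
    exact ⟨z, hsucc y z h, T.ccw h⟩

lemma lo_site {r j r' j' : ℤ} : lo (site r j) (site r' j') ↔ r < r' ∨ (r = r' ∧ j < j') := by
  unfold lo
  simp only [site_im, site_re]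
  have hs := s3_pos
  constructor
  · rintro (h | ⟨h, h'⟩)
    · left
      have : (r : ℝ) < r' := lt_of_mul_lt_mul_left h hs.le
      exact_mod_cast this
    · right
      have h1 : (r : ℝ) = r' := mul_left_cancel₀ hs.ne' h
      have h2 : (j : ℝ) < j' := by linarith
      exact ⟨by exact_mod_cast h1, by exact_mod_cast h2⟩
  · rintro (h | ⟨h, h'⟩)
    · left
      have : (r : ℝ) < r' := by exact_mod_cast h
      exact mul_lt_mul_of_pos_left this hs
    · right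
      subst h
      have : (j : ℝ) < j' := by exact_mod_cast h'
      exact ⟨rfl, by linarith⟩

lemma box_site_int {n : ℕ} {r j : ℤ} (h1 : -(n : ℤ) ≤ r) (h2 : r ≤ n) (h3 : -(n : ℤ) ≤ j)
    (h4 : j ≤ n) : inBox n (site r j) := by
  rw [box_site, abs_le, abs_le]
  exact ⟨⟨by exact_mod_cast h1, by exact_mod_cast h2⟩, by exact_mod_cast h3, by exact_mod_cast h4⟩

/-- the base points: lattice points of a range that survive, and all new points -/
def base (P : Set ℂ) (a b : ℤ) (n : ℕ) : Set ℂ :=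
  (((fun p : ℤ × ℤ => site p.1 p.2) '' (Set.Ico a (a + 2 * n) ×ˢ Set.Ico b (b + 2 * n))) ∩ P) ∪
    (P \ Lam)

lemma base_card {P : Set ℂ} (hP : Near P) (a b : ℤ) (n : ℕ) :
    4 * n ^ 2 ≤ (base P a b n).ncard + 1 := by
  obtain ⟨h1, h2, h3⟩ := hP
  set L := (fun p : ℤ × ℤ => site p.1 p.2) '' (Set.Ico a (a + 2 * n) ×ˢ Set.Ico b (b + 2 * n))
    with hL
  have hLf : L.Finite := ((Set.finite_Ico _ _).prod (Set.finite_Ico _ _)).image _
  have hinj : Function.Injective (fun p : ℤ × ℤ => site p.1 p.2) := fun p q h =>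
    Prod.ext (site_inj h).1 (site_inj h).2
  have hI : ∀ c : ℤ, (Set.Ico c (c + 2 * n)).ncard = 2 * n := by
    intro c
    rw [← Finset.coe_Ico, Set.ncard_coe_finset, Int.card_Ico]
    omega
  have hc : L.ncard = 4 * n ^ 2 := by
    rw [hL, Set.ncard_image_of_injective _ hinj, Set.ncard_prod, hI, hI]; ring
  have hLL : L ⊆ Lam := by
    rintro _ ⟨p, -, rfl⟩; exact ⟨p.1, p.2, rfl⟩
  have hd : Disjoint (L ∩ P) (P \ Lam) := by
    rw [Set.disjoint_left]; exact fun x hx hx' => hx'.2 (hLL hx.1)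
  have e1 : (base P a b n).ncard = (L ∩ P).ncard + (P \ Lam).ncard :=
    Set.ncard_union_eq hd (hLf.inter_of_left _) h1
  have e2 : L.ncard ≤ (L ∩ P).ncard + (Lam \ P).ncard := by
    refine le_trans (Set.ncard_le_ncard (t := (L ∩ P) ∪ (Lam \ P)) ?_
      ((hLf.inter_of_left _).union h2)) (Set.ncard_union_le _ _)
    intro x hx
    by_cases hx' : x ∈ P
    · exact Or.inl ⟨hx, hx'⟩
    · exact Or.inr ⟨hLL hx, hx'⟩
  omega

lemma near_box (T : DT0) {N : ℝ} {n : ℕ} (hn : N + 20 ≤ n) {v y z : ℂ} (h : T.Tri v y z)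
    (hv : inBox (N + 5) v) : (v, y, z) ∈ T.boxT n :=
  ⟨h, box_mono hv (by linarith), box_mono (box_near hv (short T h).1) (by linarith),
    box_mono (box_near hv (short T h).2) (by linarith)⟩

lemma type1 (hf : S_far) (T : DT0) {N : ℝ} {n : ℕ} (hF : FarLat T.pts N) (hP : Near T.pts)
    (hn : N + 20 ≤ n) {v : ℂ} (hv : v ∈ base T.pts (-(n : ℤ) + 1) (-(n : ℤ)) n) :
    ∃ y z, (v, y, z) ∈ T.boxT n ∧ lo y v ∧ lo v z := by
  have hvp : v ∈ T.pts := hv.elim (fun h => h.2) (fun h => h.1)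
  obtain ⟨y, z, h, hy, hz⟩ := trans_exists T hP.1 hvp (fun y => lo y v) (fun y => lo v y)
    (fun y hy => lo_total hy) (fun a b c => down_trans) (fun a b c => up_trans)
  refine ⟨y, z, ?_, hy, hz⟩
  by_cases hb : inBox (N + 5) v
  · exact near_box T hn h hb
  rcases hv with ⟨⟨⟨r, j⟩, ⟨⟨a1, a2⟩, a3, a4⟩, rfl⟩, -⟩ | ⟨h1, h2⟩
  · simp only at a1 a2 a3 a4 hy hz h hb ⊢
    rcases hf T N hF r j hb y z h with ⟨rfl, rfl⟩ | ⟨rfl, rfl⟩ | ⟨rfl, rfl⟩ | ⟨rfl, rfl⟩ |
      ⟨rfl, rfl⟩ | ⟨rfl, rfl⟩ <;> rw [lo_site] at hy hz <;> try omega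
    exact ⟨h, box_site_int (by omega) (by omega) (by omega) (by omega),
      box_site_int (by omega) (by omega) (by omega) (by omega),
      box_site_int (by omega) (by omega) (by omega) (by omega)⟩
  · exact absurd ((hF v fun h' => hb (box_mono h' (by linarith))).1 h1) h2

lemma type2 (hf : S_far) (T : DT0) {N : ℝ} {n : ℕ} (hF : FarLat T.pts N) (hP : Near T.pts)
    (hn : N + 20 ≤ n) {v : ℂ} (hv : v ∈ base T.pts (-(n : ℤ)) (-(n : ℤ) + 1) n) :
    ∃ y z, (v, y, z) ∈ T.boxT n ∧ lo v y ∧ lo z v := by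
  have hvp : v ∈ T.pts := hv.elim (fun h => h.2) (fun h => h.1)
  obtain ⟨y, z, h, hy, hz⟩ := trans_exists T hP.1 hvp (fun y => lo v y) (fun y => lo y v)
    (fun y hy => (lo_total hy).symm) (fun a b c => up_trans) (fun a b c => down_trans)
  refine ⟨y, z, ?_, hy, hz⟩
  by_cases hb : inBox (N + 5) v
  · exact near_box T hn h hb
  rcases hv with ⟨⟨⟨r, j⟩, ⟨⟨a1, a2⟩, a3, a4⟩, rfl⟩, -⟩ | ⟨h1, h2⟩
  · simp only at a1 a2 a3 a4 hy hz h hb ⊢
    rcases hf T N hF r j hb y z h with ⟨rfl, rfl⟩ | ⟨rfl, rfl⟩ | ⟨rfl, rfl⟩ | ⟨rfl, rfl⟩ |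
      ⟨rfl, rfl⟩ | ⟨rfl, rfl⟩ <;> rw [lo_site] at hy hz <;> try omega
    exact ⟨h, box_site_int (by omega) (by omega) (by omega) (by omega),
      box_site_int (by omega) (by omega) (by omega) (by omega),
      box_site_int (by omega) (by omega) (by omega) (by omega)⟩
  · exact absurd ((hF v fun h' => hb (box_mono h' (by linarith))).1 h1) h2

open Classical in
/-- the order type of a triple -/
def cl (t : ℂ × ℂ × ℂ) : Bool × Bool × Bool :=
  (decide (lo t.1 t.2.1), decide (lo t.2.1 t.2.2), decide (lo t.2.2 t.1))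

lemma fib (F : Finset (ℂ × ℂ × ℂ)) (A : Set ℂ) (k : Bool × Bool × Bool) (pr : ℂ × ℂ × ℂ → ℂ)
    (h : ∀ v ∈ A, ∃ t ∈ F, cl t = k ∧ pr t = v) :
    A.ncard ≤ (F.filter fun t => cl t = k).card := by
  rw [← Set.ncard_coe_finset]
  refine le_trans (Set.ncard_le_ncard (t := pr '' (F.filter fun t => cl t = k : Finset _)) ?_
    ((Finset.finite_toSet _).image _)) (Set.ncard_image_le (Finset.finite_toSet _))
  intro v hv
  obtain ⟨t, ht, h1, h2⟩ := h v hv
  exact ⟨t, by simp [ht, h1], h2⟩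

lemma rotT (T : DT0) {M : ℝ} {x y z : ℂ} (h : (x, y, z) ∈ T.boxT M) : (y, z, x) ∈ T.boxT M :=
  ⟨T.rot h.1, h.2.2.1, h.2.2.2, h.2.1⟩

end Count

open _root_.Pool.Agent.P.MP_dd077d_co.Count in
theorem count_of (hf : S_far) : S_count := by
  intro T N n _ hF hP hn
  have hB := fin_box hP.1 (n : ℝ)
  have hfin : (T.boxT n).Finite := by
    refine (hB.prod (hB.prod hB)).subset ?_
    rintro ⟨x, y, z⟩ ⟨h, a, b, c⟩
    obtain ⟨m1, m2, m3⟩ := T.mem h
    exact ⟨⟨m1, a⟩, ⟨m2, b⟩, m3, c⟩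
  refine ⟨hfin, ?_⟩
  set F := hfin.toFinset with hFd
  have hmem : ∀ t, t ∈ F ↔ t ∈ T.boxT n := fun t => hfin.mem_toFinset
  have hc : (T.boxT n).ncard = F.card := Set.ncard_eq_toFinset_card _ hfin
  have hsum : F.card = ∑ k : Bool × Bool × Bool, (F.filter fun t => cl t = k).card :=
    Finset.card_eq_sum_card_fiberwise (fun t _ => Finset.mem_coe.2 (Finset.mem_univ _))
  simp only [Fintype.sum_prod_type, Fintype.sum_bool] at hsum
  have c1 := base_card hP (-(n : ℤ) + 1) (-(n : ℤ)) n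
  have c2 := base_card hP (-(n : ℤ)) (-(n : ℤ) + 1) n
  have b1 := fib F _ (false, true, false) (fun t => t.1) (fun v hv => by
    obtain ⟨y, z, h, h1, h2⟩ := type1 hf T hF hP hn hv
    exact ⟨(v, y, z), (hmem _).2 h, by simp [cl, lo_asymm h1, lo_asymm h2, lo_trans h1 h2], rfl⟩)
  have b2 := fib F _ (true, false, false) (fun t => t.2.2) (fun v hv => by
    obtain ⟨y, z, h, h1, h2⟩ := type1 hf T hF hP hn hv
    exact ⟨(y, z, v), (hmem _).2 (rotT T h),
      by simp [cl, lo_asymm h1, lo_asymm h2, lo_trans h1 h2], rfl⟩)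
  have b3 := fib F _ (false, false, true) (fun t => t.2.1) (fun v hv => by
    obtain ⟨y, z, h, h1, h2⟩ := type1 hf T hF hP hn hv
    exact ⟨(z, v, y), (hmem _).2 (rotT T (rotT T h)),
      by simp [cl, lo_asymm h1, lo_asymm h2, lo_trans h1 h2], rfl⟩)
  have b4 := fib F _ (true, false, true) (fun t => t.1) (fun v hv => by
    obtain ⟨y, z, h, h1, h2⟩ := type2 hf T hF hP hn hv
    exact ⟨(v, y, z), (hmem _).2 h, by simp [cl, h1, h2, lo_asymm (lo_trans h2 h1)], rfl⟩)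
  have b5 := fib F _ (false, true, true) (fun t => t.2.2) (fun v hv => by
    obtain ⟨y, z, h, h1, h2⟩ := type2 hf T hF hP hn hv
    exact ⟨(y, z, v), (hmem _).2 (rotT T h),
      by simp [cl, h1, h2, lo_asymm (lo_trans h2 h1)], rfl⟩)
  have b6 := fib F _ (true, true, false) (fun t => t.2.1) (fun v hv => by
    obtain ⟨y, z, h, h1, h2⟩ := type2 hf T hF hP hn hv
    exact ⟨(z, v, y), (hmem _).2 (rotT T (rotT T h)),
      by simp [cl, h1, h2, lo_asymm (lo_trans h2 h1)], rfl⟩)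
  omega

end

end Pool.Agent.P.MP_dd077d_co
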