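import Pool.Agent.P.MP_dd077d_co.Defs

/-!
Existence of a Delaunay triangulation of a saturated packing.
Ties between cocircular points are broken by an infinitesimal perturbation of the lifting map.
-/

namespace Pool.Agent.P.MP_dd077d_co

noncomputable section

namespace ExDT

/-- values of the perturbed lifting map -/
abbrev V : Type := ℝ × (ℂ →₀ ℝ)

/-- the first nonzero coefficient is positive -/
def Pos1 (w : ℂ →₀ ℝ) : Prop := ∃ i, 0 < w i ∧ ∀ j, WellOrderingRel j i → w j = 0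

/-- lexicographic positivity -/
def Pos (v : V) : Prop := 0 < v.1 ∨ (v.1 = 0 ∧ Pos1 v.2)

/-- zero or positive -/
def NN (v : V) : Prop := v = 0 ∨ Pos v

lemma pos1_add {w w' : ℂ →₀ ℝ} (h : Pos1 w) (h' : Pos1 w') : Pos1 (w + w') := by
  obtain ⟨i, h1, h2⟩ := h
  obtain ⟨i', h1', h2'⟩ := h'
  rcases trichotomous_of WellOrderingRel i i' with h | rfl | h
  · refine ⟨i, by simp [h2' i h, h1], fun j hj => ?_⟩
    simp [h2 j hj, h2' j (_root_.trans hj h)]
  · refine ⟨i, by simpa using add_pos h1 h1', fun j hj => ?_⟩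
    simp [h2 j hj, h2' j hj]
  · refine ⟨i', by simp [h2 i' h, h1'], fun j hj => ?_⟩
    simp [h2' j hj, h2 j (_root_.trans hj h)]

lemma pos1_tri {w : ℂ →₀ ℝ} (h : w ≠ 0) : Pos1 w ∨ Pos1 (-w) := by
  have hne : {i | w i ≠ 0}.Nonempty := by
    by_contra hc
    refine h (Finsupp.ext fun i => ?_)
    by_contra hi
    exact hc ⟨i, hi⟩
  have wf : WellFounded (WellOrderingRel (α := ℂ)) := IsWellFounded.wf
  obtain ⟨i, hi, hmin⟩ := wf.has_min _ hne
  have h0 : ∀ j, WellOrderingRel j i → w j = 0 := fun j hj => by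
    by_contra hc
    exact hmin j hc hj
  rcases lt_or_gt_of_ne hi with h1 | h1
  · exact Or.inr ⟨i, by simpa using h1, fun j hj => by simp [h0 j hj]⟩
  · exact Or.inl ⟨i, h1, h0⟩

lemma pos_add {v v' : V} (h : Pos v) (h' : Pos v') : Pos (v + v') := by
  rcases h with h | ⟨h, h1⟩ <;> rcases h' with h' | ⟨h', h1'⟩
  · exact Or.inl (by simpa using add_pos h h')
  · exact Or.inl (by simpa [h'] using h)
  · exact Or.inl (by simpa [h] using h')
  · exact Or.inr ⟨by simp [h, h'], pos1_add h1 h1'⟩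

lemma pos_smul {t : ℝ} (ht : 0 < t) {v : V} (h : Pos v) : Pos (t • v) := by
  rcases h with h | ⟨h, i, h1, h2⟩
  · exact Or.inl (by simpa using mul_pos ht h)
  · refine Or.inr ⟨by simp [h], i, by simpa using mul_pos ht h1, fun j hj => ?_⟩
    simp [h2 j hj]

lemma not_pos_zero : ¬ Pos 0 := by
  rintro (h | ⟨-, i, h, -⟩) <;> simp at h

lemma pos_tri (v : V) : NN v ∨ Pos (-v) := by
  by_cases h0 : v = 0
  · exact Or.inl (Or.inl h0)
  rcases lt_trichotomy v.1 0 with h | h | h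
  · exact Or.inr (Or.inl (by simpa using h))
  · have h2 : v.2 ≠ 0 := fun hc => h0 (Prod.ext h hc)
    rcases pos1_tri h2 with h3 | h3
    · exact Or.inl (Or.inr (Or.inr ⟨h, h3⟩))
    · exact Or.inr (Or.inr ⟨by simp [h], h3⟩)
  · exact Or.inl (Or.inr (Or.inl h))

lemma Pos.lead {v : V} (h : Pos v) : 0 ≤ v.1 := by
  rcases h with h | ⟨h, -⟩
  · exact h.le
  · exact h.ge

lemma nn_add {v v' : V} (h : NN v) (h' : NN v') : NN (v + v') := by
  rcases h with rfl | h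
  · simpa using h'
  rcases h' with rfl | h'
  · rw [add_zero]; exact Or.inr h
  exact Or.inr (pos_add h h')

lemma nn_smul {t : ℝ} (ht : 0 ≤ t) {v : V} (h : NN v) : NN (t • v) := by
  rcases ht.eq_or_lt with rfl | ht
  · exact Or.inl (by simp)
  rcases h with rfl | h
  · exact Or.inl (by simp)
  exact Or.inr (pos_smul ht h)

lemma exists_min (g : ℂ → V) (s : Finset ℂ) (hs : s.Nonempty) :
    ∃ m ∈ s, ∀ p ∈ s, NN (g p - g m) := by
  classical
  induction hs using Finset.Nonempty.cons_induction with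
  | singleton a => exact ⟨a, by simp, by simp [NN]⟩
  | cons a s ha hs ih =>
    obtain ⟨m, hm, h⟩ := ih
    rcases pos_tri (g a - g m) with h1 | h1
    · refine ⟨m, by simp [hm], fun p hp => ?_⟩
      rcases Finset.mem_cons.1 hp with rfl | hp
      · exact h1
      · exact h p hp
    · refine ⟨a, by simp, fun p hp => ?_⟩
      rcases Finset.mem_cons.1 hp with rfl | hp
      · simp [NN]
      · have := nn_add (h p hp) (Or.inr h1)
        rwa [show g p - g m + -(g a - g m) = g p - g a by abel] at this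

/-- the perturbed lifting map -/
def L (p : ℂ) : V := (nsq p, Finsupp.single p 1)

/-- affine maps with values in `V` -/
def Aff (A : ℂ → V) : Prop := ∃ a0 a1 a2 : V, ∀ p : ℂ, A p = a0 + p.re • a1 + p.im • a2

/-- height of the lift of `p` above the plane through the lifts of `x y z`, times `cross` -/
def gap (x y z p : ℂ) : V :=
  cross x y z • L p - (cross p y z • L x + cross x p z • L y + cross x y p • L z)

/-- the triangles -/
def Tri (P : Set ℂ) (x y z : ℂ) : Prop :=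
  x ∈ P ∧ y ∈ P ∧ z ∈ P ∧ 0 < cross x y z ∧
    ∀ p ∈ P, p ≠ x → p ≠ y → p ≠ z → Pos (gap x y z p)

lemma gap_rot (x y z p : ℂ) : gap y z x p = gap x y z p := by
  unfold gap cross
  module

lemma gap_swap (x y z z' : ℂ) : gap x y z z' + gap x y z' z = 0 := by
  unfold gap cross
  module

lemma gap_lead {x y z o : ℂ} (h1 : nsq (y - o) = nsq (x - o)) (h2 : nsq (z - o) = nsq (x - o))
    (p : ℂ) : (gap x y z p).1 = cross x y z * (nsq (p - o) - nsq (x - o)) := by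
  simp only [gap, L, Prod.fst_sub, Prod.fst_add, Prod.smul_fst, smul_eq_mul]
  simp only [nsq_sub] at h1 h2 ⊢
  unfold nsq cross
  linear_combination (-((p.re - x.re) * (z.im - x.im) - (p.im - x.im) * (z.re - x.re))) * h1 -
    ((y.re - x.re) * (p.im - x.im) - (y.im - x.im) * (p.re - x.re)) * h2

lemma gap_ne {x y z p : ℂ} (hc : 0 < cross x y z) (h1 : p ≠ x) (h2 : p ≠ y) (h3 : p ≠ z) :
    gap x y z p ≠ 0 := by
  intro h
  have := congrArg (fun v : V => v.2 p) h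
  simp [gap, L, h1, h2, h3] at this
  exact hc.ne' this

lemma gap_aff {A : ℂ → V} (hA : Aff A) {x y z : ℂ} (hx : A x = L x) (hy : A y = L y)
    (hz : A z = L z) (p : ℂ) : gap x y z p = cross x y z • (L p - A p) := by
  obtain ⟨a0, a1, a2, h⟩ := hA
  unfold gap
  rw [← hx, ← hy, ← hz, h x, h y, h z, h p]
  unfold cross
  module

lemma tri_of_aff {P : Set ℂ} {A : ℂ → V} (hA : Aff A) (hN : ∀ p ∈ P, NN (L p - A p))
    {x y z : ℂ} (hxP : x ∈ P) (hyP : y ∈ P) (hzP : z ∈ P) (hc : 0 < cross x y z)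
    (hx : A x = L x) (hy : A y = L y) (hz : A z = L z) : Tri P x y z := by
  refine ⟨hxP, hyP, hzP, hc, fun p hp h1 h2 h3 => ?_⟩
  have h4 : NN (gap x y z p) := by
    rw [gap_aff hA hx hy hz]; exact nn_smul hc.le (hN p hp)
  exact h4.resolve_left (gap_ne hc h1 h2 h3)

lemma circum {x y z : ℂ} (hc : 0 < cross x y z) :
    ∃ o : ℂ, nsq (y - o) = nsq (x - o) ∧ nsq (z - o) = nsq (x - o) := by
  have h := hc.ne'
  refine ⟨⟨x.re + (nsq (y - x) * (z.im - x.im) - nsq (z - x) * (y.im - x.im)) / (2 * cross x y z),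
    x.im + (nsq (z - x) * (y.re - x.re) - nsq (y - x) * (z.re - x.re)) / (2 * cross x y z)⟩,
    ?_, ?_⟩
  · simp only [nsq_sub]
    field_simp
    unfold cross
    ring
  · simp only [nsq_sub]
    field_simp
    unfold cross
    ring

lemma finite_disc {P : Set ℂ} (hsep : ∀ x ∈ P, ∀ y ∈ P, x ≠ y → 4 ≤ nsq (x - y))
    (K0 K1 K2 : ℝ) : {p | p ∈ P ∧ nsq p ≤ K0 + K1 * p.re + K2 * p.im}.Finite := by
  set R : ℝ := |K0| + K1 ^ 2 + K2 ^ 2 + 1 with hR
  have hfin : (Set.Icc ⌊-2 * R⌋ ⌊2 * R⌋ ×ˢ Set.Icc ⌊-2 * R⌋ ⌊2 * R⌋ : Set (ℤ × ℤ)).Finite :=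
    (Set.finite_Icc _ _).prod (Set.finite_Icc _ _)
  refine Set.Finite.of_injOn (f := fun p : ℂ => (⌊p.re⌋, ⌊p.im⌋)) ?_ ?_ hfin
  · rintro p ⟨-, hp⟩
    unfold nsq at hp
    have h0 := le_abs_self K0
    have h0' := abs_nonneg K0
    have h1 : p.re ^ 2 + p.im ^ 2 ≤ 2 * R := by
      nlinarith [sq_nonneg (p.re - K1), sq_nonneg (p.im - K2), sq_nonneg K1, sq_nonneg K2]
    have hR1 : 1 ≤ R := by nlinarith [sq_nonneg K1, sq_nonneg K2]
    refine ⟨⟨Int.floor_le_floor ?_, Int.floor_le_floor ?_⟩, Int.floor_le_floor ?_,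
      Int.floor_le_floor ?_⟩
    · show -2 * R ≤ p.re
      nlinarith [sq_nonneg (p.re + 1), sq_nonneg p.im]
    · show p.re ≤ 2 * R
      nlinarith [sq_nonneg (p.re - 1), sq_nonneg p.im]
    · show -2 * R ≤ p.im
      nlinarith [sq_nonneg (p.im + 1), sq_nonneg p.re]
    · show p.im ≤ 2 * R
      nlinarith [sq_nonneg (p.im - 1), sq_nonneg p.re]
  · rintro p ⟨hp, -⟩ q ⟨hq, -⟩ h
    by_contra hne
    have h1 := hsep p hp q hq hne
    simp only [Prod.mk.injEq] at h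
    have a1 := Int.abs_sub_lt_one_of_floor_eq_floor h.1
    have a2 := Int.abs_sub_lt_one_of_floor_eq_floor h.2
    rw [nsq_sub] at h1
    rw [abs_lt] at a1 a2
    nlinarith

/-- Rotating a supporting plane until it meets a new point. -/
lemma pivot {P : Set ℂ} (hsep : ∀ x ∈ P, ∀ y ∈ P, x ≠ y → 4 ≤ nsq (x - y))
    (hsat : ∀ z : ℂ, ∃ p ∈ P, nsq (p - z) < 4) {A : ℂ → V} (hA : Aff A)
    (hN : ∀ p ∈ P, NN (L p - A p)) (φ : ℂ → ℝ) (c0 c1 c2 : ℝ)
    (hφ : ∀ p, φ p = c0 + c1 * p.re + c2 * p.im) (hc : 0 < c1 ^ 2 + c2 ^ 2) :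
    ∃ w ∈ P, 0 < φ w ∧ ∃ A' : ℂ → V, Aff A' ∧ (∀ p ∈ P, NN (L p - A' p)) ∧ A' w = L w ∧
      ∀ q, φ q = 0 → A' q = A q := by
  obtain ⟨a0, a1, a2, hA⟩ := hA
  obtain ⟨p0, hp0, h0⟩ : ∃ p ∈ P, 0 < φ p := by
    set s : ℝ := ((c1 ^ 2 + c2 ^ 2) / 2 + 2 - c0) / (c1 ^ 2 + c2 ^ 2) with hs
    have hs' : s * (c1 ^ 2 + c2 ^ 2) = (c1 ^ 2 + c2 ^ 2) / 2 + 2 - c0 := by
      rw [hs]; field_simp
    obtain ⟨p, hp, h⟩ := hsat ⟨s * c1, s * c2⟩
    refine ⟨p, hp, ?_⟩
    rw [nsq_sub] at h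
    simp only at h
    rw [hφ]
    nlinarith [sq_nonneg (p.re - s * c1 + c1), sq_nonneg (p.im - s * c2 + c2)]
  let t : ℂ → V := fun p => (φ p)⁻¹ • (L p - A p)
  let τ : ℝ := (t p0).1
  have hfin : {p | p ∈ P ∧ 0 < φ p ∧ (t p).1 ≤ τ}.Finite := by
    refine (finite_disc hsep (a0.1 + τ * c0) (a1.1 + τ * c1) (a2.1 + τ * c2)).subset ?_
    rintro p ⟨hp, h1, h2⟩
    refine ⟨hp, ?_⟩
    have h3 : (t p).1 = (φ p)⁻¹ * (nsq p - (a0.1 + p.re * a1.1 + p.im * a2.1)) := by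
      simp [t, hA, L]
    rw [h3, inv_mul_le_iff₀ h1, hφ] at h2
    nlinarith
  obtain ⟨w, hw, hmin⟩ := exists_min t hfin.toFinset ⟨p0, by simp [hp0, h0, τ]⟩
  simp only [Set.Finite.mem_toFinset, Set.mem_setOf_eq] at hw hmin
  obtain ⟨hwP, hw0, hwτ⟩ := hw
  refine ⟨w, hwP, hw0, fun p => A p + φ p • t w, ⟨a0 + c0 • t w, a1 + c1 • t w, a2 + c2 • t w,
    fun p => ?_⟩, fun p hp => ?_, ?_, fun q hq => by simp [hq]⟩
  · simp only [hA, hφ]
    module
  · by_cases h1 : 0 < φ p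
    · have h2 : NN (t p - t w) := by
        by_cases h3 : (t p).1 ≤ τ
        · exact hmin p ⟨hp, h1, h3⟩
        · refine Or.inr (Or.inl ?_)
          rw [Prod.fst_sub]
          linarith [not_le.1 h3]
      have h3 : L p - (A p + φ p • t w) = φ p • (t p - t w) := by
        simp only [t, smul_sub, smul_smul, mul_inv_cancel₀ h1.ne', one_smul]
        abel
      rw [h3]
      exact nn_smul h1.le h2
    · have h2 : NN (t w) := nn_smul (inv_pos.2 hw0).le (hN w hwP)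
      have h3 : L p - (A p + φ p • t w) = (L p - A p) + (-φ p) • t w := by module
      rw [h3]
      exact nn_add (hN p hp) (nn_smul (by linarith [not_lt.1 h1]) h2)
  · simp only [t, smul_smul, mul_inv_cancel₀ hw0.ne', one_smul]
    abel

lemma ne_sq {x y : ℂ} (h : x ≠ y) : 0 < (x.im - y.im) ^ 2 + (y.re - x.re) ^ 2 := by
  by_contra hc
  have h1 : x.im - y.im = 0 := by nlinarith [sq_nonneg (x.im - y.im), sq_nonneg (y.re - x.re)]
  have h2 : y.re - x.re = 0 := by nlinarith [sq_nonneg (x.im - y.im), sq_nonneg (y.re - x.re)]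
  exact h (Complex.ext (by linarith) (by linarith))

/-- Completing a supported edge to a triangle on its left. -/
lemma edge {P : Set ℂ} (hsep : ∀ x ∈ P, ∀ y ∈ P, x ≠ y → 4 ≤ nsq (x - y))
    (hsat : ∀ z : ℂ, ∃ p ∈ P, nsq (p - z) < 4) {A : ℂ → V} (hA : Aff A)
    (hN : ∀ p ∈ P, NN (L p - A p)) {x y : ℂ} (hx : x ∈ P) (hy : y ∈ P) (hne : x ≠ y)
    (h1 : A x = L x) (h2 : A y = L y) : ∃ z, Tri P x y z := by
  obtain ⟨z, hz, h3, A', hA', hN', h4, h5⟩ := pivot hsep hsat hA hN (cross x y)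
    ((y.im - x.im) * x.re - (y.re - x.re) * x.im) (x.im - y.im) (y.re - x.re)
    (fun p => by unfold cross; ring) (ne_sq hne)
  refine ⟨z, tri_of_aff hA' hN' hx hy hz h3 ?_ ?_ h4⟩
  · rw [h5 x (by unfold cross; ring), h1]
  · rw [h5 y (by unfold cross; ring), h2]

lemma rev {P : Set ℂ} (hsep : ∀ x ∈ P, ∀ y ∈ P, x ≠ y → 4 ≤ nsq (x - y))
    (hsat : ∀ z : ℂ, ∃ p ∈ P, nsq (p - z) < 4) {x y z : ℂ} (h : Tri P x y z) :
    ∃ w, Tri P y x w := by
  obtain ⟨hx, hy, hz, hc, hg⟩ := h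
  let A : ℂ → V := fun p =>
    (cross x y z)⁻¹ • (cross p y z • L x + cross x p z • L y + cross x y p • L z)
  have hA : Aff A := by
    refine ⟨A 0, A 1 - A 0, A Complex.I - A 0, fun p => ?_⟩
    simp only [A]
    generalize (cross x y z)⁻¹ = k
    simp only [cross, Complex.zero_re, Complex.zero_im, Complex.one_re, Complex.one_im,
      Complex.I_re, Complex.I_im]
    module
  have key : ∀ p, L p - A p = (cross x y z)⁻¹ • gap x y z p := fun p => by
    simp only [A, gap, smul_sub, smul_smul, inv_mul_cancel₀ hc.ne', one_smul]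
  have gx : gap x y z x = 0 := by unfold gap cross; module
  have gy : gap x y z y = 0 := by unfold gap cross; module
  have gz : gap x y z z = 0 := by unfold gap cross; module
  refine edge hsep hsat hA (fun p hp => ?_) hy hx (ne_of_cross hc).1.symm ?_ ?_
  · rw [key]
    refine nn_smul (inv_pos.2 hc).le ?_
    by_cases h1 : p = x
    · exact Or.inl (h1 ▸ gx)
    by_cases h2 : p = y
    · exact Or.inl (h2 ▸ gy)
    by_cases h3 : p = z
    · exact Or.inl (h3 ▸ gz)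
    exact Or.inr (hg p hp h1 h2 h3)
  · exact (sub_eq_zero.1 (by rw [key, gy, smul_zero])).symm
  · exact (sub_eq_zero.1 (by rw [key, gx, smul_zero])).symm

lemma vert {P : Set ℂ} (hsep : ∀ x ∈ P, ∀ y ∈ P, x ≠ y → 4 ≤ nsq (x - y))
    (hsat : ∀ z : ℂ, ∃ p ∈ P, nsq (p - z) < 4) {x : ℂ} (hx : x ∈ P) : ∃ y z, Tri P x y z := by
  let e : V := (1, 0)
  let A : ℂ → V := fun p => L x + (2 * x.re * (p.re - x.re) + 2 * x.im * (p.im - x.im)) • e
  have hA : Aff A :=
    ⟨L x - (2 * x.re * x.re + 2 * x.im * x.im) • e, (2 * x.re) • e, (2 * x.im) • e, fun p => by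
      simp only [A]; module⟩
  have hN : ∀ p ∈ P, NN (L p - A p) := by
    intro p hp
    by_cases h : p = x
    · subst h; exact Or.inl (by simp [A])
    · refine Or.inr (Or.inl ?_)
      have h1 := hsep p hp x hx h
      rw [nsq_sub] at h1
      simp only [A, e, L, Prod.fst_sub, Prod.fst_add, Prod.smul_fst, smul_eq_mul, nsq]
      nlinarith
  obtain ⟨y, hy, h1, A', hA', hN', h2, h3⟩ := pivot hsep hsat hA hN (fun p => p.re - x.re)
    (-x.re) 1 0 (fun p => by ring) (by norm_num)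
  have hne : x ≠ y := by rintro rfl; simp at h1
  obtain ⟨z, hz⟩ := edge hsep hsat hA' hN' hx hy hne (by rw [h3 x (by simp)]; simp [A]) h2
  exact ⟨y, z, hz⟩

lemma circ {P : Set ℂ} (hsat : ∀ z : ℂ, ∃ p ∈ P, nsq (p - z) < 4) {x y z : ℂ}
    (h : Tri P x y z) : ∃ o : ℂ, nsq (y - o) = nsq (x - o) ∧ nsq (z - o) = nsq (x - o) ∧
      nsq (x - o) < 4 ∧ ∀ p ∈ P, nsq (x - o) ≤ nsq (p - o) := by
  obtain ⟨-, -, -, hc, hg⟩ := h
  obtain ⟨o, h1, h2⟩ := circum hc
  have key : ∀ p ∈ P, nsq (x - o) ≤ nsq (p - o) := by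
    intro p hp
    by_cases e1 : p = x
    · rw [e1]
    by_cases e2 : p = y
    · rw [e2, h1]
    by_cases e3 : p = z
    · rw [e3, h2]
    have h3 := (hg p hp e1 e2 e3).lead
    rw [gap_lead h1 h2] at h3
    linarith [(mul_nonneg_iff_of_pos_left hc).1 h3]
  obtain ⟨p, hp, h4⟩ := hsat o
  exact ⟨o, h1, h2, lt_of_le_of_lt (key p hp) h4, key⟩

lemma equi {P : Set ℂ} (hsep : ∀ x ∈ P, ∀ y ∈ P, x ≠ y → 4 ≤ nsq (x - y)) {x y z : ℂ}
    (hx : x ∈ P) (hy : y ∈ P) (hz : z ∈ P) (h1 : nsq (x - y) = 4) (h2 : nsq (y - z) = 4)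
    (h3 : nsq (z - x) = 4) (hc : 0 < cross x y z) : Tri P x y z := by
  refine ⟨hx, hy, hz, hc, fun p hp e1 e2 e3 => Or.inl ?_⟩
  have a1 := hsep p hp x hx e1
  have a2 := hsep p hp y hy e2
  have a3 := hsep p hp z hz e3
  let o : ℂ := ⟨(x.re + y.re + z.re) / 3, (x.im + y.im + z.im) / 3⟩
  simp only [nsq_sub] at h1 h2 h3 a1 a2 a3
  have ox : nsq (x - o) = 4 / 3 := by
    simp only [nsq_sub, o]; linear_combination (2 / 9) * h1 - (1 / 9) * h2 + (2 / 9) * h3
  have oy : nsq (y - o) = 4 / 3 := by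
    simp only [nsq_sub, o]; linear_combination (2 / 9) * h1 + (2 / 9) * h2 - (1 / 9) * h3
  have oz : nsq (z - o) = 4 / 3 := by
    simp only [nsq_sub, o]; linear_combination -(1 / 9) * h1 + (2 / 9) * h2 + (2 / 9) * h3
  rw [gap_lead (oy.trans ox.symm) (oz.trans ox.symm), ox]
  refine mul_pos hc ?_
  have : 3 * nsq (p - o) + 4 = ((p.re - x.re) ^ 2 + (p.im - x.im) ^ 2) +
      ((p.re - y.re) ^ 2 + (p.im - y.im) ^ 2) + ((p.re - z.re) ^ 2 + (p.im - z.im) ^ 2) := by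
    simp only [nsq_sub, o]; linear_combination -(1 / 3) * (h1 + h2 + h3)
  linarith

end ExDT

open ExDT in
theorem exDT : S_exDT := by
  intro P hsep hsat
  refine ⟨⟨P, Tri P, hsep, fun h => ⟨h.1, h.2.1, h.2.2.1⟩, ?_, fun h => h.2.2.2.1, circ hsat, ?_,
    rev hsep hsat, fun x hx => vert hsep hsat hx,
    fun x hx y hy z hz => equi hsep hx hy hz⟩, rfl⟩
  · rintro x y z ⟨hx, hy, hz, hc, hg⟩
    refine ⟨hy, hz, hx, by rwa [cross_rot], fun p hp h1 h2 h3 => ?_⟩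
    rw [gap_rot]
    exact hg p hp h3 h1 h2
  · rintro x y z z' ⟨-, -, hz, hc, hg⟩ ⟨-, -, hz', hc', hg'⟩
    by_contra hne
    have h1 := hg z' hz' (ne_of_cross hc').2.2.symm (ne_of_cross hc').2.1.symm (Ne.symm hne)
    have h2 := hg' z hz (ne_of_cross hc).2.2.symm (ne_of_cross hc).2.1.symm hne
    have h3 := pos_add h1 h2
    rw [gap_swap] at h3
    exact not_pos_zero h3

end

end Pool.Agent.P.MP_dd077d_co
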