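import Pool.Agent.P.MP_dd077d_co.Iface3

/-! Two walls at distance two with little budget left: the middle row is complete. -/

namespace Pool.Agent.P.MP_dd077d_co

open Classical

namespace F0

variable {T : DT0} {a b : ℤ}

lemma castb (hab : a + b = 2) : (b : ℝ) = 2 - a := by
  have := congrArg (fun t : ℤ => (t : ℝ)) hab
  push_cast at this
  linarith

lemma sepL (hw : S_wb) (W : Wall T a) (W' : Wall T.neg b) (hab : a + b = 2) {z : ℂ}
    (h : z ∈ W.L) (h' : -z ∈ W'.L) : False := by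
  have h1 := ((hw T a W).1 z h).2
  have h2 := ((hw T.neg b W').1 _ h').2
  rw [castb hab, Complex.neg_im] at h2
  have := s3_lb
  nlinarith

lemma budT (hw : S_wb) (hn : S_neg) (W : Wall T a) (W' : Wall T.neg b) (hab : a + b = 2)
    (hB : T.Budget) (hA : 2 * s3 - 0.3 ≤ W.U.A + W'.U.A) : W.Bud 0.3 ∧ W'.Bud 0.3 := by
  obtain ⟨F, hF, hFs⟩ := W.bud
  obtain ⟨F', hF', hFs'⟩ := W'.bud
  obtain ⟨-, -, w3, w4, -, w6, -⟩ := hw T a W
  obtain ⟨-, -, w3', w4', -, w6', -⟩ := hw T.neg b W'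
  have e1 : W.U.A = (W.row a).A := rfl
  have e2 : W'.U.A = (W'.row b).A := rfl
  constructor
  · intro G hG
    have hd : Disjoint F G := Finset.disjoint_left.2 fun s h1 h2 => by
      obtain ⟨x, hx, hx'⟩ := (hF s h1).2
      exact (hG s h2).2.2 x hx hx'
    have := (hn T).2.1 hB (F ∪ G) F'
      (fun s hs => (Finset.mem_union.1 hs).elim (fun h => (hF s h).1) fun h => (hG s h).1)
      (fun s hs => (hF' s hs).1) (fun s hs hs' => by
        have hall := w6' _ (hF' _ hs').1 (hF' _ hs').2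
        obtain ⟨x, hx, hxL⟩ : ∃ x ∈ s, x ∈ W.L := by
          rcases Finset.mem_union.1 hs with h | h
          · obtain ⟨x, hx, hx'⟩ := (hF s h).2
            exact ⟨x, hx, w4 hx'⟩
          · obtain ⟨i, hi⟩ := (hG s h).2.1
            exact ⟨_, hi, (w3 i).1⟩
        exact sepL hw W W' hab hxL (hall _ (Finset.mem_image_of_mem _ hx)))
    rw [Finset.sum_union hd] at this
    linarith
  · intro G hG
    have hd : Disjoint F' G := Finset.disjoint_left.2 fun s h1 h2 => by
      obtain ⟨x, hx, hx'⟩ := (hF' s h1).2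
      exact (hG s h2).2.2 x hx hx'
    have := (hn T).2.1 hB F (F' ∪ G) (fun s hs => (hF s hs).1)
      (fun s hs => (Finset.mem_union.1 hs).elim (fun h => (hF' s h).1) fun h => (hG s h).1)
      (fun s hs hs' => by
        have hall := w6 _ (hF _ hs).1 (hF _ hs).2
        obtain ⟨y, hy, hyL⟩ : ∃ y ∈ s.image (fun z => -z), y ∈ W'.L := by
          rcases Finset.mem_union.1 hs' with h | h
          · obtain ⟨x, hx, hx'⟩ := (hF' _ h).2
            exact ⟨x, hx, w4' hx'⟩
          · obtain ⟨i, hi⟩ := (hG _ h).2.1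
            exact ⟨_, hi, (w3' i).1⟩
        obtain ⟨x, hx, rfl⟩ := Finset.mem_image.1 hy
        exact sepL hw W W' hab (hall x hx) hyL)
    rw [Finset.sum_union hd] at this
    linarith

lemma altW {W : Wall T a} (st : Strip W) (h : st.Alt) (j : ℤ) :
    T.Tri (W.v j) (W.v (j - 1)) (st.c j) := by
  have e1 : st.I (2 * j - 1) = j - 1 := by rw [h.2]; omega
  have e2 : st.I (2 * j - 1 + 1) = j := by rw [h.2]; omega
  rcases st.step (2 * j - 1) with ⟨-, t⟩ | ⟨e, -⟩
  · rwa [e1, show j - 1 + 1 = j by ring, show 2 * j - 1 - (j - 1) = j by ring] at t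
  · omega

lemma altC {W : Wall T a} (st : Strip W) (h : st.Alt) (j : ℤ) :
    T.Tri (W.v j) (st.c j) (st.c (j + 1)) := by
  have e1 : st.I (2 * j) = j := by rw [h.2]; omega
  have e2 : st.I (2 * j + 1) = j := by rw [h.2]; omega
  rcases st.step (2 * j) with ⟨e, -⟩ | ⟨-, t⟩
  · omega
  · rwa [e1, show 2 * j - j = j by ring] at t

lemma triNeg {x y z : ℂ} (h : T.Tri x y z) : T.neg.Tri (-x) (-y) (-z) := by
  show T.Tri (- -x) (- -y) (- -z)
  simpa using h

lemma succL (hw : S_wb) {W : Wall T a} {W' : Wall T.neg b} (hab : a + b = 2) (st : Strip W)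
    (st' : Strip W') (h : st.Alt) (h' : st'.Alt) (j : ℤ) (hj : -st.c j ∈ W'.L) :
    -st.c (j + 1) ∈ W'.L := by
  obtain ⟨-, -, w3, -⟩ := hw T a W
  obtain ⟨-, -, w3', -, w5', -⟩ := hw T.neg b W'
  have t1 := T.neg.rot (T.neg.rot (triNeg (altW st h j)))
  have nv : ∀ i, -W.v i ∉ W'.L := fun i hi => sepL hw W W' hab (w3 i).1 hi
  rcases w5' _ hj with hL | ⟨i, hi⟩
  · exact absurd (W'.clo _ _ _ t1 hL).1 (nv j)
  rw [hi] at t1
  obtain ⟨k, hk, hc⟩ := st'.complete i _ _ t1 (nv j)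
  have hk2 := h'.2 k
  rcases (by omega : k - st'.I k = i ∨ k - st'.I k = i + 1) with e | e
  · rw [e] at hc
    have t2 := T.neg.rot (T.neg.rot (altW st' h' i))
    rw [← hc, ← hi] at t2
    rw [T.neg.uniq (triNeg (altC st h j)) t2]
    exact (w3' _).1
  · rw [e] at hc
    have t2 := T.neg.rot (altW st' h' (i + 1))
    rw [show i + 1 - 1 = i by ring, ← hc] at t2
    exact absurd ((T.neg.uniq t1 t2) ▸ (w3' (i + 1)).1) (nv (j - 1))

lemma stepLe {κ : ℤ → ℤ} (h : ∀ j, κ j < κ (j + 1)) (j : ℤ) (m : ℕ) : κ j + m ≤ κ (j + m) := by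
  induction m with
  | zero => simp
  | succ m ih =>
    have := h (j + m)
    push_cast
    rw [← add_assoc j]
    omega

end F0

open F0 in
theorem f0 (hg : S_g) (hi : S_inv) (h1 : S_nm) (h2 : S_orb) (h4 : S_sa) (h5 : S_alt) (h7 : S_row)
    (hw : S_wb) (hn : S_neg) (hm : S_mid) : S_f0 := by
  intro T a b W W' N hF hN hB hab hA
  obtain ⟨b1, b2⟩ := budT hw hn W W' hab hB hA
  have up : ∀ {T : DT0} {a : ℤ} (W : Wall T a), W.Bud 0.3 → W.Bud (1 / 2) :=
    fun W h G hG => (h G hG).trans (by norm_num)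
  obtain ⟨n1, m1⟩ := h1 T a W (Or.inl (up W b1))
  obtain ⟨n2, m2⟩ := h1 T.neg b W' (Or.inl (up W' b2))
  obtain ⟨st⟩ := h2 T a W N hF n1 m1
  obtain ⟨st'⟩ := h2 T.neg b W' N ((hn T).1 N hF) n2 m2
  have al := h5 T a W st 0.3 n1 b1 (by norm_num) (Or.inl le_rfl)
  have al' := h5 T.neg b W' st' 0.3 n2 b2 (by norm_num) (Or.inl le_rfl)
  have mid : ∀ j, Mid W W' (st.c j) := fun j => by
    refine ⟨(st.cmem j).1, (st.cmem j).2, fun hj => ?_⟩
    have all : ∀ n : ℕ, -st.c (j + n) ∈ W'.L := fun n => by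
      induction n with
      | zero => simpa using hj
      | succ n ih =>
        have := succL hw hab st st' al al' _ ih
        push_cast
        rwa [← add_assoc j]
    have h3 := ((hw T.neg b W').1 _ (all (st.M - j).toNat)).2
    rw [(st.right _ (by omega)).2, castb hab, Complex.neg_im, site_im] at h3
    push_cast at h3
    have := s3_lb
    nlinarith
  obtain ⟨C, hC, hD⟩ := h4 T a W st n1
  obtain ⟨R, -, -, hR, -⟩ := h7 T a W st C n1 hC hD al.1
  choose κ hκ using fun j => (hm T a b W W' hN hab).1 _ (mid j)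
  have e1 : W.U.eta ≤ 0.205 := (hi _ (W.inv a le_rfl).1).1
  have e2 : W'.U.eta ≤ 0.205 := (hi _ (W'.inv b le_rfl).1).1
  have dp : ∀ j, |W.dep (st.c j)| ≤ 0.205 := fun j => by
    obtain ⟨k1, k2, k3⟩ := hκ j
    have := hg.2.2.2.2.2.2.2.2.2.2.2.2.2 _ (abs_nonneg _) (k1.trans (by norm_num))
    have h0 := abs_nonneg ((st.c j).re - (2 * (κ j : ℝ) + ((a : ℝ) - 1)))
    exact abs_le.2 ⟨by linarith, by linarith⟩
  have mono : ∀ j, κ j < κ (j + 1) := fun j => by
    by_contra hc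
    have hm1 := st.mono j
    have k1 := abs_le.1 (hκ j).1
    have k2 := abs_le.1 (hκ (j + 1)).1
    rcases (by omega : κ (j + 1) = κ j ∨ κ (j + 1) + 1 ≤ κ j) with e | e
    · have hs := T.sep _ (st.cmem j).1 _ (st.cmem (j + 1)).1 (fun h => by rw [h] at hm1; exact lt_irrefl _ hm1)
      have d1 := abs_le.1 (dp j)
      have d2 := abs_le.1 (dp (j + 1))
      unfold Wall.dep at d1 d2
      rw [e] at k2
      rw [nsq_sub] at hs
      have p1 : ((st.c j).re - (st.c (j + 1)).re) ^ 2 ≤ 1.02 ^ 2 :=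
        sq_le_sq' (by linarith [k1.1, k2.2]) (by linarith [k1.2, k2.1])
      have p2 : ((st.c j).im - (st.c (j + 1)).im) ^ 2 ≤ 0.41 ^ 2 :=
        sq_le_sq' (by linarith [d1.2, d2.1]) (by linarith [d1.1, d2.2])
      norm_num at p1 p2
      linarith
    · have : (κ (j + 1) : ℝ) + 1 ≤ κ j := by exact_mod_cast e
      linarith [k1.1, k2.2]
  have fix : ∀ j, st.c j = site (a - 1) j → κ j = j := fun j hj => by
    have k1 := abs_le.1 (hκ j).1
    rw [hj, site_re] at k1
    push_cast at k1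
    have l1 : (κ j : ℝ) < j + 1 := by linarith [k1.1]
    have l2 : (j : ℝ) < κ j + 1 := by linarith [k1.2]
    have l1' : κ j < j + 1 := by exact_mod_cast l1
    have l2' : j < κ j + 1 := by exact_mod_cast l2
    omega
  have idk : ∀ j, κ j = j := fun j => by
    have n1 := fix (j - (st.M + j.natAbs : ℕ)) (st.left _ (by omega)).2
    have n2 := fix (j + (st.M + j.natAbs : ℕ)) (by rw [(st.right _ (by omega)).2, al.1, add_zero])
    have s1 := stepLe mono (j - (st.M + j.natAbs : ℕ)) (st.M + j.natAbs)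
    have s2 := stepLe mono j (st.M + j.natAbs)
    rw [sub_add_cancel] at s1
    omega
  refine ⟨R, fun j => ⟨hR j ▸ mid j, ?_⟩⟩
  have k1 := (hκ j).1
  rw [idk j, hR j] at k1
  have : (pt R (a - 1) j).re - (2 * (j : ℝ) + ((a : ℝ) - 1)) = R.φ j := by
    simp only [pt]
    push_cast
    ring
  rwa [this] at k1

end Pool.Agent.P.MP_dd077d_co
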