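import Pool.Agent.P.MP_dd077d_co.Defs

/-!
A Delaunay triangle at a far lattice point is one of the six lattice triangles.
-/

namespace Pool.Agent.P.MP_dd077d_co

namespace Far

lemma not_inBox_near {N : ℝ} {x w : ℂ} (hx : ¬ inBox (N + 5) x) (hw : nsq (w - x) < 16) :
    ¬ inBox N w := by
  intro h
  apply hx
  obtain ⟨h1, h2⟩ := h
  rw [nsq_sub] at hw
  have hs := s3_lb
  have hp := s3_pos
  have hre : |w.re - x.re| < 4 := by
    apply abs_lt_of_sq_lt_sq' _ (by norm_num) |> fun h => abs_lt.2 h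
    nlinarith [sq_nonneg (w.im - x.im)]
  have him : |w.im - x.im| < 4 := by
    apply abs_lt_of_sq_lt_sq' _ (by norm_num) |> fun h => abs_lt.2 h
    nlinarith [sq_nonneg (w.re - x.re)]
  have hd : |(w.im - x.im) / s3| < 3 := by
    rw [abs_div, abs_of_pos hp, div_lt_iff₀ hp]
    linarith
  have e1 : x.im / s3 = w.im / s3 - (w.im - x.im) / s3 := by ring
  rw [abs_lt] at hre hd
  rw [abs_le] at h1 h2
  constructor
  · rw [e1, abs_le]
    constructor <;> linarith [hd.1, hd.2, h1.1, h1.2]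
  · rw [e1, abs_le]
    constructor <;> linarith [hd.1, hd.2, h2.1, h2.2, hre.1, hre.2]

lemma nsq_site (r j r' j' : ℤ) : nsq (site r j - site r' j') =
    4 * (((r - r') ^ 2 + (r - r') * (j - j') + (j - j') ^ 2 : ℤ) : ℝ) := by
  rw [nsq_sub]
  simp only [site_re, site_im]
  push_cast
  have h := s3_sq
  have : (s3 * (r : ℝ) - s3 * r') ^ 2 = 3 * ((r : ℝ) - r') ^ 2 := by
    rw [← h]; ring
  rw [this]; ring

lemma cross_site (r j r1 j1 r2 j2 : ℤ) : cross (site r j) (site r1 j1) (site r2 j2) =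
    2 * s3 * (((j1 - j) * (r2 - r) - (r1 - r) * (j2 - j) : ℤ) : ℝ) := by
  unfold cross
  simp only [site_re, site_im]
  push_cast
  ring

lemma site_mem (T : DT0) {N : ℝ} (hF : FarLat T.pts N) {r j : ℤ}
    (hx : ¬ inBox (N + 5) (site r j)) (r' j' : ℤ)
    (h : (r' - r) ^ 2 + (r' - r) * (j' - j) + (j' - j) ^ 2 ≤ 3) : site r' j' ∈ T.pts := by
  have h1 : ¬ inBox N (site r' j') := by
    apply not_inBox_near hx
    rw [nsq_site]
    have : (((r' - r) ^ 2 + (r' - r) * (j' - j) + (j' - j) ^ 2 : ℤ) : ℝ) ≤ 3 := by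
      exact_mod_cast h
    linarith
  exact (hF _ h1).2 ⟨r', j', rfl⟩

/-- the lattice triangle on a unit edge -/
lemma tri_of (T : DT0) {N : ℝ} (hF : FarLat T.pts N) {r j : ℤ}
    (hx : ¬ inBox (N + 5) (site r j)) (r1 j1 r2 j2 : ℤ)
    (h1 : (r1 - r) ^ 2 + (r1 - r) * (j1 - j) + (j1 - j) ^ 2 = 1)
    (h2 : (r2 - r) ^ 2 + (r2 - r) * (j2 - j) + (j2 - j) ^ 2 = 1)
    (h3 : (r1 - r2) ^ 2 + (r1 - r2) * (j1 - j2) + (j1 - j2) ^ 2 = 1)
    (h4 : (j1 - j) * (r2 - r) - (r1 - r) * (j2 - j) = 1) :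
    T.Tri (site r j) (site r1 j1) (site r2 j2) := by
  apply T.equi
  · exact site_mem T hF hx r j (by simp)
  · exact site_mem T hF hx r1 j1 (by omega)
  · exact site_mem T hF hx r2 j2 (by omega)
  · rw [nsq_comm, nsq_site, h1]; norm_num
  · rw [nsq_site, h3]; norm_num
  · rw [nsq_site, h2]; norm_num
  · rw [cross_site, h4]
    have := s3_pos
    push_cast
    linarith

/-- a long lattice diagonal is not an edge -/
lemma not_long (T : DT0) {N : ℝ} (hF : FarLat T.pts N) {r j : ℤ}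
    (hx : ¬ inBox (N + 5) (site r j)) (r0 j0 r1 j1 r2 j2 : ℤ) {z : ℂ}
    (hT : T.Tri (site r j) (site r0 j0) z)
    (h0 : (r0 - r) ^ 2 + (r0 - r) * (j0 - j) + (j0 - j) ^ 2 = 3)
    (h1 : (r1 - r) ^ 2 + (r1 - r) * (j1 - j) + (j1 - j) ^ 2 = 1)
    (h2 : (r2 - r) ^ 2 + (r2 - r) * (j2 - j) + (j2 - j) ^ 2 = 1)
    (h3 : (r1 - r2) ^ 2 + (r1 - r2) * (j1 - j2) + (j1 - j2) ^ 2 = 1)
    (hr : r1 + r2 = r + r0) (hj : j1 + j2 = j + j0) : False := by
  obtain ⟨o, ho1, -, ho3, ho4⟩ := T.circ hT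
  have hp := ho4 _ (site_mem T hF hx r1 j1 (by omega))
  have hq := ho4 _ (site_mem T hF hx r2 j2 (by omega))
  have e0 := nsq_site r0 j0 r j
  have e3 := nsq_site r1 j1 r2 j2
  rw [h0] at e0
  rw [h3] at e3
  have hr' : (r1 : ℝ) + r2 = r + r0 := by exact_mod_cast hr
  have hj' : (j1 : ℝ) + j2 = j + j0 := by exact_mod_cast hj
  have hre : (site r1 j1).re + (site r2 j2).re = (site r j).re + (site r0 j0).re := by
    simp only [site_re]; linarith
  have him : (site r1 j1).im + (site r2 j2).im = (site r j).im + (site r0 j0).im := by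
    simp only [site_im]; rw [← mul_add, ← mul_add, hr']
  generalize site r1 j1 = p at *
  generalize site r2 j2 = q at *
  generalize site r0 j0 = y at *
  generalize site r j = x at *
  rw [nsq_sub] at ho1 ho3 hp hq e0 e3
  rw [nsq_sub] at ho1 hp hq
  push_cast at e0 e3
  have hre' : q.re = x.re + y.re - p.re := by linarith
  have him' : q.im = x.im + y.im - p.im := by linarith
  rw [hre', him'] at hq e3
  nlinarith

end Far

open Far in
theorem far : S_far := by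
  intro T N hF r j hx y z hT
  obtain ⟨o, ho1, -, ho3, -⟩ := T.circ hT
  have hyx : nsq (y - site r j) < 16 := by
    rw [nsq_sub] at ho1 ho3 ⊢
    rw [nsq_sub] at ho1
    nlinarith [sq_nonneg (y.re + (site r j).re - 2 * o.re),
      sq_nonneg (y.im + (site r j).im - 2 * o.im)]
  have hy : y ∈ Lam := (hF y (not_inBox_near hx hyx)).1 (T.mem hT).2.1
  obtain ⟨r0, j0, rfl⟩ := hy
  have hne : site r j ≠ site r0 j0 := (ne_of_cross (T.ccw hT)).1
  rw [nsq_site] at hyx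
  have hlt : (r0 - r) ^ 2 + (r0 - r) * (j0 - j) + (j0 - j) ^ 2 < 4 := by
    have : (((r0 - r) ^ 2 + (r0 - r) * (j0 - j) + (j0 - j) ^ 2 : ℤ) : ℝ) < 4 := by linarith
    exact_mod_cast this
  obtain ⟨a, rfl⟩ : ∃ a, r0 = r + a := ⟨r0 - r, by ring⟩
  obtain ⟨b, rfl⟩ : ∃ b, j0 = j + b := ⟨j0 - j, by ring⟩
  have hlt' : a ^ 2 + a * b + b ^ 2 < 4 := by
    have e : (r + a - r) ^ 2 + (r + a - r) * (j + b - j) + (j + b - j) ^ 2 =
      a ^ 2 + a * b + b ^ 2 := by ring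
    rwa [e] at hlt
  have ha1 : -3 < a := by nlinarith [sq_nonneg (a + 2 * b)]
  have ha2 : a < 3 := by nlinarith [sq_nonneg (a + 2 * b)]
  have hb1 : -3 < b := by nlinarith [sq_nonneg (2 * a + b)]
  have hb2 : b < 3 := by nlinarith [sq_nonneg (2 * a + b)]
  interval_cases a <;> interval_cases b <;> first
    | (exfalso; norm_num at hlt'; done)
    | (exfalso; apply hne; simp; done)
    | (exfalso; refine not_long T hF hx _ _ (r + 1) j r (j + 1) hT ?_ ?_ ?_ ?_ ?_ ?_ <;> ring1)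
    | (exfalso; refine not_long T hF hx _ _ (r - 1) j r (j - 1) hT ?_ ?_ ?_ ?_ ?_ ?_ <;> ring1)
    | (exfalso; refine not_long T hF hx _ _ (r + 1) j (r + 1) (j - 1) hT ?_ ?_ ?_ ?_ ?_ ?_ <;> ring1)
    | (exfalso; refine not_long T hF hx _ _ (r - 1) j (r - 1) (j + 1) hT ?_ ?_ ?_ ?_ ?_ ?_ <;> ring1)
    | (exfalso; refine not_long T hF hx _ _ (r + 1) (j - 1) r (j - 1) hT ?_ ?_ ?_ ?_ ?_ ?_ <;> ring1)
    | (exfalso; refine not_long T hF hx _ _ (r - 1) (j + 1) r (j + 1) hT ?_ ?_ ?_ ?_ ?_ ?_ <;> ring1)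
    | (refine Or.inl ⟨?_, T.uniq hT (tri_of T hF hx _ _ _ _ ?_ ?_ ?_ ?_)⟩ <;>
        first | ring1 | (congr 1 <;> ring1))
    | (refine Or.inr (Or.inl ⟨?_, T.uniq hT (tri_of T hF hx _ _ _ _ ?_ ?_ ?_ ?_)⟩) <;>
        first | ring1 | (congr 1 <;> ring1))
    | (refine Or.inr (Or.inr (Or.inl ⟨?_, T.uniq hT (tri_of T hF hx _ _ _ _ ?_ ?_ ?_ ?_)⟩)) <;>
        first | ring1 | (congr 1 <;> ring1))
    | (refine Or.inr (Or.inr (Or.inr (Or.inl ⟨?_, T.uniq hT (tri_of T hF hx _ _ _ _ ?_ ?_ ?_ ?_)⟩))) <;>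
        first | ring1 | (congr 1 <;> ring1))
    | (refine Or.inr (Or.inr (Or.inr (Or.inr (Or.inl ⟨?_, T.uniq hT (tri_of T hF hx _ _ _ _ ?_ ?_ ?_ ?_)⟩)))) <;>
        first | ring1 | (congr 1 <;> ring1))
    | (refine Or.inr (Or.inr (Or.inr (Or.inr (Or.inr ⟨?_, T.uniq hT (tri_of T hF hx _ _ _ _ ?_ ?_ ?_ ?_)⟩)))) <;>
        first | ring1 | (congr 1 <;> ring1))

end Pool.Agent.P.MP_dd077d_co
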