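import Pool.Agent.P.MP_dd077d_co.Iface2

/-! Properties of the groove profile. -/

namespace Pool.Agent.P.MP_dd077d_co

namespace Gl

lemma rp_sq {x : ℝ} (h0 : -1 ≤ x) (h1 : x ≤ 3) : Rp x ^ 2 = 4 - (1 - x) ^ 2 :=
  Real.sq_sqrt (by nlinarith)

lemma rm_sq {x : ℝ} (h0 : -3 ≤ x) (h1 : x ≤ 1) : Rm x ^ 2 = 4 - (1 + x) ^ 2 :=
  Real.sq_sqrt (by nlinarith)

lemma rp0 (x : ℝ) : 0 ≤ Rp x := Real.sqrt_nonneg _
lemma rm0 (x : ℝ) : 0 ≤ Rm x := Real.sqrt_nonneg _

lemma rp_neg (x : ℝ) : Rp (-x) = Rm x := by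
  unfold Rp Rm
  rw [sub_neg_eq_add]

lemma g_zero : g 0 = 0 := by
  unfold g Rp s3
  norm_num

lemma conc {x y a b : ℝ} (x0 : -1 ≤ x) (x1 : x ≤ 3) (y0 : -1 ≤ y) (y1 : y ≤ 3) (a0 : 0 ≤ a)
    (b0 : 0 ≤ b) (hab : a + b = 1) : a * Rp x + b * Rp y ≤ Rp (a * x + b * y) := by
  have hp := rp_sq x0 x1
  have hq := rp_sq y0 y1
  refine Real.le_sqrt_of_sq_le ?_
  have e : 1 - (a * x + b * y) = a * (1 - x) + b * (1 - y) := by
    linear_combination (-1 : ℝ) * hab
  rw [e]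
  generalize Rp x = p at *
  generalize Rp y = q at *
  generalize 1 - x = u at *
  generalize 1 - y = v at *
  have h : 0 ≤ a * b * ((p - q) ^ 2 + (u - v) ^ 2) := by positivity
  have h4 : (4 : ℝ) = 4 * (a + b) ^ 2 := by rw [hab]; ring
  have h5 : (a * p + b * q) ^ 2 + (a * u + b * v) ^ 2 + a * b * ((p - q) ^ 2 + (u - v) ^ 2) =
      4 * (a + b) ^ 2 := by
    linear_combination (a ^ 2 + a * b) * hp + (b ^ 2 + a * b) * hq
  linarith

lemma shift {x y d : ℝ} (h0 : -1 ≤ x) (h1 : x ≤ y) (h2 : 0 ≤ d) (h3 : y + d ≤ 3) :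
    g (y + d) - g y ≤ g (x + d) - g x := by
  rcases (show 0 ≤ y + d - x by linarith).eq_or_lt with h | h
  · have e1 : d = 0 := by linarith
    rw [e1, add_zero, add_zero, sub_self, sub_self]
  · have a0 : 0 ≤ (y - x) / (y + d - x) := div_nonneg (by linarith) h.le
    have b0 : 0 ≤ d / (y + d - x) := div_nonneg h2 h.le
    have hab : (y - x) / (y + d - x) + d / (y + d - x) = 1 := by
      field_simp
      ring
    have c1 := conc h0 (by linarith) (show -1 ≤ y + d by linarith) h3 a0 b0 hab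
    have c2 := conc h0 (by linarith) (show -1 ≤ y + d by linarith) h3 b0 a0 (by linarith)
    have e1 : (y - x) / (y + d - x) * x + d / (y + d - x) * (y + d) = x + d := by
      field_simp
      ring
    have e2 : d / (y + d - x) * x + (y - x) / (y + d - x) * (y + d) = y := by
      field_simp
      ring
    rw [e1] at c1
    rw [e2] at c2
    unfold g
    have e3 : Rp x + Rp (y + d) =
        ((y - x) / (y + d - x) + d / (y + d - x)) * (Rp x + Rp (y + d)) := by rw [hab, one_mul]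
    linarith

lemma two (x : ℝ) : Rp x + Rm x ≤ 2 * s3 := by
  have l := s3_lb
  have p2 : Rp x ≤ 2 := Real.sqrt_le_iff.2 ⟨by norm_num, by nlinarith [sq_nonneg (1 - x)]⟩
  have q2 : Rm x ≤ 2 := Real.sqrt_le_iff.2 ⟨by norm_num, by nlinarith [sq_nonneg (1 + x)]⟩
  rcases le_total x 1 with h | h
  · rcases le_total (-1) x with k | k
    · have hp := rp_sq k (by linarith)
      have hq := rm_sq (show -3 ≤ x by linarith) h
      refine (abs_le_of_sq_le_sq' ?_ (by linarith)).2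
      nlinarith [sq_nonneg (Rp x - Rm x), s3_sq, sq_nonneg x]
    · have : Rp x = 0 := Real.sqrt_eq_zero'.2 (by nlinarith)
      linarith
  · have : Rm x = 0 := Real.sqrt_eq_zero'.2 (by nlinarith)
    linarith

lemma rp_lb {x : ℝ} (h0 : 0 ≤ x) (h1 : x ≤ 2) : s3 ≤ Rp x :=
  Real.sqrt_le_sqrt (by nlinarith)

lemma der {x : ℝ} (h0 : 0 ≤ x) (h1 : x ≤ 2) :
    HasDerivAt (fun x => g x + 0.385 * x ^ 2) ((1 - x) / Rp x + 0.77 * x) x := by
  have h2 : HasDerivAt (fun x : ℝ => 4 - (1 - x) ^ 2) (2 * (1 - x)) x := by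
    have := (((hasDerivAt_id x).const_sub 1).pow 2).const_sub 4
    simpa using this
  have h3 := (h2.sqrt (by nlinarith)).sub_const s3
  have h4 : HasDerivAt (fun x : ℝ => 0.385 * x ^ 2) (0.77 * x) x := by
    have := ((hasDerivAt_id x).pow 2).const_mul (0.385 : ℝ)
    refine (this.congr_deriv ?_)
    simp
    ring
  refine (h3.add h4).congr_deriv ?_
  unfold Rp
  rw [mul_div_mul_left _ _ two_ne_zero]

lemma slope {a b : ℝ} (a0 : 0 ≤ a) (ab : a ≤ b) (b2 : b ≤ 2) :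
    (1 - a) / Rp a + 0.77 * a ≤ (1 - b) / Rp b + 0.77 * b := by
  have l := s3_lb
  have hp := rp_sq (show -1 ≤ a by linarith) (by linarith)
  have hq := rp_sq (show -1 ≤ b by linarith) (by linarith)
  have p0 := rp_lb a0 (by linarith)
  have q0 := rp_lb (show 0 ≤ b by linarith) b2
  generalize Rp a = p at *
  generalize Rp b = q at *
  have pp : 0 < p := by linarith
  have qp : 0 < q := by linarith
  have h3 : 3 ≤ p * q := by nlinarith [s3_mul]
  have h4 : 16 ≤ 1.54 * ((p + q) * (p * q)) := by nlinarith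
  have h5 : (p + q) ^ 2 + (2 - a - b) ^ 2 ≤ 16 := by nlinarith [sq_nonneg (p - q), sq_nonneg (a - b)]
  have h6 : 2 * (p + q) * ((1 - a) * q - (1 - b) * p) = (b - a) * ((p + q) ^ 2 + (2 - a - b) ^ 2) := by
    linear_combination (-(2 - a - b)) * hp + (2 - a - b) * hq
  have h7 : 2 * (p + q) * ((1 - a) * q - (1 - b) * p) ≤ 2 * (p + q) * (0.77 * (b - a) * (p * q)) := by
    rw [h6]
    nlinarith [mul_le_mul_of_nonneg_left (h5.trans h4) (sub_nonneg.2 ab)]
  have h8 := le_of_mul_le_mul_left h7 (by linarith)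
  have h9 : (1 - a) / p - (1 - b) / q ≤ 0.77 * (b - a) := by
    rw [div_sub_div _ _ pp.ne' qp.ne', div_le_iff₀ (mul_pos pp qp)]
    linarith
  linarith

lemma cvx : ConvexOn ℝ (Set.Icc 0 2) fun x => g x + 0.385 * x ^ 2 := by
  refine MonotoneOn.convexOn_of_deriv (convex_Icc 0 2)
    (fun x hx => (der hx.1 hx.2).continuousAt.continuousWithinAt)
    (fun x hx => ?_) fun a ha b hb ab => ?_
  · have := interior_subset hx
    exact (der this.1 this.2).differentiableAt.differentiableWithinAt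
  · have h1 := interior_subset ha
    have h2 := interior_subset hb
    rw [(der h1.1 h1.2).deriv, (der h2.1 h2.2).deriv]
    exact slope h1.1 ab h2.2

lemma sup {y z : ℝ} (y0 : 0 ≤ y) (y1 : y ≤ 1) (z0 : 0 ≤ z) (z1 : z ≤ 1) :
    g y + g z - g (y + z) ≤ 0.77 * (y * z) := by
  rcases (add_nonneg y0 z0).eq_or_lt with h | h
  · have e : y = 0 := by linarith
    rw [e, g_zero, zero_add, zero_add, zero_mul]
    norm_num
  · have hab : z / (y + z) + y / (y + z) = 1 := by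
      field_simp
      ring
    have m0 : (0 : ℝ) ∈ Set.Icc (0 : ℝ) 2 := ⟨le_rfl, by norm_num⟩
    have m1 : y + z ∈ Set.Icc (0 : ℝ) 2 := ⟨h.le, by linarith⟩
    have c1 := cvx.2 m0 m1 (div_nonneg z0 h.le) (div_nonneg y0 h.le) hab
    have c2 := cvx.2 m0 m1 (div_nonneg y0 h.le) (div_nonneg z0 h.le) (by linarith)
    simp only [smul_eq_mul, mul_zero, zero_add, g_zero, div_mul_cancel₀ _ h.ne'] at c1 c2
    have e3 : g (y + z) + 0.385 * (y + z) ^ 2 =
        (z / (y + z) + y / (y + z)) * (g (y + z) + 0.385 * (y + z) ^ 2) := by rw [hab, one_mul]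
    nlinarith

lemma mu1 {t : ℝ} (t0 : 0 ≤ t) (t1 : t ≤ 9 / 16) :
    (3 - 5 / 3 * t - 0.47 * t ^ 2) ^ 2 ≤ 9 - 10 * t + t ^ 2 := by
  have : 0 ≤ t ^ 2 * (469 / 450 - 47 / 30 * t - 0.2209 * t ^ 2) :=
    mul_nonneg (sq_nonneg t) (by nlinarith)
  nlinarith

lemma mu2 {t : ℝ} (t0 : 0 ≤ t) (t1 : t ≤ 9 / 16) :
    (2 * s3 - (39 / 50 + 13 / 50 * t) * t) ^ 2 ≤ 6 - 2 * t + 2 * (3 - 5 / 3 * t - 0.47 * t ^ 2) := by
  have h3 : 1.73205 * ((39 / 50 + 13 / 50 * t) * t) ≤ s3 * ((39 / 50 + 13 / 50 * t) * t) :=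
    mul_le_mul_of_nonneg_right s3_lb.le (by positivity)
  have a2 : t ^ 2 ≤ 9 / 16 * t := by nlinarith
  have a3 : t ^ 3 ≤ 81 / 256 * t := by nlinarith
  have h4 : 0 ≤ t * (4 * 1.73205 * (39 / 50 + 13 / 50 * t) - 16 / 3 - 0.94 * t -
      (39 / 50 + 13 / 50 * t) ^ 2 * t) := mul_nonneg t0 (by nlinarith)
  have e : (2 * s3 - (39 / 50 + 13 / 50 * t) * t) ^ 2 = 12 - 4 * (s3 * ((39 / 50 + 13 / 50 * t) * t)) +
      ((39 / 50 + 13 / 50 * t) * t) ^ 2 := by linear_combination 4 * s3_sq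
  rw [e]
  nlinarith

lemma mu {x : ℝ} (h0 : 0 ≤ x) (h1 : x ≤ 3 / 4) : 2 * s3 - muF x * x ^ 2 ≤ Rp x + Rm x := by
  have hp := rp_sq (show -1 ≤ x by linarith) (by linarith)
  have hq := rm_sq (show -3 ≤ x by linarith) (by linarith)
  have p0 := rp0 x
  have q0 := rm0 x
  have t0 : 0 ≤ x ^ 2 := sq_nonneg x
  have t1 : x ^ 2 ≤ 9 / 16 := by nlinarith
  have e1 : (Rp x * Rm x) ^ 2 = 9 - 10 * x ^ 2 + (x ^ 2) ^ 2 := by
    rw [mul_pow, hp, hq]
    ring
  have e2 : (Rp x + Rm x) ^ 2 = 6 - 2 * x ^ 2 + 2 * (Rp x * Rm x) := by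
    linear_combination hp + hq
  have h2 := (abs_le_of_sq_le_sq' ((mu1 t0 t1).trans e1.ge) (mul_nonneg p0 q0)).2
  refine (abs_le_of_sq_le_sq' ?_ (add_nonneg p0 q0)).2
  rw [e2]
  exact (mu2 t0 t1).trans (by linarith)

lemma low {x : ℝ} (h0 : 0 ≤ x) (h1 : x ≤ 1) : x / s3 - 0.385 * x ^ 2 ≤ g x := by
  have l := s3_lb
  have u := s3_ub
  have e : x / s3 = x * s3 / 3 := by
    rw [div_eq_div_iff s3_pos.ne' (by norm_num), mul_assoc, s3_mul]
  have : s3 + x * s3 / 3 - 0.385 * x ^ 2 ≤ Rp x := by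
    refine Real.le_sqrt_of_sq_le ?_
    have e2 : (s3 + x * s3 / 3 - 0.385 * x ^ 2) ^ 2 = 3 + 2 * x + x ^ 2 / 3 + 0.148225 * x ^ 4 -
        0.77 * s3 * x ^ 2 - 0.77 / 3 * s3 * x ^ 3 := by
      linear_combination (1 + x / 3) ^ 2 * s3_sq
    rw [e2]
    have : 0 ≤ x ^ 2 * (0.77 * s3 - 4 / 3 + 0.77 / 3 * s3 * x - 0.148225 * x ^ 2) :=
      mul_nonneg (sq_nonneg x) (by nlinarith)
    nlinarith
  unfold g
  linarith

lemma cc {x u t : ℝ} (x0 : 0 ≤ x) (x1 : x ≤ 1) (u1 : u ≤ 1) (t0 : 0 ≤ t) (t1 : t ≤ 9 / 10)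
    (h : -t ≤ u - x) : g u - g (u - x) - g x ≤ x * ccF t x := by
  have l := s3_lb
  have a := shift (show -1 ≤ -t by linarith) h x0 (by linarith)
  rw [sub_add_cancel] at a
  have hq := rm_sq (show -3 ≤ t by linarith) (by linarith)
  have q0 : 0 < Rm t := Real.sqrt_pos.2 (by nlinarith)
  have b : Rp (-t + x) ≤ Rm t + x * ((1 + t) / Rm t) := by
    refine Real.sqrt_le_iff.2 ⟨by positivity, ?_⟩
    have e : (Rm t + x * ((1 + t) / Rm t)) ^ 2 =
        Rm t ^ 2 + 2 * (x * (1 + t)) + (x * ((1 + t) / Rm t)) ^ 2 := by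
      field_simp
      ring
    rw [e, hq]
    nlinarith [sq_nonneg (x * ((1 + t) / Rm t)), sq_nonneg x]
  have c := low x0 x1
  have d : (1 + t) / Rm t - 1 / s3 ≤ t * (8 + 4 * t) / (s3 * (Rm t * (s3 + Rm t))) := by
    have sp := s3_pos
    have k : (s3 * (1 + t) - Rm t) * (s3 * (1 + t) + Rm t) = t * (8 + 4 * t) := by
      linear_combination (1 + t) ^ 2 * s3_sq - hq
    have k0 : 0 ≤ s3 * (1 + t) - Rm t := by
      by_contra hh
      push Not at hh
      nlinarith [mul_pos (neg_pos.2 hh) (show 0 < s3 * (1 + t) + Rm t by positivity)]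
    rw [div_sub_div _ _ q0.ne' sp.ne', div_le_div_iff₀ (by positivity) (by positivity), ← k]
    have : 0 ≤ (s3 * (1 + t) - Rm t) * (s3 * t) * (Rm t * s3) := by positivity
    nlinarith
  have d' := mul_le_mul_of_nonneg_left d x0
  have e : x / s3 = x * (1 / s3) := by ring
  unfold ccF
  unfold g at a c ⊢
  rw [rp_neg] at a
  nlinarith

lemma mono {x y : ℝ} (h : x ≤ y) (h1 : y ≤ 1) : g x ≤ g y := by
  unfold g Rp
  have : Real.sqrt (4 - (1 - x) ^ 2) ≤ Real.sqrt (4 - (1 - y) ^ 2) :=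
    Real.sqrt_le_sqrt (by nlinarith)
  linarith

end Gl

open Gl in
theorem gl : S_g := by
  have l := s3_lb
  have u := s3_ub
  refine ⟨g_zero, fun x => ?_, fun x => ?_, fun x y => mono, fun x y d => shift, fun x => ?_,
    fun y z => sup, fun z z0 z1 => ?_, fun x h0 h1 => ?_, fun x h0 h1 => ?_, fun x h0 h1 => ?_,
    fun x u t => cc, fun t h0 h1 => ?_, fun t h0 h1 => ?_⟩
  · unfold g
    rw [rp_neg]
  · unfold g Rp
    rw [show (1 - (2 - x)) ^ 2 = (1 - x) ^ 2 by ring]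
  · have := two x
    unfold g
    rw [rp_neg]
    linarith
  · have hp := rp_sq (show -1 ≤ z by linarith) (by linarith)
    have hq := rm_sq (show -3 ≤ z by linarith) z1
    have h2 := two z
    have h3 : s3 < 1.7320509 := by
      unfold s3
      rw [Real.sqrt_lt' (by norm_num)]
      norm_num
    have h4 : Rm z ≤ Rp z := Real.sqrt_le_sqrt (by nlinarith)
    unfold g
    rw [rp_neg]
    have h5 : (Rp z - Rm z) * (Rp z + Rm z) = 4 * z := by linear_combination hp - hq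
    have h6 := mul_le_mul_of_nonneg_left (show Rp z + Rm z ≤ 3.4641018 by linarith) (sub_nonneg.2 h4)
    nlinarith
  · have := mu h0 h1
    unfold g
    rw [rp_neg]
    linarith
  · have hp := rp_sq (show -1 ≤ x by linarith) (by linarith)
    unfold g
    linear_combination hp - s3_sq
  · have hq := rm_sq (show -3 ≤ x by linarith) h1
    linear_combination s3_sq - hq
  · have := mono h0 h1
    have h2 : (1.939 : ℝ) ≤ Rp 0.51 := Real.le_sqrt_of_sq_le (by norm_num)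
    unfold g at this ⊢
    linarith
  · have h2 : s3 + t / 4 ≤ Rp t := Real.le_sqrt_of_sq_le (by nlinarith [s3_sq])
    unfold g
    linarith

end Pool.Agent.P.MP_dd077d_co
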