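import Pool.Agent.P.MP_dd077d_co.Iface2

/-!
The area between two rows as a sum of triangle costs, and gaps against area.
-/

set_option linter.dupNamespace false

namespace Pool.Agent.P.MP_dd077d_co

noncomputable section

namespace Idn

open Row

lemma summable_of_far {f : ℤ → ℝ} (n : ℕ) (h : ∀ i : ℤ, (n : ℤ) ≤ |i| → f i = 0) : Summable f := by
  refine summable_of_ne_finset_zero (s := Finset.Icc (-(n : ℤ)) n) ?_
  intro i hi
  apply h
  rw [Finset.mem_Icc] at hi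
  rcases abs_cases i with h1 | h1 <;> omega

/-- both rows vanish around a far index -/
lemma far (U R : Row) : ∃ n : ℕ, ∀ j : ℤ, (n : ℤ) ≤ |j| →
    (R.φ j = 0 ∧ R.w j = 0 ∧ R.φ (j + 1) = 0 ∧ R.w (j + 1) = 0) ∧
    (U.φ j = 0 ∧ U.w j = 0 ∧ U.φ (j - 1) = 0 ∧ U.w (j - 1) = 0) ∧
    (U.φ (j + 1) = 0 ∧ U.w (j + 1) = 0) := by
  obtain ⟨n, hn⟩ := R.fin
  obtain ⟨m, hm⟩ := U.fin
  refine ⟨n + m + 1, fun j hj => ?_⟩
  have a1 : (n : ℤ) ≤ |j| := by push_cast at hj; omega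
  have a2 : (n : ℤ) ≤ |j + 1| := by
    push_cast at hj; rcases abs_cases j with h1 | h1 <;> rcases abs_cases (j + 1) with h2 | h2 <;> omega
  have a3 : (m : ℤ) ≤ |j| := by push_cast at hj; omega
  have a4 : (m : ℤ) ≤ |j - 1| := by
    push_cast at hj; rcases abs_cases j with h1 | h1 <;> rcases abs_cases (j - 1) with h2 | h2 <;> omega
  have a5 : (m : ℤ) ≤ |j + 1| := by
    push_cast at hj; rcases abs_cases j with h1 | h1 <;> rcases abs_cases (j + 1) with h2 | h2 <;> omega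
  exact ⟨⟨(hn _ a1).1, (hn _ a1).2, (hn _ a2).1, (hn _ a2).2⟩,
    ⟨(hm _ a3).1, (hm _ a3).2, (hm _ a4).1, (hm _ a4).2⟩, (hm _ a5).1, (hm _ a5).2⟩

lemma tsum_add_one (f : ℤ → ℝ) : ∑' j, f (j + 1) = ∑' j, f j :=
  (Equiv.addRight (1 : ℤ)).tsum_eq f

lemma tsum_sub_one (f : ℤ → ℝ) : ∑' j, f (j - 1) = ∑' j, f j :=
  (Equiv.subRight (1 : ℤ)).tsum_eq f

lemma summable_add_one {f : ℤ → ℝ} (h : Summable f) : Summable fun j => f (j + 1) :=
  (Equiv.addRight (1 : ℤ)).summable_iff.2 h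

lemma summable_sub_one {f : ℤ → ℝ} (h : Summable f) : Summable fun j => f (j - 1) :=
  (Equiv.subRight (1 : ℤ)).summable_iff.2 h

/-- the area term of a row -/
def ar (R : Row) (i : ℤ) : ℝ := (2 + R.y i) * ((R.w i + R.w (i + 1)) / 2)

/-- the shoelace term of the edge from point `j` of `R` to point `j - 1` of `U` -/
def F (U R : Row) (j : ℤ) : ℝ :=
  (s3 * (R.φ j + U.φ (j - 1)) - (R.w j + U.w (j - 1)) +
    (U.φ (j - 1) - R.φ j) * (R.w j + U.w (j - 1))) / 2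

lemma tele (U R : Row) (j : ℤ) :
    cU U R j + cD U R j = (ar R j - ar U (j - 1)) + (F U R (j + 1) - F U R j) := by
  simp only [cU, cD, ar, F, al, be, hr, hl, Row.y, add_sub_cancel_right, sub_add_cancel]
  ring

lemma sum_ar (R : Row) : Summable (ar R) := by
  obtain ⟨n, hn⟩ := far R R
  refine summable_of_far n fun j hj => ?_
  obtain ⟨⟨_, h2, _, h4⟩, _⟩ := hn j hj
  simp [ar, h2, h4]

lemma sum_F (U R : Row) : Summable (F U R) := by
  obtain ⟨n, hn⟩ := far U R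
  refine summable_of_far n fun j hj => ?_
  obtain ⟨⟨h1, h2, _, _⟩, ⟨_, _, h7, h8⟩, _⟩ := hn j hj
  simp [F, h1, h2, h7, h8]

lemma sum_cU (U R : Row) : Summable (cU U R) := by
  obtain ⟨n, hn⟩ := far U R
  refine summable_of_far n fun j hj => ?_
  obtain ⟨⟨h1, h2, h3, h4⟩, ⟨h5, h6, _, _⟩, _⟩ := hn j hj
  simp only [cU, al, be, hr, hl, add_sub_cancel_right, h1, h2, h3, h4, h5, h6]
  ring

lemma sum_cD (U R : Row) : Summable (cD U R) := by
  obtain ⟨n, hn⟩ := far U R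
  refine summable_of_far n fun j hj => ?_
  obtain ⟨⟨h1, h2, _, _⟩, ⟨h5, h6, h7, h8⟩, _⟩ := hn j hj
  simp only [cD, al, be, hr, hl, h1, h2, h5, h6, h7, h8]
  ring

lemma g_zero : g 0 = 0 := by
  unfold g Rp s3
  norm_num

lemma sum_y (R : Row) : Summable R.y := by
  obtain ⟨n, hn⟩ := far R R
  refine summable_of_far n fun j hj => ?_
  obtain ⟨⟨h1, _, h3, _⟩, _⟩ := hn j hj
  simp [Row.y, h1, h3]

lemma sum_ysq (R : Row) : Summable fun j => R.y j ^ 2 := by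
  obtain ⟨n, hn⟩ := far R R
  refine summable_of_far n fun j hj => ?_
  obtain ⟨⟨h1, _, h3, _⟩, _⟩ := hn j hj
  simp [Row.y, h1, h3]

/-- the gap at the upper right neighbour -/
def u (U R : Row) (j : ℤ) : ℝ := hr U R j - g (al U R j)
/-- the gap at the upper left neighbour -/
def u' (U R : Row) (j : ℤ) : ℝ := hl U R j - g (be U R j)

lemma sum_u (U R : Row) : Summable (u U R) := by
  obtain ⟨n, hn⟩ := far U R
  refine summable_of_far n fun j hj => ?_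
  obtain ⟨⟨h1, h2, _, _⟩, ⟨h5, h6, _, _⟩, _⟩ := hn j hj
  simp [u, al, hr, h1, h2, h5, h6, g_zero]

lemma sum_u' (U R : Row) : Summable (u' U R) := by
  obtain ⟨n, hn⟩ := far U R
  refine summable_of_far n fun j hj => ?_
  obtain ⟨⟨h1, h2, _, _⟩, ⟨_, _, h7, h8⟩, _⟩ := hn j hj
  simp [u', be, hl, h1, h2, h7, h8, g_zero]

/-! ### The key inequality -/

lemma lowR (x K : ℝ) (h : 4 / 9 - 2 * K * (1 + x / 3) + x ^ 2 * K ^ 2 ≤ 0) :
    s3 * (1 + x / 3 - x ^ 2 * K) ≤ Rp x := by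
  unfold Rp
  apply Real.le_sqrt_of_sq_le
  rw [mul_pow, s3_sq]
  have := mul_nonneg (sq_nonneg x) (neg_nonneg.2 h)
  nlinarith

lemma low1 {x : ℝ} (h0 : 0 ≤ x) (h1 : x ≤ 9 / 10) :
    s3 * (1 + x / 3 - x ^ 2 * (2 / 9)) ≤ Rp x := by
  apply lowR
  nlinarith

lemma low2 {x : ℝ} (h0 : x ≤ 0) (h1 : -(3 / 4) ≤ x) :
    s3 * (1 + x / 3 - x ^ 2 * (2 / 9 - 4 / 25 * x)) ≤ Rp x := by
  apply lowR
  obtain ⟨t, rfl⟩ : ∃ t, x = -t := ⟨-x, by ring⟩
  have t0 : 0 ≤ t := by linarith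
  have t1 : t ≤ 3 / 4 := by linarith
  have k1 : (2 / 9 - 4 / 25 * -t) ^ 2 ≤ 0.1172 := by nlinarith
  have k2 : t * (2 / 9 - 4 / 25 * -t) ^ 2 ≤ 3 / 4 * 0.1172 :=
    mul_le_mul t1 k1 (sq_nonneg _) (by norm_num)
  have k3 : 4 / 27 - 8 / 25 + 8 / 75 * t + t * (2 / 9 - 4 / 25 * -t) ^ 2 ≤ 0 := by linarith
  have k4 := mul_nonneg t0 (neg_nonneg.2 k3)
  nlinarith

lemma low3 {x : ℝ} (h0 : x ≤ -(3 / 4)) (h1 : -(9 / 10) ≤ x) :
    s3 * (1 + x / 3 - x ^ 2 * (-(63 / 1000) - 27 / 50 * x)) ≤ Rp x := by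
  apply lowR
  obtain ⟨t, rfl⟩ : ∃ t, x = -(3 / 4 + t) := ⟨-x - 3 / 4, by ring⟩
  have t0 : 0 ≤ t := by linarith
  have t1 : t ≤ 3 / 20 := by linarith
  have k1 : t ^ 2 ≤ 3 / 20 * t := by nlinarith
  have k2 : t ^ 3 ≤ 9 / 400 * t := by nlinarith
  have k3 : t ^ 4 ≤ 27 / 8000 * t := by nlinarith
  nlinarith

lemma fin_key {a b Ka Kb : ℝ} (ha : a ≤ 9 / 10) (hb : b ≤ 9 / 10)
    (h1 : s3 * (1 + a / 3 - a ^ 2 * Ka) ≤ Rp a) (h2 : s3 * (1 + b / 3 - b ^ 2 * Kb) ≤ Rp b)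
    (H : 0 ≤ -(a * b) / 3 + 24 / 125 * (a + b) ^ 2 -
      ((1 - a) * (b ^ 2 * Kb) + (1 - b) * (a ^ 2 * Ka)) / 2) :
    s3 * (-(a + b)) / 3 - (a + b) ^ 2 / 3 ≤ ((1 - a) * Rp b + (1 - b) * Rp a) / 2 - s3 := by
  have e1 := mul_le_mul_of_nonneg_left h2 (show 0 ≤ 1 - a by linarith)
  have e2 := mul_le_mul_of_nonneg_left h1 (show 0 ≤ 1 - b by linarith)
  have e3 := mul_nonneg s3_pos.le H
  have e4 : 0 ≤ (1 / 3 - s3 * (24 / 125)) * (a + b) ^ 2 :=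
    mul_nonneg (by have := s3_ub; linarith) (sq_nonneg _)
  nlinarith

lemma poly1 {t b : ℝ} (t0 : 0 ≤ t) (t1 : t ≤ 3 / 4) (b0 : 0 ≤ b) (hb : b ≤ 9 / 10) :
    0 ≤ -(-t * b) / 3 + 24 / 125 * (-t + b) ^ 2 -
      ((1 - -t) * (b ^ 2 * (2 / 9)) + (1 - b) * ((-t) ^ 2 * (2 / 9 - 4 / 25 * -t))) / 2 := by
  have h1 := mul_nonneg t0 b0
  have h2 := mul_nonneg (sub_nonneg.2 t1) (sq_nonneg b)
  have h3 := mul_nonneg (sub_nonneg.2 t1) (sq_nonneg t)
  have h4 := mul_nonneg h1 t0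
  have h5 := mul_nonneg h4 t0
  have h6 := mul_nonneg h1 (sub_nonneg.2 hb)
  have h7 := mul_nonneg (sub_nonneg.2 t1) (sq_nonneg (t - b))
  have h8 := mul_nonneg t0 (sq_nonneg (t - b))
  nlinarith [sq_nonneg (t - b), sq_nonneg (2 * t - b), sq_nonneg (t - 2 * b)]

lemma poly2 {t b : ℝ} (t0 : 0 ≤ t) (t1 : t ≤ 3 / 20) (b0 : t ≤ b) (hb : b ≤ 9 / 10) :
    0 ≤ -(-(3 / 4 + t) * b) / 3 + 24 / 125 * (-(3 / 4 + t) + b) ^ 2 -
      ((1 - -(3 / 4 + t)) * (b ^ 2 * (2 / 9)) + (1 - b) * ((-(3 / 4 + t)) ^ 2 * (-(63 / 1000) - 27 / 50 * -(3 / 4 + t)))) / 2 := by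
  obtain ⟨d, rfl⟩ : ∃ d, b = t + d := ⟨b - t, by ring⟩
  have d0 : 0 ≤ d := by linarith
  have h1 := mul_nonneg t0 d0
  have h2 := mul_nonneg t0 (sub_nonneg.2 t1)
  have h3 := mul_nonneg d0 (sub_nonneg.2 hb)
  have h4 := mul_nonneg h1 t0
  have h5 := mul_nonneg h4 t0
  have h6 := mul_nonneg h3 t0
  have h7 := mul_nonneg h2 t0
  have h8 := mul_nonneg h7 t0
  nlinarith

lemma poly3 {t s : ℝ} (t0 : 0 ≤ t) (s0 : 0 ≤ s) (h : t + s ≤ 3 / 4) :
    0 ≤ -(-t * -s) / 3 + 24 / 125 * (-t + -s) ^ 2 -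
      ((1 - -t) * ((-s) ^ 2 * (2 / 9 - 4 / 25 * -s)) + (1 - -s) * ((-t) ^ 2 * (2 / 9 - 4 / 25 * -t))) / 2 := by
  have h0 := sub_nonneg.2 h
  have h1 := mul_nonneg t0 s0
  have h2 := mul_nonneg h0 (sq_nonneg s)
  have h3 := mul_nonneg h0 (sq_nonneg t)
  have h4 := mul_nonneg h0 h1
  have h5 := mul_nonneg h4 t0
  have h6 := mul_nonneg h4 s0
  have h7 := mul_nonneg h1 h1
  nlinarith [sq_nonneg (t - s)]

lemma key_le {a b : ℝ} (hab : a ≤ b) (ha : -(9 / 10) ≤ a) (hb : b ≤ 9 / 10)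
    (hs : -(3 / 4) ≤ a + b) :
    s3 * (-(a + b)) / 3 - (a + b) ^ 2 / 3 ≤ ((1 - a) * Rp b + (1 - b) * Rp a) / 2 - s3 := by
  have ha' : a ≤ 9 / 10 := hab.trans hb
  rcases le_total 0 a with a0 | a0
  · have b0 : 0 ≤ b := a0.trans hab
    refine fin_key ha' hb (low1 a0 ha') (low1 b0 hb) ?_
    have := mul_nonneg a0 b0
    have := mul_nonneg a0 (sq_nonneg b)
    have := mul_nonneg b0 (sq_nonneg a)
    nlinarith [sq_nonneg a, sq_nonneg b]
  rcases le_total 0 b with b0 | b0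
  · rcases le_total (-(3 / 4)) a with a1 | a1
    · refine fin_key ha' hb (low2 a0 a1) (low1 b0 hb) ?_
      obtain ⟨t, rfl⟩ : ∃ t, a = -t := ⟨-a, by ring⟩
      exact poly1 (by linarith) (by linarith) b0 hb
    · refine fin_key ha' hb (low3 a1 ha) (low1 b0 hb) ?_
      obtain ⟨t, rfl⟩ : ∃ t, a = -(3 / 4 + t) := ⟨-a - 3 / 4, by ring⟩
      exact poly2 (by linarith) (by linarith) (by linarith) hb
  · have a1 : -(3 / 4) ≤ a := by linarith
    have b1 : -(3 / 4) ≤ b := by linarith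
    refine fin_key ha' hb (low2 a0 a1) (low2 b0 b1) ?_
    obtain ⟨t, rfl⟩ : ∃ t, a = -t := ⟨-a, by ring⟩
    obtain ⟨s, rfl⟩ : ∃ s, b = -s := ⟨-b, by ring⟩
    exact poly3 (by linarith) (by linarith) (by linarith)

lemma key {a b : ℝ} (ha : |a| ≤ 9 / 10) (hb : |b| ≤ 9 / 10) (hs : |a + b| ≤ 3 / 4) :
    s3 * (-(a + b)) / 3 - (a + b) ^ 2 / 3 ≤ ((1 - a) * Rp b + (1 - b) * Rp a) / 2 - s3 := by
  rw [abs_le] at ha hb hs
  rcases le_total a b with h | h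
  · exact key_le h ha.1 hb.2 hs.1
  · have := key_le h hb.1 ha.2 (by linarith [hs.1])
    rw [add_comm b a] at this
    linarith

/-- one triangle between the rows -/
lemma tri {a b h k B y : ℝ} (ha : |a| ≤ B) (hb : |b| ≤ B) (hB : B ≤ 9 / 10) (hy : y = -(a + b))
    (hs : |y| ≤ 3 / 4) (hh : g a ≤ h) (hk : g b ≤ k) :
    s3 * y / 3 - y ^ 2 / 3 + (1 - B) * ((h - g a) + (k - g b)) / 2 ≤
      ((1 - a) * (s3 + k) + (1 - b) * (s3 + h)) / 2 - s3 := by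
  have hs' : |a + b| ≤ 3 / 4 := by rw [hy, abs_neg] at hs; exact hs
  have h1 := key (ha.trans hB) (hb.trans hB) hs'
  have e1 : 0 ≤ (B - a) * (k - g b) := mul_nonneg (by linarith [le_abs_self a]) (by linarith)
  have e2 : 0 ≤ (B - b) * (h - g a) := mul_nonneg (by linarith [le_abs_self b]) (by linarith)
  subst hy
  unfold g at *
  nlinarith

end Idn

open Idn Row

theorem idt : S_id := by
  intro U R
  refine ⟨sum_cU U R, sum_cD U R, ?_⟩
  have h1 := sum_ar R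
  have h2 := summable_sub_one (sum_ar U)
  have h3 := summable_add_one (sum_F U R)
  have h4 := sum_F U R
  simp only [tele]
  rw [Summable.tsum_add (h1.sub h2) (h3.sub h4), Summable.tsum_sub h1 h2, Summable.tsum_sub h3 h4,
    tsum_sub_one (ar U), tsum_add_one (F U R), sub_self, add_zero]
  rfl

theorem idn (hrb : S_rb) : S_idn := by
  intro U R hC hB hR hU
  obtain ⟨sU, sD, hid⟩ := idt U R
  obtain ⟨yR, -, dR, pR, -⟩ := (hrb R).2.2.2.2.2.2.2.2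
  obtain ⟨yU, -, dU, pU, -⟩ := (hrb U).2.2.2.2.2.2.2.2
  have hal : ∀ j, |al U R j| ≤ R.S + U.S := fun j =>
    (abs_sub _ _).trans (add_le_add (pR j) (pU j))
  have hbe : ∀ j, |be U R j| ≤ R.S + U.S := fun j =>
    (abs_sub _ _).trans (by linarith [pR j, pU (j - 1)])
  set B := R.S + U.S with hBdef
  have hpt : ∀ j, (s3 / 3 * R.y j - 1 / 3 * R.y j ^ 2) + (s3 / 3 * U.y (j - 1) - 1 / 3 * U.y (j - 1) ^ 2) +
      (1 - B) / 2 * ((u U R j + u' U R j) + (u U R j + u' U R (j + 1))) ≤ cU U R j + cD U R j := by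
    intro j
    have t1 := tri (y := R.y j) (hal j) (hbe (j + 1)) hB
      (by simp only [Row.y, al, be, add_sub_cancel_right]; ring) ((dR _ _).trans hR) (hC j).1
      (hC (j + 1)).2
    have t2 := tri (y := U.y (j - 1)) (hal j) (hbe j) hB
      (by simp only [Row.y, al, be, sub_add_cancel]; ring) ((dU _ _).trans hU) (hC j).1 (hC j).2
    unfold cU cD u u'
    linarith
  have a1 := (sum_y R).mul_left (s3 / 3)
  have a2 := (sum_ysq R).mul_left (1 / 3)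
  have a3 := (summable_sub_one (sum_y U)).mul_left (s3 / 3)
  have a4 := (summable_sub_one (sum_ysq U)).mul_left (1 / 3)
  have b1 := (sum_u U R).add (sum_u' U R)
  have b2 := (sum_u U R).add (summable_add_one (sum_u' U R))
  have b3 := (b1.add b2).mul_left ((1 - B) / 2)
  have hle := Summable.tsum_le_tsum hpt (((a1.sub a2).add (a3.sub a4)).add b3) (sU.add sD)
  rw [Summable.tsum_add ((a1.sub a2).add (a3.sub a4)) b3, Summable.tsum_add (a1.sub a2) (a3.sub a4),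
    Summable.tsum_sub a1 a2, Summable.tsum_sub a3 a4, tsum_mul_left, tsum_mul_left, tsum_mul_left,
    tsum_mul_left, tsum_mul_left, Summable.tsum_add b1 b2,
    Summable.tsum_add (sum_u U R) (summable_add_one (sum_u' U R)), tsum_add_one (u' U R),
    ← Summable.tsum_add (sum_u U R) (sum_u' U R), tsum_sub_one U.y,
    tsum_sub_one (fun j => U.y j ^ 2), yR, yU, ← hid] at hle
  have hG : G U R = ∑' j, (u U R j + u' U R j) := rfl
  rw [hG]
  linarith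

end

end Pool.Agent.P.MP_dd077d_co
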