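import Pool.Agent.P.MP_dd077d_co.Iface2

/-! Numerical consequences of the invariant of a row. -/

set_option linter.dupNamespace false

namespace Pool.Agent.P.MP_dd077d_co

namespace InvAux

lemma e_mono {a c : ℝ} (h0 : 0 ≤ a) (h : a ≤ c) : eF a ≤ eF c := by unfold eF; gcongr
lemma h_mono {a c : ℝ} (h0 : 0 ≤ a) (h : a ≤ c) : hF a ≤ hF c := by unfold hF; gcongr
lemma s_mono {a c : ℝ} (h0 : 0 ≤ a) (h : a ≤ c) : sF a ≤ sF c := by unfold sF; gcongr
lemma r_mono {a c : ℝ} (h0 : 0 ≤ a) (h : a ≤ c) : rF a ≤ rF c := by unfold rF; gcongr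
lemma t_mono {a c : ℝ} (h0 : 0 ≤ a) (h : a ≤ c) : tF a ≤ tF c := by unfold tF; gcongr

lemma pw {a c : ℝ} (h0 : 0 ≤ a) (h : a ≤ c) (n : ℕ) : a ^ (n + 1) ≤ c ^ n * a := by
  rw [pow_succ]; gcongr

lemma r_lin {a c k : ℝ} (h0 : 0 ≤ a) (h : a ≤ c) (hk : 2547 / 5000 + 157 / 10000 * c ^ 3 +
    609 / 1000000 * c ^ 7 + 33 / 2500000 * c ^ 15 ≤ k) : rF a ≤ 0.011 + k * a := by
  have h1 := pw h0 h 3
  have h2 := pw h0 h 7
  have h3 := pw h0 h 15
  have h4 := mul_le_mul_of_nonneg_right hk h0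
  unfold rF
  norm_num at h1 h2 h3 ⊢
  linarith

lemma h_lin {a : ℝ} (h0 : 0 ≤ a) (h : a ≤ 1.4) : hF a ≤ 0.04 * a := by
  have h1 := pw h0 h 2
  have h2 := pw h0 h 3
  have h3 := pw h0 h 7
  have h4 := pw h0 h 15
  unfold hF
  norm_num at h1 h2 h3 h4 ⊢
  linarith

lemma two {a b : ℝ} (ha : 0 ≤ a) (hb : 0 ≤ b) (h : b ≤ a) (h1 : a ≤ 1.73206)
    (h2 : a + b ≤ 3.16412) : hF a + hF b ≤ 0.27 := by
  have key : ∀ x y : ℝ, a ≤ x → b ≤ y → hF x + hF y ≤ 0.27 → hF a + hF b ≤ 0.27 :=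
    fun x y k1 k2 k3 => by linarith [h_mono ha k1, h_mono hb k2]
  rcases le_total b 1.44 with k1 | k1
  · exact key _ _ h1 k1 (by norm_num [hF])
  rcases le_total b 1.46 with k2 | k2
  · exact key 1.72412 _ (by linarith) k2 (by norm_num [hF])
  rcases le_total b 1.51 with k3 | k3
  · exact key 1.70412 _ (by linarith) k3 (by norm_num [hF])
  · exact key 1.65412 1.59 (by linarith) (by linarith) (by norm_num [hF])

lemma sq_le {r c d : ℝ} (h0 : 0 ≤ r) (h : r ≤ c) (hd : d ^ 2 + c ^ 2 ≤ 4) :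
    d ≤ Real.sqrt (4 - r ^ 2) :=
  Real.le_sqrt_of_sq_le (by nlinarith)

end InvAux

open InvAux

theorem poly : S_poly := by
  have l := s3_lb
  have u := s3_ub
  refine ⟨fun a b ha hb h1 h2 h3 => ?_, fun a b ha hb h => ⟨?_, ?_⟩, fun a w ha h1 h2 => ?_⟩
  · rcases le_total b a with k | k
    · exact two ha hb k (by linarith) (by linarith)
    · rw [add_comm]; exact two hb ha k (by linarith) (by linarith)
  · linarith [h_lin ha (by linarith), h_lin hb (by linarith)]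
  · exact (s_mono ha (by linarith : a ≤ 1.4)).trans (by norm_num [sF])
  · have a1 : a ≤ 1.23206 := by linarith
    have r1 := r_lin (k := 0.542) ha a1 (by norm_num)
    have r2 : (3.52105 - 0.542 * a) ^ 2 ≤ w :=
      (pow_le_pow_left₀ (by linarith) (by linarith) 2).trans h2
    refine ⟨by nlinarith, ?_⟩
    rcases le_total a 0.03 with k | k
    · left; nlinarith
    · right
      simp only [piL, lt_min_iff]
      refine ⟨⟨?_, ?_⟩, ⟨?_, ?_⟩, ?_⟩ <;> nlinarith [sq_nonneg a]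

theorem inv (hrb : S_rb) (h3 : S_r3) : S_inv := by
  intro R ⟨hs, a0, a1, hE, hη, hS, hρ, hY⟩
  have u := s3_ub
  obtain ⟨⟨p1, p0, -⟩, ⟨n1, n0, -⟩, -, -, -, ⟨S0, Ss0, Y0, N0, E0, -⟩,
    ⟨-, pY, -, -, nN, -, NE⟩, -, -, -, -, φS, -⟩ := hrb R
  have a2 : R.A ≤ 1.73206 := by linarith
  have ρ0 : 0 ≤ R.rho := add_nonneg p0 n0
  have ρ1 : R.rho ≤ 1.172 := hρ.trans ((r_mono a0 a2).trans (by norm_num [rF]))
  have s1 : R.Ss ≤ 0.76 := hS.trans ((s_mono a0 a2).trans (by norm_num [sF]))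
  obtain ⟨c1, c2, c3, -, c5, c6, -⟩ := h3 R hs (by linarith)
  have q1 : (1.62 : ℝ) ≤ Real.sqrt (4 - R.rho ^ 2) := sq_le ρ0 ρ1 (by norm_num)
  refine ⟨hη.trans ((h_mono a0 a2).trans (by norm_num [hF])), ρ1, ?_, c2.trans s1, c2.trans hS,
    hY.trans ((t_mono a0 a2).trans (by norm_num [tF])),
    fun i => ⟨q1.trans (c1 i), (c3 i).trans (max_le (by nlinarith) (by nlinarith))⟩,
    fun h => ?_, fun h => ?_, fun h => ?_⟩
  · linarith [r_lin (k := 0.67) a0 a2 (by norm_num)]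
  · have a3 : R.A ≤ 1.23206 := by linarith
    exact ⟨hE.trans ((e_mono a0 a3).trans (by norm_num [eF])),
      hη.trans ((h_mono a0 a3).trans (by norm_num [hF])),
      hρ.trans ((r_mono a0 a3).trans (by norm_num [rF])),
      c2.trans (hS.trans ((s_mono a0 a3).trans (by norm_num [sF])))⟩
  · have a3 : R.A ≤ 1.43206 := by linarith
    have ρ2 : R.rho ≤ 0.822 := hρ.trans ((r_mono a0 a3).trans (by norm_num [rF]))
    exact ⟨hY.trans ((t_mono a0 a3).trans (by norm_num [tF])),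
      fun i => (sq_le ρ0 ρ2 (by norm_num)).trans (c1 i)⟩
  · have e0 : eF R.A = 0 := by rw [h]; norm_num [eF]
    have n2 : R.nu = 0 := by linarith
    have N2 : R.N = 0 := by linarith
    rw [h, n2, N2] at c6
    have Y2 : R.Y ≤ 0 := by nlinarith
    have w0 : ∀ i, R.w i = 0 := fun i => by linarith [p1 i, n1 i]
    have T0 : ∑' i, R.T i ^ 2 = 0 := by simp [Row.T, w0]
    rw [T0] at c5
    have S2 : R.Ss ≤ 0 := by nlinarith
    exact fun i => ⟨abs_nonpos_iff.1 (by linarith [φS i]), w0 i⟩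

end Pool.Agent.P.MP_dd077d_co
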