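import Pool.Agent.P.MP_dd077d_co.Iface2

/-! The middle row between two rows that satisfy the invariant. -/

set_option linter.dupNamespace false

namespace Pool.Agent.P.MP_dd077d_co

noncomputable section

namespace Last

open Row

/-- the reflection of a row in the origin -/
def rf (M : Row) : Row where
  φ i := -M.φ (-i)
  w i := -M.w (-i)
  fin := by
    obtain ⟨n, h⟩ := M.fin
    refine ⟨n, fun i hi => ?_⟩
    obtain ⟨h1, h2⟩ := h (-i) (by rwa [abs_neg])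
    rw [h1, h2, neg_zero]
    exact ⟨rfl, rfl⟩

theorem rf_A (M : Row) : (rf M).A = -M.A := by
  unfold Row.A
  rw [← tsum_neg, ← (Equiv.subLeft (-1 : ℤ)).tsum_eq]
  refine tsum_congr fun i => ?_
  simp only [Row.y, rf, Equiv.subLeft_apply]
  rw [show -(-1 - i + 1) = i by ring, show -(-1 - i) = i + 1 by ring]
  ring

/-- the facts known at a point of the middle row -/
def Ok (U M : Row) (e : ℝ) (j : ℤ) : Prop :=
  (|M.φ j| ≤ 0.51 ∧ g |M.φ j| - U.eta ≤ M.w j ∧ g |M.φ j| - e ≤ -M.w j) ∧ CrossAt U M j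

theorem rf_ok {U V M : Row} {j : ℤ}
    (h1 : |M.φ (-j)| ≤ 0.51 ∧ g |M.φ (-j)| - U.eta ≤ M.w (-j) ∧ g |M.φ (-j)| - V.eta ≤ -M.w (-j))
    (h2 : g (-M.φ (-j) - V.φ (- -j)) ≤ -M.w (-j) - V.w (- -j) ∧
      g (V.φ (- -j - 1) + M.φ (-j)) ≤ -M.w (-j) - V.w (- -j - 1)) : Ok V (rf M) U.eta j := by
  rw [neg_neg] at h2
  refine ⟨?_, h2.1, ?_⟩
  · simp only [rf, abs_neg, neg_neg]
    exact ⟨h1.1, h1.2.2, h1.2.1⟩
  · simp only [be, hl, rf, sub_neg_eq_add]
    exact h2.2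

theorem rf_sep {M : Row} {j : ℤ} (h : 4 ≤ (2 + M.y (-j - 1)) ^ 2 + M.T (-j - 1) ^ 2) :
    4 ≤ (2 + (rf M).y j) ^ 2 + (rf M).T j ^ 2 := by
  simp only [Row.y, Row.T, rf] at h ⊢
  rw [show -j - 1 + 1 = -j by ring] at h
  rw [show -(j + 1) = -j - 1 by ring]
  refine h.trans_eq ?_
  ring

/-- signed area of the triangle formed by the point `j` and its neighbours -/
def Z (M : Row) (j : ℤ) : ℝ :=
  ((4 + M.φ (j + 1) - M.φ (j - 1)) * (M.w j - M.w (j - 1)) -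
    (2 + M.φ j - M.φ (j - 1)) * (M.w (j + 1) - M.w (j - 1))) / 2

theorem rf_Z (M : Row) (j : ℤ) : Z (rf M) (-j) = -Z M j := by
  simp only [Z, rf]
  rw [show -(-j + 1) = j - 1 by ring, show -(-j - 1) = j + 1 by ring, neg_neg]
  ring

section

variable (hg : S_g) (hrb : S_rb) (hid : S_id) (hi : S_inv) (hv : S_vt) (hh : S_half)
  {U M : Row} {e : ℝ} (hU : U.Inv) (he : e ≤ 0.205)

include hg hi hU he in
theorem w_bd {j : ℤ} (h : Ok U M e j) : -0.205 ≤ M.w j ∧ M.w j ≤ 0.205 := by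
  have h1 := hg.2.2.2.2.2.2.2.2.2.2.2.2.2 _ (abs_nonneg (M.φ j)) (by linarith [h.1.1])
  have h2 := (hi U hU).1
  have h3 := abs_nonneg (M.φ j)
  constructor <;> linarith [h.1.2.1, h.1.2.2]

include hrb hi hU in
theorem u_bd (j : ℤ) : |U.φ j| ≤ 0.76 ∧ -U.w j ≤ 0.205 := by
  obtain ⟨-, h2, -, -, -, -, h7, -, h9⟩ := hrb U
  obtain ⟨a1, -, -, a4, -⟩ := hi U hU
  exact ⟨(h9.2.2.2.1 j).trans a4, (h2.1 j).trans (h7.2.2.2.2.2.1.trans a1)⟩

include hg hrb hi hv hU he in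
theorem cD_nn {j : ℤ} (h : Ok U M e j) : 0 ≤ cD U M j := by
  have a1 := w_bd hg hi hU he h
  have a2 := u_bd hrb hi hU j
  have a3 := u_bd hrb hi hU (j - 1)
  have a4 := (hi U hU).2.2.2.2.2.2.1 (j - 1)
  have a5 := (hU.1 (j - 1)).2
  have a6 := abs_le.1 h.1.1
  have a7 := abs_le.1 a2.1
  have a8 := abs_le.1 a3.1
  have e1 : 1 - al U M j + (1 - be U M j) = 2 + U.y (j - 1) := by
    simp only [al, be, Row.y, sub_add_cancel]; ring
  have e2 : hl U M j - hr U M j = U.T (j - 1) := by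
    simp only [hl, hr, Row.T, sub_add_cancel]; ring
  refine hv _ _ _ _ (abs_le.2 ?_) (abs_le.2 ?_) h.2.1 h.2.2 ?_ ?_ ?_ ?_ ?_
  · unfold al; constructor <;> linarith
  · unfold be; constructor <;> linarith
  · unfold hr; linarith
  · unfold hl; linarith
  · rw [e1]; linarith
  · rw [e1, e2]; exact a5
  · rw [e1, e2]; linarith

include hg hrb hi hv hU he in
theorem cU_nn {j : ℤ} (h : Ok U M e j) (h' : Ok U M e (j + 1))
    (hs : 4 ≤ (2 + M.y j) ^ 2 + M.T j ^ 2) : 0 ≤ cU U M j := by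
  have a1 := w_bd hg hi hU he h
  have a2 := u_bd hrb hi hU j
  have a3 := w_bd hg hi hU he h'
  have a6 := abs_le.1 h.1.1
  have a7 := abs_le.1 a2.1
  have a8 := abs_le.1 h'.1.1
  have e1 : 1 - al U M j + (1 - be U M (j + 1)) = 2 + M.y j := by
    simp only [al, be, Row.y, add_sub_cancel_right]; ring
  have e2 : hl U M (j + 1) - hr U M j = M.T j := by
    simp only [hl, hr, Row.T, add_sub_cancel_right]; ring
  have b1 : -1.02 ≤ M.y j ∧ M.y j ≤ 1.02 := by unfold Row.y; constructor <;> linarith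
  have b2 : -0.41 ≤ M.T j ∧ M.T j ≤ 0.41 := by unfold Row.T; constructor <;> linarith
  refine hv _ _ _ _ (abs_le.2 ?_) (abs_le.2 ?_) h.2.1 h'.2.2 ?_ ?_ ?_ ?_ ?_
  · unfold al; constructor <;> linarith
  · simp only [be, add_sub_cancel_right]; constructor <;> linarith
  · unfold hr; linarith
  · simp only [hl, add_sub_cancel_right]; linarith
  · rw [e1]; linarith
  · rw [e1, e2]; exact hs
  · rw [e1, e2]; nlinarith

include hg hrb hid hi hv hU he in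
theorem full (h : ∀ j, Ok U M e j) (hs : ∀ j, 4 ≤ (2 + M.y j) ^ 2 + M.T j ^ 2) :
    0 ≤ M.A - U.A := by
  rw [(hid U M).2.2]
  exact tsum_nonneg fun j => add_nonneg (cU_nn hg hrb hi hv hU he (h j) (h _) (hs j))
    (cD_nn hg hrb hi hv hU he (h j))

include hg hrb hid hi hv hh hU he in
theorem half (he0 : 0 ≤ e) {j0 : ℤ} (h : ∀ j, j ≠ j0 → Ok U M e j)
    (hs : ∀ j, j ≠ j0 → j + 1 ≠ j0 → 4 ≤ (2 + M.y j) ^ 2 + M.T j ^ 2) :
    ((U.eta + e) / 2 ≤ 0.135 → Z M j0 - 0.7 ≤ M.A - U.A) ∧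
    ((U.eta + e) / 2 ≤ 0.028 → U.S ≤ 0.34 → Z M j0 - 12 * ((U.eta + e) / 2) ≤ M.A - U.A) := by
  obtain ⟨s1, s2, s3'⟩ := hid U M
  have b1 := s1.sum_le_tsum {j0 - 1, j0} fun j hj => by
    simp only [Finset.mem_insert, Finset.mem_singleton, not_or] at hj
    exact cU_nn hg hrb hi hv hU he (h j hj.2) (h _ (by omega)) (hs j hj.2 (by omega))
  have b2 := s2.sum_le_tsum {j0} fun j hj =>
    cD_nn hg hrb hi hv hU he (h j (by simpa using hj))
  rw [Finset.sum_pair (by omega)] at b1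
  rw [Finset.sum_singleton] at b2
  rw [s1.tsum_add s2] at s3'
  obtain ⟨-, -, r3, -, -, -, -, -, r9⟩ := hrb U
  have oL := h (j0 - 1) (by omega)
  have oR := h (j0 + 1) (by omega)
  have pe : ∀ j, -U.eta ≤ U.w j + g (-|U.φ j|) := fun j => by
    have := r3.1 j
    unfold ah bh at this
    rcases abs_cases (U.φ j) with c | c
    · rw [c.1]; linarith [this.2]
    · rw [c.1, neg_neg]; linarith [this.1]
  have c1 := oL.2.1
  have c2 := oR.2.2
  have c3 := hU.1 (j0 - 1)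
  have c4 := (r9.2.2.2.2 (j0 - 1)).trans (hi U hU).2.1
  simp only [al, be, hr, hl, Row.y, Row.T, add_sub_cancel_right, sub_add_cancel] at c1 c2 c3 c4
  have key := hh ((U.eta + e) / 2) (M.φ (j0 - 1)) (M.φ (j0 + 1))
    (M.w (j0 - 1) + (U.eta - e) / 2) (M.w (j0 + 1) + (U.eta - e) / 2) (U.φ (j0 - 1)) (U.φ j0)
    (U.w (j0 - 1) + (U.eta - e) / 2) (U.w j0 + (U.eta - e) / 2) (by linarith [r3.2.1])
    (by linarith [oL.1.1]) (by linarith [oR.1.1])
    (abs_le.2 ⟨by linarith [oL.1.2.1], by linarith [oL.1.2.2]⟩)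
    (abs_le.2 ⟨by linarith [oR.1.2.1], by linarith [oR.1.2.2]⟩)
    (u_bd hrb hi hU _).1 (u_bd hrb hi hU _).1 (by linarith [pe (j0 - 1)]) (by linarith [pe j0])
    (by rwa [add_sub_add_right_eq_sub, abs_sub_comm]) (by linarith) (by linarith) c3.1
    (by rw [add_sub_add_right_eq_sub]; exact c3.2)
  have id : cU U M (j0 - 1) + cU U M j0 + cD U M j0 = Z M j0 - 3 * s3 +
      ((s3 + (M.w (j0 - 1) + (U.eta - e) / 2) - (U.w (j0 - 1) + (U.eta - e) / 2)) *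
          (3 + U.φ j0 - M.φ (j0 - 1)) +
        (s3 + (M.w (j0 + 1) + (U.eta - e) / 2) - (U.w j0 + (U.eta - e) / 2)) *
          (3 + M.φ (j0 + 1) - U.φ (j0 - 1)) +
        (M.w (j0 + 1) + (U.eta - e) / 2 - (M.w (j0 - 1) + (U.eta - e) / 2)) *
          (U.φ (j0 - 1) - M.φ (j0 - 1) - (M.φ (j0 + 1) - U.φ j0))) / 2 := by
    simp only [cU, cD, Z, al, be, hr, hl, add_sub_cancel_right, sub_add_cancel]
    ring
  refine ⟨fun h1 => ?_, fun h1 h2 => ?_⟩
  · linarith [key.1 h1]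
  · linarith [key.2 h1 ((r9.2.2.2.1 _).trans h2) ((r9.2.2.2.1 _).trans h2)]

end

end Last

theorem last (hg : S_g) (hrb : S_rb) (hid : S_id) (hi : S_inv) (hp : S_poly) (hv : S_vt)
    (hh : S_half) : S_last := by
  intro U V M j0 hU hV h1 h2 h3 h4 h5
  have t := Last.half hg hrb hid hi hv hh hU (hi V hV).1 (hrb V).2.2.1.2.1
    (fun j hj => ⟨h1 j hj, h2 j hj⟩) h4
  have b := Last.half (M := Last.rf M) (j0 := -j0) hg hrb hid hi hv hh hV (hi U hU).1
    (hrb U).2.2.1.2.1 (fun j hj => Last.rf_ok (h1 _ (by omega)) (h3 _ (by omega)))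
    fun j hj hj' => Last.rf_sep (h4 _ (by omega) (by omega))
  rw [Last.rf_A, Last.rf_Z] at b
  have u0 := hU.2.1
  have v0 := hV.2.1
  have u1 := hU.2.2.2.2.1
  have v1 := hV.2.2.2.2.1
  have p1 := hp.1 _ _ u0 v0 hU.2.2.1 hV.2.2.1 h5
  have q1 : U.A + V.A ≤ 1.4 := by linarith [t.1 (by linarith), b.1 (by linarith)]
  have p2 := hp.2.1 _ _ u0 v0 q1
  have p3 := hp.2.1 _ _ v0 u0 (by linarith)
  have t2 := t.2 (by linarith [p2.1]) ((hi U hU).2.2.2.2.1.trans p2.2)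
  have b2 := b.2 (by linarith [p2.1]) ((hi V hV).2.2.2.2.1.trans p3.2)
  constructor <;> linarith [p2.1]

theorem last0 (hg : S_g) (hrb : S_rb) (hid : S_id) (hi : S_inv) (_hp : S_poly) (hv : S_vt)
    (_hh : S_half) : S_last0 := by
  intro U V M hU hV h1 h2 h3 h4
  have t := Last.full hg hrb hid hi hv hU (hi V hV).1 (fun j => ⟨h1 j, h2 j⟩) h4
  have b := Last.full (M := Last.rf M) hg hrb hid hi hv hV (hi U hU).1
    (fun j => Last.rf_ok (h1 _) (h3 _)) fun j => Last.rf_sep (h4 _)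
  rw [Last.rf_A] at b
  linarith

end

end Pool.Agent.P.MP_dd077d_co
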