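import Pool.Agent.P.MP_dd077d_co.Iface3
import Pool.Agent.P.MP_dd077d_co.Hgf

/-!
The chain below a low wall.
-/

set_option linter.dupNamespace false

namespace Pool.Agent.P.MP_dd077d_co

namespace Low

variable {T : DT0} {a : ℤ} {W : Wall T a}

lemma turn (c v v' m : ℂ) (h1 : 0 < cross c v m) (h2 : 0 < cross v' v c) (h3 : c.im ≤ m.im)
    (h4 : c.im < v.im) (h5 : c.im < v'.im) : 0 < cross c v' m := by
  have e : (v.im - c.im) * cross c v' m =
      (m.im - c.im) * cross v' v c + (v'.im - c.im) * cross c v m := by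
    unfold cross; ring
  have h6 : 0 < (v.im - c.im) * cross c v' m := by
    rw [e]
    exact add_pos_of_nonneg_of_pos (mul_nonneg (by linarith) h2.le) (mul_pos (by linarith) h1)
  exact (mul_pos_iff_of_pos_left (by linarith)).1 h6

lemma J_mono (st : Strip W) : Monotone fun k : ℤ => k - st.I k := by
  refine monotone_int_of_le_succ fun k => ?_
  rcases st.step k with h | h <;> (rw [h.1]; omega)

lemma c_inj (st : Strip W) : Function.Injective st.c := by
  have h : StrictMono fun j : ℤ => (st.c j).re := strictMono_int_of_lt_succ st.mono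
  intro i j e
  exact h.injective (by simp only [e])

lemma orient (st : Strip W) (j k1 k2 : ℤ) (e1 : k1 - st.I k1 = j - 1) (s1 : st.I (k1 + 1) = st.I k1)
    (e2 : k2 - st.I k2 = j) (hlow : (st.c j).im ≤ (st.c (j - 1)).im)
    (hv : ∀ i, (st.c j).im < (W.v i).im) : 0 < cross (st.c j) (W.v (st.I k2)) (st.c (j - 1)) := by
  have hm := J_mono st
  have hlt : k1 + 1 ≤ k2 := by
    by_contra hc
    have := hm (show k2 ≤ k1 by omega)
    simp only at this
    omega
  have key : ∀ k, k1 + 1 ≤ k → k ≤ k2 → 0 < cross (st.c j) (W.v (st.I k)) (st.c (j - 1)) := by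
    intro k hk
    induction k, hk using Int.leInduction with
    | base =>
      intro _
      rcases st.step k1 with h | h
      · omega
      · have h2 := T.ccw h.2
        rw [e1, sub_add_cancel] at h2
        rw [s1, ← cross_rot]
        exact h2
    | succ k hk ih =>
      intro hk2
      have a1 := hm hk
      have a2 := hm hk2
      have a3 := hm (show k ≤ k + 1 by omega)
      simp only at a1 a2 a3
      rcases st.step k with h | h
      · have h2 := T.ccw h.2
        have e3 : k - st.I k = j := by omega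
        rw [e3] at h2
        rw [h.1]
        exact turn _ _ _ _ (ih (by omega)) h2 hlow (hv _) (hv _)
      · have := h.1
        omega
  exact key k2 hlt le_rfl

lemma rF_le {A : ℝ} (h0 : 0 ≤ A) (h : A ≤ 2) : rF A ≤ 3 := by
  have h4 : A ^ 4 ≤ 2 ^ 4 := by gcongr
  have h8 : A ^ 8 ≤ 2 ^ 8 := by gcongr
  have h16 : A ^ 16 ≤ 2 ^ 16 := by gcongr
  unfold rF
  norm_num at h4 h8 h16 ⊢
  linarith

end Low

theorem low (hp : S_pair) (hi : S_inv) (hq : S_poly) (hrb : S_rb) (hm : S_met) (hs : S_sb) :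
    S_low := by
  intro T a W st C hno hch hA hB
  have hinv : W.U.Inv := (W.inv a le_rfl).1
  obtain ⟨hE, heta, -, -⟩ := (hi W.U hinv).2.2.2.2.2.2.2.1 hA
  have hre : ∀ j, (st.c j).re = 2 * (j : ℝ) + ((a : ℝ) - 1) + C.φ j := fun j => by rw [hch j]
  have him : ∀ j, (st.c j).im = s3 * ((a : ℝ) - 1) - C.w j := fun j => by rw [hch j]
  have hdep : ∀ j, W.dep (st.c j) = C.w j := fun j => by
    unfold Wall.dep; rw [him]; ring
  obtain ⟨hm1, hm2⟩ := hm T a W
  have hm3 := fun j => hm1 (st.c j) (st.cmem j).1 (st.cmem j).2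
  obtain ⟨b1, b2, -, -, -, b6, -, -, -, -, -, b12⟩ := hs T a W st hno
  refine ⟨?_, fun j => ⟨?_, ?_⟩, ?_, ?_⟩
  · unfold Chain.N
    refine tsum_le_of_sum_le' (by norm_num) fun s => ?_
    classical
    have h1 := hm2 (s.image st.c) (fun z hz => by
      obtain ⟨j, -, rfl⟩ := Finset.mem_image.1 hz
      exact st.cmem j)
    rw [Finset.sum_image (fun i _ j _ e => Low.c_inj st e)] at h1
    simp only [hdep] at h1
    linarith
  · have := (hm3 j).2.1
    rw [hdep] at this
    linarith
  · by_contra hc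
    have hc := not_le.1 hc
    obtain ⟨k, e1, -⟩ := b6 j
    obtain ⟨x, t2, e2⟩ := b2 k
    have t1 := b1 k
    have hb := b12 _ hB {k, k - 1}
    rw [Finset.sum_pair (by omega), e2] at hb
    unfold Strip.tri at hb
    rw [e1] at t1 t2 hb
    obtain ⟨-, p2, p3⟩ := hp T _ _ _ _ t1 t2
    have hA0 : 0 ≤ W.U.A := hinv.2.1
    have hr : W.U.rho ≤ rF W.U.A := hinv.2.2.2.2.2.2.1
    have hw : W.U.w (st.I k) ≤ W.U.P := (hrb W.U).1.1 _
    have hnu : 0 ≤ W.U.nu := (hrb W.U).2.1.2.1
    have hs1 := s3_lb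
    have hs2 := s3_ub
    have hr3 := Low.rF_le hA0 (by linarith)
    have hv : (W.v (st.I k)).im = s3 * (a : ℝ) - W.U.w (st.I k) := rfl
    have hge : (s3 + 1.8 - rF W.U.A) ^ 2 ≤ nsq (W.v (st.I k) - st.c j) := by
      rw [nsq_sub]
      have h1 : s3 + 1.8 - rF W.U.A ≤ (W.v (st.I k)).im - (st.c j).im := by
        rw [hv, him]
        unfold Row.rho at hr
        linarith
      have h2 : (s3 + 1.8 - rF W.U.A) ^ 2 ≤ ((W.v (st.I k)).im - (st.c j).im) ^ 2 :=
        pow_le_pow_left₀ (by linarith) h1 2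
      nlinarith [sq_nonneg ((W.v (st.I k)).re - (st.c j).re)]
    obtain ⟨q1, q2 | q2⟩ := hq.2.2 _ _ hA0 hA hge
    · have := p3 q2
      linarith
    · have := p2 q1
      linarith
  · intro j h1 h2
    obtain ⟨k1, e1, s1⟩ := b6 (j - 1)
    obtain ⟨k2, e2, s2⟩ := b6 j
    have l1 : (st.c j).im ≤ (st.c (j - 1)).im := by rw [him, him]; linarith
    have l2 : (st.c j).im ≤ (st.c (j + 1)).im := by rw [him, him]; linarith
    have ho := Low.orient st j k1 k2 e1 s1 e2 l1 (hm3 j).1
    have ht : T.Tri (W.v (st.I k2)) (st.c j) (st.c (j + 1)) := by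
      rcases st.step k2 with h | h
      · omega
      · have := h.2
        rwa [e2] at this
    have m1 : (st.c (j - 1)).re < (st.c j).re := by
      have := st.mono (j - 1)
      rwa [sub_add_cancel] at this
    have hg := gab T _ _ _ _ ht (st.cmem (j - 1)).1 m1 (st.mono j) l1 l2 ((hm3 _).1 _)
      ((hm3 _).1 _) ho
    rw [nsq_sub, hre, hre, him, him] at hg
    unfold Chain.dx
    rw [sub_add_cancel]
    push_cast at hg
    nlinarith
  · intro j m h
    have e : (st.c j).re - (2 * ((j + m : ℤ) : ℝ) + ((a : ℝ) - 1)) = C.φ j - 2 * m := by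
      rw [hre]; push_cast; ring
    have := (hm3 j).2.2.1 (j + m) (by rw [e]; exact h)
    rw [e, hdep] at this
    linarith

end Pool.Agent.P.MP_dd077d_co
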