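import Pool.Agent.P.MP_dd077d_co.Iface3

/-!
Points that are not identified lie below the wall, in its grooves.
-/

set_option linter.dupNamespace false

namespace Pool.Agent.P.MP_dd077d_co

namespace Met

/-- the depth below one side of a groove -/
lemma dir (hg : S_g) {t φ w d η : ℝ} (t0 : 0 ≤ t) (t1 : t ≤ 1) (hφ : |φ| ≤ 0.76) (hη : η ≤ 0.205)
    (h : g (t - φ) ≤ d - w) (ha : -(w + g φ) ≤ η) (hb : -(w + g (-φ)) ≤ η) :
    g t - η ≤ d ∧ max (-d) 0 ≤ max (-(w + g (-φ))) 0 := by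
  obtain ⟨g0, -, gs, gm, gc, -, gp, gd, -, -, -, -, -, gl⟩ := hg
  obtain ⟨p1, p2⟩ := abs_le.1 hφ
  have h1 := gl t t0 t1
  rcases le_total 0 φ with h0 | h0
  · have h2 := gc (-φ) 0 t (by linarith) (by linarith) t0 (by linarith)
    rw [zero_add, g0, neg_add_eq_sub] at h2
    exact ⟨by linarith, max_le_max (by linarith) le_rfl⟩
  · have h2 := gp t (-φ) t0 t1 (by linarith) (by linarith)
    have h3 := gd (-φ) (by linarith) (by linarith)
    rw [neg_neg] at h3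
    rw [← sub_eq_add_neg] at h2
    have h4 : t * -φ ≤ -φ := mul_le_of_le_one_left (by linarith) t1
    refine ⟨by linarith, ?_⟩
    rcases le_total (t - φ) 1 with h5 | h5
    · have := gm (-φ) (t - φ) (by linarith) h5
      exact max_le_max (by linarith) le_rfl
    rcases le_total (t - φ) (2 + φ) with h6 | h6
    · have := gm (-φ) (2 - (t - φ)) (by linarith) (by linarith)
      rw [gs] at this
      exact max_le_max (by linarith) le_rfl
    · exact max_le (le_max_of_le_right (by linarith)) (le_max_right _ _)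

lemma deep {φ w : ℤ → ℝ} {X e : ℝ} (hφ : ∀ i, |φ i| ≤ 0.76) (hy : ∀ i, |φ (i + 1) - φ i| ≤ 0.76)
    (hw : ∀ i, -0.205 ≤ w i ∧ w i ≤ 1.172) (he : -0.21 ≤ e)
    (hs : ∀ i : ℤ, 4 ≤ (X - (2 * i + 1 + φ i)) ^ 2 + (e - w i) ^ 2) : 1.242 ≤ e := by
  obtain ⟨i, h1, h2⟩ := Int.exists_greatest_of_bdd (P := fun i : ℤ => 2 * i + 1 + φ i ≤ X)
    ⟨⌈X / 2⌉, fun i hi => by
      have h1 := (abs_le.1 (hφ i)).1
      have h2 := Int.le_ceil (X / 2)
      exact_mod_cast (show (i : ℝ) ≤ ⌈X / 2⌉ by linarith)⟩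
    ⟨⌊X / 2⌋ - 1, by
      have h1 := (abs_le.1 (hφ (⌊X / 2⌋ - 1))).2
      have h2 := Int.floor_le (X / 2)
      push_cast
      linarith⟩
  have h3 : X < 2 * ((i + 1 : ℤ) : ℝ) + 1 + φ (i + 1) := by
    by_contra h
    have := h2 (i + 1) (not_lt.1 h)
    omega
  have key : ∀ j : ℤ, |X - (2 * j + 1 + φ j)| ≤ 1.38 → 1.242 ≤ e := fun j hj => by
    have h4 := hs j
    have h5 : (X - (2 * j + 1 + φ j)) ^ 2 ≤ 1.38 ^ 2 := sq_le_sq' (abs_le.1 hj).1 (abs_le.1 hj).2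
    obtain ⟨h6, h7⟩ := hw j
    by_contra h8
    have h9 : (e - w j) ^ 2 ≤ 1.447 ^ 2 := sq_le_sq' (by linarith) (by linarith)
    norm_num at h5 h9
    linarith
  have h4 := (abs_le.1 (hy i)).2
  rcases le_total (X - (2 * i + 1 + φ i)) 1.38 with h5 | h5
  · exact key i (abs_le.2 ⟨by linarith, h5⟩)
  · refine key (i + 1) (abs_le.2 ⟨?_, by linarith⟩)
    push_cast
    linarith

lemma g_le {x u e : ℝ} (he : 0 ≤ e) (hu : u ^ 2 = (1 - x) ^ 2) (h : 4 ≤ u ^ 2 + e ^ 2) :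
    g x ≤ e - s3 :=
  sub_le_sub_right (Real.sqrt_le_iff.2 ⟨he, by linarith⟩) _

lemma slot {Z : Finset ℂ} {σ : ℂ → ℤ} {F : ℤ → ℝ} {h : ℂ → ℝ} (hF : Summable F)
    (h0 : ∀ i, 0 ≤ F i) (hσ : Set.InjOn σ Z) (hh : ∀ z ∈ Z, h z ≤ F (σ z)) :
    ∑ z ∈ Z, h z ≤ ∑' i, F i := by
  refine (Finset.sum_le_sum hh).trans ?_
  rw [← Finset.sum_image hσ]
  exact hF.sum_le_tsum _ fun i _ => h0 i

lemma summ (R : Row) {F : ℤ → ℝ} (h : ∀ i, R.φ i = 0 → R.w i = 0 → F i = 0) : Summable F := by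
  obtain ⟨n, hn⟩ := R.fin
  refine summable_of_ne_finset_zero (s := Finset.Icc (-(n : ℤ)) n) fun i hi => ?_
  have h1 : (n : ℤ) ≤ |i| := by
    rw [Finset.mem_Icc, ← abs_le] at hi
    omega
  exact h i (hn i h1).1 (hn i h1).2

lemma near (x : ℝ) (c : ℝ) : |x - (2 * (round ((x - c) / 2) : ℤ) + c)| ≤ 1 := by
  have h := abs_le.1 (abs_sub_round ((x - c) / 2))
  exact abs_le.2 ⟨by linarith [h.1], by linarith [h.2]⟩

end Met

open Met in
theorem met (hg : S_g) (hi : S_inv) (hrb : S_rb) (hw : S_wb) : S_met := by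
  intro T a W
  obtain ⟨i1, i2, -, i3, -⟩ := hi W.U (W.inv a le_rfl).1
  obtain ⟨⟨r1, r2, -⟩, ⟨r3, r4, -⟩, ⟨r5, -, -⟩, -, -, -, ⟨-, -, -, -, -, r6, -⟩, -,
    -, -, r7, r8, -⟩ := hrb W.U
  have hv := (hw T a W).2.2.1
  have b1 : ∀ i, |W.U.φ i| ≤ 0.76 := fun i => (r8 i).trans i3
  have b2 : ∀ i, -0.205 ≤ W.U.w i ∧ W.U.w i ≤ 1.172 := fun i => by
    rw [Row.rho] at i2
    exact ⟨by linarith [r3 i], by linarith [r1 i]⟩
  have hs : ∀ z ∈ T.pts, z ∉ W.L → ∀ i : ℤ,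
      4 ≤ (z.re - ((a : ℝ) - 1) - (2 * i + 1 + W.U.φ i)) ^ 2 + (s3 + W.dep z - W.U.w i) ^ 2 := by
    intro z hz hL i
    have h := T.sep z hz _ (hv i).2.2 fun e => hL (e ▸ (hv i).1)
    rw [nsq_sub] at h
    refine h.trans_eq ?_
    simp only [Wall.v, pt, Wall.dep, Wall.U]
    ring
  have hd : ∀ z ∈ T.pts, z ∉ W.L → 1.242 ≤ s3 + W.dep z := fun z hz hL =>
    deep b1 (fun i => (r7 _ _).trans i3) b2
      (by have := W.low z hz hL; rw [Wall.dep]; linarith) (hs z hz hL)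
  have h4 : ∀ z ∈ T.pts, z ∉ W.L → ∀ j : ℤ,
      g ((z.re - (2 * j + ((a : ℝ) - 1))) - W.U.φ j) ≤ W.dep z - W.U.w j ∧
      g (W.U.φ (j - 1) - (z.re - (2 * j + ((a : ℝ) - 1)))) ≤ W.dep z - W.U.w (j - 1) := by
    intro z hz hL j
    have h1 := hd z hz hL
    constructor
    · refine (g_le (by linarith [(b2 j).2]) ?_ (hs z hz hL j)).trans_eq (by ring)
      ring
    · refine (g_le (by linarith [(b2 (j - 1)).2]) ?_ (hs z hz hL (j - 1))).trans_eq (by ring)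
      push_cast
      ring
  have hR : ∀ z ∈ T.pts, z ∉ W.L → ∀ m : ℤ, |z.re - (2 * m + ((a : ℝ) - 1))| ≤ 1 →
      0 ≤ z.re - (2 * m + ((a : ℝ) - 1)) →
      g |z.re - (2 * m + ((a : ℝ) - 1))| - W.U.eta ≤ W.dep z ∧
        max (-W.dep z) 0 ≤ max (-W.U.bh m) 0 := fun z hz hL m h1 h2 => by
    rw [abs_of_nonneg h2] at h1 ⊢
    exact dir hg h2 h1 (b1 m) i1 (h4 z hz hL m).1 (r5 m).1 (r5 m).2
  have hL' : ∀ z ∈ T.pts, z ∉ W.L → ∀ m : ℤ, |z.re - (2 * m + ((a : ℝ) - 1))| ≤ 1 →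
      z.re - (2 * m + ((a : ℝ) - 1)) ≤ 0 →
      g |z.re - (2 * m + ((a : ℝ) - 1))| - W.U.eta ≤ W.dep z ∧
        max (-W.dep z) 0 ≤ max (-W.U.ah (m - 1)) 0 := fun z hz hL m h1 h2 => by
    rw [abs_of_nonpos h2] at h1 ⊢
    have h3 := (h4 z hz hL m).2
    have h5 := dir hg (φ := -W.U.φ (m - 1)) (neg_nonneg.2 h2) h1 (by rw [abs_neg]; exact b1 _) i1
      (by rw [neg_sub_neg]; exact h3) (r5 (m - 1)).2 (by rw [neg_neg]; exact (r5 (m - 1)).1)
    rwa [neg_neg] at h5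
  have h3 : ∀ z ∈ T.pts, z ∉ W.L → ∀ m : ℤ, |z.re - (2 * m + ((a : ℝ) - 1))| ≤ 1 →
      g |z.re - (2 * m + ((a : ℝ) - 1))| - W.U.eta ≤ W.dep z := fun z hz hL m h1 =>
    (le_total 0 _).elim (fun h => (hR z hz hL m h1 h).1) fun h => (hL' z hz hL m h1 h).1
  have h2 : ∀ z ∈ T.pts, z ∉ W.L → -W.U.eta ≤ W.dep z := fun z hz hL => by
    have h5 := near z.re ((a : ℝ) - 1)
    have h6 := h3 z hz hL _ h5
    have h7 := hg.2.2.2.2.2.2.2.2.2.2.2.2.2 _ (abs_nonneg _) h5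
    linarith [abs_nonneg (z.re - (2 * (round ((z.re - ((a : ℝ) - 1)) / 2) : ℤ) + ((a : ℝ) - 1)))]
  refine ⟨fun z hz hL => ⟨fun i => ?_, h2 z hz hL, h3 z hz hL, h4 z hz hL⟩, fun Z hZ => ?_⟩
  · have h5 := hd z hz hL
    have h6 := (b2 i).2
    simp only [Wall.v, pt, Wall.dep, Wall.U] at h5 h6 ⊢
    linarith
  classical
  obtain ⟨m, hm⟩ : ∃ m : ℂ → ℤ, ∀ z : ℂ, |z.re - (2 * m z + ((a : ℝ) - 1))| ≤ 1 :=
    ⟨_, fun z => near z.re _⟩
  have inj : ∀ z ∈ Z, ∀ z' ∈ Z, W.dep z < 0 → W.dep z' < 0 → |z.re - z'.re| ≤ 1 → z = z' := by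
    intro z hz z' hz' d1 d2 h
    by_contra hne
    have h5 := T.sep z (hZ z hz).1 z' (hZ z' hz').1 hne
    have h6 := h2 z (hZ z hz).1 (hZ z hz).2
    have h7 := h2 z' (hZ z' hz').1 (hZ z' hz').2
    rw [nsq_sub] at h5
    rw [Wall.dep] at d1 d2 h6 h7
    have h8 : (z.re - z'.re) ^ 2 ≤ 1 ^ 2 := sq_le_sq' (abs_le.1 h).1 (abs_le.1 h).2
    have h9 : (z.im - z'.im) ^ 2 ≤ 1 ^ 2 := sq_le_sq' (by linarith) (by linarith)
    linarith
  have sa : Summable fun i => max (-W.U.ah i) 0 := summ W.U fun i e1 e2 => by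
    simp [Row.ah, e1, e2, hg.1]
  have sb : Summable fun i => max (-W.U.bh i) 0 := summ W.U fun i e1 e2 => by
    simp [Row.bh, e1, e2, hg.1]
  rw [Row.E, sa.tsum_add sb, ← Finset.sum_filter_of_ne (p := fun z => W.dep z < 0)
    (fun z _ h => by
      by_contra h5
      exact h (max_eq_right (by linarith))),
    ← Finset.sum_filter_add_sum_filter_not _ fun z => z.re - (2 * m z + ((a : ℝ) - 1)) ≤ 0]
  refine add_le_add (slot (σ := fun z => m z - 1) sa (fun _ => le_max_right _ _) ?_ ?_)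
    (slot (σ := m) sb (fun _ => le_max_right _ _) ?_ ?_)
  · intro z hz z' hz' e
    simp only [Finset.coe_filter, Finset.mem_filter, Set.mem_ofPred_eq] at hz hz'
    have e1 : (m z : ℝ) = m z' := by exact_mod_cast sub_left_injective e
    have h5 := (abs_le.1 (hm z)).1
    have h6 := (abs_le.1 (hm z')).1
    exact inj z hz.1.1 z' hz'.1.1 hz.1.2 hz'.1.2
      (abs_le.2 ⟨by linarith [hz'.2], by linarith [hz.2]⟩)
  · intro z hz
    simp only [Finset.mem_filter] at hz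
    exact (hL' z (hZ z hz.1.1).1 (hZ z hz.1.1).2 _ (hm z) hz.2).2
  · intro z hz z' hz' e
    simp only [Finset.coe_filter, Finset.mem_filter, Set.mem_ofPred_eq, not_le] at hz hz'
    have e1 : (m z : ℝ) = m z' := by exact_mod_cast e
    have h5 := (abs_le.1 (hm z)).2
    have h6 := (abs_le.1 (hm z')).2
    exact inj z hz.1.1 z' hz'.1.1 hz.1.2 hz'.1.2
      (abs_le.2 ⟨by linarith [hz.2], by linarith [hz'.2]⟩)
  · intro z hz
    simp only [Finset.mem_filter, not_le] at hz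
    exact (hR z (hZ z hz.1.1).1 (hZ z hz.1.1).2 _ (hm z) hz.2.le).2

end Pool.Agent.P.MP_dd077d_co
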