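import Pool.Agent.P.MP_dd077d_co.Iface3

/-!
The middle row between two walls at distance two, and the end game.
-/

set_option linter.dupNamespace false

namespace Pool.Agent.P.MP_dd077d_co

noncomputable section

open Classical

namespace MidAux

lemma neg_site (r j : ℤ) : -site r j = site (-r) (-j) := by
  apply Complex.ext
  · simp only [Complex.neg_re, site_re]; push_cast; ring
  · simp only [Complex.neg_im, site_im]; push_cast; ring

lemma pt_site (R : Row) (r j : ℤ) (h1 : R.φ j = 0) (h2 : R.w j = 0) : pt R r j = site r j := by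
  apply Complex.ext
  · simp [pt, h1]
  · simp [pt, h2]

variable {T : DT0} {a b : ℤ}

lemma neg_mem {z : ℂ} (hz : z ∈ T.pts) : -z ∈ T.neg.pts := by
  show -(-z) ∈ T.pts
  rwa [neg_neg]

lemma cast_b (hab : a + b = 2) : (b : ℝ) = 2 - a := by
  have : ((a + b : ℤ) : ℝ) = 2 := by rw [hab]; norm_num
  push_cast at this
  linarith

lemma dep_neg (W : Wall T a) (W' : Wall T.neg b) (hab : a + b = 2) (z : ℂ) :
    W'.dep (-z) = -W.dep z := by
  unfold Wall.dep
  rw [cast_b hab, Complex.neg_im]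
  ring

lemma re_neg (hab : a + b = 2) (z : ℂ) (j : ℤ) :
    (-z).re - (2 * ((-j : ℤ) : ℝ) + ((b : ℝ) - 1)) = -(z.re - (2 * j + ((a : ℝ) - 1))) := by
  rw [cast_b hab, Complex.neg_re]
  push_cast
  ring

/-- the two groove inequalities at a middle point -/
lemma groove (hm : S_met) (W : Wall T a) (W' : Wall T.neg b) (hab : a + b = 2) {z : ℂ}
    (hz : Mid W W' z) (j : ℤ) (hj : |z.re - (2 * j + ((a : ℝ) - 1))| ≤ 1) :
    g |z.re - (2 * j + ((a : ℝ) - 1))| - W.U.eta ≤ W.dep z ∧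
    g |z.re - (2 * j + ((a : ℝ) - 1))| - W'.U.eta ≤ -W.dep z := by
  refine ⟨((hm T a W).1 z hz.1 hz.2.1).2.2.1 j hj, ?_⟩
  have h := ((hm T.neg b W').1 (-z) (neg_mem hz.1) hz.2.2).2.2.1 (-j)
  rw [re_neg hab, abs_neg, dep_neg W W' hab] at h
  exact h hj

lemma nearest (x : ℝ) (c : ℝ) : ∃ j : ℤ, |x - (2 * j + c)| ≤ 1 := by
  refine ⟨round ((x - c) / 2), ?_⟩
  have h := abs_sub_round ((x - c) / 2)
  have e : x - (2 * (round ((x - c) / 2) : ℝ) + c) =
      2 * ((x - c) / 2 - (round ((x - c) / 2) : ℝ)) := by ring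
  rw [e, abs_mul, abs_two]
  linarith

lemma g_nonneg (hg : S_g) {t : ℝ} (h0 : 0 ≤ t) (h1 : t ≤ 1) : t / 4 ≤ g t :=
  hg.2.2.2.2.2.2.2.2.2.2.2.2.2 t h0 h1

lemma eta_le (hi : S_inv) (W : Wall T a) : W.U.eta ≤ 0.205 :=
  (hi _ (W.inv a le_rfl).1).1

/-- first part of the statement about middle points -/
lemma part1 (hg : S_g) (hi : S_inv) (hm : S_met) (W : Wall T a) (W' : Wall T.neg b)
    (hab : a + b = 2) (z : ℂ) (hz : Mid W W' z) :
    ∃ j : ℤ, |z.re - (2 * j + ((a : ℝ) - 1))| ≤ 0.51 ∧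
    g |z.re - (2 * j + ((a : ℝ) - 1))| - W.U.eta ≤ W.dep z ∧
    g |z.re - (2 * j + ((a : ℝ) - 1))| - W'.U.eta ≤ -W.dep z := by
  obtain ⟨j, hj⟩ := nearest z.re ((a : ℝ) - 1)
  obtain ⟨h1, h2⟩ := groove hm W W' hab hz j hj
  refine ⟨j, ?_, h1, h2⟩
  by_contra hc
  have h3 := hg.2.2.2.2.2.2.2.2.2.2.2.2.1 _ (le_of_lt (not_le.1 hc)) hj
  have h4 := eta_le hi W
  have h5 := eta_le hi W'
  linarith

/-- middle points are close to the middle level -/
lemma dep_small (hg : S_g) (hi : S_inv) (hm : S_met) (W : Wall T a) (W' : Wall T.neg b)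
    (hab : a + b = 2) (z : ℂ) (hz : Mid W W' z) : -0.205 ≤ W.dep z ∧ W.dep z ≤ 0.205 := by
  obtain ⟨j, hj, h1, h2⟩ := part1 hg hi hm W W' hab z hz
  have h3 := g_nonneg hg (abs_nonneg _) (le_trans hj (by norm_num))
  have h4 := eta_le hi W
  have h5 := eta_le hi W'
  have h6 := abs_nonneg (z.re - (2 * j + ((a : ℝ) - 1)))
  constructor <;> linarith

/-- a lattice point near the site `j` of the middle level is this site -/
lemma lam_site (W : Wall T a) {z : ℂ} (hz : z ∈ Lam) (h1 : -0.205 ≤ W.dep z ∧ W.dep z ≤ 0.205)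
    {j : ℤ} (hj : |z.re - (2 * j + ((a : ℝ) - 1))| ≤ 0.51) : z = site (a - 1) j := by
  obtain ⟨r, k, rfl⟩ := hz
  unfold Wall.dep at h1
  rw [site_im] at h1
  have hs := s3_lb
  have hr : r = a - 1 := by
    have e1 : ((a - 1 - r : ℤ) : ℝ) < 1 := by
      push_cast
      by_contra hc
      have := not_lt.1 hc
      nlinarith [h1.2]
    have e2 : (-1 : ℝ) < ((a - 1 - r : ℤ) : ℝ) := by
      push_cast
      by_contra hc
      have := not_lt.1 hc
      nlinarith [h1.1]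
    have e3 : a - 1 - r < 1 := by exact_mod_cast e1
    have e4 : -1 < a - 1 - r := by exact_mod_cast e2
    omega
  subst hr
  rw [site_re] at hj
  push_cast at hj
  have hk : k = j := by
    obtain ⟨e1, e2⟩ := abs_le.1 hj
    have e3 : ((k - j : ℤ) : ℝ) < 1 := by push_cast; linarith
    have e4 : (-1 : ℝ) < ((k - j : ℤ) : ℝ) := by push_cast; linarith
    have e5 : k - j < 1 := by exact_mod_cast e3
    have e6 : -1 < k - j := by exact_mod_cast e4
    omega
  rw [hk]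

/-- two middle points near the same site agree -/
lemma mid_uniq (W : Wall T a) {z z' : ℂ} (hz : z ∈ T.pts) (hz' : z' ∈ T.pts)
    (h1 : -0.205 ≤ W.dep z ∧ W.dep z ≤ 0.205) (h2 : -0.205 ≤ W.dep z' ∧ W.dep z' ≤ 0.205)
    {c : ℝ} (hj : |z.re - c| ≤ 0.51) (hj' : |z'.re - c| ≤ 0.51) : z = z' := by
  by_contra hne
  have h := T.sep z hz z' hz' hne
  rw [nsq_sub] at h
  unfold Wall.dep at h1 h2
  obtain ⟨e1, e2⟩ := abs_le.1 hj
  obtain ⟨e3, e4⟩ := abs_le.1 hj'
  have f1 : (z.re - z'.re) ^ 2 ≤ 1.02 ^ 2 := sq_le_sq' (by linarith) (by linarith)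
  have f2 : (z.im - z'.im) ^ 2 ≤ 0.41 ^ 2 := sq_le_sq' (by linarith [h1.1, h2.2])
    (by linarith [h1.2, h2.1])
  norm_num at f1 f2
  linarith

/-- only finitely many identified points are displaced -/
lemma fin_wall (W : Wall T a) : {z | ∃ r j : ℤ, a ≤ r ∧ z = pt (W.row r) r j ∧
    z ≠ site r j}.Finite := by
  obtain ⟨n, hn⟩ := W.far
  refine Set.Finite.subset (((Set.finite_Icc (-(n : ℤ)) n).prod
    (Set.finite_Icc (-(n : ℤ)) n)).image (fun p : ℤ × ℤ => pt (W.row p.1) p.1 p.2)) ?_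
  rintro z ⟨r, j, hr, rfl, hne⟩
  have h : ¬ ((n : ℤ) ≤ |r| ∨ (n : ℤ) ≤ |j|) := fun h =>
    hne (pt_site _ _ _ (hn r j hr h).1 (hn r j hr h).2)
  push Not at h
  obtain ⟨h1, h2⟩ := h
  have := abs_lt.1 h1
  have := abs_lt.1 h2
  exact ⟨(r, j), ⟨⟨by omega, by omega⟩, ⟨by omega, by omega⟩⟩, rfl⟩

/-- every point has a label -/
lemma label (hg : S_g) (hi : S_inv) (hm : S_met) (W : Wall T a) (W' : Wall T.neg b)
    (hab : a + b = 2) (z : ℂ) : ∃ r j : ℤ, z ∈ T.pts →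
      (a ≤ r ∧ z = pt (W.row r) r j) ∨
      (r ≤ a - 2 ∧ -z = pt (W'.row (-r)) (-r) (-j)) ∨
      (r = a - 1 ∧ Mid W W' z ∧ |z.re - (2 * j + ((a : ℝ) - 1))| ≤ 0.51) := by
  by_cases hz : z ∈ T.pts
  swap
  · exact ⟨0, 0, fun h => absurd h hz⟩
  by_cases h1 : z ∈ W.L
  · obtain ⟨r, j, hr, e⟩ := h1
    exact ⟨r, j, fun _ => Or.inl ⟨hr, e⟩⟩
  by_cases h2 : -z ∈ W'.L
  · obtain ⟨r, j, hr, e⟩ := h2
    refine ⟨-r, -j, fun _ => Or.inr (Or.inl ⟨by omega, ?_⟩)⟩
    rw [neg_neg, neg_neg]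
    exact e
  · obtain ⟨j, hj, -⟩ := part1 hg hi hm W W' hab z ⟨hz, h1, h2⟩
    exact ⟨a - 1, j, fun _ => Or.inr (Or.inr ⟨rfl, ⟨hz, h1, h2⟩, hj⟩)⟩

/-- at most one site of the middle level has no middle point -/
lemma one_missing (hg : S_g) (hi : S_inv) (hm : S_met) (ho : S_one) (W : Wall T a)
    (W' : Wall T.neg b) (hP : Near T.pts) (hab : a + b = 2) :
    ∃ j0 : ℤ, ∀ j : ℤ, j ≠ j0 → ∃ z, Mid W W' z ∧ |z.re - (2 * j + ((a : ℝ) - 1))| ≤ 0.51 := by
  choose R J hRJ using label hg hi hm W W' hab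
  have hb : b = 2 - a := by omega
  have hsub := ho T.pts (fun z => site (R z) (J z)) hP (fun z _ => ⟨_, _, rfl⟩) ?_ ?_
  · have key : ∀ j : ℤ, (¬ ∃ z, Mid W W' z ∧ |z.re - (2 * j + ((a : ℝ) - 1))| ≤ 0.51) →
        site (a - 1) j ∈ Lam \ (fun z => site (R z) (J z)) '' T.pts := by
      intro j hj
      refine ⟨⟨_, _, rfl⟩, ?_⟩
      rintro ⟨z, hz, e⟩
      obtain ⟨e1, e2⟩ := site_inj e
      rcases hRJ z hz with h | h | h
      · omega
      · omega
      · exact hj ⟨z, h.2.1, e2 ▸ h.2.2⟩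
    by_cases hall : ∀ j : ℤ, ∃ z, Mid W W' z ∧ |z.re - (2 * j + ((a : ℝ) - 1))| ≤ 0.51
    · exact ⟨0, fun j _ => hall j⟩
    · obtain ⟨j0, hj0⟩ := not_forall.1 hall
      refine ⟨j0, fun j hj => ?_⟩
      by_contra hc
      exact hj (site_inj (hsub (key j hc) (key j0 hj0))).2
  · intro z hz z' hz' e
    obtain ⟨e1, e2⟩ := site_inj e
    rcases hRJ z hz with h | h | h <;> rcases hRJ z' hz' with h' | h' | h'
    · rw [h.2, h'.2, ← e1, ← e2, ← h.2]
    · omega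
    · omega
    · omega
    · apply neg_injective
      rw [h.2, h'.2, e1, e2]
    · omega
    · omega
    · omega
    · refine mid_uniq W hz hz' (dep_small hg hi hm W W' hab z h.2.1)
        (dep_small hg hi hm W W' hab z' h'.2.1) h.2.2 ?_
      rw [e2]
      exact h'.2.2
  · refine Set.Finite.subset (((fin_wall W).union ((fin_wall W').image (fun z => -z))).union
      hP.1) ?_
    rintro z ⟨hz, hne⟩
    rcases hRJ z hz with h | h | h
    · exact Or.inl (Or.inl ⟨_, _, h.1, h.2, fun e => hne e.symm⟩)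
    · refine Or.inl (Or.inr ⟨-z, ⟨-R z, -J z, by omega, h.2, fun e => hne ?_⟩, neg_neg z⟩)
      rw [← neg_site] at e
      exact (neg_injective e).symm
    · refine Or.inr ⟨hz, fun hl => hne ?_⟩
      have := lam_site W hl (dep_small hg hi hm W W' hab z h.2.1) h.2.2
      show site (R z) (J z) = z
      rw [h.1]
      exact this.symm

/-- the data of a middle point of a row -/
lemma pt_re (M : Row) (a j : ℤ) :
    (pt M (a - 1) j).re - (2 * j + ((a : ℝ) - 1)) = M.φ j := by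
  simp only [pt]; push_cast; ring

lemma pt_dep (W : Wall T a) (M : Row) (j : ℤ) : W.dep (pt M (a - 1) j) = M.w j := by
  simp only [Wall.dep, pt]; push_cast; ring

lemma row_facts (hm : S_met) (W : Wall T a) (W' : Wall T.neg b) (hab : a + b = 2) (M : Row)
    (j : ℤ) (hz : Mid W W' (pt M (a - 1) j)) (hj : |M.φ j| ≤ 0.51) :
    (|M.φ j| ≤ 0.51 ∧ g |M.φ j| - W.U.eta ≤ M.w j ∧ g |M.φ j| - W'.U.eta ≤ -M.w j) ∧
    Row.CrossAt W.U M j ∧
    (g (-M.φ j - W'.U.φ (-j)) ≤ -M.w j - W'.U.w (-j) ∧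
      g (W'.U.φ (-j - 1) + M.φ j) ≤ -M.w j - W'.U.w (-j - 1)) := by
  have h1 := groove hm W W' hab hz j (by rw [pt_re]; exact le_trans hj (by norm_num))
  rw [pt_re, pt_dep] at h1
  have h2 := ((hm T a W).1 _ hz.1 hz.2.1).2.2.2 j
  rw [pt_re, pt_dep] at h2
  have h3 := ((hm T.neg b W').1 _ (neg_mem hz.1) hz.2.2).2.2.2 (-j)
  rw [re_neg hab, dep_neg W W' hab, pt_re, pt_dep, sub_neg_eq_add] at h3
  exact ⟨⟨hj, h1⟩, h2, h3⟩

lemma row_sep (W : Wall T a) (W' : Wall T.neg b) (M : Row) (j : ℤ)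
    (hz : Mid W W' (pt M (a - 1) j)) (hj : |M.φ j| ≤ 0.51)
    (hz' : Mid W W' (pt M (a - 1) (j + 1))) (hj' : |M.φ (j + 1)| ≤ 0.51) :
    4 ≤ (2 + M.y j) ^ 2 + M.T j ^ 2 := by
  have hne : pt M (a - 1) (j + 1) ≠ pt M (a - 1) j := by
    intro e
    have e1 := congrArg Complex.re e
    simp only [pt] at e1
    push_cast at e1
    have := abs_le.1 hj
    have := abs_le.1 hj'
    linarith [this.1, this.2]
  have h := T.sep _ hz'.1 _ hz.1 hne
  rw [nsq_sub] at h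
  simp only [pt] at h
  push_cast at h
  unfold Row.y Row.T
  nlinarith

end MidAux

open MidAux

theorem mid (hg : S_g) (hi : S_inv) (hw : S_wb) (hm : S_met) (ho : S_one) : S_mid := by
  intro T a b W W' hP hab
  refine ⟨part1 hg hi hm W W' hab, ?_⟩
  obtain ⟨j0, hj0⟩ := one_missing hg hi hm ho W W' hP hab
  have hex : ∀ j : ℤ, ∃ z : ℂ, (j ≠ j0 → Mid W W' z ∧ |z.re - (2 * j + ((a : ℝ) - 1))| ≤ 0.51) ∧
      (j = j0 → z = site (a - 1) j) := by
    intro j
    by_cases h : j = j0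
    · exact ⟨site (a - 1) j, fun h' => absurd h h', fun _ => rfl⟩
    · obtain ⟨z, hz⟩ := hj0 j h
      exact ⟨z, fun _ => hz, fun h' => absurd h' h⟩
  choose Z hZ using hex
  obtain ⟨B, hB⟩ := (hP.1.image (fun z : ℂ => |z.re|)).bddAbove
  obtain ⟨n, hn⟩ := exists_nat_gt (B + |(a : ℝ) - 1| + 1)
  have hfar : ∀ j : ℤ, (n : ℤ) ≤ |j| → Z j = site (a - 1) j := by
    intro j hj
    by_cases h : j = j0
    · exact (hZ j).2 h
    obtain ⟨h1, h2⟩ := (hZ j).1 h
    by_cases hl : Z j ∈ Lam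
    · exact lam_site W hl (dep_small hg hi hm W W' hab _ h1) h2
    exfalso
    have h3 : |(Z j).re| ≤ B := hB ⟨Z j, ⟨h1.1, hl⟩, rfl⟩
    have h4 : (n : ℝ) ≤ |(j : ℝ)| := by exact_mod_cast hj
    have h5 := abs_le.1 h2
    have h6 := abs_le.1 h3
    have h7 := le_abs_self ((a : ℝ) - 1)
    have h8 := neg_abs_le ((a : ℝ) - 1)
    have h9 := abs_nonneg (Z j).re
    rcases abs_cases (j : ℝ) with h10 | h10 <;> linarith [h5.1, h5.2, h6.1, h6.2, h10.1]
  let M : Row := ⟨fun j => (Z j).re - (2 * j + ((a : ℝ) - 1)), fun j => W.dep (Z j), n,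
    fun j hj => by
      constructor
      · show (Z j).re - (2 * j + ((a : ℝ) - 1)) = 0
        rw [hfar j hj, site_re]; push_cast; ring
      · show W.dep (Z j) = 0
        rw [hfar j hj]; unfold Wall.dep; rw [site_im]; push_cast; ring⟩
  refine ⟨M, j0, fun j hj => ?_⟩
  have e : pt M (a - 1) j = Z j := by
    apply Complex.ext
    · simp only [pt, M]; push_cast; ring
    · simp only [pt, M, Wall.dep]; push_cast; ring
  rw [e]
  exact (hZ j).1 hj

theorem finT (hg : S_g) (hw : S_wb) (hm : S_met) (h1 : S_mid) (h2 : S_f0) (h3 : S_last)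
    (h4 : S_last0) (hi : S_inv) (hrb : S_rb) : S_fin := by
  intro T a b W W' N hF hP hB hab
  have hU : W.U.Inv := (W.inv a le_rfl).1
  have hV : W'.U.Inv := (W'.inv b le_rfl).1
  by_cases hc : W.U.A + W'.U.A ≤ 2 * s3 - 0.3
  · obtain ⟨hp1, M, j0, hM⟩ := h1 T a b W W' hP hab
    have hf := fun j (hj : j ≠ j0) => row_facts hm W W' hab M j (hM j hj).1 (hM j hj).2
    obtain ⟨hA, hA'⟩ := h3 W.U W'.U M j0 hU hV (fun j hj => (hf j hj).1)
      (fun j hj => (hf j hj).2.1) (fun j hj => (hf j hj).2.2)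
      (fun j hj hj' => row_sep W W' M j (hM j hj).1 (hM j hj).2 (hM _ hj').1 (hM _ hj').2) hc
    have e1 : W.U.eta ≤ 0 := by
      have := hU.2.2.2.2.1
      rw [hA] at this
      simpa [hF, Pool.Agent.P.MP_dd077d_co.hF] using this
    have e2 : W'.U.eta ≤ 0 := by
      have := hV.2.2.2.2.1
      rw [hA'] at this
      simpa [hF, Pool.Agent.P.MP_dd077d_co.hF] using this
    intro z hz
    by_cases c1 : z ∈ W.L
    · exact (hw T a W).2.2.2.2.2.2 hA c1
    by_cases c2 : -z ∈ W'.L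
    · obtain ⟨r, j, e⟩ := (hw T.neg b W').2.2.2.2.2.2 hA' c2
      refine ⟨-r, -j, ?_⟩
      rw [← neg_site, ← e, neg_neg]
    obtain ⟨j, hj, f1, f2⟩ := hp1 z ⟨hz, c1, c2⟩
    have f3 := g_nonneg hg (abs_nonneg _) (le_trans hj (by norm_num))
    have f4 := abs_nonneg (z.re - (2 * j + ((a : ℝ) - 1)))
    have f5 : |z.re - (2 * j + ((a : ℝ) - 1))| = 0 := by linarith
    have f6 : W.dep z = 0 := by linarith
    refine ⟨a - 1, j, ?_⟩
    apply Complex.ext
    · rw [site_re]; push_cast; linarith [abs_eq_zero.1 f5]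
    · rw [site_im]; unfold Wall.dep at f6; push_cast; linarith
  · exfalso
    have hc' := le_of_lt (not_le.1 hc)
    obtain ⟨M, hM⟩ := h2 T a b W W' N hF hP hB hab hc'
    have hf := fun j => row_facts hm W W' hab M j (hM j).1 (hM j).2
    have := h4 W.U W'.U M hU hV (fun j => (hf j).1) (fun j => (hf j).2.1) (fun j => (hf j).2.2)
      (fun j => row_sep W W' M j (hM j).1 (hM j).2 (hM _).1 (hM _).2)
    have := s3_lb
    linarith

end

end Pool.Agent.P.MP_dd077d_co
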