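import Pool.Agent.P.MP_dd077d_co.Iface3

/-!
A chain without defect gives the next wall.
-/

namespace Pool.Agent.P.MP_dd077d_co

noncomputable section

open Classical

namespace New

variable {T : DT0} {a : ℤ}

/-- the rows of the wall together with the new row -/
def row' (W : Wall T a) (R : Row) (r : ℤ) : Row := if r = a - 1 then R else W.row r

lemma row'_self (W : Wall T a) (R : Row) : row' W R (a - 1) = R := if_pos rfl

lemma row'_ge (W : Wall T a) (R : Row) {r : ℤ} (h : a ≤ r) : row' W R r = W.row r :=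
  if_neg (by omega)

lemma lset1 (W : Wall T a) (R : Row) : Lset (row' W R) (a - 1 + 1) = W.L := by
  ext z
  constructor
  · rintro ⟨r, j, hr, rfl⟩
    exact ⟨r, j, by omega, by rw [row'_ge W R (by omega)]⟩
  · rintro ⟨r, j, hr, rfl⟩
    exact ⟨r, j, by omega, by rw [row'_ge W R hr]⟩

lemma lset0 (W : Wall T a) (R : Row) (z : ℂ) :
    z ∈ Lset (row' W R) (a - 1) ↔ z ∈ W.L ∨ ∃ j, z = pt R (a - 1) j := by
  constructor
  · rintro ⟨r, j, hr, rfl⟩
    rcases eq_or_lt_of_le hr with h | h
    · subst h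
      exact Or.inr ⟨j, by rw [row'_self]⟩
    · exact Or.inl ⟨r, j, by omega, by rw [row'_ge W R (by omega)]⟩
  · rintro (⟨r, j, hr, rfl⟩ | ⟨j, rfl⟩)
    · exact ⟨r, j, by omega, by rw [row'_ge W R hr]⟩
    · exact ⟨a - 1, j, le_rfl, by rw [row'_self]⟩

lemma c_inj {W : Wall T a} (st : Strip W) : Function.Injective st.c := by
  have h : StrictMono fun j => (st.c j).re := strictMono_int_of_lt_succ st.mono
  intro i j hij
  exact h.injective (by simp only [hij])

end New

open New in
theorem newW (hi : S_inv) (hw : S_wb) (hm : S_met) (hs : S_sb) : S_new := by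
  intro T a W st R hno hc hR hA
  obtain ⟨-, -, hv, hsub, hLL, htouch, -⟩ := hw T a W
  obtain ⟨s1, -, -, s4, -, s6, -, -, ⟨G, hG, hGD⟩, -, hD, -⟩ := hs T a W st hno
  have hcL : ∀ j, pt R (a - 1) j ∉ W.L := fun j => hc j ▸ (st.cmem j).2
  have htri : ∀ k, ∀ x ∈ st.tri k, x ∈ Lset (row' W R) (a - 1) := by
    intro k x hx
    rw [lset0]
    simp only [Strip.tri, Finset.mem_insert, Finset.mem_singleton] at hx
    rcases hx with rfl | rfl | rfl
    · exact Or.inl (hv _).1
    · exact Or.inr ⟨_, hc _⟩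
    · unfold Strip.nx
      split_ifs
      · exact Or.inr ⟨_, hc _⟩
      · exact Or.inl (hv _).1
  refine ⟨{ row := row' W R
            mem := fun r j hr => ?_
            far := ?_
            inv := fun r hr => ?_
            clo := fun x y z hT hx => ?_
            up := fun i => ?_
            bud := ?_
            low := fun z hz hzL => ?_ }⟩
  · rcases eq_or_lt_of_le hr with h | h
    · subst h
      rw [row'_self, ← hc]
      exact (st.cmem j).1
    · rw [row'_ge W R (by omega)]
      exact W.mem r j (by omega)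
  · obtain ⟨n, hn⟩ := W.far
    obtain ⟨m, hm'⟩ := R.fin
    refine ⟨n + m + (a - 1).natAbs + 1, fun r j hr h => ?_⟩
    rcases eq_or_lt_of_le hr with h' | h'
    · subst h'
      rw [row'_self]
      refine hm' j ?_
      rcases h with h | h
      · exfalso
        rw [← Int.natCast_natAbs] at h
        omega
      · push_cast at h
        have := abs_nonneg (a - 1)
        omega
    · rw [row'_ge W R (by omega)]
      refine hn r j (by omega) ?_
      have := abs_nonneg (a - 1)
      push_cast at h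
      rcases h with h | h
      · left; omega
      · right; omega
  · rw [row'_self]
    rcases eq_or_lt_of_le hr with h | h
    · subst h
      rw [row'_self]
      exact ⟨hR, le_rfl⟩
    · rw [row'_ge W R (by omega)]
      obtain ⟨h1, h2⟩ := W.inv r (by omega)
      refine ⟨h1, ?_⟩
      have : W.U.A = (W.row a).A := rfl
      linarith
  · rw [lset1] at hx
    rw [row'_self]
    have hin : y ∈ W.L → z ∈ W.L → y ∈ Lset (row' W R) (a - 1) ∧ z ∈ Lset (row' W R) (a - 1) ∧
        ∀ i k, y = pt R (a - 1) i → z = pt R (a - 1) k → k = i + 1 := fun hy hz =>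
      ⟨(lset0 W R y).2 (Or.inl hy), (lset0 W R z).2 (Or.inl hz),
        fun i k h _ => absurd (h ▸ hy) (hcL i)⟩
    have hIs : T.IsT {x, y, z} := ⟨x, y, z, hT, rfl⟩
    by_cases h1 : ∃ p ∈ ({x, y, z} : Finset ℂ), p ∈ W.L1
    · exact hin (htouch _ hIs h1 y (by simp)) (htouch _ hIs h1 z (by simp))
    · rcases hLL x hx with h | ⟨i0, rfl⟩
      · exact absurd ⟨x, by simp, h⟩ h1
      obtain ⟨k0, hk0⟩ := s4 _ ⟨hIs, ⟨i0, by simp⟩, fun p hp hp' => h1 ⟨p, hp, hp'⟩⟩
      refine ⟨htri k0 y (hk0 ▸ by simp), htri k0 z (hk0 ▸ by simp), fun i k hy hz => ?_⟩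
      obtain ⟨l, hl, hyl⟩ := st.complete i0 y z hT (hy ▸ hcL i)
      have h2 := s1 l
      rw [← hyl, hl] at h2
      have h3 : z = st.nx l := T.uniq hT h2
      unfold Strip.nx at h3
      split_ifs at h3 with h4
      · have e1 : i = l - st.I l := c_inj st (by rw [hc, ← hy, hyl])
        have e2 : k = l - st.I l + 1 := c_inj st (by rw [hc, ← hz, h3])
        omega
      · exact absurd (hz ▸ h3 ▸ (hv _).1) (hcL k)
  · obtain ⟨k, hk, hk'⟩ := s6 i
    rw [lset1, row'_self]
    refine ⟨W.v (st.I k), (hv _).1, ?_⟩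
    have h2 := s1 k
    unfold Strip.nx at h2
    rw [if_pos hk', hk, hc, hc] at h2
    exact T.rot h2
  · obtain ⟨F, hF, hFA⟩ := W.bud
    rw [lset1, row'_self]
    refine ⟨F ∪ G, fun s hs' => ?_, ?_⟩
    · rcases Finset.mem_union.1 hs' with h | h
      · obtain ⟨h1, x, hx, hx'⟩ := hF s h
        exact ⟨h1, x, hx, hsub hx'⟩
      · obtain ⟨h1, ⟨i, hi'⟩, -⟩ := hG s h
        exact ⟨h1, _, hi', (hv i).1⟩
    · have hd : Disjoint F G := Finset.disjoint_left.2 fun s h h' => by
        obtain ⟨-, x, hx, hx'⟩ := hF s h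
        exact (hG s h').2.2 x hx hx'
      rw [Finset.sum_union hd, hGD, hA]
      have : W.U.A = (W.row a).A := rfl
      linarith
  · have hzL' : z ∉ W.L := fun h => hzL ((lset0 W R z).2 (Or.inl h))
    have h1 := ((hm T a W).1 z hz hzL').2.1
    have h2 : W.U.eta ≤ 0.205 := (hi _ (W.inv a le_rfl).1).1
    unfold Wall.dep at h1
    push_cast
    linarith

end

end Pool.Agent.P.MP_dd077d_co
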