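import Pool.Agent.P.MP_dd077d_co.Iface3
import Pool.Agent.P.MP_dd077d_co.Hgf
import Pool.Agent.P.MP_dd077d_co.Tri

/-!
No long wall edges, chain steps go to the right.
-/

set_option linter.dupNamespace false

namespace Pool.Agent.P.MP_dd077d_co

namespace Nm

variable {T : DT0} {a : ℤ}

/-- the two triangles at an edge fit into the budget -/
lemma two_le (W : Wall T a) {β : ℝ} (hb : W.Bud β) {x y z z' : ℂ} (h : T.Tri x y z)
    (h' : T.Tri y x z') (s1 : W.stripT {x, y, z}) (s2 : W.stripT {y, x, z'}) :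
    cost {x, y, z} + cost {y, x, z'} ≤ β := by
  classical
  have c1 := T.ccw h
  have c2 := T.ccw h'
  obtain ⟨-, n2, n3⟩ := ne_of_cross c1
  have hz : z ≠ z' := by
    rintro rfl
    unfold cross at c1 c2
    nlinarith
  have hne : ({x, y, z} : Finset ℂ) ≠ {y, x, z'} := by
    intro e
    have : z ∈ ({y, x, z'} : Finset ℂ) := by rw [← e]; simp
    simp only [Finset.mem_insert, Finset.mem_singleton] at this
    rcases this with e | e | e
    · exact n2 e.symm
    · exact n3 e.symm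
    · exact hz e
  have := hb {{x, y, z}, {y, x, z'}} (by
    intro s hs
    simp only [Finset.mem_insert, Finset.mem_singleton] at hs
    rcases hs with rfl | rfl
    · exact s1
    · exact s2)
  rwa [Finset.sum_pair hne] at this

lemma strip_of_out (hw : S_wb) (W : Wall T a) {s : Finset ℂ} (hs : T.IsT s) {i : ℤ}
    (hi : W.v i ∈ s) {c : ℂ} (hc : c ∈ s) (hc' : c ∉ W.L) : W.stripT s :=
  ⟨hs, ⟨i, hi⟩, fun x hx hx' => hc' ((hw T a W).2.2.2.2.2.1 s hs ⟨x, hx, hx'⟩ c hc)⟩

lemma noWW (hp : S_pair) (hi : S_inv) (hrb : S_rb) (hw : S_wb) (W : Wall T a) (hH : W.Hyp) :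
    W.NoWW := by
  intro i k t h ht
  by_contra hk
  have hv := (hw T a W).2.2.1
  have hki : k ≠ i := by
    rintro rfl
    exact (ne_of_cross (T.ccw h)).1 rfl
  have hki' : k ≠ i + 1 := by
    rintro rfl
    obtain ⟨u, hu, hT⟩ := W.up i
    exact ht (T.uniq hT h ▸ hu)
  obtain ⟨t', h'⟩ := T.rev h
  have ht' : t' ∉ W.L1 := by
    intro hh
    have := (W.clo _ _ _ (T.rot (T.rot h')) hh).2.2 k i rfl rfl
    omega
  have s1 : W.stripT {W.v i, W.v k, t} := by
    refine ⟨⟨_, _, _, h, rfl⟩, ⟨i, by simp⟩, fun x hx => ?_⟩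
    simp only [Finset.mem_insert, Finset.mem_singleton] at hx
    rcases hx with rfl | rfl | rfl
    exacts [(hv i).2.1, (hv k).2.1, ht]
  have s2 : W.stripT {W.v k, W.v i, t'} := by
    refine ⟨⟨_, _, _, h', rfl⟩, ⟨i, by simp⟩, fun x hx => ?_⟩
    simp only [Finset.mem_insert, Finset.mem_singleton] at hx
    rcases hx with rfl | rfl | rfl
    exacts [(hv k).2.1, (hv i).2.1, ht']
  have hinv : W.U.Inv := (W.inv a le_rfl).1
  have hS := (hrb W.U).2.2.2.2.2.2.2.2.2.2.1 i k
  rw [abs_le] at hS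
  have hre : (W.v i).re - (W.v k).re = 2 * ((i : ℝ) - k) + (W.U.φ i - W.U.φ k) := by
    simp only [Wall.v, Wall.U, pt]
    ring
  have hn : ∀ σ : ℝ, W.U.S ≤ σ → σ ≤ 4 → (4 - σ) ^ 2 ≤ nsq (W.v i - W.v k) := by
    intro σ h1 h2
    rw [nsq_sub, hre]
    have h3 : (4 - σ) ^ 2 ≤ (2 * ((i : ℝ) - k) + (W.U.φ i - W.U.φ k)) ^ 2 := by
      rcases (show k + 2 ≤ i ∨ i + 2 ≤ k by omega) with e | e
      · have e' : (k : ℝ) + 2 ≤ i := by exact_mod_cast e
        exact pow_le_pow_left₀ (by linarith) (by linarith) 2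
      · have e' : (i : ℝ) + 2 ≤ k := by exact_mod_cast e
        rw [← neg_sq (2 * ((i : ℝ) - k) + (W.U.φ i - W.U.φ k))]
        exact pow_le_pow_left₀ (by linarith) (by linarith) 2
    nlinarith [sq_nonneg ((W.v i).im - (W.v k).im)]
  have hP := hp T _ _ _ _ h h'
  rcases hH with hb | ⟨hA, hb⟩
  · have h1 := two_le W hb h h' s1 s2
    have h2 := hn 0.76 (hi W.U hinv).2.2.2.1 (by norm_num)
    have h3 := hP.1 (by norm_num at h2 ⊢; linarith)
    norm_num at h1 h3
    linarith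
  · have h1 := two_le W hb h h' s1 s2
    have h2 := hn 0.24 ((hi W.U hinv).2.2.2.2.2.2.2.1 hA).2.2.2 (by norm_num)
    have h3 := hP.2.2 (by norm_num at h2 ⊢; linarith)
    have h4 := hinv.2.1
    have h5 := s3_ub
    linarith

lemma mono (hp : S_pair) (hi : S_inv) (hrb : S_rb) (hw : S_wb) (hm : S_met) (W : Wall T a)
    (hH : W.Hyp) : W.Mono := by
  intro i c c' h hc hc'
  by_contra hlt
  rw [not_lt] at hlt
  obtain ⟨-, m1, m2⟩ := T.mem h
  have k1 := (hm T a W).1 c m1 hc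
  have k2 := (hm T a W).1 c' m2 hc'
  rcases hH with hb | ⟨hA, -⟩
  · have hl := (lemH data T _ _ _ 0 h le_rfl (by have := k1.1 i; linarith)
      (by have := k2.1 i; linarith) hlt).1
    rcases hl with hl | hl
    · obtain ⟨w, h'⟩ := T.rev h
      have h1 := two_le W hb h h'
        (strip_of_out hw W ⟨_, _, _, h, rfl⟩ (i := i) (by simp) (c := c) (by simp) hc)
        (strip_of_out hw W ⟨_, _, _, h', rfl⟩ (i := i) (by simp) (c := c) (by simp) hc)
      have h3 := (hp T _ _ _ _ h h').1 (by linarith)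
      norm_num at h1 h3
      linarith
    · have h0 := T.rot (T.rot h)
      obtain ⟨w, h'⟩ := T.rev h0
      have h1 := two_le W hb h0 h'
        (strip_of_out hw W ⟨_, _, _, h0, rfl⟩ (i := i) (by simp) (c := c') (by simp) hc')
        (strip_of_out hw W ⟨_, _, _, h', rfl⟩ (i := i) (by simp) (c := c') (by simp) hc')
      have h3 := (hp T _ _ _ _ h0 h').1 (by rw [nsq_comm]; linarith)
      norm_num at h1 h3
      linarith
  · have hinv : W.U.Inv := (W.inv a le_rfl).1
    obtain ⟨-, e1, e2, -⟩ := (hi W.U hinv).2.2.2.2.2.2.2.1 hA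
    have e3 := (hrb W.U).1.1 i
    have e4 := (hrb W.U).2.1.2.1
    have e5 : (W.v i).im = s3 * a - W.U.w i := rfl
    have e6 := s3_lb
    have d1 := k1.2.1
    have d2 := k2.2.1
    unfold Wall.dep at d1 d2
    unfold Row.rho at e2
    have := (lemH data T _ _ _ 1 h zero_le_one (by linarith) (by linarith) hlt).2
    exact lt_irrefl _ this

end Nm

theorem nm (hp : S_pair) (hi : S_inv) (hrb : S_rb) (hw : S_wb) (hm : S_met) : S_nm :=
  fun _ _ W hH => ⟨Nm.noWW hp hi hrb hw W hH, Nm.mono hp hi hrb hw hm W hH⟩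

end Pool.Agent.P.MP_dd077d_co
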