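import Pool.Agent.P.MP_dd077d_co.Iface2

/-! A labelling of a near lattice misses at most one site. -/

namespace Pool.Agent.P.MP_dd077d_co

theorem one : S_one := by
  intro P l hP hm hi hZ
  obtain ⟨h1, h2, h3⟩ := hP
  set Z : Set ℂ := {z | z ∈ P ∧ l z ≠ z} with hZd
  set K : Set ℂ := (P \ Lam) ∪ (Lam \ P) ∪ Z ∪ l '' Z with hK
  have hKf : K.Finite := ((h1.union h2).union hZ).union (hZ.image l)
  have hA : (P ∩ K).Finite := hKf.inter_of_right P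
  have hB : (Lam ∩ K).Finite := hKf.inter_of_right Lam
  have hsub : l '' (P ∩ K) ⊆ Lam ∩ K := by
    rintro _ ⟨z, ⟨hz, hzK⟩, rfl⟩
    refine ⟨hm hz, ?_⟩
    by_cases e : l z = z
    · rwa [e]
    · exact Or.inr ⟨z, ⟨hz, e⟩, rfl⟩
  have hmiss : Lam \ l '' P ⊆ (Lam ∩ K) \ l '' (P ∩ K) := by
    rintro x ⟨hx, hx'⟩
    refine ⟨⟨hx, ?_⟩, fun h => hx' (Set.image_mono Set.inter_subset_left h)⟩
    by_cases hxP : x ∈ P
    · exact Or.inl (Or.inr ⟨hxP, fun e => hx' ⟨x, hxP, e⟩⟩)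
    · exact Or.inl (Or.inl (Or.inr ⟨hx, hxP⟩))
  have e1 := Set.ncard_diff_add_ncard_of_subset hsub hB
  rw [(hi.mono Set.inter_subset_left).ncard_image] at e1
  have e2 := Set.ncard_inter_add_ncard_diff_eq_ncard (Lam ∩ K) P hB
  have e3 := Set.ncard_inter_add_ncard_diff_eq_ncard (P ∩ K) Lam hA
  have e4 : (Lam ∩ K) \ P = Lam \ P := by
    ext x
    exact ⟨fun h => ⟨h.1.1, h.2⟩, fun h => ⟨⟨h.1, Or.inl (Or.inl (Or.inr h))⟩, h.2⟩⟩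
  have e5 : (P ∩ K) \ Lam = P \ Lam := by
    ext x
    exact ⟨fun h => ⟨h.1.1, h.2⟩, fun h => ⟨⟨h.1, Or.inl (Or.inl (Or.inl h))⟩, h.2⟩⟩
  have e6 : Lam ∩ K ∩ P = P ∩ K ∩ Lam := by
    ext x
    exact ⟨fun h => ⟨⟨h.2, h.1.2⟩, h.1.1⟩, fun h => ⟨⟨h.2, h.1.2⟩, h.1.1⟩⟩
  rw [e4, e6] at e2
  rw [e5] at e3
  have hfin : ((Lam ∩ K) \ l '' (P ∩ K)).Finite := hB.subset Set.diff_subset
  have hle : ((Lam ∩ K) \ l '' (P ∩ K)).ncard ≤ 1 := by omega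
  intro a ha b hb
  exact (Set.ncard_le_one hfin).1 hle a (hmiss ha) b (hmiss hb)

end Pool.Agent.P.MP_dd077d_co
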