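import Pool.Agent.P.MP_dd077d_co.Iface3
import Pool.Agent.P.MP_dd077d_co.Far
import Pool.Agent.P.MP_dd077d_co.Count

/-!
The strip below a wall exists: the mixed edges form one orbit under rotation.
-/

set_option linter.dupNamespace false

namespace Pool.Agent.P.MP_dd077d_co

noncomputable section

open Classical

namespace Orb

variable {T : DT0} {a : ℤ}

/-- a mixed edge from the wall vertex number `p.1` to the point `p.2` below the wall -/
def E (W : Wall T a) (p : ℤ × ℂ) : Prop := p.2 ∉ W.L ∧ ∃ t, T.Tri (W.v p.1) p.2 t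

/-- `q` is the edge after `p` -/
def Nx (W : Wall T a) (p q : ℤ × ℂ) : Prop :=
  (q.1 = p.1 + 1 ∧ q.2 = p.2 ∧ T.Tri (W.v (p.1 + 1)) (W.v p.1) p.2) ∨
    (q.1 = p.1 ∧ T.Tri (W.v p.1) p.2 q.2)

lemma fwd (hw : S_wb) (W : Wall T a) (hn : W.NoWW) {p : ℤ × ℂ} (h : E W p) :
    ∃ q, E W q ∧ Nx W p q := by
  obtain ⟨i, y⟩ := p
  obtain ⟨hy, t, ht⟩ := h
  obtain ⟨-, -, -, hsub, hL, -, -⟩ := hw T a W
  dsimp only at hy ht
  by_cases htL : t ∈ W.L
  · rcases hL t htL with h1 | ⟨k, rfl⟩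
    · exact absurd (W.clo _ _ _ (T.rot (T.rot ht)) h1).2.1 hy
    · have hk : i = k - 1 := hn k i y (T.rot (T.rot ht)) (fun h => hy (hsub h))
      obtain rfl : k = i + 1 := by omega
      exact ⟨(i + 1, y), ⟨hy, T.rev (T.rot ht)⟩, Or.inl ⟨rfl, rfl, T.rot (T.rot ht)⟩⟩
  · exact ⟨(i, t), ⟨htL, T.rev (T.rot (T.rot ht))⟩, Or.inr ⟨rfl, ht⟩⟩

lemma bwd (hw : S_wb) (W : Wall T a) (hn : W.NoWW) {q : ℤ × ℂ} (h : E W q) :
    ∃ p, E W p ∧ Nx W p q := by
  obtain ⟨i, y⟩ := q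
  obtain ⟨hy, t, ht⟩ := h
  obtain ⟨-, -, -, hsub, hL, -, -⟩ := hw T a W
  dsimp only at hy ht
  obtain ⟨x, hx⟩ := T.rev ht
  have hx' : T.Tri (W.v i) x y := T.rot hx
  by_cases hxL : x ∈ W.L
  · rcases hL x hxL with h1 | ⟨k, rfl⟩
    · exact absurd (W.clo _ _ _ (T.rot hx') h1).1 hy
    · have hk : k = i - 1 := hn i k y hx' (fun h => hy (hsub h))
      obtain rfl : i = k + 1 := by omega
      exact ⟨(k, y), ⟨hy, _, T.rot hx'⟩, Or.inl ⟨rfl, rfl, hx'⟩⟩
  · exact ⟨(i, x), ⟨hxL, _, hx'⟩, Or.inr ⟨rfl, hx'⟩⟩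

lemma fwd_uniq (hw : S_wb) (W : Wall T a) {p q q' : ℤ × ℂ} (hq : E W q) (hq' : E W q')
    (h : Nx W p q) (h' : Nx W p q') : q = q' := by
  obtain ⟨-, -, hv, -⟩ := hw T a W
  rcases h with ⟨h1, h2, h3⟩ | ⟨h1, h2⟩ <;> rcases h' with ⟨h1', h2', h3'⟩ | ⟨h1', h2'⟩
  · exact Prod.ext (h1.trans h1'.symm) (h2.trans h2'.symm)
  · exact absurd (T.uniq (T.rot h3) h2' ▸ (hv _).1) hq'.1
  · exact absurd (T.uniq (T.rot h3') h2 ▸ (hv _).1) hq.1
  · exact Prod.ext (h1.trans h1'.symm) (T.uniq h2 h2')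

/-- a vertex has finitely many neighbours -/
lemma fin_nb (T : DT0) (v : ℂ) : {y | ∃ t, T.Tri v y t}.Finite := by
  refine Set.Finite.of_injOn (f := fun y : ℂ => (⌊y.re⌋, ⌊y.im⌋))
    (t := Set.Icc (⌊v.re⌋ - 4) (⌊v.re⌋ + 4) ×ˢ Set.Icc (⌊v.im⌋ - 4) (⌊v.im⌋ + 4)) ?_ ?_
    ((Set.finite_Icc _ _).prod (Set.finite_Icc _ _))
  · rintro y ⟨t, ht⟩
    have h := (Count.short T ht).1
    rw [nsq_sub] at h
    have h1 : |v.re - y.re| < 4 := abs_lt_of_sq_lt_sq (by nlinarith [sq_nonneg (v.im - y.im)])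
      (by norm_num)
    have h2 : |v.im - y.im| < 4 := abs_lt_of_sq_lt_sq (by nlinarith [sq_nonneg (v.re - y.re)])
      (by norm_num)
    rw [abs_lt] at h1 h2
    have key : ∀ s u : ℝ, -4 < s - u → s - u < 4 → ⌊u⌋ ∈ Set.Icc (⌊s⌋ - 4) (⌊s⌋ + 4) := by
      intro s u b1 b2
      have c1 := Int.floor_le s
      have c2 := Int.lt_floor_add_one s
      constructor
      · rw [Int.le_floor]; push_cast; linarith
      · have : ⌊u⌋ < ⌊s⌋ + 5 := by rw [Int.floor_lt]; push_cast; linarith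
        omega
    exact ⟨key _ _ h1.1 h1.2, key _ _ h2.1 h2.2⟩
  · rintro y ⟨t, ht⟩ y' ⟨t', ht'⟩ he
    by_contra hne
    have h4 := T.sep _ (T.mem ht).2.1 _ (T.mem ht').2.1 hne
    rw [nsq_sub] at h4
    have h1 := abs_lt.1 (Int.abs_sub_lt_one_of_floor_eq_floor (congrArg Prod.fst he))
    have h2 := abs_lt.1 (Int.abs_sub_lt_one_of_floor_eq_floor (congrArg Prod.snd he))
    nlinarith [h1.1, h1.2, h2.1, h2.2]

/-- the edges of the undisturbed lattice -/
def ex (a k : ℤ) : ℤ × ℂ := (k / 2, site (a - 1) (k - k / 2))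

lemma low_notMem (hw : S_wb) (W : Wall T a) (j : ℤ) : site (a - 1) j ∉ W.L := by
  intro h
  have h1 := ((hw T a W).1 _ h).2
  rw [site_im] at h1
  push_cast at h1
  have := s3_lb
  nlinarith

/-- far away the edges are those of the lattice -/
lemma far_edges (hw : S_wb) (W : Wall T a) {N : ℝ} (hF : FarLat T.pts N) :
    ∃ n : ℕ, (∀ k : ℤ, (n : ℤ) ≤ |k| → E W (ex a k) ∧ Nx W (ex a k) (ex a (k + 1))) ∧
      ∀ (i : ℤ) (y : ℂ), (n : ℤ) ≤ |i| → E W (i, y) →
        (i, y) = ex a (2 * i) ∨ (i, y) = ex a (2 * i + 1) := by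
  obtain ⟨n, hn⟩ := W.far
  obtain ⟨m, hm⟩ := exists_nat_gt (N + 5)
  have hpt : ∀ r j : ℤ, a ≤ r → (n : ℤ) ≤ |j| → pt (W.row r) r j = site r j := by
    intro r j hr hj
    obtain ⟨h1, h2⟩ := hn r j hr (Or.inr hj)
    apply Complex.ext
    · simp only [pt, site_re, h1, add_zero]
    · simp only [pt, site_im, h2, sub_zero]
  have hv : ∀ i : ℤ, (n : ℤ) ≤ |i| → W.v i = site a i := fun i hi => hpt a i le_rfl hi
  have hL : ∀ r j : ℤ, a ≤ r → (n : ℤ) ≤ |j| → site r j ∈ W.L := fun r j hr hj =>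
    ⟨r, j, hr, (hpt r j hr hj).symm⟩
  have hb : ∀ i : ℤ, (m : ℤ) ≤ |i| → ¬ inBox (N + 5) (site a i) := by
    intro i hi h
    have h1 := (Count.box_site.1 h).2
    have h2 : ((m : ℤ) : ℝ) ≤ ((|i| : ℤ) : ℝ) := by exact_mod_cast hi
    push_cast at h2
    linarith
  refine ⟨2 * (n + m + 2), fun k hk => ?_, fun i y hi h => ?_⟩
  · push_cast at hk
    have hk' : (n : ℤ) + m + 1 ≤ |k / 2| := by
      rcases abs_cases k with h | h <;> rcases abs_cases (k / 2) with h' | h' <;> omega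
    have h0 : (n : ℤ) ≤ |k / 2| := by omega
    have h0' : (m : ℤ) ≤ |k / 2| := by omega
    have h1 : (n : ℤ) ≤ |k / 2 + 1| := by
      rcases abs_cases (k / 2) with h | h <;> rcases abs_cases (k / 2 + 1) with h' | h' <;> omega
    rcases Int.emod_two_eq_zero_or_one k with he | he
    · have e1 : (k + 1) / 2 = k / 2 := by omega
      have e2 : k - k / 2 = k / 2 := by omega
      have e3 : k + 1 - k / 2 = k / 2 + 1 := by omega
      have ht : T.Tri (W.v (k / 2)) (site (a - 1) (k / 2)) (site (a - 1) (k / 2 + 1)) := by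
        rw [hv _ h0]
        exact Far.tri_of T hF (hb _ h0') _ _ _ _ (by ring) (by ring) (by ring) (by ring)
      refine ⟨⟨low_notMem hw W _, site (a - 1) (k / 2 + 1), ?_⟩, Or.inr ⟨e1, ?_⟩⟩
      · simpa only [ex, e2] using ht
      · simpa only [ex, e1, e2, e3] using ht
    · have e1 : (k + 1) / 2 = k / 2 + 1 := by omega
      have e2 : k - k / 2 = k / 2 + 1 := by omega
      have e3 : k + 1 - (k / 2 + 1) = k / 2 + 1 := by omega
      have ht : T.Tri (W.v (k / 2)) (site (a - 1) (k / 2 + 1)) (W.v (k / 2 + 1)) := by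
        rw [hv _ h0, hv _ h1]
        exact Far.tri_of T hF (hb _ h0') _ _ _ _ (by ring) (by ring) (by ring) (by ring)
      refine ⟨⟨low_notMem hw W _, W.v (k / 2 + 1), ?_⟩, Or.inl ⟨e1, ?_, ?_⟩⟩
      · simpa only [ex, e2] using ht
      · simp only [ex, e1, e2, e3]
      · simpa only [ex, e2] using T.rot (T.rot ht)
  · push_cast at hi
    obtain ⟨hy, t, ht⟩ := h
    dsimp only at hy ht
    have h0 : (n : ℤ) ≤ |i| := by omega
    have h1 : (n : ℤ) ≤ |i + 1| := by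
      rcases abs_cases i with h | h <;> rcases abs_cases (i + 1) with h' | h' <;> omega
    have h2 : (n : ℤ) ≤ |i - 1| := by
      rcases abs_cases i with h | h <;> rcases abs_cases (i - 1) with h' | h' <;> omega
    rw [hv i h0] at ht
    have e1 : 2 * i / 2 = i := by omega
    have e2 : (2 * i + 1) / 2 = i := by omega
    have e3 : 2 * i - i = i := by omega
    have e4 : 2 * i + 1 - i = i + 1 := by omega
    rcases far T N hF a i (hb i (by omega)) y t ht with h | h | h | h | h | h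
    · exact absurd (h.1 ▸ hL a _ le_rfl h1) hy
    · exact absurd (h.1 ▸ hL (a + 1) _ (by omega) h0) hy
    · exact absurd (h.1 ▸ hL (a + 1) _ (by omega) h2) hy
    · exact absurd (h.1 ▸ hL a _ le_rfl h2) hy
    · left; simp only [ex, e1, e3, h.1]
    · right; simp only [ex, e2, e4, h.1]

/-- a sequence of edges that is explicit on the left -/
lemma seq (hw : S_wb) (W : Wall T a) (hn : W.NoWW) (k0 : ℤ)
    (h0 : ∀ k ≤ k0, E W (ex a k) ∧ Nx W (ex a k) (ex a (k + 1))) :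
    ∃ e : ℤ → ℤ × ℂ, (∀ k, E W (e k) ∧ Nx W (e k) (e (k + 1))) ∧ ∀ k ≤ k0, e k = ex a k := by
  have hf : ∀ p : {p // E W p}, ∃ q : {p // E W p}, Nx W p.1 q.1 := fun p => by
    obtain ⟨q, h1, h2⟩ := fwd hw W hn p.2
    exact ⟨⟨q, h1⟩, h2⟩
  choose f hf using hf
  let p0 : {p // E W p} := ⟨ex a k0, (h0 k0 le_rfl).1⟩
  refine ⟨fun k => if k ≤ k0 then ex a k else (f^[(k - k0).toNat] p0).1, fun k => ?_,
    fun k hk => if_pos hk⟩
  have key : ∀ k, k0 ≤ k →
      (if k ≤ k0 then ex a k else (f^[(k - k0).toNat] p0).1) = (f^[(k - k0).toNat] p0).1 := by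
    intro k hk
    split_ifs with h
    · obtain rfl : k = k0 := le_antisymm h hk
      simp [p0]
    · rfl
  rcases lt_or_ge k k0 with hk | hk
  · dsimp only
    rw [if_pos hk.le, if_pos (show k + 1 ≤ k0 by omega)]
    exact h0 k hk.le
  · dsimp only
    rw [key k hk, key (k + 1) (by omega)]
    have : (k + 1 - k0).toNat = (k - k0).toNat + 1 := by omega
    rw [this, Function.iterate_succ_apply']
    exact ⟨(f^[(k - k0).toNat] p0).2, hf _⟩

/-- every edge occurs in the sequence -/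
lemma compl (hw : S_wb) (W : Wall T a) (hn : W.NoWW) (hm : W.Mono) (e : ℤ → ℤ × ℂ)
    (he : ∀ k, E W (e k) ∧ Nx W (e k) (e (k + 1))) (i0 : ℤ)
    (h0 : ∀ i ≤ i0, ∀ y, E W (i, y) → ∃ k, e k = (i, y)) :
    ∀ i y, E W (i, y) → ∃ k, e k = (i, y) := by
  intro i
  rcases le_total i i0 with hi | hi
  · exact h0 i hi
  induction i, hi using Int.leInduction with
  | base => exact h0 i0 le_rfl
  | succ i hi ih =>
    by_contra hc
    push Not at hc
    let S : Set ℂ := {y | E W (i + 1, y) ∧ ∀ k, e k ≠ (i + 1, y)}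
    have hS : S.Finite := (fin_nb T (W.v (i + 1))).subset fun y hy => hy.1.2
    obtain ⟨y, ⟨hy, hy'⟩, hmin⟩ := Set.exists_min_image S Complex.re hS hc
    obtain ⟨⟨j, x⟩, hp, hpq⟩ := bwd hw W hn hy
    have hin : ∃ k, e k = (j, x) := by
      rcases hpq with ⟨h1, -, -⟩ | ⟨h1, h2⟩
      · dsimp only at h1
        obtain rfl : j = i := by omega
        exact ih x hp
      · dsimp only at h1 h2
        subst h1
        by_contra hx
        push Not at hx
        exact absurd (hm _ _ _ h2 hp.1 hy.1) (not_lt.2 (hmin x ⟨hp, hx⟩))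
    obtain ⟨k, hk⟩ := hin
    exact hy' (k + 1) (fwd_uniq hw W (he (k + 1)).1 hy (hk ▸ (he k).2) hpq)

lemma ivt (J : ℤ → ℤ) (hJ : ∀ k, J (k + 1) = J k ∨ J (k + 1) = J k + 1) (j k0 : ℤ)
    (h0 : J k0 ≤ j) : ∀ k, k0 ≤ k → j < J k → ∃ l, J l = j ∧ J (l + 1) = j + 1 := by
  intro k hk
  induction k, hk using Int.leInduction with
  | base => intro h; omega
  | succ k hk ih =>
    intro h
    rcases lt_or_ge j (J k) with h1 | h1
    · exact ih h1
    · refine ⟨k, ?_, ?_⟩ <;> rcases hJ k with h2 | h2 <;> omega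

/-- the lower end point depends only on the number of chain steps -/
lemma const (W : Wall T a) (e : ℤ → ℤ × ℂ) (he : ∀ k, Nx W (e k) (e (k + 1))) (k : ℤ) :
    ∀ l, k ≤ l → k - (e k).1 ≤ l - (e l).1 ∧ (l - (e l).1 = k - (e k).1 → (e l).2 = (e k).2) := by
  intro l hl
  induction l, hl using Int.leInduction with
  | base => exact ⟨le_rfl, fun _ => rfl⟩
  | succ l hl ih =>
    rcases he l with ⟨h1, h2, -⟩ | ⟨h1, -⟩
    · exact ⟨by omega, fun h => h2.trans (ih.2 (by omega))⟩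
    · exact ⟨by omega, fun h => by omega⟩

end Orb

open Orb in
theorem orb (hw : S_wb) : S_orb := by
  intro T a W N hF hn hm
  obtain ⟨n, hx1, hx2⟩ := far_edges hw W hF
  obtain ⟨e, he, hl⟩ := seq hw W hn (-(2 * n)) fun k hk =>
    hx1 k (by rcases abs_cases k with h | h <;> omega)
  have hc := compl hw W hn hm e he (-(n + 1)) fun i hi y h => by
    rcases hx2 i y (by rcases abs_cases i with h | h <;> omega) h with h1 | h1
    · exact ⟨2 * i, by rw [hl _ (by omega), h1]⟩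
    · exact ⟨2 * i + 1, by rw [hl _ (by omega), h1]⟩
  obtain ⟨k1, hk1⟩ : ∃ k, e k = ex a n := hc _ _ (hx1 n (by simp)).1
  have hr : ∀ k, k1 ≤ k → e k = ex a (k + (n - k1)) := by
    intro k hk
    induction k, hk using Int.leInduction with
    | base => rw [hk1]; congr 1; ring
    | succ k hk ih =>
      have h1 := hx1 (k + (n - k1)) (by rcases abs_cases (k + (n - k1)) with h | h <;> omega)
      have h2 := hx1 (k + (n - k1) + 1)
        (by rcases abs_cases (k + (n - k1) + 1) with h | h <;> omega)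
      have e1 : k + 1 + (n - k1) = k + (n - k1) + 1 := by ring
      rw [e1]
      exact fwd_uniq hw W (he (k + 1)).1 h2.1 (ih ▸ (he k).2) h1.2
  obtain ⟨d, hd⟩ : ∃ d : ℤ, d = n - k1 := ⟨_, rfl⟩
  rw [← hd] at hr
  have hJ : ∀ k, k + 1 - (e (k + 1)).1 = k - (e k).1 ∨ k + 1 - (e (k + 1)).1 = k - (e k).1 + 1 := by
    intro k
    rcases (he k).2 with ⟨h1, -⟩ | ⟨h1, -⟩ <;> omega
  have hon : ∀ j : ℤ, ∃ l, l - (e l).1 = j ∧ l + 1 - (e (l + 1)).1 = j + 1 := by
    intro j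
    obtain ⟨s, hs1, hs2, hs3, hs4, hs5⟩ :
        ∃ s : ℤ, n ≤ s ∧ -j ≤ s ∧ k1 ≤ 2 * s ∧ j + d + 1 ≤ s ∧ j - d + 1 ≤ s :=
      ⟨n + |j| + |k1| + |d| + 1, by
        rcases abs_cases j with h | h <;> rcases abs_cases k1 with h' | h' <;>
          rcases abs_cases d with h'' | h'' <;> omega⟩
    refine ivt (fun k => k - (e k).1) hJ j (-(2 * s)) ?_ (2 * s) (by omega) ?_
    · rw [hl _ (by omega)]
      simp only [ex]
      omega
    · rw [hr _ hs3]
      simp only [ex]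
      omega
  choose κ hκ hκ' using hon
  have hcc : ∀ k, (e (κ (k - (e k).1))).2 = (e k).2 := by
    intro k
    rcases le_total k (κ (k - (e k).1)) with h | h
    · exact (const W e (fun k => (he k).2) _ _ h).2 (hκ _)
    · exact ((const W e (fun k => (he k).2) _ _ h).2 (hκ _).symm).symm
  obtain ⟨M, hM1, hM2, hM3⟩ : ∃ M : ℕ, 2 * (n : ℤ) ≤ M ∧ k1 ≤ M ∧ k1 - d ≤ 2 * (M : ℤ) :=
    ⟨2 * n + k1.natAbs + d.natAbs, by omega⟩
  refine ⟨⟨fun j => (e (κ j)).2, fun k => (e k).1, d, M, fun j => ?_, fun k => ?_, fun j => ?_,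
    fun k hk => ⟨?_, ?_⟩, fun k hk => ⟨?_, ?_⟩, fun i y t ht hy => ?_⟩⟩
  · obtain ⟨h1, t, ht⟩ := (he (κ j)).1
    exact ⟨(T.mem ht).2.1, h1⟩
  · rw [hcc k]
    rcases (he k).2 with ⟨h1, -, h3⟩ | ⟨h1, h2⟩
    · exact Or.inl ⟨h1, h3⟩
    · refine Or.inr ⟨h1, ?_⟩
      have e1 : k - (e k).1 + 1 = k + 1 - (e (k + 1)).1 := by omega
      rw [e1, hcc (k + 1)]
      exact h2
  · have h1 := hκ j
    have h2 := hκ' j
    have h3 := hcc (κ j + 1)
    rw [h2] at h3
    rw [h3]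
    rcases (he (κ j)).2 with ⟨h4, -⟩ | ⟨-, h4⟩
    · omega
    · exact hm _ _ _ h4 (he _).1.1 (he _).1.1
  · rw [hl k (by omega)]; rfl
  · have h1 := hcc (2 * k)
    have e1 : 2 * k - 2 * k / 2 = k := by omega
    rw [hl (2 * k) (by omega)] at h1
    simpa only [ex, e1] using h1
  · rw [hr k (by omega)]; rfl
  · have h1 := hcc (2 * k + d)
    have e1 : 2 * k + d - (2 * k + d + d) / 2 = k := by omega
    have e2 : 2 * k + d + d - (2 * k + d + d) / 2 = k + d := by omega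
    rw [hr (2 * k + d) (by omega)] at h1
    simpa only [ex, e1, e2] using h1
  · obtain ⟨k, hk⟩ := hc i y ⟨hy, t, ht⟩
    refine ⟨k, by rw [hk], ?_⟩
    rw [hcc k, hk]

end

end Pool.Agent.P.MP_dd077d_co
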