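import Pool.Agent.P.MP_dd077d_co.Icp

/-!
Soundness of the interval checker.
-/

namespace Pool.Agent.P.MP_dd077d_co

namespace Icp

/-! ### evaluation lemmas -/

theorem force_eq (x : ℕ) (f : ℕ → ℕ) : force x f = f x := (rfl)
theorem nrec (z : ℕ) (g : ℕ → ℕ) {m : ℕ} (hm : m ≠ 0) :
    (Nat.rec z (fun b _ => force (Nat.succ b) g) m : ℕ) = g m := by
  cases m with
  | zero => exact absurd rfl hm
  | succ m => rfl
theorem nrec_zero (a : ℕ) {m : ℕ} (h : m = 0 ∨ a = 0) :
    (Nat.rec (nat_lit 0) (fun _ _ => a) m : ℕ) = 0 := by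
  cases m with
  | zero => rfl
  | succ m => exact h.resolve_left (Nat.succ_ne_zero _)
theorem cst_dn (p q bx : ℕ) : (cst p q).dn bx = p := (rfl)
theorem cst_up (p q bx : ℕ) : (cst p q).up bx = q := (rfl)
theorem mx_eq (a b : ℕ) : mx a b = max a b := by
  change a + (b - a) = _
  omega
theorem mn_eq (a b : ℕ) : mn a b = min a b := by
  change a - (a - b) = _
  omega

theorem brec {α : Type} (a b : α) (m n : ℕ) :
    (Bool.rec a b (Nat.ble m n) : α) = if m ≤ n then b else a := by
  by_cases h : m ≤ n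
  · rw [if_pos h, Nat.ble_eq_true_of_le h]
  · rw [if_neg h]
    cases h' : Nat.ble m n
    · rfl
    · exact absurd (Nat.le_of_ble_eq_true h') h

/-! ### the coding of reals -/

theorem val_mono {a b : ℕ} (h : a ≤ b) : val a ≤ val b := by
  have : (a : ℝ) ≤ b := by exact_mod_cast h
  unfold val
  linarith

theorem cast_sub_ge (a b : ℕ) : (a : ℝ) - b ≤ ((a - b : ℕ) : ℝ) := by
  rcases le_total a b with h | h
  · have h1 : (a : ℝ) ≤ b := by exact_mod_cast h
    have h2 : (0 : ℝ) ≤ ((a - b : ℕ) : ℝ) := Nat.cast_nonneg _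
    linarith
  · rw [Nat.cast_sub h]

theorem cast_div_ge (a : ℕ) {k : ℕ} (hk : 0 < k) : (a : ℝ) + 1 ≤ (((a / k : ℕ) : ℝ) + 1) * k := by
  have := Nat.lt_div_mul_add (a := a) hk
  have h : a + 1 ≤ (a / k + 1) * k := by rw [Nat.add_mul, one_mul]; omega
  exact_mod_cast h

theorem cast_div_le (a k : ℕ) : ((a / k : ℕ) : ℝ) * k ≤ a := by
  exact_mod_cast Nat.div_mul_le_self a k

theorem le_val_max {x : ℝ} {a b : ℕ} (h : x ≤ val a ∨ x ≤ val b) : x ≤ val (max a b) :=
  h.elim (fun h => h.trans (val_mono (le_max_left _ _))) fun h =>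
    h.trans (val_mono (le_max_right _ _))

theorem le_val_min {x : ℝ} {a b : ℕ} (h : x ≤ val a) (h' : x ≤ val b) : x ≤ val (min a b) := by
  rcases le_total a b with e | e
  · rwa [min_eq_left e]
  · rwa [min_eq_right e]

theorem val_add (a b : ℕ) : val a + val b ≤ val (a + b - 4503599627370496) := by
  have := cast_sub_ge (a + b) 4503599627370496
  push_cast at this
  unfold val
  linarith

theorem val_neg (a : ℕ) : -val a ≤ val (9007199254740992 - a) := by
  have := cast_sub_ge 9007199254740992 a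
  push_cast at this
  unfold val
  linarith

theorem pos_le {a : ℝ} {q : ℕ} (h : a ≤ val q) :
    max a 0 ≤ ((q - 4503599627370496 : ℕ) : ℝ) / 4294967296 := by
  have h1 := cast_sub_ge q 4503599627370496
  have h2 : (0 : ℝ) ≤ ((q - 4503599627370496 : ℕ) : ℝ) := Nat.cast_nonneg _
  push_cast at h1
  unfold val at h
  exact max_le (by linarith) (by positivity)

theorem le_pos {a : ℝ} {p : ℕ} (h : -a ≤ val p) :
    ((4503599627370496 - p : ℕ) : ℝ) / 4294967296 ≤ max a 0 := by
  rcases le_total 4503599627370496 p with e | e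
  · rw [Nat.sub_eq_zero_of_le e]
    simp
  · rw [Nat.cast_sub e]
    unfold val at h
    push_cast
    exact le_max_of_le_left (by linarith)

theorem dnn (u : ℕ) : (0 : ℝ) ≤ (u : ℝ) / 4294967296 := by positivity

theorem mpU_aux {a b : ℝ} {u w : ℕ} (h1 : max a 0 ≤ (u : ℝ) / 4294967296)
    (h2 : max b 0 ≤ (w : ℝ) / 4294967296) :
    max a 0 * max b 0 ≤ val (4503599627370497 + u * w / 4294967296) := by
  have h3 := mul_le_mul h1 h2 (le_max_right _ _) (dnn u)
  have h4 := cast_div_ge (u * w) (k := 4294967296) (by norm_num)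
  generalize u * w / 4294967296 = t at h4 ⊢
  unfold val
  push_cast at h4 ⊢
  nlinarith

theorem mpU_ge {a b : ℝ} {q1 q2 : ℕ} (h1 : a ≤ val q1) (h2 : b ≤ val q2) :
    max a 0 * max b 0 ≤ val (mpU q1 q2) := mpU_aux (pos_le h1) (pos_le h2)

theorem mpD_aux {a b : ℝ} {u w : ℕ} (h1 : (u : ℝ) / 4294967296 ≤ max a 0)
    (h2 : (w : ℝ) / 4294967296 ≤ max b 0) :
    -(max a 0 * max b 0) ≤ val (4503599627370496 - u * w / 4294967296) := by
  have h3 := mul_le_mul h1 h2 (dnn w) (le_max_right _ _)
  have h4 := cast_div_le (u * w) 4294967296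
  generalize u * w / 4294967296 = t at h4 ⊢
  have h5 := cast_sub_ge 4503599627370496 t
  generalize 4503599627370496 - t = z at h5 ⊢
  unfold val
  push_cast at h4 h5 ⊢
  nlinarith

theorem mpD_ge {a b : ℝ} {p1 p2 : ℕ} (h1 : -a ≤ val p1) (h2 : -b ≤ val p2) :
    -(max a 0 * max b 0) ≤ val (mpD p1 p2) := mpD_aux (le_pos h1) (le_pos h2)

theorem pUp_ge (n m : ℕ) : val n * val m ≤ val (pUp n m) := by
  have e : pUp n m = (n * m + 20282428946464784258018341552127 - 4503599627370496 * (n + m)) /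
    4294967296 := rfl
  have h1 := cast_sub_ge (n * m + 20282428946464784258018341552127) (4503599627370496 * (n + m))
  have h2 := cast_div_ge (n * m + 20282428946464784258018341552127 - 4503599627370496 * (n + m))
    (k := 4294967296) (by norm_num)
  rw [e]
  unfold val
  generalize n * m + 20282428946464784258018341552127 - 4503599627370496 * (n + m) = z at h1 h2 ⊢
  generalize z / 4294967296 = t at h2 ⊢
  push_cast at h1 h2 ⊢
  nlinarith

theorem pDn_ge (n m : ℕ) : -(val n * val m) ≤ val (pDn n m) := by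
  have e : pDn n m = (4503599627370496 * (n + m) + 19342813113834071090266111 -
    (n * m + 20282409603651670423947251286016)) / 4294967296 := rfl
  have h1 := cast_sub_ge (4503599627370496 * (n + m) + 19342813113834071090266111)
    (n * m + 20282409603651670423947251286016)
  have h2 := cast_div_ge (4503599627370496 * (n + m) + 19342813113834071090266111 -
    (n * m + 20282409603651670423947251286016)) (k := 4294967296) (by norm_num)
  rw [e]
  unfold val
  generalize 4503599627370496 * (n + m) + 19342813113834071090266111 -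
    (n * m + 20282409603651670423947251286016) = z at h1 h2 ⊢
  generalize z / 4294967296 = t at h2 ⊢
  push_cast at h1 h2 ⊢
  nlinarith

theorem corner {a b p1 q1 p2 q2 : ℝ} (h1 : -a ≤ p1) (h2 : a ≤ q1) (h3 : -b ≤ p2) (h4 : b ≤ q2) :
    (a * b ≤ p1 * p2 ∨ a * b ≤ q1 * q2) ∨ (a * b ≤ -(p1 * q2) ∨ a * b ≤ -(q1 * p2)) := by
  rcases le_total 0 b with hb | hb
  · rcases le_total 0 q1 with hq | hq
    · exact Or.inl (Or.inr (by nlinarith))
    · exact Or.inr (Or.inr (by nlinarith))
  · rcases le_total 0 p1 with hq | hq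
    · exact Or.inl (Or.inl (by nlinarith))
    · exact Or.inr (Or.inl (by nlinarith))

theorem nonneg_of_le {a : ℝ} {p : ℕ} (h : -a ≤ val p) (hp : p ≤ 4503599627370496) : 0 ≤ a := by
  have : (p : ℝ) ≤ 4503599627370496 := by exact_mod_cast hp
  unfold val at h
  linarith

theorem mulU_ge {a b : ℝ} {p1 q1 p2 q2 : ℕ} (h1 : -a ≤ val p1) (h2 : a ≤ val q1)
    (h3 : -b ≤ val p2) (h4 : b ≤ val q2) : a * b ≤ val (mulU p1 q1 p2 q2) := by
  have hG : a * b ≤ val (mulG p1 q1 p2 q2) := by
    rw [mulG, force_eq, force_eq, mx_eq, mx_eq, mx_eq]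
    refine le_val_max ((corner h1 h2 h3 h4).imp (fun h => le_val_max ?_) fun h => le_val_max ?_)
    · exact h.imp (fun h => h.trans (pUp_ge _ _)) fun h => h.trans (pUp_ge _ _)
    · exact h.imp (fun h => h.trans (pDn_ge _ _)) fun h => h.trans (pDn_ge _ _)
  rw [mulU, force_eq, force_eq, brec, brec]
  split_ifs with k1 k2
  · have := mpU_ge h2 h4
    rwa [max_eq_left (nonneg_of_le h1 k1), max_eq_left (nonneg_of_le h3 k2)] at this
  · exact hG
  · exact hG

theorem mulD_ge {a b : ℝ} {p1 q1 p2 q2 : ℕ} (h1 : -a ≤ val p1) (h2 : a ≤ val q1)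
    (h3 : -b ≤ val p2) (h4 : b ≤ val q2) : -(a * b) ≤ val (mulD p1 q1 p2 q2) := by
  have hG : -(a * b) ≤ val (mulH p1 q1 p2 q2) := by
    rw [mulH, force_eq, force_eq, mx_eq, mx_eq, mx_eq, ← mul_neg]
    refine le_val_max ((corner (b := -b) h1 h2 ((neg_neg b).symm ▸ h4) h3).symm.imp
      (fun h => le_val_max ?_) fun h => le_val_max ?_)
    · exact h.imp (fun h => h.trans (pDn_ge _ _)) fun h => h.trans (pDn_ge _ _)
    · exact h.imp (fun h => h.trans (pUp_ge _ _)) fun h => h.trans (pUp_ge _ _)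
  rw [mulD, force_eq, force_eq, brec, brec]
  split_ifs with k1 k2
  · have := mpD_ge h1 h3
    rwa [max_eq_left (nonneg_of_le h1 k1), max_eq_left (nonneg_of_le h3 k2)] at this
  · exact hG
  · exact hG

theorem rt_spec (n : ℕ) : 0 < rt n ∧ n ≤ rt n * rt n := by
  rw [rt, force_eq, force_eq, force_eq, force_eq, force_eq, brec]
  split_ifs with h
  · exact ⟨Nat.succ_pos _, h⟩
  · exact ⟨Nat.succ_pos _, by nlinarith [Nat.succ_eq_add_one n]⟩

theorem sqrt_up {a : ℝ} {q : ℕ} (h : a ≤ val q) :
    √a ≤ val (4503599627370496 + rt ((q - 4503599627370496) * 4294967296)) := by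
  have h1 := (le_max_left _ _).trans (pos_le h)
  have h2 : ((((q - 4503599627370496) * 4294967296 : ℕ)) : ℝ) ≤
      ((rt ((q - 4503599627370496) * 4294967296) * rt ((q - 4503599627370496) * 4294967296) : ℕ) :
        ℝ) := by exact_mod_cast (rt_spec _).2
  generalize rt ((q - 4503599627370496) * 4294967296) = r at h2 ⊢
  generalize q - 4503599627370496 = u at h1 h2
  have e : val (4503599627370496 + r) = r / 4294967296 := by
    unfold val
    push_cast
    ring
  rw [e, Real.sqrt_le_iff]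
  push_cast at h2
  exact ⟨by positivity, by nlinarith⟩

theorem sqrt_dn {a : ℝ} {p : ℕ} (h : -a ≤ val p) :
    -√a ≤ val (4503599627370496 - (4503599627370496 - p) * 4294967296 /
      rt ((4503599627370496 - p) * 4294967296)) := by
  have h1 := le_pos h
  obtain ⟨h2, h3⟩ := rt_spec ((4503599627370496 - p) * 4294967296)
  generalize rt ((4503599627370496 - p) * 4294967296) = r at h2 h3 ⊢
  generalize 4503599627370496 - p = u at h1 h3 ⊢
  have h4 := Nat.div_mul_le_self (u * 4294967296) r
  have h5 := cast_sub_ge 4503599627370496 (u * 4294967296 / r)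
  generalize u * 4294967296 / r = t at h4 h5 ⊢
  have h6 : t ≤ r := Nat.le_of_mul_le_mul_right (h4.trans h3) h2
  have h7 : ((t * t : ℕ) : ℝ) ≤ ((u * 4294967296 : ℕ) : ℝ) := by
    exact_mod_cast (Nat.mul_le_mul_left t h6).trans h4
  have h8 : (t : ℝ) / 4294967296 ≤ √(max a 0) := by
    refine Real.le_sqrt_of_sq_le ?_
    push_cast at h7
    nlinarith
  have h9 : √(max a 0) = √a := by
    rcases le_total a 0 with e | e
    · rw [max_eq_right e, Real.sqrt_zero, Real.sqrt_eq_zero_of_nonpos e]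
    · rw [max_eq_left e]
  unfold val
  push_cast at h5
  linarith

theorem inv_dn {a : ℝ} {q : ℕ} (h : a ≤ val q) : -(1 / max a (1 / 1024)) ≤
    val (4503599627370496 - 18446744073709551616 / max 4194304 (q - 4503599627370496)) := by
  have h1 := (le_max_left _ _).trans (pos_le h)
  have h2 : max a (1 / 1024) ≤ ((max 4194304 (q - 4503599627370496) : ℕ) : ℝ) / 4294967296 := by
    have k1 : ((q - 4503599627370496 : ℕ) : ℝ) ≤ ((max 4194304 (q - 4503599627370496) : ℕ) : ℝ) := by
      exact_mod_cast le_max_right _ _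
    have k2 : ((4194304 : ℕ) : ℝ) ≤ ((max 4194304 (q - 4503599627370496) : ℕ) : ℝ) := by
      exact_mod_cast le_max_left _ _
    rw [Nat.cast_ofNat] at k2
    exact max_le (by linarith) (by linarith)
  generalize max 4194304 (q - 4503599627370496) = M at h2 ⊢
  have h3 := cast_div_le 18446744073709551616 M
  have h4 := cast_sub_ge 4503599627370496 (18446744073709551616 / M)
  generalize 18446744073709551616 / M = t at h3 h4 ⊢
  have h5 : 0 < max a (1 / 1024) := lt_max_of_lt_right (by norm_num)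
  have h6 : (t : ℝ) / 4294967296 ≤ 1 / max a (1 / 1024) := by
    rw [le_div_iff₀ h5]
    have := mul_le_mul_of_nonneg_left h2 (dnn t)
    push_cast at h3
    nlinarith
  unfold val
  push_cast at h4
  linarith

theorem inv_up {a : ℝ} {p : ℕ} (h : -a ≤ val p) : 1 / max a (1 / 1024) ≤
    val (4503599627370497 + 18446744073709551616 / max 4194304 (4503599627370496 - p)) := by
  have h1 : ((4503599627370496 - p : ℕ) : ℝ) / 4294967296 ≤ max a (1 / 1024) :=
    (le_pos h).trans (max_le_max le_rfl (by norm_num))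
  have h2 : ((max 4194304 (4503599627370496 - p) : ℕ) : ℝ) / 4294967296 ≤ max a (1 / 1024) := by
    rcases le_total 4194304 (4503599627370496 - p) with e | e
    · rwa [max_eq_right e]
    · rw [max_eq_left e]
      exact le_max_of_le_right (by norm_num)
  have h0 : 0 < max 4194304 (4503599627370496 - p) := lt_max_of_lt_left (by norm_num)
  generalize max 4194304 (4503599627370496 - p) = M at h0 h2 ⊢
  have h3 := cast_div_ge 18446744073709551616 h0
  generalize 18446744073709551616 / M = t at h3 ⊢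
  have h5 : 0 < max a (1 / 1024) := lt_max_of_lt_right (by norm_num)
  have e : val (4503599627370497 + t) = (t + 1) / 4294967296 := by
    unfold val
    push_cast
    ring
  rw [e, div_le_iff₀ h5]
  have := mul_le_mul_of_nonneg_left h2 (show (0 : ℝ) ≤ (t + 1) / 4294967296 by positivity)
  push_cast at h3
  nlinarith

theorem c_dn (n d : ℕ) : -((n : ℝ) / d) ≤ val (4503599627370496 - n * 4294967296 / d) := by
  have h1 := cast_sub_ge 4503599627370496 (n * 4294967296 / d)
  have h2 : ((n * 4294967296 / d : ℕ) : ℝ) ≤ ((n * 4294967296 : ℕ) : ℝ) / d := Nat.cast_div_le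
  generalize n * 4294967296 / d = t at h1 h2 ⊢
  unfold val
  push_cast at h1 h2
  rw [mul_div_right_comm] at h2
  linarith

theorem c_up (n d : ℕ) : (n : ℝ) / d ≤ val (4503599627370496 +
    if n * 4294967296 ≤ n * 4294967296 / d * d then n * 4294967296 / d
    else Nat.succ (n * 4294967296 / d)) := by
  have e (t : ℕ) : val (4503599627370496 + t) = t / 4294967296 := by
    unfold val
    push_cast
    ring
  rw [e]
  rcases Nat.eq_zero_or_pos d with rfl | hd
  · rw [Nat.cast_zero, div_zero]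
    positivity
  have hd' : (0 : ℝ) < d := by exact_mod_cast hd
  rw [div_le_div_iff₀ hd' (by norm_num)]
  split_ifs with h
  · exact_mod_cast h
  · have := cast_div_ge (n * 4294967296) hd
    generalize n * 4294967296 / d = t at this ⊢
    push_cast at this ⊢
    linarith

/-! ### interval evaluation -/

/-- the point lies in the box -/
def InBox (n bx : ℕ) (x : ℕ → ℝ) : Prop :=
  ∀ i < n, -x i ≤ val (fld bx (sl i)) ∧ x i ≤ val (fld bx (su i))

section eqs
variable (a b : E) (i n d : ℕ)
theorem comp_v : comp (.v i) =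
    ⟨fun bx => fld bx (sl i),
      fun bx => fld bx (su i)⟩ := rfl
theorem comp_u : comp (.u i) =
    ⟨fun bx => 9007199254740992 - fld bx (su i),
      fun bx => fld bx (su i)⟩ := rfl
theorem comp_l : comp (.l i) =
    ⟨fun bx => fld bx (sl i),
      fun bx => 9007199254740992 - fld bx (sl i)⟩ := rfl
theorem comp_c : comp (.c n d) =
    cst (Nat.sub (nat_lit 4503599627370496) (Nat.div (Nat.mul n (nat_lit 4294967296)) d))
      (Nat.add (nat_lit 4503599627370496)
        (Bool.rec (Nat.succ (Nat.div (Nat.mul n (nat_lit 4294967296)) d))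
          (Nat.div (Nat.mul n (nat_lit 4294967296)) d) (Nat.ble (Nat.mul n (nat_lit 4294967296))
            (Nat.mul (Nat.div (Nat.mul n (nat_lit 4294967296)) d) d)))) := rfl
theorem comp_add : comp (.add a b) =
    ⟨fun bx => (comp a).dn bx + (comp b).dn bx - 4503599627370496,
      fun bx => (comp a).up bx + (comp b).up bx - 4503599627370496⟩ := rfl
theorem comp_sub : comp (.sub a b) =
    ⟨fun bx => (comp a).dn bx + (comp b).up bx - 4503599627370496,
      fun bx => (comp a).up bx + (comp b).dn bx - 4503599627370496⟩ := rfl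
theorem comp_mul : comp (.mul a b) =
    ⟨fun bx => mulD ((comp a).dn bx) ((comp a).up bx) ((comp b).dn bx) ((comp b).up bx),
      fun bx => mulU ((comp a).dn bx) ((comp a).up bx) ((comp b).dn bx) ((comp b).up bx)⟩ := rfl
theorem comp_mp : comp (.mp a b) =
    ⟨fun bx => mpD ((comp a).dn bx) ((comp b).dn bx),
      fun bx => mpU ((comp a).up bx) ((comp b).up bx)⟩ := rfl
theorem comp_neg : comp (.neg a) =
    ⟨(comp a).up, (comp a).dn⟩ := rfl
theorem comp_sq : comp (.sq a) =
    ⟨fun bx => force (mn ((comp a).dn bx) ((comp a).up bx)) fun t => mpD t t,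
      fun bx => force (mx ((comp a).dn bx) ((comp a).up bx)) fun t => mpU t t⟩ := rfl
theorem comp_sqrt : comp (.sqrt a) =
    ⟨fun bx => force ((4503599627370496 - (comp a).dn bx) * 4294967296) fun m => 4503599627370496 - m / rt m,
      fun bx => force (((comp a).up bx - 4503599627370496) * 4294967296) fun n => 4503599627370496 + rt n⟩ := rfl
theorem comp_min : comp (.min a b) =
    ⟨fun bx => mx ((comp a).dn bx) ((comp b).dn bx),
      fun bx => mn ((comp a).up bx) ((comp b).up bx)⟩ := rfl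
theorem comp_max : comp (.max a b) =
    ⟨fun bx => mn ((comp a).dn bx) ((comp b).dn bx),
      fun bx => mx ((comp a).up bx) ((comp b).up bx)⟩ := rfl
theorem comp_inv : comp (.inv a) =
    ⟨fun bx => 4503599627370496 - 18446744073709551616 / mx 4194304 ((comp a).up bx - 4503599627370496),
      fun bx => 4503599627370497 + 18446744073709551616 / mx 4194304 (4503599627370496 - (comp a).dn bx)⟩ := rfl
theorem comp_abs : comp (.abs a) =
    ⟨fun bx => mn 4503599627370496 (mn ((comp a).dn bx) ((comp a).up bx)),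
      fun bx => mx ((comp a).dn bx) ((comp a).up bx)⟩ := rfl
theorem comp_k : comp (.k a) = cst ((comp a).dn 0) ((comp a).up 0) := rfl
end eqs

theorem c_up' (n d N : ℕ) (h : N = n * 4294967296) : (n : ℝ) / d ≤
    val (Nat.add (nat_lit 4503599627370496) (Bool.rec (Nat.succ (Nat.div N d)) (Nat.div N d)
      (Nat.ble N (Nat.mul (Nat.div N d) d)))) := by
  have := c_up n d
  rw [← h] at this
  rw [brec]
  exact this

theorem comp_sound (lo x hi : ℕ → ℝ) (e : E) : ∀ (n bx : ℕ), InBox n bx x →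
    (∀ i < n, hi i = val (fld bx (su i)) ∧ lo i = -val (fld bx (sl i))) → E.wf n e = true →
    -(e.ev lo x hi) ≤ val ((comp e).dn bx) ∧ e.ev lo x hi ≤ val ((comp e).up bx) := by
  induction e with
  | v i =>
    intro n bx h _ w
    rw [comp_v]
    exact h i (Nat.blt_eq.mp w)
  | u i =>
    intro n bx _ h w
    have := (h i (Nat.blt_eq.mp w)).1
    rw [comp_u]
    exact ⟨(neg_le_neg this.ge).trans (val_neg _), this.le⟩
  | l i =>
    intro n bx _ h w
    have := (h i (Nat.blt_eq.mp w)).2
    rw [comp_l]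
    exact ⟨(neg_eq_iff_eq_neg.2 this).le, this.le.trans (val_neg _)⟩
  | c n d =>
    intro _ bx _ _ _
    rw [comp_c, cst_dn, cst_up]
    exact ⟨c_dn n d, c_up' n d _ rfl⟩
  | add a b ia ib =>
    intro n bx h h' w
    obtain ⟨w1, w2⟩ := Bool.and_eq_true_iff.1 w
    obtain ⟨a1, a2⟩ := ia n bx h h' w1
    obtain ⟨b1, b2⟩ := ib n bx h h' w2
    rw [comp_add]
    exact ⟨(neg_add _ _).le.trans ((add_le_add a1 b1).trans (val_add _ _)),
      (add_le_add a2 b2).trans (val_add _ _)⟩
  | sub a b ia ib =>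
    intro n bx h h' w
    obtain ⟨w1, w2⟩ := Bool.and_eq_true_iff.1 w
    obtain ⟨a1, a2⟩ := ia n bx h h' w1
    obtain ⟨b1, b2⟩ := ib n bx h h' w2
    rw [comp_sub]
    exact ⟨(show -(a.ev lo x hi - b.ev lo x hi) = -a.ev lo x hi + b.ev lo x hi by ring).le.trans
      ((add_le_add a1 b2).trans (val_add _ _)),
      (sub_eq_add_neg _ _).le.trans ((add_le_add a2 b1).trans (val_add _ _))⟩
  | mul a b ia ib =>
    intro n bx h h' w
    obtain ⟨w1, w2⟩ := Bool.and_eq_true_iff.1 w
    obtain ⟨a1, a2⟩ := ia n bx h h' w1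
    obtain ⟨b1, b2⟩ := ib n bx h h' w2
    rw [comp_mul]
    exact ⟨mulD_ge a1 a2 b1 b2, mulU_ge a1 a2 b1 b2⟩
  | mp a b ia ib =>
    intro n bx h h' w
    obtain ⟨w1, w2⟩ := Bool.and_eq_true_iff.1 w
    obtain ⟨a1, a2⟩ := ia n bx h h' w1
    obtain ⟨b1, b2⟩ := ib n bx h h' w2
    rw [comp_mp]
    exact ⟨mpD_ge a1 b1, mpU_ge a2 b2⟩
  | neg a ia =>
    intro n bx h h' w
    obtain ⟨a1, a2⟩ := ia n bx h h' w
    rw [comp_neg]
    exact ⟨(neg_neg _).le.trans a2, a1⟩
  | sq a ia =>
    intro n bx h h' w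
    obtain ⟨a1, a2⟩ := ia n bx h h' w
    have e : a.ev lo x hi ^ 2 = max |a.ev lo x hi| 0 * max |a.ev lo x hi| 0 := by
      rw [max_eq_left (abs_nonneg _), abs_mul_abs_self, pow_two]
    have k1 : -|a.ev lo x hi| ≤ val (mn ((comp a).dn bx) ((comp a).up bx)) := by
      rw [mn_eq]
      exact le_val_min ((neg_le_neg (le_abs_self _)).trans a1) ((neg_abs_le _).trans a2)
    have k2 : |a.ev lo x hi| ≤ val (mx ((comp a).dn bx) ((comp a).up bx)) := by
      rw [mx_eq]
      exact abs_le'.2 ⟨le_val_max (Or.inr a2), le_val_max (Or.inl a1)⟩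
    rw [comp_sq]
    simp only [force_eq]
    exact ⟨(neg_le_neg e.ge).trans (mpD_ge k1 k1), e.le.trans (mpU_ge k2 k2)⟩
  | sqrt a ia =>
    intro n bx h h' w
    obtain ⟨a1, a2⟩ := ia n bx h h' w
    rw [comp_sqrt]
    simp only [force_eq]
    exact ⟨sqrt_dn a1, sqrt_up a2⟩
  | min a b ia ib =>
    intro n bx h h' w
    obtain ⟨w1, w2⟩ := Bool.and_eq_true_iff.1 w
    obtain ⟨a1, a2⟩ := ia n bx h h' w1
    obtain ⟨b1, b2⟩ := ib n bx h h' w2
    rw [comp_min]
    simp only [mx_eq, mn_eq]
    exact ⟨(max_neg_neg _ _).ge.trans (max_le (le_val_max (Or.inl a1)) (le_val_max (Or.inr b1))),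
      le_val_min ((min_le_left _ _).trans a2) ((min_le_right _ _).trans b2)⟩
  | max a b ia ib =>
    intro n bx h h' w
    obtain ⟨w1, w2⟩ := Bool.and_eq_true_iff.1 w
    obtain ⟨a1, a2⟩ := ia n bx h h' w1
    obtain ⟨b1, b2⟩ := ib n bx h h' w2
    rw [comp_max]
    simp only [mx_eq, mn_eq]
    exact ⟨le_val_min ((neg_le_neg (le_max_left _ _)).trans a1)
      ((neg_le_neg (le_max_right _ _)).trans b1),
      max_le (le_val_max (Or.inl a2)) (le_val_max (Or.inr b2))⟩
  | inv a ia =>
    intro n bx h h' w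
    obtain ⟨a1, a2⟩ := ia n bx h h' w
    rw [comp_inv]
    simp only [mx_eq]
    exact ⟨inv_dn a2, inv_up a1⟩
  | abs a ia =>
    intro n bx h h' w
    obtain ⟨a1, a2⟩ := ia n bx h h' w
    rw [comp_abs]
    simp only [mx_eq, mn_eq]
    refine ⟨le_val_min ?_ (le_val_min ((neg_le_neg (le_abs_self _)).trans a1)
      ((neg_abs_le _).trans a2)), abs_le'.2 ⟨le_val_max (Or.inr a2), le_val_max (Or.inl a1)⟩⟩
    have : val 4503599627370496 = 0 := by simp [val]
    rw [this]
    exact neg_nonpos.2 (abs_nonneg _)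
  | k a ia =>
    intro _ _ _ _ w
    rw [comp_k, cst_dn, cst_up]
    exact ia 0 0 (fun _ hi => absurd hi (Nat.not_lt_zero _))
      (fun _ hi => absurd hi (Nat.not_lt_zero _)) w

/-! ### fields of a box -/

/-- digits in base `2 ^ 64` -/
def dg : ℕ → ℕ → ℕ
  | 0, b => b % 18446744073709551616
  | j + 1, b => dg j (b / 18446744073709551616)

theorem fld_eq (j : ℕ) : ∀ b, fld b (64 * j) = dg j b := by
  have e (b s : ℕ) : fld b s = b / 2 ^ s % 18446744073709551616 := by
    rw [← Nat.shiftRight_eq_div_pow]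
    rfl
  induction j with
  | zero => intro b; rw [e, dg]; simp
  | succ j ih =>
    intro b
    rw [dg, ← ih, e, e, Nat.div_div_eq_div_mul, Nat.mul_succ, pow_add, mul_comm]
    norm_num

theorem dg_mul_le (j : ℕ) : ∀ b, dg j b * 2 ^ (64 * j) ≤ b := by
  induction j with
  | zero => intro b; rw [dg]; omega
  | succ j ih =>
    intro b
    have := ih (b / 18446744073709551616)
    rw [dg, Nat.mul_succ, pow_add, ← mul_assoc]
    omega

theorem dg_sub (j : ℕ) : ∀ j' b d, d ≤ dg j b →
    dg j' (b - d * 2 ^ (64 * j)) = if j' = j then dg j b - d else dg j' b := by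
  induction j with
  | zero =>
    intro j' b d h
    rw [dg] at h
    cases j' with
    | zero => rw [if_pos rfl, dg, dg]; omega
    | succ j' =>
      rw [if_neg (Nat.succ_ne_zero _), dg, dg]
      congr 1
      omega
  | succ j ih =>
    intro j' b d h
    have h1 := (Nat.mul_le_mul_right _ h).trans (dg_mul_le _ b)
    rw [Nat.mul_succ, pow_add, ← mul_assoc] at h1 ⊢
    cases j' with
    | zero => rw [if_neg (Nat.succ_ne_zero _).symm, dg, dg]; omega
    | succ j' =>
      rw [dg] at h
      have h2 := ih j' _ d h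
      rw [dg, dg, dg, show (b - d * 2 ^ (64 * j) * 2 ^ 64) / 18446744073709551616 =
        b / 18446744073709551616 - d * 2 ^ (64 * j) by omega, h2]
      simp

theorem dg_salt (j b : ℕ) : dg (j + 1) (salt b) = dg (j + 1) b := by
  have e : salt b = (b >>> 64) <<< 64 + (b >>> 64) % 18446744073709551557 := rfl
  rw [dg, dg, e, Nat.shiftLeft_eq, Nat.shiftRight_eq_div_pow]
  congr 1
  omega

theorem dg_setMin (j j' b y : ℕ) : dg (j' + 1) (setMin b (64 * j) y) =
    if j' + 1 = j then min (dg j b) y else dg (j' + 1) b := by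
  have e : setMin b (64 * j) y = Nat.rec b (fun d _ => salt (b - (d + 1) <<< (64 * j)))
    (fld b (64 * j) - y) := rfl
  rw [e, fld_eq]
  cases h : dg j b - y with
  | zero =>
    change dg (j' + 1) b = _
    split_ifs with h'
    · rw [h']; omega
    · rfl
  | succ d =>
    change dg (j' + 1) (salt _) = _
    rw [dg_salt, Nat.shiftLeft_eq, dg_sub _ _ _ _ (by omega)]
    split_ifs with h'
    · omega
    · rfl

theorem sl_eq (i : ℕ) : sl i = 64 * (2 * i + 1) := by
  change 128 * i + 64 = _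
  omega

theorem su_eq (i : ℕ) : su i = 64 * (2 * i + 1 + 1) := by
  change 128 * i + 128 = _
  omega

variable {n : ℕ} {x : ℕ → ℝ}

theorem InBox.ne_zero {bx : ℕ} (h : InBox n bx x) (hn : 0 < n) : bx ≠ 0 := by
  rintro rfl
  obtain ⟨h1, h2⟩ := h 0 hn
  have e (s : ℕ) : val (fld 0 s) = -1048576 := by
    have : fld 0 s = 0 := by
      change 0 >>> s % 18446744073709551616 = 0
      rw [Nat.zero_shiftRight]
    rw [this, val]
    norm_num
  rw [e] at h1 h2
  linarith

theorem InBox.set_su {bx i y : ℕ} (h : InBox n bx x) (hy : x i ≤ val y) :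
    InBox n (setMin bx (su i) y) x := fun j hj => by
  obtain ⟨h1, h2⟩ := h j hj
  rw [sl_eq, su_eq, su_eq, fld_eq, fld_eq, dg_setMin, dg_setMin, if_neg (by omega)]
  rw [sl_eq, fld_eq] at h1
  rw [su_eq, fld_eq] at h2
  refine ⟨h1, ?_⟩
  split_ifs with e
  · obtain rfl : j = i := by omega
    exact le_val_min h2 hy
  · exact h2

theorem InBox.set_sl {bx i y : ℕ} (h : InBox n bx x) (hy : -x i ≤ val y) :
    InBox n (setMin bx (sl i) y) x := fun j hj => by
  obtain ⟨h1, h2⟩ := h j hj
  rw [sl_eq, sl_eq, su_eq, fld_eq, fld_eq, dg_setMin, dg_setMin,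
    if_neg (show ¬ 2 * j + 1 + 1 = 2 * i + 1 by omega)]
  rw [sl_eq, fld_eq] at h1
  rw [su_eq, fld_eq] at h2
  refine ⟨?_, h2⟩
  split_ifs with e
  · obtain rfl : j = i := by omega
    exact le_val_min h1 hy
  · exact h1

theorem InBox.chk {bx i : ℕ} (h : InBox n bx x) (hi : i < n) :
    InBox n (chk (sl i) (su i) bx) x := by
  obtain ⟨h1, h2⟩ := h i hi
  have h3 : ((9007199254740992 : ℕ) : ℝ) ≤ ((fld bx (sl i) + fld bx (su i) : ℕ) : ℝ) := by
    unfold val at h1 h2
    push_cast
    linarith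
  have h4 : 9007199254740992 ≤ fld bx (sl i) + fld bx (su i) := by exact_mod_cast h3
  rw [Icp.chk, force_eq, brec, if_pos (by exact h4)]
  exact h

/-! ### rules -/

theorem guards_cons (f : F) (g : E) (gs : List E) (bx : ℕ) : (guards f (g :: gs)).run bx =
    Bool.rec bx ((guards f gs).run bx) (Nat.ble ((comp g).up bx) (nat_lit 4503599627370496)) :=
  (rfl)

theorem round_cons (s : Step) (ss : List Step) (bx : ℕ) : (round (s :: ss)).run bx =
    Nat.rec (nat_lit 0) (fun b _ => force (Nat.succ b) (round ss).run) (s.code.run bx) := (rfl)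

theorem rounds_succ (f : F) (tol R bx : ℕ) : (rounds f tol (R + 1)).run bx =
    Nat.rec (nat_lit 0) (fun b _ => force (Nat.succ b) fun b' =>
      Bool.rec b' ((rounds f tol R).run b') (Nat.ble (Nat.add (tot b') tol) (tot bx)))
      (f.run bx) := (rfl)

theorem go_succ (n : ℕ) (f pk : F) (fuel bx : ℕ) : (go n f pk (fuel + 1)).run bx =
    Nat.rec (nat_lit 1) (fun b0 _ => force (Nat.succ b0) fun b =>
      force (Nat.mod (Nat.mod (pk.run b) (nat_lit 256)) n) fun i => force (width b i) fun w =>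
      force (Nat.div w (nat_lit 2)) fun h =>
      Nat.rec (nat_lit 0) (fun _ _ =>
        force (setMin b (sl i) (Nat.sub (fld b (sl i)) (Nat.sub w h))) (go n f pk fuel).run)
        (force (setMin b (su i) (Nat.sub (fld b (su i)) h)) (go n f pk fuel).run))
      (f.run bx) := (rfl)

theorem code_eq (s : Step) :
    s.code = guards (act s.kind (sl s.i) (su s.i) (comp s.e)) s.gs := (rfl)

theorem act_zero (a b : ℕ) (c : C) (bx : ℕ) :
    (act 0 a b c).run bx = chk a b (setMin bx b (c.up bx)) := (rfl)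

theorem act_one (a b : ℕ) (c : C) (bx : ℕ) :
    (act 1 a b c).run bx = chk a b (setMin bx a (c.dn bx)) := (rfl)

theorem act_two (a b : ℕ) (c : C) (bx : ℕ) : (act 2 a b c).run bx =
    force (setMin bx a (c.dn bx)) fun b1 => chk a b (setMin b1 b (c.up bx)) := (rfl)

theorem guards_sound (lo hi : ℕ → ℝ) {bx : ℕ} (f : F) (gs : List E) (h : InBox n bx x)
    (hg : ∀ g ∈ gs, g.ev lo x hi ≤ val ((comp g).up bx))
    (hf : (∀ g ∈ gs, g.ev lo x hi ≤ 0) → InBox n (f.run bx) x) :
    InBox n ((guards f gs).run bx) x := by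
  induction gs with
  | nil => exact hf fun _ hg => absurd hg List.not_mem_nil
  | cons g gs ih =>
    rw [guards_cons, brec]
    split_ifs with k
    · refine ih (fun g' hg' => hg g' (List.mem_cons_of_mem _ hg')) fun k' => hf fun g' hg' => ?_
      rcases List.mem_cons.1 hg' with rfl | hg'
      · refine ((hg _ List.mem_cons_self).trans (val_mono k)).trans ?_
        simp [val]
      · exact k' g' hg'
    · exact h

theorem code_sound {bx : ℕ} (s : Step) (w : s.wf n = true) (hs : s.holds x) (h : InBox n bx x) :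
    InBox n (s.code.run bx) x := by
  obtain ⟨kind, i, e, gs⟩ := s
  simp only [Step.wf, Bool.and_eq_true, Nat.blt_eq, List.all_eq_true] at w
  obtain ⟨⟨w1, w2⟩, w3⟩ := w
  let lo : ℕ → ℝ := fun j => if j < n then -val (fld bx (sl j)) else x j
  let hi : ℕ → ℝ := fun j => if j < n then val (fld bx (su j)) else x j
  have h' : ∀ j < n, hi j = val (fld bx (su j)) ∧ lo j = -val (fld bx (sl j)) := fun j hj =>
    ⟨if_pos hj, if_pos hj⟩
  have h1 : ∀ j, lo j ≤ x j := fun j => by
    by_cases hj : j < n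
    · rw [(h' j hj).2]
      exact neg_le.1 (h j hj).1
    · exact (if_neg hj).le
  have h2 : ∀ j, x j ≤ hi j := fun j => by
    by_cases hj : j < n
    · rw [(h' j hj).1]
      exact (h j hj).2
    · exact (if_neg hj).ge
  rw [code_eq]
  refine guards_sound lo hi _ gs h (fun g hg => (comp_sound lo x hi g n bx h h' (w3 g hg)).2)
    fun hg => ?_
  have hc := hs lo hi h1 h2 hg
  obtain ⟨e1, e2⟩ := comp_sound lo x hi e n bx h h' w2
  match kind, hc with
  | 0, hc =>
    rw [act_zero]
    exact (h.set_su (le_trans hc e2)).chk w1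
  | 1, hc =>
    rw [act_one]
    exact (h.set_sl ((neg_le_neg hc).trans e1)).chk w1
  | 2, hc =>
    have hc' : x i = e.ev lo x hi := hc
    rw [act_two, force_eq]
    exact ((h.set_sl (hc' ▸ e1)).set_su (hc' ▸ e2)).chk w1
  | _ + 3, hc => simp [Step.concl] at hc

theorem round_sound (hn : 0 < n) (ss : List Step) (w : ∀ s ∈ ss, s.wf n = true) (hs : allH x ss) :
    ∀ bx, InBox n bx x → InBox n ((round ss).run bx) x := by
  induction ss with
  | nil => exact fun _ h => h
  | cons s ss ih =>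
    intro bx h
    have h1 := code_sound s (w s List.mem_cons_self) hs.1 h
    rw [round_cons, nrec _ _ (h1.ne_zero hn)]
    exact ih (fun s' hs' => w s' (List.mem_cons_of_mem _ hs')) hs.2 _ h1

theorem rounds_sound (hn : 0 < n) {f : F} (hf : ∀ bx, InBox n bx x → InBox n (f.run bx) x)
    (tol R : ℕ) : ∀ bx, InBox n bx x → InBox n ((rounds f tol R).run bx) x := by
  induction R with
  | zero => exact fun _ h => h
  | succ R ih =>
    intro bx h
    have h1 := hf bx h
    rw [rounds_succ, nrec _ _ (h1.ne_zero hn), brec]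
    split_ifs
    · exact ih _ h1
    · exact h1

theorem width_eq (b i : ℕ) : width b i = fld b (sl i) + fld b (su i) - 9007199254740992 := (rfl)

theorem split_val {a : ℝ} {p q w : ℕ} (h : a ≤ val q) (hw : w = p + q - 9007199254740992) :
    a ≤ val (q - w / 2) ∨ -a ≤ val (p - (w - w / 2)) := by
  rcases le_total (p + q) 9007199254740992 with e | e
  · left
    rw [Nat.sub_eq_zero_of_le e] at hw
    rwa [hw]
  · have h1 : 9007199254740992 ≤ (q - w / 2) + (p - (w - w / 2)) := by omega
    generalize p - (w - w / 2) = z at h1 ⊢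
    generalize q - w / 2 = u at h1 ⊢
    have h2 : ((9007199254740992 : ℕ) : ℝ) ≤ ((u + z : ℕ) : ℝ) := by exact_mod_cast h1
    push_cast at h2
    by_contra hc
    rw [not_or, not_le, not_le] at hc
    unfold val at hc
    linarith [hc.1, hc.2]

theorem go_gen (S : ℕ → ℕ → ℕ → ℕ) (Fl Wd : ℕ → ℕ → ℕ) (z : ℕ → ℕ) (b i : ℕ)
    (h : z (S b (su i) (Fl b (su i) - Wd b i / 2)) = 0 ∨
      z (S b (sl i) (Fl b (sl i) - (Wd b i - Wd b i / 2))) = 0) :
    (force i fun i => force (Wd b i) fun w => force (Nat.div w (nat_lit 2)) fun h =>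
      Nat.rec (nat_lit 0) (fun _ _ => force (S b (sl i) (Nat.sub (Fl b (sl i)) (Nat.sub w h))) z)
        (force (S b (su i) (Nat.sub (Fl b (su i)) h)) z)) = 0 := by
  rw [force_eq, force_eq, force_eq, force_eq, force_eq]
  exact nrec_zero _ h

theorem go_sound (hn : 0 < n) {f : F} (hf : ∀ bx, InBox n bx x → InBox n (f.run bx) x) (pk : F)
    (fuel : ℕ) : ∀ bx, InBox n bx x → (go n f pk fuel).run bx = 0 := by
  induction fuel with
  | zero => exact fun _ _ => rfl
  | succ fuel ih =>
    intro bx h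
    have h1 := hf bx h
    rw [go_succ, nrec _ _ (h1.ne_zero hn)]
    have hi : Nat.mod (Nat.mod (pk.run (f.run bx)) (nat_lit 256)) n < n := Nat.mod_lt _ hn
    exact go_gen setMin fld width _ _ _ ((split_val (h1 _ hi).2 (width_eq _ _)).imp
      (fun k => ih _ (h1.set_su k)) fun k => ih _ (h1.set_sl k))

theorem mkBox_cons (s : ℤ × ℤ) (l : List (ℤ × ℤ)) : mkBox (s :: l) = force (mkBox l) fun b =>
    Int.toNat (4503599627370496 - s.1 * 4194304) +
      Int.toNat (4503599627370496 + s.2 * 4194304) * 18446744073709551616 +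
      b * 340282366920938463463374607431768211456 := (rfl)

theorem dg_box {p q : ℕ} (m : ℕ) (hp : p < 18446744073709551616) (hq : q < 18446744073709551616) :
    dg 0 (p + q * 18446744073709551616 + m * 340282366920938463463374607431768211456) = p ∧
    dg 1 (p + q * 18446744073709551616 + m * 340282366920938463463374607431768211456) = q ∧
    ∀ j, dg (j + 1 + 1) (p + q * 18446744073709551616 +
      m * 340282366920938463463374607431768211456) = dg j m := by
  have e1 : (p + q * 18446744073709551616 + m * 340282366920938463463374607431768211456) /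
    18446744073709551616 = q + m * 18446744073709551616 := by omega
  have e2 : (q + m * 18446744073709551616) / 18446744073709551616 = m := by omega
  refine ⟨?_, ?_, fun j => ?_⟩
  · rw [dg]
    omega
  · rw [dg, e1, dg]
    omega
  · rw [dg, e1, dg, e2]

theorem mkBox_sound (l : List (ℤ × ℤ)) : ∀ k, (∀ s ∈ l, -1000000000 ≤ s.1 ∧ s.2 ≤ 1000000000) →
    inB x k l → ∀ i < l.length,
      -x (k + i) ≤ val (dg (2 * i) (mkBox l)) ∧ x (k + i) ≤ val (dg (2 * i + 1) (mkBox l)) := by
  induction l with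
  | nil => exact fun _ _ _ i hi => absurd hi (Nat.not_lt_zero _)
  | cons s l ih =>
    intro k hb h i hi
    obtain ⟨b1, b2⟩ := hb s List.mem_cons_self
    obtain ⟨p, hp⟩ : ∃ p, p = Int.toNat (4503599627370496 - s.1 * 4194304) := ⟨_, rfl⟩
    obtain ⟨q, hq⟩ : ∃ q, q = Int.toNat (4503599627370496 + s.2 * 4194304) := ⟨_, rfl⟩
    have p1 : 4503599627370496 - s.1 * 4194304 ≤ (p : ℤ) := hp ▸ Int.self_le_toNat _
    have q1 : 4503599627370496 + s.2 * 4194304 ≤ (q : ℤ) := hq ▸ Int.self_le_toNat _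
    have p2 : p < 18446744073709551616 := by
      rw [hp, Int.toNat_lt' (by norm_num)]
      push_cast
      linarith
    have q2 : q < 18446744073709551616 := by
      rw [hq, Int.toNat_lt' (by norm_num)]
      push_cast
      linarith
    obtain ⟨e1, e2, e3⟩ := dg_box (mkBox l) p2 q2
    rw [mkBox_cons, force_eq, ← hp, ← hq]
    cases i with
    | zero =>
      have p3 : (4503599627370496 - s.1 * 4194304 : ℝ) ≤ p := by exact_mod_cast p1
      have q3 : (4503599627370496 + s.2 * 4194304 : ℝ) ≤ q := by exact_mod_cast q1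
      rw [mul_zero, zero_add, e1, e2, add_zero]
      unfold val
      exact ⟨by linarith [h.1.1], by linarith [h.1.2]⟩
    | succ i =>
      have := ih (k + 1) (fun s hs => hb s (List.mem_cons_of_mem _ hs)) h.2 i (by simpa using hi)
      rwa [show k + (i + 1) = k + 1 + i by omega, show 2 * (i + 1) = 2 * i + 1 + 1 by omega,
        e3, e3]

theorem dg_shift (j m : ℕ) : dg (j + 1) (Nat.shiftLeft m 64) = dg j m := by
  have e : Nat.shiftLeft m 64 / 18446744073709551616 = m := by
    rw [show Nat.shiftLeft m 64 = m * 2 ^ 64 from Nat.shiftLeft_eq m 64]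
    omega
  rw [dg, e]

/-- The checker is sound. -/
theorem sound : S_icp := by
  intro bxs ss sp tol R fuel hc x hx hs
  rw [check, force_eq] at hc
  simp only [Bool.and_eq_true, Nat.blt_eq, List.all_eq_true, decide_eq_true_eq, Nat.beq_eq] at hc
  obtain ⟨⟨⟨h1, h2⟩, h3⟩, h4⟩ := hc
  have h5 : InBox bxs.length (Nat.shiftLeft (mkBox bxs) 64) x := fun i hi => by
    have := mkBox_sound bxs 0 h3 hx i hi
    rw [zero_add] at this
    rwa [sl_eq, su_eq, fld_eq, fld_eq, dg_shift, dg_shift]
  rw [go_sound h1 (rounds_sound h1 (round_sound h1 ss h2 hs) tol R) _ _ _ h5] at h4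
  exact absurd h4 (by norm_num)

/-! ### how to use the checker -/

variable {i : ℕ} {e : E} {gs : List E}

theorem holds_ub (h : ∀ lo hi : ℕ → ℝ, (∀ j, lo j ≤ x j) → (∀ j, x j ≤ hi j) →
    (∀ g ∈ gs, g.ev lo x hi ≤ 0) → x i ≤ e.ev lo x hi) : Step.holds ⟨0, i, e, gs⟩ x := h

theorem holds_lb (h : ∀ lo hi : ℕ → ℝ, (∀ j, lo j ≤ x j) → (∀ j, x j ≤ hi j) →
    (∀ g ∈ gs, g.ev lo x hi ≤ 0) → e.ev lo x hi ≤ x i) : Step.holds ⟨1, i, e, gs⟩ x := h

theorem holds_eq (h : ∀ lo hi : ℕ → ℝ, (∀ j, lo j ≤ x j) → (∀ j, x j ≤ hi j) →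
    (∀ g ∈ gs, g.ev lo x hi ≤ 0) → x i = e.ev lo x hi) : Step.holds ⟨2, i, e, gs⟩ x := h

theorem holds_kill (h : ∀ lo hi : ℕ → ℝ, (∀ j, lo j ≤ x j) → (∀ j, x j ≤ hi j) →
    (∀ g ∈ gs, g.ev lo x hi ≤ 0) → False) : Step.holds ⟨3, i, e, gs⟩ x := h

/-- a usage example -/
theorem usage (a : ℝ) (h0 : 0 ≤ a) (h1 : a ≤ 1) : a * (1 - a) ≤ 3 / 10 := by
  by_contra hc
  refine sound [(0, 1024)]
    [⟨3, 0, .c 0 1, [.sub (.mul (.v 0) (.sub (.c 1 1) (.v 0))) (.c 3 10)]⟩] [(0, 1)] 1000 2 20
    (by decide +kernel) (env [a]) ?_ ⟨holds_kill fun lo hi _ _ h => hc ?_, trivial⟩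
  · simp [inB, env, h0, h1]
  · simpa [E.ev, env] using h

end Icp

end Pool.Agent.P.MP_dd077d_co
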