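import Pool.Agent.P.MP_dd077d_co.Iface1
import Pool.Agent.P.MP_dd077d_co.IcpS

/-!
The two triangles at a long edge are expensive.
-/

namespace Pool.Agent.P.MP_dd077d_co

namespace Pair

open Icp

/-- data of one triangle: `w` squared base, `t` cotangent of the apex angle, `C` twice the area -/
structure G (w t C : ℝ) : Prop where
  pos : 0 < C
  le : C ≤ 16
  circ : w * (1 + t ^ 2) < 16
  prod : 16 ≤ C ^ 2 * (1 + t ^ 2)
  sum : 8 ≤ w + 2 * t * C
  quad : 0 ≤ C ^ 2 * (1 + t ^ 2) - 8 * t * C - 4 * w + 16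

theorem G.mk' {u v w d C : ℝ} (hC : 0 < C) (hu : 4 ≤ u) (hv : 4 ≤ v) (hu' : u < 16) (hv' : v < 16)
    (h1 : C ^ 2 = u * v - d ^ 2) (h2 : w = u + v - 2 * d) (h3 : u * v * w < 16 * C ^ 2) :
    G w (d / C) C := by
  have e1 : d / C * C = d := div_mul_cancel₀ _ hC.ne'
  have e2 : C ^ 2 * (1 + (d / C) ^ 2) = u * v := by
    have : C ^ 2 * (1 + (d / C) ^ 2) = C ^ 2 + (d / C * C) ^ 2 := by ring
    rw [this, e1]; linarith
  have e3 : 2 * (d / C) * C = 2 * d := by rw [mul_assoc, e1]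
  have e4 : 8 * (d / C) * C = 8 * d := by rw [mul_assoc, e1]
  refine ⟨hC, ?_, ?_, ?_, ?_, ?_⟩
  · have : u * v ≤ 16 * 16 := mul_le_mul hu'.le hv'.le (by linarith) (by norm_num)
    nlinarith [sq_nonneg d]
  · have h4 : C ^ 2 * (w * (1 + (d / C) ^ 2)) < C ^ 2 * 16 := by
      have : C ^ 2 * (w * (1 + (d / C) ^ 2)) = C ^ 2 * (1 + (d / C) ^ 2) * w := by ring
      rw [this, e2]; linarith
    exact lt_of_mul_lt_mul_left h4 (sq_nonneg C)
  · rw [e2]; nlinarith
  · rw [e3]; linarith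
  · rw [e2, e4]; nlinarith [mul_nonneg (sub_nonneg.2 hu) (sub_nonneg.2 hv)]

theorem inv_eq (t : ℝ) : 1 / max (1 + t ^ 2) (1 / 1024) = 1 / (1 + t ^ 2) := by
  rw [max_eq_left (by nlinarith [sq_nonneg t])]

theorem G.lo {w t C : ℝ} (h : G w t C) :
    4 * t * (1 / (1 + t ^ 2)) + 2 * √(max (1 / (1 + t ^ 2)) 0 *
      max (w - 4 * max (1 / (1 + t ^ 2)) 0) 0) ≤ C := by
  have h0 : 0 < 1 + t ^ 2 := by positivity
  have hq : 0 < 1 / (1 + t ^ 2) := by positivity
  have e : 1 / (1 + t ^ 2) * (1 + t ^ 2) = 1 := by field_simp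
  rw [max_eq_left hq.le]
  generalize 1 / (1 + t ^ 2) = q at hq e
  have hC := h.pos
  have h1 : 16 * q ≤ C ^ 2 := by
    have := mul_le_mul_of_nonneg_left h.prod hq.le
    nlinarith
  have e' : t ^ 2 * q = 1 - q := by linarith
  have h2 : 0 ≤ C - 4 * t * q := by
    have : (4 * t * q) ^ 2 ≤ C ^ 2 := by
      have : (4 * t * q) ^ 2 = 16 * q * (t ^ 2 * q) := by ring
      rw [this, e']; nlinarith [mul_pos hq hq]
    linarith [abs_le_of_sq_le_sq' this hC.le |>.2]
  have h3 : 4 * (q * (w - 4 * q)) ≤ (C - 4 * t * q) ^ 2 := by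
    have h4 := mul_nonneg hq.le h.quad
    have e1 : q * (C ^ 2 * (1 + t ^ 2) - 8 * t * C - 4 * w + 16) =
        C ^ 2 * (q * (1 + t ^ 2)) - 8 * t * C * q - 4 * w * q + 16 * q := by ring
    have e2 : (C - 4 * t * q) ^ 2 = C ^ 2 - 8 * t * C * q + 16 * q * (t ^ 2 * q) := by ring
    rw [e1, e] at h4
    rw [e2, e']
    nlinarith
  have h5 : √(q * max (w - 4 * q) 0) ≤ (C - 4 * t * q) / 2 := by
    refine Real.sqrt_le_iff.2 ⟨by linarith, ?_⟩
    rcases le_total (w - 4 * q) 0 with h6 | h6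
    · rw [max_eq_right h6, mul_zero]; positivity
    · rw [max_eq_left h6]; linarith
  linarith

theorem G.lo' {w t C : ℝ} (h : G w t C) :
    4 * max (1 / max √(1 + t ^ 2) (1 / 1024)) 0 ≤ C := by
  have h0 : 1 ≤ √(1 + t ^ 2) := Real.one_le_sqrt.2 (by nlinarith [sq_nonneg t])
  have h1 : √(1 + t ^ 2) ^ 2 = 1 + t ^ 2 := Real.sq_sqrt (by positivity)
  rw [max_eq_left (by linarith : 1 / 1024 ≤ √(1 + t ^ 2)), max_eq_left (by positivity)]
  have h2 := h.prod
  rw [← h1] at h2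
  generalize √(1 + t ^ 2) = s at h0 h2
  rw [mul_one_div, div_le_iff₀ (by linarith)]
  have h3 : 0 ≤ C * s := mul_nonneg h.pos.le (by linarith)
  exact abs_le_of_sq_le_sq' (by nlinarith) h3 |>.2

theorem G.abs {w t C : ℝ} (h : G w t C) (hw : 7 ≤ w) : -1168 / 1024 ≤ t ∧ t ≤ 1168 / 1024 := by
  have h1 := h.circ
  have h2 : t ^ 2 ≤ (1168 / 1024) ^ 2 := by nlinarith [sq_nonneg t]
  have := abs_le_of_sq_le_sq' h2 (by norm_num)
  exact ⟨by linarith [this.1], this.2⟩

theorem G.ub {w t C : ℝ} (h : G w t C) (hw : 7 ≤ w) :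
    t ≤ √(16 * max (1 / max w (1 / 1024)) 0 - 1) := by
  rw [max_eq_left (by linarith : 1 / 1024 ≤ w), max_eq_left (by positivity)]
  refine Real.le_sqrt_of_sq_le ?_
  have : 1 + t ^ 2 ≤ 16 * (1 / w) := by
    rw [mul_one_div, le_div_iff₀ (by linarith)]
    linarith [h.circ]
  linarith

theorem G.lb {w t C : ℝ} (h : G w t C) (hw : 7 ≤ w) :
    (8 - w) * (1 / max (2 * max C 0) (1 / 1024)) ≤ t := by
  have hC := h.pos
  have h1 : 1 ≤ C := by
    have h2 : t ^ 2 ≤ 2 := by nlinarith [h.circ, sq_nonneg t]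
    by_contra h3
    have h4 : C ^ 2 ≤ 1 := by nlinarith
    nlinarith [h.prod, sq_nonneg C]
  rw [max_eq_left hC.le, max_eq_left (by linarith), mul_one_div, div_le_iff₀ (by linarith)]
  linarith [h.sum]

/-- the rules, with a variable target -/
def rules (e : E) : List Step :=
  [⟨0, 2, (.sqrt (.sub (.mp (.c 16 1) (.inv (.v 0))) (.c 1 1))), []⟩,
  ⟨1, 1, (.neg (.v 2)), []⟩,
  ⟨0, 1, (.v 2), []⟩,
  ⟨1, 3, (.add (.mul (.mul (.c 4 1) (.v 1)) (.inv (.add (.c 1 1) (.sq (.v 1))))) (.mp (.c 2 1)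
    (.sqrt (.mp (.inv (.add (.c 1 1) (.sq (.v 1)))) (.sub (.v 0) (.mp (.c 4 1)
      (.inv (.add (.c 1 1) (.sq (.v 1)))))))))), []⟩,
  ⟨1, 4, (.add (.mp (.mp (.c 4 1) (.v 2)) (.inv (.add (.c 1 1) (.sq (.v 2))))) (.mp (.c 2 1)
    (.sqrt (.mp (.inv (.add (.c 1 1) (.sq (.v 2)))) (.sub (.v 0) (.mp (.c 4 1)
      (.inv (.add (.c 1 1) (.sq (.v 2)))))))))), []⟩,
  ⟨1, 3, (.mp (.c 4 1) (.inv (.sqrt (.add (.c 1 1) (.sq (.v 1)))))), []⟩,
  ⟨1, 4, (.mp (.c 4 1) (.inv (.sqrt (.add (.c 1 1) (.sq (.v 2)))))), []⟩,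
  ⟨1, 1, (.mul (.sub (.c 8 1) (.v 0)) (.inv (.mp (.c 2 1) (.v 3)))), []⟩,
  ⟨3, 0, (.c 0 1), [(.sub (.sub e (.v 3)) (.v 4))]⟩]

theorem m4 : max (4 : ℝ) 0 = 4 := by norm_num
theorem m2 : max (2 : ℝ) 0 = 2 := by norm_num
theorem m16 : max (16 : ℝ) 0 = 16 := by norm_num

theorem core (e : E) (k : ℤ) (hk : 7168 ≤ k)
    (hc : check [(k, 16384), (-1168, 1168), (0, 1168), (0, 16384), (0, 16384)] (rules e)
      [(0, 2), (1, 5), (2, 14)] 4000000 1 40 = true)
    {w a b C D y : ℝ} (hw : (k : ℝ) / 1024 ≤ w) (ha : G w a C) (hb : G w b D) (h1 : 0 ≤ a + b)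
    (h2 : a ≤ b) (hy : ∀ lo hi, y ≤ e.ev lo (env [w, a, b, C, D]) hi) : y ≤ C + D := by
  by_contra hcon
  have hk' : (7168 : ℝ) ≤ k := by exact_mod_cast hk
  have hw7 : 7 ≤ w := by linarith
  have hb0 : 0 ≤ b := by linarith
  have hw16 : w ≤ 16 := by nlinarith [ha.circ, sq_nonneg a]
  refine sound _ _ _ _ _ _ hc (env [w, a, b, C, D]) ?_ ?_
  · have a1 := ha.abs hw7
    have b1 := hb.abs hw7
    have c1 := ha.pos
    have c2 := ha.le
    have d1 := hb.pos
    have d2 := hb.le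
    simp only [inB, env, List.getD_cons_zero, List.getD_cons_succ, Nat.reduceAdd, and_true]
    push_cast
    refine ⟨⟨hw, by linarith⟩, ⟨by linarith, by linarith⟩, ⟨by linarith, by linarith⟩,
      ⟨by linarith, by linarith⟩, by linarith, by linarith⟩
  refine ⟨holds_ub fun lo hi _ _ _ => ?_, holds_lb fun lo hi _ _ _ => ?_,
    holds_ub fun lo hi _ _ _ => ?_, holds_lb fun lo hi _ _ _ => ?_,
    holds_lb fun lo hi _ _ _ => ?_, holds_lb fun lo hi _ _ _ => ?_,
    holds_lb fun lo hi _ _ _ => ?_, holds_lb fun lo hi _ _ _ => ?_,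
    holds_kill fun lo hi _ _ h => ?_, trivial⟩
  rotate_right
  · have h3 := h _ List.mem_cons_self
    have h4 := hy lo hi
    change e.ev lo _ hi - C - D ≤ 0 at h3
    exact hcon (by linarith)
  all_goals
    simp only [E.ev, env, List.getD_cons_zero, List.getD_cons_succ, Nat.cast_ofNat, Nat.cast_one,
      div_one, m4, m2, m16, inv_eq]
  · exact hb.ub hw7
  · linarith
  · exact h2
  · rw [max_eq_left (Real.sqrt_nonneg _)]
    exact ha.lo
  · have := hb.lo
    have hq : 0 ≤ 1 / (1 + b ^ 2) := by positivity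
    rw [max_eq_left (Real.sqrt_nonneg _), max_eq_left hb0, max_eq_left (by linarith : 0 ≤ 4 * b)]
    rw [max_eq_left hq] at this ⊢
    exact this
  · exact ha.lo'
  · exact hb.lo'
  · exact ha.lb hw7

theorem core' (e : E) (k : ℤ) (hk : 7168 ≤ k)
    (hc : check [(k, 16384), (-1168, 1168), (0, 1168), (0, 16384), (0, 16384)] (rules e)
      [(0, 2), (1, 5), (2, 14)] 4000000 1 40 = true)
    {w a b C D y : ℝ} (hw : (k : ℝ) / 1024 ≤ w) (ha : G w a C) (hb : G w b D) (h1 : 0 ≤ a + b)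
    (hy : ∀ lo hi l, y ≤ e.ev lo (env (w :: l)) hi) : y ≤ C + D := by
  rcases le_total a b with h | h
  · exact core e k hk hc hw ha hb h1 h fun lo hi => hy lo hi _
  · rw [add_comm]
    exact core e k hk hc hw hb ha (by linarith) h fun lo hi => hy lo hi _

/-- the target for the middle range -/
def eL : E :=
  .min (.min (.add (.mp (.c 23 25) (.v 0)) (.c 5883 10000))
    (.add (.mp (.c 363 500) (.v 0)) (.c 23343 10000)))
    (.min (.min (.add (.mp (.c 409 1000) (.v 0)) (.c 279007 50000))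
      (.add (.mp (.c 14 125) (.v 0)) (.c 450679 50000))) (.c 103563 10000))

theorem run1 : check [(7168, 16384), (-1168, 1168), (0, 1168), (0, 16384), (0, 16384)]
    (rules (.c 79343 10000)) [(0, 2), (1, 5), (2, 14)] 4000000 1 40 = true := by decide +kernel

theorem run2 : check [(8192, 16384), (-1168, 1168), (0, 1168), (0, 16384), (0, 16384)]
    (rules eL) [(0, 2), (1, 5), (2, 14)] 4000000 1 40 = true := by decide +kernel

theorem run3 : check [(12544, 16384), (-1168, 1168), (0, 1168), (0, 16384), (0, 16384)]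
    (rules (.c 104083 10000)) [(0, 2), (1, 5), (2, 14)] 4000000 1 40 = true := by decide +kernel

theorem eL_ge (w : ℝ) (hw : 8 ≤ w) (lo hi : ℕ → ℝ) (l : List ℝ) :
    2 * piL w + 6.9283 ≤ eL.ev lo (env (w :: l)) hi := by
  have h1 : piL w ≤ 0.51 + 0.46 * (w - 8) := (min_le_left _ _).trans (min_le_left _ _)
  have h2 : piL w ≤ 0.97 + 0.363 * (w - 9) := (min_le_left _ _).trans (min_le_right _ _)
  have h3 : piL w ≤ 1.42 + 0.2045 * (w - 10.24) :=
    (min_le_right _ _).trans ((min_le_left _ _).trans (min_le_left _ _))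
  have h4 : piL w ≤ 1.69 + 0.056 * (w - 11.56) :=
    (min_le_right _ _).trans ((min_le_left _ _).trans (min_le_right _ _))
  have h5 : piL w ≤ 1.714 := (min_le_right _ _).trans (min_le_right _ _)
  simp only [eL, E.ev, env, List.getD_cons_zero, Nat.cast_ofNat, le_min_iff,
    max_eq_left (by linarith : 0 ≤ w)]
  refine ⟨⟨?_, ?_⟩, ⟨?_, ?_⟩, ?_⟩
  all_goals first
    | (rw [max_eq_left (by norm_num)]; linarith)
    | linarith

theorem delaunay (T : DT0) {x y z z' : ℂ} (h : T.Tri x y z) (h' : T.Tri y x z') :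
    0 ≤ dot z x y / cross x y z + dot z' y x / cross y x z' := by
  obtain ⟨o, h1, h2, -, h3⟩ := T.circ h
  have h4 := h3 z' (T.mem h').2.2
  have c1 := T.ccw h
  have c2 := T.ccw h'
  have key : cross x y z * (nsq (z' - o) - nsq (x - o)) =
      dot z x y * cross y x z' + cross x y z * dot z' y x := by
    simp only [nsq_sub] at h1 h2 ⊢
    have e := congrArg (fun r => r * cross x z' z) h1
    have e' := congrArg (fun r => r * cross y x z') h2
    simp only [cross, dot] at e e' ⊢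
    linear_combination e - e'
  rw [div_add_div _ _ c1.ne' c2.ne', ← key]
  exact div_nonneg (mul_nonneg c1.le (sub_nonneg.2 h4)) (mul_pos c1 c2).le

end Pair

open Pair in
theorem pair (hd : S_data) : S_pair := by
  intro T x y z z' h h'
  obtain ⟨-, a2, a3, -, a5, a6, a7, a8, a9⟩ := hd T x y z h
  obtain ⟨-, b2, b3, -, b5, b6, b7, b8, b9⟩ := hd T y x z' h'
  rw [nsq_comm y x] at b8 b9
  have ga := G.mk' (T.ccw h) a2 a3 a5 a6 a7 a8 a9
  have gb := G.mk' (T.ccw h') b2 b3 b5 b6 b7 b8 b9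
  have hs := delaunay T h h'
  have s1 := s3_ub
  rw [T.cost_tri h, T.cost_tri h']
  refine ⟨fun hw => ?_, fun hw => ?_, fun hw => ?_⟩
  · have := core' _ _ le_rfl run1 (y := 7.9343) (by push_cast; linarith) ga gb hs
      fun lo hi l => by simp only [Icp.E.ev]; norm_num
    linarith
  · have := core' _ _ (by norm_num) run2 (by push_cast; linarith) ga gb hs
      (eL_ge _ hw)
    linarith
  · have := core' _ _ (by norm_num) run3 (y := 10.4083) (by push_cast; linarith) ga gb hs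
      fun lo hi l => by simp only [Icp.E.ev]; norm_num
    linarith

end Pool.Agent.P.MP_dd077d_co
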