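import Pool.Agent.P.MP_dd077d_co.Iface2

/-! The two steps at the bottom of a steep step. -/

namespace Pool.Agent.P.MP_dd077d_co

namespace PvLoc

lemma lb {c x : ℝ} (hx : 0 < x) (h : c ^ 2 ≤ x ^ 2) : c ≤ x :=
  (le_abs_self c).trans (abs_le_of_sq_le_sq h hx.le)

/-- lower bound for one leg from an upper bound for the other one -/
lemma leg {c m x a : ℝ} (hx : 0 < x) (h : 4 ≤ x ^ 2 + a ^ 2) (h0 : 0 ≤ a) (h1 : a ≤ m)
    (hc : c ^ 2 + m ^ 2 ≤ 4) : c ≤ x := by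
  have := pow_le_pow_left₀ h0 h1 2
  exact lb hx (by linarith)

lemma shF_ge (mu : ℝ) {x : ℝ} (hx : x < 4) (W u : ℝ) : x * W / 2 - mu * (2 - x) ≤ shF mu x W u := by
  have h := mul_nonneg (le_max_right (-u) 0) (sub_nonneg.2 hx.le)
  unfold shF
  linarith

lemma sum_lb {m n δ σ p x1 x2 a b : ℝ} (h1 : 0 < x1) (h2 : 0 < x2) (e1 : 4 ≤ x1 ^ 2 + a ^ 2)
    (e2 : 4 ≤ x2 ^ 2 + b ^ 2) (e3 : 8 ≤ (x1 + x2) ^ 2 + (a - b) ^ 2) (a0 : 0 ≤ a) (b0 : 0 ≤ b)
    (am : a ≤ m) (bm : b ≤ m) (c1 : n ^ 2 + m ^ 2 ≤ 4) (c2 : p ^ 2 + (m - δ) ^ 2 ≤ 4)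
    (c3 : σ ^ 2 + δ ^ 2 ≤ 8) (c4 : σ ≤ n + p) : σ ≤ x1 + x2 := by
  rcases le_or_gt (a - b) δ with k1 | k1
  · rcases le_or_gt (b - a) δ with k2 | k2
    · have := sq_le_sq' (by linarith : -δ ≤ a - b) k1
      exact lb (by linarith) (by linarith)
    · have := leg h1 e1 a0 (by linarith : a ≤ m - δ) c2
      have := leg h2 e2 b0 bm c1
      linarith
  · have := leg h2 e2 b0 (by linarith : b ≤ m - δ) c2
    have := leg h1 e1 a0 am c1
    linarith

lemma lin {W x a : ℝ} (hx : 0 < x) (h : 4 ≤ x ^ 2 + a ^ 2) (h0 : 0 ≤ a) (h1 : a ≤ W + 0.03)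
    (w0 : 1.17 ≤ W) (w1 : W ≤ 1.38) : 1.6 - 0.95 * (W - 1.17) ≤ x :=
  leg hx h h0 h1 (by nlinarith [mul_nonneg (sub_nonneg.2 w0) (sub_nonneg.2 w1)])

end PvLoc

open PvLoc in
theorem pvloc : S_pvloc := by
  intro W u v x1 x2 hW u0 u1 v0 v1 p1 q1 p2 q2 e1 e2
  have a0 : 0 ≤ W - u := by linarith
  have a1 : 1.2 ≤ W - u := by
    have := pow_le_pow_left₀ p1.le q1 2
    exact (le_abs_self _).trans (abs_le_of_sq_le_sq (by linarith) a0)
  have w0 : 1.17 ≤ W := by linarith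
  have s0 := shF_ge 0 (by linarith : x1 < 4) W u
  have s1 := shF_ge 2.4 (by linarith : x1 < 4) W u
  refine ⟨fun hv e3 => ?_, fun hv => ?_⟩
  · have t0 := shF_ge 0 q2 W v
    have t1 := shF_ge 2.4 q2 W v
    have b0 : 0 ≤ W - v := by linarith
    have e4 : 8 ≤ (x1 + x2) ^ 2 + ((W - u) - (W - v)) ^ 2 := by linarith
    have key : 3.7 ≤ (x1 + x2) * W ∧ 8.5 ≤ (x1 + x2) * (W / 2 + 2.4) := by
      rcases le_total W 1.38 with w1 | w1
      · have l1 := lin p1 e1 a0 (by linarith) w0 w1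
        have l2 := lin p2 e2 b0 (by linarith) w0 w1
        have l3 : 2 * (1.6 - 0.95 * (W - 1.17)) * W ≤ (x1 + x2) * W :=
          mul_le_mul_of_nonneg_right (by linarith) (by linarith)
        have l4 := mul_nonneg (sub_nonneg.2 w0) (sub_nonneg.2 w1)
        constructor <;> linarith
      · rcases le_total W 1.67 with w2 | w2
        · have l1 : 2.752 ≤ x1 + x2 := sum_lb (m := 1.7) (n := 1.053) (δ := 0.645) (p := 1.699)
            p1 p2 e1 e2 e4 a0 b0 (by linarith) (by linarith) (by norm_num) (by norm_num)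
            (by norm_num) (by norm_num)
          have l2 := mul_nonneg (sub_nonneg.2 l1) (sub_nonneg.2 w1)
          constructor <;> linarith
        · have l1 : 2.63 ≤ x1 + x2 := sum_lb (m := 1.83) (n := 0.806) (δ := 1.02) (p := 1.828)
            p1 p2 e1 e2 e4 a0 b0 (by linarith) (by linarith) (by norm_num) (by norm_num)
            (by norm_num) (by norm_num)
          have l2 := mul_nonneg (sub_nonneg.2 l1) (sub_nonneg.2 w2)
          constructor <;> linarith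
    constructor <;> linarith [key.1, key.2]
  · have e4 : 4 ≤ x2 ^ 2 + (v - W) ^ 2 := by linarith
    have b0 : 0 ≤ v - W := by linarith
    rcases le_total W 1.38 with w1 | w1
    · have l1 := lin p1 e1 a0 (by linarith) w0 w1
      have l2 : 1.898 ≤ x2 := leg p2 e4 b0 (by linarith : v - W ≤ 0.63) (by norm_num)
      have l3 := mul_nonneg (by linarith : 0 ≤ x1 - 1.4) (sub_nonneg.2 w0)
      have l4 := mul_nonneg (sub_nonneg.2 l2) (sub_nonneg.2 w0)
      constructor <;> linarith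
    · have l1 : 0.806 ≤ x1 := leg p1 e1 a0 (by linarith : W - u ≤ 1.83) (by norm_num)
      have l2 : 1.955 ≤ x2 := leg p2 e4 b0 (by linarith : v - W ≤ 0.42) (by norm_num)
      have l3 := mul_nonneg (sub_nonneg.2 l1) (sub_nonneg.2 w1)
      have l4 := mul_nonneg (sub_nonneg.2 l2) (sub_nonneg.2 w1)
      constructor <;> linarith

end Pool.Agent.P.MP_dd077d_co
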