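import Pool.Agent.P.MP_dd077d_co.Iface2

/-! Horizontal shifts against vertical steps, area against mass. -/

namespace Pool.Agent.P.MP_dd077d_co

namespace R3

lemma sm (R : Row) (f : ℤ → ℝ)
    (h : ∀ i, R.φ i = 0 → R.w i = 0 → R.φ (i + 1) = 0 → R.w (i + 1) = 0 → f i = 0) :
    HasSum f (∑' i, f i) := by
  obtain ⟨n, hn⟩ := R.fin
  refine (summable_of_ne_finset_zero (s := Finset.Icc (-(n : ℤ) - 1) (n + 1)) fun i hi => ?_).hasSum
  rw [Finset.mem_Icc] at hi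
  have h1 := hn i (by rw [le_abs]; omega)
  have h2 := hn (i + 1) (by rw [le_abs]; omega)
  exact h i h1.1 h1.2 h2.1 h2.2

lemma shift {f : ℤ → ℝ} {a : ℝ} (h : HasSum f a) : HasSum (fun i => f (i + 1)) a :=
  (Equiv.addRight (1 : ℤ)).hasSum_iff.2 h

lemma sqrt_four : Real.sqrt (4 - 0 ^ 2) = 2 := by
  rw [show (4 : ℝ) - 0 ^ 2 = 2 ^ 2 by norm_num]
  exact Real.sqrt_sq (by norm_num)

lemma area {c y x ν : ℝ} (hc : c ≤ 2 + y) (hx : -x ≤ ν) (hν : 0 ≤ ν) :
    c * max x 0 - 2 * max (-x) 0 - ν * max y 0 ≤ (2 + y) * x := by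
  have h1 := le_max_left y 0
  have h2 := le_max_right y 0
  rcases le_total 0 x with h | h
  · rw [max_eq_left h, max_eq_right (neg_nonpos.2 h)]
    nlinarith [mul_nonneg hν h2, mul_le_mul_of_nonneg_right hc h]
  · rw [max_eq_right h, max_eq_left (neg_nonneg.2 h)]
    nlinarith [mul_le_mul_of_nonneg_right hx h2, mul_le_mul_of_nonneg_right h1 (neg_nonneg.2 h)]

lemma parts (x : ℝ) : max x 0 - max (-x) 0 = x := by
  rcases le_total 0 x with h | h
  · rw [max_eq_left h, max_eq_right (neg_nonpos.2 h)]; ring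
  · rw [max_eq_right h, max_eq_left (neg_nonneg.2 h)]; ring

end R3

open R3 in
theorem r3 (hrb : S_rb) : S_r3 := by
  intro R hs hρ
  obtain ⟨⟨hP, P0, -⟩, ⟨hν, ν0, -⟩, -, -, -, ⟨S0, Ss0, -⟩, -, -, ⟨y0, yS, hφ, -, hT⟩⟩ := hrb R
  have ρ0 : 0 ≤ R.rho := add_nonneg P0 ν0
  have T2 : ∀ i, R.T i ^ 2 ≤ R.rho ^ 2 := fun i => sq_le_sq' (abs_le.1 (hT i)).1 (abs_le.1 (hT i)).2
  have T4 : ∀ i, 0 ≤ 4 - R.T i ^ 2 := fun i => by nlinarith [T2 i]
  have q1 : ∀ i, Real.sqrt (4 - R.rho ^ 2) ≤ Real.sqrt (4 - R.T i ^ 2) := fun i =>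
    Real.sqrt_le_sqrt (by linarith [T2 i])
  have q2 : ∀ i, Real.sqrt (4 - R.T i ^ 2) ≤ 2 + R.y i := fun i =>
    Real.sqrt_le_iff.2 ⟨(hs i).1.le, by linarith [(hs i).2]⟩
  have q3 : ∀ i, Real.sqrt (4 - R.T i ^ 2) ≤ 2 := fun i =>
    Real.sqrt_le_iff.2 ⟨by norm_num, by nlinarith [sq_nonneg (R.T i)]⟩
  have q4 : ∀ i, Real.sqrt (4 - R.T i ^ 2) ^ 2 = 4 - R.T i ^ 2 := fun i => Real.sq_sqrt (T4 i)
  have q5 : ∀ i, max (-R.y i) 0 ≤ 2 - Real.sqrt (4 - R.T i ^ 2) := fun i =>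
    max_le (by linarith [q2 i]) (by linarith [q3 i])
  have q6 : ∀ i, |R.y i| ≤ R.S := fun i => hφ _ _
  have hY : HasSum (fun i => max (R.w i) 0) R.Y := sm R _ fun i _ h _ _ => by simp [h]
  have hN : HasSum (fun i => max (-R.w i) 0) R.N := sm R _ fun i _ h _ _ => by simp [h]
  have hS : HasSum (fun i => max (R.y i) 0) R.S :=
    sm R _ fun i h _ h' _ => by simp [Row.y, h, h']
  have hS' : HasSum (fun i => max (-R.y i) 0) R.S :=
    yS ▸ sm R _ fun i h _ h' _ => by simp [Row.y, h, h']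
  have hy : HasSum R.y 0 := y0 ▸ sm R _ fun i h _ h' _ => by simp [Row.y, h, h']
  have hy2 : HasSum (fun i => R.y i ^ 2) _ := sm R _ fun i h _ h' _ => by simp [Row.y, h, h']
  have hT2 : HasSum (fun i => R.T i ^ 2) _ := sm R _ fun i _ h _ h' => by simp [Row.T, h, h']
  have hA : HasSum (fun i => (2 + R.y i) * ((R.w i + R.w (i + 1)) / 2)) R.A :=
    sm R _ fun i _ h _ h' => by simp [h, h']
  have hSs : HasSum (fun i => 2 - Real.sqrt (4 - R.T i ^ 2)) R.Ss :=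
    sm R _ fun i _ h _ h' => by rw [Row.T, h, h', sub_zero, sqrt_four, sub_self]
  refine ⟨fun i => (q1 i).trans (q2 i), hasSum_le q5 hS' hSs, fun i => ?_, ?_, ?_, ?_, ?_⟩
  · rcases le_total (R.y i) 0 with h | h
    · refine le_max_of_le_right ?_
      nlinarith [T2 i, (hs i).1]
    · refine le_max_of_le_left ?_
      have a1 := le_hasSum (hSs.sub hS') i fun j _ => sub_nonneg.2 (q5 j)
      rw [max_eq_right (neg_nonpos.2 h)] at a1
      have a2 : 2 + R.y i ≤ R.Ss + Real.sqrt (4 - R.T i ^ 2) := by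
        linarith [(abs_le.1 (q6 i)).2]
      have a3 := pow_le_pow_left₀ (hs i).1.le a2 2
      nlinarith [q4 i, mul_le_mul_of_nonneg_left (q3 i) Ss0]
  · have := hasSum_le (fun i => ?_) hy2 ((hS.mul_left R.S).add
      (hS'.mul_left (min R.S (2 - Real.sqrt (4 - R.rho ^ 2)))))
    · linarith
    rcases le_total (R.y i) 0 with h | h
    · rw [max_eq_right h, max_eq_left (neg_nonneg.2 h)]
      have a1 : -R.y i ≤ min R.S (2 - Real.sqrt (4 - R.rho ^ 2)) :=
        le_min (by linarith [(abs_le.1 (q6 i)).1]) (by linarith [q1 i, q2 i])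
      nlinarith [mul_le_mul_of_nonneg_right a1 (neg_nonneg.2 h)]
    · rw [max_eq_left h, max_eq_right (neg_nonpos.2 h)]
      nlinarith [mul_le_mul_of_nonneg_right (abs_le.1 (q6 i)).2 h]
  · refine hasSum_le (fun i => ?_) (hSs.mul_left _) hT2
    nlinarith [q4 i, mul_le_mul_of_nonneg_right (q1 i) (sub_nonneg.2 (q3 i))]
  · have := hasSum_le (fun i => ?_)
      (((((hY.add (shift hY)).mul_left (Real.sqrt (4 - R.rho ^ 2) / 2))).sub
        (hN.add (shift hN))).sub (hS.mul_left R.nu)) hA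
    · linarith
    have a1 := area ((q1 i).trans (q2 i)) (hν i) ν0
    have a2 := area ((q1 i).trans (q2 i)) (hν (i + 1)) ν0
    linarith
  · have := hasSum_le (fun i => ?_)
      ((((hY.add (shift hY)).sub (hN.add (shift hN))).sub (hS'.mul_left R.rho)).sub
        (hy.mul_left R.nu)) hA
    · linarith
    have a1 := parts (R.w i)
    have a2 := parts (R.w (i + 1))
    have a3 : 0 ≤ (R.w i + R.w (i + 1)) / 2 + R.nu := by linarith [hν i, hν (i + 1)]
    have a4 : (R.w i + R.w (i + 1)) / 2 + R.nu ≤ R.rho := by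
      unfold Row.rho
      linarith [hP i, hP (i + 1)]
    have a5 := mul_le_mul_of_nonneg_right (le_max_left (-R.y i) 0) a3
    have a6 := mul_le_mul_of_nonneg_left a4 (le_max_right (-R.y i) 0)
    linarith

end Pool.Agent.P.MP_dd077d_co
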