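import Pool.Agent.P.MP_dd077d_co.Iface2

/-! The sum of the squared vertical steps of a row. -/

namespace Pool.Agent.P.MP_dd077d_co

namespace R4

open Classical

lemma sm (R : Row) (f : ℤ → ℝ) (h : ∀ i, R.w i = 0 → R.w (i + 1) = 0 → f i = 0) :
    HasSum f (∑' i, f i) := by
  obtain ⟨n, hn⟩ := R.fin
  refine (summable_of_ne_finset_zero (s := Finset.Icc (-(n : ℤ) - 1) (n + 1)) fun i hi => ?_).hasSum
  rw [Finset.mem_Icc] at hi
  have h1 := hn i (by rw [le_abs]; omega)
  have h2 := hn (i + 1) (by rw [le_abs]; omega)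
  exact h i h1.2 h2.2

lemma shift {f : ℤ → ℝ} {a : ℝ} (h : HasSum f a) : HasSum (fun i => f (i + 1)) a :=
  (Equiv.addRight (1 : ℤ)).hasSum_iff.2 h

lemma unshift {f : ℤ → ℝ} {a : ℝ} (h : HasSum (fun i => f (i + 1)) a) : HasSum f a :=
  (Equiv.addRight (1 : ℤ)).hasSum_iff.1 h

lemma step (x y : ℝ) : (y - x) ^ 2 ≤ (max x 0 ^ 2 + max y 0 ^ 2) + (max (-x) 0 ^ 2 + max (-y) 0 ^ 2) +
    2 * (max (-x) 0 * max y 0 + max x 0 * max (-y) 0) := by
  rcases le_total 0 x with h | h <;> rcases le_total 0 y with k | k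
  · rw [max_eq_left h, max_eq_left k, max_eq_right (neg_nonpos.2 h), max_eq_right (neg_nonpos.2 k)]
    nlinarith [mul_nonneg h k]
  · rw [max_eq_left h, max_eq_right k, max_eq_right (neg_nonpos.2 h), max_eq_left (neg_nonneg.2 k)]
    nlinarith
  · rw [max_eq_right h, max_eq_left k, max_eq_left (neg_nonneg.2 h), max_eq_right (neg_nonpos.2 k)]
    nlinarith
  · rw [max_eq_right h, max_eq_right k, max_eq_left (neg_nonneg.2 h), max_eq_left (neg_nonneg.2 k)]
    nlinarith [mul_nonneg (neg_nonneg.2 h) (neg_nonneg.2 k)]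

lemma sq_sum {a : ℤ → ℝ} {s q p m : ℝ} (hs : HasSum a s) (hq : HasSum (fun i => a i ^ 2) q)
    (h0 : ∀ i, 0 ≤ a i) (hp : ∀ i, a i ≤ p) (hm : s ≤ m) (p0 : 0 ≤ p) (pm : p ≤ m) :
    q ≤ qF p m := by
  have lin : ∀ c, 0 ≤ c → (∀ i, a i ≤ c) → q ≤ c * m := fun c c0 hc =>
    (hasSum_le (fun i => by nlinarith [h0 i, hc i]) hq (hs.mul_left c)).trans
      (mul_le_mul_of_nonneg_left hm c0)
  unfold qF
  rcases le_total p (m - p) with h | h
  · rw [min_eq_left h]
    have := lin p p0 hp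
    nlinarith
  · rw [min_eq_right h]
    by_cases hall : ∀ i, a i ≤ m / 2
    · have := lin (m / 2) (by linarith) hall
      nlinarith [sq_nonneg (2 * p - m)]
    · push Not at hall
      obtain ⟨j, hj⟩ := hall
      have hjp := hp j
      have two : ∀ i, i ≠ j → a i + a j ≤ m := fun i hi => by
        have := sum_le_hasSum {i, j} (fun k _ => h0 k) hs
        rw [Finset.sum_pair hi] at this
        linarith
      have h1 : HasSum (fun i => (m - a j) * a i +
          if i = j then a j ^ 2 - (m - a j) * a j else 0) ((m - a j) * s + (a j ^ 2 - (m - a j) * a j)) :=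
        (hs.mul_left _).add (hasSum_ite_eq j _)
      have h2 : q ≤ (m - a j) * s + (a j ^ 2 - (m - a j) * a j) := by
        refine hasSum_le (fun i => ?_) hq h1
        by_cases hi : i = j
        · rw [if_pos hi, hi]; linarith
        · rw [if_neg hi]
          nlinarith [two i hi, h0 i]
      have h3 : (m - a j) * s ≤ (m - a j) * m := mul_le_mul_of_nonneg_left hm (by linarith)
      nlinarith [mul_nonneg (sub_nonneg.2 hjp) (show 0 ≤ p + a j - m by linarith)]

lemma main (hrb : S_rb) (R : Row) :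
    ∑' i, R.T i ^ 2 ≤ 2 * (∑' i, max (R.w i) 0 ^ 2) + restF R.P R.Y R.N R.nu := by
  obtain ⟨⟨hP, P0, -⟩, ⟨hν, ν0, -⟩, -, -, -, -, -, two, -⟩ := hrb R
  have hY : HasSum (fun i => max (R.w i) 0) R.Y := sm R _ fun i h _ => by simp [h]
  have hN : HasSum (fun i => max (-R.w i) 0) R.N := sm R _ fun i h _ => by simp [h]
  have hp2 : HasSum (fun i => max (R.w i) 0 ^ 2) _ := sm R _ fun i h _ => by simp [h]
  have hn2 : HasSum (fun i => max (-R.w i) 0 ^ 2) _ := sm R _ fun i h _ => by simp [h]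
  have hT2 : HasSum (fun i => R.T i ^ 2) _ := sm R _ fun i h h' => by simp [Row.T, h, h']
  have hc1 : HasSum (fun i => max (-R.w i) 0 * max (R.w (i + 1)) 0) _ :=
    sm R _ fun i h _ => by simp [h]
  have hc2 : HasSum (fun i => max (R.w i) 0 * max (-R.w (i + 1)) 0) _ :=
    sm R _ fun i h _ => by simp [h]
  have hc2' : HasSum (fun i => max (R.w (i - 1)) 0 * max (-R.w i) 0)
      (∑' i, max (R.w i) 0 * max (-R.w (i + 1)) 0) := by
    apply unshift
    simpa only [add_sub_cancel_right] using hc2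
  have pP : ∀ i, max (R.w i) 0 ≤ R.P := fun i => max_le (hP i) P0
  have nν : ∀ i, max (-R.w i) 0 ≤ R.nu := fun i => max_le (hν i) ν0
  have p0 : ∀ i, 0 ≤ max (R.w i) 0 := fun i => le_max_right _ _
  have n0 : ∀ i, 0 ≤ max (-R.w i) 0 := fun i => le_max_right _ _
  have a1 := hasSum_le (fun i => step (R.w i) (R.w (i + 1))) hT2
    (((hp2.add (shift hp2)).add (hn2.add (shift hn2))).add ((hc1.add hc2).mul_left 2))
  have a2 : ∑' i, max (-R.w i) 0 ^ 2 ≤ R.nu * R.N :=
    hasSum_le (fun i => by nlinarith [n0 i, nν i]) hn2 (hN.mul_left _)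
  have a3 : ∑' i, max (-R.w i) 0 * max (R.w (i + 1)) 0 +
      ∑' i, max (R.w i) 0 * max (-R.w (i + 1)) 0 ≤ min (2 * R.P) R.Y * R.N := by
    refine hasSum_le (fun i => ?_) (hc1.add hc2') (hN.mul_left _)
    have : max (R.w (i + 1)) 0 + max (R.w (i - 1)) 0 ≤ min (2 * R.P) R.Y :=
      le_min (by linarith [pP (i + 1), pP (i - 1)]) (two _ _ (by omega))
    nlinarith [mul_le_mul_of_nonneg_right this (n0 i)]
  have a4 : ∑' i, max (-R.w i) 0 * max (R.w (i + 1)) 0 ≤ R.nu * R.Y :=
    hasSum_le (fun i => mul_le_mul_of_nonneg_right (nν i) (p0 _)) hc1 ((shift hY).mul_left _)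
  have a5 : ∑' i, max (R.w i) 0 * max (-R.w (i + 1)) 0 ≤ R.nu * R.Y :=
    hasSum_le (fun i => by nlinarith [mul_le_mul_of_nonneg_right (nν (i + 1)) (p0 i)]) hc2
      (hY.mul_left _)
  have a6 : 2 * (∑' i, max (-R.w i) 0 * max (R.w (i + 1)) 0 +
      ∑' i, max (R.w i) 0 * max (-R.w (i + 1)) 0) ≤
      min (min (2 * R.P) R.Y * (2 * R.N)) (4 * (R.nu * R.Y)) :=
    le_min (by linarith) (by linarith)
  unfold restF
  linarith

end R4

open R4 Classical in
theorem r4 (hg : S_g) (hrb : S_rb) : S_r4 := by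
  intro R
  have key := main hrb R
  obtain ⟨⟨hP, P0, hPe⟩, -, -, ⟨hf, f0, -⟩, -, ⟨-, -, -, -, -, z0⟩, ⟨zY, -⟩, -, -⟩ := hrb R
  obtain ⟨g0, gneg, -, gmono, -⟩ := hg
  have hY : HasSum (fun i => max (R.w i) 0) R.Y := sm R _ fun i h _ => by simp [h]
  have hz : HasSum (fun i => if R.bad i then max (R.w i) 0 else 0) R.z :=
    sm R _ fun i h _ => by simp [h]
  have hp2 : HasSum (fun i => max (R.w i) 0 ^ 2) _ := sm R _ fun i h _ => by simp [h]
  have hz2 : HasSum (fun i => (if R.bad i then max (R.w i) 0 else 0) ^ 2) _ :=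
    sm R _ fun i h _ => by simp [h]
  have hm2 : HasSum (fun i => (if R.bad i then 0 else max (R.w i) 0) ^ 2) _ :=
    sm R _ fun i h _ => by simp [h]
  have hm : HasSum (fun i => if R.bad i then 0 else max (R.w i) 0) (R.Y - R.z) := by
    have e : (fun i => if R.bad i then 0 else max (R.w i) 0) =
        fun i => max (R.w i) 0 - if R.bad i then max (R.w i) 0 else 0 := by
      funext i
      split_ifs <;> simp
    rw [e]
    exact hY.sub hz
  have pP : ∀ i, max (R.w i) 0 ≤ R.P := fun i => max_le (hP i) P0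
  have p0 : ∀ i, 0 ≤ max (R.w i) 0 := fun i => le_max_right _ _
  have m0 : ∀ i, 0 ≤ if R.bad i then 0 else max (R.w i) 0 := fun i => by
    split_ifs
    exacts [le_rfl, p0 i]
  have b0 : ∀ i, 0 ≤ if R.bad i then max (R.w i) 0 else 0 := fun i => by
    split_ifs
    exacts [p0 i, le_rfl]
  have mle : ∀ i, (if R.bad i then 0 else max (R.w i) 0) ≤ R.Y - R.z := fun i =>
    le_hasSum hm i fun j _ => m0 j
  have ble : ∀ i, (if R.bad i then max (R.w i) 0 else 0) ≤ R.z := fun i =>
    le_hasSum hz i fun j _ => b0 j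
  have badle : ∀ fu, R.f ≤ fu → 0 ≤ s3 - Rm fu ∧ ∀ i, R.bad i → R.w i ≤ s3 - Rm fu := by
    intro fu h
    have e := gneg fu
    refine ⟨?_, fun i hi => ?_⟩
    · have := gmono (-fu) 0 (by linarith) (by norm_num)
      linarith
    · have := gmono (-fu) (-|R.φ i|) (by linarith [hf i hi]) (by linarith [abs_nonneg (R.φ i)])
      unfold Row.bad at hi
      linarith
  refine ⟨?_, fun _ p m fu zu h1 h2 h3 _ h5 => ?_, fun _ => ?_⟩
  · have : ∑' i, max (R.w i) 0 ^ 2 ≤ R.P * R.Y :=
      hasSum_le (fun i => by nlinarith [p0 i, pP i]) hp2 (hY.mul_left _)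
    linarith
  · obtain ⟨c0, hc⟩ := badle fu h3
    have e1 := sq_sum (p := min p m) (m := m) hm hm2 m0 (fun i => le_min (by
      split_ifs
      exacts [P0.trans h1, (pP i).trans h1]) ((mle i).trans h2)) h2
      (le_min (P0.trans h1) (by linarith)) (min_le_right _ _)
    have e2 := sq_sum (p := min (s3 - Rm fu) zu) (m := zu) hz hz2 b0 (fun i => le_min (by
      split_ifs with hi
      exacts [max_le (hc i hi) c0, c0]) ((ble i).trans h5)) h5
      (le_min c0 (z0.trans h5)) (min_le_right _ _)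
    have e3 := hasSum_le (fun i => (by split_ifs <;> simp :
      max (R.w i) 0 ^ 2 ≤ (if R.bad i then 0 else max (R.w i) 0) ^ 2 +
        (if R.bad i then max (R.w i) 0 else 0) ^ 2)) hp2 (hm2.add hz2)
    linarith
  · rcases hPe with h | ⟨i, hi⟩
    · exact le_max_of_le_left (by linarith)
    · have hw : R.P ≤ max (R.w i) 0 := hi ▸ le_max_left _ _
      by_cases hb : R.bad i
      · refine le_max_of_le_right (le_min (hi ▸ (badle R.f le_rfl).2 i hb) ?_)
        have := ble i
        rw [if_pos hb] at this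
        linarith
      · refine le_max_of_le_left ?_
        have := mle i
        rw [if_neg hb] at this
        linarith

end Pool.Agent.P.MP_dd077d_co
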