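import Pool.Agent.P.MP_dd077d_co.Iface2

/-! Elementary facts about the sums and suprema attached to a row. -/

namespace Pool.Agent.P.MP_dd077d_co

namespace Rb

open Classical

lemma sm (R : Row) (f : ℤ → ℝ)
    (h : ∀ i, R.φ i = 0 → R.w i = 0 → R.φ (i + 1) = 0 → R.w (i + 1) = 0 → f i = 0) :
    Summable f := by
  obtain ⟨n, hn⟩ := R.fin
  refine summable_of_ne_finset_zero (s := Finset.Icc (-(n : ℤ) - 1) (n + 1)) fun i hi => ?_
  rw [Finset.mem_Icc] at hi
  have h1 := hn i (by rw [le_abs]; omega)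
  have h2 := hn (i + 1) (by rw [le_abs]; omega)
  exact h i h1.1 h1.2 h2.1 h2.2

/-- the supremum of a nonnegative sequence with finite support is attained -/
lemma sup (R : Row) (f : ℤ → ℝ) (h : ∀ i, R.φ i = 0 → R.w i = 0 → f i = 0) :
    (∀ i, f i ≤ ⨆ j, f j) ∧ ∃ i, f i = ⨆ j, f j := by
  obtain ⟨n, hn⟩ := R.fin
  have hf : (Set.range f).Finite := by
    refine (((Set.finite_Icc (-(n : ℤ)) n).image f).insert 0).subset ?_
    rintro _ ⟨i, rfl⟩
    by_cases hi : (n : ℤ) ≤ |i|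
    · exact Or.inl (h i (hn i hi).1 (hn i hi).2)
    · refine Or.inr ⟨i, ?_, rfl⟩
      rw [not_le, abs_lt] at hi
      exact ⟨hi.1.le, hi.2.le⟩
  exact ⟨fun i => le_ciSup hf.bddAbove i, (Set.range_nonempty f).csSup_mem hf⟩

lemma zero (R : Row) : ∃ n : ℕ, ∀ i : ℤ, (n : ℤ) ≤ |i| → R.φ i = 0 ∧ R.w i = 0 := R.fin

lemma tele (F : ℤ → ℝ) (i : ℤ) (k : ℕ) :
    F (i + k) - F i = ∑ t ∈ Finset.range k, (F (i + t + 1) - F (i + t)) := by
  induction k with
  | zero => simp
  | succ k ih =>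
    rw [Finset.sum_range_succ, ← ih]
    push_cast
    rw [← add_assoc]
    ring

lemma fin_le {a : ℤ → ℝ} (hs : Summable a) (h0 : ∀ i, 0 ≤ a i) (i : ℤ) (k : ℕ) :
    ∑ t ∈ Finset.range k, a (i + t) ≤ ∑' j, a j := by
  have := hs.sum_le_tsum ((Finset.range k).image fun t : ℕ => i + t) fun j _ => h0 j
  rwa [Finset.sum_image (fun x _ y _ e => by simpa using e)] at this

lemma gmono {t : ℝ} (ht : 0 ≤ t) : g (-t) ≤ g t := by
  unfold g Rp
  have : Real.sqrt (4 - (1 - -t) ^ 2) ≤ Real.sqrt (4 - (1 - t) ^ 2) :=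
    Real.sqrt_le_sqrt (by nlinarith)
  linarith

end Rb

open Rb Classical in
theorem rb (hg : S_g) : S_rb := by
  intro R
  obtain ⟨g0, -, -, -, -, g5, -⟩ := hg
  obtain ⟨n, hn⟩ := R.fin
  have hn0 := hn n (le_abs_self _)
  have sP := sup R (fun i => max (R.w i) 0) fun i _ h => by simp [h]
  have sN := sup R (fun i => max (-R.w i) 0) fun i _ h => by simp [h]
  have sE := sup R (fun i => max (max (-R.ah i) (-R.bh i)) 0) fun i h k => by
    simp [Row.ah, Row.bh, h, k, g0]
  have sF := sup R (fun i => if R.bad i then |R.φ i| else 0) fun i h _ => by simp [h]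
  have sZ := sup R (fun i => if R.bad2 i then |R.φ i| else 0) fun i h _ => by simp [h]
  change (∀ i, _ ≤ R.P) ∧ ∃ i, _ = R.P at sP
  change (∀ i, _ ≤ R.nu) ∧ ∃ i, _ = R.nu at sN
  change (∀ i, _ ≤ R.eta) ∧ ∃ i, _ = R.eta at sE
  change (∀ i, _ ≤ R.f) ∧ ∃ i, _ = R.f at sF
  change (∀ i, _ ≤ R.zs) ∧ ∃ i, _ = R.zs at sZ
  have mS : Summable fun i => max (R.y i) 0 := sm R _ fun i a _ c _ => by simp [Row.y, a, c]
  have mS' : Summable fun i => max (-R.y i) 0 := sm R _ fun i a _ c _ => by simp [Row.y, a, c]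
  have mY : Summable fun i => max (R.w i) 0 := sm R _ fun i _ b _ _ => by simp [b]
  have mN : Summable fun i => max (-R.w i) 0 := sm R _ fun i _ b _ _ => by simp [b]
  have mE : Summable fun i => max (-R.ah i) 0 + max (-R.bh i) 0 :=
    sm R _ fun i a b _ _ => by simp [Row.ah, Row.bh, a, b, g0]
  have mZ : Summable fun i => if R.bad i then max (R.w i) 0 else 0 :=
    sm R _ fun i _ b _ _ => by simp [b]
  have mφ : Summable R.φ := sm R _ fun i a _ _ _ => a
  have y0 : ∑' i, R.y i = 0 := by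
    have h1 : HasSum (fun i => R.φ (i + 1)) (∑' i, R.φ i) :=
      (Equiv.addRight (1 : ℤ)).hasSum_iff.2 mφ.hasSum
    have := (h1.sub mφ.hasSum).tsum_eq
    rw [sub_self] at this
    exact this
  have yS : ∑' i, max (-R.y i) 0 = R.S := by
    have h1 := mS.tsum_sub mS'
    have h2 : (fun i => max (R.y i) 0 - max (-R.y i) 0) = R.y := by
      funext i
      rcases le_total 0 (R.y i) with h | h
      · rw [max_eq_left h, max_eq_right (neg_nonpos.2 h), sub_zero]
      · rw [max_eq_right h, max_eq_left (neg_nonneg.2 h)]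
        ring
    rw [h2, y0] at h1
    unfold Row.S
    linarith
  have dφ : ∀ i j, |R.φ i - R.φ j| ≤ R.S := by
    have key : ∀ i (k : ℕ), |R.φ (i + k) - R.φ i| ≤ R.S := by
      intro i k
      rw [tele, abs_le]
      have u := fin_le mS (fun _ => le_max_right _ _) i k
      have l := fin_le mS' (fun _ => le_max_right _ _) i k
      rw [yS] at l
      have u' : ∑ t ∈ Finset.range k, (R.φ (i + t + 1) - R.φ (i + t)) ≤
          ∑ t ∈ Finset.range k, max (R.y (i + t)) 0 :=
        Finset.sum_le_sum fun t _ => le_max_left _ _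
      have l' : ∑ t ∈ Finset.range k, -(R.φ (i + t + 1) - R.φ (i + t)) ≤
          ∑ t ∈ Finset.range k, max (-R.y (i + t)) 0 :=
        Finset.sum_le_sum fun t _ => le_max_left _ _
      rw [Finset.sum_neg_distrib] at l'
      exact ⟨by linarith, u'.trans u⟩
    intro i j
    rcases le_total i j with h | h
    · obtain ⟨k, rfl⟩ := Int.le.dest h
      rw [abs_sub_comm]
      exact key i k
    · obtain ⟨k, rfl⟩ := Int.le.dest h
      exact key j k
  have aφ : ∀ i, |R.φ i| ≤ R.S := fun i => by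
    have := dφ i n
    rwa [hn0.1, sub_zero] at this
  have P0 : 0 ≤ R.P := (le_max_right _ _).trans (sP.1 0)
  have N0 : 0 ≤ R.nu := (le_max_right _ _).trans (sN.1 0)
  have E0 : 0 ≤ R.eta := (le_max_right _ _).trans (sE.1 0)
  have F0 : 0 ≤ R.f := by
    have := sF.1 n
    simpa [hn0.1] using this
  have Z0 : 0 ≤ R.zs := by
    have := sZ.1 n
    simpa [hn0.1] using this
  have S0 : 0 ≤ R.S := tsum_nonneg fun _ => le_max_right _ _
  have hP : ∀ i, R.w i ≤ R.P := fun i => (le_max_left _ _).trans (sP.1 i)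
  have hN : ∀ i, -R.w i ≤ R.nu := fun i => (le_max_left _ _).trans (sN.1 i)
  have hE : ∀ i, -R.ah i ≤ R.eta ∧ -R.bh i ≤ R.eta := fun i =>
    ⟨((le_max_left _ _).trans (le_max_left _ _)).trans (sE.1 i),
      ((le_max_right _ _).trans (le_max_left _ _)).trans (sE.1 i)⟩
  have hF : ∀ i, R.bad i → |R.φ i| ≤ R.f := fun i h => by
    have := sF.1 i
    rwa [if_pos h] at this
  have ab : ∀ i, 2 * -R.w i ≤ -R.ah i + -R.bh i := fun i => by
    have := g5 (R.φ i)
    unfold Row.ah Row.bh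
    linarith
  refine ⟨⟨hP, P0, ?_⟩, ⟨hN, N0, ?_⟩, ⟨hE, E0, ?_⟩, ⟨hF, F0, ?_⟩, ⟨fun i h => ?_, Z0, ?_⟩,
    ⟨S0, ?_, ?_, ?_, ?_, ?_⟩, ⟨?_, ?_, ?_, ?_, ?_, ?_, ?_⟩, fun i j hij => ?_, y0, yS, dφ, aφ,
    fun i => ?_⟩
  · obtain ⟨i, hi⟩ := sP.2
    rcases le_total (R.w i) 0 with h | h
    · exact Or.inl (by rw [← hi, max_eq_right h])
    · exact Or.inr ⟨i, by rw [← hi, max_eq_left h]⟩
  · obtain ⟨i, hi⟩ := sN.2
    rcases le_total (-R.w i) 0 with h | h
    · exact Or.inl (by rw [← hi, max_eq_right h])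
    · exact Or.inr ⟨i, by rw [← hi, max_eq_left h]⟩
  · intro c c0 hc
    obtain ⟨i, hi⟩ := sE.2
    rw [← hi]
    exact max_le (max_le (hc i).1 (hc i).2) c0
  · obtain ⟨i, hi⟩ := sF.2
    by_cases h : R.bad i
    · exact Or.inr ⟨i, h, by rw [← hi, if_pos h]⟩
    · exact Or.inl (by rw [← hi, if_neg h])
  · have := sZ.1 i
    rwa [if_pos h] at this
  · obtain ⟨i, hi⟩ := sZ.2
    by_cases h : R.bad2 i
    · exact Or.inr ⟨i, h, by rw [← hi, if_pos h]⟩
    · exact Or.inl (by rw [← hi, if_neg h])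
  · refine tsum_nonneg fun i => sub_nonneg.2 ?_
    exact Real.sqrt_le_iff.2 ⟨by norm_num, by nlinarith [sq_nonneg (R.T i)]⟩
  · exact tsum_nonneg fun _ => le_max_right _ _
  · exact tsum_nonneg fun _ => le_max_right _ _
  · exact tsum_nonneg fun _ => add_nonneg (le_max_right _ _) (le_max_right _ _)
  · exact tsum_nonneg fun i => by split_ifs <;> simp
  · exact mZ.tsum_le_tsum (fun i => by split_ifs <;> simp) mY
  · obtain ⟨i, hi⟩ := sP.2
    rw [← hi]
    exact mY.le_tsum i fun _ _ => le_max_right _ _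
  · obtain ⟨i, hi⟩ := sF.2
    rw [← hi]
    split_ifs
    · exact aφ i
    · exact S0
  · obtain ⟨i, hi⟩ := sZ.2
    rw [← hi]
    split_ifs with h
    · refine hF i ?_
      have := gmono (abs_nonneg (R.φ i))
      unfold Row.bad2 at h
      unfold Row.bad
      linarith
    · exact F0
  · obtain ⟨i, hi⟩ := sN.2
    rw [← hi]
    exact mN.le_tsum i fun _ _ => le_max_right _ _
  · obtain ⟨i, hi⟩ := sN.2
    rw [← hi]
    refine max_le ?_ E0
    have := ab i
    have := hE i
    linarith [this.1, this.2]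
  · unfold Row.N Row.E
    rw [← tsum_mul_left]
    refine (mN.mul_left 2).tsum_le_tsum (fun i => ?_) mE
    have := ab i
    have a := le_max_left (-R.ah i) 0
    have b := le_max_left (-R.bh i) 0
    have a' := le_max_right (-R.ah i) 0
    have b' := le_max_right (-R.bh i) 0
    rcases le_total (-R.w i) 0 with h | h
    · rw [max_eq_right h]
      linarith
    · rw [max_eq_left h]
      linarith
  · have := mY.sum_le_tsum {i, j} fun _ _ => le_max_right _ _
    rwa [Finset.sum_pair hij] at this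
  · have a := hP i
    have b := hP (i + 1)
    have c := hN i
    have d := hN (i + 1)
    unfold Row.T Row.rho
    rw [abs_le]
    constructor <;> linarith

end Pool.Agent.P.MP_dd077d_co
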