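import Pool.Agent.P.MP_dd077d_co.Iface2

/-! Growth of the negative parts of the potentials from one row to the next. -/

set_option linter.dupNamespace false

namespace Pool.Agent.P.MP_dd077d_co

open Classical

namespace Rec

lemma smm (R : Row) (f : ℤ → ℝ) (hf : ∀ i, R.φ i = 0 → R.w i = 0 → f i = 0) : Summable f := by
  obtain ⟨n, hn⟩ := R.fin
  refine summable_of_ne_finset_zero (s := Finset.Icc (-(n : ℤ)) n) fun i hi => ?_
  have h : (n : ℤ) ≤ |i| := by
    rw [Finset.mem_Icc] at hi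
    rw [le_abs]
    omega
  exact hf i (hn i h).1 (hn i h).2

lemma loc (hg : S_g) {x x' w w' : ℝ} (hx0 : 0 ≤ x) (hx1 : x ≤ 1) (h1 : -1 ≤ x') (h2 : x' ≤ 1)
    (hA : g (x - x') ≤ w - w') : ∃ ex : ℝ, 0 ≤ ex ∧ g x ≤ w + max (-(w' + g (-x'))) 0 + ex ∧
      ex ≤ 667 / 1000 * x * max (-(w' + g x')) 0 ∧
      max (-(w' + g (-x'))) 0 + ex ≤ max (max (-(w' + g (-x'))) 0) (max (-(w' + g x')) 0) := by
  obtain ⟨g0, -, -, -, g5, -, g7, g8, -⟩ := hg
  have nB : 0 ≤ max (-(w' + g x')) 0 := le_max_right _ _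
  have nA : -(w' + g (-x')) ≤ max (-(w' + g (-x'))) 0 := le_max_left _ _
  rcases le_total 0 x' with h | h
  · refine ⟨0, le_rfl, ?_, by positivity, by rw [add_zero]; exact le_max_left _ _⟩
    have := g5 (-x') 0 x (by linarith) (by linarith) hx0 (by linarith)
    rw [zero_add, g0, show -x' + x = x - x' by ring] at this
    linarith
  · have a1 := g7 (-x') x (by linarith) (by linarith) hx0 hx1
    have a2 := g8 (-x') (by linarith) (by linarith)
    rw [show -x' + x = x - x' by ring] at a1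
    rw [neg_neg] at a2
    have nB' : -(w' + g x') ≤ max (-(w' + g x')) 0 := le_max_left _ _
    have hy : 0 ≤ -x' := by linarith
    have hxy : 0 ≤ -x' * x := mul_nonneg hy hx0
    have hxy1 : -x' * x ≤ -x' := mul_le_of_le_one_right hy hx1
    have m2 : max (-(w' + g x')) 0 ≤ max (max (-(w' + g (-x'))) 0) (max (-(w' + g x')) 0) :=
      le_max_right _ _
    rcases le_total (w' + g (-x')) 0 with hA0 | hA0
    · rw [max_eq_left (by linarith : (0 : ℝ) ≤ -(w' + g (-x')))] at *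
      refine ⟨0.77 * (-x' * x), by positivity, by linarith, ?_, by linarith⟩
      have : x * (1.1547 * -x') ≤ x * max (-(w' + g x')) 0 :=
        mul_le_mul_of_nonneg_left (by linarith) hx0
      nlinarith
    · rw [max_eq_right (by linarith : -(w' + g (-x')) ≤ 0)] at *
      rcases le_total (0.77 * (-x' * x)) (w' + g (-x')) with h3 | h3
      · exact ⟨0, le_rfl, by linarith, by positivity, by linarith⟩
      · refine ⟨0.77 * (-x' * x) - (w' + g (-x')), by linarith, by linarith, ?_, by linarith⟩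
        have b1 : x * (1.1547 * -x' - (w' + g (-x'))) ≤ x * max (-(w' + g x')) 0 :=
          mul_le_mul_of_nonneg_left (by linarith) hx0
        have b2 : x * (w' + g (-x')) ≤ w' + g (-x') := mul_le_of_le_one_left hA0 hx1
        nlinarith

lemma xle (hg : S_g) {x f : ℝ} (hx0 : 0 ≤ x) (hx : x ≤ f) (hf : f ≤ 7 / 10) :
    x ≤ g x * ((Rp f + s3) / (2 - f)) := by
  obtain ⟨-, -, -, g4, -, -, -, -, -, g10, -, -, -, g14⟩ := hg
  have a1 := g10 x hx0 (by linarith)
  have a2 := g4 x f hx (by linarith)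
  have a3 := g14 x hx0 (by linarith)
  have a4 : Rp x ≤ Rp f := by unfold g at a2; linarith
  rw [← mul_div_assoc, le_div_iff₀ (by linarith)]
  have a5 : g x * (Rp x + s3) ≤ g x * (Rp f + s3) :=
    mul_le_mul_of_nonneg_left (by linarith) (by linarith)
  nlinarith

lemma K_nonneg {f : ℝ} (hf : f ≤ 7 / 10) : 0 ≤ (Rp f + s3) / (2 - f) :=
  div_nonneg (add_nonneg (Real.sqrt_nonneg _) s3_pos.le) (by linarith)

lemma mu_nonneg (f : ℝ) : 0 ≤ muF f := by unfold muF; positivity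

lemma cc_nonneg {t z : ℝ} (ht : 0 ≤ t) (hz : 0 ≤ z) : 0 ≤ ccF t z := by
  have h1 : 0 ≤ Rm t := Real.sqrt_nonneg _
  have h2 := s3_pos
  unfold ccF
  positivity

lemma nearB (hg : S_g) {x x' w w' f : ℝ} (hx0 : 0 ≤ x) (hx1 : x ≤ 1) (h1 : -1 ≤ x') (h2 : x' ≤ 1)
    (hA : g (x - x') ≤ w - w') (hf0 : 0 ≤ f) (hf : f ≤ 7 / 10) (hb : w + g (-x) < 0 → x ≤ f) :
    max (-(w + g (-x))) 0 ≤ max (-(w' + g (-x'))) 0 + 667 / 1000 * (f * max (-(w' + g x')) 0) +
      muF f * ((Rp f + s3) / (2 - f)) * (f * ((if w + g (-x) < 0 then max w 0 else 0) +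
        max (-(w' + g (-x'))) 0 + max (-(w' + g x')) 0 / 2)) ∧
    -(w + g (-x)) ≤ max (max (-(w' + g (-x'))) 0) (max (-(w' + g x')) 0) + muF f * f ^ 2 := by
  obtain ⟨ex, e0, e1, e2, e3⟩ := loc hg hx0 hx1 h1 h2 hA
  have hK := K_nonneg hf
  have hmu := mu_nonneg f
  set a := max (-(w' + g (-x'))) 0 with ha
  set b := max (-(w' + g x')) 0 with hbb
  have a0 : 0 ≤ a := le_max_right _ _
  have b0 : 0 ≤ b := le_max_right _ _
  by_cases h : w + g (-x) < 0
  · have hx := hb h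
    have c1 := hg.2.2.2.2.2.2.2.2.1 x hx0 (by linarith)
    have c2 : muF x ≤ muF f := by
      unfold muF
      have : x ^ 2 ≤ f ^ 2 := by gcongr
      linarith
    have c3 : muF x * x ^ 2 ≤ muF f * (f * x) := by
      have : x ^ 2 ≤ f * x := by nlinarith
      exact mul_le_mul c2 this (by positivity) hmu
    have c4 : muF f * (f * x) ≤ muF f * f ^ 2 := by
      have : f * x ≤ f ^ 2 := by nlinarith
      gcongr
    have c5 := xle hg hx0 hx hf
    have c6 : x * b ≤ f * b := by gcongr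
    have c7 : f * b ≤ 7 / 10 * b := by gcongr
    have c8 : g x ≤ max w 0 + a + b / 2 := by
      have := le_max_left w 0
      linarith
    have c9 : x ≤ (max w 0 + a + b / 2) * ((Rp f + s3) / (2 - f)) :=
      c5.trans (mul_le_mul_of_nonneg_right c8 hK)
    have c10 : muF f * (f * x) ≤
        muF f * (f * ((max w 0 + a + b / 2) * ((Rp f + s3) / (2 - f)))) := by gcongr
    rw [if_pos h, max_eq_left (by linarith)]
    constructor
    · linarith
    · linarith
  · rw [if_neg h, max_eq_right (by linarith)]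
    have : a ≤ max a b := le_max_left _ _
    have : 0 ≤ muF f * f ^ 2 := by positivity
    constructor
    · positivity
    · linarith

lemma farB (hg : S_g) {x u w w' S z : ℝ} (hx0 : 0 ≤ x) (hu : |u| ≤ S)
    (hC : g (u - x) ≤ w - w') (hz0 : 0 ≤ z) (hz : z ≤ 7 / 10) (hS : S + z ≤ 9 / 10)
    (hb : w + g x < 0 → x ≤ z) :
    max (-(w + g x)) 0 ≤ max (-(w' + g u)) 0 +
      ccF (S + z) z * max (-w) 0 * ((Rp z + s3) / (2 - z)) ∧
    -(w + g x) ≤ max (-(w' + g u)) 0 + z * ccF (S + z) z := by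
  have hK := K_nonneg hz
  have hS0 : 0 ≤ S := (abs_nonneg u).trans hu
  have hcc := cc_nonneg (show 0 ≤ S + z by linarith) hz0
  have c0 : 0 ≤ max (-(w' + g u)) 0 := le_max_right _ _
  have w0 : 0 ≤ max (-w) 0 := le_max_right _ _
  by_cases h : w + g x < 0
  · have hx := hb h
    have hu' := abs_le.1 hu
    have c1 := hg.2.2.2.2.2.2.2.2.2.2.2.1 x u (S + z) hx0 (by linarith) (by linarith [hu'.2])
      (by linarith) hS (by linarith [hu'.1])
    have c2 : ccF (S + z) x ≤ ccF (S + z) z := by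
      unfold ccF
      linarith
    have c3 : x * ccF (S + z) x ≤ x * ccF (S + z) z := by gcongr
    have c4 : x * ccF (S + z) z ≤ z * ccF (S + z) z := by gcongr
    have c5 := xle hg hx0 hx hz
    have c6 : g x ≤ max (-w) 0 := le_trans (by linarith) (le_max_left _ _)
    have c7 : x ≤ max (-w) 0 * ((Rp z + s3) / (2 - z)) :=
      c5.trans (mul_le_mul_of_nonneg_right c6 hK)
    have c8 : x * ccF (S + z) z ≤ max (-w) 0 * ((Rp z + s3) / (2 - z)) * ccF (S + z) z := by
      gcongr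
    have c9 : -(w' + g u) ≤ max (-(w' + g u)) 0 := le_max_left _ _
    rw [max_eq_left (by linarith)]
    constructor
    · linarith
    · linarith
  · rw [max_eq_right (by linarith)]
    have : 0 ≤ z * ccF (S + z) z := by positivity
    constructor
    · positivity
    · linarith

lemma slots (hrb : S_rb) {U R : Row} (hc : Row.Cross U R) (j : ℤ) : ∃ x' u w' w'' : ℝ,
    |x'| ≤ U.S ∧ |u| ≤ U.S ∧ g (|R.φ j| - x') ≤ R.w j - w' ∧ g (u - |R.φ j|) ≤ R.w j - w'' ∧
    max (-(w' + g (-x'))) 0 + max (-(w'' + g u)) 0 = max (-U.bh j) 0 + max (-U.ah (j - 1)) 0 ∧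
    max (-(w' + g x')) 0 ≤ max (-U.ah j) 0 + max (-U.bh (j - 1)) 0 ∧
    max (-(w' + g (-x'))) 0 ≤ U.eta ∧ max (-(w' + g x')) 0 ≤ U.eta ∧
    max (-(w'' + g u)) 0 ≤ U.eta ∧
    ((R.ah j = R.w j + g |R.φ j| ∧ R.bh j = R.w j + g (-|R.φ j|)) ∨
      (R.bh j = R.w j + g |R.φ j| ∧ R.ah j = R.w j + g (-|R.φ j|))) := by
  obtain ⟨-, -, ⟨e1, e0, -⟩, -, -, -, -, -, -, -, -, hS, -⟩ := hrb U
  obtain ⟨c1, c2⟩ := hc j
  have ea : ∀ i, max (-U.ah i) 0 ≤ U.eta := fun i => max_le (e1 i).1 e0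
  have eb : ∀ i, max (-U.bh i) 0 ≤ U.eta := fun i => max_le (e1 i).2 e0
  rcases le_total 0 (R.φ j) with h | h
  · rw [abs_of_nonneg h]
    exact ⟨U.φ j, U.φ (j - 1), U.w j, U.w (j - 1), hS _, hS _, c1, c2, rfl,
      le_add_of_nonneg_right (le_max_right _ _), eb j, ea j, ea (j - 1), Or.inl ⟨rfl, rfl⟩⟩
  · rw [abs_of_nonpos h]
    refine ⟨-U.φ (j - 1), -U.φ j, U.w (j - 1), U.w j, by rw [abs_neg]; exact hS _,
      by rw [abs_neg]; exact hS _, ?_, ?_, ?_, le_add_of_nonneg_left (le_max_right _ _), ?_,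
      eb (j - 1), eb j, Or.inr ⟨rfl, by rw [neg_neg]; rfl⟩⟩
    · rw [show -R.φ j - -U.φ (j - 1) = U.φ (j - 1) - R.φ j by ring]
      exact c2
    · rw [show -U.φ j - -R.φ j = R.φ j - U.φ j by ring]
      exact c1
    · rw [neg_neg, add_comm]
      rfl
    · rw [neg_neg]
      exact ea (j - 1)

end Rec

open Rec in
theorem recE (hg : S_g) (hrb : S_rb) : S_rec := by
  intro U R hc hU hR
  obtain ⟨-, ⟨n1, n0, -⟩, ⟨-, -, e2⟩, ⟨f1, f0, f2⟩, ⟨z1, z0, z2⟩, ⟨-, -, -, -, -, Z0⟩,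
    ⟨-, -, -, hzf, -⟩, -, -, -, -, hS, -⟩ := hrb R
  have g0 := hg.1
  have E0 : 0 ≤ U.eta := (hrb U).2.2.1.2.1
  have sz : Summable fun i => if R.bad i then max (R.w i) 0 else 0 :=
    smm R _ fun i _ h => by simp [h]
  refine ⟨⟨?_, ?_⟩, fun hf hSz => ⟨?_, ?_⟩⟩
  · rcases f2 with h | ⟨i, hi, h⟩
    · rw [h, g0]
      linarith
    · obtain ⟨x', u, w', w'', a1, -, a3, -, -, -, a7, a8, -⟩ := slots hrb hc i
      have b1 := abs_le.1 (a1.trans hU)
      obtain ⟨ex, -, c1, -, c3⟩ := loc hg (abs_nonneg _) ((hS i).trans hR) b1.1 b1.2 a3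
      have c4 := sz.le_tsum i fun k _ => by split_ifs; exacts [le_max_right _ _, le_rfl]
      rw [if_pos hi] at c4
      have c5 := max_le a7 a8
      have c6 := le_max_left (R.w i) 0
      rw [← h]
      unfold Row.z
      linarith
  · rcases z2 with h | ⟨i, hi, h⟩
    · rw [h, g0]
      exact n0
    · have := n1 i
      unfold Row.bad2 at hi
      rw [← h]
      linarith
  · have sa : ∀ V : Row, Summable fun i => max (-V.ah i) 0 := fun V =>
      smm V _ fun i h1 h2 => by simp [Row.ah, h1, h2, g0]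
    have sb : ∀ V : Row, Summable fun i => max (-V.bh i) 0 := fun V =>
      smm V _ fun i h1 h2 => by simp [Row.bh, h1, h2, g0]
    have sN : Summable fun i => max (-R.w i) 0 := smm R _ fun i _ h => by simp [h]
    have ha := (sa U).hasSum
    have hb := (sb U).hasSum
    have ha' : HasSum (fun i => max (-U.ah (i - 1)) 0) (∑' i, max (-U.ah i) 0) :=
      (Equiv.subRight (1 : ℤ)).hasSum_iff.2 ha
    have hb' : HasSum (fun i => max (-U.bh (i - 1)) 0) (∑' i, max (-U.bh i) 0) :=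
      (Equiv.subRight (1 : ℤ)).hasSum_iff.2 hb
    have hE : U.E = ∑' i, max (-U.ah i) 0 + ∑' i, max (-U.bh i) 0 := (ha.add hb).tsum_eq
    have hp : HasSum (fun i => max (-U.bh i) 0 + max (-U.ah (i - 1)) 0) U.E := by
      rw [hE, add_comm]
      exact hb.add ha'
    have hq : HasSum (fun i => max (-U.ah i) 0 + max (-U.bh (i - 1)) 0) U.E := by
      rw [hE]
      exact ha.add hb'
    have tot := ((hp.add ((hq.mul_left R.f).mul_left (667 / 1000))).add
      ((((sz.hasSum.add hp).add (hq.div_const 2)).mul_left R.f).mul_left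
        (muF R.f * ((Rp R.f + s3) / (2 - R.f))))).add
      ((sN.hasSum.mul_left (ccF (U.S + R.zs) R.zs)).mul_right ((Rp R.zs + s3) / (2 - R.zs)))
    have key := hasSum_le (fun j => ?_) ((sa R).add (sb R)).hasSum tot
    · unfold Row.z Row.N
      unfold Row.E at key ⊢
      linarith
    obtain ⟨x', u, w', w'', a1, a2, a3, a4, a5, a6, -, -, -, a10⟩ := slots hrb hc j
    have b1 := abs_le.1 (a1.trans hU)
    have c1 := (nearB hg (abs_nonneg _) ((hS j).trans hR) b1.1 b1.2 a3 f0 hf (f1 j)).1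
    have c2 := (farB hg (abs_nonneg _) a2 a4 z0 (hzf.trans hf) hSz (z1 j)).1
    have c3 : max (-R.ah j) 0 + max (-R.bh j) 0 =
        max (-(R.w j + g (-|R.φ j|))) 0 + max (-(R.w j + g |R.φ j|)) 0 := by
      rcases a10 with ⟨h1, h2⟩ | ⟨h1, h2⟩
      · rw [h1, h2, add_comm]
      · rw [h1, h2]
    have c4 : (if R.w j + g (-|R.φ j|) < 0 then max (R.w j) 0 else 0) =
        if R.bad j then max (R.w j) 0 else 0 := by
      by_cases h : R.bad j
      · rw [if_pos h, if_pos (show R.w j + g (-|R.φ j|) < 0 from h)]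
      · rw [if_neg h, if_neg (show ¬R.w j + g (-|R.φ j|) < 0 from h)]
    rw [c4] at c1
    have hK := mul_nonneg (mu_nonneg R.f) (K_nonneg hf)
    have c5 : max (-(w' + g (-x'))) 0 ≤ max (-U.bh j) 0 + max (-U.ah (j - 1)) 0 := by
      rw [← a5]
      exact le_add_of_nonneg_right (le_max_right _ _)
    have c6 : R.f * max (-(w' + g x')) 0 ≤ R.f * (max (-U.ah j) 0 + max (-U.bh (j - 1)) 0) := by
      gcongr
    have c7 : muF R.f * ((Rp R.f + s3) / (2 - R.f)) * (R.f * ((if R.bad j then max (R.w j) 0 else 0)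
        + max (-(w' + g (-x'))) 0 + max (-(w' + g x')) 0 / 2)) ≤
        muF R.f * ((Rp R.f + s3) / (2 - R.f)) * (R.f * ((if R.bad j then max (R.w j) 0 else 0)
        + (max (-U.bh j) 0 + max (-U.ah (j - 1)) 0) +
          (max (-U.ah j) 0 + max (-U.bh (j - 1)) 0) / 2)) := by
      gcongr
    rw [c3]
    linarith
  · have m1 := le_max_left (muF R.f * R.f ^ 2) (R.zs * ccF (U.S + R.zs) R.zs)
    have m2 := le_max_right (muF R.f * R.f ^ 2) (R.zs * ccF (U.S + R.zs) R.zs)
    have m0 : 0 ≤ muF R.f * R.f ^ 2 := mul_nonneg (mu_nonneg _) (sq_nonneg _)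
    rw [sub_le_iff_le_add']
    refine e2 _ (by linarith) fun j => ?_
    obtain ⟨x', u, w', w'', a1, a2, a3, a4, -, -, a7, a8, a9, a10⟩ := slots hrb hc j
    have b1 := abs_le.1 (a1.trans hU)
    have c1 := (nearB hg (abs_nonneg _) ((hS j).trans hR) b1.1 b1.2 a3 f0 hf (f1 j)).2
    have c2 := (farB hg (abs_nonneg _) a2 a4 z0 (hzf.trans hf) hSz (z1 j)).2
    have c5 := max_le a7 a8
    rcases a10 with ⟨h1, h2⟩ | ⟨h1, h2⟩ <;> rw [h1, h2] <;> constructor <;> linarith

end Pool.Agent.P.MP_dd077d_co
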