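import Pool.Agent.P.MP_dd077d_co.Defs

/-!
Reduction of the frozen statement to the triangulation statements.
-/

namespace Pool.Agent.P.MP_dd077d_co

namespace Red

/-- pairwise squared distances at least four -/
def Sep (A : Set ℂ) : Prop := ∀ x ∈ A, ∀ y ∈ A, x ≠ y → 4 ≤ nsq (x - y)

lemma sep_finite {A : Set ℂ} (hA : Sep A) (l : ℂ) : {z | z ∈ A ∧ nsq (l - z) < 4}.Finite := by
  set f : ℂ → ℤ × ℤ := fun z => (⌊z.re⌋, ⌊z.im⌋) with hf
  apply Set.Finite.of_finite_image (f := f)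
  · apply Set.Finite.subset
      ((Set.finite_Icc (⌊l.re⌋ - 3) (⌊l.re⌋ + 3)).prod (Set.finite_Icc (⌊l.im⌋ - 3) (⌊l.im⌋ + 3)))
    rintro _ ⟨z, ⟨-, hz⟩, rfl⟩
    rw [nsq_sub] at hz
    have h1 : |l.re - z.re| < 2 := by
      apply abs_lt_of_sq_lt_sq _ (by norm_num)
      nlinarith [sq_nonneg (l.im - z.im)]
    have h2 : |l.im - z.im| < 2 := by
      apply abs_lt_of_sq_lt_sq _ (by norm_num)
      nlinarith [sq_nonneg (l.re - z.re)]
    rw [abs_lt] at h1 h2
    have a1 := Int.floor_le z.re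
    have a2 := Int.lt_floor_add_one z.re
    have a3 := Int.floor_le l.re
    have a4 := Int.lt_floor_add_one l.re
    have b1 := Int.floor_le z.im
    have b2 := Int.lt_floor_add_one z.im
    have b3 := Int.floor_le l.im
    have b4 := Int.lt_floor_add_one l.im
    simp only [hf, Set.mem_prod, Set.mem_Icc]
    refine ⟨⟨?_, ?_⟩, ?_, ?_⟩
    · have : ((⌊l.re⌋ - 3 : ℤ) : ℝ) ≤ (⌊z.re⌋ : ℝ) := by push_cast; linarith
      exact_mod_cast this
    · have : (⌊z.re⌋ : ℝ) ≤ ((⌊l.re⌋ + 3 : ℤ) : ℝ) := by push_cast; linarith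
      exact_mod_cast this
    · have : ((⌊l.im⌋ - 3 : ℤ) : ℝ) ≤ (⌊z.im⌋ : ℝ) := by push_cast; linarith
      exact_mod_cast this
    · have : (⌊z.im⌋ : ℝ) ≤ ((⌊l.im⌋ + 3 : ℤ) : ℝ) := by push_cast; linarith
      exact_mod_cast this
  · rintro x ⟨hx, -⟩ y ⟨hy, -⟩ hxy
    by_contra hne
    have h4 := hA x hx y hy hne
    simp only [hf, Prod.mk.injEq] at hxy
    have h1 := Int.abs_sub_lt_one_of_floor_eq_floor hxy.1
    have h2 := Int.abs_sub_lt_one_of_floor_eq_floor hxy.2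
    rw [abs_lt] at h1 h2
    rw [nsq_sub] at h4
    nlinarith [h1.1, h1.2, h2.1, h2.2]

lemma exists_near (z : ℂ) : ∃ l ∈ Lam, nsq (l - z) < 4 := by
  set r : ℤ := round (z.im / s3) with hr
  set j : ℤ := round ((z.re - r) / 2) with hj
  refine ⟨site r j, ⟨r, j, rfl⟩, ?_⟩
  have h1 := abs_sub_round (z.im / s3)
  have h2 := abs_sub_round ((z.re - r) / 2)
  rw [← hr] at h1
  rw [← hj] at h2
  rw [abs_le] at h1 h2
  rw [nsq_sub, site_re, site_im]
  have e : s3 * (r : ℝ) - z.im = - s3 * (z.im / s3 - r) := by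
    field_simp [s3_pos.ne']
    ring
  rw [e]
  have h3 : (z.im / s3 - r) ^ 2 ≤ 1 / 4 := by nlinarith [h1.1, h1.2]
  have h4 : (2 * (j : ℝ) + r - z.re) ^ 2 ≤ 1 := by nlinarith [h2.1, h2.2]
  have h5 : (-s3 * (z.im / s3 - r)) ^ 2 = 3 * (z.im / s3 - r) ^ 2 := by
    rw [mul_pow, neg_sq, s3_sq]
  rw [h5]
  linarith

lemma site_eq (a b : ℤ) :
    2 * ((a : ℂ) + (b : ℂ) * ((1 / 2 : ℂ) + ((Real.sqrt 3 / 2 : ℝ) : ℂ) * Complex.I)) = site b a := by
  apply Complex.ext
  · simp [site]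
    ring
  · simp [site, s3]
    ring

lemma site_add (r j r' j' : ℤ) : site r j + site r' j' = site (r + r') (j + j') := by
  apply Complex.ext
  · simp [site]
    ring
  · simp [site]
    ring

lemma site_sub (r j r' j' : ℤ) : site r j - site r' j' = site (r - r') (j - j') := by
  apply Complex.ext
  · simp [site]
    ring
  · simp [site]
    ring

lemma zero_mem : (0 : ℂ) ∈ Lam := ⟨0, 0, by apply Complex.ext <;> simp [site]⟩

lemma nsq_of_dist {x y : ℂ} (h : 2 ≤ dist x y) : 4 ≤ nsq (x - y) := by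
  rw [Complex.dist_eq] at h
  have h1 : ‖x - y‖ ^ 2 = nsq (x - y) := by
    rw [Complex.sq_norm, Complex.normSq_apply, nsq]
    ring
  nlinarith [norm_nonneg (x - y)]

lemma exists_sat {Q : Set ℂ} (hQ : Sep Q) :
    ∃ R : Set ℂ, Q ⊆ R ∧ Sep R ∧ ∀ z : ℂ, ∃ p ∈ R, nsq (p - z) < 4 := by
  obtain ⟨R, hQR, hmax⟩ := zorn_subset_nonempty {A : Set ℂ | Sep A} (by
    intro c hc hch _
    refine ⟨⋃₀ c, ?_, fun s hs => Set.subset_sUnion_of_mem hs⟩
    rintro x ⟨A, hA, hxA⟩ y ⟨B, hB, hyB⟩ hxy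
    rcases hch.total hA hB with h | h
    · exact hc hB x (h hxA) y hyB hxy
    · exact hc hA x hxA y (h hyB) hxy) Q hQ
  have hR : Sep R := hmax.prop
  refine ⟨R, hQR, hR, fun z => ?_⟩
  by_contra hcon
  push Not at hcon
  have hins : Sep (insert z R) := by
    intro x hx y hy hxy
    rcases hx with rfl | hx
    · rcases hy with rfl | hy
      · exact absurd rfl hxy
      · rw [nsq_comm]; exact hcon y hy
    · rcases hy with rfl | hy
      · exact hcon x hx
      · exact hR x hx y hy hxy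
  have hz : z ∈ R := hmax.le_of_ge hins (Set.subset_insert z R) (Set.mem_insert z R)
  have := hcon z hz
  simp [nsq] at this
  linarith

end Red

open Red in
theorem target_of (he : S_exDT) (hb : S_budget) (hm : S_main) : S_target := by
  intro P hP g hfin hsep
  have hPL : P = Lam \ {0} := by
    rw [hP]
    ext z
    simp only [Set.mem_ofPred_eq, Set.mem_sdiff, Set.mem_singleton_iff, Lam]
    constructor
    · rintro ⟨a, b, h1, h2⟩
      exact ⟨⟨b, a, by rw [h1, site_eq]⟩, h2⟩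
    · rintro ⟨⟨r, j, h1⟩, h2⟩
      exact ⟨j, r, by rw [site_eq, h1], h2⟩
  have hinj : Set.InjOn g P := by
    intro z hz w hw hzw
    by_contra hne
    have := hsep z hz w hw hne
    rw [hzw, dist_self] at this
    linarith
  set M : Set ℂ := {z : ℂ | z ∈ P ∧ g z ≠ z} with hM
  set Q : Set ℂ := g '' P with hQ
  have hQsep : Sep Q := by
    rintro _ ⟨z, hz, rfl⟩ _ ⟨w, hw, rfl⟩ hne
    exact nsq_of_dist (hsep z hz w hw (fun h => hne (by rw [h])))
  have hPLam : ∀ z ∈ P, z ∈ Lam ∧ z ≠ 0 := by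
    intro z hz
    rw [hPL] at hz
    exact ⟨hz.1, hz.2⟩
  have hLamP : ∀ z ∈ Lam, z ≠ 0 → z ∈ P := by
    intro z hz h0
    rw [hPL]
    exact ⟨hz, h0⟩
  set A : Set ℂ := insert 0 M with hA
  set B : Set ℂ := g '' M with hB
  have hAfin : A.Finite := hfin.insert 0
  have hBfin : B.Finite := hfin.image g
  have h0M : (0 : ℂ) ∉ M := fun h => (hPLam 0 h.1).2 rfl
  have hAc : A.ncard = M.ncard + 1 := Set.ncard_insert_of_notMem h0M hfin
  have hBc : B.ncard = M.ncard := (hinj.mono (fun z hz => hz.1)).ncard_image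
  have hAL : A ⊆ Lam := by
    rintro z (rfl | hz)
    · exact zero_mem
    · exact (hPLam z hz.1).1
  have hBQ : B ⊆ Q := Set.image_mono (fun z hz => hz.1)
  have e1 : Lam \ Q = A \ B := by
    ext l
    constructor
    · rintro ⟨h1, h2⟩
      refine ⟨?_, fun h => h2 (hBQ h)⟩
      by_cases h0 : l = 0
      · exact Or.inl h0
      · right
        refine ⟨hLamP l h1 h0, fun hg => h2 ⟨l, hLamP l h1 h0, hg⟩⟩
    · rintro ⟨h1, h2⟩
      refine ⟨hAL h1, ?_⟩
      rintro ⟨z, hz, hzl⟩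
      by_cases hg : g z = z
      · have hzl' : z = l := by rw [← hzl, hg]
        subst hzl'
        rcases h1 with h1 | h1
        · exact (hPLam z hz).2 h1
        · exact h1.2 hg
      · exact h2 ⟨z, ⟨hz, hg⟩, hzl⟩
  have e2 : Q \ Lam = B \ A := by
    ext q
    constructor
    · rintro ⟨⟨z, hz, hzq⟩, h2⟩
      refine ⟨⟨z, ⟨hz, fun hg => h2 ?_⟩, hzq⟩, fun h => h2 (hAL h)⟩
      rw [← hzq, hg]
      exact (hPLam z hz).1
    · rintro ⟨h1, h2⟩
      refine ⟨hBQ h1, fun hq => h2 ?_⟩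
      by_cases h0 : q = 0
      · exact Or.inl h0
      · right
        have hqP := hLamP q hq h0
        refine ⟨hqP, fun hg => ?_⟩
        obtain ⟨m, hm1, hm2⟩ := h1
        have : m = q := hinj hm1.1 hqP (by rw [hm2, hg])
        subst this
        exact hm1.2 hg
  have hcard : (Lam \ Q).ncard = (Q \ Lam).ncard + 1 := by
    rw [e1, e2]
    have c1 := Set.ncard_inter_add_ncard_sdiff_eq_ncard A B hAfin
    have c2 := Set.ncard_inter_add_ncard_sdiff_eq_ncard B A hBfin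
    rw [Set.inter_comm] at c2
    omega
  have f1 : (Lam \ Q).Finite := by rw [e1]; exact hAfin.sdiff
  have f2 : (Q \ Lam).Finite := by rw [e2]; exact hBfin.sdiff
  obtain ⟨R, hQR, hR, hsat⟩ := exists_sat hQsep
  have f3 : (R \ Q).Finite := by
    apply Set.Finite.subset (f1.biUnion (fun l _ => sep_finite hR l))
    rintro z ⟨hz1, hz2⟩
    obtain ⟨l, hl, hlz⟩ := exists_near z
    simp only [Set.mem_iUnion]
    refine ⟨l, ⟨hl, fun hlQ => ?_⟩, hz1, hlz⟩
    have := hR l (hQR hlQ) z hz1 (fun h => hz2 (h ▸ hlQ))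
    linarith
  have f4 : (R \ Lam).Finite := by
    apply Set.Finite.subset (f2.union f3)
    rintro z ⟨hz1, hz2⟩
    by_cases hzQ : z ∈ Q
    · exact Or.inl ⟨hzQ, hz2⟩
    · exact Or.inr ⟨hz1, hzQ⟩
  have s1 : Lam \ R ⊆ Lam \ Q := fun z hz => ⟨hz.1, fun h => hz.2 (hQR h)⟩
  have s2 : Q \ Lam ⊆ R \ Lam := fun z hz => ⟨hQR hz.1, hz.2⟩
  have hnear : Near R := by
    refine ⟨f4, f1.subset s1, ?_⟩
    have c1 := Set.ncard_le_ncard s1 f1
    have c2 := Set.ncard_le_ncard s2 f4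
    omega
  obtain ⟨T, hT⟩ := he R hR hsat
  have hnT : Near T.pts := by rw [hT]; exact hnear
  have hRL : R ⊆ Lam := by
    have := hm T hnT (hb T hnT)
    rwa [hT] at this
  have hQL : Q ⊆ Lam := hQR.trans hRL
  have hemp : Q \ Lam = ∅ := Set.sdiff_eq_empty.2 hQL
  rw [hemp, Set.ncard_empty, zero_add] at hcard
  obtain ⟨l, hl⟩ := Set.ncard_eq_one.1 hcard
  have hlm : l ∈ Lam \ Q := by rw [hl]; rfl
  obtain ⟨r, j, hrj⟩ := hlm.1
  refine ⟨IsometryEquiv.addRight l, ?_⟩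
  ext q
  constructor
  · rintro ⟨z, hz, rfl⟩
    obtain ⟨⟨r', j', hz1⟩, hz2⟩ := hPLam z hz
    have hq : z + l ∈ Lam := ⟨r' + r, j' + j, by rw [hz1, hrj, site_add]⟩
    by_contra hn
    have : z + l ∈ Lam \ Q := ⟨hq, hn⟩
    rw [hl, Set.mem_singleton_iff] at this
    exact hz2 (by simpa using this)
  · intro hq
    obtain ⟨r', j', hq1⟩ := hQL hq
    refine ⟨q - l, hLamP _ ⟨r' - r, j' - j, by rw [hq1, hrj, site_sub]⟩ ?_, by simp⟩
    intro h0
    have : q = l := sub_eq_zero.1 h0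
    exact hlm.2 (this ▸ hq)

end Pool.Agent.P.MP_dd077d_co
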