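import Pool.Agent.P.MP_dd077d_co.Iface2

/-! Vertical steps of two consecutive rows against the gaps between them. -/

namespace Pool.Agent.P.MP_dd077d_co

namespace Rw

lemma sm {n : ℕ} {f : ℤ → ℝ} (h : ∀ j : ℤ, (n : ℤ) ≤ |j| → f j = 0) : Summable f := by
  refine summable_of_ne_finset_zero (s := Finset.Icc (-(n : ℤ)) n) fun i hi => h i ?_
  rw [Finset.mem_Icc] at hi
  rw [le_abs]
  omega

lemma sh {f : ℤ → ℝ} {a : ℝ} (h : HasSum f a) : HasSum (fun i => f (i + 1)) a :=
  (Equiv.addRight (1 : ℤ)).hasSum_iff.2 h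

lemma tele {n : ℕ} {f : ℤ → ℝ} (h : ∀ j : ℤ, (n : ℤ) ≤ |j| → f j = 0) :
    HasSum (fun j => f (j + 1) - f j) 0 := by
  have := (sh (sm h).hasSum).sub (sm h).hasSum
  rwa [sub_self] at this

lemma smax {n : ℕ} {f : ℤ → ℝ} (h : ∀ j : ℤ, (n : ℤ) ≤ |j| → f j = 0) :
    Summable fun j => max (f (j + 1) - f j) 0 := by
  refine sm (n := n + 1) fun j hj => ?_
  push_cast at hj
  rw [le_abs] at hj
  rw [h j (by rw [le_abs]; omega), h (j + 1) (by rw [le_abs]; omega)]
  simp

lemma key (hg : S_g) {n : ℕ} {α : ℤ → ℝ} {B : ℝ} (h : ∀ j : ℤ, (n : ℤ) ≤ |j| → α j = 0)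
    (h1 : ∀ j, α j ≤ 1) (hB : ∑' j, max (α (j + 1) - α j) 0 ≤ B) (B1 : B ≤ 1) :
    ∑' j, max (g (α (j + 1)) - g (α j)) 0 ≤ s3 - Rm B := by
  obtain ⟨g0, g1, -, g3, g4, -⟩ := hg
  have inj : ∀ m : ℕ, Set.InjOn (fun t : ℕ => (n : ℤ) - 1 - t) (Finset.range m) :=
    fun m x _ y _ e => by simpa using e
  have rB : ∀ m : ℕ, ∑ t ∈ Finset.range m, max (α (n - 1 - t + 1) - α (n - 1 - t)) 0 ≤ B := by
    intro m
    have := (smax h).sum_le_tsum ((Finset.range m).image fun t : ℕ => (n : ℤ) - 1 - t)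
      fun j _ => le_max_right _ _
    rw [Finset.sum_image (inj m)] at this
    exact this.trans hB
  have r0 : ∀ m : ℕ, 0 ≤ ∑ t ∈ Finset.range m, max (α (n - 1 - t + 1) - α (n - 1 - t)) 0 :=
    fun m => Finset.sum_nonneg fun _ _ => le_max_right _ _
  have ind : ∀ m : ℕ,
      -∑ t ∈ Finset.range m, max (α (n - 1 - t + 1) - α (n - 1 - t)) 0 ≤ α (n - m) ∧
      ∑ t ∈ Finset.range m, max (g (α (n - 1 - t + 1)) - g (α (n - 1 - t))) 0 ≤
        -g (-∑ t ∈ Finset.range m, max (α (n - 1 - t + 1) - α (n - 1 - t)) 0) := by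
    intro m
    induction m with
    | zero => simp [h n (le_abs_self _), g0]
    | succ m ih =>
      have b := rB (m + 1)
      have z := r0 m
      rw [Finset.sum_range_succ] at b
      rw [Finset.sum_range_succ, Finset.sum_range_succ]
      have e1 : (n : ℤ) - 1 - m + 1 = n - m := by ring
      have e2 : (n : ℤ) - (m + 1 : ℕ) = n - 1 - m := by
        push_cast
        ring
      rw [e1] at b
      rw [e1, e2]
      obtain ⟨i1, i2⟩ := ih
      generalize ∑ t ∈ Finset.range m, max (α (n - 1 - t + 1) - α (n - 1 - t)) 0 = r at *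
      have a1 := h1 (n - m)
      have a2 := h1 (n - 1 - m)
      generalize α (n - m) = x at *
      generalize α (n - 1 - m) = y at *
      rcases le_total y x with k | k
      · rw [max_eq_left (sub_nonneg.2 k)] at b ⊢
        have s := g4 (-(r + (x - y))) y (x - y) (by linarith) (by linarith) (by linarith)
          (by linarith)
        rw [show y + (x - y) = x by ring, show -(r + (x - y)) + (x - y) = -r by ring] at s
        rw [max_eq_left (sub_nonneg.2 (g3 y x k a1))]
        exact ⟨by linarith, by linarith⟩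
      · rw [max_eq_right (sub_nonpos.2 k), max_eq_right (sub_nonpos.2 (g3 x y k a2)), add_zero,
          add_zero]
        exact ⟨by linarith, i2⟩
  rw [tsum_eq_sum (s := (Finset.range (2 * n + 1)).image fun t : ℕ => (n : ℤ) - 1 - t),
    Finset.sum_image (inj _)]
  · have a := (ind (2 * n + 1)).2
    have b := g3 (-B) _ (neg_le_neg (rB (2 * n + 1))) (by linarith [r0 (2 * n + 1)])
    rw [g1 B] at b
    linarith
  · intro j hj
    have : (n : ℤ) ≤ j ∨ j ≤ -n - 1 := by
      by_contra hh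
      push Not at hh
      refine hj (Finset.mem_image.2 ⟨(n - 1 - j).toNat, Finset.mem_range.2 (by omega), by omega⟩)
    rw [h j (by rw [le_abs]; omega), h (j + 1) (by rw [le_abs]; omega)]
    simp

lemma pt {v d P nu : ℝ} (h1 : v ≤ P) (h2 : -v ≤ nu) :
    v * d ≤ (P + nu) * max d 0 - nu * d ∧ -(v * d) ≤ (P + nu) * max d 0 - P * d := by
  rcases le_total 0 d with h | h
  · rw [max_eq_left h]
    constructor <;> nlinarith
  · rw [max_eq_right h]
    constructor <;> nlinarith

lemma gap {T r a b : ℝ} (h : |T| ≤ r) (a0 : 0 ≤ a) (b0 : 0 ≤ b) : T * (a - b) ≤ r * (a + b) := by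
  obtain ⟨h1, h2⟩ := abs_le.1 h
  nlinarith

end Rw

open Rw Row in
theorem rwb (hg : S_g) (hrb : S_rb) : S_rw := by
  intro U R hC
  have g0 := hg.1
  obtain ⟨n1, hn1⟩ := U.fin
  obtain ⟨n2, hn2⟩ := R.fin
  have hn : ∀ j : ℤ, ((n1 + n2 + 1 : ℕ) : ℤ) ≤ |j| → al U R j = 0 ∧ be U R j = 0 ∧ hr U R j = 0 ∧
      hl U R j = 0 ∧ U.w j = 0 ∧ R.w j = 0 ∧ U.y j = 0 ∧ R.y j = 0 ∧ U.T j = 0 ∧ R.T j = 0 := by
    intro j hj
    push_cast at hj
    rw [le_abs] at hj
    obtain ⟨a1, a2⟩ := hn1 j (by rw [le_abs]; omega)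
    obtain ⟨b1, b2⟩ := hn1 (j - 1) (by rw [le_abs]; omega)
    obtain ⟨c1, c2⟩ := hn1 (j + 1) (by rw [le_abs]; omega)
    obtain ⟨d1, d2⟩ := hn2 j (by rw [le_abs]; omega)
    obtain ⟨e1, e2⟩ := hn2 (j + 1) (by rw [le_abs]; omega)
    simp [al, be, hr, hl, y, T, a1, a2, b1, b2, c1, c2, d1, d2, e1, e2]
  generalize n1 + n2 + 1 = n at hn
  have u0 : ∀ j, 0 ≤ hr U R j - g (al U R j) := fun j => sub_nonneg.2 (hC j).1
  have v0 : ∀ j, 0 ≤ hl U R j - g (be U R j) := fun j => sub_nonneg.2 (hC j).2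
  refine ⟨tsum_nonneg fun j => add_nonneg (u0 j) (v0 j), fun hB => ?_⟩
  obtain ⟨⟨pR, pR0, -⟩, ⟨nR, nR0, -⟩, -, -, -, -, -, -, -, yR, -, fR, tR⟩ := hrb R
  obtain ⟨⟨pU, pU0, -⟩, ⟨nU, nU0, -⟩, -, -, -, -, -, -, -, yU, -, fU, tU⟩ := hrb U
  have su := (sm (n := n) (f := fun j => hr U R j - g (al U R j)) fun j hj => by
    simp [(hn j hj).1, (hn j hj).2.2.1, g0]).hasSum
  have sv := (sm (n := n) (f := fun j => hl U R j - g (be U R j)) fun j hj => by
    simp [(hn j hj).2.1, (hn j hj).2.2.2.1, g0]).hasSum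
  have eG : G U R = _ := (su.add sv).tsum_eq
  have zA : ∀ j : ℤ, (n : ℤ) ≤ |j| → g (al U R j) = 0 := fun j hj => by rw [(hn j hj).1, g0]
  have zB : ∀ j : ℤ, (n : ℤ) ≤ |j| → g (be U R j) = 0 := fun j hj => by rw [(hn j hj).2.1, g0]
  have mR : HasSum (fun j => max (R.y j) 0) R.S :=
    (sm (n := n) fun j hj => by simp [(hn j hj).2.2.2.2.2.2.2.1]).hasSum
  have mU : HasSum (fun j => max (U.y j) 0) U.S :=
    (sm (n := n) fun j hj => by simp [(hn j hj).2.2.2.2.2.2.1]).hasSum
  have mR' : HasSum (fun j => max (-R.y j) 0) R.S :=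
    yR ▸ (sm (n := n) fun j hj => by simp [(hn j hj).2.2.2.2.2.2.2.1]).hasSum
  have mU' : HasSum (fun j => max (-U.y j) 0) U.S :=
    yU ▸ (sm (n := n) fun j hj => by simp [(hn j hj).2.2.2.2.2.2.1]).hasSum
  have sub : ∀ a b : ℝ, max (a - b) 0 ≤ max a 0 + max (-b) 0 := fun a b =>
    max_le (by linarith [le_max_left a 0, le_max_left (-b) 0])
      (add_nonneg (le_max_right _ _) (le_max_right _ _))
  have kA := key hg (n := n) (α := al U R) (B := R.S + U.S) (fun j hj => (hn j hj).1)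
    (fun j => by
      have a := abs_le.1 (fR j)
      have b := abs_le.1 (fU j)
      unfold al
      linarith [a.2, b.1])
    (hasSum_le (fun j => by
      have := sub (R.y j) (U.y j)
      rwa [show R.y j - U.y j = al U R (j + 1) - al U R j by unfold al y; ring] at this)
      (smax (n := n) fun j hj => (hn j hj).1).hasSum (mR.add mU')) hB
  have mU1 : HasSum (fun j => max (U.y (j - 1)) 0) U.S :=
    (Equiv.subRight (1 : ℤ)).hasSum_iff.2 mU
  have kB := key hg (n := n) (α := be U R) (B := R.S + U.S) (fun j hj => (hn j hj).2.1)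
    (fun j => by
      have a := abs_le.1 (fR j)
      have b := abs_le.1 (fU (j - 1))
      unfold be
      linarith [a.1, b.2])
    (hasSum_le (fun j => by
      have := sub (U.y (j - 1)) (R.y j)
      rw [show U.y (j - 1) - R.y j = be U R (j + 1) - be U R j by
        unfold be y
        rw [sub_add_cancel, add_sub_cancel_right]
        ring] at this
      linarith)
      (smax (n := n) fun j hj => (hn j hj).2.1).hasSum (mR'.add mU1)) hB
  have xA := (smax zA).hasSum
  have xB := (smax zB).hasSum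
  have tA := tele zA
  have tB := tele zB
  constructor
  · have t1 := tele (n := n) (f := fun j => R.w j * g (be U R j)) fun j hj => by rw [zB j hj, mul_zero]
    have t2 := tele (n := n) (f := fun j => R.w j * g (al U R j)) fun j hj => by rw [zA j hj, mul_zero]
    have big := (((((((sh sv).add su).mul_left R.rho).add t1).sub t2).add
      ((xB.mul_left R.rho).sub (tB.mul_left R.P))).add ((xA.mul_left R.rho).sub (tA.mul_left R.nu)))
    have r0 : 0 ≤ R.rho := add_nonneg pR0 nR0
    refine (hasSum_le (fun j => ?_) (sm (n := n) (f := fun j => R.T j ^ 2) fun j hj => by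
      simp [(hn j hj).2.2.2.2.2.2.2.2.2]).hasSum big).trans ?_
    · have a := gap (tR j) (v0 (j + 1)) (u0 j)
      have b := (pt (d := g (be U R (j + 1)) - g (be U R j)) (pR j) (nR j)).2
      have c := (pt (d := g (al U R (j + 1)) - g (al U R j)) (pR (j + 1)) (nR (j + 1))).1
      have e : R.T j = hl U R (j + 1) - hr U R j := by
        unfold T hl hr
        rw [add_sub_cancel_right]
        ring
      have e2 : R.T j ^ 2 = R.T j * (hl U R (j + 1) - hr U R j) := by rw [← e, sq]
      have e3 : R.T j * (g (be U R (j + 1)) - g (al U R j)) =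
          (R.w (j + 1) - R.w j) * (g (be U R (j + 1)) - g (al U R j)) := rfl
      unfold rho at a ⊢
      linarith
    · rw [eG]
      nlinarith [mul_le_mul_of_nonneg_left kA r0, mul_le_mul_of_nonneg_left kB r0]
  · have t1 := tele (n := n) (f := fun j => U.w j * g (be U R j)) fun j hj => by rw [zB j hj, mul_zero]
    have t2 := tele (n := n) (f := fun j => U.w j * g (al U R j)) fun j hj => by rw [zA j hj, mul_zero]
    have big := (((((((sh sv).add (sh su)).mul_left U.rho).add t1).sub t2).add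
      ((xB.mul_left U.rho).sub (tB.mul_left U.P))).add ((xA.mul_left U.rho).sub (tA.mul_left U.nu)))
    have r0 : 0 ≤ U.rho := add_nonneg pU0 nU0
    refine (hasSum_le (fun j => ?_) (sm (n := n) (f := fun j => U.T j ^ 2) fun j hj => by
      simp [(hn j hj).2.2.2.2.2.2.2.2.1]).hasSum big).trans ?_
    · have a := gap (tU j) (v0 (j + 1)) (u0 (j + 1))
      have b := (pt (d := g (be U R (j + 1)) - g (be U R j)) (pU j) (nU j)).2
      have c := (pt (d := g (al U R (j + 1)) - g (al U R j)) (pU j) (nU j)).1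
      have e : U.T j = hl U R (j + 1) - hr U R (j + 1) := by
        unfold T hl hr
        rw [add_sub_cancel_right]
        ring
      have e2 : U.T j ^ 2 = U.T j * (hl U R (j + 1) - hr U R (j + 1)) := by rw [← e, sq]
      have e3 : U.T j * (g (be U R (j + 1)) - g (al U R (j + 1))) =
          (U.w (j + 1) - U.w j) * (g (be U R (j + 1)) - g (al U R (j + 1))) := rfl
      unfold rho at a ⊢
      linarith
    · rw [eG]
      nlinarith [mul_le_mul_of_nonneg_left kA r0, mul_le_mul_of_nonneg_left kB r0]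

end Pool.Agent.P.MP_dd077d_co
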