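import Pool.Agent.P.MP_dd077d_co.Iface3
import Pool.Agent.P.MP_dd077d_co.Tri

/-! The chain of a strip, the area of a strip, and chains without defect. -/

namespace Pool.Agent.P.MP_dd077d_co

namespace Sa

/-- a primitive of a finitely supported function -/
lemma prim (f : ℤ → ℝ) (n : ℕ) (h : ∀ i : ℤ, (n : ℤ) ≤ |i| → f i = 0) :
    ∃ F : ℤ → ℝ, (∀ i, F (i + 1) = F i + f i) ∧ (∀ i : ℤ, i ≤ -(n : ℤ) → F i = 0) ∧
      ∀ i : ℤ, (n : ℤ) < i → F i = ∑' i, f i := by
  have h0 : ∀ i ∉ Finset.Icc (-(n : ℤ)) n, f i = 0 := fun i hi => by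
    rw [Finset.mem_Icc] at hi
    exact h i (by rw [le_abs]; omega)
  refine ⟨fun i => ∑ j ∈ Finset.Icc (-(n : ℤ)) n, if j < i then f j else 0, fun i => ?_,
    fun i hi => ?_, fun i hi => ?_⟩
  · have e : f i = ∑ j ∈ Finset.Icc (-(n : ℤ)) n, if j = i then f j else 0 := by
      rw [Finset.sum_ite_eq']
      split_ifs with hi
      exacts [rfl, h0 i hi]
    rw [e, ← Finset.sum_add_distrib]
    refine Finset.sum_congr rfl fun j _ => ?_
    rcases lt_trichotomy j i with c | c | c
    · rw [if_pos c, if_pos (by omega), if_neg c.ne, add_zero]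
    · rw [if_pos c, if_pos (by omega), if_neg (by omega), zero_add]
    · rw [if_neg c.ne', if_neg (by omega), if_neg (by omega), add_zero]
  · exact Finset.sum_eq_zero fun j hj => if_neg (by rw [Finset.mem_Icc] at hj; omega)
  · rw [tsum_eq_sum h0]
    exact Finset.sum_congr rfl fun j hj => if_pos (by rw [Finset.mem_Icc] at hj; omega)

lemma const {G : ℤ → ℝ} (h : ∀ k, G (k + 1) = G k) (k : ℤ) : G k = G 0 := by
  induction k using Int.induction_on with
  | zero => rfl
  | succ k ih => rw [h, ih]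
  | pred k ih => rw [← h, sub_add_cancel, ih]

/-- potential of the edge from `p` to `q`, heights are measured from `b` -/
noncomputable def pot (b : ℝ) (p q : ℂ) (k : ℤ) : ℝ :=
  (q.re - p.re) * ((p.im - b) + (q.im - b)) / 2 + s3 * p.re - s3 * k

end Sa

open Sa in
theorem sa (hs : S_sb) : S_sa := by
  intro T a W st hW
  obtain ⟨h1, -, -, -, -, h6, -, ⟨n1, h8⟩, -⟩ := hs T a W st hW
  have hc : ∀ j, 4 ≤ nsq (st.c j - st.c (j + 1)) ∧ nsq (st.c j - st.c (j + 1)) < 16 := fun j => by
    obtain ⟨k, rfl, e⟩ := h6 j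
    rcases st.step k with ⟨e', -⟩ | ⟨-, t⟩
    · omega
    · have := data T _ _ _ t
      exact ⟨this.2.2.1, this.2.2.2.2.2.1⟩
  let C : Chain st.d :=
    { φ := fun j => (st.c j).re - (2 * (j : ℝ) + ((a : ℝ) - 1))
      w := fun j => s3 * ((a : ℝ) - 1) - (st.c j).im
      fin := ⟨st.M, fun i hi => by rw [(st.left i hi).2]; constructor <;> simp,
        fun i hi => by
          rw [(st.right i hi).2]
          constructor
          · simp only [site_re]; push_cast; ring
          · simp⟩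
      pos := fun i => by
        have a1 := st.mono i
        have a2 := (hc i).2
        rw [nsq_sub] at a2
        push_cast
        constructor
        · linarith
        · nlinarith [sq_nonneg ((st.c i).im - (st.c (i + 1)).im)]
      sep := fun i => by
        have a2 := (hc i).1
        rw [nsq_sub] at a2
        push_cast
        linarith }
  refine ⟨C, fun j => Complex.ext (by simp [C]) (by simp [C]), ?_⟩
  obtain ⟨n2, h2⟩ := W.U.fin
  obtain ⟨FD, d1, d2, d3⟩ := prim (fun k => cost (st.tri k)) n1 h8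
  obtain ⟨FU, u1, u2, u3⟩ := prim (fun i => (2 + W.U.y i) * ((W.U.w i + W.U.w (i + 1)) / 2))
    (n2 + 1) fun i hi => by
      rw [le_abs] at hi
      rw [(h2 i (by rw [le_abs]; omega)).2, (h2 (i + 1) (by rw [le_abs]; omega)).2]
      simp
  have hw : ∀ j : ℤ, (st.M : ℤ) ≤ |j| → C.w j = 0 := fun j hj => by
    rcases le_abs.1 hj with hj | hj
    · simp [C, (st.right j hj).2]
    · simp [C, (st.left j (by omega)).2]
  obtain ⟨FC, c1, c2, c3⟩ := prim (fun j => C.dx j * ((C.w j + C.w (j + 1)) / 2))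
    (st.M + 1) fun i hi => by
      rw [le_abs] at hi
      rw [hw i (by rw [le_abs]; omega), hw (i + 1) (by rw [le_abs]; omega)]
      simp
  have vre : ∀ i : ℤ, (W.v i).re = 2 * (i : ℝ) + a + W.U.φ i := fun _ => rfl
  have vim : ∀ i : ℤ, (W.v i).im = s3 * a - W.U.w i := fun _ => rfl
  have key : ∀ k, FD (k + 1) - pot (s3 * (a - 1)) (W.v (st.I (k + 1))) (st.c (k + 1 - st.I (k + 1)))
      (k + 1) + FU (st.I (k + 1)) - FC (k + 1 - st.I (k + 1)) =
      FD k - pot (s3 * (a - 1)) (W.v (st.I k)) (st.c (k - st.I k)) k + FU (st.I k) -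
        FC (k - st.I k) := fun k => by
    have t := T.cost_tri (h1 k)
    rw [d1, Strip.tri, t]
    rcases st.step k with ⟨e, -⟩ | ⟨e, -⟩
    · rw [Strip.nx, if_neg (by omega), e, u1, show k + 1 - (st.I k + 1) = k - st.I k by ring]
      simp only [pot, cross, vre, vim, Row.y]
      push_cast
      ring
    · rw [Strip.nx, if_pos e, e, show k + 1 - st.I k = k - st.I k + 1 by ring, c1]
      simp only [pot, cross, vre, vim, Chain.dx, C]
      push_cast
      ring
  have hG := const (G := fun k => FD k - pot (s3 * (a - 1)) (W.v (st.I k)) (st.c (k - st.I k)) k +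
    FU (st.I k) - FC (k - st.I k)) key
  obtain ⟨m, m1, m2, m3, m4, m5⟩ : ∃ m : ℤ, (n1 : ℤ) < m ∧ (n2 : ℤ) + 1 < m ∧ (st.M : ℤ) + 1 < m ∧
      st.d ≤ m ∧ -st.d ≤ m := ⟨n1 + n2 + st.M + 2 + st.d.natAbs, by omega⟩
  have l1 : st.I (-(2 * m)) = -m := by rw [(st.left _ (by omega)).1]; omega
  have r1 : st.I (4 * m - st.d) = 2 * m := by rw [(st.right _ (by omega)).1]; omega
  have gl := hG (-(2 * m))
  have gr := hG (4 * m - st.d)
  rw [← gl] at gr
  rw [l1, r1, show -(2 * m) - -m = -m by ring, show 4 * m - st.d - 2 * m = 2 * m - st.d by ring,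
    d2 (-(2 * m)) (by omega), d3 (4 * m - st.d) (by omega), u2 (-m) (by omega),
    u3 (2 * m) (by omega), c2 (-m) (by omega), c3 (2 * m - st.d) (by omega),
    (st.left (-m) (by omega)).2, (st.right (2 * m - st.d) (by omega)).2] at gr
  simp only [pot, vre, vim, site_re, site_im, (h2 (-m) (by rw [le_abs]; omega)).1,
    (h2 (-m) (by rw [le_abs]; omega)).2, (h2 (2 * m) (by rw [le_abs]; omega)).1,
    (h2 (2 * m) (by rw [le_abs]; omega)).2] at gr
  push_cast at gr
  unfold Strip.D Chain.A Row.A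
  linarith

theorem rowT (hp : S_pair) (hrb : S_rb) (hm : S_met) (hs : S_sb) (ha : S_at) : S_row := by
  intro T a W st C hW hC hD hd
  obtain ⟨hm1, hm2⟩ := hm T a W
  let R : Row := ⟨C.φ, C.w, by
    obtain ⟨n, h1, h2⟩ := C.fin
    refine ⟨n, fun i hi => ?_⟩
    rcases le_abs.1 hi with hi | hi
    · simpa [hd] using h2 i hi
    · exact h1 i (by omega)⟩
  have cre : ∀ j : ℤ, (st.c j).re = 2 * (j : ℝ) + ((a : ℝ) - 1) + R.φ j := fun j => by rw [hC j]
  have cim : ∀ j : ℤ, (st.c j).im = s3 * ((a : ℝ) - 1) - R.w j := fun j => by rw [hC j]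
  have vre : ∀ i : ℤ, (W.v i).re = 2 * (i : ℝ) + a + W.U.φ i := fun _ => rfl
  have vim : ∀ i : ℤ, (W.v i).im = s3 * a - W.U.w i := fun _ => rfl
  have dep : ∀ j, W.dep (st.c j) = R.w j := fun j => by rw [Wall.dep, cim]; ring
  refine ⟨R, rfl, rfl, fun j => Complex.ext (by simp [cre, pt]) (by simp [cim, pt]),
    fun i => ⟨(C.pos i).1, C.sep i⟩, fun j => ?_, ?_, ?_, ?_, fun hA hB j => ?_⟩
  · have := (hm1 _ (st.cmem j).1 (st.cmem j).2).2.2.2 j
    rw [dep, cre, add_sub_cancel_left] at this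
    exact this
  · refine Real.tsum_le_of_sum_le (fun i => le_max_right _ _) fun u => ?_
    have inj : Function.Injective st.c := fun i j e =>
      (strictMono_int_of_lt_succ (f := fun j => (st.c j).re) st.mono).injective (congrArg _ e)
    have := hm2 (u.image st.c) fun z hz => by
      obtain ⟨j, -, rfl⟩ := Finset.mem_image.1 hz
      exact st.cmem j
    rw [Finset.sum_image fun i _ j _ e => inj e] at this
    simpa only [dep] using this
  · rcases (hrb R).2.1.2.2 with e | ⟨i, e⟩
    · rw [e]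
      exact (hrb W.U).2.2.1.2.1
    · have := (hm1 _ (st.cmem i).1 (st.cmem i).2).2.1
      rw [dep] at this
      linarith
  · have e : R.A = C.A := rfl
    have e' : (st.d : ℝ) = 0 := by exact_mod_cast hd
    rw [e, hD, e']
    ring
  · obtain ⟨b1, -, b3⟩ := ha T a W st hW hB
    have t := (hs T a W st hW).1
    have i1 : st.I (2 * j) = j := by rw [hA.2]; omega
    have i2 : st.I (2 * j - 1) = j - 1 := by rw [hA.2]; omega
    have i3 : st.I (2 * j + 1) = j := by rw [hA.2]; omega
    have i4 : st.I (2 * j - 1 + 1) = j := by rw [hA.2]; omega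
    have j1 : 2 * j - j = j := by ring
    have j2 : 2 * j - 1 - (j - 1) = j := by ring
    have e1 := b1 (2 * j)
    have e2 := b1 (2 * j - 1)
    have e3 := b3 hd j
    have e4 := T.ccw (t (2 * j))
    have e5 := T.ccw (t (2 * j - 1))
    rw [i1, j1] at e1
    rw [i2, j2] at e2
    rw [Strip.nx, i1, i3, if_pos rfl, j1] at e4
    rw [Strip.nx, i2, i4, if_neg (by omega), j2, sub_add_cancel] at e5
    simp only [nsq_sub, cross, cre, cim, vre, vim] at e1 e2 e3 e4 e5
    push_cast at e1 e2 e3 e4 e5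
    simp only [Row.cU, Row.cD, Row.al, Row.be, Row.hr, Row.hl, Row.y, Row.T, add_sub_cancel_right]
    refine ⟨?_, ?_, ?_, ?_, ?_⟩ <;> linarith

end Pool.Agent.P.MP_dd077d_co
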