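import Pool.Agent.P.MP_dd077d_co.Iface3
import Pool.Agent.P.MP_dd077d_co.Tri

/-!
The triangles of the strip below a wall.
-/

namespace Pool.Agent.P.MP_dd077d_co

namespace Sb

open Classical

variable {T : DT0} {a : ℤ} {W : Wall T a} (st : Strip W)

theorem nxA {k : ℤ} (h : st.I (k + 1) = st.I k + 1) : st.nx k = W.v (st.I k + 1) :=
  if_neg (by omega)

theorem nxB {k : ℤ} (h : st.I (k + 1) = st.I k) : st.nx k = st.c (k - st.I k + 1) := if_pos h

theorem one (k : ℤ) : T.Tri (W.v (st.I k)) (st.c (k - st.I k)) (st.nx k) := by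
  rcases st.step k with ⟨h, t⟩ | ⟨h, t⟩
  · rw [nxA st h]; exact T.rot t
  · rw [nxB st h]; exact t

theorem two (k : ℤ) : ∃ x, T.Tri (st.c (k - st.I k)) (W.v (st.I k)) x ∧
    st.tri (k - 1) = {st.c (k - st.I k), W.v (st.I k), x} := by
  obtain ⟨k, rfl⟩ : ∃ k', k = k' + 1 := ⟨k - 1, by ring⟩
  rw [add_sub_cancel_right, Strip.tri]
  rcases st.step k with ⟨h, t⟩ | ⟨h, t⟩
  · rw [nxA st h, h, show k + 1 - (st.I k + 1) = k - st.I k by ring]
    refine ⟨_, T.rot (T.rot t), ?_⟩
    ext x; simp only [Finset.mem_insert, Finset.mem_singleton]; tauto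
  · rw [nxB st h, h, show k + 1 - st.I k = k - st.I k + 1 by ring]
    refine ⟨_, T.rot (T.rot t), ?_⟩
    ext x; simp only [Finset.mem_insert, Finset.mem_singleton]; tauto

theorem c_inj : Function.Injective st.c := fun _ _ h =>
  (strictMono_int_of_lt_succ (f := fun j => (st.c j).re) st.mono).injective (congrArg Complex.re h)

theorem ivt {f : ℤ → ℤ} (hf : ∀ k, f (k + 1) = f k + 1 ∨ f (k + 1) = f k) {j k0 k1 : ℤ}
    (h : k0 ≤ k1) (h0 : f k0 ≤ j) (h1 : j < f k1) : ∃ k, f k = j ∧ f (k + 1) = j + 1 := by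
  by_contra hc
  have key : ∀ k, k0 ≤ k → f k ≤ j := fun k hk => by
    induction k, hk using Int.leInduction with
    | base => exact h0
    | succ k _ ih =>
      by_contra h2
      exact hc ⟨k, by rcases hf k with e | e <;> omega⟩
  exact absurd (key k1 h) (not_le.2 h1)

theorem ends (j : ℤ) : ∃ k0 k1 : ℤ, k0 ≤ k1 ∧ st.I k0 ≤ j ∧ k0 - st.I k0 ≤ j ∧
    j < st.I k1 ∧ j < k1 - st.I k1 := by
  have h1 := (st.left (-(2 * (st.M + j.natAbs))) (by omega)).1
  have h2 := (st.right (2 * (st.M + j.natAbs + st.d.natAbs + 1)) (by omega)).1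
  exact ⟨-(2 * (st.M + j.natAbs)), 2 * (st.M + j.natAbs + st.d.natAbs + 1), by omega, by omega,
    by omega, by omega, by omega⟩

theorem six (j : ℤ) : ∃ k, k - st.I k = j ∧ st.I (k + 1) = st.I k := by
  obtain ⟨k0, k1, h, -, h0, -, h1⟩ := ends st j
  obtain ⟨k, e1, e2⟩ := ivt (f := fun k => k - st.I k)
    (fun k => by rcases st.step k with ⟨e, -⟩ | ⟨e, -⟩ <;> omega) h h0 h1
  exact ⟨k, e1, by omega⟩

theorem seven (i : ℤ) : ∃ k, st.I k = i ∧ st.I (k + 1) = i + 1 := by
  obtain ⟨k0, k1, h, h0, -, h1, -⟩ := ends st i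
  exact ivt (fun k => (st.step k).imp And.left And.left) h h0 h1

theorem flat {k e : ℤ} (h1 : st.I k = (k + e) / 2) (h2 : st.I (k + 1) = (k + 1 + e) / 2)
    (h3 : st.c (k - st.I k) = site (a - 1) (k - st.I k + e))
    (h4 : st.c (k - st.I k + 1) = site (a - 1) (k - st.I k + 1 + e))
    (h5 : W.v (st.I k) = site a (st.I k)) (h6 : W.v (st.I k + 1) = site a (st.I k + 1)) :
    cost (st.tri k) = 0 := by
  rw [Strip.tri, T.cost_tri (one st k)]
  rcases (by omega : (k + e) % 2 = 0 ∨ (k + e) % 2 = 1) with c | c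
  · rw [nxB st (by omega), h4, h3, h5, show k - st.I k + e = st.I k by omega,
      show k - st.I k + 1 + e = st.I k + 1 by omega]
    simp only [cross, site_re, site_im]
    push_cast
    ring
  · rw [nxA st (by omega), h6, h3, h5, show k - st.I k + e = st.I k + 1 by omega]
    simp only [cross, site_re, site_im]
    push_cast
    ring

theorem eight : ∃ n : ℕ, ∀ k : ℤ, (n : ℤ) ≤ |k| → cost (st.tri k) = 0 := by
  obtain ⟨n, hn⟩ := W.far
  have hv : ∀ i : ℤ, (n : ℤ) ≤ i ∨ i ≤ -n → W.v i = site a i := fun i hi => by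
    obtain ⟨e1, e2⟩ := hn a i le_rfl (Or.inr (by rw [le_abs]; omega))
    apply Complex.ext <;> simp [Wall.v, pt, e1, e2]
  refine ⟨2 * (n + st.M + st.d.natAbs + 2), fun k hk => ?_⟩
  rw [le_abs] at hk
  rcases hk with hk | hk
  · have h1 := (st.right k (by omega)).1
    exact flat st h1 (st.right (k + 1) (by omega)).1 (st.right _ (by omega)).2
      (st.right _ (by omega)).2 (hv _ (by omega)) (hv _ (by omega))
  · have h1 := (st.left k (by omega)).1
    refine flat st (e := 0) ?_ ?_ ?_ ?_ (hv _ (by omega)) (hv _ (by omega)) <;> rw [add_zero]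
    exacts [h1, (st.left (k + 1) (by omega)).1, (st.left _ (by omega)).2,
      (st.left _ (by omega)).2]

theorem rotate {s : Finset ℂ} (h : T.IsT s) {p : ℂ} (hp : p ∈ s) :
    ∃ y t, T.Tri p y t ∧ s = {p, y, t} := by
  obtain ⟨x, y, z, t, rfl⟩ := h
  simp only [Finset.mem_insert, Finset.mem_singleton] at hp
  rcases hp with rfl | rfl | rfl
  · exact ⟨_, _, t, rfl⟩
  · refine ⟨_, _, T.rot t, ?_⟩
    ext w; simp only [Finset.mem_insert, Finset.mem_singleton]; tauto
  · refine ⟨_, _, T.rot (T.rot t), ?_⟩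
    ext w; simp only [Finset.mem_insert, Finset.mem_singleton]; tauto

theorem of_out {i : ℤ} {y t : ℂ} (h : T.Tri (W.v i) y t) (hy : y ∉ W.L) :
    ∃ k, ({W.v i, y, t} : Finset ℂ) = st.tri k := by
  obtain ⟨k, rfl, rfl⟩ := st.complete i y t h hy
  exact ⟨k, by rw [T.uniq h (one st k), Strip.tri]⟩

theorem cost0 (k : ℤ) : 0 ≤ cost (st.tri k) := (side T _ _ _ (one st k)).1

end Sb

open Sb Classical in
theorem sb (hw : S_wb) : S_sb := by
  intro T a W st hN
  obtain ⟨-, hinj, hv, hsub, hL, -, -⟩ := hw T a W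
  have vinj : ∀ {i k}, W.v i = W.v k ↔ i = k :=
    ⟨fun h => (hinj a _ a _ le_rfl le_rfl h).2, fun h => h ▸ rfl⟩
  have vc : ∀ i j, W.v i ≠ st.c j := fun i j h => (st.cmem j).2 (h ▸ (hv i).1)
  have h3 : ∀ k, W.stripT (st.tri k) := fun k => by
    refine ⟨⟨_, _, _, one st k, rfl⟩, ⟨_, Finset.mem_insert_self _ _⟩, fun x hx => ?_⟩
    simp only [Strip.tri, Finset.mem_insert, Finset.mem_singleton] at hx
    rcases hx with rfl | rfl | rfl
    · exact (hv _).2.1
    · exact fun h => (st.cmem _).2 (hsub h)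
    · unfold Strip.nx
      split_ifs
      · exact fun h => (st.cmem _).2 (hsub h)
      · exact (hv _).2.1
  have h4 : ∀ s, W.stripT s → ∃ k, s = st.tri k := by
    rintro s ⟨hs, ⟨i, hi⟩, hn⟩
    obtain ⟨y, t, h, rfl⟩ := rotate hs hi
    by_cases hy : y ∈ W.L
    · obtain ⟨i1, rfl⟩ := (hL y hy).resolve_left (hn y (by simp))
      by_cases ht : t ∈ W.L
      · obtain ⟨i2, rfl⟩ := (hL t ht).resolve_left (hn t (by simp))
        have e1 := hN _ _ _ h (hv _).2.1
        have e2 := hN _ _ _ (T.rot h) (hv _).2.1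
        have e3 := hN _ _ _ (T.rot (T.rot h)) (hv _).2.1
        omega
      · obtain ⟨k, hk⟩ := of_out st (T.rot h) ht
        refine ⟨k, Eq.trans ?_ hk⟩
        ext w; simp only [Finset.mem_insert, Finset.mem_singleton]; tauto
    · exact of_out st h hy
  have mv : ∀ i k, W.v i ∈ st.tri k → i = st.I k ∨ i = st.I k + 1 := fun i k h => by
    simp only [Strip.tri, Strip.nx, Finset.mem_insert, Finset.mem_singleton] at h
    split_ifs at h <;> simp only [vinj, vc, false_or, or_false] at h <;> omega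
  have mc : ∀ j k, st.c j ∈ st.tri k → j = k - st.I k ∨ j = k - st.I k + 1 := fun j k h => by
    simp only [Strip.tri, Strip.nx, Finset.mem_insert, Finset.mem_singleton] at h
    split_ifs at h <;>
      simp only [(c_inj st).eq_iff, (vc _ _).symm, false_or, or_false] at h <;> omega
  have h5 : Function.Injective st.tri := fun k k' e => by
    have a1 := mv (st.I k) k' (e ▸ Finset.mem_insert_self _ _)
    have a2 := mv (st.I k') k (e ▸ Finset.mem_insert_self _ _)
    have a3 := mc (k - st.I k) k' (e ▸ Finset.mem_insert_of_mem (Finset.mem_insert_self _ _))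
    have a4 := mc (k' - st.I k') k (e ▸ Finset.mem_insert_of_mem (Finset.mem_insert_self _ _))
    omega
  obtain ⟨n, hn⟩ := eight st
  have hz : ∀ k ∉ Finset.Icc (-(n : ℤ)) n, cost (st.tri k) = 0 := fun k hk =>
    hn k (by rw [Finset.mem_Icc] at hk; rw [le_abs]; omega)
  have him : ∀ K : Finset ℤ, ∑ s ∈ K.image st.tri, cost s = ∑ k ∈ K, cost (st.tri k) := fun K =>
    Finset.sum_image fun _ _ _ _ e => h5 e
  have hst : ∀ K : Finset ℤ, ∀ s ∈ K.image st.tri, W.stripT s := fun K s hs => by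
    obtain ⟨k, -, rfl⟩ := Finset.mem_image.1 hs
    exact h3 k
  refine ⟨one st, two st, h3, h4, h5, six st, seven st, ⟨n, hn⟩,
    ⟨_, hst (Finset.Icc (-(n : ℤ)) n), by rw [him, Strip.D, tsum_eq_sum hz]⟩, fun G hG => ?_,
    tsum_nonneg (cost0 st), fun β hβ K => him K ▸ hβ _ (hst K)⟩
  have hG' : G = (G.preimage st.tri h5.injOn).image st.tri := by
    ext s
    simp only [Finset.mem_image, Finset.mem_preimage]
    refine ⟨fun hs => ?_, fun ⟨k, hk, e⟩ => e ▸ hk⟩
    obtain ⟨k, rfl⟩ := h4 s (hG s hs)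
    exact ⟨k, hs, rfl⟩
  rw [hG', him]
  exact (summable_of_ne_finset_zero hz).sum_le_tsum _ fun k _ => cost0 st k

end Pool.Agent.P.MP_dd077d_co
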