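import Pool.Agent.P.MP_dd077d_co.ScDefs

/-! The box and the rules that translate the fields of the scalar system. -/

set_option linter.dupNamespace false

namespace Pool.Agent.P.MP_dd077d_co

namespace ScA

open Icp

lemma sq2 (t : ℝ) : Real.sqrt (4 - t ^ 2) ≤ 2 :=
  Real.sqrt_le_iff.2 ⟨by norm_num, by nlinarith [sq_nonneg t]⟩

lemma bnd (s : Sc) : s.E1 ≤ 0.4 ∧ s.h1 ≤ 0.205 ∧ s.r1 ≤ 1.18 ∧ s.S1 ≤ 0.76 := by
  obtain ⟨a0, d0, -⟩ := s.nn1
  have u := s3_ub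
  have t := s.top
  have a1 : s.a ≤ 1.73206 := by linarith
  have a2 : s.a ^ 2 ≤ 3 := by
    rw [← s3_sq]
    exact pow_le_pow_left₀ a0 (by linarith) 2
  have a3 : s.a ^ 3 ≤ 5.2 := by nlinarith
  have a4 : s.a ^ 4 ≤ 9 := by nlinarith [sq_nonneg s.a]
  have a8 : s.a ^ 8 ≤ 81 := by nlinarith [pow_nonneg a0 4]
  have a16 : s.a ^ 16 ≤ 6561 := by nlinarith [pow_nonneg a0 8]
  obtain ⟨i1, i2, i3, i4, -⟩ := s.inv
  unfold eF at i1
  unfold hF at i2
  unfold rF at i3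
  unfold sF at i4
  exact ⟨by linarith, by linarith, by linarith, by linarith⟩

lemma crL (s : Sc) : 0.747 ≤ s.cr := by
  have h := (bnd s).2.1
  have a := s.lnk.2.1
  have b := s.pb
  have c := s.nn2.1
  have d := s.nn1.2.2.2.2.2.2.2.2.2
  exact Real.le_sqrt_of_sq_le (by nlinarith)

lemma loop (s : Sc) : s.Ss ≤ 8 ∧ s.Y ≤ 6 := by
  obtain ⟨b1, b2, -, -⟩ := bnd s
  obtain ⟨l1, l2, -, -⟩ := s.lnk
  obtain ⟨-, -, -, -, -, -, -, -, n0, nu0⟩ := s.nn1
  obtain ⟨p0, y0, s0, ss0, -⟩ := s.nn2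
  have c := crL s
  have u := s3_ub
  have t := s.top
  have pb := s.pb
  have o := s.ord.2.2.2.2
  have h1 : s.Y * s.cr ≤ _ := s.r3a
  have h2 : (2 + s.cr) * s.Ss ≤ _ := s.r4a
  have h3 : restF s.P s.Y s.N s.nu ≤ 2.81 := by
    unfold restF
    have k1 : min (2 * s.P) s.Y * (2 * s.N) ≤ 3.3 * 0.8 :=
      mul_le_mul ((min_le_left _ _).trans (by linarith)) (by linarith) (by linarith) (by norm_num)
    have k2 : s.nu * s.N ≤ 0.205 * 0.4 := mul_le_mul (by linarith) (by linarith) n0 (by norm_num)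
    linarith [min_le_left (min (2 * s.P) s.Y * (2 * s.N)) (4 * (s.nu * s.Y))]
  have k3 : s.Y * 0.747 ≤ s.Y * s.cr := mul_le_mul_of_nonneg_left c y0
  have k4 : s.nu * s.S ≤ 0.205 * s.S := mul_le_mul_of_nonneg_right (by linarith) s0
  have k5 : 0.747 * s.Ss ≤ s.cr * s.Ss := mul_le_mul_of_nonneg_right c ss0
  have k6 : s.P * s.Y ≤ 1.65 * s.Y := mul_le_mul_of_nonneg_right (by linarith) y0
  constructor <;> linarith

lemma GU0 (s : Sc) : 0 ≤ s.GU := by
  have a := add_nonneg s.nn2.2.2.1 s.nn1.2.2.2.2.2.2.2.1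
  have h : Rm (s.S + s.S1) ≤ s3 := Real.sqrt_le_sqrt (by nlinarith)
  rw [Sc.GU]
  linarith [s.nn2.2.2.2.2.1]

lemma inv_eq {t : ℝ} (h : 1 / 1024 ≤ t) : max (1 / max t (1 / 1024)) 0 = 1 / t := by
  rw [max_eq_left h, max_eq_left (one_div_nonneg.2 (by linarith))]

lemma groove {f c : ℝ} (f0 : 0 ≤ f) (f1 : f ≤ 1) (h : g f ≤ c) (c0 : 0 ≤ c) :
    f ≤ max (max c 0 * max (Real.sqrt (4 - (1 - f) ^ 2) + s3) 0) 0 *
      max (1 / max (2 - f) (1 / 1024)) 0 := by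
  have h1 : Rp f ^ 2 = 4 - (1 - f) ^ 2 := Real.sq_sqrt (by nlinarith)
  have h2 : 0 ≤ Rp f + s3 := add_nonneg (Real.sqrt_nonneg _) s3_pos.le
  change f ≤ max (max c 0 * max (Rp f + s3) 0) 0 * _
  rw [inv_eq (by linarith), max_eq_left c0, max_eq_left h2, max_eq_left (mul_nonneg c0 h2),
    mul_one_div, le_div_iff₀ (by linarith)]
  have h3 := mul_le_mul_of_nonneg_right h h2
  unfold g at h3
  nlinarith [s3_sq]

lemma rest {P Y N nu : ℝ} (p0 : 0 ≤ P) (y0 : 0 ≤ Y) (n0 : 0 ≤ N) (u0 : 0 ≤ nu) :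
    min (max (min (max 2 0 * max P 0) Y) 0 * max (max 2 0 * max N 0) 0)
      (max 4 0 * max (max nu 0 * max Y 0) 0) + max 2 0 * max (max nu 0 * max N 0) 0 =
      restF P Y N nu := by
  unfold restF
  simp (disch := positivity) only [max_eq_left]

lemma qq {p m : ℝ} (h0 : 0 ≤ m) (p0 : 0 ≤ p) :
    max (min p m) 0 * max (min p m) 0 +
      max (min (min p m) (m - min p m)) 0 * max (m - min p m) 0 = qF (min p m) m := by
  have a : 0 ≤ min p m := le_min p0 h0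
  have b : 0 ≤ m - min p m := sub_nonneg.2 (min_le_right _ _)
  rw [max_eq_left a, max_eq_left b, max_eq_left (le_min a b), qF, sq]

lemma q0 {p m : ℝ} (h0 : 0 ≤ m) (p0 : 0 ≤ p) : 0 ≤ qF (min p m) m := by
  rw [← qq h0 p0]
  positivity

lemma rest0 {P Y N nu : ℝ} (p0 : 0 ≤ P) (y0 : 0 ≤ Y) (n0 : 0 ≤ N) (u0 : 0 ≤ nu) :
    0 ≤ restF P Y N nu := by
  rw [← rest p0 y0 n0 u0]
  positivity

lemma fin {c S X : ℝ} (c0 : 0 ≤ c) (h : (2 + c) * S ≤ X) :
    S ≤ max X 0 * max (1 / max (2 + c) (1 / 1024)) 0 := by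
  rw [inv_eq (by linarith), mul_one_div, le_div_iff₀ (by linarith)]
  linarith [le_max_left X 0]

end ScA

open ScA Icp in
theorem scBox : S_scBox := by
  intro s
  obtain ⟨b1, b2, b3, b4⟩ := bnd s
  obtain ⟨l1, l2⟩ := loop s
  obtain ⟨k1, k2, -, -⟩ := s.lnk
  obtain ⟨o1, -, o3, o4, o5⟩ := s.ord
  have g0 := GU0 s
  obtain ⟨a0, d0, z0, e0, h0, r0, -, t0, n0, nu0⟩ := s.nn1
  obtain ⟨p0, y0, s0, ss0, -, f0, zs0, -⟩ := s.nn2
  have u := s3_ub
  have t := s.top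
  have pb := s.pb
  have c0 : 0 ≤ s.cr := Real.sqrt_nonneg _
  have c1 : s.cr ≤ 2 := sq2 _
  have c2 : 0 ≤ s.c1 := Real.sqrt_nonneg _
  have c3 : s.c1 ≤ 2 := sq2 _
  have m1 : ∀ t : ℝ, 0 ≤ max 0 (min t 100) ∧ max 0 (min t 100) ≤ 102400 / 1024 := fun t =>
    ⟨le_max_left _ _, max_le (by norm_num) ((min_le_right _ _).trans (by norm_num))⟩
  have m2 : ∀ t : ℝ, 0 ≤ t → 0 ≤ min (t / s.D) 100 ∧ min (t / s.D) 100 ≤ 102400 / 1024 :=
    fun t ht => ⟨le_min (div_nonneg ht d0) (by norm_num), (min_le_right _ _).trans (by norm_num)⟩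
  simp only [St.bx, inB, Nat.reduceAdd, Sc.x2, Sc.x3, Sc.x4, Sc.x5, Sc.x6, Sc.x7, Sc.x8, Sc.x9,
    Sc.x10, Sc.x11, Sc.x12, Sc.x13, Sc.x14, Sc.x15, Sc.x16, Sc.x17, Sc.x18, Sc.x19, Sc.x20, Sc.x21,
    Sc.x22, Sc.x23, Sc.x24, Sc.x25, Int.cast_zero, Int.cast_ofNat, zero_div, and_true]
  refine ⟨⟨z0, by linarith⟩, ⟨e0, by linarith⟩, ⟨h0, by linarith⟩, ⟨r0, by linarith⟩,
    ⟨t0, by linarith⟩, ⟨n0, by linarith⟩, ⟨nu0, by linarith⟩, ⟨p0, by linarith⟩,
    ⟨y0, by linarith⟩, ⟨s0, by linarith⟩, ⟨ss0, by linarith⟩, ⟨by linarith, by linarith⟩,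
    ⟨f0, by linarith⟩, ⟨zs0, by linarith⟩, ⟨by linarith, by linarith⟩, ⟨c0, by linarith⟩,
    ⟨c2, by linarith⟩, m1 _, m1 _, ⟨by linarith, by linarith⟩, m2 _ (by linarith), m2 _ ss0,
    m2 _ t0, m2 _ g0⟩

open ScA Icp in
theorem scA : S_scA := by
  intro s
  obtain ⟨i1, i2, i3, i4, i5⟩ := s.inv
  obtain ⟨k1, k2, k3, -⟩ := s.lnk
  obtain ⟨o1, o2, o3, o4, o5⟩ := s.ord
  obtain ⟨a0, d0, z0, e0, h0, r0, -, t0, n0, nu0⟩ := s.nn1
  obtain ⟨p0, y0, s0, ss0, -, f0, zs0, -⟩ := s.nn2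
  have t := s.top
  have c := crL s
  have c0 : 0 ≤ s.cr := Real.sqrt_nonneg _
  refine ⟨holds_ub fun lo hi hl hh hg => ?_, holds_eq fun lo hi hl hh hg => ?_,
    holds_ub fun lo hi hl hh hg => ?_, holds_eq fun lo hi hl hh hg => ?_,
    holds_eq fun lo hi hl hh hg => ?_, holds_ub fun lo hi hl hh hg => ?_,
    holds_ub fun lo hi hl hh hg => ?_, holds_ub fun lo hi hl hh hg => ?_,
    holds_ub fun lo hi hl hh hg => ?_, holds_lb fun lo hi hl hh hg => ?_,
    holds_ub fun lo hi hl hh hg => ?_, holds_ub fun lo hi hl hh hg => ?_,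
    holds_ub fun lo hi hl hh hg => ?_, holds_ub fun lo hi hl hh hg => ?_,
    holds_ub fun lo hi hl hh hg => ?_, holds_lb fun lo hi hl hh hg => ?_,
    holds_ub fun lo hi hl hh hg => ?_, holds_ub fun lo hi hl hh hg => ?_,
    holds_ub fun lo hi hl hh hg => ?_, holds_ub fun lo hi hl hh hg => ?_,
    holds_ub fun lo hi hl hh hg => ?_, holds_ub fun lo hi hl hh hg => ?_,
    holds_ub fun lo hi hl hh hg => ?_, holds_ub fun lo hi hl hh hg => ?_,
    holds_ub fun lo hi hl hh hg => ?_, holds_ub fun lo hi hl hh hg => ?_,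
    holds_ub fun lo hi hl hh hg => ?_, fun hL => holds_ub fun lo hi hl hh hg => ?_,
    fun hS => ⟨holds_ub fun lo hi hl hh hg => ?_, holds_ub fun lo hi hl hh hg => ?_⟩⟩
  all_goals
    have l2 : lo 2 ≤ s.z := hl 2
    have u2 : s.z ≤ hi 2 := hh 2
    have u9 : s.P ≤ hi 9 := hh 9
    have u10 : s.Y ≤ hi 10 := hh 10
    have u14 : s.f ≤ hi 14 := hh 14
    simp only [List.forall_mem_cons, E.ev, Sc.x0, Sc.x1, Sc.x2, Sc.x3, Sc.x4, Sc.x5, Sc.x6, Sc.x7,
      Sc.x8, Sc.x9, Sc.x10, Sc.x11, Sc.x12, Sc.x13, Sc.x14, Sc.x15, Sc.x16, Sc.x17, Sc.x18, Sc.x21,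
      Nat.cast_ofNat, Nat.cast_one, div_one] at hg ⊢
  · change _ ≤ s3 - _
    linarith
  · exact t
  · ring
  · ring
  · simp (disch := positivity) only [max_eq_left]
    exact i1.trans_eq (by unfold eF; ring)
  · simp (disch := positivity) only [max_eq_left]
    exact i2.trans_eq (by unfold hF; ring)
  · simp (disch := positivity) only [max_eq_left]
    exact i3.trans_eq (by unfold rF; ring)
  · simp (disch := positivity) only [max_eq_left]
    exact i4.trans_eq (by unfold sF; ring)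
  · exact le_rfl
  · exact k1
  · exact le_min k2 k3
  · linarith
  · linarith
  · exact le_rfl
  · exact le_rfl
  · rw [inv_eq (by linarith)]
    simp (disch := positivity) only [max_eq_left]
    have h1 : s.Y * s.cr ≤ _ := s.r3a
    have h2 := s.r3b
    refine le_min ?_ (by linarith)
    rw [mul_one_div, le_div_iff₀ (by linarith)]
    exact h1
  · exact o1
  · exact le_min o3 (groove f0 (by linarith [hg.1]) (s.fz (by linarith [hg.1])).1 (by linarith))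
  · exact o2
  · exact (s.pM (by linarith [hg.1])).trans (max_le_max (by linarith) le_rfl)
  · rw [rest p0 y0 n0 nu0]
    refine fin c0 (le_trans s.r4a (le_of_eq ?_))
    simp (disch := positivity) only [max_eq_left]
  · have hR : Rm (hi 14) ≤ s3 := Real.sqrt_le_sqrt (by nlinarith)
    have e1 := qq (p := hi 9) (m := hi 10 - lo 2) (by linarith) (by linarith)
    have e2 := qq (p := s3 - Rm (hi 14)) (m := hi 2) (by linarith) (by linarith)
    have n1 := q0 (p := hi 9) (m := hi 10 - lo 2) (by linarith) (by linarith)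
    have n2 := q0 (p := s3 - Rm (hi 14)) (m := hi 2) (by linarith) (by linarith)
    rw [rest p0 y0 n0 nu0, e1]
    refine fin c0 (le_trans (s.r4b (by linarith [hg.1]) (hi 9) (hi 10 - lo 2) (hi 14) (hi 2) u9
      (by linarith) u14 (by linarith [hg.2.1]) u2) (le_of_eq ?_))
    rw [← max_eq_left (add_nonneg n1 n2), ← e2, max_eq_left (a := 2) zero_le_two]
    rfl
  · exact o5
  · exact le_rfl
  · exact o3
  · exact le_min o4 (groove zs0 (by linarith [hg.1]) (s.fz (by linarith [hg.1])).2 nu0)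
  · exact hL.2
  · simp (disch := positivity) only [max_eq_left]
    refine hS.2.1.trans (add_le_add (sub_le_sub_right (min_le_min le_rfl ?_) _) (le_of_eq ?_))
    · unfold tF at i5
      nlinarith
    · congr 1
      ring
  · have e : max (s.P + s.nu) 0 * max (s.P + s.nu) 0 = (s.P + s.nu) ^ 2 := by
      rw [max_eq_left (add_nonneg p0 nu0), sq]
    rw [e] at hg ⊢
    have := hS.2.2.2 (by linarith [hg.1])
    generalize max ((2 + s.Ss) ^ 2) (4 + (s.P + s.nu) ^ 2) = w at this ⊢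
    simp (disch := positivity) only [max_eq_left]
    linarith

end Pool.Agent.P.MP_dd077d_co
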