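import Pool.Agent.P.MP_dd077d_co.ScDefs

/-!
The rules about the scaled variables.
-/

set_option linter.dupNamespace false

namespace Pool.Agent.P.MP_dd077d_co

namespace ScB

open Icp

lemma s3_ge : 1 ≤ s3 := Real.one_le_sqrt.2 (by norm_num)

lemma Rm_nonneg (x : ℝ) : 0 ≤ Rm x := Real.sqrt_nonneg _

lemma Rm_anti {x y : ℝ} (h0 : 0 ≤ x) (h : x ≤ y) : Rm y ≤ Rm x :=
  Real.sqrt_le_sqrt (by nlinarith)

lemma Rm_zero : Rm 0 = s3 := by
  rw [Rm, s3]
  norm_num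

lemma Rm_ge {x : ℝ} (h0 : 0 ≤ x) (h : x ≤ 9 / 10) : 1 / 2 ≤ Rm x :=
  Real.le_sqrt_of_sq_le (by nlinarith)

lemma Rm_id {x : ℝ} (h0 : 0 ≤ x) (h : x ≤ 1) : s3 - Rm x = x * ((2 + x) * (1 / (Rm x + s3))) := by
  have h1 : Rm x ^ 2 = 4 - (1 + x) ^ 2 := Real.sq_sqrt (by nlinarith)
  have h2 : 0 < Rm x + s3 := by linarith [Rm_nonneg x, s3_ge]
  have h3 := s3_sq
  field_simp
  nlinarith

lemma sqrt_le_two (t : ℝ) : Real.sqrt (4 - t ^ 2) ≤ 2 :=
  Real.sqrt_le_iff.2 ⟨by norm_num, by nlinarith [sq_nonneg t]⟩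

lemma inv_eq {t : ℝ} (h : 1 / 1024 ≤ t) : max (1 / max t (1 / 1024)) 0 = 1 / t := by
  rw [max_eq_left h, max_eq_left (one_div_nonneg.2 (by linarith))]

lemma min_eq {t : ℝ} (h : min t 100 ≤ 99) : min t 100 = t := by
  rcases le_total t 100 with h1 | h1
  · exact min_eq_left h1
  · rw [min_eq_right h1] at h
    linarith

lemma zero (s : Sc) (h : s.RegS ∨ s.RegL) (hD : s.D = 0) : s.S + s.S1 = 0 ∧ s.S1 = 0 ∧ s.Ss = 0 := by
  obtain ⟨-, -, -, -, -, -, -, a1, -, -⟩ := s.nn1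
  obtain ⟨-, -, a2, a3, a4, -⟩ := s.nn2
  rcases h with h | h
  · obtain ⟨h1, h2⟩ := h.2.2.1 (Or.inr (by linarith))
    have hB : s.S + s.S1 = 0 := by linarith
    have h3 := h2 (by linarith)
    have h4 := (s.wv (by linarith)).1
    rw [hB, Rm_zero] at h3 h4
    have hG : s.G = 0 := by nlinarith [s3_ge]
    rw [hG, sub_self] at h4
    refine ⟨hB, by linarith, ?_⟩
    nlinarith [Real.sqrt_nonneg (4 - (s.P + s.nu) ^ 2)]
  · linarith [h.1]

lemma back {t D : ℝ} (ht : 0 ≤ t) (hD : 0 ≤ D) (h0 : D = 0 → t = 0) (h : min (t / D) 100 ≤ 99) :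
    t ≤ max D 0 * max (min (t / D) 100) 0 := by
  rw [min_eq h, max_eq_left hD, max_eq_left (div_nonneg ht hD)]
  rcases hD.eq_or_lt with h1 | h1
  · rw [h0 h1.symm]
    simp
  · exact (mul_div_cancel₀ t h1.ne').ge

lemma fwd {t D : ℝ} (ht : 0 ≤ t) (h : 1 / 1024 ≤ D) :
    min (t / D) 100 ≤ max t 0 * max (1 / max D (1 / 1024)) 0 := by
  rw [inv_eq h, max_eq_left ht, mul_one_div]
  exact min_le_left _ _

lemma wave {t c r u D : ℝ} (hc : 0 ≤ c) (hD : 0 ≤ D) (h : (2 + c) * t ≤ r * u) :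
    min (t / D) 100 ≤ r * (u / D * (1 / (2 + c))) := by
  refine (min_le_left _ _).trans ?_
  have h1 : t ≤ r * u / (2 + c) := by
    rw [le_div_iff₀ (by linarith)]
    linarith
  exact (div_le_div_of_nonneg_right h1 hD).trans_eq (by ring)

lemma GU_nonneg (s : Sc) : 0 ≤ s.GU := by
  have h := Rm_anti le_rfl (add_nonneg s.nn2.2.2.1 s.nn1.2.2.2.2.2.2.2.1)
  rw [Rm_zero] at h
  rw [Sc.GU]
  linarith [s.nn2.2.2.2.2.1]

lemma bD (s : Sc) (h : s.RegS ∨ s.RegL) : St.bD.holds s.x := by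
  refine holds_ub fun lo hi _ _ hg => ?_
  simp only [List.forall_mem_cons, E.ev, Sc.x1, Sc.x13, Sc.x22] at hg ⊢
  exact back (add_nonneg s.nn2.2.2.1 s.nn1.2.2.2.2.2.2.2.1) s.nn1.2.1 (fun h0 => (zero s h h0).1)
    (by norm_num at hg ⊢; exact hg)

lemma ssD (s : Sc) (h : s.RegS ∨ s.RegL) : St.ssD.holds s.x := by
  refine holds_ub fun lo hi _ _ hg => ?_
  simp only [List.forall_mem_cons, E.ev, Sc.x1, Sc.x12, Sc.x23] at hg ⊢
  exact back s.nn2.2.2.2.1 s.nn1.2.1 (fun h0 => (zero s h h0).2.2) (by norm_num at hg ⊢; exact hg)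

lemma s1Ub (s : Sc) (h : s.RegS ∨ s.RegL) : St.s1Ub.holds s.x := by
  refine holds_ub fun lo hi _ _ hg => ?_
  simp only [List.forall_mem_cons, E.ev, Sc.x1, Sc.x6, Sc.x24] at hg ⊢
  exact back s.nn1.2.2.2.2.2.2.2.1 s.nn1.2.1 (fun h0 => (zero s h h0).2.1)
    (by norm_num at hg ⊢; exact hg)

lemma sSD (s : Sc) : St.sSD.holds s.x := by
  refine holds_ub fun lo hi _ _ hg => ?_
  simp only [List.forall_mem_cons, E.ev, Sc.x1, Sc.x12, Sc.x23, Nat.cast_ofNat, Nat.cast_one]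
    at hg ⊢
  exact fwd s.nn2.2.2.2.1 (by linarith [hg.1])

lemma s1D (s : Sc) : St.s1D.holds s.x := by
  refine holds_ub fun lo hi _ _ hg => ?_
  simp only [List.forall_mem_cons, E.ev, Sc.x1, Sc.x6, Sc.x24, Nat.cast_ofNat, Nat.cast_one]
    at hg ⊢
  exact fwd s.nn1.2.2.2.2.2.2.2.1 (by linarith [hg.1])

lemma sBs (s : Sc) : St.sBs.holds s.x := by
  refine holds_ub fun lo hi _ _ hg => ?_
  simp only [List.forall_mem_cons, E.ev, Sc.x22, Sc.x23, Sc.x24, Nat.cast_ofNat, Nat.cast_one,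
    div_one] at hg ⊢
  rw [min_eq (t := s.Ss / s.D) (by linarith [hg.1]), min_eq (t := s.S1 / s.D) (by linarith [hg.2.1]),
    ← add_div]
  exact (min_le_left _ _).trans
    (div_le_div_of_nonneg_right (by linarith [s.ord.2.2.2.2]) s.nn1.2.1)

lemma wS (s : Sc) : St.wS.holds s.x := by
  refine holds_ub fun lo hi _ _ hg => ?_
  simp only [List.forall_mem_cons, E.ev, Sc.x13, Sc.x16, Sc.x17, Sc.x23, Sc.x25, Nat.cast_ofNat,
    Nat.cast_one, div_one] at hg ⊢
  have h1 : 0 ≤ s.cr := Real.sqrt_nonneg _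
  have h2 := div_nonneg (GU_nonneg s) s.nn1.2.1
  rw [min_eq (t := s.GU / s.D) (by linarith [hg.1]), inv_eq (by linarith), max_eq_left h2,
    max_eq_left (add_nonneg s.nn2.1 s.nn1.2.2.2.2.2.2.2.2.2), max_eq_left (by positivity)]
  exact wave h1 s.nn1.2.1 (s.wv (by linarith [hg.2.1])).1

lemma wS1 (s : Sc) : St.wS1.holds s.x := by
  refine holds_ub fun lo hi _ _ hg => ?_
  simp only [List.forall_mem_cons, E.ev, Sc.x5, Sc.x13, Sc.x18, Sc.x24, Sc.x25, Nat.cast_ofNat,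
    Nat.cast_one, div_one] at hg ⊢
  have h1 : 0 ≤ s.c1 := Real.sqrt_nonneg _
  have h2 := div_nonneg (GU_nonneg s) s.nn1.2.1
  have h3 := s.nn1.2.2.2.2.2.1
  rw [min_eq (t := s.GU / s.D) (by linarith [hg.1]), inv_eq (by linarith), max_eq_left h2,
    max_eq_left h3, max_eq_left (mul_nonneg h3 h2), mul_assoc]
  exact wave h1 s.nn1.2.1 (s.wv (by linarith [hg.2.1])).2

lemma guard {s : Sc} (h : min (max s.S s.S1 - 3 / 4) (s.D - 63 / 256) ≤ 0) :
    (s.S ≤ 3 / 4 ∧ s.S1 ≤ 3 / 4) ∨ s.D ≤ 63 / 256 := by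
  rcases min_le_iff.1 h with h | h
  · exact Or.inl ⟨by linarith [le_max_left s.S s.S1], by linarith [le_max_right s.S s.S1]⟩
  · exact Or.inr (by linarith)

lemma sB3 (s : Sc) (h : s.RegS) : St.sB3.holds s.x := by
  refine holds_ub fun lo hi _ _ hg => ?_
  simp only [List.forall_mem_cons, E.ev, Sc.x1, Sc.x6, Sc.x11, Sc.x22, Nat.cast_ofNat,
    Nat.cast_one, div_one] at hg ⊢
  exact (min_le_left _ _).trans
    (div_le_of_le_mul₀ s.nn1.2.1 (by norm_num) (h.2.2.1 (guard hg.1)).1)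

lemma gId (s : Sc) : St.gId.holds s.x := by
  refine holds_ub fun lo hi _ _ hg => ?_
  simp only [List.forall_mem_cons, E.ev, Sc.x6, Sc.x11, Sc.x13, Sc.x17, Sc.x18, Sc.x22, Sc.x23,
    Sc.x24, Sc.x25, Nat.cast_ofNat, Nat.cast_one, div_one] at hg ⊢
  obtain ⟨g1, g2, g3, g4, g5, g6, -⟩ := hg
  have aD := s.nn1.2.1
  have a1 := s.nn1.2.2.2.2.2.2.2.1
  have a2 := s.nn2.2.2.1
  have a3 := s.nn2.2.2.2.1
  have hid := s.idn (by linarith) (by linarith) (by linarith)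
  have hR := Rm_id (add_nonneg a2 a1) (by linarith)
  have hR0 := Rm_nonneg (s.S + s.S1)
  have h3 := s3_ge
  have m1 : 0 ≤ s.S + min s.S (2 - s.cr) :=
    add_nonneg a2 (le_min a2 (sub_nonneg.2 (sqrt_le_two _)))
  have m2 : 0 ≤ s.S1 + min s.S1 (2 - s.c1) :=
    add_nonneg a1 (le_min a1 (sub_nonneg.2 (sqrt_le_two _)))
  have d1 := div_nonneg a3 aD
  have d2 := div_nonneg a1 aD
  have d3 := div_nonneg (add_nonneg a2 a1) aD
  have d4 : 0 < 1 - (s.S + s.S1) := by linarith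
  change (1 - (s.S + s.S1)) * s.G ≤ s.D + (s.S * (s.S + min s.S (2 - s.cr)) +
    s.S1 * (s.S1 + min s.S1 (2 - s.c1))) / 3 at hid
  change _ ≤ _ + max 2 0 * max (_ * max (_ * max (1 / max (Rm (s.S + s.S1) + s3) _) 0) 0) 0
  rw [min_eq (t := s.Ss / s.D) (by linarith), min_eq (t := s.S1 / s.D) (by linarith),
    min_eq (t := (s.S + s.S1) / s.D) (by linarith), inv_eq (t := 1 - _) (by linarith),
    inv_eq (t := Rm _ + _) (by linarith), Sc.GU, hR]
  generalize s.S + min s.S (2 - s.cr) = u at *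
  generalize s.S1 + min s.S1 (2 - s.c1) = v at *
  generalize Rm (s.S + s.S1) = R at *
  have d5 : 0 ≤ (2 + (s.S + s.S1)) * (1 / (R + s3)) := by positivity
  rw [max_eq_left d1, max_eq_left d2, max_eq_left d3, max_eq_left m1, max_eq_left m2,
    max_eq_left (a := 2 + _) (by positivity), max_eq_left d5, max_eq_left (a := 2) zero_le_two,
    max_eq_left (a := 1 / 3) (by norm_num), max_eq_left (mul_nonneg d3 d5),
    max_eq_left (add_nonneg (mul_nonneg d1 m1) (mul_nonneg d2 m2)), max_eq_left (by positivity)]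
  refine (min_le_left _ _).trans ?_
  rcases aD.eq_or_lt with h0 | h0
  · rw [← h0]
    simp only [div_zero, zero_mul, mul_zero, add_zero]
    positivity
  · rw [add_div]
    refine add_le_add ?_ (le_of_eq (by ring))
    have h4 := mul_le_mul_of_nonneg_right s.ord.2.2.2.2 m1
    rw [mul_one_div, div_le_div_iff₀ h0 d4]
    have h5 : (1 + 1 / 3 * (s.Ss / s.D * u + s.S1 / s.D * v)) * s.D =
        s.D + (s.Ss * u + s.S1 * v) / 3 := by field_simp
    rw [h5]
    linarith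

lemma gTC (s : Sc) (h : s.RegS) : St.gTC.holds s.x := by
  refine holds_ub fun lo hi _ hh hg => ?_
  have hB := hh 13
  have hb := hh 22
  simp only [List.forall_mem_cons, E.ev, Sc.x1, Sc.x6, Sc.x11, Sc.x13, Sc.x22, Sc.x25,
    Nat.cast_ofNat, Nat.cast_one, div_one] at hg hB hb ⊢
  obtain ⟨g1, g2, g3, -⟩ := hg
  have aD := s.nn1.2.1
  have aB := add_nonneg s.nn2.2.2.1 s.nn1.2.2.2.2.2.2.2.1
  have aG := s.nn2.2.2.2.2.1
  obtain ⟨t1, t2⟩ := h.2.2.1 (guard g2)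
  have t3 := t2 (by linarith)
  have hR := Rm_id aB (by linarith)
  have r1 := Rm_anti aB hB
  have r2 := Rm_ge (aB.trans hB) (by linarith)
  have h3 := s3_ge
  rw [min_eq (by linarith)] at hb
  change _ ≤ max (_ * max (1 / max (Rm (hi 13)) _) 0) (_ * max (1 / max (Rm (hi 13)) _) 0 +
    _ * max (_ * max (_ * max (1 / max (Rm (hi 13) + s3) _) 0) 0) 0)
  rw [inv_eq (t := Rm _) (by linarith), inv_eq (t := Rm _ + _) (by linarith), Sc.GU, hR]
  generalize s.S + s.S1 = B at *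
  generalize hi 13 = U at *
  generalize hi 22 = w at *
  generalize Rm B = R at *
  generalize Rm U = R' at *
  have aU : 0 ≤ U := aB.trans hB
  have r3 : 0 < R' := by linarith
  have r4 : 0 < R := by linarith
  have d3 := div_nonneg aB aD
  have aw := d3.trans hb
  have d5 : 0 ≤ (2 + U) * (1 / (R' + s3)) := by positivity
  rw [max_eq_left (a := 2 + _) (by positivity), max_eq_left d5, max_eq_left aw,
    max_eq_left (mul_nonneg aw d5), max_eq_left (a := 2) zero_le_two,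
    max_eq_left (a := 3) (by norm_num)]
  refine (min_le_left _ _).trans ?_
  have k1 : (2 + B) * (1 / (R + s3)) ≤ (2 + U) * (1 / (R' + s3)) := by gcongr
  have k2 : s.G / s.D ≤ (3 - B / s.D) * (1 / R') := by
    rcases aD.eq_or_lt with h0 | h0
    · rw [← h0]
      simp only [div_zero, sub_zero]
      positivity
    · rw [mul_one_div, div_le_div_iff₀ h0 r3, sub_mul, div_mul_cancel₀ _ h0.ne']
      nlinarith
  have k3 : (s.G + 2 * (B * ((2 + B) * (1 / (R + s3))))) / s.D =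
      s.G / s.D + 2 * (B / s.D * ((2 + B) * (1 / (R + s3)))) := by ring
  have k4 := mul_le_mul_of_nonneg_left k1 d3
  have k5 : 0 < 1 / R' := by positivity
  rw [k3]
  generalize B / s.D = b at *
  generalize (2 + U) * (1 / (R' + s3)) = c at *
  generalize 1 / R' = ρ at *
  rcases le_total (2 * c) ρ with k6 | k6
  · exact le_max_of_le_left (by nlinarith)
  · refine le_max_of_le_right ?_
    have k7 := mul_le_mul_of_nonneg_right (le_max_left (3 - w) 0) k5.le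
    nlinarith

end ScB

theorem scB : S_scB := fun s h =>
  ⟨ScB.bD s h, ScB.sSD s, ScB.s1D s, ScB.sBs s, ScB.gId s, ScB.wS s, ScB.wS1 s, ScB.ssD s h,
    ScB.s1Ub s h, fun h' => ⟨ScB.sB3 s h', ScB.gTC s h'⟩⟩

end Pool.Agent.P.MP_dd077d_co
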