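import Pool.Agent.P.MP_dd077d_co.ScB

/-!
The rules about the growth of `E` and `h`, and the meaning of the three final rules.
-/

set_option linter.dupNamespace false
set_option linter.unusedSimpArgs false

namespace Pool.Agent.P.MP_dd077d_co

namespace ScC

open Icp ScB

lemma mx0 {t : ℝ} (h : 0 ≤ t) : max t 0 = t := max_eq_left h

lemma undiv {t D b : ℝ} (hD : 0 ≤ D) (h0 : D = 0 → t ≤ 0) (hb : max 0 (min (t / D) 100) ≤ b)
    (hb' : b < 100) : t ≤ D * b := by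
  rcases hD.eq_or_lt with h1 | h1
  · rw [← h1, zero_mul]
    exact h0 h1.symm
  · have h2 : min (t / D) 100 ≤ b := (le_max_right _ _).trans hb
    have h3 : t / D ≤ b := by
      rcases min_le_iff.1 h2 with h | h
      · exact h
      · linarith
    rw [div_le_iff₀ h1] at h3
    linarith

lemma zeroEh (s : Sc) (h : s.RegS ∨ s.RegL) (hD : s.D = 0) : s.E - s.E1 ≤ 0 ∧ s.h - s.h1 ≤ 0 := by
  obtain ⟨a1, a2, -⟩ := zero s h hD
  obtain ⟨-, -, b1, -, -, b2, b3, -⟩ := s.nn2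
  obtain ⟨-, -, c1, c2, -⟩ := s.ord
  have hS : s.S = 0 := by linarith
  have hf : s.f = 0 := by linarith
  have hz : s.zs = 0 := by linarith
  have h1 := s.rcE (by linarith) (by linarith) (by linarith)
  have h2 := s.rcH (by linarith) (by linarith) (by linarith)
  rw [hf, hz, a2] at h1 h2
  simp only [ccF, zero_add, zero_mul, mul_zero, zero_div, add_zero] at h1 h2
  refine ⟨h1, h2.trans ?_⟩
  norm_num

lemma den_ge {x : ℝ} (h0 : 0 ≤ x) (h : x ≤ 9 / 10) :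
    1 / 1024 ≤ √3 * (√(4 - (1 + x) ^ 2) * (√3 + √(4 - (1 + x) ^ 2))) := by
  have h1 : 1 / 2 ≤ √(4 - (1 + x) ^ 2) := Rm_ge h0 h
  have h2 : 1 ≤ √3 := s3_ge
  have h3 : 1 / 2 * (1 + 1 / 2) ≤ √(4 - (1 + x) ^ 2) * (√3 + √(4 - (1 + x) ^ 2)) := by
    gcongr
  nlinarith

lemma coreE (s : Sc) {B sf sz s1 : ℝ} (h1 : s.f ≤ 7 / 10) (h2 : s.S ≤ 1)
    (h3 : s.S1 + s.zs ≤ 9 / 10) (hB : s.f / s.D * (s.z + 3 / 2 * s.E1) ≤ B)
    (hf : s.f / s.D ≤ sf) (hz : s.zs / s.D ≤ sz) (hs : s.S1 / s.D ≤ s1) :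
    max 0 (min ((s.E - s.E1) / s.D) 100) ≤
      max (max (39 / 50 + max (13 / 50) 0 * max (max s.f 0 * max s.f 0) 0) 0 *
        max (max (√(4 - (1 - s.f) ^ 2) + √3) 0 * max (1 / max (2 - s.f) (1 / 1024)) 0) 0) 0 *
        max B 0 +
      (max (667 / 1000) 0 * max (max sf 0 * max s.E1 0) 0 +
        max (max (max (max (s1 + sz) 0 * max (8 + max 4 0 * max (s.S1 + s.zs) 0) 0) 0 *
          max (1 / max (max (√3) 0 * max (max (√(4 - (1 + (s.S1 + s.zs)) ^ 2)) 0 *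
            max (√3 + √(4 - (1 + (s.S1 + s.zs)) ^ 2)) 0) 0) (1 / 1024)) 0 +
          max (77 / 200) 0 * max sz 0) 0 * max s.N 0) 0 *
        max (max (√(4 - (1 - s.zs) ^ 2) + √3) 0 * max (1 / max (2 - s.zs) (1 / 1024)) 0) 0) := by
  obtain ⟨-, a1, a2, a3, -, -, -, a4, a5, -⟩ := s.nn1
  obtain ⟨-, -, -, -, -, b1, b2, -⟩ := s.nn2
  have hr := div_le_div_of_nonneg_right (s.rcE h2 h1 h3) a1
  refine max_le (by positivity) ((min_le_left _ _).trans (hr.trans ?_))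
  have p1 : 0 < 2 - s.f := by linarith
  have p2 : 0 < 2 - s.zs := by linarith
  have q1 : 0 ≤ B := le_trans (by positivity) hB
  have q2 : 0 ≤ sf := le_trans (by positivity) hf
  have q3 : 0 ≤ sz := le_trans (by positivity) hz
  have q4 : 0 ≤ s1 := le_trans (by positivity) hs
  simp (disch := positivity) only [mx0]
  rw [max_eq_left (show (1 : ℝ) / 1024 ≤ 2 - s.f by linarith),
    max_eq_left (show (1 : ℝ) / 1024 ≤ 2 - s.zs by linarith),
    max_eq_left (den_ge (add_nonneg a4 b2) h3)]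
  unfold muF ccF Rp Rm s3
  calc _ = (39 / 50 + 13 / 50 * (s.f * s.f)) * ((√(4 - (1 - s.f) ^ 2) + √3) * (1 / (2 - s.f))) *
        (s.f / s.D * (s.z + 3 / 2 * s.E1)) + (667 / 1000 * (s.f / s.D * s.E1) +
        ((s.S1 / s.D + s.zs / s.D) * (8 + 4 * (s.S1 + s.zs)) *
          (1 / (√3 * (√(4 - (1 + (s.S1 + s.zs)) ^ 2) * (√3 + √(4 - (1 + (s.S1 + s.zs)) ^ 2))))) +
          77 / 200 * (s.zs / s.D)) * s.N *
          ((√(4 - (1 - s.zs) ^ 2) + √3) * (1 / (2 - s.zs)))) := by ring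
    _ ≤ _ := by gcongr

lemma coreH (s : Sc) {sf sz s1 : ℝ} (h1 : s.f ≤ 7 / 10) (h2 : s.S ≤ 1)
    (h3 : s.S1 + s.zs ≤ 9 / 10) (hf : s.f / s.D ≤ sf) (hz : s.zs / s.D ≤ sz)
    (hs : s.S1 / s.D ≤ s1) :
    max 0 (min ((s.h - s.h1) / s.D) 100) ≤
      max (max (39 / 50 + max (13 / 50) 0 * max (max s.f 0 * max s.f 0) 0) 0 *
        max (max s.f 0 * max sf 0) 0)
      (max s.zs 0 * max (max (max (s1 + sz) 0 * max (8 + max 4 0 * max (s.S1 + s.zs) 0) 0) 0 *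
          max (1 / max (max (√3) 0 * max (max (√(4 - (1 + (s.S1 + s.zs)) ^ 2)) 0 *
            max (√3 + √(4 - (1 + (s.S1 + s.zs)) ^ 2)) 0) 0) (1 / 1024)) 0 +
          max (77 / 200) 0 * max sz 0) 0) := by
  obtain ⟨-, a1, a2, a3, -, -, -, a4, a5, -⟩ := s.nn1
  obtain ⟨-, -, -, -, -, b1, b2, -⟩ := s.nn2
  refine max_le (by positivity) ((min_le_left _ _).trans ?_)
  have q2 : 0 ≤ sf := le_trans (by positivity) hf
  have q3 : 0 ≤ sz := le_trans (by positivity) hz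
  have q4 : 0 ≤ s1 := le_trans (by positivity) hs
  simp (disch := positivity) only [mx0]
  rw [max_eq_left (den_ge (add_nonneg a4 b2) h3)]
  rcases le_max_iff.1 (s.rcH h2 h1 h3) with hr | hr
  · refine (div_le_div_of_nonneg_right hr a1).trans (le_trans ?_ (le_max_left _ _))
    unfold muF
    calc _ = (39 / 50 + 13 / 50 * (s.f * s.f)) * (s.f * (s.f / s.D)) := by ring
      _ ≤ _ := by gcongr
  · refine (div_le_div_of_nonneg_right hr a1).trans (le_trans ?_ (le_max_right _ _))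
    unfold ccF Rm s3
    calc _ = s.zs * ((s.S1 / s.D + s.zs / s.D) * (8 + 4 * (s.S1 + s.zs)) *
          (1 / (√3 * (√(4 - (1 + (s.S1 + s.zs)) ^ 2) * (√3 + √(4 - (1 + (s.S1 + s.zs)) ^ 2))))) +
          77 / 200 * (s.zs / s.D)) := by ring
      _ ≤ _ := by gcongr

lemma fSs (s : Sc) (h : min (s.Ss / s.D) 100 - 99 ≤ 0) : s.f / s.D ≤ min (s.Ss / s.D) 100 := by
  rw [min_eq (by linarith)]
  exact div_le_div_of_nonneg_right (s.ord.2.2.1.trans s.ord.2.2.2.2) s.nn1.2.1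

lemma zSs (s : Sc) (h : min (s.Ss / s.D) 100 - 99 ≤ 0) : s.zs / s.D ≤ min (s.Ss / s.D) 100 :=
  (div_le_div_of_nonneg_right s.ord.2.2.2.1 s.nn1.2.1).trans (fSs s h)

lemma s1S {t : ℝ} (h : min t 100 - 99 ≤ 0) : t ≤ min t 100 := (min_eq (by linarith)).ge

lemma overD {t D m : ℝ} (ht : 0 ≤ t) (hD : 1 / 1024 - D ≤ 0) (h : t / D ≤ m) :
    t / D ≤ min m (max t 0 * max (1 / max D (1 / 1024)) 0) := by
  refine le_min h ?_
  rw [inv_eq (by linarith), max_eq_left ht, mul_one_div]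

lemma bB (s : Sc) (hi : ℕ → ℝ) (hh : ∀ j, s.x j ≤ hi j) (h2 : s.S ≤ 1)
    (h5 : min (s.GU / s.D) 100 - 99 ≤ 0) (h6 : s.S + s.S1 ≤ 1) :
    s.f / s.D * (s.z + 3 / 2 * s.E1) ≤
      max (max (min (s.GU / s.D) 100) 0 * max (1 / max (2 + s.cr) (1 / 1024)) 0) 0 *
        max (max ((max (1 / 2) 0 * max (hi 10 + hi 8 + max (3 / 2) 0 * max (hi 3) 0) 0) ^ 2 -
          (max s.z (hi 10 - hi 9) - 1 / 2 * (hi 10 + hi 8 - max (3 / 2) 0 * max (hi 3) 0)) ^ 2)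
          (max (min (√3 - √(4 - (1 + s.f) ^ 2)) s.z + s.nu) 0 *
            max (s.z + max (3 / 2) 0 * max s.E1 0) 0)) 0 := by
  obtain ⟨-, a1, a2, a3, -, -, -, a4, a5, a6⟩ := s.nn1
  obtain ⟨b3, b4, -, b5, -, b1, b2, -⟩ := s.nn2
  have u10 : s.Y ≤ hi 10 := hh 10
  have u9 : s.P ≤ hi 9 := hh 9
  have u8 : s.nu ≤ hi 8 := hh 8
  have u3 : s.E1 ≤ hi 3 := hh 3
  have v10 : 0 ≤ hi 10 := b4.trans u10
  have v8 : 0 ≤ hi 8 := a6.trans u8
  have v3 : 0 ≤ hi 3 := a3.trans u3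
  have c0 : 0 ≤ s.cr := Real.sqrt_nonneg _
  have g0 := GU_nonneg s
  rw [min_eq (t := s.GU / s.D) (by linarith), inv_eq (show 1 / 1024 ≤ 2 + s.cr by linarith)]
  simp (disch := positivity) only [mx0]
  have k1 : s.f / s.D ≤ (s.P + s.nu) * (s.GU / s.D * (1 / (2 + s.cr))) := by
    have e1 : s.Ss ≤ (s.P + s.nu) * s.GU / (2 + s.cr) := by
      rw [le_div_iff₀ (by linarith)]
      have := (s.wv h6).1
      change (2 + s.cr) * s.Ss ≤ (s.P + s.nu) * s.GU at this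
      linarith
    have e2 : s.f ≤ (s.P + s.nu) * s.GU / (2 + s.cr) :=
      (s.ord.2.2.1.trans s.ord.2.2.2.2).trans e1
    exact (div_le_div_of_nonneg_right e2 a1).trans_eq (by ring)
  have k2 : (s.P + s.nu) * (s.z + 3 / 2 * s.E1) ≤
      max ((1 / 2 * (hi 10 + hi 8 + 3 / 2 * hi 3)) ^ 2 -
        (max s.z (hi 10 - hi 9) - 1 / 2 * (hi 10 + hi 8 - 3 / 2 * hi 3)) ^ 2)
        (max (min (√3 - √(4 - (1 + s.f) ^ 2)) s.z + s.nu) 0 * (s.z + 3 / 2 * s.E1)) := by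
    rcases le_max_iff.1 (s.pM h2) with hp | hp
    · refine le_trans ?_ (le_max_left _ _)
      have e1 : s.P + s.nu ≤ hi 10 + hi 8 - max s.z (hi 10 - hi 9) := by
        have : max s.z (hi 10 - hi 9) ≤ hi 10 - s.P := max_le (by linarith) (by linarith)
        linarith
      have e2 : s.z + 3 / 2 * s.E1 ≤ max s.z (hi 10 - hi 9) + 3 / 2 * hi 3 := by
        linarith [le_max_left s.z (hi 10 - hi 9)]
      refine (mul_le_mul e1 e2 (by positivity) (le_trans (by positivity) e1)).trans_eq ?_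
      ring
    · refine le_trans ?_ (le_max_right _ _)
      refine mul_le_mul_of_nonneg_right (le_trans ?_ (le_max_left _ _)) (by positivity)
      change s.P ≤ min (√3 - √(4 - (1 + s.f) ^ 2)) s.z at hp
      linarith
  calc _ ≤ (s.P + s.nu) * (s.GU / s.D * (1 / (2 + s.cr))) * (s.z + 3 / 2 * s.E1) := by gcongr
    _ = s.GU / s.D * (1 / (2 + s.cr)) * ((s.P + s.nu) * (s.z + 3 / 2 * s.E1)) := by ring
    _ ≤ _ := by gcongr

lemma dEa1 (s : Sc) : St.dEa1.holds s.x := by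
  refine holds_ub fun lo hi hl hh hg => ?_
  simp only [List.forall_mem_cons, E.ev, Sc.x1, Sc.x2, Sc.x3, Sc.x6, Sc.x7, Sc.x8, Sc.x11, Sc.x13,
    Sc.x14, Sc.x15, Sc.x17, Sc.x19, Sc.x23, Sc.x24, Sc.x25, Nat.cast_ofNat, Nat.cast_one,
    div_one] at hg ⊢
  obtain ⟨g1, g2, g3, g4, g5, g6, -⟩ := hg
  have hf := overD s.nn2.2.2.2.2.2.1 g6 (fSs s g4)
  refine coreE s (by linarith) (by linarith) (by linarith) ?_ hf
    (overD s.nn2.2.2.2.2.2.2.1 g6 (zSs s g4)) (s1S g5)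
  obtain ⟨-, a1, a2, a3, -⟩ := s.nn1
  refine mul_le_mul (hf.trans (le_max_left _ _)) (le_trans ?_ (le_max_left _ _)) (by positivity)
    (le_max_right _ _)
  rw [mx0 a3, mx0 (by norm_num)]

lemma dEb1 (s : Sc) : St.dEb1.holds s.x := by
  refine holds_ub fun lo hi hl hh hg => ?_
  simp only [List.forall_mem_cons, E.ev, Sc.x1, Sc.x2, Sc.x3, Sc.x6, Sc.x7, Sc.x8, Sc.x11, Sc.x13,
    Sc.x14, Sc.x15, Sc.x17, Sc.x19, Sc.x23, Sc.x24, Sc.x25, Nat.cast_ofNat, Nat.cast_one,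
    div_one] at hg ⊢
  obtain ⟨g1, g2, g3, g4, g5, g6, g7, g8, -⟩ := hg
  exact coreE s (by linarith) (by linarith) (by linarith)
    (bB s hi hh (by linarith) g7 (by linarith)) (overD s.nn2.2.2.2.2.2.1 g6 (fSs s g4))
    (overD s.nn2.2.2.2.2.2.2.1 g6 (zSs s g4)) (s1S g5)

lemma dEb0 (s : Sc) : St.dEb0.holds s.x := by
  refine holds_ub fun lo hi hl hh hg => ?_
  simp only [List.forall_mem_cons, E.ev, Sc.x1, Sc.x2, Sc.x3, Sc.x6, Sc.x7, Sc.x8, Sc.x11, Sc.x13,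
    Sc.x14, Sc.x15, Sc.x17, Sc.x19, Sc.x23, Sc.x24, Sc.x25, Nat.cast_ofNat, Nat.cast_one,
    div_one] at hg ⊢
  obtain ⟨g1, g2, g3, g4, g5, g7, g8, -⟩ := hg
  exact coreE s (by linarith) (by linarith) (by linarith)
    (bB s hi hh (by linarith) g7 (by linarith)) (fSs s g4) (zSs s g4) (s1S g5)

lemma dh1 (s : Sc) : St.dh1.holds s.x := by
  refine holds_ub fun lo hi hl hh hg => ?_
  simp only [List.forall_mem_cons, E.ev, Sc.x1, Sc.x6, Sc.x11, Sc.x14, Sc.x15, Sc.x20, Sc.x23,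
    Sc.x24, Nat.cast_ofNat, Nat.cast_one, div_one] at hg ⊢
  obtain ⟨g1, g2, g3, g4, g5, g6, -⟩ := hg
  exact coreH s (by linarith) (by linarith) (by linarith) (overD s.nn2.2.2.2.2.2.1 g6 (fSs s g4))
    (overD s.nn2.2.2.2.2.2.2.1 g6 (zSs s g4)) (s1S g5)

lemma dh0 (s : Sc) : St.dh0.holds s.x := by
  refine holds_ub fun lo hi hl hh hg => ?_
  simp only [List.forall_mem_cons, E.ev, Sc.x1, Sc.x6, Sc.x11, Sc.x14, Sc.x15, Sc.x20, Sc.x23,
    Sc.x24, Nat.cast_ofNat, Nat.cast_one, div_one] at hg ⊢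
  obtain ⟨g1, g2, g3, g4, g5, -⟩ := hg
  exact coreH s (by linarith) (by linarith) (by linarith) (fSs s g4) (zSs s g4) (s1S g5)

lemma nHalf (s : Sc) (h : s.RegS ∨ s.RegL) : St.nHalf.holds s.x := by
  refine holds_ub fun lo hi hl hh hg => ?_
  simp only [List.forall_mem_cons, E.ev, Sc.x1, Sc.x3, Sc.x7, Sc.x19, Nat.cast_ofNat, Nat.cast_one,
    div_one] at hg ⊢
  obtain ⟨-, a1, -, a3, -⟩ := s.nn1
  have k := undiv a1 (fun h0 => (zeroEh s h h0).1) le_rfl (by linarith [hg.1])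
  simp (disch := positivity) only [mx0]
  linarith [s.lnk.2.2.2]

lemma s3_le : s3 ≤ 2 := Real.sqrt_le_iff.2 ⟨by norm_num, by norm_num⟩

lemma kE (s : Sc) (hr : s.RegS ∨ s.RegL) (h : ¬ St.killE.holds s.x) : s.E ≤ eF (s.a + s.D) := by
  by_contra hc
  refine h (holds_kill fun lo hi hl hh hg => hc ?_)
  simp only [List.forall_mem_cons, E.ev, Sc.x0, Sc.x19, Sc.x21, Nat.cast_ofNat] at hg
  obtain ⟨a0, a1, -⟩ := s.nn1
  have hA : s.a + s.D ≤ 2 := s.top.trans s3_le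
  have ha : s.a ≤ 2 := by linarith
  replace hg := sub_nonpos.1 hg.1
  simp (disch := positivity) only [mx0] at hg
  have k := undiv a1 (fun h0 => (zeroEh s hr h0).1) hg (lt_of_le_of_lt (b :=
    301 / 100000 + 37 / 2500 * (2 * 2 + (2 * 2 + 2 * 2)) + 17 / 10000 * ((2 + 2) * (2 * 2 + 2 * 2)) +
      119 / 50000 * ((2 + 2) * (2 * 2 + 2 * 2) * (2 * 2 * (2 * 2) + 2 * 2 * (2 * 2))) +
      79 / 5000000 * ((2 + 2) * (2 * 2 + 2 * 2) * (2 * 2 * (2 * 2) + 2 * 2 * (2 * 2)) *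
        (2 * 2 * (2 * 2) * (2 * 2 * (2 * 2)) + 2 * 2 * (2 * 2) * (2 * 2 * (2 * 2)))))
    (by gcongr) (by norm_num))
  have i := s.inv.1
  unfold eF at i ⊢
  linarith

lemma kH (s : Sc) (hr : s.RegS ∨ s.RegL) (h : ¬ St.killH.holds s.x) : s.h ≤ hF (s.a + s.D) := by
  by_contra hc
  refine h (holds_kill fun lo hi hl hh hg => hc ?_)
  simp only [List.forall_mem_cons, E.ev, Sc.x0, Sc.x20, Sc.x21, Nat.cast_ofNat, Nat.cast_one] at hg
  obtain ⟨a0, a1, -⟩ := s.nn1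
  have hA : s.a + s.D ≤ 2 := s.top.trans s3_le
  have ha : s.a ≤ 2 := by linarith
  replace hg := sub_nonpos.1 hg.1
  simp (disch := positivity) only [mx0] at hg
  have k := undiv a1 (fun h0 => (zeroEh s hr h0).2) hg (lt_of_le_of_lt (b :=
    1 / 500 + 123 / 50000 * (2 * 2 + (2 * 2 + 2 * 2)) + 59 / 10000 * ((2 + 2) * (2 * 2 + 2 * 2)) +
      19 / 12500 * ((2 + 2) * (2 * 2 + 2 * 2) * (2 * 2 * (2 * 2) + 2 * 2 * (2 * 2))) +
      47 / 25000000 * ((2 + 2) * (2 * 2 + 2 * 2) * (2 * 2 * (2 * 2) + 2 * 2 * (2 * 2)) *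
        (2 * 2 * (2 * 2) * (2 * 2 * (2 * 2)) + 2 * 2 * (2 * 2) * (2 * 2 * (2 * 2)))))
    (by gcongr) (by norm_num))
  have i := s.inv.2.1
  unfold hF at i ⊢
  linarith

lemma kR (s : Sc) (h : ¬ St.killR.holds s.x) : s.Ss ≤ sF (s.a + s.D) ∧
    s.P + s.nu ≤ rF (s.a + s.D) ∧ s.Y + 2 * s.nu ≤ tF (s.a + s.D) := by
  by_contra hc
  refine h (holds_kill fun lo hi hl hh hg => hc ?_)
  simp only [List.forall_mem_cons, E.ev, Sc.x8, Sc.x10, Sc.x12, Sc.x16, Sc.x21, Nat.cast_ofNat,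
    Nat.cast_one, div_one] at hg
  obtain ⟨a0, a1, -, -, -, -, -, -, -, a2⟩ := s.nn1
  have hA : 0 ≤ s.a + s.D := by linarith
  generalize s.a + s.D = A at hg hA ⊢
  obtain ⟨g1, g2, g3, -⟩ := hg
  simp (disch := positivity) only [mx0] at g1 g2 g3
  unfold sF rF tF
  exact ⟨by linarith, by linarith, by linarith⟩

end ScC

theorem scC : S_scC := fun s h =>
  ⟨ScC.dEa1 s, ScC.dEb1 s, ScC.dEb0 s, ScC.dh1 s, ScC.dh0 s, ScC.nHalf s h⟩

theorem scK : S_scK := fun s h => ⟨ScC.kE s h, ScC.kH s h, ScC.kR s⟩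

end Pool.Agent.P.MP_dd077d_co
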