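import Pool.Agent.P.MP_dd077d_co.ScDefs

/-! Runs of the interval checker. -/

namespace Pool.Agent.P.MP_dd077d_co.St

theorem runSe0 : Icp.check ((0, 592) :: (128, 512) :: bx) lSe
    [(0, 100), (1, 70), (2, 20)] 40000000 1 40 = true := by decide +kernel

theorem runSe592 : Icp.check ((592, 848) :: (128, 512) :: bx) lSe
    [(0, 100), (1, 70), (2, 20)] 40000000 1 40 = true := by decide +kernel

end Pool.Agent.P.MP_dd077d_co.St
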