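import Pool.Agent.P.MP_dd077d_co.ScDefs

/-! Runs of the interval checker. -/

namespace Pool.Agent.P.MP_dd077d_co.St

theorem runLh0 : Icp.check ((0, 464) :: (512, 1782) :: bx) lLh
    [(1, 30), (2, 100), (21, 100)] 40000000 1 40 = true := by decide +kernel

theorem runSe1424 : Icp.check ((1424, 1782) :: (128, 512) :: bx) lSe
    [(0, 100), (1, 70), (2, 20)] 40000000 1 40 = true := by decide +kernel

theorem runTR0 : Icp.check ((0, 1782) :: (0, 128) :: bx) lTR
    [(1, 30), (21, 100)] 40000000 1 40 = true := by decide +kernel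

theorem runTe0 : Icp.check ((0, 1782) :: (0, 128) :: bx) lTe
    [(0, 140), (1, 100), (2, 7)] 40000000 1 40 = true := by decide +kernel

end Pool.Agent.P.MP_dd077d_co.St
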