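import Pool.Agent.P.MP_dd077d_co.ScDefs

/-! Runs of the interval checker. -/

namespace Pool.Agent.P.MP_dd077d_co.St

theorem runSR0 : Icp.check ((0, 1782) :: (128, 512) :: bx) lSR
    [(1, 30), (21, 100)] 40000000 1 40 = true := by decide +kernel

end Pool.Agent.P.MP_dd077d_co.St
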