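import Pool.Agent.P.MP_dd077d_co.ScDefs
import Pool.Agent.P.MP_dd077d_co.ScRun1
import Pool.Agent.P.MP_dd077d_co.ScRun2
import Pool.Agent.P.MP_dd077d_co.ScRun3
import Pool.Agent.P.MP_dd077d_co.ScRun4
import Pool.Agent.P.MP_dd077d_co.ScRun5
import Pool.Agent.P.MP_dd077d_co.ScRun6
import Pool.Agent.P.MP_dd077d_co.ScRun7

/-!
The scalar theorem from the runs of the interval checker.
-/

set_option linter.dupNamespace false

namespace Pool.Agent.P.MP_dd077d_co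

namespace ScG

open Icp St

lemma s3_lt : s3 ≤ 1782 / 1024 := by
  have h := s3_sq
  have h0 : 0 ≤ s3 := Real.sqrt_nonneg _
  nlinarith

lemma a_le (s : Sc) : s.a ≤ 1782 / 1024 := by
  have := s.top
  have := s.nn1.2.1
  have := s3_lt
  linarith

lemma D_le (s : Sc) : s.D ≤ 1782 / 1024 := by
  have := s.top
  have := s.nn1.1
  have := s3_lt
  linarith

/-- one run refutes the rules on its box -/
lemma use (hb : S_scBox) (s : Sc) {p q u v : ℤ} {l : List Step} {sp : List (ℕ × ℕ)} {t R f : ℕ}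
    (hc : check ((p, q) :: (u, v) :: bx) l sp t R f = true) (hl : allH s.x l)
    (h1 : (p : ℝ) / 1024 ≤ s.a) (h2 : s.a ≤ (q : ℝ) / 1024)
    (h3 : (u : ℝ) / 1024 ≤ s.D) (h4 : s.D ≤ (v : ℝ) / 1024) : False :=
  sound _ _ _ _ _ _ hc s.x ⟨⟨h1, h2⟩, ⟨h3, h4⟩, hb s⟩ hl

section
variable (hA : S_scA) (hB : S_scB) (hC : S_scC) (s : Sc)
include hA hB hC

lemma listsL (hL : s.RegL) :
    (killE.holds s.x → allH s.x lLe) ∧ (killH.holds s.x → allH s.x lLh) ∧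
      (killR.holds s.x → allH s.x lLR) := by
  obtain ⟨dUb, aEq, aUb, dEq, a0Eq, invE, invH, invR, invS, c1Lb, nE, nuH, sLeB, s1LeB, rhoUb, crLb,
    r3, zY, fz, pY, pM, r4a, r4b, sSs, bS, fS, zsUb, pL, -⟩ := hA s
  obtain ⟨bD, sSD, s1D, sBs, gId, wS, wS1, ssD, s1Ub, -⟩ := hB s (Or.inr hL)
  obtain ⟨dEa1, dEb1, dEb0, dh1, dh0, nHalf⟩ := hC s (Or.inr hL)
  replace pL := pL hL
  refine ⟨fun k => ?_, fun k => ?_, fun k => ?_⟩
  · exact ⟨aUb, dEq, aEq, a0Eq, invE, invH, invS, nE, nuH, pL, rhoUb, crLb, r3, zY, fz, pY, pM, r4a,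
      r4b, sSs, sSD, s1D, bS, sBs, bD, gId, wS, sSs, fS, zsUb, dEa1, dEb1, k, trivial⟩
  · exact ⟨aUb, a0Eq, aEq, invE, invH, invS, nE, nuH, pL, rhoUb, crLb, r3, zY, fz, pY, pM, r4a, r4b,
      sSs, sSD, s1D, bS, sBs, bD, gId, wS, ssD, sSs, fS, zsUb, dh1, k, trivial⟩
  · exact ⟨aUb, a0Eq, invE, invH, nE, nuH, pL, rhoUb, crLb, r3, pY, r4a, sBs, wS, wS1, ssD, sSs,
      dEa1, dEb1, k, trivial⟩

lemma listsS (hS : s.RegS) :
    (killE.holds s.x → allH s.x lSe ∧ allH s.x lTe) ∧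
      (killH.holds s.x → allH s.x lSh ∧ allH s.x lTh) ∧
      (killR.holds s.x → allH s.x lSR ∧ allH s.x lTR) := by
  obtain ⟨dUb, aEq, aUb, dEq, a0Eq, invE, invH, invR, invS, c1Lb, nE, nuH, sLeB, s1LeB, rhoUb, crLb,
    r3, zY, fz, pY, pM, r4a, r4b, sSs, bS, fS, zsUb, -, hS1⟩ := hA s
  obtain ⟨bD, sSD, s1D, sBs, gId, wS, wS1, ssD, s1Ub, hS2⟩ := hB s (Or.inl hS)
  obtain ⟨dEa1, dEb1, dEb0, dh1, dh0, nHalf⟩ := hC s (Or.inl hS)
  obtain ⟨tcp, peak⟩ := hS1 hS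
  obtain ⟨sB3, gTC⟩ := hS2 hS
  refine ⟨fun k => ⟨?_, ?_⟩, fun k => ⟨?_, ?_⟩, fun k => ⟨?_, ?_⟩⟩
  · exact ⟨dUb, aEq, aUb, invE, invH, invR, invS, c1Lb, nE, nuH, tcp, rhoUb, crLb, r3, zY, pY, pM,
      r4a, r4b, sSs, sSD, s1D, bS, sB3, sBs, bD, gTC, gId, wS, wS1, ssD, sSs, s1Ub, fS, peak, zsUb,
      dEa1, dEb1, k, trivial⟩
  · exact ⟨dUb, aEq, aUb, invE, invH, invR, c1Lb, nE, nuH, sB3, bD, sLeB, s1LeB, rhoUb, crLb, r3, zY,
      pY, sBs, bD, gTC, gId, wS, wS1, ssD, sSs, s1Ub, fS, peak, zsUb, dEb0, nHalf, k, trivial⟩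
  · exact ⟨dUb, aEq, aUb, invE, invH, invR, invS, c1Lb, nE, nuH, tcp, rhoUb, crLb, r3, zY, pY, r4a,
      sSs, sSD, s1D, bS, sB3, sBs, bD, gTC, gId, wS, wS1, ssD, sSs, s1Ub, fS, peak, zsUb, dh1, k,
      trivial⟩
  · exact ⟨dUb, aEq, aUb, invE, invH, invR, c1Lb, nE, nuH, sB3, sLeB, s1LeB, tcp, rhoUb, crLb, r3, zY,
      pY, sBs, bD, gTC, gId, wS, wS1, ssD, sSs, s1Ub, fS, peak, zsUb, dh0, k, trivial⟩
  · exact ⟨a0Eq, invE, invH, invR, nE, nuH, tcp, rhoUb, crLb, r3, pY, r4a, sSs, sB3, bD, gTC, wS, ssD,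
      sSs, peak, dEa1, dEb1, k, trivial⟩
  · exact ⟨aUb, a0Eq, dEq, invE, invH, invR, c1Lb, nE, nuH, sB3, bD, sLeB, s1LeB, rhoUb, crLb, r3, zY,
      pY, sBs, bD, gTC, gId, wS, wS1, ssD, sSs, s1Ub, fS, peak, zsUb, dEb0, nHalf, k, trivial⟩

end

section
variable (hb : S_scBox) (hA : S_scA) (hB : S_scB) (hC : S_scC) (s : Sc)
include hb hA hB hC

lemma killL (hL : s.RegL) : ¬ killE.holds s.x ∧ ¬ killH.holds s.x ∧ ¬ killR.holds s.x := by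
  obtain ⟨le, lh, lr⟩ := listsL hA hB hC s hL
  have a0 : ((0 : ℤ) : ℝ) / 1024 ≤ s.a := by simpa using s.nn1.1
  have a1 : s.a ≤ ((1782 : ℤ) : ℝ) / 1024 := by simpa using a_le s
  have d0 : ((512 : ℤ) : ℝ) / 1024 ≤ s.D := by
    have := hL.1
    push_cast
    linarith
  have d1 : s.D ≤ ((1782 : ℤ) : ℝ) / 1024 := by simpa using D_le s
  refine ⟨fun k => ?_, fun k => ?_, fun k => ?_⟩
  · rcases le_total s.a (((272 : ℤ) : ℝ) / 1024) with c1 | c1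
    · exact use hb s runLe0 (le k) a0 c1 d0 d1
    rcases le_total s.a (((640 : ℤ) : ℝ) / 1024) with c2 | c2
    · exact use hb s runLe272 (le k) c1 c2 d0 d1
    · exact use hb s runLe640 (le k) c2 a1 d0 d1
  · rcases le_total s.a (((464 : ℤ) : ℝ) / 1024) with c1 | c1
    · exact use hb s runLh0 (lh k) a0 c1 d0 d1
    · exact use hb s runLh464 (lh k) c1 a1 d0 d1
  · exact use hb s runLR0 (lr k) a0 a1 d0 d1

lemma killS (hS : s.RegS) : ¬ killE.holds s.x ∧ ¬ killH.holds s.x ∧ ¬ killR.holds s.x := by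
  obtain ⟨le, lh, lr⟩ := listsS hA hB hC s hS
  have a0 : ((0 : ℤ) : ℝ) / 1024 ≤ s.a := by simpa using s.nn1.1
  have a1 : s.a ≤ ((1782 : ℤ) : ℝ) / 1024 := by simpa using a_le s
  have d0 : ((0 : ℤ) : ℝ) / 1024 ≤ s.D := by simpa using s.nn1.2.1
  have d2 : s.D ≤ ((512 : ℤ) : ℝ) / 1024 := by
    have := hS.1
    push_cast
    linarith
  rcases le_total s.D (((128 : ℤ) : ℝ) / 1024) with d1 | d1
  · exact ⟨fun k => use hb s runTe0 (le k).2 a0 a1 d0 d1, fun k => use hb s runTh0 (lh k).2 a0 a1 d0 d1,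
      fun k => use hb s runTR0 (lr k).2 a0 a1 d0 d1⟩
  refine ⟨fun k => ?_, fun k => use hb s runSh0 (lh k).1 a0 a1 d1 d2,
    fun k => use hb s runSR0 (lr k).1 a0 a1 d1 d2⟩
  have l := (le k).1
  rcases le_total s.a (((592 : ℤ) : ℝ) / 1024) with c1 | c1
  · exact use hb s runSe0 l a0 c1 d1 d2
  rcases le_total s.a (((848 : ℤ) : ℝ) / 1024) with c2 | c2
  · exact use hb s runSe592 l c1 c2 d1 d2
  rcases le_total s.a (((992 : ℤ) : ℝ) / 1024) with c3 | c3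
  · exact use hb s runSe848 l c2 c3 d1 d2
  rcases le_total s.a (((1136 : ℤ) : ℝ) / 1024) with c4 | c4
  · exact use hb s runSe992 l c3 c4 d1 d2
  rcases le_total s.a (((1312 : ℤ) : ℝ) / 1024) with c5 | c5
  · exact use hb s runSe1136 l c4 c5 d1 d2
  rcases le_total s.a (((1424 : ℤ) : ℝ) / 1024) with c6 | c6
  · exact use hb s runSe1312 l c5 c6 d1 d2
  · exact use hb s runSe1424 l c6 a1 d1 d2

end

end ScG

theorem scal (hb : S_scBox) (hA : S_scA) (hB : S_scB) (hC : S_scC) (hK : S_scK) : S_scal := by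
  intro s hs
  obtain ⟨kE, kH, kR⟩ := hK s hs
  have h : ¬ St.killE.holds s.x ∧ ¬ St.killH.holds s.x ∧ ¬ St.killR.holds s.x := by
    rcases hs with hS | hL
    · exact ScG.killS hb hA hB hC s hS
    · exact ScG.killL hb hA hB hC s hL
  exact ⟨kE h.1, kH h.2.1, kR h.2.2⟩

end Pool.Agent.P.MP_dd077d_co
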