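import Pool.Agent.P.MP_dd077d_co.Iface3
import Pool.Agent.P.MP_dd077d_co.Tri

/-!
Two walls at distance at least three cannot both stop.
-/

set_option linter.dupNamespace false

namespace Pool.Agent.P.MP_dd077d_co

noncomputable section

open Classical

namespace Stops

/-- reflection of a finite set -/
def ng (s : Finset ℂ) : Finset ℂ := s.image (fun z => -z)

lemma mem_ng {s : Finset ℂ} {x : ℂ} : x ∈ ng s ↔ -x ∈ s := by
  unfold ng
  rw [Finset.mem_image]
  constructor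
  · rintro ⟨y, hy, rfl⟩
    simpa using hy
  · intro h
    exact ⟨-x, h, neg_neg x⟩

lemma ng_ng (s : Finset ℂ) : ng (ng s) = s := by
  ext x
  rw [mem_ng, mem_ng, neg_neg]

/-- common budget of two triangulations -/
def Rel (T T' : DT0) : Prop := ∀ F F' : Finset (Finset ℂ), (∀ s ∈ F, T.IsT s) →
  (∀ s ∈ F', T'.IsT s) → (∀ s ∈ F, ng s ∉ F') → ∑ s ∈ F, cost s + ∑ s ∈ F', cost s ≤ 2 * s3

lemma Rel.symm {T T' : DT0} (h : Rel T T') : Rel T' T := by
  intro F F' h1 h2 h3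
  have := h F' F h2 h1 fun s hs hs' => h3 _ hs' (by rwa [ng_ng])
  linarith

lemma lev {a b : ℤ} (hab : 3 ≤ a + b) : 3 * s3 ≤ s3 * a + s3 * b := by
  have : (3 : ℝ) ≤ (a : ℝ) + b := by exact_mod_cast hab
  nlinarith [s3_pos]

lemma sepL (hw : S_wb) {T T' : DT0} {a b : ℤ} (W : Wall T a) (W' : Wall T' b) (hab : 3 ≤ a + b)
    {x : ℂ} (h : x ∈ W.L) (h' : -x ∈ W'.L) : False := by
  have h1 := ((hw T a W).1 x h).2
  have h2 := ((hw T' b W').1 _ h').2
  have h3 := lev hab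
  simp only [Complex.neg_im] at h2
  linarith [s3_lb]

lemma edge {T : DT0} {s : Finset ℂ} (hs : T.IsT s) {x y : ℂ} (hx : x ∈ s) (hy : y ∈ s)
    (hne : x ≠ y) : ∃ z z', T.Tri x y z ∧ T.Tri y x z' := by
  obtain ⟨p, q, r, h, rfl⟩ := hs
  have h2 := T.rot h
  have h3 := T.rot h2
  have k : ∀ {u v w : ℂ}, T.Tri u v w → ∃ z z', T.Tri u v z ∧ T.Tri v u z' := fun h => by
    obtain ⟨w', hw'⟩ := T.rev h
    exact ⟨_, _, h, hw'⟩
  have k' : ∀ {u v w : ℂ}, T.Tri u v w → ∃ z z', T.Tri v u z ∧ T.Tri u v z' := fun h => by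
    obtain ⟨w', hw'⟩ := T.rev h
    exact ⟨_, _, hw', h⟩
  simp only [Finset.mem_insert, Finset.mem_singleton] at hx hy
  rcases hx with rfl | rfl | rfl <;> rcases hy with rfl | rfl | rfl
  exacts [absurd rfl hne, k h, k' h3, k' h, absurd rfl hne, k h2, k h3, k' h2, absurd rfl hne]

lemma piL_lb {w : ℝ} (h : 10.12 ≤ w) : 1.37 ≤ piL w := by
  unfold piL
  refine le_min (le_min ?_ ?_) (le_min (le_min ?_ ?_) ?_) <;> linarith

lemma sq_ge {h c w u : ℝ} (hc : 0 ≤ c) (hh : c ≤ h) (hw : w = u ^ 2 + h ^ 2) : c ^ 2 ≤ w := by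
  nlinarith [sq_nonneg u]

lemma crossL (hp : S_pair) (hw : S_wb) {T T' : DT0} {a b : ℤ} (W : Wall T a) (W' : Wall T' b)
    (hR : Rel T T') (hab : 3 ≤ a + b) {s : Finset ℂ} (hs : T.IsT s) {x y : ℂ} (hx : x ∈ s)
    (hy : y ∈ s) (hxL : x ∈ W.L) (hyL : -y ∈ W'.L) : False := by
  have hne : x ≠ y := by
    rintro rfl
    exact sepL hw W W' hab hxL hyL
  obtain ⟨z, z', h1, h2⟩ := edge hs hx hy hne
  have hyn : y ∉ W.L := fun h => sepL hw W W' hab h hyL
  obtain ⟨F, hF, hFA⟩ := W.bud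
  obtain ⟨F', hF', hFA'⟩ := W'.bud
  have hFL : ∀ s ∈ F, ∀ u ∈ s, u ∈ W.L := fun s hs =>
    (hw T a W).2.2.2.2.2.1 s (hF s hs).1 (hF s hs).2
  have hFL' : ∀ s ∈ F', ∀ u ∈ s, u ∈ W'.L := fun s hs =>
    (hw T' b W').2.2.2.2.2.1 s (hF' s hs).1 (hF' s hs).2
  have c1 := T.ccw h1
  have c2 := T.ccw h2
  have hd : ({x, y, z} : Finset ℂ) ≠ {y, x, z'} := by
    intro he
    have : z ∈ ({y, x, z'} : Finset ℂ) := by rw [← he]; simp
    simp only [Finset.mem_insert, Finset.mem_singleton] at this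
    obtain ⟨_, n2, n3⟩ := ne_of_cross c1
    rcases this with h | h | h
    · exact n2 h.symm
    · exact n3 h.symm
    · subst h
      unfold cross at c1 c2
      nlinarith
  have n1 : ({x, y, z} : Finset ℂ) ∉ insert ({y, x, z'} : Finset ℂ) F := by
    rw [Finset.mem_insert]
    rintro (h | h)
    · exact hd h
    · exact hyn (hFL _ h y (by simp))
  have n2 : ({y, x, z'} : Finset ℂ) ∉ F := fun h => hyn (hFL _ h y (by simp))
  have hb := hR (insert {x, y, z} (insert {y, x, z'} F)) F' (by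
      intro s hs
      simp only [Finset.mem_insert] at hs
      rcases hs with rfl | rfl | hs
      exacts [⟨_, _, _, h1, rfl⟩, ⟨_, _, _, h2, rfl⟩, (hF s hs).1]) (fun s hs => (hF' s hs).1) (by
      intro s hs hs'
      have : ∃ u ∈ s, u ∈ W.L := by
        simp only [Finset.mem_insert] at hs
        rcases hs with rfl | rfl | hs
        · exact ⟨x, by simp, hxL⟩
        · exact ⟨x, by simp, hxL⟩
        · obtain ⟨u, hu, _⟩ := (hF s hs).2
          exact ⟨u, hu, hFL s hs u hu⟩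
      obtain ⟨u, hu, huL⟩ := this
      exact sepL hw W W' hab huL (hFL' _ hs' (-u) (mem_ng.2 (by simpa using hu))))
  rw [Finset.sum_insert n1, Finset.sum_insert n2] at hb
  obtain ⟨x1, x2⟩ := (hw T a W).1 x hxL
  obtain ⟨y1, y2⟩ := (hw T' b W').1 _ hyL
  simp only [Complex.neg_im] at y1 y2
  have hl := lev hab
  obtain ⟨p1, p2, p3⟩ := hp T x y z z' h1 h2
  have h16 := (data T x y z h1).2.2.2.1
  have hw' := nsq_sub x y
  have eA : W.U.A = (W.row a).A := rfl
  have eA' : W'.U.A = (W'.row b).A := rfl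
  have l1 := s3_lb
  have l2 := s3_ub
  have q1 := p1 (le_trans (by norm_num) (sq_ge (c := 2.85) (by norm_num) (by linarith) hw'))
  have w2 : 10.12 ≤ nsq (x - y) :=
    le_trans (by norm_num) (sq_ge (c := 3.185) (by norm_num) (by linarith) hw')
  have q2 := (piL_lb w2).trans (p2 (by linarith))
  have q3 := p3 (le_trans (by norm_num) (sq_ge (c := 3.5) (by norm_num) (by linarith) hw'))
  have w4 := sq_ge (c := 4) (by norm_num) (by linarith) hw'
  linarith

/-- families of triangles that belong to the side of the wall `W` -/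
def Fam {T T' : DT0} {a b : ℤ} (W : Wall T a) (W' : Wall T' b) (G : Finset (Finset ℂ)) : Prop :=
  ∀ s ∈ G, T.IsT s ∧ ((∃ x ∈ s, x ∈ W.L) ∨
    ((∀ x ∈ s, -x ∉ W'.L) ∧ ∃ t, ∀ x ∈ s, x ≠ t → s3 * ((a : ℝ) - 1) - 0.15 ≤ x.im))

lemma fam (hw : S_wb) {T T' : DT0} {a b : ℤ} (W : Wall T a) (W' : Wall T' b)
    (hR : Rel T T') (hab : 3 ≤ a + b) (h : W.Stop1 ∨ W.Stop2) :
    ∃ G, Fam W W' G ∧ s3 < ∑ s ∈ G, cost s := by
  rcases h with ⟨G, hG, hs⟩ | ⟨G, c, c', t, hG, hs, hT, hc, hc', ht, hx, -, d1, -, d2⟩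
  · exact ⟨G, fun s h => ⟨(hG s h).1, Or.inl (hG s h).2⟩, hs⟩
  unfold Wall.dep at d1 d2
  have hl := lev hab
  have l1 := s3_lb
  have l2 := s3_ub
  have hn : ({c', c, t} : Finset ℂ) ∉ G := by
    intro h
    obtain ⟨x, hx, hxL⟩ := (hG _ h).2
    simp only [Finset.mem_insert, Finset.mem_singleton] at hx
    rcases hx with rfl | rfl | rfl
    exacts [hc' hxL, hc hxL, ht hxL]
  have hco : 0.33 ≤ cost {c', c, t} := by
    refine (side T c' c t hT).2.2.2.2 ?_
    rw [nsq_sub]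
    nlinarith [sq_nonneg (c'.im - c.im)]
  have hi : ∀ x : ℂ, s3 * ((a : ℝ) - 1) - x.im ≤ 0.15 → -x ∉ W'.L := by
    intro x hx h
    have := ((hw T' b W').1 _ h).2
    simp only [Complex.neg_im] at this
    linarith
  have htn : -t ∉ W'.L := by
    intro h
    have h1 := ((hw T' b W').1 _ h).2
    simp only [Complex.neg_im] at h1
    obtain ⟨-, -, -, -, e1, e2, -⟩ := data T c' c t hT
    rw [nsq_sub] at e1 e2
    have g1 : 2.14 ≤ c.im - t.im := by linarith
    have g2 : 2.14 ≤ c'.im - t.im := by linarith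
    have u1 : c'.re - t.re ≤ 3.4 := by nlinarith
    have u2 : t.re - c.re ≤ 3.4 := by nlinarith
    have hcr : 7.74 ≤ cross c' c t := by
      have : cross c' c t = (t.re - c.re) * (c'.im - t.im) + (c'.re - t.re) * (c.im - t.im) := by
        unfold cross; ring
      rw [this]
      nlinarith [mul_le_mul_of_nonneg_left g2 (show 0 ≤ t.re - c.re by linarith),
        mul_le_mul_of_nonneg_left g1 (show 0 ≤ c'.re - t.re by linarith)]
    have hb := hR (insert {c', c, t} G) ∅ (by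
      intro s hs
      rcases Finset.mem_insert.1 hs with rfl | hs
      exacts [⟨_, _, _, hT, rfl⟩, (hG s hs).1]) (by simp) (by simp)
    rw [Finset.sum_insert hn, Finset.sum_empty, T.cost_tri hT] at hb
    linarith
  refine ⟨insert {c', c, t} G, fun s hs => ?_, by rw [Finset.sum_insert hn]; linarith⟩
  rcases Finset.mem_insert.1 hs with rfl | hs
  · refine ⟨⟨_, _, _, hT, rfl⟩, Or.inr ⟨fun x hx => ?_, t, fun x hx hxt => ?_⟩⟩
    · simp only [Finset.mem_insert, Finset.mem_singleton] at hx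
      rcases hx with rfl | rfl | rfl
      exacts [hi _ d2, hi _ d1, htn]
    · simp only [Finset.mem_insert, Finset.mem_singleton] at hx
      rcases hx with rfl | rfl | rfl
      · linarith
      · linarith
      · exact absurd rfl hxt
  · exact ⟨(hG s hs).1, Or.inl (hG s hs).2⟩

lemma third {T : DT0} {s : Finset ℂ} (hs : T.IsT s) (t t' : ℂ) : ∃ x ∈ s, x ≠ t ∧ x ≠ t' := by
  obtain ⟨p, q, r, h, rfl⟩ := hs
  obtain ⟨n1, n2, n3⟩ := ne_of_cross (T.ccw h)
  by_contra hc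
  push Not at hc
  have h1 := hc p (by simp)
  have h2 := hc q (by simp)
  have h3 := hc r (by simp)
  by_cases e1 : p = t <;> by_cases e2 : q = t <;> by_cases e3 : r = t <;> simp_all

lemma disj (hp : S_pair) (hw : S_wb) {T T' : DT0} {a b : ℤ} (W : Wall T a) (W' : Wall T' b)
    (hR : Rel T T') (hab : 3 ≤ a + b) {G G' : Finset (Finset ℂ)} (hG : Fam W W' G)
    (hG' : Fam W' W G') : ∀ s ∈ G, ng s ∉ G' := by
  intro s hs hs'
  obtain ⟨hT, h⟩ := hG s hs
  obtain ⟨-, h'⟩ := hG' _ hs'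
  rcases h with ⟨x, hx, hxL⟩ | ⟨h1, t, h2⟩ <;> rcases h' with ⟨y, hy, hyL⟩ | ⟨h1', t', h2'⟩
  · exact crossL hp hw W W' hR hab hT hx (mem_ng.1 hy) hxL (by simpa using hyL)
  · exact h1' (-x) (mem_ng.2 (by simpa using hx)) (by simpa using hxL)
  · exact h1 (-y) (mem_ng.1 hy) (by simpa using hyL)
  · obtain ⟨x, hx, n1, n2⟩ := third hT t (-t')
    have e1 := h2 x hx n1
    have e2 := h2' (-x) (mem_ng.2 (by simpa using hx)) (fun e => n2 (by rw [← e, neg_neg]))
    have hl := lev hab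
    simp only [Complex.neg_im] at e2
    linarith [s3_lb]

end Stops

theorem stops (hp : S_pair) (hi : S_inv) (hw : S_wb) (hn : S_neg) : S_stops := by
  intro T a b W W' hB hab h h'
  have hR : Stops.Rel T T.neg := (hn T).2.1 hB
  obtain ⟨G, hG, hs⟩ := Stops.fam hw W W' hR hab h
  obtain ⟨G', hG', hs'⟩ := Stops.fam hw W' W hR.symm (by omega) h'
  have := hR G G' (fun s h => (hG s h).1) (fun s h => (hG' s h).1)
    (Stops.disj hp hw W W' hR hab hG hG')
  linarith

end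

end Pool.Agent.P.MP_dd077d_co
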