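import Pool.Agent.P.MP_dd077d_co.Iface2

/-!
Cheap strips between two rows.
-/

set_option linter.dupNamespace false

namespace Pool.Agent.P.MP_dd077d_co

namespace Tc

open Row

/-- squared length of the edge to the upper right neighbour -/
noncomputable def eR (U R : Row) (j : ℤ) : ℝ := (1 - al U R j) ^ 2 + (s3 + hr U R j) ^ 2
/-- squared length of the edge to the upper left neighbour -/
noncomputable def eL (U R : Row) (j : ℤ) : ℝ := (1 - be U R j) ^ 2 + (s3 + hl U R j) ^ 2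
/-- squared length of an edge in a row -/
noncomputable def eW (R : Row) (j : ℤ) : ℝ := (2 + R.y j) ^ 2 + R.T j ^ 2

lemma edge {a h c : ℝ} (h1 : g a ≤ h) (h2 : 0 ≤ c) (h3 : c ≤ Rp a) :
    0 ≤ s3 + h ∧ 0 ≤ c * (h - g a) ∧ 4 + 2 * (c * (h - g a)) ≤ (1 - a) ^ 2 + (s3 + h) ^ 2 := by
  have r0 : 0 ≤ Rp a := Real.sqrt_nonneg _
  have r1 : 4 - (1 - a) ^ 2 ≤ Rp a ^ 2 := by
    rw [Rp, Real.sq_sqrt']; exact le_max_left _ _
  unfold g at *
  have r2 : 0 ≤ h - (Rp a - s3) := by linarith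
  refine ⟨by linarith, mul_nonneg h2 r2, ?_⟩
  have r3 := mul_le_mul_of_nonneg_right h3 r2
  nlinarith [sq_nonneg (h - (Rp a - s3))]

lemma tri (hh : S_heron) {X1 H1 X2 H2 w : ℝ} (hw : w = (X1 + X2) ^ 2 + (H2 - H1) ^ 2)
    (hc : -s3 < (X1 * H2 + X2 * H1) / 2 - s3) (u1 : 4 ≤ X1 ^ 2 + H1 ^ 2) (u2 : X1 ^ 2 + H1 ^ 2 ≤ 7)
    (v1 : 4 ≤ X2 ^ 2 + H2 ^ 2) (v2 : X2 ^ 2 + H2 ^ 2 ≤ 7) (w1 : 4 ≤ w) (w2 : w ≤ 9) :
    (X1 ^ 2 + H1 ^ 2 - 4) / 12 + (X2 ^ 2 + H2 ^ 2 - 4) / 12 + min ((w - 4) / 12) (1 / 4) ≤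
      (X1 * H2 + X2 * H1) / 2 - s3 :=
  (hh _ _ w (X1 * H2 + X2 * H1) (by linarith) (by rw [hw]; ring) u1 v1 w1).2.1 u2 v2 w2

lemma yR (U R : Row) (j : ℤ) : 2 + R.y j = (1 - al U R j) + (1 - be U R (j + 1)) := by
  simp only [y, al, be, add_sub_cancel_right]; ring
lemma tR (U R : Row) (j : ℤ) : R.T j = (s3 + hl U R (j + 1)) - (s3 + hr U R j) := by
  simp only [T, hl, hr, add_sub_cancel_right]; ring
lemma yU (U R : Row) (j : ℤ) : 2 + U.y (j - 1) = (1 - al U R j) + (1 - be U R j) := by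
  simp only [y, al, be, sub_add_cancel]; ring
lemma tU (U R : Row) (j : ℤ) : U.T (j - 1) = (s3 + hl U R j) - (s3 + hr U R j) := by
  simp only [T, hl, hr, sub_add_cancel]; ring

lemma minw {w y t : ℝ} (hw : w = (2 + y) ^ 2 + t ^ 2) (h4 : 4 ≤ w) : max y 0 / 3 ≤ (w - 4) / 12 := by
  rcases le_total y 0 with h | h
  · rw [max_eq_right h]; linarith
  · rw [max_eq_left h, hw]; nlinarith [sq_nonneg t, sq_nonneg y]

lemma three (R : Row) (j : ℤ) : R.w (j - 1) + R.w j + R.w (j + 1) ≤ R.Y := by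
  obtain ⟨n, hn⟩ := R.fin
  have hs : Summable fun i => max (R.w i) 0 := by
    refine summable_of_ne_finset_zero (s := Finset.Icc (-(n : ℤ)) n) fun i hi => ?_
    rw [(hn i ?_).2, max_self]
    rw [Finset.mem_Icc, ← abs_le, not_le] at hi
    exact hi.le
  have h1 := hs.sum_le_tsum {j - 1, j, j + 1} fun i _ => le_max_right _ _
  rw [Finset.sum_insert (by simp; omega), Finset.sum_pair (by omega)] at h1
  have a1 := le_max_left (R.w (j - 1)) 0
  have a2 := le_max_left (R.w j) 0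
  have a3 := le_max_left (R.w (j + 1)) 0
  unfold Y
  linarith

/-- the data of a cheap strip -/
structure Dat (U R : Row) : Prop where
  r0 : ∀ j, 0 ≤ s3 + hr U R j
  l0 : ∀ j, 0 ≤ s3 + hl U R j
  r4 : ∀ j, 4 ≤ eR U R j
  l4 : ∀ j, 4 ≤ eL U R j
  cu : ∀ j, (eR U R j - 4) / 12 + (eL U R (j + 1) - 4) / 12 + min ((eW R j - 4) / 12) (1 / 4) ≤
    cU U R j
  cd : ∀ j, (eR U R j - 4) / 12 + (eL U R j - 4) / 12 + min ((eW U (j - 1) - 4) / 12) (1 / 4) ≤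
    cD U R j
  m0 : ∀ j, 0 ≤ min ((eW R j - 4) / 12) (1 / 4) ∧ 0 ≤ min ((eW U j - 4) / 12) (1 / 4)

lemma dat (hh : S_heron) {U R : Row} (hU : U.Sep) (hR : R.Sep) (hc : Cross U R) (hs : RegS U R)
    (h8 : ∀ i, (2 + U.y i) ^ 2 + U.T i ^ 2 ≤ 8) : Dat U R := by
  have a1 := fun j => edge (hc j).1 le_rfl (Real.sqrt_nonneg _)
  have a2 := fun j => edge (hc j).2 le_rfl (Real.sqrt_nonneg _)
  have r4 : ∀ j, 4 ≤ eR U R j := fun j => by have := (a1 j).2.2; unfold eR; linarith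
  have l4 : ∀ j, 4 ≤ eL U R j := fun j => by have := (a2 j).2.2; unfold eL; linarith
  refine ⟨fun j => (a1 j).1, fun j => (a2 j).1, r4, l4, fun j => ?_, fun j => ?_, fun j => ⟨?_, ?_⟩⟩
  · exact tri hh (by rw [eW, yR U R, tR U R]) (hs j).2.2.2.1 (r4 j) (hs j).1 (l4 (j + 1))
      (hs (j + 1)).2.1 (hR j).2 (hs j).2.2.1
  · exact tri hh (by rw [eW, yU U R, tU U R]) (hs j).2.2.2.2 (r4 j) (hs j).1 (l4 j)
      (hs j).2.1 (hU (j - 1)).2 ((h8 _).trans (by norm_num))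
  · have := (hR j).2
    exact le_min (by unfold eW; linarith) (by norm_num)
  · have := (hU j).2
    exact le_min (by unfold eW; linarith) (by norm_num)

variable {U R : Row}

lemma Dat.cu0 (d : Dat U R) (j : ℤ) : 0 ≤ cU U R j := by
  linarith [d.cu j, d.r4 j, d.l4 (j + 1), (d.m0 j).1]

lemma Dat.cd0 (d : Dat U R) (j : ℤ) : 0 ≤ cD U R j := by
  linarith [d.cd j, d.r4 j, d.l4 j, (d.m0 (j - 1)).2]

lemma Dat.peak (d : Dat U R) (hid : S_id) (j : ℤ) :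
    cU U R (j - 1) + cU U R j + cD U R j ≤ R.A - U.A := by
  obtain ⟨h1, h2, h3⟩ := hid U R
  have a1 := h1.sum_le_tsum {j - 1, j} fun i _ => d.cu0 i
  have a2 := h2.sum_le_tsum {j} fun i _ => d.cd0 i
  rw [Finset.sum_pair (by omega)] at a1
  rw [Finset.sum_singleton] at a2
  rw [h3, h1.tsum_add h2]
  linarith

lemma Dat.D0 (d : Dat U R) (hid : S_id) : 0 ≤ R.A - U.A := by
  linarith [d.peak hid 0, d.cu0 (0 - 1), d.cu0 0, d.cd0 0]

lemma part1 (hid : S_id) (hrb : S_rb) (d : Dat U R) (hU : U.Sep) :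
    R.P ≤ min U.rho (U.Y / 2) - s3 + Real.sqrt (3 + 3 * (R.A - U.A) + U.rho ^ 2 / 4) := by
  obtain ⟨⟨u1, u2, -⟩, ⟨-, u3, -⟩, -, -, -, ⟨-, -, u4, -⟩, -, u5, -, -, -, -, u6⟩ := hrb U
  have D0 := d.D0 hid
  rcases (hrb R).1.2.2 with h | ⟨j, h⟩
  · have a1 : 0 ≤ min U.rho (U.Y / 2) := le_min (by unfold rho; linarith) (by linarith)
    have a2 : s3 ≤ Real.sqrt (3 + 3 * (R.A - U.A) + U.rho ^ 2 / 4) :=
      Real.sqrt_le_sqrt (by nlinarith [sq_nonneg U.rho])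
    linarith
  have a1 : (U.w (j - 1) + U.w j) / 2 ≤ min U.rho (U.Y / 2) := by
    refine le_min ?_ ?_
    · unfold rho; linarith [u1 (j - 1), u1 j]
    · linarith [u5 (j - 1) j (by omega), le_max_left (U.w (j - 1)) 0, le_max_left (U.w j) 0]
  set m := min U.rho (U.Y / 2)
  rcases le_total (s3 + R.P - m) 0 with h0 | h0
  · linarith [Real.sqrt_nonneg (3 + 3 * (R.A - U.A) + U.rho ^ 2 / 4)]
  have a2 : eL U R j + eR U R j ≤ 8 + 6 * (R.A - U.A) := by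
    have b1 := d.cu (j - 1)
    rw [sub_add_cancel] at b1
    linarith [d.peak hid j, d.cu j, d.cd j, d.r4 (j - 1), d.l4 (j + 1), (d.m0 j).1,
      (d.m0 (j - 1)).1, (d.m0 (j - 1)).2]
  have a3 : 4 - U.rho ^ 2 ≤ ((1 - al U R j) + (1 - be U R j)) ^ 2 := by
    rw [← yU]
    have b1 := (hU (j - 1)).2
    have b2 := sq_le_sq' (abs_le.1 (u6 (j - 1))).1 (abs_le.1 (u6 (j - 1))).2
    linarith
  have a4 : (2 * (s3 + R.P - m)) ^ 2 ≤ ((s3 + hr U R j) + (s3 + hl U R j)) ^ 2 := by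
    refine pow_le_pow_left₀ (by linarith) ?_ 2
    simp only [hr, hl]
    linarith
  have a5 : s3 + R.P - m ≤ Real.sqrt (3 + 3 * (R.A - U.A) + U.rho ^ 2 / 4) := by
    refine Real.le_sqrt_of_sq_le ?_
    unfold eL eR at a2
    nlinarith [sq_nonneg ((1 - al U R j) - (1 - be U R j)),
      sq_nonneg ((s3 + hr U R j) - (s3 + hl U R j))]
  linarith

lemma rm_le {a B : ℝ} (h : |a| ≤ B) : Rm B ≤ Rp a := by
  obtain ⟨h1, h2⟩ := abs_le.1 h
  refine Real.sqrt_le_sqrt ?_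
  have := sq_le_sq' (a := 1 - a) (b := 1 + B) (by linarith) (by linarith)
  linarith

lemma part2 (hid : S_id) (hrb : S_rb) (d : Dat U R) (hU : U.Sep) (hR : R.Sep) (hc : Cross U R)
    (h : (R.S ≤ 3 / 4 ∧ U.S ≤ 3 / 4) ∨ R.A - U.A ≤ 63 / 256) :
    0 ≤ G U R * Rm (R.S + U.S) ∧ R.S + U.S + G U R * Rm (R.S + U.S) ≤ 3 * (R.A - U.A) := by
  obtain ⟨-, -, -, -, -, -, -, -, -, -, u1, u2, -⟩ := hrb U
  obtain ⟨-, -, -, -, -, -, -, -, -, -, r1, r2, -⟩ := hrb R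
  set c := Rm (R.S + U.S)
  have c0 : 0 ≤ c := Real.sqrt_nonneg _
  have a1 := fun j => (edge (hc j).1 c0 (rm_le (B := R.S + U.S)
    ((abs_sub _ _).trans (add_le_add (r2 j) (u2 j))))).2
  have a2 := fun j => (edge (hc j).2 c0 (rm_le (B := R.S + U.S)
    ((abs_sub _ _).trans ((add_le_add (u2 (j - 1)) (r2 j)).trans_eq (add_comm _ _))))).2
  have b1 : ∀ j, max (R.y j) 0 / 3 ≤ min ((eW R j - 4) / 12) (1 / 4) := fun j => by
    have m1 := minw (w := eW R j) rfl (hR j).2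
    rcases h with h | h
    · refine le_min m1 ?_
      have := max_le ((le_abs_self _).trans (r1 (j + 1) j)) ((abs_nonneg _).trans (r2 j))
      unfold y
      linarith [h.1]
    · rcases min_cases ((eW R j - 4) / 12) (1 / 4) with e | e
      · rw [e.1]; exact m1
      · linarith [e.1, d.cu j, d.r4 j, d.l4 (j + 1), d.peak hid j, d.cu0 (j - 1), d.cd0 j]
  have b2 : ∀ j, max (U.y (j - 1)) 0 / 3 ≤ min ((eW U (j - 1) - 4) / 12) (1 / 4) := fun j => by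
    have m1 := minw (w := eW U (j - 1)) rfl (hU (j - 1)).2
    rcases h with h | h
    · refine le_min m1 ?_
      have := max_le ((le_abs_self _).trans (u1 (j - 1 + 1) (j - 1))) ((abs_nonneg _).trans (u2 j))
      unfold y
      linarith [h.2]
    · rcases min_cases ((eW U (j - 1) - 4) / 12) (1 / 4) with e | e
      · rw [e.1]; exact m1
      · linarith [e.1, d.cd j, d.r4 j, d.l4 j, d.peak hid j, d.cu0 (j - 1), d.cu0 j]
  have e1 : ∀ j, max (R.y j) 0 + c * (hr U R j - g (al U R j)) / 2 +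
      c * (hl U R (j + 1) - g (be U R (j + 1))) / 2 ≤ 3 * cU U R j := fun j => by
    have := d.cu j
    unfold eR eL at this
    linarith [b1 j, (a1 j).2, (a2 (j + 1)).2]
  have e2 : ∀ j, max (U.y (j - 1)) 0 + c * (hr U R j - g (al U R j)) / 2 +
      c * (hl U R j - g (be U R j)) / 2 ≤ 3 * cD U R j := fun j => by
    have := d.cd j
    unfold eR eL at this
    linarith [b2 j, (a1 j).2, (a2 j).2]
  obtain ⟨s1, s2, s12⟩ := hid U R
  have sA : Summable fun j => max (R.y j) 0 :=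
    (s1.mul_left 3).of_nonneg_of_le (fun j => le_max_right _ _)
      fun j => by linarith [e1 j, (a1 j).1, (a2 (j + 1)).1]
  have sB : Summable fun j => max (U.y (j - 1)) 0 :=
    (s2.mul_left 3).of_nonneg_of_le (fun j => le_max_right _ _)
      fun j => by linarith [e2 j, (a1 j).1, (a2 j).1]
  have sC : Summable fun j => c * (hr U R j - g (al U R j)) :=
    (s2.mul_left 6).of_nonneg_of_le (fun j => (a1 j).1)
      fun j => by linarith [e2 j, (a2 j).1, le_max_right (U.y (j - 1)) 0]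
  have sD : Summable fun j => c * (hl U R j - g (be U R j)) :=
    (s2.mul_left 6).of_nonneg_of_le (fun j => (a2 j).1)
      fun j => by linarith [e2 j, (a1 j).1, le_max_right (U.y (j - 1)) 0]
  have hB : HasSum (fun j => max (U.y (j - 1)) 0) U.S := by
    have e := (Equiv.subRight (1 : ℤ)).tsum_eq fun j => max (U.y j) 0
    have := sB.hasSum
    simp only [Equiv.subRight_apply] at e
    rwa [e] at this
  have hD := ((Equiv.addRight (1 : ℤ)).hasSum_iff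
    (f := fun j => c * (hl U R j - g (be U R j)))).2 sD.hasSum
  have eG : G U R * c = ∑' j, c * (hr U R j - g (al U R j)) +
      ∑' j, c * (hl U R j - g (be U R j)) := by
    rw [← sC.tsum_add sD, G, mul_comm, ← tsum_mul_left]
    exact tsum_congr fun j => by ring
  have g1 : 0 ≤ ∑' j, c * (hr U R j - g (al U R j)) := tsum_nonneg fun j => (a1 j).1
  have g2 : 0 ≤ ∑' j, c * (hl U R j - g (be U R j)) := tsum_nonneg fun j => (a2 j).1
  have f1 := hasSum_le e1 ((sA.hasSum.add (sC.hasSum.div_const 2)).add (hD.div_const 2))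
    (s1.hasSum.mul_left 3)
  have f2 := hasSum_le e2 ((hB.add (sC.hasSum.div_const 2)).add (sD.hasSum.div_const 2))
    (s2.hasSum.mul_left 3)
  rw [s12, s1.tsum_add s2, eG]
  refine ⟨by linarith, ?_⟩
  have eS : R.S = ∑' j, max (R.y j) 0 := rfl
  linarith

lemma part3 (hp : S_peak) (hid : S_id) (hrb : S_rb) (d : Dat U R) (hU : U.Sep) (hR : R.Sep)
    (hs : RegS U R) (h8 : ∀ i, (2 + U.y i) ^ 2 + U.T i ^ 2 ≤ 8) {l : ℝ} (l0 : 0 ≤ l)
    (l8 : l ^ 2 ≤ 8) (hl' : ∀ i, (2 + R.y i) ^ 2 + R.T i ^ 2 ≤ l ^ 2) :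
    R.P ≤ (R.Y + 100 / 81 * (l * (R.A - U.A))) / 3 := by
  obtain ⟨⟨r1, -, r2⟩, -, -, -, -, ⟨-, -, r3, -⟩, -⟩ := hrb R
  rcases r2 with h | ⟨j, h⟩
  · have := mul_nonneg l0 (d.D0 hid)
    linarith
  have y1 := yR U R j
  have t1 := tR U R j
  have y2 := yU U R j
  have t2 := tU U R j
  have y3 := yR U R (j - 1)
  have t3 := tR U R (j - 1)
  rw [sub_add_cancel] at y3 t3
  have w1 : R.T j ≤ 0 := by unfold T; linarith [r1 (j + 1)]
  have w3 : 0 ≤ R.T (j - 1) := by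
    unfold T; rw [sub_add_cancel]; linarith [r1 (j - 1)]
  have c1 : cross 0 ⟨2 + R.y j, -R.T j⟩ ⟨1 - al U R j, s3 + hr U R j⟩ / 2 - s3 = cU U R j := by
    simp only [cross, cU, Complex.zero_re, Complex.zero_im, y1, t1]; ring
  have c2 : cross 0 ⟨1 - al U R j, s3 + hr U R j⟩ ⟨-(1 - be U R j), s3 + hl U R j⟩ / 2 - s3 =
      cD U R j := by
    simp only [cross, cD, Complex.zero_re, Complex.zero_im]; ring
  have c3 : cross 0 ⟨-(1 - be U R j), s3 + hl U R j⟩ ⟨-(2 + R.y (j - 1)), R.T (j - 1)⟩ / 2 - s3 =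
      cU U R (j - 1) := by
    simp only [cross, cU, Complex.zero_re, Complex.zero_im, y3, t3, sub_add_cancel]; ring
  have n0 : nsq ⟨2 + R.y j, -R.T j⟩ = (2 + R.y j) ^ 2 + R.T j ^ 2 := by
    simp only [nsq]; ring
  have n1 : nsq ⟨1 - al U R j, s3 + hr U R j⟩ = eR U R j := rfl
  have n2 : nsq ⟨-(1 - be U R j), s3 + hl U R j⟩ = eL U R j := by
    simp only [nsq, eL]; ring
  have n3 : nsq ⟨-(2 + R.y (j - 1)), R.T (j - 1)⟩ = (2 + R.y (j - 1)) ^ 2 + R.T (j - 1) ^ 2 := by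
    simp only [nsq]; ring
  have n4 : nsq ((⟨2 + R.y j, -R.T j⟩ : ℂ) - ⟨1 - al U R j, s3 + hr U R j⟩) = eL U R (j + 1) := by
    simp only [nsq_sub, eL, y1, t1]; ring
  have n5 : nsq ((⟨1 - al U R j, s3 + hr U R j⟩ : ℂ) - ⟨-(1 - be U R j), s3 + hl U R j⟩) =
      (2 + U.y (j - 1)) ^ 2 + U.T (j - 1) ^ 2 := by
    simp only [nsq_sub, y2, t2]; ring
  have n6 : nsq ((⟨-(1 - be U R j), s3 + hl U R j⟩ : ℂ) - ⟨-(2 + R.y (j - 1)), R.T (j - 1)⟩) =
      eR U R (j - 1) := by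
    simp only [nsq_sub, eR, y3, t3]; ring
  have r8 : ∀ j, 4 ≤ eR U R j ∧ eR U R j ≤ 8 := fun j =>
    ⟨d.r4 j, le_trans (hs j).1 (by norm_num)⟩
  have l8' : ∀ j, 4 ≤ eL U R j ∧ eL U R j ≤ 8 := fun j =>
    ⟨d.l4 j, le_trans (hs j).2.1 (by norm_num)⟩
  have key := hp ⟨2 + R.y j, -R.T j⟩ ⟨1 - al U R j, s3 + hr U R j⟩
    ⟨-(1 - be U R j), s3 + hl U R j⟩ ⟨-(2 + R.y (j - 1)), R.T (j - 1)⟩ l (neg_nonneg.2 w1)
    (d.r0 j) (d.l0 j) w3 (by linarith [(hs j).2.2.2.1]) (by linarith [(hs j).2.2.2.2])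
    (by linarith [(hs (j - 1)).2.2.2.1]) (by rw [n0]; exact ⟨(hR j).2, (hl' j).trans l8⟩)
    (by rw [n1]; exact r8 j) (by rw [n2]; exact l8' j)
    (by rw [n3]; exact ⟨(hR _).2, (hl' _).trans l8⟩) (by rw [n4]; exact l8' _)
    (by rw [n5]; exact ⟨(hU _).2, h8 _⟩) (by rw [n6]; exact r8 _) l0 (by rw [n0]; exact hl' _)
    (by rw [n3]; exact hl' _)
  rw [c1, c2, c3] at key
  have k1 := mul_le_mul_of_nonneg_left (d.peak hid j) l0
  have k2 := three R j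
  simp only [T, sub_add_cancel] at key
  linarith

end Tc

theorem tc (hh : S_heron) (hp : S_peak) (hid : S_id) (hg : S_g) (hrb : S_rb) : S_tc := by
  have _ := hg
  intro U R hU hR hc hs _ h8
  have d := Tc.dat hh hU hR hc hs h8
  refine ⟨Tc.part1 hid hrb d hU, fun h => ?_, fun l l0 l8 hl =>
    Tc.part3 hp hid hrb d hU hR hs h8 l0 l8 hl⟩
  obtain ⟨h1, h2⟩ := Tc.part2 hid hrb d hU hR hc h
  exact ⟨by linarith, fun _ => h2⟩

end Pool.Agent.P.MP_dd077d_co
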