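import Pool.Agent.P.MP_dd077d_co.Iface3
import Pool.Agent.P.MP_dd077d_co.Far
import Pool.Agent.P.MP_dd077d_co.Count
import Pool.Agent.P.MP_dd077d_co.Budget

/-!
Basic facts about walls: heights, the first wall, and the reflected triangulation.
-/

set_option linter.dupNamespace false

namespace Pool.Agent.P.MP_dd077d_co

noncomputable section

open Classical

namespace Wb

lemma pt_re (R : Row) (r j : ℤ) : (pt R r j).re = 2 * (j : ℝ) + (r : ℝ) + R.φ j := rfl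
lemma pt_im (R : Row) (r j : ℤ) : (pt R r j).im = s3 * (r : ℝ) - R.w j := rfl

lemma height (hi : S_inv) (hrb : S_rb) {R : Row} (h : R.Inv) (j : ℤ) :
    R.w j ≤ 1.172 ∧ R.w j ≤ 0.012 + 0.67 * R.A ∧ -R.w j ≤ 0.205 := by
  obtain ⟨h1, h2, h3, -⟩ := hi R h
  obtain ⟨⟨a1, -, -⟩, ⟨b1, b2, -⟩, -, -, -, -, ⟨-, -, -, -, -, c, -⟩, -⟩ := hrb R
  have e : R.rho = R.P + R.nu := rfl
  have := a1 j
  have := b1 j
  refine ⟨?_, ?_, ?_⟩ <;> linarith

lemma re_mono (hi : S_inv) {R : Row} (h : R.Inv) (r : ℤ) :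
    StrictMono fun j : ℤ => (pt R r j).re := by
  refine strictMono_int_of_lt_succ fun j => ?_
  have h1 := ((hi R h).2.2.2.2.2.2.1 j).1
  have e : R.y j = R.φ (j + 1) - R.φ j := rfl
  simp only [pt_re]
  push_cast
  linarith

lemma s3_le {r r' : ℤ} (h : r ≤ r') : s3 * (r : ℝ) ≤ s3 * (r' : ℝ) :=
  mul_le_mul_of_nonneg_left (by exact_mod_cast h) s3_pos.le

lemma sep_rows (hi : S_inv) (hrb : S_rb) {R R' : Row} (h : R.Inv) (h' : R'.Inv) {r r' : ℤ}
    (hr : r < r') (j j' : ℤ) : pt R r j ≠ pt R' r' j' := by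
  intro e
  have e' := congrArg Complex.im e
  rw [pt_im, pt_im] at e'
  have h1 := (height hi hrb h j).2.2
  have h2 := (height hi hrb h' j').1
  have h3 : s3 * ((r + 1 : ℤ) : ℝ) ≤ s3 * (r' : ℝ) := s3_le hr
  push_cast at h3
  have := s3_lb
  linarith

lemma pt_zero {R : Row} (h : ∀ i, R.φ i = 0 ∧ R.w i = 0) (r j : ℤ) : pt R r j = site r j := by
  apply Complex.ext
  · rw [pt_re, site_re, (h j).1, add_zero]
  · rw [pt_im, site_im, (h j).2, sub_zero]

/-- the undisturbed row -/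
def Z : Row := ⟨fun _ => 0, fun _ => 0, ⟨0, fun _ _ => ⟨rfl, rfl⟩⟩⟩

lemma Z_phi (i : ℤ) : Z.φ i = 0 := rfl
lemma Z_w (i : ℤ) : Z.w i = 0 := rfl

lemma pt_Z (r j : ℤ) : pt Z r j = site r j := pt_zero (fun _ => ⟨rfl, rfl⟩) r j

lemma Z_A : Z.A = 0 := by simp [Row.A, Z_w]

lemma Z_inv (hg : S_g) : Z.Inv := by
  have g0 : g 0 = 0 := hg.1
  have h4 : Real.sqrt 4 = 2 := by
    rw [show (4 : ℝ) = 2 ^ 2 by norm_num]; exact Real.sqrt_sq (by norm_num)
  have hE : Z.E = 0 := by simp [Row.E, Row.ah, Row.bh, Z_w, Z_phi, g0]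
  have hH : Z.eta = 0 := by simp [Row.eta, Row.ah, Row.bh, Z_w, Z_phi, g0]
  have hS : Z.Ss = 0 := by simp [Row.Ss, Row.T, Z_w, h4]
  have hP : Z.P = 0 := by simp [Row.P, Z_w]
  have hN : Z.nu = 0 := by simp [Row.nu, Z_w]
  have hY : Z.Y = 0 := by simp [Row.Y, Z_w]
  have hR : Z.rho = 0 := by rw [Row.rho, hP, hN, add_zero]
  refine ⟨fun i => ?_, Z_A.ge, ?_, ?_, ?_, ?_, ?_, ?_⟩
  · simp only [Row.y, Row.T, Z_w, Z_phi]; norm_num
  · rw [Z_A]; exact s3_pos.le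
  · rw [hE, Z_A]; norm_num [eF]
  · rw [hH, Z_A]; norm_num [hF]
  · rw [hS, Z_A]; norm_num [sF]
  · rw [hR, Z_A]; norm_num [rF]
  · rw [hY, hN, Z_A]; norm_num [tF]

lemma mem_LZ {a : ℤ} {z : ℂ} : z ∈ Lset (fun _ => Z) a ↔ ∃ r j : ℤ, a ≤ r ∧ z = site r j := by
  simp only [Lset, Set.mem_ofPred_eq, pt_Z]

lemma site_LZ {a r : ℤ} (h : a ≤ r) (j : ℤ) : site r j ∈ Lset (fun _ => Z) a :=
  mem_LZ.2 ⟨r, j, h, rfl⟩

lemma not_box {M : ℝ} {r : ℤ} (h : M < r) (j : ℤ) : ¬ inBox M (site r j) := by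
  rw [Count.box_site]
  intro h'
  have := le_abs_self (r : ℝ)
  linarith [h'.1]

lemma box_neg {N : ℝ} {z : ℂ} (h : inBox N (-z)) : inBox N z := by
  obtain ⟨h1, h2⟩ := h
  simp only [Complex.neg_re, Complex.neg_im] at h1 h2
  constructor
  · rwa [neg_div, abs_neg] at h1
  · have e : (-z.re - -z.im / s3) / 2 = -((z.re - z.im / s3) / 2) := by ring
    rwa [e, abs_neg] at h2

lemma neg_site (r j : ℤ) : -site r j = site (-r) (-j) := by
  apply Complex.ext
  · simp only [Complex.neg_re, site_re]; push_cast; ring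
  · simp only [Complex.neg_im, site_im]; push_cast; ring

lemma lam_neg {z : ℂ} : -z ∈ Lam ↔ z ∈ Lam := by
  constructor
  · rintro ⟨r, j, h⟩
    exact ⟨-r, -j, by rw [← neg_site, ← h, neg_neg]⟩
  · rintro ⟨r, j, h⟩
    exact ⟨-r, -j, by rw [← neg_site, h]⟩

lemma nsq_neg (p q : ℂ) : nsq (-p - -q) = nsq (p - q) := by
  rw [nsq_sub, nsq_sub]; simp only [Complex.neg_re, Complex.neg_im]; ring

lemma cost_neg (s : Finset ℂ) : cost (s.image fun z => -z) = cost s := by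
  have hinj : Set.InjOn (fun z : ℂ => -z) s := fun _ _ _ _ h => neg_injective h
  unfold cost
  simp only [Finset.sum_image hinj, nsq_neg]

lemma image_neg_neg (s : Finset ℂ) : (s.image fun z => -z).image (fun z => -z) = s := by
  ext x
  simp only [Finset.mem_image]
  constructor
  · rintro ⟨_, ⟨y, hy, rfl⟩, rfl⟩
    rwa [neg_neg]
  · intro hx
    exact ⟨-x, ⟨x, hx, rfl⟩, neg_neg x⟩

lemma isT_neg {T : DT0} {s : Finset ℂ} (h : T.neg.IsT s) : T.IsT (s.image fun z => -z) := by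
  obtain ⟨x, y, z, h, rfl⟩ := h
  refine ⟨-x, -y, -z, h, ?_⟩
  ext a
  simp only [Finset.mem_image, Finset.mem_insert, Finset.mem_singleton]
  constructor
  · rintro ⟨b, rfl | rfl | rfl, rfl⟩
    exacts [Or.inl rfl, Or.inr (Or.inl rfl), Or.inr (Or.inr rfl)]
  · rintro (rfl | rfl | rfl)
    exacts [⟨x, Or.inl rfl, rfl⟩, ⟨y, Or.inr (Or.inl rfl), rfl⟩, ⟨z, Or.inr (Or.inr rfl), rfl⟩]

end Wb

open Wb in
theorem wb (hi : S_inv) (hrb : S_rb) : S_wb := by
  intro T a W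
  have hinj : ∀ r j r' j', a ≤ r → a ≤ r' → pt (W.row r) r j = pt (W.row r') r' j' →
      r = r' ∧ j = j' := by
    intro r j r' j' hr hr' e
    rcases lt_trichotomy r r' with h | h | h
    · exact absurd e (sep_rows hi hrb (W.inv r hr).1 (W.inv r' hr').1 h j j')
    · subst h
      exact ⟨rfl, (re_mono hi (W.inv r hr).1 r).injective (congrArg Complex.re e)⟩
    · exact absurd e.symm (sep_rows hi hrb (W.inv r' hr').1 (W.inv r hr).1 h j' j)
  have hsub : W.L1 ⊆ W.L := by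
    rintro z ⟨r, j, hr, rfl⟩
    exact ⟨r, j, by omega, rfl⟩
  refine ⟨?_, hinj, fun i => ⟨⟨a, i, le_rfl, rfl⟩, ?_, W.mem a i le_rfl⟩, hsub, ?_, ?_, ?_⟩
  · rintro z ⟨r, j, hr, rfl⟩
    obtain ⟨h1, h2, -⟩ := height hi hrb (W.inv r hr).1 j
    have h3 : (W.row r).A ≤ W.U.A := (W.inv r hr).2
    have h4 := s3_le hr
    rw [pt_im]
    constructor <;> linarith
  · rintro ⟨r, j, hr, e⟩
    have := (hinj a i r j le_rfl (by omega) e).1
    omega
  · rintro z ⟨r, j, hr, rfl⟩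
    rcases eq_or_lt_of_le hr with h | h
    · subst h
      exact Or.inr ⟨j, rfl⟩
    · exact Or.inl ⟨r, j, h, rfl⟩
  · rintro s ⟨x, y, z, h, rfl⟩ ⟨p, hp, hpL⟩ q hq
    simp only [Finset.mem_insert, Finset.mem_singleton] at hp hq
    have key : x ∈ W.L ∧ y ∈ W.L ∧ z ∈ W.L := by
      rcases hp with rfl | rfl | rfl
      · obtain ⟨h1, h2, -⟩ := W.clo _ _ _ h hpL
        exact ⟨hsub hpL, h1, h2⟩
      · obtain ⟨h1, h2, -⟩ := W.clo _ _ _ (T.rot h) hpL
        exact ⟨h2, hsub hpL, h1⟩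
      · obtain ⟨h1, h2, -⟩ := W.clo _ _ _ (T.rot (T.rot h)) hpL
        exact ⟨h1, h2, hsub hpL⟩
    rcases hq with rfl | rfl | rfl
    exacts [key.1, key.2.1, key.2.2]
  · rintro h0 z ⟨r, j, hr, rfl⟩
    have h1 := W.inv r hr
    have h2 : (W.row r).A ≤ W.U.A := h1.2
    have h3 : (W.row r).A = 0 := le_antisymm (h0 ▸ h2) h1.1.2.1
    exact ⟨r, j, pt_zero ((hi _ h1.1).2.2.2.2.2.2.2.2.2 h3) r j⟩

open Wb in
theorem w0 (hg : S_g) : S_w0 := by
  intro T N a hN hF ha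
  have hmem : ∀ r j : ℤ, a ≤ r → site r j ∈ T.pts := by
    intro r j hr
    have : (a : ℝ) ≤ r := by exact_mod_cast hr
    exact (hF _ (not_box (by linarith) j)).2 ⟨r, j, rfl⟩
  refine ⟨⟨fun _ => Z, fun r j hr => ?_, ⟨0, fun _ _ _ _ => ⟨rfl, rfl⟩⟩,
    fun _ _ => ⟨Z_inv hg, le_rfl⟩, ?_, fun i => ?_, ⟨∅, by simp, ?_⟩, ?_⟩⟩
  · rw [pt_Z]; exact hmem r j hr
  · intro x y z h hx
    obtain ⟨r, j, hr, rfl⟩ := mem_LZ.1 hx
    have hr' : (a : ℝ) + 1 ≤ r := by exact_mod_cast hr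
    simp only [pt_Z]
    rcases far T N hF r j (not_box (by linarith) j) y z h with ⟨rfl, rfl⟩ | ⟨rfl, rfl⟩ |
      ⟨rfl, rfl⟩ | ⟨rfl, rfl⟩ | ⟨rfl, rfl⟩ | ⟨rfl, rfl⟩ <;>
    refine ⟨site_LZ (by omega) _, site_LZ (by omega) _, fun i k e1 e2 => ?_⟩ <;>
    obtain ⟨b1, b2⟩ := site_inj e1 <;> obtain ⟨b3, b4⟩ := site_inj e2 <;> omega
  · refine ⟨site (a + 1) i, site_LZ le_rfl i, ?_⟩
    simp only [pt_Z]
    refine T.equi _ (hmem _ _ le_rfl) _ (hmem _ _ le_rfl) _ (hmem _ _ (by omega)) ?_ ?_ ?_ ?_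
    · rw [Far.nsq_site]; push_cast; ring
    · rw [Far.nsq_site]; push_cast; ring
    · rw [Far.nsq_site]; push_cast; ring
    · rw [Far.cross_site]; push_cast
      have := s3_pos
      nlinarith
  · rw [Finset.sum_empty]; exact Z_A.le
  · intro z hz hL
    by_contra hlt
    rw [not_le] at hlt
    have hp := s3_pos
    have h1 : (a : ℝ) < z.im / s3 := by
      rw [lt_div_iff₀ hp]; linarith
    have hb : ¬ inBox N z := fun h => by
      have := le_abs_self (z.im / s3)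
      linarith [h.1]
    obtain ⟨r, j, rfl⟩ := (hF z hb).1 hz
    refine hL (site_LZ ?_ j)
    rw [site_im, mul_div_cancel_left₀ _ hp.ne'] at h1
    exact_mod_cast h1.le

open Wb in
theorem negT : S_neg := by
  intro T
  refine ⟨fun N hF z hz => ?_, fun hB F F' hF hF' hd => ?_, fun h => BudgetA.farLat h⟩
  · exact (hF (-z) fun h => hz (box_neg h)).trans lam_neg
  · have hinj : Set.InjOn (fun s : Finset ℂ => s.image fun z => -z) F' := by
      intro s _ t _ e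
      have e' := congrArg (fun u : Finset ℂ => u.image fun z => -z) e
      simpa only [image_neg_neg] using e'
    have hdis : Disjoint F (F'.image fun s : Finset ℂ => s.image fun z => -z) := by
      rw [Finset.disjoint_left]
      intro s hs hs'
      obtain ⟨t, ht, rfl⟩ := Finset.mem_image.1 hs'
      refine hd _ hs ?_
      rw [image_neg_neg]; exact ht
    have h := hB (F ∪ F'.image fun s : Finset ℂ => s.image fun z => -z) (by
      intro s hs
      rcases Finset.mem_union.1 hs with h | h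
      · exact hF s h
      · obtain ⟨t, ht, rfl⟩ := Finset.mem_image.1 h
        exact isT_neg (hF' t ht))
    rw [Finset.sum_union hdis, Finset.sum_image hinj] at h
    simpa only [cost_neg] using h

end

end Pool.Agent.P.MP_dd077d_co
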