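import Pool.Agent.P.MP_dd077d_co.Adv
import Pool.Agent.P.MP_dd077d_co.Alt
import Pool.Agent.P.MP_dd077d_co.Ang
import Pool.Agent.P.MP_dd077d_co.Area
import Pool.Agent.P.MP_dd077d_co.At
import Pool.Agent.P.MP_dd077d_co.Budget
import Pool.Agent.P.MP_dd077d_co.Ch
import Pool.Agent.P.MP_dd077d_co.Count
import Pool.Agent.P.MP_dd077d_co.ExDT
import Pool.Agent.P.MP_dd077d_co.F0
import Pool.Agent.P.MP_dd077d_co.Far
import Pool.Agent.P.MP_dd077d_co.Gl
import Pool.Agent.P.MP_dd077d_co.Half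
import Pool.Agent.P.MP_dd077d_co.Hgf
import Pool.Agent.P.MP_dd077d_co.Idn
import Pool.Agent.P.MP_dd077d_co.Inv
import Pool.Agent.P.MP_dd077d_co.Last
import Pool.Agent.P.MP_dd077d_co.Low
import Pool.Agent.P.MP_dd077d_co.Met
import Pool.Agent.P.MP_dd077d_co.Mid
import Pool.Agent.P.MP_dd077d_co.New
import Pool.Agent.P.MP_dd077d_co.Nm
import Pool.Agent.P.MP_dd077d_co.One
import Pool.Agent.P.MP_dd077d_co.Orb
import Pool.Agent.P.MP_dd077d_co.Pair
import Pool.Agent.P.MP_dd077d_co.Pv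
import Pool.Agent.P.MP_dd077d_co.PvLoc
import Pool.Agent.P.MP_dd077d_co.R3
import Pool.Agent.P.MP_dd077d_co.R4
import Pool.Agent.P.MP_dd077d_co.Rb
import Pool.Agent.P.MP_dd077d_co.Rec
import Pool.Agent.P.MP_dd077d_co.Red
import Pool.Agent.P.MP_dd077d_co.Rw
import Pool.Agent.P.MP_dd077d_co.Sa
import Pool.Agent.P.MP_dd077d_co.Sb
import Pool.Agent.P.MP_dd077d_co.ScA
import Pool.Agent.P.MP_dd077d_co.ScB
import Pool.Agent.P.MP_dd077d_co.ScC
import Pool.Agent.P.MP_dd077d_co.ScG
import Pool.Agent.P.MP_dd077d_co.Step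
import Pool.Agent.P.MP_dd077d_co.Stops
import Pool.Agent.P.MP_dd077d_co.Tc
import Pool.Agent.P.MP_dd077d_co.Tri
import Pool.Agent.P.MP_dd077d_co.Wb

/-! Assembly of the proof. -/

namespace Pool.Agent.P.MP_dd077d_co

theorem target : S_target := by
  have hg := gl
  have hrb := rb hg
  have hp := pair data
  have h3 := r3 hrb
  have hi := inv hrb h3
  have hw := wb hi hrb
  have hm := met hg hi hrb hw
  have hnm := nm hp hi hrb hw hm
  have hs := sb hw
  have ha := atT hp hi hm hs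
  have hrow := rowT hp hrb hm hs ha
  have halt := alt hi hrb hm hs ha
  have hmid := mid hg hi hw hm one
  have hstep := step hrb h3 (r4 hg hrb) (rwb hg hrb) (idn hrb) (tc heron (peak heron) idt hg hrb)
    (recE hg hrb) hi (scal scBox scA scB scC scK)
  have hf0 := f0 hg hi hnm (orb hw) (sa hs) halt hrow hw negT hmid
  have hadv := adv hnm (orb hw) hs (sa hs) halt (low hp hi poly hrb hm hs) hrow (newW hi hw hm hs)
    hstep (ch hg) (pv pvloc) hw hrb
  exact target_of exDT (budget_of (area_of far) (count_of far) side)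
    (mainT negT (w0 hg) hadv (stops hp hi hw negT)
      (finT hg hw hm hmid hf0 (last hg hrb idt hi poly vt (half hg))
        (last0 hg hrb idt hi poly vt (half hg)) hi hrb))

end Pool.Agent.P.MP_dd077d_co
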