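import Mathlib

/-!
Solidity of the triangular packing with one disc removed: basic definitions.
Points are complex numbers, the lattice has spacing 2, rows are horizontal at heights `s3 * r`.
-/

namespace Pool.Agent.P.MP_dd077d_co

noncomputable section

/-- the square root of three -/
def s3 : ℝ := Real.sqrt 3

/-- squared length -/
def nsq (z : ℂ) : ℝ := z.re ^ 2 + z.im ^ 2

/-- twice the signed area of the triangle `x y z` -/
def cross (x y z : ℂ) : ℝ := (y.re - x.re) * (z.im - x.im) - (y.im - x.im) * (z.re - x.re)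

/-- scalar product of `y - x` and `z - x` -/
def dot (x y z : ℂ) : ℝ := (y.re - x.re) * (z.re - x.re) + (y.im - x.im) * (z.im - x.im)

/-- the lattice point number `j` of row `r` -/
def site (r j : ℤ) : ℂ := ⟨2 * (j : ℝ) + (r : ℝ), s3 * (r : ℝ)⟩

/-- the triangular lattice with spacing 2 -/
def Lam : Set ℂ := {z | ∃ r j : ℤ, z = site r j}

/-- area of a three point set (Heron) minus the area of the equilateral triangle of side 2 -/
def cost (s : Finset ℂ) : ℝ :=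
  Real.sqrt (((∑ x ∈ s, ∑ y ∈ s, nsq (x - y)) / 2) ^ 2 - ∑ x ∈ s, ∑ y ∈ s, nsq (x - y) ^ 2) / 4 - s3

/-- A Delaunay triangulation of a saturated packing `pts`; `Tri x y z` are the positively
oriented triangles. -/
structure DT0 where
  pts : Set ℂ
  Tri : ℂ → ℂ → ℂ → Prop
  sep : ∀ x ∈ pts, ∀ y ∈ pts, x ≠ y → 4 ≤ nsq (x - y)
  mem : ∀ {x y z}, Tri x y z → x ∈ pts ∧ y ∈ pts ∧ z ∈ pts
  rot : ∀ {x y z}, Tri x y z → Tri y z x
  ccw : ∀ {x y z}, Tri x y z → 0 < cross x y z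
  circ : ∀ {x y z}, Tri x y z → ∃ o : ℂ, nsq (y - o) = nsq (x - o) ∧ nsq (z - o) = nsq (x - o) ∧
    nsq (x - o) < 4 ∧ ∀ p ∈ pts, nsq (x - o) ≤ nsq (p - o)
  uniq : ∀ {x y z z'}, Tri x y z → Tri x y z' → z = z'
  rev : ∀ {x y z}, Tri x y z → ∃ w, Tri y x w
  vert : ∀ x ∈ pts, ∃ y z, Tri x y z
  equi : ∀ x ∈ pts, ∀ y ∈ pts, ∀ z ∈ pts, nsq (x - y) = 4 → nsq (y - z) = 4 → nsq (z - x) = 4 →
    0 < cross x y z → Tri x y z

/-- `s` is the vertex set of a triangle -/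
def DT0.IsT (T : DT0) (s : Finset ℂ) : Prop := ∃ x y z, T.Tri x y z ∧ s = {x, y, z}

/-- `P` is a finite modification of the lattice that lost at most one point -/
def Near (P : Set ℂ) : Prop :=
  (P \ Lam).Finite ∧ (Lam \ P).Finite ∧ (Lam \ P).ncard ≤ (P \ Lam).ncard + 1

/-- total cost of any finite family of triangles is at most `2 * s3` -/
def DT0.Budget (T : DT0) : Prop :=
  ∀ F : Finset (Finset ℂ), (∀ s ∈ F, T.IsT s) → ∑ s ∈ F, cost s ≤ 2 * s3

/-- `z` lies in the lattice parallelogram of size `N` -/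
def inBox (N : ℝ) (z : ℂ) : Prop := |z.im / s3| ≤ N ∧ |(z.re - z.im / s3) / 2| ≤ N

/-- outside the parallelogram of size `N`, `P` is the lattice -/
def FarLat (P : Set ℂ) (N : ℝ) : Prop := ∀ z, ¬ inBox N z → (z ∈ P ↔ z ∈ Lam)

/-- ordered triangles with all vertices in the parallelogram of size `N` -/
def DT0.boxT (T : DT0) (N : ℝ) : Set (ℂ × ℂ × ℂ) :=
  {t | T.Tri t.1 t.2.1 t.2.2 ∧ inBox N t.1 ∧ inBox N t.2.1 ∧ inBox N t.2.2}

/-! ### Statements of the Delaunay layer -/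

/-- existence of a Delaunay triangulation of a saturated packing -/
def S_exDT : Prop := ∀ P : Set ℂ, (∀ x ∈ P, ∀ y ∈ P, x ≠ y → 4 ≤ nsq (x - y)) →
  (∀ z : ℂ, ∃ p ∈ P, nsq (p - z) < 4) → ∃ T : DT0, T.pts = P

/-- a triangle at a far lattice point is one of the six lattice triangles -/
def S_far : Prop := ∀ (T : DT0) (N : ℝ), FarLat T.pts N → ∀ r j : ℤ, ¬ inBox (N + 5) (site r j) →
  ∀ y z, T.Tri (site r j) y z →
    (y = site r (j + 1) ∧ z = site (r + 1) j) ∨ (y = site (r + 1) j ∧ z = site (r + 1) (j - 1)) ∨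
    (y = site (r + 1) (j - 1) ∧ z = site r (j - 1)) ∨ (y = site r (j - 1) ∧ z = site (r - 1) j) ∨
    (y = site (r - 1) j ∧ z = site (r - 1) (j + 1)) ∨ (y = site (r - 1) (j + 1) ∧ z = site r (j + 1))

/-- total area of the triangles in a large parallelogram -/
def S_area : Prop := ∀ (T : DT0) (N : ℝ) (n : ℕ), 0 ≤ N → FarLat T.pts N → N + 20 ≤ n →
  ∀ h : (T.boxT n).Finite,
    ∑ t ∈ h.toFinset, cross t.1 t.2.1 t.2.2 = 48 * s3 * (n : ℝ) ^ 2

/-- number of triangles in a large parallelogram -/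
def S_count : Prop := ∀ (T : DT0) (N : ℝ) (n : ℕ), 0 ≤ N → FarLat T.pts N → Near T.pts → N + 20 ≤ n →
  (T.boxT n).Finite ∧ 24 * n ^ 2 ≤ (T.boxT n).ncard + 6

/-- the budget -/
def S_budget : Prop := ∀ T : DT0, Near T.pts → T.Budget

/-- the main theorem in the language of triangulations -/
def S_main : Prop := ∀ T : DT0, Near T.pts → T.Budget → T.pts ⊆ Lam

/-- the frozen statement -/
def S_target : Prop :=
    ∀ P : Set ℂ,
      P = {z : ℂ | ∃ a b : ℤ,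
              z = 2 * ((a : ℂ) + (b : ℂ) * ((1 / 2 : ℂ) + ((Real.sqrt 3 / 2 : ℝ) : ℂ) * Complex.I))
              ∧ z ≠ 0} →
      ∀ g : ℂ → ℂ,
        Set.Finite {z : ℂ | z ∈ P ∧ g z ≠ z} →
        (∀ z ∈ P, ∀ w ∈ P, z ≠ w → 2 ≤ dist (g z) (g w)) →
        ∃ e : ℂ ≃ᵢ ℂ, e '' P = g '' P

/-! ### Basic lemmas -/

lemma s3_sq : s3 ^ 2 = 3 := by unfold s3; exact Real.sq_sqrt (by norm_num)
lemma s3_mul : s3 * s3 = 3 := by have := s3_sq; nlinarith
lemma s3_pos : 0 < s3 := by unfold s3; positivity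
lemma s3_lb : 1.73205 < s3 := by
  unfold s3; exact Real.lt_sqrt_of_sq_lt (by norm_num)
lemma s3_ub : s3 < 1.73206 := by
  unfold s3; exact (Real.sqrt_lt' (by norm_num)).2 (by norm_num)

@[simp] lemma site_re (r j : ℤ) : (site r j).re = 2 * (j : ℝ) + r := rfl
@[simp] lemma site_im (r j : ℤ) : (site r j).im = s3 * r := rfl

lemma nsq_sub (x y : ℂ) : nsq (x - y) = (x.re - y.re) ^ 2 + (x.im - y.im) ^ 2 := by
  simp [nsq]
lemma nsq_comm (x y : ℂ) : nsq (x - y) = nsq (y - x) := by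
  rw [nsq_sub, nsq_sub]; ring
lemma nsq_nonneg (z : ℂ) : 0 ≤ nsq z := by unfold nsq; positivity
lemma cross_rot (x y z : ℂ) : cross y z x = cross x y z := by unfold cross; ring

lemma site_inj {r j r' j' : ℤ} (h : site r j = site r' j') : r = r' ∧ j = j' := by
  have h1 := congrArg Complex.re h
  have h2 := congrArg Complex.im h
  simp only [site_re, site_im] at h1 h2
  have hr : (r : ℝ) = r' := mul_left_cancel₀ s3_pos.ne' h2
  have hj : (j : ℝ) = j' := by linarith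
  exact ⟨by exact_mod_cast hr, by exact_mod_cast hj⟩

lemma ne_of_cross {x y z : ℂ} (h : 0 < cross x y z) : x ≠ y ∧ y ≠ z ∧ x ≠ z := by
  refine ⟨?_, ?_, ?_⟩ <;> (rintro rfl; unfold cross at h; nlinarith)

lemma cost_eq {x y z : ℂ} (h : 0 < cross x y z) : cost {x, y, z} = cross x y z / 2 - s3 := by
  obtain ⟨h1, h2, h3⟩ := ne_of_cross h
  unfold cost
  have hx : x ∉ ({y, z} : Finset ℂ) := by simp [h1, h3]
  have hy : y ∉ ({z} : Finset ℂ) := by simp [h2]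
  simp only [Finset.sum_insert hx, Finset.sum_insert hy, Finset.sum_singleton, nsq_sub]
  have : (((x.re - x.re) ^ 2 + (x.im - x.im) ^ 2 + ((x.re - y.re) ^ 2 + (x.im - y.im) ^ 2 +
      ((x.re - z.re) ^ 2 + (x.im - z.im) ^ 2)) + ((y.re - x.re) ^ 2 + (y.im - x.im) ^ 2 +
      ((y.re - y.re) ^ 2 + (y.im - y.im) ^ 2 + ((y.re - z.re) ^ 2 + (y.im - z.im) ^ 2)) +
      ((z.re - x.re) ^ 2 + (z.im - x.im) ^ 2 + ((z.re - y.re) ^ 2 + (z.im - y.im) ^ 2 +
      ((z.re - z.re) ^ 2 + (z.im - z.im) ^ 2))))) / 2) ^ 2 -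
      (((x.re - x.re) ^ 2 + (x.im - x.im) ^ 2) ^ 2 + (((x.re - y.re) ^ 2 + (x.im - y.im) ^ 2) ^ 2 +
      ((x.re - z.re) ^ 2 + (x.im - z.im) ^ 2) ^ 2) + (((y.re - x.re) ^ 2 + (y.im - x.im) ^ 2) ^ 2 +
      (((y.re - y.re) ^ 2 + (y.im - y.im) ^ 2) ^ 2 + ((y.re - z.re) ^ 2 + (y.im - z.im) ^ 2) ^ 2) +
      (((z.re - x.re) ^ 2 + (z.im - x.im) ^ 2) ^ 2 + (((z.re - y.re) ^ 2 + (z.im - y.im) ^ 2) ^ 2 +
      ((z.re - z.re) ^ 2 + (z.im - z.im) ^ 2) ^ 2)))) = (2 * cross x y z) ^ 2 := by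
    unfold cross; ring
  rw [this, Real.sqrt_sq (by linarith)]
  ring

lemma DT0.cost_tri (T : DT0) {x y z : ℂ} (h : T.Tri x y z) :
    cost {x, y, z} = cross x y z / 2 - s3 := cost_eq (T.ccw h)

end

end Pool.Agent.P.MP_dd077d_co
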