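import Pool.Agent.P.MP_dd077d_co.Iface2
import Pool.Agent.P.MP_dd077d_co.Tri

/-!
The triangle above a vacancy and the upper half of the hexagon around it.
-/

set_option linter.dupNamespace false

namespace Pool.Agent.P.MP_dd077d_co

noncomputable section

namespace Half

open Icp

lemma g_neg (x : ℝ) : g (-x) = Rm x - s3 := by
  unfold g Rp Rm; rw [sub_neg_eq_add]

lemma g_sub (a b : ℝ) : g (a - b) = Rm (b - a) - s3 := by
  rw [← g_neg, neg_sub]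

lemma Rm_nonneg (x : ℝ) : 0 ≤ Rm x := Real.sqrt_nonneg _

lemma Rm_le (x : ℝ) : Rm x ≤ 2 := by
  unfold Rm
  exact Real.sqrt_le_iff.2 ⟨by norm_num, by nlinarith [sq_nonneg (1 + x)]⟩

lemma Rm_sq (x : ℝ) : 4 - (1 + x) ^ 2 ≤ Rm x ^ 2 := by
  unfold Rm
  rcases le_total 0 (4 - (1 + x) ^ 2) with h | h
  · rw [Real.sq_sqrt h]
  · exact h.trans (sq_nonneg _)

lemma Rp_sq (x : ℝ) : 4 - (1 - x) ^ 2 ≤ Rp x ^ 2 := by
  unfold Rp
  rcases le_total 0 (4 - (1 - x) ^ 2) with h | h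
  · rw [Real.sq_sqrt h]
  · exact h.trans (sq_nonneg _)

lemma Rp_nonneg (x : ℝ) : 0 ≤ Rp x := Real.sqrt_nonneg _

lemma s3_le_Rp {x : ℝ} (h0 : 0 ≤ x) (h1 : x ≤ 1) : s3 ≤ Rp x := by
  unfold s3 Rp
  exact Real.sqrt_le_sqrt (by nlinarith)

lemma Rm_le_s3 {x : ℝ} (h0 : 0 ≤ x) : Rm x ≤ s3 := by
  unfold s3 Rm
  exact Real.sqrt_le_sqrt (by nlinarith)

/-- the squared form of a bound for the groove profile -/
lemma sq_of_g {x c : ℝ} (h : g x ≤ c) : 4 - (1 - x) ^ 2 ≤ (s3 + c) ^ 2 := by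
  have h1 : Rp x ≤ s3 + c := by unfold g at h; linarith
  exact (Rp_sq x).trans (pow_le_pow_left₀ (Rp_nonneg x) h1 2)

/-- the rules for the checker -/
def rules : List Step :=
  [⟨2, 4, (.sub (.add (.c 27 200) (.k (.sqrt (.c 3 1)))) (.sqrt (.sub (.c 4 1) (.sq (.sub (.c 1 1)
    (.abs (.v 0))))))), []⟩,
  ⟨2, 5, (.sub (.add (.c 27 200) (.k (.sqrt (.c 3 1)))) (.sqrt (.sub (.c 4 1) (.sq (.sub (.c 1 1)
    (.abs (.v 1))))))), []⟩,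
  ⟨2, 6, (.sqrt (.sub (.c 4 1) (.sq (.add (.c 1 1) (.sub (.v 2) (.v 0)))))), []⟩,
  ⟨2, 7, (.sqrt (.sub (.c 4 1) (.sq (.add (.c 1 1) (.sub (.v 1) (.v 3)))))), []⟩,
  ⟨0, 8, (.sub (.add (.add (.v 4) (.c 27 200)) (.sqrt (.sub (.c 4 1) (.sq (.add (.c 1 1)
    (.abs (.v 3))))))) (.v 6)), []⟩,
  ⟨1, 3, (.sub (.v 2) (.sub (.c 2 1) (.sqrt (.sub (.c 4 1) (.sq (.v 8)))))), []⟩,
  ⟨0, 7, (.add (.add (.sqrt (.sub (.c 4 1) (.sq (.add (.c 1 1) (.abs (.v 3)))))) (.v 5))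
    (.c 27 200)), []⟩,
  ⟨3, 0, (.c 0 1), [(.sub (.sub (.mp (.c 6 1) (.k (.sqrt (.c 3 1)))) (.c 7 5)) (.sub (.add
    (.mp (.v 6) (.sub (.add (.c 3 1) (.v 3)) (.v 0))) (.mp (.v 7) (.sub (.add (.c 3 1) (.v 1))
    (.v 2)))) (.mp (.add (.v 4) (.v 5)) (.abs (.sub (.sub (.v 2) (.v 0)) (.sub (.v 1)
    (.v 3)))))))]⟩]

lemma run : check [(-297, 297), (-297, 297), (-779, 779), (-779, 779), (0, 1024), (0, 1024),
    (0, 2048), (0, 2048), (0, 1201)] rules [(0, 2), (1, 1), (2, 2), (3, 1)] 40000000 1 40 = true := by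
  decide +kernel

lemma core (tL tR f1 f2 mL mR T : ℝ) (h1 : |tL| ≤ 0.29) (h2 : |tR| ≤ 0.29) (h3 : |f1| ≤ 0.76)
    (h4 : |f2| ≤ 0.76) (e1 : mL = 27 / 200 + s3 - Rp |tL|) (e2 : mR = 27 / 200 + s3 - Rp |tR|)
    (p1 : 0 ≤ mL) (p2 : 0 ≤ mR) (t0 : 0 ≤ T) (t1 : T ≤ 1.172)
    (c1 : T ≤ mL + 27 / 200 + Rm |f2| - Rm (f1 - tL))
    (c2 : f1 - (2 - Real.sqrt (4 - T ^ 2)) ≤ f2)
    (c3 : Rm (tR - f2) ≤ Rm |f2| + mR + 27 / 200) :
    6 * s3 - 7 / 5 ≤ Rm (f1 - tL) * (3 + f2 - tL) + Rm (tR - f2) * (3 + tR - f1) -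
      (mL + mR) * |f1 - tL - (tR - f2)| := by
  by_contra hc
  have q1 : mL ≤ 1 := by
    have := s3_le_Rp (abs_nonneg tL) (by linarith); linarith
  have q2 : mR ≤ 1 := by
    have := s3_le_Rp (abs_nonneg tR) (by linarith); linarith
  have a1 := Rm_nonneg (f1 - tL)
  have a2 := Rm_nonneg (tR - f2)
  have b1 := Rm_le (f1 - tL)
  have b2 := Rm_le (tR - f2)
  obtain ⟨h1a, h1b⟩ := abs_le.1 h1
  obtain ⟨h2a, h2b⟩ := abs_le.1 h2
  obtain ⟨h3a, h3b⟩ := abs_le.1 h3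
  obtain ⟨h4a, h4b⟩ := abs_le.1 h4
  refine sound _ _ _ _ _ _ run (env [tL, tR, f1, f2, mL, mR, Rm (f1 - tL), Rm (tR - f2), T]) ?_
    ⟨holds_eq fun lo hi _ _ _ => ?_, holds_eq fun lo hi _ _ _ => ?_,
      holds_eq fun lo hi _ _ _ => ?_, holds_eq fun lo hi _ _ _ => ?_,
      holds_ub fun lo hi _ _ _ => ?_, holds_lb fun lo hi _ _ _ => ?_,
      holds_ub fun lo hi _ _ _ => ?_, holds_kill fun lo hi _ _ h => hc ?_, trivial⟩
  · simp only [inB, env, List.getD_cons_zero, List.getD_cons_succ]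
    push_cast
    refine ⟨⟨?_, ?_⟩, ⟨?_, ?_⟩, ⟨?_, ?_⟩, ⟨?_, ?_⟩, ⟨?_, ?_⟩, ⟨?_, ?_⟩, ⟨?_, ?_⟩, ⟨?_, ?_⟩,
      ⟨?_, ?_⟩, trivial⟩ <;> linarith
  · simpa [E.ev, env, s3, Rp] using e1
  · simpa [E.ev, env, s3, Rp] using e2
  · simp [E.ev, env, Rm]
  · simp [E.ev, env, Rm]
  · simpa [E.ev, env, Rm] using c1
  · simpa [E.ev, env] using c2
  · simpa [E.ev, env, Rm] using c3
  · have h5 := h _ List.mem_cons_self
    simp only [E.ev, env, List.getD_cons_zero, List.getD_cons_succ] at h5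
    have m1 : max (Real.sqrt (((3 : ℕ) : ℝ) / ((1 : ℕ) : ℝ))) 0 = s3 := by
      rw [max_eq_left (Real.sqrt_nonneg _)]; simp [s3]
    rw [m1, max_eq_left a1, max_eq_left a2, max_eq_left (abs_nonneg (f1 - tL - (tR - f2))),
      max_eq_left (add_nonneg p1 p2)] at h5
    push_cast at h5
    rw [max_eq_left (by norm_num), max_eq_left (by linarith), max_eq_left (by linarith)] at h5
    linarith

lemma t_small {t c : ℝ} (h1 : |t| ≤ 1) (h : g |t| ≤ c) (h0 : 0 ≤ c) (hc : c ≤ 0.135) :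
    |t| ≤ 0.29 := by
  have h2 := sq_of_g h
  have h3 := s3_ub
  have h4 := s3_pos
  have h5 : (s3 + c) ^ 2 ≤ 1.86706 ^ 2 := pow_le_pow_left₀ (by linarith) (by linarith) 2
  by_contra h6
  push Not at h6
  nlinarith

lemma sqrt_le_of {d T : ℝ} (h0 : 0 < d) (h : 4 ≤ d ^ 2 + T ^ 2) : Real.sqrt (4 - T ^ 2) ≤ d :=
  Real.sqrt_le_iff.2 ⟨h0.le, by linarith⟩

/-- the first part when the right point is higher -/
lemma part1 (η tL tR WL WR f1 f2 w1 w2 : ℝ) (h0 : 0 ≤ η) (htL : |tL| ≤ 1) (htR : |tR| ≤ 1)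
    (hL : |WL| ≤ η - g |tL|) (hR : |WR| ≤ η - g |tR|) (hf1 : |f1| ≤ 0.76) (hf2 : |f2| ≤ 0.76)
    (hw2 : -η ≤ w2 + g (-|f2|)) (hT : w1 - w2 ≤ 1.172) (hT0 : w2 ≤ w1)
    (k1 : g (tL - f1) ≤ WL - w1) (k2 : g (f2 - tR) ≤ WR - w2) (d0 : 0 < 2 + (f2 - f1))
    (d1 : 4 ≤ (2 + (f2 - f1)) ^ 2 + (w2 - w1) ^ 2) (he : η ≤ 0.135) :
    3 * s3 - 0.7 ≤ ((s3 + WL - w1) * (3 + f2 - tL) + (s3 + WR - w2) * (3 + tR - f1) +
      (WR - WL) * ((f1 - tL) - (tR - f2))) / 2 := by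
  have t1 := t_small htL (by linarith [abs_nonneg WL] : g |tL| ≤ η) h0 he
  have t2 := t_small htR (by linarith [abs_nonneg WR] : g |tR| ≤ η) h0 he
  rw [g_sub] at k1 k2
  rw [g_neg] at hw2
  unfold g at hL hR
  have aL := abs_nonneg WL
  have aR := abs_nonneg WR
  have bL := le_abs_self WL
  have bR := le_abs_self WR
  have d2 : Real.sqrt (4 - (w1 - w2) ^ 2) ≤ 2 + (f2 - f1) := sqrt_le_of d0 (by linarith)
  have hc := core tL tR f1 f2 (27 / 200 + s3 - Rp |tL|) (27 / 200 + s3 - Rp |tR|) (w1 - w2) t1 t2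
    hf1 hf2 rfl rfl (by linarith) (by linarith) (by linarith) hT (by linarith) (by linarith)
    (by linarith)
  obtain ⟨t1a, t1b⟩ := abs_le.1 t1
  obtain ⟨t2a, t2b⟩ := abs_le.1 t2
  obtain ⟨f1a, f1b⟩ := abs_le.1 hf1
  obtain ⟨f2a, f2b⟩ := abs_le.1 hf2
  have m1 : Rm (f1 - tL) * (3 + f2 - tL) ≤ (s3 + WL - w1) * (3 + f2 - tL) :=
    mul_le_mul_of_nonneg_right (by linarith) (by linarith)
  have m2 : Rm (tR - f2) * (3 + tR - f1) ≤ (s3 + WR - w2) * (3 + tR - f1) :=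
    mul_le_mul_of_nonneg_right (by linarith) (by linarith)
  have m3 : |(WR - WL) * ((f1 - tL) - (tR - f2))| ≤
      (27 / 200 + s3 - Rp |tL| + (27 / 200 + s3 - Rp |tR|)) * |f1 - tL - (tR - f2)| := by
    rw [abs_mul]
    refine mul_le_mul_of_nonneg_right ?_ (abs_nonneg _)
    have := abs_sub WR WL
    linarith
  have m4 := neg_abs_le ((WR - WL) * ((f1 - tL) - (tR - f2)))
  linarith

/-- a quadratic lower bound -/
lemma Rm_ge {x : ℝ} (h0 : -1 ≤ x) (h1 : x ≤ 0.4) : s3 - s3 * x / 3 - x ^ 2 / 2 ≤ Rm x := by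
  unfold Rm
  refine Real.le_sqrt_of_sq_le ?_
  have h3 := s3_lb
  have h4 := s3_mul
  have e : (s3 - s3 * x / 3 - x ^ 2 / 2) ^ 2 =
      s3 * s3 * (1 - x / 3) ^ 2 - x ^ 2 * (s3 * (1 - x / 3) - x ^ 2 / 4) := by ring
  have h5 : 4 / 3 ≤ s3 * (1 - x / 3) - x ^ 2 / 4 := by nlinarith
  have h6 := mul_le_mul_of_nonneg_left h5 (sq_nonneg x)
  rw [e, h4]
  nlinarith

lemma t_tiny {t η : ℝ} (h0 : 0 ≤ t) (h1 : t ≤ 1) (h : g t ≤ η) (he0 : 0 ≤ η) (he : η ≤ 0.028) :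
    t ≤ 2 * η := by
  have h2 := sq_of_g h
  have h3 := s3_ub
  have h4 := s3_mul
  have h5 : t * (2 - t) ≤ 3.5 * η := by nlinarith
  have h6 : t ≤ 0.1 := by nlinarith
  nlinarith

lemma x_low {x η : ℝ} (h1 : -0.4 ≤ x) (h : Rm x ≤ s3 + 2 * η) (he0 : 0 ≤ η) (he : η ≤ 0.028) :
    -(4 * η) ≤ x := by
  have h2 := (Rm_sq x).trans (pow_le_pow_left₀ (Rm_nonneg x) h 2)
  have h3 := s3_ub
  have h4 := s3_mul
  have h5 : -x * (2 + x) ≤ 7.05 * η := by nlinarith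
  by_contra h6
  push Not at h6
  have h7 : -0.125 ≤ x := by nlinarith
  nlinarith

lemma k_low {x X : ℝ} (h0 : -1 ≤ x) (h1 : x ≤ X) (h2 : 0 ≤ X) (h3 : X ≤ 0.4) :
    s3 - 0.8 * X ≤ Rm x := by
  have h4 := Rm_ge h0 (h1.trans h3)
  have h5 := s3_ub
  have h6 := s3_lb
  rcases le_total 0 x with h | h <;> nlinarith

lemma abs_mul_le {a b A B : ℝ} (ha : |a| ≤ A) (hb : |b| ≤ B) : |a * b| ≤ A * B := by
  rw [abs_mul]; exact mul_le_mul ha hb (abs_nonneg _) ((abs_nonneg _).trans ha)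

lemma y_le {y T : ℝ} (d0 : y ≤ 0.7) (d1 : 4 ≤ (2 - y) ^ 2 + T ^ 2) (hT : T ^ 2 ≤ 0.15) :
    y ≤ 0.26 * T ^ 2 := by
  by_contra h
  push Not at h
  have y0 : 0 ≤ y := by nlinarith [sq_nonneg T]
  have y2 : y ≤ 0.05 := by nlinarith
  nlinarith

lemma sq_le_mul {a c : ℝ} (h0 : 0 ≤ a) (h : a ≤ c) : a ^ 2 ≤ c * a := by nlinarith

lemma D_le {x η : ℝ} (he : η ≤ 0.028) (hx : |x| ≤ 9 * η) (hx2 : x ^ 2 ≤ (9 * η) ^ 2) :
    |s3 * x / 3 + x ^ 2 / 2| ≤ 7 * η := by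
  obtain ⟨u, v⟩ := abs_le.1 hx
  have h0 : 0 ≤ η := by linarith
  have h1 := abs_le.1 (abs_mul_le (abs_le.2 ⟨by linarith [s3_pos], s3_ub.le⟩ : |s3| ≤ 1.73206) hx)
  have h2 := sq_le_mul h0 he
  have := sq_nonneg x
  refine abs_le.2 ⟨?_, ?_⟩ <;> nlinarith [h1.1, h1.2]

lemma C_pos {p q H K : ℝ} (h0 : 0 ≤ H) (k0 : 0 ≤ K) (h2 : H ≤ 2.16) (k2 : K ≤ 2.16)
    (p1 : -0.3 ≤ p) (q1 : -0.3 ≤ q) (u1 : 4 - p ^ 2 ≤ H ^ 2) (v1 : 4 - q ^ 2 ≤ K ^ 2)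
    (s0 : 0.9 ≤ p + q) (s2 : (p + q) ^ 2 ≤ 12) : 0 < p * K + q * H := by
  rcases le_total p 0.45 with hp | hp
  · have : 1.9 ≤ H := by nlinarith
    nlinarith
  · rcases le_total q 0.45 with hq | hq
    · have : 1.9 ≤ K := by nlinarith
      nlinarith
    · have h3 : p + q ≤ 3.5 := by nlinarith
      rcases le_total p q with h4 | h4
      · have : 0.5 ≤ H := by nlinarith
        nlinarith
      · have : 0.5 ≤ K := by nlinarith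
        nlinarith

lemma sum_le {p H : ℝ} (h0 : 0 ≤ H) (h2 : H ≤ 2.16) (p1 : -0.3 ≤ p) (p2 : p ≤ 2.3) :
    p ^ 2 + H ^ 2 ≤ 12 := by nlinarith

/-- the second part -/
lemma part2 (η τ x1 x2 k1 k2 W T : ℝ) (h0 : 0 ≤ η) (he : η ≤ 0.028) (hτ : |τ| ≤ 4 * η)
    (hW : |W| ≤ 2 * η) (a1 : |x1| ≤ 0.4) (a2 : |x2| ≤ 0.4) (b1 : Rm x1 ≤ k1) (b2 : Rm x2 ≤ k2)
    (c1 : k1 ≤ s3 + 2 * η) (c2 : k2 ≤ s3 + 2 * η)
    (hT : ∀ X, s3 - X ≤ k1 → s3 - X ≤ k2 → |T| ≤ 2 * η + X)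
    (d0 : x1 + x2 - τ ≤ 0.7) (d1 : 4 ≤ (2 - (x1 + x2 - τ)) ^ 2 + T ^ 2) :
    6 * s3 - 24 * η ≤ k1 * (3 + τ - x2) + k2 * (3 + τ - x1) + W * (x1 - x2) := by
  obtain ⟨a1a, a1b⟩ := abs_le.1 a1
  obtain ⟨a2a, a2b⟩ := abs_le.1 a2
  obtain ⟨ta, tb⟩ := abs_le.1 hτ
  have l1 := x_low a1a (b1.trans c1) h0 he
  have l2 := x_low a2a (b2.trans c2) h0 he
  obtain ⟨X, X0, X1, X2, X3, X4⟩ : ∃ X : ℝ, 0 ≤ X ∧ x1 ≤ X ∧ x2 ≤ X ∧ X ≤ 0.4 ∧
      (X = 0 ∨ X ≤ x1 + x2 + 4 * η) := by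
    rcases le_total x1 x2 with h | h
    · rcases le_total x2 0 with h' | h'
      · exact ⟨0, le_rfl, by linarith, h', by norm_num, Or.inl rfl⟩
      · exact ⟨x2, h', h, le_rfl, a2b, Or.inr (by linarith)⟩
    · rcases le_total x1 0 with h' | h'
      · exact ⟨0, le_rfl, h', by linarith, by norm_num, Or.inl rfl⟩
      · exact ⟨x1, h', le_rfl, h, a1b, Or.inr (by linarith)⟩
  have hT1 := hT (0.8 * X) ((k_low (by linarith) X1 X0 X3).trans b1)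
    ((k_low (by linarith) X2 X0 X3).trans b2)
  have hT2 : T ^ 2 ≤ (2 * η + 0.8 * X) ^ 2 := by
    rw [← sq_abs T]; exact pow_le_pow_left₀ (abs_nonneg T) hT1 2
  have hT3 : (2 * η + 0.8 * X) ^ 2 ≤ 0.376 * (2 * η + 0.8 * X) :=
    sq_le_mul (by linarith) (by linarith)
  obtain ⟨y, hy⟩ : ∃ y, y = x1 + x2 - τ := ⟨_, rfl⟩
  rw [← hy] at d0 d1
  have y1 : y ≤ 0.26 * T ^ 2 := y_le d0 d1 (by linarith)
  have X5 : X ≤ 9 * η := by
    rcases X4 with h | h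
    · linarith
    · linarith
  have hT4 : (2 * η + 0.8 * X) ^ 2 ≤ (9.2 * η) ^ 2 :=
    pow_le_pow_left₀ (by linarith) (by linarith) 2
  have y3 : y ≤ 23 * η ^ 2 := by linarith [sq_nonneg η]
  have e1 : |x1| ≤ 9 * η := abs_le.2 ⟨by linarith, by linarith⟩
  have e2 : |x2| ≤ 9 * η := abs_le.2 ⟨by linarith, by linarith⟩
  have q1 : x1 ^ 2 ≤ (9 * η) ^ 2 := by
    rw [← sq_abs x1]; exact pow_le_pow_left₀ (abs_nonneg _) e1 2
  have q2 : x2 ^ 2 ≤ (9 * η) ^ 2 := by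
    rw [← sq_abs x2]; exact pow_le_pow_left₀ (abs_nonneg _) e2 2
  have p1 := abs_le.1 (abs_mul_le (D_le he e1 q1)
    (abs_le.2 ⟨by linarith, by linarith⟩ : |τ - x2| ≤ 13 * η))
  have p2 := abs_le.1 (abs_mul_le (D_le he e2 q2)
    (abs_le.2 ⟨by linarith, by linarith⟩ : |τ - x1| ≤ 13 * η))
  have p3 := abs_le.1 (abs_mul_le hW (abs_le.2 ⟨by linarith, by linarith⟩ : |x1 - x2| ≤ 13 * η))
  have m1 : (s3 - s3 * x1 / 3 - x1 ^ 2 / 2) * (3 + τ - x2) ≤ k1 * (3 + τ - x2) :=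
    mul_le_mul_of_nonneg_right ((Rm_ge (by linarith) a1b).trans b1) (by linarith)
  have m2 : (s3 - s3 * x2 / 3 - x2 ^ 2 / 2) * (3 + τ - x1) ≤ k2 * (3 + τ - x1) :=
    mul_le_mul_of_nonneg_right ((Rm_ge (by linarith) a2b).trans b2) (by linarith)
  have m3 : s3 * y ≤ 2 * (23 * η ^ 2) := by
    exact (mul_le_mul_of_nonneg_left y3 s3_pos.le).trans
      (mul_le_mul_of_nonneg_right (by linarith [s3_ub]) (by positivity))
  have m4 : η ^ 2 ≤ 0.028 * η := sq_le_mul h0 he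
  have m5 : (s3 - s3 * x1 / 3 - x1 ^ 2 / 2) * (3 + τ - x2) +
      (s3 - s3 * x2 / 3 - x2 ^ 2 / 2) * (3 + τ - x1) = 6 * s3 - 2 * (s3 * y) -
      3 / 2 * (x1 ^ 2 + x2 ^ 2) - (s3 * x1 / 3 + x1 ^ 2 / 2) * (τ - x2) -
      (s3 * x2 / 3 + x2 ^ 2 / 2) * (τ - x1) := by rw [hy]; ring
  linarith [p1.2, p2.2, p3.1]

end Half

open Half

theorem vt : S_vt := by
  intro a b h k ha hb ga gb h1 k1 s0 s1 s2
  obtain ⟨a1, a2⟩ := abs_le.1 ha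
  obtain ⟨b1, b2⟩ := abs_le.1 hb
  have u1 := sq_of_g ga
  have v1 := sq_of_g gb
  have h0 : 0 ≤ s3 + h := by have := Rp_nonneg a; unfold g at ga; linarith
  have k0 : 0 ≤ s3 + k := by have := Rp_nonneg b; unfold g at gb; linarith
  have hs := s3_ub
  have e : k - h = (s3 + k) - (s3 + h) := by ring
  rw [e] at s1 s2
  have h2 : s3 + h ≤ 2.16 := by linarith
  have k2 : s3 + k ≤ 2.16 := by linarith
  have p1 : -0.3 ≤ 1 - a := by linarith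
  have p2 : 1 - a ≤ 2.3 := by linarith
  have q1 : -0.3 ≤ 1 - b := by linarith
  have q2 : 1 - b ≤ 2.3 := by linarith
  have C0 := C_pos h0 k0 h2 k2 p1 q1 u1 v1 s0 (by linarith [sq_nonneg (s3 + k - (s3 + h))])
  exact (heron _ _ _ _ C0 (by ring) (by linarith) (by linarith) s1).1 (sum_le h0 h2 p1 p2)
    (sum_le k0 k2 q1 q2) s2

theorem half (_hg : S_g) : S_half := by
  intro η tL tR WL WR f1 f2 w1 w2 h0 htL htR hL hR hf1 hf2 hw1 hw2 hT k1 k2 d0 d1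
  refine ⟨fun he => ?_, fun he g1 g2 => ?_⟩
  · obtain ⟨T1, T2⟩ := abs_le.1 hT
    rcases le_total w2 w1 with h | h
    · exact part1 η tL tR WL WR f1 f2 w1 w2 h0 htL htR hL hR hf1 hf2 hw2 T2 h k1 k2 d0 d1 he
    · have := part1 η (-tR) (-tL) WR WL (-f2) (-f1) w2 w1 h0 (by rwa [abs_neg]) (by rwa [abs_neg])
        (by rwa [abs_neg]) (by rwa [abs_neg]) (by rwa [abs_neg]) (by rwa [abs_neg])
        (by rwa [abs_neg]) (by linarith) h (by rwa [neg_sub_neg]) (by rwa [neg_sub_neg])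
        (by linarith) (by linarith) he
      linarith
  · have aL := abs_nonneg WL
    have aR := abs_nonneg WR
    have t1 := t_tiny (abs_nonneg tL) htL (by linarith) h0 he
    have t2 := t_tiny (abs_nonneg tR) htR (by linarith) h0 he
    have gL : 0 ≤ g |tL| := by have := s3_le_Rp (abs_nonneg tL) htL; unfold g; linarith
    have gR : 0 ≤ g |tR| := by have := s3_le_Rp (abs_nonneg tR) htR; unfold g; linarith
    have r1 := Rm_le_s3 (abs_nonneg f1)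
    have r2 := Rm_le_s3 (abs_nonneg f2)
    rw [g_sub] at k1 k2
    rw [g_neg] at hw1 hw2
    obtain ⟨L1, L2⟩ := abs_le.1 hL
    obtain ⟨R1, R2⟩ := abs_le.1 hR
    obtain ⟨t1a, t1b⟩ := abs_le.1 t1
    obtain ⟨t2a, t2b⟩ := abs_le.1 t2
    obtain ⟨f1a, f1b⟩ := abs_le.1 g1
    obtain ⟨f2a, f2b⟩ := abs_le.1 g2
    have := part2 η (tR - tL) (f1 - tL) (tR - f2) (s3 + WL - w1) (s3 + WR - w2) (WR - WL) (w2 - w1)
      h0 he (abs_le.2 ⟨by linarith, by linarith⟩) (abs_le.2 ⟨by linarith, by linarith⟩)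
      (abs_le.2 ⟨by linarith, by linarith⟩) (abs_le.2 ⟨by linarith, by linarith⟩)
      (by linarith) (by linarith) (by linarith) (by linarith)
      (fun X x1 x2 => abs_le.2 ⟨by linarith, by linarith⟩) (by linarith) (by linarith)
    linarith

end

end Pool.Agent.P.MP_dd077d_co
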