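import Mathlib

/-!
A small interval constraint propagation checker, evaluated by the kernel.
A real number `x` is bounded by two naturals `p q` with `-x ≤ val p` and `x ≤ val q`.
-/

namespace Pool.Agent.P.MP_dd077d_co.Icp

noncomputable section

/-- expressions; `v i` is a variable, `u i` an upper bound and `l i` a lower bound for it;
`mp` is the product of the positive parts; `k` marks a closed expression -/
inductive E where
  | v (i : ℕ) | u (i : ℕ) | l (i : ℕ)
  | c (n d : ℕ)
  | add (a b : E) | sub (a b : E) | mul (a b : E) | mp (a b : E) | neg (a : E) | sq (a : E)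
  | sqrt (a : E) | min (a b : E) | max (a b : E) | inv (a : E) | abs (a : E) | k (a : E)

/-- real value of an expression -/
def E.ev (lo x hi : ℕ → ℝ) : E → ℝ
  | .v i => x i
  | .u i => hi i
  | .l i => lo i
  | .c n d => (n : ℝ) / (d : ℝ)
  | .add a b => a.ev lo x hi + b.ev lo x hi
  | .sub a b => a.ev lo x hi - b.ev lo x hi
  | .mul a b => a.ev lo x hi * b.ev lo x hi
  | .mp a b => Max.max (a.ev lo x hi) 0 * Max.max (b.ev lo x hi) 0
  | .neg a => - a.ev lo x hi
  | .sq a => a.ev lo x hi ^ 2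
  | .sqrt a => Real.sqrt (a.ev lo x hi)
  | .min a b => Min.min (a.ev lo x hi) (b.ev lo x hi)
  | .max a b => Max.max (a.ev lo x hi) (b.ev lo x hi)
  | .inv a => 1 / Max.max (a.ev lo x hi) (1 / 1024)
  | .abs a => |a.ev lo x hi|
  | .k a => a.ev lo x hi

/-- all variables are below `n` -/
def E.wf : ℕ → E → Bool
  | n, .v i => Nat.blt i n
  | n, .u i => Nat.blt i n
  | n, .l i => Nat.blt i n
  | _, .c _ _ => true
  | n, .add a b => E.wf n a && E.wf n b
  | n, .sub a b => E.wf n a && E.wf n b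
  | n, .mul a b => E.wf n a && E.wf n b
  | n, .mp a b => E.wf n a && E.wf n b
  | n, .neg a => E.wf n a
  | n, .sq a => E.wf n a
  | n, .sqrt a => E.wf n a
  | n, .min a b => E.wf n a && E.wf n b
  | n, .max a b => E.wf n a && E.wf n b
  | n, .inv a => E.wf n a
  | n, .abs a => E.wf n a
  | _, .k a => E.wf 0 a

/-- the real number coded by `n` -/
def val (n : ℕ) : ℝ := ((n : ℝ) - 4503599627370496) / 4294967296

def force (x : ℕ) (f : ℕ → ℕ) : ℕ := Nat.rec (nat_lit 0) (fun n _ => f n) (Nat.succ x)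

/-- the 64 bit field starting at bit `s` -/
def fld (bx s : ℕ) : ℕ := Nat.mod (Nat.shiftRight bx s) (nat_lit 18446744073709551616)

/-- position of the lower and of the upper field of variable `i` -/
def sl (i : ℕ) : ℕ := Nat.add (Nat.mul (nat_lit 128) i) (nat_lit 64)
def su (i : ℕ) : ℕ := Nat.add (Nat.mul (nat_lit 128) i) (nat_lit 128)

/-- the lowest 64 bits of a box only serve as a hash value -/
def salt (b : ℕ) : ℕ :=
  force (Nat.shiftRight b (nat_lit 64)) fun t =>
    Nat.add (Nat.shiftLeft t (nat_lit 64)) (Nat.mod t (nat_lit 18446744073709551557))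

def setMin (bx s x : ℕ) : ℕ :=
  Nat.rec bx (fun d _ => salt (Nat.sub bx (Nat.shiftLeft (Nat.succ d) s))) (Nat.sub (fld bx s) x)

def mx (a b : ℕ) : ℕ := force a fun a' => Nat.add a' (Nat.sub b a')
def mn (a b : ℕ) : ℕ := force a fun a' => Nat.sub a' (Nat.sub a' b)

/-- upper bound for the product of `val n` and `val m` -/
def pUp (n m : ℕ) : ℕ :=
  Nat.div (Nat.sub (Nat.add (Nat.mul n m) (nat_lit 20282428946464784258018341552127))
    (Nat.mul (nat_lit 4503599627370496) (Nat.add n m))) (nat_lit 4294967296)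
/-- upper bound for minus the product of `val n` and `val m` -/
def pDn (n m : ℕ) : ℕ :=
  Nat.div (Nat.sub (Nat.add (Nat.mul (nat_lit 4503599627370496) (Nat.add n m)) (nat_lit 19342813113834071090266111))
    (Nat.add (Nat.mul n m) (nat_lit 20282409603651670423947251286016))) (nat_lit 4294967296)

def newt (n r : ℕ) : ℕ := Nat.div (Nat.add r (Nat.div n r)) (nat_lit 2)

/-- a first guess for the square root -/
def rt0 (n : ℕ) : ℕ :=
  (Bool.rec (Bool.rec (Bool.rec (Bool.rec (Bool.rec (Bool.rec (nat_lit 4096) (nat_lit 1048576) (Nat.ble (nat_lit 68719476736) n)) (nat_lit 16777216) (Nat.ble (nat_lit 17592186044416) n)) (nat_lit 134217728) (Nat.ble (nat_lit 4503599627370496) n)) (nat_lit 536870912) (Nat.ble (nat_lit 72057594037927936) n)) (nat_lit 2147483648) (Nat.ble (nat_lit 1152921504606846976) n)) (Bool.rec (nat_lit 8589934592) (Bool.rec (nat_lit 34359738368) (nat_lit 274877906944) (Nat.ble (nat_lit 4722366482869645213696) n)) (Nat.ble (nat_lit 295147905179352825856)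 n)) (Nat.ble (nat_lit 18446744073709551616) n))

/-- an upper bound for the square root of `n`, positive -/
def rt (n : ℕ) : ℕ :=
  force (rt0 n) fun r0 =>
  force (newt n r0) fun r1 => force (newt n r1) fun r2 => force (newt n r2) fun r3 =>
  force (Nat.succ (newt n r3)) fun r =>
  Bool.rec (Nat.succ n) r (Nat.ble n (Nat.mul r r))

def mpU (q1 q2 : ℕ) : ℕ := Nat.add (nat_lit 4503599627370497) (Nat.div (Nat.mul (Nat.sub q1 (nat_lit 4503599627370496)) (Nat.sub q2 (nat_lit 4503599627370496))) (nat_lit 4294967296))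
def mpD (p1 p2 : ℕ) : ℕ := Nat.sub (nat_lit 4503599627370496) (Nat.div (Nat.mul (Nat.sub (nat_lit 4503599627370496) p1) (Nat.sub (nat_lit 4503599627370496) p2)) (nat_lit 4294967296))

def mulG (p1 q1 p2 q2 : ℕ) : ℕ :=
  force q1 fun q1 => force q2 fun q2 => mx (mx (pUp p1 p2) (pUp q1 q2)) (mx (pDn p1 q2) (pDn q1 p2))

def mulH (p1 q1 p2 q2 : ℕ) : ℕ :=
  force q1 fun q1 => force q2 fun q2 => mx (mx (pDn p1 p2) (pDn q1 q2)) (mx (pUp p1 q2) (pUp q1 p2))

def mulU (p1 q1 p2 q2 : ℕ) : ℕ :=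
  force p1 fun p1 => force p2 fun p2 =>
    Bool.rec (mulG p1 q1 p2 q2) (Bool.rec (mulG p1 q1 p2 q2) (mpU q1 q2) (Nat.ble p2 (nat_lit 4503599627370496))) (Nat.ble p1 (nat_lit 4503599627370496))

def mulD (p1 q1 p2 q2 : ℕ) : ℕ :=
  force p1 fun p1 => force p2 fun p2 =>
    Bool.rec (mulH p1 q1 p2 q2) (Bool.rec (mulH p1 q1 p2 q2) (mpD p1 p2) (Nat.ble p2 (nat_lit 4503599627370496))) (Nat.ble p1 (nat_lit 4503599627370496))

/-- compiled code of an expression: bounds for minus the value and for the value -/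
structure C where
  dn : ℕ → ℕ
  up : ℕ → ℕ

def C0 : C := ⟨fun _ => (nat_lit 0), fun _ => (nat_lit 0)⟩

def cst (p q : ℕ) : C :=
  Nat.rec C0 (fun p' _ => Nat.rec C0 (fun q' _ => ⟨fun _ => p', fun _ => q'⟩) (Nat.succ q)) (Nat.succ p)

def atV (i : ℕ) (f : ℕ → ℕ → C) : C :=
  Nat.rec C0 (fun a _ => Nat.rec C0 (fun b _ => f a b) (Nat.succ (su i))) (Nat.succ (sl i))

/-- interval evaluation -/
def comp (e : E) : C :=
  E.rec (motive := fun _ => C)
    (fun i => atV i fun a b => ⟨fun bx => fld bx a, fun bx => fld bx b⟩)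
    (fun i => atV i fun _ b => ⟨fun bx => Nat.sub (nat_lit 9007199254740992) (fld bx b), fun bx => fld bx b⟩)
    (fun i => atV i fun a _ => ⟨fun bx => fld bx a, fun bx => Nat.sub (nat_lit 9007199254740992) (fld bx a)⟩)
    (fun n d => cst (Nat.sub (nat_lit 4503599627370496) (Nat.div (Nat.mul n (nat_lit 4294967296)) d))
      (Nat.add (nat_lit 4503599627370496) (Bool.rec (Nat.succ (Nat.div (Nat.mul n (nat_lit 4294967296)) d)) (Nat.div (Nat.mul n (nat_lit 4294967296)) d)
        (Nat.ble (Nat.mul n (nat_lit 4294967296)) (Nat.mul (Nat.div (Nat.mul n (nat_lit 4294967296)) d) d)))))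
    (fun _ _ ra rb => ⟨fun bx => Nat.sub (Nat.add (ra.dn bx) (rb.dn bx)) (nat_lit 4503599627370496),
      fun bx => Nat.sub (Nat.add (ra.up bx) (rb.up bx)) (nat_lit 4503599627370496)⟩)
    (fun _ _ ra rb => ⟨fun bx => Nat.sub (Nat.add (ra.dn bx) (rb.up bx)) (nat_lit 4503599627370496),
      fun bx => Nat.sub (Nat.add (ra.up bx) (rb.dn bx)) (nat_lit 4503599627370496)⟩)
    (fun _ _ ra rb => ⟨fun bx => mulD (ra.dn bx) (ra.up bx) (rb.dn bx) (rb.up bx),
      fun bx => mulU (ra.dn bx) (ra.up bx) (rb.dn bx) (rb.up bx)⟩)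
    (fun _ _ ra rb => ⟨fun bx => mpD (ra.dn bx) (rb.dn bx), fun bx => mpU (ra.up bx) (rb.up bx)⟩)
    (fun _ ra => ⟨ra.up, ra.dn⟩)
    (fun _ ra => ⟨fun bx => force (mn (ra.dn bx) (ra.up bx)) fun t => mpD t t,
      fun bx => force (mx (ra.dn bx) (ra.up bx)) fun t => mpU t t⟩)
    (fun _ ra => ⟨fun bx => force (Nat.mul (Nat.sub (nat_lit 4503599627370496) (ra.dn bx)) (nat_lit 4294967296)) fun m =>
        Nat.sub (nat_lit 4503599627370496) (Nat.div m (rt m)),
      fun bx => force (Nat.mul (Nat.sub (ra.up bx) (nat_lit 4503599627370496)) (nat_lit 4294967296)) fun n => Nat.add (nat_lit 4503599627370496) (rt n)⟩)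
    (fun _ _ ra rb => ⟨fun bx => mx (ra.dn bx) (rb.dn bx), fun bx => mn (ra.up bx) (rb.up bx)⟩)
    (fun _ _ ra rb => ⟨fun bx => mn (ra.dn bx) (rb.dn bx), fun bx => mx (ra.up bx) (rb.up bx)⟩)
    (fun _ ra => ⟨fun bx => Nat.sub (nat_lit 4503599627370496) (Nat.div (nat_lit 18446744073709551616) (mx (nat_lit 4194304) (Nat.sub (ra.up bx) (nat_lit 4503599627370496)))),
      fun bx => Nat.add (nat_lit 4503599627370497) (Nat.div (nat_lit 18446744073709551616) (mx (nat_lit 4194304) (Nat.sub (nat_lit 4503599627370496) (ra.dn bx))))⟩)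
    (fun _ ra => ⟨fun bx => mn (nat_lit 4503599627370496) (mn (ra.dn bx) (ra.up bx)), fun bx => mx (ra.dn bx) (ra.up bx)⟩)
    (fun _ ra => cst (ra.dn (nat_lit 0)) (ra.up (nat_lit 0)))
    e

/-- a rule: if all guards are at most zero then a conclusion about variable `i` holds.
kind 0 is `x i ≤ e`, kind 1 is `e ≤ x i`, kind 2 is `x i = e`, other kinds are a contradiction -/
structure Step where
  kind : ℕ
  i : ℕ
  e : E
  gs : List E

def Step.concl (s : Step) (lo x hi : ℕ → ℝ) : Prop :=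
  if s.kind = 0 then x s.i ≤ s.e.ev lo x hi
  else if s.kind = 1 then s.e.ev lo x hi ≤ x s.i
  else if s.kind = 2 then x s.i = s.e.ev lo x hi
  else False

def Step.holds (s : Step) (x : ℕ → ℝ) : Prop :=
  ∀ lo hi : ℕ → ℝ, (∀ i, lo i ≤ x i) → (∀ i, x i ≤ hi i) →
    (∀ g ∈ s.gs, g.ev lo x hi ≤ 0) → s.concl lo x hi

def Step.wf (n : ℕ) (s : Step) : Bool := Nat.blt s.i n && E.wf n s.e && s.gs.all (E.wf n)

/-- compiled code acting on boxes -/
structure F where
  run : ℕ → ℕ

/-- run `f` if all guards pass -/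
def guards (f : F) (gs : List E) : F :=
  List.rec f (fun g _ r => ⟨fun bx => Bool.rec bx (r.run bx) (Nat.ble ((comp g).up bx) (nat_lit 4503599627370496))⟩) gs

/-- empty boxes are replaced by 0 -/
def chk (a b bx : ℕ) : ℕ :=
  force bx fun bx => Bool.rec (nat_lit 0) bx (Nat.ble (nat_lit 9007199254740992) (Nat.add (fld bx a) (fld bx b)))

def act (kind a b : ℕ) (c : C) : F :=
  Nat.rec ⟨fun bx => chk a b (setMin bx b (c.up bx))⟩
    (fun k1 _ => Nat.rec ⟨fun bx => chk a b (setMin bx a (c.dn bx))⟩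
      (fun k2 _ => Nat.rec ⟨fun bx => force (setMin bx a (c.dn bx)) fun b1 => chk a b (setMin b1 b (c.up bx))⟩
        (fun _ _ => ⟨fun _ => (nat_lit 0)⟩) k2) k1) kind

def Step.code (s : Step) : F :=
  Nat.rec ⟨fun bx => bx⟩ (fun a _ => Nat.rec ⟨fun bx => bx⟩
    (fun b _ => guards (act s.kind a b (comp s.e)) s.gs) (Nat.succ (su s.i))) (Nat.succ (sl s.i))

/-- one pass through all rules -/
def round (ss : List Step) : F :=
  List.rec ⟨fun bx => bx⟩
    (fun s _ r => ⟨fun bx => Nat.rec (nat_lit 0) (fun b _ => force (Nat.succ b) r.run) (s.code.run bx)⟩) ss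

def tot (bx : ℕ) : ℕ := Nat.mod (Nat.shiftRight bx (nat_lit 64)) (nat_lit 18446744073709551615)

/-- repeated passes while the total gain exceeds `tol` -/
def rounds (f : F) (tol : ℕ) (R : ℕ) : F :=
  Nat.rec ⟨fun bx => bx⟩
    (fun _ r => ⟨fun bx => Nat.rec (nat_lit 0) (fun b _ => force (Nat.succ b) fun b' =>
      Bool.rec b' (r.run b') (Nat.ble (Nat.add (tot b') tol) (tot bx))) (f.run bx)⟩) R

def width (bx i : ℕ) : ℕ := Nat.sub (Nat.add (fld bx (sl i)) (fld bx (su i))) (nat_lit 9007199254740992)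

/-- the variable with the largest weighted width; the list holds pairs variable, weight -/
def pick (sp : List (ℕ × ℕ)) : F :=
  List.rec ⟨fun _ => (nat_lit 0)⟩
    (fun s _ r => ⟨fun bx => mx (Nat.add (Nat.mul (Nat.mul (width bx s.1) s.2) (nat_lit 256)) s.1) (r.run bx)⟩) sp

/-- branch and bound; result 1 means that the box is refuted -/
def go (n : ℕ) (f pk : F) (fuel : ℕ) : F :=
  Nat.rec ⟨fun _ => (nat_lit 0)⟩
    (fun _ r => ⟨fun bx => Nat.rec (nat_lit 1) (fun b0 _ => force (Nat.succ b0) fun b =>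
      force (Nat.mod (Nat.mod (pk.run b) (nat_lit 256)) n) fun i => force (width b i) fun w =>
      force (Nat.div w (nat_lit 2)) fun h =>
      Nat.rec (nat_lit 0) (fun _ _ => force (setMin b (sl i) (Nat.sub (fld b (sl i)) (Nat.sub w h))) r.run)
        (force (setMin b (su i) (Nat.sub (fld b (su i)) h)) r.run))
      (f.run bx)⟩) fuel

/-- code of a box given by bounds `lo / 1024 ≤ x ≤ hi / 1024` -/
def mkBox (l : List (ℤ × ℤ)) : ℕ :=
  List.rec 0 (fun s _ r => force r fun b =>
    Nat.add (Nat.add (Int.toNat (4503599627370496 - s.1 * 4194304))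
      (Nat.mul (Int.toNat (4503599627370496 + s.2 * 4194304)) 18446744073709551616))
      (Nat.mul b 340282366920938463463374607431768211456)) l

/-- the checker: box, rules, splitting weights, gain tolerance, passes per node, depth -/
def check (bxs : List (ℤ × ℤ)) (ss : List Step) (sp : List (ℕ × ℕ)) (tol R fuel : ℕ) : Bool :=
  Nat.blt 0 bxs.length && ss.all (Step.wf bxs.length) &&
    bxs.all (fun s => decide (-1000000000 ≤ s.1) && decide (s.2 ≤ 1000000000)) &&
    Nat.beq (force (Nat.shiftLeft (mkBox bxs) 64)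
      (go bxs.length (rounds (round ss) tol R) (pick sp) fuel).run) 1

/-- the variables `k, k+1, ...` lie in the box -/
def inB (x : ℕ → ℝ) : ℕ → List (ℤ × ℤ) → Prop
  | _, [] => True
  | k, s :: l => ((s.1 : ℝ) / 1024 ≤ x k ∧ x k ≤ (s.2 : ℝ) / 1024) ∧ inB x (k + 1) l

/-- all rules hold -/
def allH (x : ℕ → ℝ) : List Step → Prop
  | [] => True
  | s :: l => s.holds x ∧ allH x l

/-- soundness of the checker -/
def S_icp : Prop := ∀ (bxs : List (ℤ × ℤ)) (ss : List Step) (sp : List (ℕ × ℕ)) (tol R fuel : ℕ),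
  check bxs ss sp tol R fuel = true → ∀ x : ℕ → ℝ, inB x 0 bxs → allH x ss → False

/-- an environment given by a list -/
def env (l : List ℝ) (i : ℕ) : ℝ := l.getD i 0

end

end Pool.Agent.P.MP_dd077d_co.Icp
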