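import Pool.Agent.P.MP_dd077d_co.Defs

/-!
Statements about single triangles, pairs of triangles and angles.
-/

namespace Pool.Agent.P.MP_dd077d_co

noncomputable section

/-- basic data of a Delaunay triangle with base `x y` and apex `z` -/
def S_data : Prop := ∀ (T : DT0) (x y z : ℂ), T.Tri x y z →
  4 ≤ nsq (x - y) ∧ 4 ≤ nsq (x - z) ∧ 4 ≤ nsq (y - z) ∧
  nsq (x - y) < 16 ∧ nsq (x - z) < 16 ∧ nsq (y - z) < 16 ∧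
  cross x y z ^ 2 = nsq (x - z) * nsq (y - z) - dot z x y ^ 2 ∧
  nsq (x - y) = nsq (x - z) + nsq (y - z) - 2 * dot z x y ∧
  nsq (x - z) * nsq (y - z) * nsq (x - y) < 16 * cross x y z ^ 2

/-- cost of a Delaunay triangle in terms of one side -/
def S_side : Prop := ∀ (T : DT0) (x y z : ℂ), T.Tri x y z →
  0 ≤ cost {x, y, z} ∧
  (nsq (x - y) ≤ 7 → (nsq (x - y) - 4) / 12 ≤ cost {x, y, z}) ∧
  (7 ≤ nsq (x - y) → nsq (x - y) ≤ 9 → 0.2522 ≤ cost {x, y, z}) ∧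
  (9 ≤ nsq (x - y) → 0 ≤ dot z x y → 0.503 ≤ cost {x, y, z}) ∧
  (13.1 ≤ nsq (x - y) → 0.33 ≤ cost {x, y, z})

/-- Heron type bounds; `u v w` are squared sides and `C` is twice the area -/
def S_heron : Prop := ∀ u v w C : ℝ, 0 < C → 4 * C ^ 2 = 4 * u * v - (u + v - w) ^ 2 →
  4 ≤ u → 4 ≤ v → 4 ≤ w →
  (u ≤ 12 → v ≤ 12 → w ≤ 12 → 0 ≤ C / 2 - s3) ∧
  (u ≤ 7 → v ≤ 7 → w ≤ 9 → (u - 4) / 12 + (v - 4) / 12 + min ((w - 4) / 12) (1 / 4) ≤ C / 2 - s3) ∧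
  (u ≤ 8 → v ≤ 8 → w ≤ 8 → (u - 4) / 15 + (v - 4) / 15 ≤ C / 2 - s3)

/-- lower bound for the cost of the two triangles at an edge of squared length `w` -/
def piL (w : ℝ) : ℝ :=
  min (min (0.51 + 0.46 * (w - 8)) (0.97 + 0.363 * (w - 9)))
    (min (min (1.42 + 0.2045 * (w - 10.24)) (1.69 + 0.056 * (w - 11.56))) 1.714)

/-- the two triangles at a long edge are expensive -/
def S_pair : Prop := ∀ (T : DT0) (x y z z' : ℂ), T.Tri x y z → T.Tri y x z' →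
  (7 ≤ nsq (x - y) → 0.503 ≤ cost {x, y, z} + cost {y, x, z'}) ∧
  (8 ≤ nsq (x - y) → piL (nsq (x - y)) ≤ cost {x, y, z} + cost {y, x, z'}) ∧
  (12.25 ≤ nsq (x - y) → 1.74 ≤ cost {x, y, z} + cost {y, x, z'})

/-- a triangle with a high apex and a base pointing the wrong way -/
def S_lemH : Prop := ∀ (T : DT0) (v c c' : ℂ) (h : ℝ), T.Tri v c c' → 0 ≤ h →
  c.im + h ≤ v.im → c'.im + h ≤ v.im → c'.re ≤ c.re →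
  (8 ≤ nsq (v - c) ∨ 8 ≤ nsq (v - c')) ∧ h < 1

/-- the neighbours of a lowest chain vertex are far apart -/
def S_gab : Prop := ∀ (T : DT0) (c cm cp v : ℂ), T.Tri v c cp → cm ∈ T.pts →
  cm.re < c.re → c.re < cp.re → c.im ≤ cm.im → c.im ≤ cp.im → cm.im < v.im → cp.im < v.im →
  0 < cross c v cm → 8 ≤ nsq (cm - cp)

/-- angle deviation against cost, for the triangle `0 p q` in the closed upper half plane -/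
def S_ang : Prop := ∀ p q : ℂ, 0 ≤ p.im → 0 ≤ q.im → 0 < cross 0 p q →
  4 ≤ nsq p → 4 ≤ nsq q → 4 ≤ nsq (p - q) → 0 ≤ cross 0 p q / 2 - s3 →
  (nsq (p - q) ≤ 8 → 0.51 * (q.arg - p.arg - Real.pi / 3) ≤ cross 0 p q / 2 - s3) ∧
  (nsq p ≤ 8 → nsq q ≤ 8 → nsq (p - q) ≤ 8 →
    0.81 * (Real.pi / 3 - (q.arg - p.arg)) ≤ cross 0 p q / 2 - s3) ∧
  (nsq p ≤ 7 → nsq q ≤ 7 → 8 ≤ nsq (p - q) → Real.pi / 3 ≤ q.arg - p.arg) ∧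
  (dot 0 p q ≤ 0 → 0.53 ≤ 0.51 * (q.arg - p.arg - Real.pi / 3) + (cross 0 p q / 2 - s3))

/-- three consecutive triangles above a peak at the origin -/
def S_peak : Prop := ∀ (p0 p1 p2 p3 : ℂ) (l : ℝ), 0 ≤ p0.im → 0 ≤ p1.im → 0 ≤ p2.im → 0 ≤ p3.im →
  0 < cross 0 p0 p1 → 0 < cross 0 p1 p2 → 0 < cross 0 p2 p3 →
  (4 ≤ nsq p0 ∧ nsq p0 ≤ 8) → (4 ≤ nsq p1 ∧ nsq p1 ≤ 8) → (4 ≤ nsq p2 ∧ nsq p2 ≤ 8) →
  (4 ≤ nsq p3 ∧ nsq p3 ≤ 8) → (4 ≤ nsq (p0 - p1) ∧ nsq (p0 - p1) ≤ 8) →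
  (4 ≤ nsq (p1 - p2) ∧ nsq (p1 - p2) ≤ 8) → (4 ≤ nsq (p2 - p3) ∧ nsq (p2 - p3) ≤ 8) →
  0 ≤ l → nsq p0 ≤ l ^ 2 → nsq p3 ≤ l ^ 2 →
  0.81 * (p0.im + p3.im) ≤
    l * ((cross 0 p0 p1 / 2 - s3) + (cross 0 p1 p2 / 2 - s3) + (cross 0 p2 p3 / 2 - s3))

/-- two consecutive wall triangles with the same apex `c` below the wall vertex `v` -/
def S_fan : Prop := ∀ (v vm vp c : ℂ) (s θ m : ℝ), 4 ≤ nsq (c - v) → 4 ≤ nsq (vp - v) →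
  4 ≤ nsq (vm - v) → nsq (c - vp) ≤ 7 → nsq (c - vm) ≤ 7 → c.im ≤ v.im →
  0 ≤ s → s ≤ 1 → 2 - s ≤ vp.re - v.re → 2 - s ≤ v.re - vm.re →
  0 ≤ θ → (v.im - vp.im) + (v.im - vm.im) ≤ θ → 0 ≤ m → m ≤ 4 → s ^ 2 + θ ^ 2 ≤ m ^ 2 →
  16 - 4 * m ≤ nsq (c - vp) + nsq (c - vm)

end

end Pool.Agent.P.MP_dd077d_co
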