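import Pool.Agent.P.MP_dd077d_co.Defs
import Pool.Agent.P.MP_dd077d_co.IcpS

/-!
The scalar system behind the step from one row to the next, and its rules for the interval checker.
-/

set_option linter.dupNamespace false

namespace Pool.Agent.P.MP_dd077d_co

noncomputable section

def Rp (x : ℝ) : ℝ := Real.sqrt (4 - (1 - x) ^ 2)
def Rm (x : ℝ) : ℝ := Real.sqrt (4 - (1 + x) ^ 2)
/-- the groove profile -/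
def g (x : ℝ) : ℝ := Rp x - s3

def eF (A : ℝ) : ℝ := 301 / 100000 * A + 37 / 2500 * A ^ 3 + 17 / 10000 * A ^ 4 + 119 / 50000 * A ^ 8 + 79 / 5000000 * A ^ 16
def hF (A : ℝ) : ℝ := 1 / 500 * A + 123 / 50000 * A ^ 3 + 59 / 10000 * A ^ 4 + 19 / 12500 * A ^ 8 + 47 / 25000000 * A ^ 16
def sF (A : ℝ) : ℝ := 701 / 100000 + 377 / 1000000 * A + 259 / 2000 * A ^ 2 + 51 / 5000 * A ^ 4 + 101 / 50000 * A ^ 8 + 31 / 2000000 * A ^ 16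
def rF (A : ℝ) : ℝ := 11 / 1000 + 2547 / 5000 * A + 157 / 10000 * A ^ 4 + 609 / 1000000 * A ^ 8 + 33 / 2500000 * A ^ 16
def tF (A : ℝ) : ℝ := 31 / 2000 + 497 / 1000 * A + 33 / 1250 * A ^ 2 + 101 / 10000 * A ^ 4 + 7 / 2000 * A ^ 8 + 243 / 10000000 * A ^ 16

/-- bound for a sum of squares of nonnegative numbers with sum at most `m`, each at most `p` -/
def qF (p m : ℝ) : ℝ := p ^ 2 + min p (m - p) * (m - p)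

def muF (f : ℝ) : ℝ := 39 / 50 + 13 / 50 * f ^ 2
def ccF (x zs : ℝ) : ℝ := x * (8 + 4 * x) / (s3 * (Rm x * (s3 + Rm x))) + 77 / 200 * zs
def restF (P Y N nu : ℝ) : ℝ := min (min (2 * P) Y * (2 * N)) (4 * (nu * Y)) + 2 * (nu * N)

/-- the numbers attached to two consecutive rows; index 1 refers to the old row -/
structure Sc where
  (a D z E1 h1 r1 t1 S1 N nu P Y S Ss G f zs E h : ℝ)
  nn1 : 0 ≤ a ∧ 0 ≤ D ∧ 0 ≤ z ∧ 0 ≤ E1 ∧ 0 ≤ h1 ∧ 0 ≤ r1 ∧ 0 ≤ t1 ∧ 0 ≤ S1 ∧ 0 ≤ N ∧ 0 ≤ nu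
  nn2 : 0 ≤ P ∧ 0 ≤ Y ∧ 0 ≤ S ∧ 0 ≤ Ss ∧ 0 ≤ G ∧ 0 ≤ f ∧ 0 ≤ zs ∧ 0 ≤ E ∧ 0 ≤ h
  top : a + D ≤ s3
  inv : E1 ≤ eF a ∧ h1 ≤ hF a ∧ r1 ≤ rF a ∧ S1 ≤ sF a ∧ t1 ≤ tF a
  lnk : N ≤ E1 ∧ nu ≤ h1 ∧ nu ≤ N ∧ 2 * N ≤ E
  pb : P ≤ 33 / 20
  r3a : Y * Real.sqrt (4 - (P + nu) ^ 2) ≤ a + D + 2 * N + nu * S
  r3b : 2 * Y ≤ a + D + 2 * N + (P + nu) * S
  ord : z ≤ Y ∧ P ≤ Y ∧ f ≤ S ∧ zs ≤ f ∧ S ≤ Ss
  r4a : (2 + Real.sqrt (4 - (P + nu) ^ 2)) * Ss ≤ 2 * (P * Y) + restF P Y N nu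
  r4b : S ≤ 1 → ∀ p m fu zu : ℝ, P ≤ p → Y - z ≤ m → f ≤ fu → fu ≤ 1 → z ≤ zu →
    (2 + Real.sqrt (4 - (P + nu) ^ 2)) * Ss ≤
      2 * (qF (min p m) m + qF (min (s3 - Rm fu) zu) zu) + restF P Y N nu
  pM : S ≤ 1 → P ≤ max (Y - z) (min (s3 - Rm f) z)
  fz : S ≤ 1 → g f ≤ z + h1 ∧ g zs ≤ nu
  wv : S + S1 ≤ 1 →
    (2 + Real.sqrt (4 - (P + nu) ^ 2)) * Ss ≤ (P + nu) * (G + 2 * (s3 - Rm (S + S1))) ∧
    (2 + Real.sqrt (4 - r1 ^ 2)) * S1 ≤ r1 * (G + 2 * (s3 - Rm (S + S1)))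
  idn : S + S1 ≤ 9 / 10 → S ≤ 3 / 4 → S1 ≤ 3 / 4 → (1 - (S + S1)) * G ≤
    D + (S * (S + min S (2 - Real.sqrt (4 - (P + nu) ^ 2))) +
      S1 * (S1 + min S1 (2 - Real.sqrt (4 - r1 ^ 2)))) / 3
  rcE : S ≤ 1 → f ≤ 7 / 10 → S1 + zs ≤ 9 / 10 → E - E1 ≤
    muF f * ((Rp f + s3) / (2 - f)) * (f * (z + 3 / 2 * E1)) + 667 / 1000 * (f * E1) +
      ccF (S1 + zs) zs * N * ((Rp zs + s3) / (2 - zs))
  rcH : S ≤ 1 → f ≤ 7 / 10 → S1 + zs ≤ 9 / 10 → h - h1 ≤ max (muF f * f ^ 2) (zs * ccF (S1 + zs) zs)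

namespace Sc

def cr (s : Sc) : ℝ := Real.sqrt (4 - (s.P + s.nu) ^ 2)
def c1 (s : Sc) : ℝ := Real.sqrt (4 - s.r1 ^ 2)
def GU (s : Sc) : ℝ := s.G + 2 * (s3 - Rm (s.S + s.S1))

/-- the regime of a cheap strip -/
def RegS (s : Sc) : Prop := s.D ≤ 1 / 2 ∧
  s.P ≤ min s.r1 (s.t1 / 2) - s3 + Real.sqrt (3 + 3 * s.D + s.r1 ^ 2 / 4) ∧
  (((s.S ≤ 3 / 4 ∧ s.S1 ≤ 3 / 4) ∨ s.D ≤ 63 / 256) → s.S + s.S1 ≤ 3 * s.D ∧
    (s.S + s.S1 ≤ 1 → s.S + s.S1 + s.G * Rm (s.S + s.S1) ≤ 3 * s.D)) ∧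
  (max ((2 + s.Ss) ^ 2) (4 + (s.P + s.nu) ^ 2) ≤ 8 → s.P ≤
    (s.Y + 100 / 81 * (Real.sqrt (max ((2 + s.Ss) ^ 2) (4 + (s.P + s.nu) ^ 2)) * s.D)) / 3)

/-- the regime of an expensive strip -/
def RegL (s : Sc) : Prop := 1 / 2 ≤ s.D ∧ s.P ≤ 7 / 5

/-- the environment of the checker -/
def x (s : Sc) : ℕ → ℝ := Icp.env [s.a, s.D, s.z, s.E1, s.h1, s.r1, s.S1, s.N, s.nu, s.P, s.Y, s.S, s.Ss, s.S + s.S1, s.f, s.zs, s.P + s.nu, s.cr, s.c1, max 0 (min ((s.E - s.E1) / s.D) 100), max 0 (min ((s.h - s.h1) / s.D) 100), s.a + s.D, min ((s.S + s.S1) / s.D) 100, min (s.Ss / s.D) 100, min (s.S1 / s.D) 100, min (s.GU / s.D) 100]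

@[simp] lemma x0 (s : Sc) : s.x 0 = s.a := rfl
@[simp] lemma x1 (s : Sc) : s.x 1 = s.D := rfl
@[simp] lemma x2 (s : Sc) : s.x 2 = s.z := rfl
@[simp] lemma x3 (s : Sc) : s.x 3 = s.E1 := rfl
@[simp] lemma x4 (s : Sc) : s.x 4 = s.h1 := rfl
@[simp] lemma x5 (s : Sc) : s.x 5 = s.r1 := rfl
@[simp] lemma x6 (s : Sc) : s.x 6 = s.S1 := rfl
@[simp] lemma x7 (s : Sc) : s.x 7 = s.N := rfl
@[simp] lemma x8 (s : Sc) : s.x 8 = s.nu := rfl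
@[simp] lemma x9 (s : Sc) : s.x 9 = s.P := rfl
@[simp] lemma x10 (s : Sc) : s.x 10 = s.Y := rfl
@[simp] lemma x11 (s : Sc) : s.x 11 = s.S := rfl
@[simp] lemma x12 (s : Sc) : s.x 12 = s.Ss := rfl
@[simp] lemma x13 (s : Sc) : s.x 13 = s.S + s.S1 := rfl
@[simp] lemma x14 (s : Sc) : s.x 14 = s.f := rfl
@[simp] lemma x15 (s : Sc) : s.x 15 = s.zs := rfl
@[simp] lemma x16 (s : Sc) : s.x 16 = s.P + s.nu := rfl
@[simp] lemma x17 (s : Sc) : s.x 17 = s.cr := rfl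
@[simp] lemma x18 (s : Sc) : s.x 18 = s.c1 := rfl
@[simp] lemma x19 (s : Sc) : s.x 19 = max 0 (min ((s.E - s.E1) / s.D) 100) := rfl
@[simp] lemma x20 (s : Sc) : s.x 20 = max 0 (min ((s.h - s.h1) / s.D) 100) := rfl
@[simp] lemma x21 (s : Sc) : s.x 21 = s.a + s.D := rfl
@[simp] lemma x22 (s : Sc) : s.x 22 = min ((s.S + s.S1) / s.D) 100 := rfl
@[simp] lemma x23 (s : Sc) : s.x 23 = min (s.Ss / s.D) 100 := rfl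
@[simp] lemma x24 (s : Sc) : s.x 24 = min (s.S1 / s.D) 100 := rfl
@[simp] lemma x25 (s : Sc) : s.x 25 = min (s.GU / s.D) 100 := rfl

end Sc

/-- the scalar theorem -/
def S_scal : Prop := ∀ s : Sc, s.RegS ∨ s.RegL →
  s.E ≤ eF (s.a + s.D) ∧ s.h ≤ hF (s.a + s.D) ∧ s.Ss ≤ sF (s.a + s.D) ∧
    s.P + s.nu ≤ rF (s.a + s.D) ∧ s.Y + 2 * s.nu ≤ tF (s.a + s.D)

namespace St
open Icp

def dUb : Step :=
  ⟨0, 1, (.sub (.k (.sqrt (.c 3 1))) (.v 0)), []⟩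

def aEq : Step :=
  ⟨2, 21, (.add (.v 0) (.v 1)), []⟩

def aUb : Step :=
  ⟨0, 21, (.k (.sqrt (.c 3 1))), []⟩

def dEq : Step :=
  ⟨2, 1, (.sub (.v 21) (.v 0)), []⟩

def a0Eq : Step :=
  ⟨2, 0, (.sub (.v 21) (.v 1)), []⟩

def invE : Step :=
  ⟨0, 3, (.add (.add (.add (.add (.mp (.c 301 100000) (.v 0)) (.mp (.c 37 2500) (.mp (.mp (.v 0)
    (.v 0)) (.v 0)))) (.mp (.c 17 10000) (.mp (.mp (.v 0) (.v 0)) (.mp (.v 0) (.v 0))))) (.mp (.c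
    119 50000) (.mp (.mp (.mp (.v 0) (.v 0)) (.mp (.v 0) (.v 0))) (.mp (.mp (.v 0) (.v 0)) (.mp
    (.v 0) (.v 0)))))) (.mp (.c 79 5000000) (.mp (.mp (.mp (.mp (.v 0) (.v 0)) (.mp (.v 0) (.v
    0))) (.mp (.mp (.v 0) (.v 0)) (.mp (.v 0) (.v 0)))) (.mp (.mp (.mp (.v 0) (.v 0)) (.mp (.v 0)
    (.v 0))) (.mp (.mp (.v 0) (.v 0)) (.mp (.v 0) (.v 0))))))), []⟩

def invH : Step :=
  ⟨0, 4, (.add (.add (.add (.add (.mp (.c 1 500) (.v 0)) (.mp (.c 123 50000) (.mp (.mp (.v 0) (.v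
    0)) (.v 0)))) (.mp (.c 59 10000) (.mp (.mp (.v 0) (.v 0)) (.mp (.v 0) (.v 0))))) (.mp (.c 19
    12500) (.mp (.mp (.mp (.v 0) (.v 0)) (.mp (.v 0) (.v 0))) (.mp (.mp (.v 0) (.v 0)) (.mp (.v 0)
    (.v 0)))))) (.mp (.c 47 25000000) (.mp (.mp (.mp (.mp (.v 0) (.v 0)) (.mp (.v 0) (.v 0))) (.mp
    (.mp (.v 0) (.v 0)) (.mp (.v 0) (.v 0)))) (.mp (.mp (.mp (.v 0) (.v 0)) (.mp (.v 0) (.v 0)))
    (.mp (.mp (.v 0) (.v 0)) (.mp (.v 0) (.v 0))))))), []⟩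

def invR : Step :=
  ⟨0, 5, (.add (.add (.add (.add (.c 11 1000) (.mp (.c 2547 5000) (.v 0))) (.mp (.c 157 10000)
    (.mp (.mp (.v 0) (.v 0)) (.mp (.v 0) (.v 0))))) (.mp (.c 609 1000000) (.mp (.mp (.mp (.v 0)
    (.v 0)) (.mp (.v 0) (.v 0))) (.mp (.mp (.v 0) (.v 0)) (.mp (.v 0) (.v 0)))))) (.mp (.c 33
    2500000) (.mp (.mp (.mp (.mp (.v 0) (.v 0)) (.mp (.v 0) (.v 0))) (.mp (.mp (.v 0) (.v 0)) (.mp
    (.v 0) (.v 0)))) (.mp (.mp (.mp (.v 0) (.v 0)) (.mp (.v 0) (.v 0))) (.mp (.mp (.v 0) (.v 0))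
    (.mp (.v 0) (.v 0))))))), []⟩

def invS : Step :=
  ⟨0, 6, (.add (.add (.add (.add (.add (.c 701 100000) (.mp (.c 377 1000000) (.v 0))) (.mp (.c 259
    2000) (.mp (.v 0) (.v 0)))) (.mp (.c 51 5000) (.mp (.mp (.v 0) (.v 0)) (.mp (.v 0) (.v 0)))))
    (.mp (.c 101 50000) (.mp (.mp (.mp (.v 0) (.v 0)) (.mp (.v 0) (.v 0))) (.mp (.mp (.v 0) (.v
    0)) (.mp (.v 0) (.v 0)))))) (.mp (.c 31 2000000) (.mp (.mp (.mp (.mp (.v 0) (.v 0)) (.mp (.v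
    0) (.v 0))) (.mp (.mp (.v 0) (.v 0)) (.mp (.v 0) (.v 0)))) (.mp (.mp (.mp (.v 0) (.v 0)) (.mp
    (.v 0) (.v 0))) (.mp (.mp (.v 0) (.v 0)) (.mp (.v 0) (.v 0))))))), []⟩

def c1Lb : Step :=
  ⟨1, 18, (.sqrt (.sub (.c 4 1) (.sq (.v 5)))), []⟩

def nE : Step :=
  ⟨0, 7, (.v 3), []⟩

def nuH : Step :=
  ⟨0, 8, (.min (.v 4) (.v 7)), []⟩

def sB3 : Step :=
  ⟨0, 22, (.c 3 1), [(.min (.sub (.max (.v 11) (.v 6)) (.c 3 4)) (.sub (.v 1) (.c 63 256)))]⟩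

def bD : Step :=
  ⟨0, 13, (.mp (.v 1) (.v 22)), [(.sub (.v 22) (.c 99 1))]⟩

def sLeB : Step :=
  ⟨0, 11, (.v 13), []⟩

def s1LeB : Step :=
  ⟨0, 6, (.v 13), []⟩

def tcp : Step :=
  ⟨0, 9, (.add (.sub (.min (.v 5) (.mp (.c 1 2) (.add (.add (.add (.add (.add (.c 31 2000) (.mp
    (.c 497 1000) (.v 0))) (.mp (.c 33 1250) (.mp (.v 0) (.v 0)))) (.mp (.c 101 10000) (.mp (.mp
    (.v 0) (.v 0)) (.mp (.v 0) (.v 0))))) (.mp (.c 7 2000) (.mp (.mp (.mp (.v 0) (.v 0)) (.mp (.v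
    0) (.v 0))) (.mp (.mp (.v 0) (.v 0)) (.mp (.v 0) (.v 0)))))) (.mp (.c 243 10000000) (.mp (.mp
    (.mp (.mp (.v 0) (.v 0)) (.mp (.v 0) (.v 0))) (.mp (.mp (.v 0) (.v 0)) (.mp (.v 0) (.v 0))))
    (.mp (.mp (.mp (.v 0) (.v 0)) (.mp (.v 0) (.v 0))) (.mp (.mp (.v 0) (.v 0)) (.mp (.v 0) (.v
    0))))))))) (.k (.sqrt (.c 3 1)))) (.sqrt (.add (.add (.c 3 1) (.mp (.c 3 1) (.v 1))) (.mp (.c
    1 4) (.mp (.v 5) (.v 5)))))), []⟩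

def pL : Step :=
  ⟨0, 9, (.c 7 5), []⟩

def rhoUb : Step :=
  ⟨0, 16, (.add (.v 9) (.v 8)), []⟩

def crLb : Step :=
  ⟨1, 17, (.sqrt (.sub (.c 4 1) (.sq (.v 16)))), []⟩

def r3 : Step :=
  ⟨0, 10, (.min (.mp (.add (.add (.v 21) (.mp (.c 2 1) (.v 7))) (.mp (.v 8) (.v 11))) (.inv (.v
    17))) (.mp (.c 1 2) (.add (.add (.v 21) (.mp (.c 2 1) (.v 7))) (.mp (.v 16) (.v 11))))), []⟩

def zY : Step :=
  ⟨0, 2, (.v 10), []⟩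

def fz : Step :=
  ⟨0, 14, (.min (.v 11) (.mp (.mp (.add (.v 2) (.v 4)) (.add (.sqrt (.sub (.c 4 1) (.sq (.sub (.c
    1 1) (.v 14))))) (.k (.sqrt (.c 3 1))))) (.inv (.sub (.c 2 1) (.v 14))))), [(.sub (.v 11) (.c
    1 1))]⟩

def pY : Step :=
  ⟨0, 9, (.v 10), []⟩

def pM : Step :=
  ⟨0, 9, (.max (.sub (.u 10) (.l 2)) (.min (.sub (.k (.sqrt (.c 3 1))) (.sqrt (.sub (.c 4 1) (.sq
    (.add (.c 1 1) (.v 14)))))) (.v 2))), [(.sub (.v 11) (.c 1 1))]⟩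

def r4a : Step :=
  ⟨0, 12, (.mp (.add (.mp (.c 2 1) (.mp (.v 9) (.v 10))) (.add (.min (.mp (.min (.mp (.c 2 1) (.v
    9)) (.v 10)) (.mp (.c 2 1) (.v 7))) (.mp (.c 4 1) (.mp (.v 8) (.v 10)))) (.mp (.c 2 1) (.mp
    (.v 8) (.v 7))))) (.inv (.add (.c 2 1) (.v 17)))), []⟩

def r4b : Step :=
  ⟨0, 12, (.mp (.add (.mp (.c 2 1) (.add (.add (.mp (.min (.u 9) (.sub (.u 10) (.l 2))) (.min (.u
    9) (.sub (.u 10) (.l 2)))) (.mp (.min (.min (.u 9) (.sub (.u 10) (.l 2))) (.sub (.sub (.u 10)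
    (.l 2)) (.min (.u 9) (.sub (.u 10) (.l 2))))) (.sub (.sub (.u 10) (.l 2)) (.min (.u 9) (.sub
    (.u 10) (.l 2)))))) (.add (.mp (.min (.sub (.k (.sqrt (.c 3 1))) (.sqrt (.sub (.c 4 1) (.sq
    (.add (.c 1 1) (.u 14)))))) (.u 2)) (.min (.sub (.k (.sqrt (.c 3 1))) (.sqrt (.sub (.c 4 1)
    (.sq (.add (.c 1 1) (.u 14)))))) (.u 2))) (.mp (.min (.min (.sub (.k (.sqrt (.c 3 1))) (.sqrt
    (.sub (.c 4 1) (.sq (.add (.c 1 1) (.u 14)))))) (.u 2)) (.sub (.u 2) (.min (.sub (.k (.sqrt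
    (.c 3 1))) (.sqrt (.sub (.c 4 1) (.sq (.add (.c 1 1) (.u 14)))))) (.u 2)))) (.sub (.u 2) (.min
    (.sub (.k (.sqrt (.c 3 1))) (.sqrt (.sub (.c 4 1) (.sq (.add (.c 1 1) (.u 14)))))) (.u
    2))))))) (.add (.min (.mp (.min (.mp (.c 2 1) (.v 9)) (.v 10)) (.mp (.c 2 1) (.v 7))) (.mp (.c
    4 1) (.mp (.v 8) (.v 10)))) (.mp (.c 2 1) (.mp (.v 8) (.v 7))))) (.inv (.add (.c 2 1) (.v
    17)))), [(.sub (.v 11) (.c 1 1)), (.sub (.u 14) (.c 1 1))]⟩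

def sSs : Step :=
  ⟨0, 11, (.v 12), []⟩

def sSD : Step :=
  ⟨0, 23, (.mp (.v 12) (.inv (.v 1))), [(.sub (.c 1 1024) (.v 1))]⟩

def s1D : Step :=
  ⟨0, 24, (.mp (.v 6) (.inv (.v 1))), [(.sub (.c 1 1024) (.v 1))]⟩

def bS : Step :=
  ⟨0, 13, (.add (.v 11) (.v 6)), []⟩

def sBs : Step :=
  ⟨0, 22, (.add (.v 23) (.v 24)), [(.sub (.v 23) (.c 99 1)), (.sub (.v 24) (.c 99 1))]⟩

def gTC : Step :=
  ⟨0, 25, (.max (.mp (.c 3 1) (.inv (.sqrt (.sub (.c 4 1) (.sq (.add (.c 1 1) (.u 13))))))) (.add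
    (.mp (.sub (.c 3 1) (.u 22)) (.inv (.sqrt (.sub (.c 4 1) (.sq (.add (.c 1 1) (.u 13)))))))
    (.mp (.c 2 1) (.mp (.u 22) (.mp (.add (.c 2 1) (.u 13)) (.inv (.add (.sqrt (.sub (.c 4 1) (.sq
    (.add (.c 1 1) (.u 13))))) (.k (.sqrt (.c 3 1)))))))))), [(.sub (.u 13) (.c 9 10)), (.min
    (.sub (.max (.v 11) (.v 6)) (.c 3 4)) (.sub (.v 1) (.c 63 256))), (.sub (.u 22) (.c 99 1))]⟩

def gId : Step :=
  ⟨0, 25, (.add (.mp (.add (.c 1 1) (.mp (.c 1 3) (.add (.mp (.v 23) (.add (.v 11) (.min (.v 11)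
    (.sub (.c 2 1) (.v 17))))) (.mp (.v 24) (.add (.v 6) (.min (.v 6) (.sub (.c 2 1) (.v
    18)))))))) (.inv (.sub (.c 1 1) (.v 13)))) (.mp (.c 2 1) (.mp (.v 22) (.mp (.add (.c 2 1) (.v
    13)) (.inv (.add (.sqrt (.sub (.c 4 1) (.sq (.add (.c 1 1) (.v 13))))) (.k (.sqrt (.c 3
    1))))))))), [(.sub (.v 13) (.c 9 10)), (.sub (.v 11) (.c 3 4)), (.sub (.v 6) (.c 3 4)), (.sub
    (.v 23) (.c 99 1)), (.sub (.v 24) (.c 99 1)), (.sub (.v 22) (.c 99 1))]⟩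

def wS : Step :=
  ⟨0, 23, (.mp (.v 16) (.mp (.v 25) (.inv (.add (.c 2 1) (.v 17))))), [(.sub (.v 25) (.c 99 1)),
    (.sub (.v 13) (.c 1 1))]⟩

def wS1 : Step :=
  ⟨0, 24, (.mp (.mp (.v 5) (.v 25)) (.inv (.add (.c 2 1) (.v 18)))), [(.sub (.v 25) (.c 99 1)),
    (.sub (.v 13) (.c 1 1))]⟩

def ssD : Step :=
  ⟨0, 12, (.mp (.v 1) (.v 23)), [(.sub (.v 23) (.c 99 1))]⟩

def s1Ub : Step :=
  ⟨0, 6, (.mp (.v 1) (.v 24)), [(.sub (.v 24) (.c 99 1))]⟩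

def fS : Step :=
  ⟨0, 14, (.v 11), []⟩

def peak : Step :=
  ⟨0, 9, (.mp (.c 1 3) (.add (.v 10) (.mp (.c 100 81) (.mp (.sqrt (.max (.sq (.add (.c 2 1) (.v
    12))) (.add (.c 4 1) (.mp (.v 16) (.v 16))))) (.v 1))))), [(.sub (.max (.sq (.add (.c 2 1) (.v
    12))) (.add (.c 4 1) (.mp (.v 16) (.v 16)))) (.c 8 1))]⟩

def zsUb : Step :=
  ⟨0, 15, (.min (.v 14) (.mp (.mp (.v 8) (.add (.sqrt (.sub (.c 4 1) (.sq (.sub (.c 1 1) (.v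
    15))))) (.k (.sqrt (.c 3 1))))) (.inv (.sub (.c 2 1) (.v 15))))), [(.sub (.v 11) (.c 1 1))]⟩

def dEa1 : Step :=
  ⟨0, 19, (.add (.mp (.mp (.add (.c 39 50) (.mp (.c 13 50) (.mp (.v 14) (.v 14)))) (.mp (.add
    (.sqrt (.sub (.c 4 1) (.sq (.sub (.c 1 1) (.v 14))))) (.k (.sqrt (.c 3 1)))) (.inv (.sub (.c 2
    1) (.v 14))))) (.mp (.min (.v 23) (.mp (.v 14) (.inv (.v 1)))) (.add (.v 2) (.mp (.c 3 2) (.v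
    3))))) (.add (.mp (.c 667 1000) (.mp (.min (.v 23) (.mp (.v 14) (.inv (.v 1)))) (.v 3))) (.mp
    (.mp (.add (.mp (.mp (.add (.v 24) (.min (.v 23) (.mp (.v 15) (.inv (.v 1))))) (.add (.c 8 1)
    (.mp (.c 4 1) (.add (.v 6) (.v 15))))) (.inv (.mp (.k (.sqrt (.c 3 1))) (.mp (.sqrt (.sub (.c
    4 1) (.sq (.add (.c 1 1) (.add (.v 6) (.v 15)))))) (.add (.k (.sqrt (.c 3 1))) (.sqrt (.sub
    (.c 4 1) (.sq (.add (.c 1 1) (.add (.v 6) (.v 15))))))))))) (.mp (.c 77 200) (.min (.v 23)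
    (.mp (.v 15) (.inv (.v 1)))))) (.v 7)) (.mp (.add (.sqrt (.sub (.c 4 1) (.sq (.sub (.c 1 1)
    (.v 15))))) (.k (.sqrt (.c 3 1)))) (.inv (.sub (.c 2 1) (.v 15))))))), [(.sub (.v 14) (.c 7
    10)), (.sub (.v 11) (.c 1 1)), (.sub (.add (.v 6) (.v 15)) (.c 9 10)), (.sub (.v 23) (.c 99
    1)), (.sub (.v 24) (.c 99 1)), (.sub (.c 1 1024) (.v 1))]⟩

def dEb1 : Step :=
  ⟨0, 19, (.add (.mp (.mp (.add (.c 39 50) (.mp (.c 13 50) (.mp (.v 14) (.v 14)))) (.mp (.add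
    (.sqrt (.sub (.c 4 1) (.sq (.sub (.c 1 1) (.v 14))))) (.k (.sqrt (.c 3 1)))) (.inv (.sub (.c 2
    1) (.v 14))))) (.mp (.mp (.v 25) (.inv (.add (.c 2 1) (.v 17)))) (.max (.sub (.sq (.mp (.c 1
    2) (.add (.add (.u 10) (.u 8)) (.mp (.c 3 2) (.u 3))))) (.sq (.sub (.max (.v 2) (.sub (.u 10)
    (.u 9))) (.mul (.c 1 2) (.sub (.add (.u 10) (.u 8)) (.mp (.c 3 2) (.u 3))))))) (.mp (.add
    (.min (.sub (.k (.sqrt (.c 3 1))) (.sqrt (.sub (.c 4 1) (.sq (.add (.c 1 1) (.v 14)))))) (.v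
    2)) (.v 8)) (.add (.v 2) (.mp (.c 3 2) (.v 3))))))) (.add (.mp (.c 667 1000) (.mp (.min (.v
    23) (.mp (.v 14) (.inv (.v 1)))) (.v 3))) (.mp (.mp (.add (.mp (.mp (.add (.v 24) (.min (.v
    23) (.mp (.v 15) (.inv (.v 1))))) (.add (.c 8 1) (.mp (.c 4 1) (.add (.v 6) (.v 15))))) (.inv
    (.mp (.k (.sqrt (.c 3 1))) (.mp (.sqrt (.sub (.c 4 1) (.sq (.add (.c 1 1) (.add (.v 6) (.v
    15)))))) (.add (.k (.sqrt (.c 3 1))) (.sqrt (.sub (.c 4 1) (.sq (.add (.c 1 1) (.add (.v 6)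
    (.v 15))))))))))) (.mp (.c 77 200) (.min (.v 23) (.mp (.v 15) (.inv (.v 1)))))) (.v 7)) (.mp
    (.add (.sqrt (.sub (.c 4 1) (.sq (.sub (.c 1 1) (.v 15))))) (.k (.sqrt (.c 3 1)))) (.inv (.sub
    (.c 2 1) (.v 15))))))), [(.sub (.v 14) (.c 7 10)), (.sub (.v 11) (.c 1 1)), (.sub (.add (.v 6)
    (.v 15)) (.c 9 10)), (.sub (.v 23) (.c 99 1)), (.sub (.v 24) (.c 99 1)), (.sub (.c 1 1024) (.v
    1)), (.sub (.v 25) (.c 99 1)), (.sub (.v 13) (.c 1 1))]⟩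

def dh1 : Step :=
  ⟨0, 20, (.max (.mp (.add (.c 39 50) (.mp (.c 13 50) (.mp (.v 14) (.v 14)))) (.mp (.v 14) (.min
    (.v 23) (.mp (.v 14) (.inv (.v 1)))))) (.mp (.v 15) (.add (.mp (.mp (.add (.v 24) (.min (.v
    23) (.mp (.v 15) (.inv (.v 1))))) (.add (.c 8 1) (.mp (.c 4 1) (.add (.v 6) (.v 15))))) (.inv
    (.mp (.k (.sqrt (.c 3 1))) (.mp (.sqrt (.sub (.c 4 1) (.sq (.add (.c 1 1) (.add (.v 6) (.v
    15)))))) (.add (.k (.sqrt (.c 3 1))) (.sqrt (.sub (.c 4 1) (.sq (.add (.c 1 1) (.add (.v 6)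
    (.v 15))))))))))) (.mp (.c 77 200) (.min (.v 23) (.mp (.v 15) (.inv (.v 1)))))))), [(.sub (.v
    14) (.c 7 10)), (.sub (.v 11) (.c 1 1)), (.sub (.add (.v 6) (.v 15)) (.c 9 10)), (.sub (.v 23)
    (.c 99 1)), (.sub (.v 24) (.c 99 1)), (.sub (.c 1 1024) (.v 1))]⟩

def dEb0 : Step :=
  ⟨0, 19, (.add (.mp (.mp (.add (.c 39 50) (.mp (.c 13 50) (.mp (.v 14) (.v 14)))) (.mp (.add
    (.sqrt (.sub (.c 4 1) (.sq (.sub (.c 1 1) (.v 14))))) (.k (.sqrt (.c 3 1)))) (.inv (.sub (.c 2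
    1) (.v 14))))) (.mp (.mp (.v 25) (.inv (.add (.c 2 1) (.v 17)))) (.max (.sub (.sq (.mp (.c 1
    2) (.add (.add (.u 10) (.u 8)) (.mp (.c 3 2) (.u 3))))) (.sq (.sub (.max (.v 2) (.sub (.u 10)
    (.u 9))) (.mul (.c 1 2) (.sub (.add (.u 10) (.u 8)) (.mp (.c 3 2) (.u 3))))))) (.mp (.add
    (.min (.sub (.k (.sqrt (.c 3 1))) (.sqrt (.sub (.c 4 1) (.sq (.add (.c 1 1) (.v 14)))))) (.v
    2)) (.v 8)) (.add (.v 2) (.mp (.c 3 2) (.v 3))))))) (.add (.mp (.c 667 1000) (.mp (.v 23) (.v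
    3))) (.mp (.mp (.add (.mp (.mp (.add (.v 24) (.v 23)) (.add (.c 8 1) (.mp (.c 4 1) (.add (.v
    6) (.v 15))))) (.inv (.mp (.k (.sqrt (.c 3 1))) (.mp (.sqrt (.sub (.c 4 1) (.sq (.add (.c 1 1)
    (.add (.v 6) (.v 15)))))) (.add (.k (.sqrt (.c 3 1))) (.sqrt (.sub (.c 4 1) (.sq (.add (.c 1
    1) (.add (.v 6) (.v 15))))))))))) (.mp (.c 77 200) (.v 23))) (.v 7)) (.mp (.add (.sqrt (.sub
    (.c 4 1) (.sq (.sub (.c 1 1) (.v 15))))) (.k (.sqrt (.c 3 1)))) (.inv (.sub (.c 2 1) (.v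
    15))))))), [(.sub (.v 14) (.c 7 10)), (.sub (.v 11) (.c 1 1)), (.sub (.add (.v 6) (.v 15)) (.c
    9 10)), (.sub (.v 23) (.c 99 1)), (.sub (.v 24) (.c 99 1)), (.sub (.v 25) (.c 99 1)), (.sub
    (.v 13) (.c 1 1))]⟩

def dh0 : Step :=
  ⟨0, 20, (.max (.mp (.add (.c 39 50) (.mp (.c 13 50) (.mp (.v 14) (.v 14)))) (.mp (.v 14) (.v
    23))) (.mp (.v 15) (.add (.mp (.mp (.add (.v 24) (.v 23)) (.add (.c 8 1) (.mp (.c 4 1) (.add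
    (.v 6) (.v 15))))) (.inv (.mp (.k (.sqrt (.c 3 1))) (.mp (.sqrt (.sub (.c 4 1) (.sq (.add (.c
    1 1) (.add (.v 6) (.v 15)))))) (.add (.k (.sqrt (.c 3 1))) (.sqrt (.sub (.c 4 1) (.sq (.add
    (.c 1 1) (.add (.v 6) (.v 15))))))))))) (.mp (.c 77 200) (.v 23))))), [(.sub (.v 14) (.c 7
    10)), (.sub (.v 11) (.c 1 1)), (.sub (.add (.v 6) (.v 15)) (.c 9 10)), (.sub (.v 23) (.c 99
    1)), (.sub (.v 24) (.c 99 1))]⟩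

def nHalf : Step :=
  ⟨0, 7, (.mp (.c 1 2) (.add (.v 3) (.mp (.v 1) (.v 19)))), [(.sub (.v 19) (.c 99 1))]⟩

def killE : Step :=
  ⟨3, 0, (.c 0 1), [(.sub (.v 19) (.add (.add (.add (.add (.c 301 100000) (.mp (.c 37 2500) (.add
    (.mp (.v 21) (.v 21)) (.add (.mp (.v 21) (.v 0)) (.mp (.v 0) (.v 0)))))) (.mp (.c 17 10000)
    (.mp (.add (.v 21) (.v 0)) (.add (.mp (.v 21) (.v 21)) (.mp (.v 0) (.v 0)))))) (.mp (.c 119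
    50000) (.mp (.mp (.add (.v 21) (.v 0)) (.add (.mp (.v 21) (.v 21)) (.mp (.v 0) (.v 0)))) (.add
    (.mp (.mp (.v 21) (.v 21)) (.mp (.v 21) (.v 21))) (.mp (.mp (.v 0) (.v 0)) (.mp (.v 0) (.v
    0))))))) (.mp (.c 79 5000000) (.mp (.mp (.mp (.add (.v 21) (.v 0)) (.add (.mp (.v 21) (.v 21))
    (.mp (.v 0) (.v 0)))) (.add (.mp (.mp (.v 21) (.v 21)) (.mp (.v 21) (.v 21))) (.mp (.mp (.v 0)
    (.v 0)) (.mp (.v 0) (.v 0))))) (.add (.mp (.mp (.mp (.v 21) (.v 21)) (.mp (.v 21) (.v 21)))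
    (.mp (.mp (.v 21) (.v 21)) (.mp (.v 21) (.v 21)))) (.mp (.mp (.mp (.v 0) (.v 0)) (.mp (.v 0)
    (.v 0))) (.mp (.mp (.v 0) (.v 0)) (.mp (.v 0) (.v 0)))))))))]⟩

def killH : Step :=
  ⟨3, 0, (.c 0 1), [(.sub (.v 20) (.add (.add (.add (.add (.c 1 500) (.mp (.c 123 50000) (.add
    (.mp (.v 21) (.v 21)) (.add (.mp (.v 21) (.v 0)) (.mp (.v 0) (.v 0)))))) (.mp (.c 59 10000)
    (.mp (.add (.v 21) (.v 0)) (.add (.mp (.v 21) (.v 21)) (.mp (.v 0) (.v 0)))))) (.mp (.c 19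
    12500) (.mp (.mp (.add (.v 21) (.v 0)) (.add (.mp (.v 21) (.v 21)) (.mp (.v 0) (.v 0)))) (.add
    (.mp (.mp (.v 21) (.v 21)) (.mp (.v 21) (.v 21))) (.mp (.mp (.v 0) (.v 0)) (.mp (.v 0) (.v
    0))))))) (.mp (.c 47 25000000) (.mp (.mp (.mp (.add (.v 21) (.v 0)) (.add (.mp (.v 21) (.v
    21)) (.mp (.v 0) (.v 0)))) (.add (.mp (.mp (.v 21) (.v 21)) (.mp (.v 21) (.v 21))) (.mp (.mp
    (.v 0) (.v 0)) (.mp (.v 0) (.v 0))))) (.add (.mp (.mp (.mp (.v 21) (.v 21)) (.mp (.v 21) (.v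
    21))) (.mp (.mp (.v 21) (.v 21)) (.mp (.v 21) (.v 21)))) (.mp (.mp (.mp (.v 0) (.v 0)) (.mp
    (.v 0) (.v 0))) (.mp (.mp (.v 0) (.v 0)) (.mp (.v 0) (.v 0)))))))))]⟩

def killR : Step :=
  ⟨3, 0, (.c 0 1), [(.sub (.v 12) (.add (.add (.add (.add (.add (.c 701 100000) (.mp (.c 377
    1000000) (.v 21))) (.mp (.c 259 2000) (.mp (.v 21) (.v 21)))) (.mp (.c 51 5000) (.mp (.mp (.v
    21) (.v 21)) (.mp (.v 21) (.v 21))))) (.mp (.c 101 50000) (.mp (.mp (.mp (.v 21) (.v 21)) (.mp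
    (.v 21) (.v 21))) (.mp (.mp (.v 21) (.v 21)) (.mp (.v 21) (.v 21)))))) (.mp (.c 31 2000000)
    (.mp (.mp (.mp (.mp (.v 21) (.v 21)) (.mp (.v 21) (.v 21))) (.mp (.mp (.v 21) (.v 21)) (.mp
    (.v 21) (.v 21)))) (.mp (.mp (.mp (.v 21) (.v 21)) (.mp (.v 21) (.v 21))) (.mp (.mp (.v 21)
    (.v 21)) (.mp (.v 21) (.v 21)))))))), (.sub (.v 16) (.add (.add (.add (.add (.c 11 1000) (.mp
    (.c 2547 5000) (.v 21))) (.mp (.c 157 10000) (.mp (.mp (.v 21) (.v 21)) (.mp (.v 21) (.v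
    21))))) (.mp (.c 609 1000000) (.mp (.mp (.mp (.v 21) (.v 21)) (.mp (.v 21) (.v 21))) (.mp (.mp
    (.v 21) (.v 21)) (.mp (.v 21) (.v 21)))))) (.mp (.c 33 2500000) (.mp (.mp (.mp (.mp (.v 21)
    (.v 21)) (.mp (.v 21) (.v 21))) (.mp (.mp (.v 21) (.v 21)) (.mp (.v 21) (.v 21)))) (.mp (.mp
    (.mp (.v 21) (.v 21)) (.mp (.v 21) (.v 21))) (.mp (.mp (.v 21) (.v 21)) (.mp (.v 21) (.v
    21)))))))), (.sub (.add (.v 10) (.mp (.c 2 1) (.v 8))) (.add (.add (.add (.add (.add (.c 31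
    2000) (.mp (.c 497 1000) (.v 21))) (.mp (.c 33 1250) (.mp (.v 21) (.v 21)))) (.mp (.c 101
    10000) (.mp (.mp (.v 21) (.v 21)) (.mp (.v 21) (.v 21))))) (.mp (.c 7 2000) (.mp (.mp (.mp (.v
    21) (.v 21)) (.mp (.v 21) (.v 21))) (.mp (.mp (.v 21) (.v 21)) (.mp (.v 21) (.v 21)))))) (.mp
    (.c 243 10000000) (.mp (.mp (.mp (.mp (.v 21) (.v 21)) (.mp (.v 21) (.v 21))) (.mp (.mp (.v
    21) (.v 21)) (.mp (.v 21) (.v 21)))) (.mp (.mp (.mp (.v 21) (.v 21)) (.mp (.v 21) (.v 21)))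
    (.mp (.mp (.v 21) (.v 21)) (.mp (.v 21) (.v 21))))))))]⟩

def lLe : List Step :=
  [aUb, dEq, aEq, a0Eq, invE, invH, invS, nE, nuH, pL, rhoUb, crLb, r3, zY, fz, pY, pM, r4a, r4b,
    sSs, sSD, s1D, bS, sBs, bD, gId, wS, sSs, fS, zsUb, dEa1, dEb1, killE]

def lLh : List Step :=
  [aUb, a0Eq, aEq, invE, invH, invS, nE, nuH, pL, rhoUb, crLb, r3, zY, fz, pY, pM, r4a, r4b, sSs,
    sSD, s1D, bS, sBs, bD, gId, wS, ssD, sSs, fS, zsUb, dh1, killH]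

def lLR : List Step :=
  [aUb, a0Eq, invE, invH, nE, nuH, pL, rhoUb, crLb, r3, pY, r4a, sBs, wS, wS1, ssD, sSs, dEa1,
    dEb1, killR]

def lSe : List Step :=
  [dUb, aEq, aUb, invE, invH, invR, invS, c1Lb, nE, nuH, tcp, rhoUb, crLb, r3, zY, pY, pM, r4a,
    r4b, sSs, sSD, s1D, bS, sB3, sBs, bD, gTC, gId, wS, wS1, ssD, sSs, s1Ub, fS, peak, zsUb, dEa1,
    dEb1, killE]

def lSh : List Step :=
  [dUb, aEq, aUb, invE, invH, invR, invS, c1Lb, nE, nuH, tcp, rhoUb, crLb, r3, zY, pY, r4a, sSs,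
    sSD, s1D, bS, sB3, sBs, bD, gTC, gId, wS, wS1, ssD, sSs, s1Ub, fS, peak, zsUb, dh1, killH]

def lSR : List Step :=
  [a0Eq, invE, invH, invR, nE, nuH, tcp, rhoUb, crLb, r3, pY, r4a, sSs, sB3, bD, gTC, wS, ssD,
    sSs, peak, dEa1, dEb1, killR]

def lTe : List Step :=
  [dUb, aEq, aUb, invE, invH, invR, c1Lb, nE, nuH, sB3, bD, sLeB, s1LeB, rhoUb, crLb, r3, zY, pY,
    sBs, bD, gTC, gId, wS, wS1, ssD, sSs, s1Ub, fS, peak, zsUb, dEb0, nHalf, killE]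

def lTh : List Step :=
  [dUb, aEq, aUb, invE, invH, invR, c1Lb, nE, nuH, sB3, sLeB, s1LeB, tcp, rhoUb, crLb, r3, zY, pY,
    sBs, bD, gTC, gId, wS, wS1, ssD, sSs, s1Ub, fS, peak, zsUb, dh0, killH]

def lTR : List Step :=
  [aUb, a0Eq, dEq, invE, invH, invR, c1Lb, nE, nuH, sB3, bD, sLeB, s1LeB, rhoUb, crLb, r3, zY, pY,
    sBs, bD, gTC, gId, wS, wS1, ssD, sSs, s1Ub, fS, peak, zsUb, dEb0, nHalf, killR]

/-- bounds for all variables except `a` and `D`, in units of 1/1024 -/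
def bx : List (ℤ × ℤ) :=
  [(0, 8192), (0, 1024), (0, 1024), (0, 1280), (0, 1024), (0, 1024), (0, 1024), (0, 1741), (0,
    8192), (0, 10240), (0, 10240), (0, 11264), (0, 10240), (0, 10240), (0, 2048), (0, 2048), (0,
    2048), (0, 102400), (0, 102400), (0, 2048), (0, 102400), (0, 102400), (0, 102400), (0,
    102400)]

end St

/-- the variables lie in the box -/
def S_scBox : Prop := ∀ s : Sc, Icp.inB s.x 2 St.bx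

def S_scA : Prop := ∀ s : Sc,
  St.dUb.holds s.x ∧ St.aEq.holds s.x ∧ St.aUb.holds s.x ∧ St.dEq.holds s.x ∧ St.a0Eq.holds s.x ∧
    St.invE.holds s.x ∧ St.invH.holds s.x ∧ St.invR.holds s.x ∧ St.invS.holds s.x ∧ St.c1Lb.holds
    s.x ∧ St.nE.holds s.x ∧ St.nuH.holds s.x ∧ St.sLeB.holds s.x ∧ St.s1LeB.holds s.x ∧
    St.rhoUb.holds s.x ∧ St.crLb.holds s.x ∧ St.r3.holds s.x ∧ St.zY.holds s.x ∧ St.fz.holds s.x ∧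
    St.pY.holds s.x ∧ St.pM.holds s.x ∧ St.r4a.holds s.x ∧ St.r4b.holds s.x ∧ St.sSs.holds s.x ∧
    St.bS.holds s.x ∧ St.fS.holds s.x ∧ St.zsUb.holds s.x ∧ (s.RegL → St.pL.holds s.x) ∧ (s.RegS →
    St.tcp.holds s.x ∧ St.peak.holds s.x)

def S_scB : Prop := ∀ s : Sc, s.RegS ∨ s.RegL →
  St.bD.holds s.x ∧ St.sSD.holds s.x ∧ St.s1D.holds s.x ∧ St.sBs.holds s.x ∧ St.gId.holds s.x ∧
    St.wS.holds s.x ∧ St.wS1.holds s.x ∧ St.ssD.holds s.x ∧ St.s1Ub.holds s.x ∧ (s.RegS →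
    St.sB3.holds s.x ∧ St.gTC.holds s.x)

def S_scC : Prop := ∀ s : Sc, s.RegS ∨ s.RegL →
  St.dEa1.holds s.x ∧ St.dEb1.holds s.x ∧ St.dEb0.holds s.x ∧ St.dh1.holds s.x ∧ St.dh0.holds s.x
    ∧ St.nHalf.holds s.x

/-- what the three final rules mean -/
def S_scK : Prop := ∀ s : Sc, s.RegS ∨ s.RegL →
  (¬ St.killE.holds s.x → s.E ≤ eF (s.a + s.D)) ∧ (¬ St.killH.holds s.x → s.h ≤ hF (s.a + s.D)) ∧
  (¬ St.killR.holds s.x → s.Ss ≤ sF (s.a + s.D) ∧ s.P + s.nu ≤ rF (s.a + s.D) ∧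
    s.Y + 2 * s.nu ≤ tF (s.a + s.D))

end

end Pool.Agent.P.MP_dd077d_co
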