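import Pool.Agent.P.MP_dd077d_co.Iface1
import Pool.Agent.P.MP_dd077d_co.ScDefs

/-!
Rows of displaced lattice points: definitions and statements.
`φ` is the displacement to the right, `w` the displacement downwards.
-/

set_option linter.dupNamespace false

namespace Pool.Agent.P.MP_dd077d_co

noncomputable section

open Classical

/-- properties of the groove profile -/
def S_g : Prop :=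
  g 0 = 0 ∧ (∀ x, g (-x) = Rm x - s3) ∧ (∀ x, g (2 - x) = g x) ∧
  (∀ x y, x ≤ y → y ≤ 1 → g x ≤ g y) ∧
  (∀ x y d, -1 ≤ x → x ≤ y → 0 ≤ d → y + d ≤ 3 → g (y + d) - g y ≤ g (x + d) - g x) ∧
  (∀ x, g x + g (-x) ≤ 0) ∧
  (∀ y z, 0 ≤ y → y ≤ 1 → 0 ≤ z → z ≤ 1 → g y + g z - g (y + z) ≤ 0.77 * (y * z)) ∧
  (∀ z, 0 ≤ z → z ≤ 1 → 1.1547 * z ≤ g z - g (-z)) ∧
  (∀ x, 0 ≤ x → x ≤ 3 / 4 → -g x - g (-x) ≤ muF x * x ^ 2) ∧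
  (∀ x, 0 ≤ x → x ≤ 2 → g x * (Rp x + s3) = x * (2 - x)) ∧
  (∀ x, 0 ≤ x → x ≤ 1 → (s3 - Rm x) * (Rm x + s3) = x * (2 + x)) ∧
  (∀ x u t, 0 ≤ x → x ≤ 1 → u ≤ 1 → 0 ≤ t → t ≤ 9 / 10 → -t ≤ u - x →
    g u - g (u - x) - g x ≤ x * ccF t x) ∧
  (∀ t, 0.51 ≤ t → t ≤ 1 → 0.206 ≤ g t) ∧ (∀ t, 0 ≤ t → t ≤ 1 → t / 4 ≤ g t)

/-- a row: finitely many points are displaced -/
structure Row where
  φ : ℤ → ℝ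
  w : ℤ → ℝ
  fin : ∃ n : ℕ, ∀ i : ℤ, (n : ℤ) ≤ |i| → φ i = 0 ∧ w i = 0

namespace Row

variable (R : Row)

def y (i : ℤ) : ℝ := R.φ (i + 1) - R.φ i
def T (i : ℤ) : ℝ := R.w (i + 1) - R.w i
def A : ℝ := ∑' i, (2 + R.y i) * ((R.w i + R.w (i + 1)) / 2)
def S : ℝ := ∑' i, max (R.y i) 0
def Ss : ℝ := ∑' i, (2 - Real.sqrt (4 - R.T i ^ 2))
def Y : ℝ := ∑' i, max (R.w i) 0
def N : ℝ := ∑' i, max (-R.w i) 0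
def ah (i : ℤ) : ℝ := R.w i + g (R.φ i)
def bh (i : ℤ) : ℝ := R.w i + g (-R.φ i)
def E : ℝ := ∑' i, (max (-R.ah i) 0 + max (-R.bh i) 0)
def P : ℝ := ⨆ i, max (R.w i) 0
def nu : ℝ := ⨆ i, max (-R.w i) 0
def eta : ℝ := ⨆ i, max (max (-R.ah i) (-R.bh i)) 0
def bad (i : ℤ) : Prop := R.w i + g (-|R.φ i|) < 0
def bad2 (i : ℤ) : Prop := R.w i + g |R.φ i| < 0
def z : ℝ := ∑' i, if R.bad i then max (R.w i) 0 else 0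
def f : ℝ := ⨆ i, if R.bad i then |R.φ i| else 0
def zs : ℝ := ⨆ i, if R.bad2 i then |R.φ i| else 0
def rho : ℝ := R.P + R.nu

/-- consecutive points are in order and at distance at least 2 -/
def Sep : Prop := ∀ i, 0 < 2 + R.y i ∧ 4 ≤ (2 + R.y i) ^ 2 + R.T i ^ 2

/-- the invariant of a row -/
def Inv : Prop := R.Sep ∧ 0 ≤ R.A ∧ R.A ≤ s3 ∧ R.E ≤ eF R.A ∧ R.eta ≤ hF R.A ∧ R.Ss ≤ sF R.A ∧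
  R.rho ≤ rF R.A ∧ R.Y + 2 * R.nu ≤ tF R.A

/-! Two rows: `U` is the upper (old) row, `R` the lower one. Point `j` of `R` has the upper right
neighbour `j` and the upper left neighbour `j - 1` in `U`. -/

def al (U R : Row) (j : ℤ) : ℝ := R.φ j - U.φ j
def be (U R : Row) (j : ℤ) : ℝ := U.φ (j - 1) - R.φ j
def hr (U R : Row) (j : ℤ) : ℝ := R.w j - U.w j
def hl (U R : Row) (j : ℤ) : ℝ := R.w j - U.w (j - 1)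
def CrossAt (U R : Row) (j : ℤ) : Prop := g (al U R j) ≤ hr U R j ∧ g (be U R j) ≤ hl U R j
def Cross (U R : Row) : Prop := ∀ j, CrossAt U R j
def G (U R : Row) : ℝ := ∑' j, ((hr U R j - g (al U R j)) + (hl U R j - g (be U R j)))
/-- cost of the triangle with base `j, j+1` in `R` and apex `j` in `U` -/
def cU (U R : Row) (j : ℤ) : ℝ :=
  ((1 - al U R j) * (s3 + hl U R (j + 1)) + (1 - be U R (j + 1)) * (s3 + hr U R j)) / 2 - s3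
/-- cost of the triangle with base `j-1, j` in `U` and apex `j` in `R` -/
def cD (U R : Row) (j : ℤ) : ℝ :=
  ((1 - al U R j) * (s3 + hl U R j) + (1 - be U R j) * (s3 + hr U R j)) / 2 - s3
/-- short edges and positive orientation -/
def RegS (U R : Row) : Prop := ∀ j, (1 - al U R j) ^ 2 + (s3 + hr U R j) ^ 2 ≤ 7 ∧
  (1 - be U R j) ^ 2 + (s3 + hl U R j) ^ 2 ≤ 7 ∧ (2 + R.y j) ^ 2 + R.T j ^ 2 ≤ 9 ∧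
  -s3 < cU U R j ∧ -s3 < cD U R j

end Row

/-- suprema are attained, elementary bounds for the sums -/
def S_rb : Prop := ∀ R : Row,
  ((∀ i, R.w i ≤ R.P) ∧ 0 ≤ R.P ∧ (R.P = 0 ∨ ∃ i, R.w i = R.P)) ∧
  ((∀ i, -R.w i ≤ R.nu) ∧ 0 ≤ R.nu ∧ (R.nu = 0 ∨ ∃ i, -R.w i = R.nu)) ∧
  ((∀ i, -R.ah i ≤ R.eta ∧ -R.bh i ≤ R.eta) ∧ 0 ≤ R.eta ∧
    ∀ c, 0 ≤ c → (∀ i, -R.ah i ≤ c ∧ -R.bh i ≤ c) → R.eta ≤ c) ∧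
  ((∀ i, R.bad i → |R.φ i| ≤ R.f) ∧ 0 ≤ R.f ∧ (R.f = 0 ∨ ∃ i, R.bad i ∧ |R.φ i| = R.f)) ∧
  ((∀ i, R.bad2 i → |R.φ i| ≤ R.zs) ∧ 0 ≤ R.zs ∧ (R.zs = 0 ∨ ∃ i, R.bad2 i ∧ |R.φ i| = R.zs)) ∧
  (0 ≤ R.S ∧ 0 ≤ R.Ss ∧ 0 ≤ R.Y ∧ 0 ≤ R.N ∧ 0 ≤ R.E ∧ 0 ≤ R.z) ∧
  (R.z ≤ R.Y ∧ R.P ≤ R.Y ∧ R.f ≤ R.S ∧ R.zs ≤ R.f ∧ R.nu ≤ R.N ∧ R.nu ≤ R.eta ∧ 2 * R.N ≤ R.E) ∧
  (∀ i j, i ≠ j → max (R.w i) 0 + max (R.w j) 0 ≤ R.Y) ∧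
  (∑' i, R.y i = 0 ∧ ∑' i, max (-R.y i) 0 = R.S ∧ (∀ i j, |R.φ i - R.φ j| ≤ R.S) ∧
    (∀ i, |R.φ i| ≤ R.S) ∧ ∀ i, |R.T i| ≤ R.rho)

/-- horizontal shifts against vertical steps, area against mass -/
def S_r3 : Prop := ∀ R : Row, R.Sep → R.rho ≤ 2 →
  (∀ i, Real.sqrt (4 - R.rho ^ 2) ≤ 2 + R.y i) ∧ R.S ≤ R.Ss ∧
  (∀ i, (2 + R.y i) ^ 2 + R.T i ^ 2 ≤ max ((2 + R.Ss) ^ 2) (4 + R.rho ^ 2)) ∧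
  ∑' i, R.y i ^ 2 ≤ R.S * (R.S + min R.S (2 - Real.sqrt (4 - R.rho ^ 2))) ∧
  (2 + Real.sqrt (4 - R.rho ^ 2)) * R.Ss ≤ ∑' i, R.T i ^ 2 ∧
  R.Y * Real.sqrt (4 - R.rho ^ 2) ≤ R.A + 2 * R.N + R.nu * R.S ∧
  2 * R.Y ≤ R.A + 2 * R.N + R.rho * R.S

/-- the sum of the squared vertical steps -/
def S_r4 : Prop := ∀ R : Row,
  ∑' i, R.T i ^ 2 ≤ 2 * (R.P * R.Y) + restF R.P R.Y R.N R.nu ∧
  (R.S ≤ 1 → ∀ p m fu zu : ℝ, R.P ≤ p → R.Y - R.z ≤ m → R.f ≤ fu → fu ≤ 1 → R.z ≤ zu →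
    ∑' i, R.T i ^ 2 ≤ 2 * (qF (min p m) m + qF (min (s3 - Rm fu) zu) zu) + restF R.P R.Y R.N R.nu) ∧
  (R.S ≤ 1 → R.P ≤ max (R.Y - R.z) (min (s3 - Rm R.f) R.z))

/-- vertical steps of both rows against the gaps -/
def S_rw : Prop := ∀ U R : Row, Row.Cross U R → 0 ≤ Row.G U R ∧ (R.S + U.S ≤ 1 →
  ∑' i, R.T i ^ 2 ≤ R.rho * (Row.G U R + 2 * (s3 - Rm (R.S + U.S))) ∧
  ∑' i, U.T i ^ 2 ≤ U.rho * (Row.G U R + 2 * (s3 - Rm (R.S + U.S))))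

/-- the area between two rows -/
def S_id : Prop := ∀ U R : Row, Summable (Row.cU U R) ∧ Summable (Row.cD U R) ∧
  R.A - U.A = ∑' j, (Row.cU U R j + Row.cD U R j)

/-- gaps against area, no short edges assumed -/
def S_idn : Prop := ∀ U R : Row, Row.Cross U R → R.S + U.S ≤ 9 / 10 → R.S ≤ 3 / 4 → U.S ≤ 3 / 4 →
  (1 - (R.S + U.S)) * Row.G U R ≤ R.A - U.A + (∑' i, R.y i ^ 2 + ∑' i, U.y i ^ 2) / 3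

/-- cheap strips -/
def S_tc : Prop := ∀ U R : Row, U.Sep → R.Sep → Row.Cross U R → Row.RegS U R → U.rho ≤ 2 →
  (∀ i, (2 + U.y i) ^ 2 + U.T i ^ 2 ≤ 8) →
  R.P ≤ min U.rho (U.Y / 2) - s3 + Real.sqrt (3 + 3 * (R.A - U.A) + U.rho ^ 2 / 4) ∧
  (((R.S ≤ 3 / 4 ∧ U.S ≤ 3 / 4) ∨ R.A - U.A ≤ 63 / 256) → R.S + U.S ≤ 3 * (R.A - U.A) ∧
    (R.S + U.S ≤ 1 → R.S + U.S + Row.G U R * Rm (R.S + U.S) ≤ 3 * (R.A - U.A))) ∧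
  (∀ l : ℝ, 0 ≤ l → l ^ 2 ≤ 8 → (∀ i, (2 + R.y i) ^ 2 + R.T i ^ 2 ≤ l ^ 2) →
    R.P ≤ (R.Y + 100 / 81 * (l * (R.A - U.A))) / 3)

/-- growth of the negative parts of the potentials -/
def S_rec : Prop := ∀ U R : Row, Row.Cross U R → U.S ≤ 1 → R.S ≤ 1 →
  (g R.f ≤ R.z + U.eta ∧ g R.zs ≤ R.nu) ∧ (R.f ≤ 7 / 10 → U.S + R.zs ≤ 9 / 10 →
    R.E - U.E ≤ muF R.f * ((Rp R.f + s3) / (2 - R.f)) * (R.f * (R.z + 3 / 2 * U.E)) +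
      667 / 1000 * (R.f * U.E) + ccF (U.S + R.zs) R.zs * R.N * ((Rp R.zs + s3) / (2 - R.zs)) ∧
    R.eta - U.eta ≤ max (muF R.f * R.f ^ 2) (R.zs * ccF (U.S + R.zs) R.zs))

/-- numerical consequences of the invariant -/
def S_inv : Prop := ∀ R : Row, R.Inv →
  R.eta ≤ 0.205 ∧ R.rho ≤ 1.172 ∧ R.rho ≤ 0.012 + 0.67 * R.A ∧ R.S ≤ 0.76 ∧ R.S ≤ sF R.A ∧
  R.Y + 2 * R.nu ≤ 1.49 ∧ (∀ i, 1.62 ≤ 2 + R.y i ∧ (2 + R.y i) ^ 2 + R.T i ^ 2 ≤ 8) ∧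
  (R.A ≤ s3 - 1 / 2 → R.E ≤ 0.05 ∧ R.eta ≤ 0.03 ∧ R.rho ≤ 0.68 ∧ R.S ≤ 0.24) ∧
  (R.A ≤ s3 - 0.3 → R.Y + 2 * R.nu ≤ 0.9 ∧ ∀ i, 1.82 ≤ 2 + R.y i) ∧
  (R.A = 0 → ∀ i, R.φ i = 0 ∧ R.w i = 0)

/-- numerical facts about the envelopes -/
def S_poly : Prop :=
  (∀ a b, 0 ≤ a → 0 ≤ b → a ≤ s3 → b ≤ s3 → a + b ≤ 2 * s3 - 0.3 → hF a + hF b ≤ 0.27) ∧
  (∀ a b, 0 ≤ a → 0 ≤ b → a + b ≤ 1.4 → hF a + hF b ≤ 0.04 * (a + b) ∧ sF a ≤ 0.34) ∧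
  (∀ a w, 0 ≤ a → a ≤ s3 - 1 / 2 → (s3 + 1.8 - rF a) ^ 2 ≤ w →
    8 ≤ w ∧ (12.25 ≤ w ∨ s3 - a < piL w))

/-- the step from one row to the next -/
def S_step : Prop := ∀ U R : Row, U.Inv → R.Sep → Row.Cross U R → R.N ≤ U.E → R.nu ≤ U.eta →
  U.A ≤ R.A → R.A ≤ s3 →
  ((Row.RegS U R ∧ R.A - U.A ≤ 1 / 2) ∨ (1 / 2 ≤ R.A - U.A ∧ R.P ≤ 7 / 5)) → R.Inv

/-! ### Chains with `d` missing points -/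

/-- a chain below a wall; far right it is shifted by `d` sites -/
structure Chain (d : ℤ) where
  φ : ℤ → ℝ
  w : ℤ → ℝ
  fin : ∃ n : ℕ, (∀ i : ℤ, i ≤ -(n : ℤ) → φ i = 0 ∧ w i = 0) ∧
    ∀ i : ℤ, (n : ℤ) ≤ i → φ i = 2 * (d : ℝ) ∧ w i = 0
  pos : ∀ i, 0 < 2 + (φ (i + 1) - φ i) ∧ 2 + (φ (i + 1) - φ i) < 4
  sep : ∀ i, 4 ≤ (2 + (φ (i + 1) - φ i)) ^ 2 + (w (i + 1) - w i) ^ 2

namespace Chain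

variable {d : ℤ} (C : Chain d)

def dx (i : ℤ) : ℝ := 2 + (C.φ (i + 1) - C.φ i)
def A : ℝ := ∑' i, C.dx i * ((C.w i + C.w (i + 1)) / 2)
def N : ℝ := ∑' i, max (-C.w i) 0
/-- the neighbours of a lowest point are far apart -/
def Gab : Prop := ∀ j, C.w (j - 1) ≤ C.w j → C.w (j + 1) ≤ C.w j →
  8 ≤ (C.dx (j - 1) + C.dx j) ^ 2 + (C.w (j + 1) - C.w (j - 1)) ^ 2
/-- bounds that hold below a low wall -/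
def Low : Prop := C.N ≤ 0.05 ∧ (∀ j, -0.03 ≤ C.w j ∧ C.w j ≤ 1.8) ∧ C.Gab ∧
  ∀ (j m : ℤ), |C.φ j - 2 * m| ≤ 1 → g |C.φ j - 2 * m| - 0.03 ≤ C.w j

end Chain

/-- area of a chain against its negative part; deep chains; one missing point -/
def S_ch : Prop :=
  (∀ (d : ℤ) (C : Chain d), -4 * C.N ≤ C.A ∧
    ∀ j, C.dx j * ((C.w j + C.w (j + 1)) / 2) - 4 * C.N ≤ C.A) ∧
  (∀ C : Chain 0, C.Low → C.A ≤ s3 → ∀ j, C.w j ≤ 7 / 5) ∧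
  (∀ C : Chain 1, C.Low → C.A ≤ 0 → ∃ j, 3.62 ≤ C.dx j ∧ C.w j ≤ 0.15 ∧ C.w (j + 1) ≤ 0.15)

/-- share of the deeper end point `W` of a step of width `x` whose other end has depth `u` -/
def shF (mu x W u : ℝ) : ℝ := x * ((W - max (-u) 0) / 2) - mu * (2 - x) + 2 * max (-u) 0

/-- the two steps at the bottom of a steep step -/
def S_pvloc : Prop := ∀ W u v x1 x2 : ℝ, W ≤ 1.8 → -0.03 ≤ u → u ≤ W → -0.03 ≤ v → v ≤ 1.8 →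
  0 < x1 → x1 ≤ 1.6 → 0 < x2 → x2 < 4 → 4 ≤ x1 ^ 2 + (W - u) ^ 2 → 4 ≤ x2 ^ 2 + (W - v) ^ 2 →
  (v ≤ W → 8 ≤ (x1 + x2) ^ 2 + (u - v) ^ 2 →
    1.85 ≤ shF 0 x1 W u + shF 0 x2 W v ∧ -1.1 ≤ shF 2.4 x1 W u + shF 2.4 x2 W v) ∧
  (W ≤ v → 1.85 ≤ shF 0 x1 W u + x2 * W / 2 ∧ -1.1 ≤ shF 2.4 x1 W u + x2 * W / 2)

/-- chains with extra points are expensive -/
def S_pv : Prop := ∀ (d : ℤ) (C : Chain d), d ≤ -1 → C.Low → s3 < s3 * d + C.A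

/-! ### The last row -/

/-- a triangle between two rows whose sides are at least 2 has nonnegative cost -/
def S_vt : Prop := ∀ a b h k : ℝ, |a| ≤ 1.3 → |b| ≤ 1.3 → g a ≤ h → g b ≤ k → h ≤ 0.42 → k ≤ 0.42 →
  0.9 ≤ (1 - a) + (1 - b) → 4 ≤ ((1 - a) + (1 - b)) ^ 2 + (k - h) ^ 2 →
  ((1 - a) + (1 - b)) ^ 2 + (k - h) ^ 2 ≤ 12 →
  0 ≤ ((1 - a) * (s3 + k) + (1 - b) * (s3 + h)) / 2 - s3

/-- the upper half of the hexagon around a vacancy -/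
def S_half : Prop := ∀ η tL tR WL WR f1 f2 w1 w2 : ℝ, 0 ≤ η → |tL| ≤ 1 → |tR| ≤ 1 →
  |WL| ≤ η - g |tL| → |WR| ≤ η - g |tR| → |f1| ≤ 0.76 → |f2| ≤ 0.76 →
  -η ≤ w1 + g (-|f1|) → -η ≤ w2 + g (-|f2|) → |w1 - w2| ≤ 1.172 →
  g (tL - f1) ≤ WL - w1 → g (f2 - tR) ≤ WR - w2 → 0 < 2 + (f2 - f1) →
  4 ≤ (2 + (f2 - f1)) ^ 2 + (w2 - w1) ^ 2 →
  (η ≤ 0.135 → 3 * s3 - 0.7 ≤ ((s3 + WL - w1) * (3 + f2 - tL) + (s3 + WR - w2) * (3 + tR - f1) +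
      (WR - WL) * ((f1 - tL) - (tR - f2))) / 2) ∧
  (η ≤ 0.028 → |f1| ≤ 0.34 → |f2| ≤ 0.34 →
    3 * s3 - 12 * η ≤ ((s3 + WL - w1) * (3 + f2 - tL) + (s3 + WR - w2) * (3 + tR - f1) +
      (WR - WL) * ((f1 - tL) - (tR - f2))) / 2)

/-- two rows `U` (above) and `V` (below, seen after the reflection in the origin) around a middle
row `M` in which the point `j0` may be missing -/
def S_last : Prop := ∀ (U V M : Row) (j0 : ℤ), U.Inv → V.Inv →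
  (∀ j, j ≠ j0 → |M.φ j| ≤ 0.51 ∧ g |M.φ j| - U.eta ≤ M.w j ∧ g |M.φ j| - V.eta ≤ -M.w j) →
  (∀ j, j ≠ j0 → Row.CrossAt U M j) →
  (∀ j, j ≠ j0 → g (-M.φ j - V.φ (-j)) ≤ -M.w j - V.w (-j) ∧
    g (V.φ (-j - 1) + M.φ j) ≤ -M.w j - V.w (-j - 1)) →
  (∀ j, j ≠ j0 → j + 1 ≠ j0 → 4 ≤ (2 + M.y j) ^ 2 + M.T j ^ 2) →
  U.A + V.A ≤ 2 * s3 - 0.3 → U.A = 0 ∧ V.A = 0

/-- the same without a vacancy -/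
def S_last0 : Prop := ∀ U V M : Row, U.Inv → V.Inv →
  (∀ j, |M.φ j| ≤ 0.51 ∧ g |M.φ j| - U.eta ≤ M.w j ∧ g |M.φ j| - V.eta ≤ -M.w j) →
  Row.Cross U M →
  (∀ j, g (-M.φ j - V.φ (-j)) ≤ -M.w j - V.w (-j) ∧
    g (V.φ (-j - 1) + M.φ j) ≤ -M.w j - V.w (-j - 1)) →
  (∀ j, 4 ≤ (2 + M.y j) ^ 2 + M.T j ^ 2) → U.A + V.A ≤ 0

/-- a labelling of a near lattice misses at most one site -/
def S_one : Prop := ∀ (P : Set ℂ) (l : ℂ → ℂ), Near P → Set.MapsTo l P Lam → Set.InjOn l P →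
  {z | z ∈ P ∧ l z ≠ z}.Finite → (Lam \ l '' P).Subsingleton

end

end Pool.Agent.P.MP_dd077d_co
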