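import Pool.Agent.P.MP_dd077d_co.Iface2

/-!
Walls of labelled rows in a Delaunay triangulation, the strip below a wall, and the end game.
-/

set_option linter.dupNamespace false

namespace Pool.Agent.P.MP_dd077d_co

noncomputable section

open Classical

/-- point `j` of the row `R` placed at level `r` -/
def pt (R : Row) (r j : ℤ) : ℂ := ⟨2 * (j : ℝ) + (r : ℝ) + R.φ j, s3 * (r : ℝ) - R.w j⟩

/-- the points of the rows at levels `r ≥ a` -/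
def Lset (row : ℤ → Row) (a : ℤ) : Set ℂ := {z | ∃ r j : ℤ, a ≤ r ∧ z = pt (row r) r j}

/-- the triangulation reflected in the origin -/
def DT0.neg (T : DT0) : DT0 where
  pts := {z | -z ∈ T.pts}
  Tri x y z := T.Tri (-x) (-y) (-z)
  sep x hx y hy h := by
    have := T.sep _ hx _ hy (fun e => h (neg_injective e))
    rw [nsq_sub] at this ⊢
    simp only [Complex.neg_re, Complex.neg_im] at this
    nlinarith
  mem h := T.mem h
  rot h := T.rot h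
  ccw h := by
    have := T.ccw h
    unfold cross at this ⊢
    simp only [Complex.neg_re, Complex.neg_im] at this
    nlinarith
  circ := by
    intro x y z h
    obtain ⟨o, h1, h2, h3, h4⟩ := T.circ h
    have e : ∀ p : ℂ, nsq (p - -o) = nsq (-p - o) := fun p => by
      rw [nsq_sub, nsq_sub]; simp only [Complex.neg_re, Complex.neg_im]; ring
    refine ⟨-o, ?_, ?_, ?_, fun p hp => ?_⟩ <;> simp only [e]
    exacts [h1, h2, h3, h4 _ hp]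
  uniq h h' := neg_injective (T.uniq h h')
  rev h := by
    obtain ⟨w, hw⟩ := T.rev h
    exact ⟨-w, by simpa using hw⟩
  vert x hx := by
    obtain ⟨y, z, h⟩ := T.vert _ hx
    exact ⟨-y, -z, by simpa using h⟩
  equi x hx y hy z hz h1 h2 h3 h4 := by
    have e : ∀ p q : ℂ, nsq (-p - -q) = nsq (p - q) := fun p q => by
      rw [nsq_sub, nsq_sub]; simp only [Complex.neg_re, Complex.neg_im]; ring
    refine T.equi _ hx _ hy _ hz (by rw [e, h1]) (by rw [e, h2]) (by rw [e, h3]) ?_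
    unfold cross at h4 ⊢
    simp only [Complex.neg_re, Complex.neg_im]
    nlinarith

/-- all rows at levels `r ≥ a` are identified -/
structure Wall (T : DT0) (a : ℤ) where
  row : ℤ → Row
  mem : ∀ r j, a ≤ r → pt (row r) r j ∈ T.pts
  far : ∃ n : ℕ, ∀ r j : ℤ, a ≤ r → ((n : ℤ) ≤ |r| ∨ (n : ℤ) ≤ |j|) → (row r).φ j = 0 ∧ (row r).w j = 0
  inv : ∀ r, a ≤ r → (row r).Inv ∧ (row r).A ≤ (row a).A
  clo : ∀ x y z, T.Tri x y z → x ∈ Lset row (a + 1) → y ∈ Lset row a ∧ z ∈ Lset row a ∧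
    ∀ i k, y = pt (row a) a i → z = pt (row a) a k → k = i + 1
  up : ∀ i, ∃ u ∈ Lset row (a + 1), T.Tri (pt (row a) a i) (pt (row a) a (i + 1)) u
  bud : ∃ F : Finset (Finset ℂ), (∀ s ∈ F, T.IsT s ∧ ∃ x ∈ s, x ∈ Lset row (a + 1)) ∧
    (row a).A ≤ ∑ s ∈ F, cost s
  low : ∀ z ∈ T.pts, z ∉ Lset row a → z.im ≤ s3 * a + 0.21

namespace Wall

variable {T : DT0} {a : ℤ} (W : Wall T a)

/-- the lowest identified row -/
def U : Row := W.row a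
def v (i : ℤ) : ℂ := pt (W.row a) a i
def L : Set ℂ := Lset W.row a
def L1 : Set ℂ := Lset W.row (a + 1)
/-- depth of a point below the level `a - 1` -/
def dep (_W : Wall T a) (z : ℂ) : ℝ := s3 * ((a : ℝ) - 1) - z.im
/-- triangles of the strip below the wall -/
def stripT (s : Finset ℂ) : Prop := T.IsT s ∧ (∃ i, W.v i ∈ s) ∧ ∀ x ∈ s, x ∉ W.L1
def Bud (β : ℝ) : Prop := ∀ G : Finset (Finset ℂ), (∀ s ∈ G, W.stripT s) → ∑ s ∈ G, cost s ≤ β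
/-- the strip is cheap, or the wall is low and the strip fits into half of the budget -/
def Hyp : Prop := W.Bud (1 / 2) ∨ (W.U.A ≤ s3 - 1 / 2 ∧ W.Bud (s3 - W.U.A))
def NoWW : Prop := ∀ i k t, T.Tri (W.v i) (W.v k) t → t ∉ W.L1 → k = i - 1
def Mono : Prop := ∀ i c c', T.Tri (W.v i) c c' → c ∉ W.L → c' ∉ W.L → c.re < c'.re

/-- half of the budget is used up by triangles at the identified rows -/
def Stop1 : Prop := ∃ G : Finset (Finset ℂ), (∀ s ∈ G, T.IsT s ∧ ∃ x ∈ s, x ∈ W.L) ∧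
  s3 < ∑ s ∈ G, cost s
/-- the same with one more triangle below a long flat edge -/
def Stop2 : Prop := ∃ (G : Finset (Finset ℂ)) (c c' t : ℂ),
  (∀ s ∈ G, T.IsT s ∧ ∃ x ∈ s, x ∈ W.L) ∧ s3 - 0.2 ≤ ∑ s ∈ G, cost s ∧ T.Tri c' c t ∧
  c ∉ W.L ∧ c' ∉ W.L ∧ t ∉ W.L ∧ 3.62 ≤ c'.re - c.re ∧
  -0.03 ≤ W.dep c ∧ W.dep c ≤ 0.15 ∧ -0.03 ≤ W.dep c' ∧ W.dep c' ≤ 0.15

end Wall

/-- the strip below a wall as a sequence of edges; edge `k` joins `v (I k)` and `c (k - I k)` -/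
structure Strip {T : DT0} {a : ℤ} (W : Wall T a) where
  c : ℤ → ℂ
  I : ℤ → ℤ
  d : ℤ
  M : ℕ
  cmem : ∀ j, c j ∈ T.pts ∧ c j ∉ W.L
  step : ∀ k, (I (k + 1) = I k + 1 ∧ T.Tri (W.v (I k + 1)) (W.v (I k)) (c (k - I k))) ∨
    (I (k + 1) = I k ∧ T.Tri (W.v (I k)) (c (k - I k)) (c (k - I k + 1)))
  mono : ∀ j, (c j).re < (c (j + 1)).re
  left : ∀ k : ℤ, k ≤ -(M : ℤ) → I k = k / 2 ∧ c k = site (a - 1) k
  right : ∀ k : ℤ, (M : ℤ) ≤ k → I k = (k + d) / 2 ∧ c k = site (a - 1) (k + d)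
  complete : ∀ i y t, T.Tri (W.v i) y t → y ∉ W.L → ∃ k, I k = i ∧ y = c (k - I k)

namespace Strip

variable {T : DT0} {a : ℤ} {W : Wall T a} (st : Strip W)

/-- third vertex of the triangle between the edges `k` and `k + 1` -/
def nx (k : ℤ) : ℂ := if st.I (k + 1) = st.I k then st.c (k - st.I k + 1) else W.v (st.I k + 1)
def tri (k : ℤ) : Finset ℂ := {W.v (st.I k), st.c (k - st.I k), st.nx k}
def D : ℝ := ∑' k, cost (st.tri k)
/-- `C` describes the chain of the strip -/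
def IsCh (C : Chain st.d) : Prop := ∀ j : ℤ,
  st.c j = ⟨2 * (j : ℝ) + ((a : ℝ) - 1) + C.φ j, s3 * ((a : ℝ) - 1) - C.w j⟩
/-- wall steps and chain steps alternate -/
def Alt : Prop := st.d = 0 ∧ ∀ k, st.I k = k / 2

end Strip

/-! ### Statements -/

/-- heights of the identified points; labels are unique -/
def S_wb : Prop := ∀ (T : DT0) (a : ℤ) (W : Wall T a),
  (∀ z ∈ W.L, s3 * a - 0.012 - 0.67 * W.U.A ≤ z.im ∧ s3 * a - 1.172 ≤ z.im) ∧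
  (∀ r j r' j', a ≤ r → a ≤ r' → pt (W.row r) r j = pt (W.row r') r' j' → r = r' ∧ j = j') ∧
  (∀ i, W.v i ∈ W.L ∧ W.v i ∉ W.L1 ∧ W.v i ∈ T.pts) ∧ W.L1 ⊆ W.L ∧
  (∀ z ∈ W.L, z ∈ W.L1 ∨ ∃ i, z = W.v i) ∧
  (∀ s, T.IsT s → (∃ x ∈ s, x ∈ W.L1) → ∀ x ∈ s, x ∈ W.L) ∧
  (W.U.A = 0 → W.L ⊆ Lam)

/-- points that are not identified lie below the wall, in its grooves -/
def S_met : Prop := ∀ (T : DT0) (a : ℤ) (W : Wall T a),
  (∀ z ∈ T.pts, z ∉ W.L → (∀ i, z.im < (W.v i).im) ∧ -W.U.eta ≤ W.dep z ∧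
    (∀ m : ℤ, |z.re - (2 * m + ((a : ℝ) - 1))| ≤ 1 →
      g |z.re - (2 * m + ((a : ℝ) - 1))| - W.U.eta ≤ W.dep z) ∧
    ∀ j : ℤ, g ((z.re - (2 * j + ((a : ℝ) - 1))) - W.U.φ j) ≤ W.dep z - W.U.w j ∧
      g (W.U.φ (j - 1) - (z.re - (2 * j + ((a : ℝ) - 1)))) ≤ W.dep z - W.U.w (j - 1)) ∧
  ∀ Z : Finset ℂ, (∀ z ∈ Z, z ∈ T.pts ∧ z ∉ W.L) → ∑ z ∈ Z, max (-W.dep z) 0 ≤ W.U.E

/-- no long wall edges, chain steps go to the right -/
def S_nm : Prop := ∀ (T : DT0) (a : ℤ) (W : Wall T a), W.Hyp → W.NoWW ∧ W.Mono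

/-- the strip exists -/
def S_orb : Prop := ∀ (T : DT0) (a : ℤ) (W : Wall T a) (N : ℝ), FarLat T.pts N → W.NoWW → W.Mono →
  Nonempty (Strip W)

/-- the triangles of the strip -/
def S_sb : Prop := ∀ (T : DT0) (a : ℤ) (W : Wall T a) (st : Strip W), W.NoWW →
  (∀ k, T.Tri (W.v (st.I k)) (st.c (k - st.I k)) (st.nx k)) ∧
  (∀ k, ∃ x, T.Tri (st.c (k - st.I k)) (W.v (st.I k)) x ∧
    st.tri (k - 1) = {st.c (k - st.I k), W.v (st.I k), x}) ∧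
  (∀ k, W.stripT (st.tri k)) ∧ (∀ s, W.stripT s → ∃ k, s = st.tri k) ∧
  Function.Injective st.tri ∧
  (∀ j, ∃ k, k - st.I k = j ∧ st.I (k + 1) = st.I k) ∧
  (∀ i, ∃ k, st.I k = i ∧ st.I (k + 1) = i + 1) ∧
  (∃ n : ℕ, ∀ k : ℤ, (n : ℤ) ≤ |k| → cost (st.tri k) = 0) ∧
  (∃ G : Finset (Finset ℂ), (∀ s ∈ G, W.stripT s) ∧ ∑ s ∈ G, cost s = st.D) ∧
  W.Bud st.D ∧ 0 ≤ st.D ∧
  ∀ β, W.Bud β → ∀ K : Finset ℤ, ∑ k ∈ K, cost (st.tri k) ≤ β

/-- the chain of the strip and the area of the strip -/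
def S_sa : Prop := ∀ (T : DT0) (a : ℤ) (W : Wall T a) (st : Strip W), W.NoWW →
  ∃ C : Chain st.d, st.IsCh C ∧ st.D = s3 * st.d + C.A - W.U.A

/-- angles in a cheap strip -/
def S_at : Prop := ∀ (T : DT0) (a : ℤ) (W : Wall T a) (st : Strip W), W.NoWW → W.Bud (1 / 2) →
  (∀ k, nsq (W.v (st.I k) - st.c (k - st.I k)) ≤ 7) ∧ 0 ≤ st.d ∧
  (st.d = 0 → ∀ j, nsq (st.c j - st.c (j + 1)) ≤ 9)

/-- a cheap strip alternates -/
def S_alt : Prop := ∀ (T : DT0) (a : ℤ) (W : Wall T a) (st : Strip W) (β : ℝ), W.NoWW → W.Bud β →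
  β ≤ 1 / 2 → (β ≤ 0.3 ∨ W.U.A ≤ s3 - 0.3) → st.Alt

/-- the chain below a low wall -/
def S_low : Prop := ∀ (T : DT0) (a : ℤ) (W : Wall T a) (st : Strip W) (C : Chain st.d),
  W.NoWW → st.IsCh C → W.U.A ≤ s3 - 1 / 2 → W.Bud (s3 - W.U.A) → C.Low

/-- a chain without defect is a row -/
def S_row : Prop := ∀ (T : DT0) (a : ℤ) (W : Wall T a) (st : Strip W) (C : Chain st.d),
  W.NoWW → st.IsCh C → st.D = s3 * st.d + C.A - W.U.A → st.d = 0 →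
  ∃ R : Row, R.φ = C.φ ∧ R.w = C.w ∧ (∀ j, st.c j = pt R (a - 1) j) ∧ R.Sep ∧ Row.Cross W.U R ∧
    R.N ≤ W.U.E ∧ R.nu ≤ W.U.eta ∧ R.A = W.U.A + st.D ∧
    (st.Alt → W.Bud (1 / 2) → Row.RegS W.U R)

/-- a chain without defect gives the next wall -/
def S_new : Prop := ∀ (T : DT0) (a : ℤ) (W : Wall T a) (st : Strip W) (R : Row), W.NoWW →
  (∀ j, st.c j = pt R (a - 1) j) → R.Inv → R.A = W.U.A + st.D → Nonempty (Wall T (a - 1))

/-- a wall advances or has used half of the budget -/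
def S_adv : Prop := ∀ (T : DT0) (a : ℤ) (W : Wall T a) (N : ℝ), FarLat T.pts N →
  Nonempty (Wall T (a - 1)) ∨ W.Stop1 ∨ W.Stop2

/-- a wall exists far above -/
def S_w0 : Prop := ∀ (T : DT0) (N : ℝ) (a : ℤ), 0 ≤ N → FarLat T.pts N → N + 10 ≤ a →
  Nonempty (Wall T a)

/-- reflection keeps the hypotheses -/
def S_neg : Prop := ∀ T : DT0, (∀ N, FarLat T.pts N → FarLat T.neg.pts N) ∧
  (T.Budget → ∀ F F' : Finset (Finset ℂ), (∀ s ∈ F, T.IsT s) → (∀ s ∈ F', T.neg.IsT s) →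
    (∀ s ∈ F, s.image (fun z => -z) ∉ F') → ∑ s ∈ F, cost s + ∑ s ∈ F', cost s ≤ 2 * s3) ∧
  (Near T.pts → ∃ N : ℝ, 0 ≤ N ∧ FarLat T.pts N)

/-- two walls at distance at least three cannot both stop -/
def S_stops : Prop := ∀ (T : DT0) (a b : ℤ) (W : Wall T a) (W' : Wall T.neg b), T.Budget →
  3 ≤ a + b → (W.Stop1 ∨ W.Stop2) → (W'.Stop1 ∨ W'.Stop2) → False

/-- a point between two walls at distance two -/
def Mid {T : DT0} {a b : ℤ} (W : Wall T a) (W' : Wall T.neg b) (z : ℂ) : Prop :=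
  z ∈ T.pts ∧ z ∉ W.L ∧ -z ∉ W'.L

/-- the middle row with at most one vacancy -/
def S_mid : Prop := ∀ (T : DT0) (a b : ℤ) (W : Wall T a) (W' : Wall T.neg b), Near T.pts →
  a + b = 2 →
  (∀ z, Mid W W' z → ∃ j : ℤ, |z.re - (2 * j + ((a : ℝ) - 1))| ≤ 0.51 ∧
    g |z.re - (2 * j + ((a : ℝ) - 1))| - W.U.eta ≤ W.dep z ∧
    g |z.re - (2 * j + ((a : ℝ) - 1))| - W'.U.eta ≤ -W.dep z) ∧
  ∃ (M : Row) (j0 : ℤ), ∀ j, j ≠ j0 → Mid W W' (pt M (a - 1) j) ∧ |M.φ j| ≤ 0.51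

/-- if little budget is left the middle row is complete -/
def S_f0 : Prop := ∀ (T : DT0) (a b : ℤ) (W : Wall T a) (W' : Wall T.neg b) (N : ℝ),
  FarLat T.pts N → Near T.pts → T.Budget → a + b = 2 → 2 * s3 - 0.3 ≤ W.U.A + W'.U.A →
  ∃ M : Row, ∀ j, Mid W W' (pt M (a - 1) j) ∧ |M.φ j| ≤ 0.51

/-- two walls at distance two -/
def S_fin : Prop := ∀ (T : DT0) (a b : ℤ) (_W : Wall T a) (_W' : Wall T.neg b) (N : ℝ),
  FarLat T.pts N → Near T.pts → T.Budget → a + b = 2 → T.pts ⊆ Lam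

end

end Pool.Agent.P.MP_dd077d_co
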