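import Pool.Agent.P.MP_dd077d_co.Iface2

set_option linter.dupNamespace false

namespace Pool.Agent.P.MP_dd077d_co

noncomputable section

namespace Pv

variable {d : ℤ} (C : Chain d)

/-- share of step `j` for its left end -/
def L (mu : ℝ) (j : ℤ) : ℝ :=
  if C.w (j + 1) ≤ C.w j then shF mu (C.dx j) (C.w j) (C.w (j + 1)) + 2 * max (-C.w j) 0
  else C.dx j * max (C.w j) 0 / 2

/-- share of step `j` for its right end -/
def R (mu : ℝ) (j : ℤ) : ℝ :=
  if C.w (j + 1) ≤ C.w j then C.dx j * max (C.w (j + 1)) 0 / 2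
  else shF mu (C.dx j) (C.w (j + 1)) (C.w j) + 2 * max (-C.w (j + 1)) 0

def V (mu : ℝ) (j : ℤ) : ℝ := R C mu (j - 1) + L C mu j

def Cen (j : ℤ) : Prop :=
  (C.dx j ≤ 1.6 ∧ C.w (j + 1) ≤ C.w j) ∨ (C.dx (j - 1) ≤ 1.6 ∧ C.w (j - 1) < C.w j)

theorem max_eq (u : ℝ) : max u 0 = u + max (-u) 0 := by
  rcases le_total u 0 with h | h
  · rw [max_eq_right h, max_eq_left (by linarith)]; ring
  · rw [max_eq_left h, max_eq_right (by linarith)]; ring

theorem split (mu : ℝ) (j : ℤ) : L C mu j + R C mu j =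
    C.dx j * ((C.w j + C.w (j + 1)) / 2) + mu * (C.φ (j + 1) - C.φ j) +
      (2 * max (-C.w j) 0 + 2 * max (-C.w (j + 1)) 0) := by
  have e : C.φ (j + 1) - C.φ j = C.dx j - 2 := by unfold Chain.dx; ring
  rw [e]
  unfold L R shF
  split_ifs
  · rw [max_eq (C.w (j + 1))]; ring
  · rw [max_eq (C.w j)]; ring

theorem far : ∃ s : Finset ℤ, ∀ j ∉ s, C.φ (j + 1) = C.φ j ∧ C.w j = 0 ∧ C.w (j + 1) = 0 ∧
    C.φ j = if 0 ≤ j then 2 * (d : ℝ) else 0 := by
  obtain ⟨n, h1, h2⟩ := C.fin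
  refine ⟨Finset.Icc (-(n : ℤ) - 1) (n + 1), fun j hj => ?_⟩
  rw [Finset.mem_Icc] at hj
  rcases le_or_gt 0 j with h | h
  · have a := h2 j (by omega)
    have b := h2 (j + 1) (by omega)
    rw [if_pos h]
    exact ⟨b.1.trans a.1.symm, a.2, b.2, a.1⟩
  · have a := h1 j (by omega)
    have b := h1 (j + 1) (by omega)
    rw [if_neg (by omega)]
    exact ⟨b.1.trans a.1.symm, a.2, b.2, a.1⟩

theorem tele : HasSum (fun j => C.φ (j + 1) - C.φ j) (2 * (d : ℝ)) := by
  obtain ⟨s, hs⟩ := far C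
  set ψ : ℤ → ℝ := fun j => C.φ j - if 0 ≤ j then 2 * (d : ℝ) else 0 with hψ
  have h1 : Summable ψ := summable_of_ne_finset_zero (s := s) fun j hj => by
    simp only [hψ]; rw [(hs j hj).2.2.2, sub_self]
  have h2 : HasSum (fun j => ψ (j + 1)) (∑' j, ψ j) :=
    (Equiv.addRight (1 : ℤ)).hasSum_iff.2 h1.hasSum
  have h3 := (h2.sub h1.hasSum).add (hasSum_ite_eq (-1 : ℤ) (2 * (d : ℝ)))
  rw [sub_self, zero_add] at h3
  have e : (fun j => C.φ (j + 1) - C.φ j) =
      fun j => ψ (j + 1) - ψ j + if j = -1 then 2 * (d : ℝ) else 0 := by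
    funext j
    simp only [hψ]
    rcases lt_trichotomy j (-1) with h | h | h
    · rw [if_neg (by omega), if_neg (by omega), if_neg (by omega)]; ring
    · rw [if_pos (by omega), if_neg (by omega), if_pos h]; ring
    · rw [if_pos (by omega), if_pos (by omega), if_neg (by omega)]; ring
  rw [e]
  exact h3

theorem total (mu : ℝ) : HasSum (V C mu) (C.A + mu * (2 * d) + 4 * C.N) := by
  obtain ⟨s, hs⟩ := far C
  have hd : ∀ j ∉ s, C.dx j = 2 := fun j hj => by unfold Chain.dx; rw [(hs j hj).1]; ring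
  have sL : Summable (L C mu) := summable_of_ne_finset_zero (s := s) fun j hj => by
    unfold L shF
    rw [hd j hj, (hs j hj).2.1, (hs j hj).2.2.1]
    simp
  have sR : Summable (R C mu) := summable_of_ne_finset_zero (s := s) fun j hj => by
    unfold R shF
    rw [hd j hj, (hs j hj).2.1, (hs j hj).2.2.1]
    simp
  have sA : Summable fun j => C.dx j * ((C.w j + C.w (j + 1)) / 2) :=
    summable_of_ne_finset_zero (s := s) fun j hj => by
      rw [(hs j hj).2.1, (hs j hj).2.2.1]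
      simp
  have sN : Summable fun j => max (-C.w j) 0 :=
    summable_of_ne_finset_zero (s := s) fun j hj => by
      rw [(hs j hj).2.1]
      simp
  have sN' : HasSum (fun j => max (-C.w (j + 1)) 0) C.N :=
    (Equiv.addRight (1 : ℤ)).hasSum_iff.2 sN.hasSum
  have h1 : HasSum (fun j => L C mu j + R C mu j)
      (C.A + mu * (2 * d) + (2 * C.N + 2 * C.N)) := by
    simp only [split]
    exact (sA.hasSum.add ((tele C).mul_left mu)).add ((sN.hasSum.mul_left 2).add (sN'.mul_left 2))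
  have h2 := (sL.hasSum.add sR.hasSum).unique h1
  have h3 : HasSum (fun j => R C mu (j - 1)) (∑' j, R C mu j) :=
    (Equiv.subRight (1 : ℤ)).hasSum_iff.2 sR.hasSum
  have h4 := h3.add sL.hasSum
  rw [add_comm (∑' j, R C mu j), h2, show 2 * C.N + 2 * C.N = 4 * C.N by ring] at h4
  exact h4

theorem share {mu x W u : ℝ} (h0 : 0 ≤ mu) (h1 : mu ≤ 2.4) (hx : 1.6 ≤ x) (hx4 : x < 4)
    (hu : u ≤ W) (hs : 4 ≤ x ^ 2 + (W - u) ^ 2) : 0 ≤ shF mu x W u + 2 * max (-W) 0 := by
  unfold shF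
  have a1 : 0 ≤ max (-u) 0 := le_max_right _ _
  have a2 : -u ≤ max (-u) 0 := le_max_left _ _
  have b1 : 0 ≤ max (-W) 0 := le_max_right _ _
  have b2 : -W ≤ max (-W) 0 := le_max_left _ _
  rcases le_total 2 x with h | h
  · have c1 : 0 ≤ mu * (x - 2) := mul_nonneg h0 (by linarith)
    have c2 : 0 ≤ (4 - x) * max (-u) 0 := mul_nonneg (by linarith) a1
    have c3 : 0 ≤ (4 - x) * max (-W) 0 := mul_nonneg (by linarith) b1
    have c4 : 0 ≤ x * (W + max (-W) 0) := mul_nonneg (by linarith) (by linarith)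
    nlinarith
  · have c1 : 4.8 * (2 - x) ≤ x * (W - u) := by
      refine (sq_le_sq₀ (by linarith) (mul_nonneg (by linarith) (by linarith))).1 ?_
      have e1 : 23.04 * (2 - x) ≤ x ^ 2 * (2 + x) := by nlinarith
      have e2 : 23.04 * (2 - x) * (2 - x) ≤ x ^ 2 * (2 + x) * (2 - x) :=
        mul_le_mul_of_nonneg_right e1 (by linarith)
      have e3 : x ^ 2 * (4 - x ^ 2) ≤ x ^ 2 * (W - u) ^ 2 :=
        mul_le_mul_of_nonneg_left (by linarith) (sq_nonneg x)
      nlinarith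
    have c2 : mu * (2 - x) ≤ 2.4 * (2 - x) := mul_le_mul_of_nonneg_right h1 (by linarith)
    have c3 : 0 ≤ (2 - x) * max (-u) 0 := mul_nonneg (by linarith) a1
    have c4 : 0 ≤ x * (u + max (-u) 0) := mul_nonneg (by linarith) (by linarith)
    nlinarith

theorem sep' (j : ℤ) : 4 ≤ C.dx j ^ 2 + (C.w (j + 1) - C.w j) ^ 2 := C.sep j
theorem sep'' (j : ℤ) : 4 ≤ C.dx j ^ 2 + (C.w j - C.w (j + 1)) ^ 2 := by
  have := sep' C j
  linarith [show (C.w j - C.w (j + 1)) ^ 2 = (C.w (j + 1) - C.w j) ^ 2 by ring]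
theorem pos' (j : ℤ) : 0 < C.dx j ∧ C.dx j < 4 := C.pos j

theorem noncen {mu : ℝ} (h0 : 0 ≤ mu) (h1 : mu ≤ 2.4) {j : ℤ} (h : ¬ Cen C j) : 0 ≤ V C mu j := by
  unfold Cen at h
  rw [not_or, not_and, not_and] at h
  refine add_nonneg ?_ ?_
  · have s := sep' C (j - 1)
    have p := pos' C (j - 1)
    unfold R
    rw [sub_add_cancel] at s ⊢
    split_ifs with h2
    · exact div_nonneg (mul_nonneg p.1.le (le_max_right _ _)) (by norm_num)
    · rw [not_le] at h2
      exact share h0 h1 (le_of_not_ge fun h3 => h.2 h3 h2) p.2 h2.le s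
  · have p := pos' C j
    unfold L
    split_ifs with h2
    · exact share h0 h1 (le_of_not_ge fun h3 => h.1 h3 h2) p.2 h2 (sep'' C j)
    · exact div_nonneg (mul_nonneg p.1.le (le_max_right _ _)) (by norm_num)

theorem cen (hl : S_pvloc) (hL : C.Low) {j : ℤ} (h : Cen C j) :
    1.85 ≤ V C 0 j ∧ -1.1 ≤ V C 2.4 j := by
  obtain ⟨-, hw, hG, -⟩ := hL
  have s1 := sep' C (j - 1)
  have s2 := sep'' C j
  have p1 := pos' C (j - 1)
  have p2 := pos' C j
  have n0 : 0 ≤ max (-C.w j) 0 := le_max_right _ _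
  have m0 : C.w j ≤ max (C.w j) 0 := le_max_left _ _
  have m1 := mul_le_mul_of_nonneg_left m0 p1.1.le
  have m2 := mul_le_mul_of_nonneg_left m0 p2.1.le
  rw [sub_add_cancel] at s1
  unfold V R L
  rw [sub_add_cancel]
  rcases h with ⟨h1, h2⟩ | ⟨h1, h2⟩
  · have k := hl (C.w j) (C.w (j + 1)) (C.w (j - 1)) (C.dx j) (C.dx (j - 1)) (hw j).2
      (hw (j + 1)).1 h2 (hw (j - 1)).1 (hw (j - 1)).2 p2.1 h1 p1.1 p1.2 s2 s1
    rw [if_pos h2, if_pos h2]
    by_cases h3 : C.w j ≤ C.w (j - 1)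
    · rw [if_pos h3, if_pos h3]
      obtain ⟨a, b⟩ := k.2 h3
      constructor <;> linarith
    · rw [if_neg h3, if_neg h3]
      have h4 := (not_le.1 h3).le
      obtain ⟨a, b⟩ := k.1 h4 (by rw [add_comm (C.dx j)]; exact hG j h4 h2)
      constructor <;> linarith
  · have k := hl (C.w j) (C.w (j - 1)) (C.w (j + 1)) (C.dx (j - 1)) (C.dx j) (hw j).2
      (hw (j - 1)).1 h2.le (hw (j + 1)).1 (hw (j + 1)).2 p1.1 h1 p2.1 p2.2 s1 s2
    rw [if_neg (not_le.2 h2), if_neg (not_le.2 h2)]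
    by_cases h3 : C.w (j + 1) ≤ C.w j
    · rw [if_pos h3, if_pos h3]
      have g := hG j h2.le h3
      obtain ⟨a, b⟩ := k.1 h3 (by
        linarith [show (C.w (j - 1) - C.w (j + 1)) ^ 2 = (C.w (j + 1) - C.w (j - 1)) ^ 2 by ring])
      constructor <;> linarith
    · rw [if_neg h3, if_neg h3]
      obtain ⟨a, b⟩ := k.2 (not_le.1 h3).le
      constructor <;> linarith

theorem affine (j : ℤ) : V C 1.4 j = 5 / 12 * V C 0 j + 7 / 12 * V C 2.4 j := by
  unfold V R L shF
  split_ifs <;> ring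

end Pv

theorem pv (hl : S_pvloc) : S_pv := by
  intro d C hd hL
  have hN := hL.1
  have hs : s3 < 1.7321 := by
    unfold s3
    rw [Real.sqrt_lt' (by norm_num)]
    norm_num
  have hs0 : 0 ≤ s3 := Real.sqrt_nonneg _
  have hd' : (d : ℝ) ≤ -1 := by exact_mod_cast hd
  by_cases h2 : ∃ i j, i ≠ j ∧ Pv.Cen C i ∧ Pv.Cen C j
  · obtain ⟨i, j, hij, hi, hj⟩ := h2
    rcases hd.lt_or_eq with h | rfl
    · have hd2 : (d : ℝ) ≤ -2 := by exact_mod_cast (show d ≤ -2 by omega)
      have t := (Pv.total C 1.4).nonneg fun k => by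
        by_cases hk : Pv.Cen C k
        · have := Pv.cen C hl hL hk
          rw [Pv.affine]
          linarith [this.1, this.2]
        · exact Pv.noncen C (by norm_num) (by norm_num) hk
      nlinarith
    · have t := sum_le_hasSum {i, j} (fun k _ => by
        by_cases hk : Pv.Cen C k
        · linarith [(Pv.cen C hl hL hk).1]
        · exact Pv.noncen C le_rfl (by norm_num) hk) (Pv.total C 0)
      rw [Finset.sum_pair hij] at t
      have a := (Pv.cen C hl hL hi).1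
      have b := (Pv.cen C hl hL hj).1
      push_cast
      linarith
  · have t : -1.1 ≤ C.A + 2.4 * (2 * d) + 4 * C.N := by
      by_cases h1 : ∃ i, Pv.Cen C i
      · obtain ⟨i, hi⟩ := h1
        have t := sum_le_hasSum {i} (fun k hk => Pv.noncen C (by norm_num) le_rfl fun hc =>
          h2 ⟨k, i, fun e => hk (Finset.mem_singleton.2 e), hc, hi⟩) (Pv.total C 2.4)
        rw [Finset.sum_singleton] at t
        linarith [(Pv.cen C hl hL hi).2]
      · have t := (Pv.total C 2.4).nonneg fun k =>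
          Pv.noncen C (by norm_num) le_rfl fun hc => h1 ⟨k, hc⟩
        linarith
    nlinarith

end

end Pool.Agent.P.MP_dd077d_co
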