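import Pool.Agent.P.MP_dd077d_co.Iface2

/-! The step from one row to the next. -/

set_option linter.dupNamespace false

namespace Pool.Agent.P.MP_dd077d_co

theorem step (hrb : S_rb) (h3 : S_r3) (h4 : S_r4) (hw : S_rw) (hn : S_idn) (ht : S_tc)
    (hr : S_rec) (hi : S_inv) (hs : S_scal) : S_step := by
  intro U R hU hR hC hN hnu hA hA' hreg
  obtain ⟨i1, i2, -, i4, i5, -, i7, -⟩ := hi U hU
  obtain ⟨uS, uA, -, uE, uh, -, ur, uY⟩ := hU
  obtain ⟨⟨-, u1, -⟩, ⟨-, u2, -⟩, ⟨-, u3, -⟩, -, -, ⟨u4, -, u6, -, u8, -⟩, -⟩ := hrb U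
  obtain ⟨⟨-, r1, -⟩, ⟨-, r2, -⟩, ⟨-, r3, -⟩, ⟨-, r4, -⟩, ⟨-, r5, -⟩, ⟨r6, r7, r8, r9, r10, r11⟩,
    ⟨o1, o2, o3, o4, o5, -, o7⟩, -⟩ := hrb R
  have ur0 : 0 ≤ U.rho := add_nonneg u1 u2
  have ur2 : U.rho ≤ 2 := by linarith
  have tc := fun h => ht U R uS hR hC h ur2 fun i => (i7 i).2
  have pb : R.P ≤ 33 / 20 := by
    rcases hreg with ⟨h, hD⟩ | ⟨-, h⟩
    · have e : Real.sqrt (3 + 3 * (R.A - U.A) + U.rho ^ 2 / 4) ≤ 2.205 :=
        Real.sqrt_le_iff.2 ⟨by norm_num, by nlinarith⟩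
      linarith [(tc h).1, min_le_left U.rho (U.Y / 2), s3_lb]
    · linarith
  have rr : R.rho = R.P + R.nu := rfl
  obtain ⟨-, a2, a3, a4, a5, a6, a7⟩ := h3 R hR (by linarith)
  obtain ⟨-, b2, -, b4, b5, -⟩ := h3 U uS ur2
  obtain ⟨c1, c2, c3⟩ := h4 R
  obtain ⟨d1, d2⟩ := hw U R hC
  have e1 := hr U R hC (by linarith)
  have eA : U.A + (R.A - U.A) = R.A := by ring
  let s : Sc :=
    { a := U.A, D := R.A - U.A, z := R.z, E1 := U.E, h1 := U.eta, r1 := U.rho, t1 := U.Y,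
      S1 := U.S, N := R.N, nu := R.nu, P := R.P, Y := R.Y, S := R.S, Ss := R.Ss, G := Row.G U R,
      f := R.f, zs := R.zs, E := R.E, h := R.eta
      nn1 := ⟨uA, by linarith, r11, u8, u3, ur0, u6, u4, r9, r2⟩
      nn2 := ⟨r1, r8, r6, r7, d1, r4, r5, r10, r3⟩
      top := by linarith
      inv := ⟨uE, uh, ur, i5, by linarith⟩
      lnk := ⟨hN, hnu, o5, o7⟩
      pb := pb
      r3a := by rw [eA]; exact a6
      r3b := by rw [eA]; exact a7
      ord := ⟨o1, o2, o3, o4, a2⟩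
      r4a := a5.trans c1
      r4b := fun h p m fu zu h1 h2 h3 h4 h5 => a5.trans (c2 h p m fu zu h1 h2 h3 h4 h5)
      pM := c3
      fz := fun h => (e1 h).1
      wv := fun h => ⟨a5.trans (d2 h).1,
        ((mul_le_mul_of_nonneg_left b2 (by positivity)).trans b5).trans (d2 h).2⟩
      idn := fun h1 h2 h3 => by
        have := hn U R hC h1 h2 h3
        rw [rr] at a4
        linarith
      rcE := fun h1 h2 h3 => ((e1 h1).2 h2 h3).1
      rcH := fun h1 h2 h3 => ((e1 h1).2 h2 h3).2 }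
  have key := hs s (hreg.imp (fun h => ⟨h.2, (tc h.1).1, (tc h.1).2.1, fun hl => by
    have l0 : 0 ≤ max ((2 + R.Ss) ^ 2) (4 + R.rho ^ 2) := le_max_of_le_left (sq_nonneg _)
    exact (tc h.1).2.2 _ (Real.sqrt_nonneg _) ((Real.sq_sqrt l0).trans_le hl)
      fun i => (a3 i).trans (Real.sq_sqrt l0).ge⟩) id)
  rw [show s.a + s.D = R.A from eA] at key
  exact ⟨hR, by linarith, hA', key⟩

end Pool.Agent.P.MP_dd077d_co
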